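import Mathlib

/-! Logarithms on zero-free discs, Borel-Caratheodory bounds, and the Landau lemma. -/

namespace Pool.Agent.Lib.MP_b09185_nt.Mai

open Complex Metric Set

lemma exists_log {f : ℂ → ℂ} {c : ℂ} {r : ℝ} (hr : 0 < r)
    (hf : DifferentiableOn ℂ f (ball c r)) (h0 : ∀ z ∈ ball c r, f z ≠ 0) :
    ∃ h : ℂ → ℂ, h c = 0 ∧ (∀ z ∈ ball c r, HasDerivAt h (deriv f z / f z) z) ∧
      ∀ z ∈ ball c r, f z = f c * exp (h z) := by
  have hg : DifferentiableOn ℂ (fun z => deriv f z / f z) (ball c r) :=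
    (hf.deriv isOpen_ball).div hf h0
  obtain ⟨h, hc, hh⟩ := hg.isExactOn_ball.with_val_at c 0
  refine ⟨h, hc, hh, fun z hz => ?_⟩
  have hd : ∀ w ∈ ball c r, HasDerivAt (fun w => f w * exp (-h w)) 0 w := by
    intro w hw
    have h1 := (hf.differentiableAt (isOpen_ball.mem_nhds hw)).hasDerivAt
    have h2 := (hh w hw).neg.cexp
    have h3 := h1.mul h2
    have h4 := h0 w hw
    have e : deriv f w * exp ((-h) w) + f w * (exp ((-h) w) * -(deriv f w / f w)) = 0 := by
      field_simp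
      ring
    rw [e] at h3
    exact h3
  have hconst := isOpen_ball.is_const_of_deriv_eq_zero (convex_ball c r).isPreconnected
    (fun w hw => (hd w hw).differentiableAt.differentiableWithinAt)
    (fun w hw => (hd w hw).deriv) hz (mem_ball_self hr)
  simp only [hc, neg_zero, exp_zero, mul_one] at hconst
  rw [← hconst, mul_assoc, ← exp_add]
  simp

lemma bc_log {f : ℂ → ℂ} {c : ℂ} {r B M : ℝ} (hr : 0 < r) (hM : 0 < M)
    (hf : DifferentiableOn ℂ f (ball c r)) (h0 : ∀ z ∈ ball c r, f z ≠ 0)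
    (hB : ∀ z ∈ ball c r, ‖f z‖ ≤ B) (hBM : B ≤ Real.exp M * ‖f c‖) :
    ∃ h : ℂ → ℂ, (∀ z ∈ ball c r, HasDerivAt h (deriv f z / f z) z) ∧
      (∀ z ∈ ball c r, f z = f c * exp (h z)) ∧
      ∀ z ∈ closedBall c (r / 2), ‖h z‖ ≤ 2 * M := by
  obtain ⟨h, hc, hh, he⟩ := exists_log hr hf h0
  refine ⟨h, hh, he, fun z hz => ?_⟩
  have hfc : 0 < ‖f c‖ := norm_pos_iff.2 (h0 c (mem_ball_self hr))
  have hmem : ∀ w ∈ ball (0 : ℂ) r, c + w ∈ ball c r := by
    intro w hw
    simpa [mem_ball, dist_eq_norm] using hw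
  have hd : DifferentiableOn ℂ (fun w => h (c + w)) (ball 0 r) := by
    intro w hw
    exact (((hh _ (hmem w hw)).differentiableAt).comp w (by fun_prop)).differentiableWithinAt
  have hre : MapsTo (fun w => h (c + w)) (ball 0 r) {z | z.re ≤ M} := by
    intro w hw
    have h1 := hB _ (hmem w hw)
    rw [he _ (hmem w hw), norm_mul, norm_exp] at h1
    have h2 : Real.exp (h (c + w)).re ≤ Real.exp M := by
      have := h1.trans hBM
      rw [mul_comm] at this
      exact le_of_mul_le_mul_right this hfc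
    exact Real.exp_le_exp.1 h2
  have hz' : ‖z - c‖ ≤ r / 2 := by simpa [mem_closedBall, dist_eq_norm] using hz
  have h3 := borelCaratheodory_zero hM hd hre hr (z := z - c)
    (by simp only [mem_ball, dist_zero_right]; linarith) (by simp [hc])
  simp only [add_sub_cancel] at h3
  refine h3.trans ?_
  rw [div_le_iff₀ (by linarith)]
  nlinarith

/-- lower bound for a zero-free function on the half disc -/
lemma inv_le {f : ℂ → ℂ} {c : ℂ} {r B M : ℝ} (hr : 0 < r) (hM : 0 < M)
    (hf : DifferentiableOn ℂ f (ball c r)) (h0 : ∀ z ∈ ball c r, f z ≠ 0)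
    (hB : ∀ z ∈ ball c r, ‖f z‖ ≤ B) (hBM : B ≤ Real.exp M * ‖f c‖) {z : ℂ}
    (hz : z ∈ closedBall c (r / 2)) : ‖f c‖ ≤ Real.exp (2 * M) * ‖f z‖ := by
  obtain ⟨h, -, he, hb⟩ := bc_log hr hM hf h0 hB hBM
  have hz' : z ∈ ball c r := closedBall_subset_ball (by linarith) hz
  rw [he z hz', norm_mul, norm_exp, mul_left_comm, ← Real.exp_add]
  have h1 : -(2 * M) ≤ (h z).re := by
    have := abs_re_le_norm (h z)
    have := neg_abs_le (h z).re
    linarith [hb z hz]
  have h2 : 1 ≤ Real.exp (2 * M + (h z).re) := Real.one_le_exp (by linarith)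
  nlinarith [norm_nonneg (f c)]

lemma logderiv_le {f : ℂ → ℂ} {c : ℂ} {r B M : ℝ} (hr : 0 < r) (hM : 0 < M)
    (hf : DifferentiableOn ℂ f (ball c r)) (h0 : ∀ z ∈ ball c r, f z ≠ 0)
    (hB : ∀ z ∈ ball c r, ‖f z‖ ≤ B) (hBM : B ≤ Real.exp M * ‖f c‖) :
    ‖deriv f c / f c‖ ≤ 4 * M / r := by
  obtain ⟨h, hh, -, hb⟩ := bc_log hr hM hf h0 hB hBM
  rw [← (hh c (mem_ball_self hr)).deriv]
  have hd : DiffContOnCl ℂ h (ball c (r / 2)) := by
    apply DifferentiableOn.diffContOnCl
    rw [closure_ball c (by linarith)]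
    intro w hw
    exact (hh w (closedBall_subset_ball (by linarith) hw)).differentiableAt.differentiableWithinAt
  have := norm_deriv_le_of_forall_mem_sphere_norm_le (by linarith) hd
    (fun z hz => hb z (sphere_subset_closedBall hz))
  refine this.trans (le_of_eq ?_)
  field_simp
  ring

/-- removing one zero -/
lemma step {f : ℂ → ℂ} {c ρ : ℂ} {R B : ℝ} (hR : 0 < R)
    (hf : DifferentiableOn ℂ f (ball c R)) (hB : ∀ z ∈ ball c R, ‖f z‖ ≤ B) (hc : f c ≠ 0)
    (hρ : ρ ∈ ball c (R / 4)) (hz : f ρ = 0) :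
    ∃ g : ℂ → ℂ, DifferentiableOn ℂ g (ball c R) ∧ (∀ z ∈ ball c R, ‖g z‖ ≤ B) ∧
      (∀ z, g z = 0 → f z = 0) ∧ 2 * ‖f c‖ ≤ ‖g c‖ ∧
      deriv f c / f c = deriv g c / g c + 1 / (c - ρ) := by
  have hρ' : ρ ∈ ball c R := ball_subset_ball (by linarith) hρ
  have hρn : ‖c - ρ‖ < R / 4 := by
    rw [mem_ball, dist_comm, dist_eq_norm] at hρ
    exact hρ
  set g : ℂ → ℂ := fun z => (R / 2 : ℝ) * dslope f ρ z with hg
  have hgd : DifferentiableOn ℂ g (ball c R) :=
    ((differentiableOn_dslope (isOpen_ball.mem_nhds hρ')).2 hf).const_mul _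
  have hR2 : ((R / 2 : ℝ) : ℂ) ≠ 0 := by exact_mod_cast (by positivity : R / 2 ≠ 0)
  have key : ∀ z, (R / 2 : ℝ) * f z = (z - ρ) * g z := by
    intro z
    have := sub_smul_dslope f ρ z
    rw [hz, sub_zero, smul_eq_mul] at this
    rw [hg, ← this]
    ring
  have keyn : ∀ z, R / 2 * ‖f z‖ = ‖z - ρ‖ * ‖g z‖ := by
    intro z
    have := congrArg norm (key z)
    rwa [norm_mul, norm_mul, norm_real, Real.norm_of_nonneg (by positivity)] at this
  have hout : ∀ z ∈ ball c R, 3 * R / 4 ≤ ‖z - c‖ → ‖g z‖ ≤ B := by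
    intro z hz1 hz2
    have h1 : R / 2 ≤ ‖z - ρ‖ := by
      have := norm_sub_le_norm_sub_add_norm_sub z ρ c
      rw [norm_sub_rev ρ c] at this
      linarith
    have h2 := keyn z
    have h3 := hB z hz1
    have h4 : R / 2 * ‖g z‖ ≤ R / 2 * B := by nlinarith [norm_nonneg (g z)]
    exact le_of_mul_le_mul_left h4 (by positivity)
  have hcρ : c - ρ ≠ 0 := by
    intro h
    rw [sub_eq_zero] at h
    exact hc (h ▸ hz)
  have hgc : g c ≠ 0 := by
    intro h
    have := key c
    rw [h, mul_zero] at this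
    exact hc ((mul_eq_zero.1 this).resolve_left hR2)
  refine ⟨g, hgd, fun z hz1 => ?_, fun z h => ?_, ?_, ?_⟩
  · rcases le_or_gt (3 * R / 4) ‖z - c‖ with h | h
    · exact hout z hz1 h
    · have hsub : closedBall c (3 * R / 4) ⊆ ball c R := closedBall_subset_ball (by linarith)
      apply norm_le_of_forall_mem_frontier_norm_le (U := ball c (3 * R / 4)) isBounded_ball
      · apply DifferentiableOn.diffContOnCl
        rw [closure_ball c (by positivity)]
        exact hgd.mono hsub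
      · intro w hw
        rw [frontier_ball c (by positivity)] at hw
        refine hout w (hsub (sphere_subset_closedBall hw)) ?_
        rw [mem_sphere, dist_eq_norm] at hw
        exact hw.ge
      · apply subset_closure
        rwa [mem_ball, dist_eq_norm]
  · have := key z
    rw [h, mul_zero] at this
    exact (mul_eq_zero.1 this).resolve_left hR2
  · have h2 := keyn c
    have h4 : R / 4 * (2 * ‖f c‖) ≤ R / 4 * ‖g c‖ := by nlinarith [norm_nonneg (g c)]
    exact le_of_mul_le_mul_left h4 (by positivity)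
  · have hf1 := (hf.differentiableAt (ball_mem_nhds c hR)).hasDerivAt
    have hg1 := (hgd.differentiableAt (ball_mem_nhds c hR)).hasDerivAt
    have h1 := hf1.const_mul ((R / 2 : ℝ) : ℂ)
    have h2 := ((hasDerivAt_id c).sub_const ρ).mul hg1
    have h3 : (fun z => ((R / 2 : ℝ) : ℂ) * f z) = fun z => (z - ρ) * g z := funext key
    rw [h3] at h1
    have h4 := h1.unique h2
    simp only [id, one_mul] at h4
    have h5 := key c
    have e : deriv f c / f c = ((R / 2 : ℝ) * deriv f c) / ((R / 2 : ℝ) * f c) := by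
      field_simp
    rw [e, h4, h5]
    field_simp
    ring

lemma re_inv_nonneg {w : ℂ} (h : 0 ≤ w.re) : 0 ≤ (1 / w).re := by
  rw [one_div, inv_re]
  exact div_nonneg h (normSq_nonneg w)

lemma landau_aux {c : ℂ} {R B M : ℝ} (hR : 0 < R) (hM : 0 < M) (n : ℕ) :
    ∀ f : ℂ → ℂ, DifferentiableOn ℂ f (ball c R) → (∀ z ∈ ball c R, ‖f z‖ ≤ B) →
      (∀ z ∈ ball c R, f z = 0 → z.re < c.re) → B ≤ Real.exp M * ‖f c‖ →
      B < 2 ^ n * ‖f c‖ → -(deriv f c / f c).re ≤ 16 * M / R := by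
  induction n with
  | zero =>
    intro f _ hB _ _ h
    have := hB c (mem_ball_self hR)
    simp at h
    linarith
  | succ n ih =>
    intro f hf hB hz hM' hn
    have hc : f c ≠ 0 := fun h => lt_irrefl _ (hz c (mem_ball_self hR) h)
    by_cases h : ∃ ρ ∈ ball c (R / 4), f ρ = 0
    · obtain ⟨ρ, hρ, hρ0⟩ := h
      obtain ⟨g, hg, hgB, hg0, hgc, he⟩ := step hR hf hB hc hρ hρ0
      have h1 := ih g hg hgB (fun z hz1 h => hz z hz1 (hg0 z h))
        (hM'.trans (by
          apply mul_le_mul_of_nonneg_left _ (Real.exp_pos M).le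
          linarith [norm_nonneg (f c)]))
        (hn.trans_le (by
          rw [pow_succ, mul_assoc]
          exact mul_le_mul_of_nonneg_left hgc (by positivity)))
      have h2 := hz ρ (ball_subset_ball (by linarith) hρ) hρ0
      have h3 := re_inv_nonneg (w := c - ρ) (by simp; linarith)
      rw [he, add_re]
      linarith
    · push Not at h
      have hs : ball c (R / 4) ⊆ ball c R := ball_subset_ball (by linarith)
      have h1 := logderiv_le (by positivity : 0 < R / 4) hM (hf.mono hs) h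
        (fun z hz => hB z (hs hz)) hM'
      have h2 := abs_re_le_norm (deriv f c / f c)
      have h3 := neg_abs_le (deriv f c / f c).re
      have e : 4 * M / (R / 4) = 16 * M / R := by field_simp; ring
      linarith

/-- Landau lemma, no zero singled out -/
lemma landau0 {f : ℂ → ℂ} {c : ℂ} {R B M : ℝ} (hR : 0 < R) (hM : 0 < M)
    (hf : DifferentiableOn ℂ f (ball c R)) (hB : ∀ z ∈ ball c R, ‖f z‖ ≤ B)
    (hz : ∀ z ∈ ball c R, f z = 0 → z.re < c.re) (hM' : B ≤ Real.exp M * ‖f c‖) :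
    -(deriv f c / f c).re ≤ 16 * M / R := by
  have hc : f c ≠ 0 := fun h => lt_irrefl _ (hz c (mem_ball_self hR) h)
  have hc' : 0 < ‖f c‖ := norm_pos_iff.2 hc
  obtain ⟨n, hn⟩ := pow_unbounded_of_one_lt (B / ‖f c‖) (one_lt_two (α := ℝ))
  exact landau_aux hR hM n f hf hB hz hM' ((div_lt_iff₀ hc').1 hn)

/-- Landau lemma with one zero singled out -/
lemma landau1 {f : ℂ → ℂ} {c ρ : ℂ} {R B M : ℝ} (hR : 0 < R) (hM : 0 < M)
    (hf : DifferentiableOn ℂ f (ball c R)) (hB : ∀ z ∈ ball c R, ‖f z‖ ≤ B)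
    (hz : ∀ z ∈ ball c R, f z = 0 → z.re < c.re) (hM' : B ≤ Real.exp M * ‖f c‖)
    (hρ : ρ ∈ ball c (R / 4)) (hρ0 : f ρ = 0) :
    -(deriv f c / f c).re ≤ 16 * M / R - (1 / (c - ρ)).re := by
  have hc : f c ≠ 0 := fun h => lt_irrefl _ (hz c (mem_ball_self hR) h)
  obtain ⟨g, hg, hgB, hg0, hgc, he⟩ := step hR hf hB hc hρ hρ0
  have h1 := landau0 hR hM hg hgB (fun z hz1 h => hz z hz1 (hg0 z h))
    (hM'.trans (by
      apply mul_le_mul_of_nonneg_left _ (Real.exp_pos M).le
      linarith [norm_nonneg (f c)]))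
  rw [he, add_re]
  linarith

end Pool.Agent.Lib.MP_b09185_nt.Mai
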