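import Pool.Agent.Lib.MP_31bf45_nt.Gam
import Pool.Agent.Lib.SW.LBound

/-! The factor in the functional equation of the zeta function and polynomial growth in strips. -/

namespace Pool.Agent.Lib.MP_b09185_nt.Sh

open Complex Filter Topology Finset Pool.Agent.Lib.MP_31bf45_nt
open scoped Real

/-- the factor in the functional equation -/
noncomputable def chi (s : ℂ) : ℂ :=
  2 * (2 * π) ^ (s - 1) * Gamma (1 - s) * cos (π * (1 - s) / 2)

lemma one_sub_ne {s : ℂ} (hs : s.re < 1) (n : ℕ) : 1 - s ≠ -n := fun h => by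
  have := congrArg re h
  simp at this
  have : (0 : ℝ) ≤ n := n.cast_nonneg
  linarith

theorem zeta_refl {s : ℂ} (hs : s.re < 1) (h0 : s ≠ 0) :
    riemannZeta s = chi s * riemannZeta (1 - s) := by
  have := riemannZeta_one_sub (s := 1 - s) (one_sub_ne hs) (by simpa using h0)
  rw [sub_sub_cancel, neg_sub] at this
  exact this

theorem chi_diffAt {s : ℂ} (hs : s.re < 1) : DifferentiableAt ℂ chi s := by
  have h1 : DifferentiableAt ℂ (fun z : ℂ => Gamma (1 - z)) s :=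
    (differentiableAt_Gamma _ (one_sub_ne hs)).comp s (by fun_prop)
  have h2 : DifferentiableAt ℂ (fun z : ℂ => (2 * π : ℂ) ^ (z - 1)) s :=
    DifferentiableAt.const_cpow (by fun_prop) (Or.inl (by simp))
  unfold chi
  fun_prop

theorem chi_diff : DifferentiableOn ℂ chi {s | s.re < 1} :=
  fun _ hs => (chi_diffAt hs).differentiableWithinAt

lemma norm_cos_sq (a b : ℝ) :
    ‖cos ((a : ℂ) + b * I)‖ ^ 2 = (Real.cos (2 * a) + Real.cosh (2 * b)) / 2 := by
  rw [cos_add_mul_I, ← ofReal_cos, ← ofReal_cosh, ← ofReal_sin, ← ofReal_sinh, ← ofReal_mul,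
    ← ofReal_mul, sub_eq_add_neg, ← neg_mul, ← ofReal_neg, Complex.sq_norm, normSq_add_mul_I,
    Real.cos_two_mul, Real.cosh_two_mul]
  have h1 := Real.sin_sq_add_cos_sq a
  have h2 := Real.cosh_sq b
  have h3 : Real.sin a ^ 2 = 1 - Real.cos a ^ 2 := by linarith
  rw [neg_sq, mul_pow, mul_pow, h3, h2]
  ring

lemma norm_chi_sq (σ t : ℝ) : ‖chi (σ + t * I)‖ ^ 2 = 2 * (2 * π) ^ (2 * (σ - 1)) *
    ‖Gamma ((1 - σ : ℝ) + (-t : ℝ) * I)‖ ^ 2 * (Real.cos (π * (1 - σ)) + Real.cosh (π * t)) := by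
  have e1 : (1 - (σ + t * I) : ℂ) = (1 - σ : ℝ) + (-t : ℝ) * I := by push_cast; ring
  have e2 : (π * (1 - (σ + t * I)) / 2 : ℂ) = (π * (1 - σ) / 2 : ℝ) + (-(π * t) / 2 : ℝ) * I := by
    push_cast; ring
  have e3 : ‖(2 * π : ℂ) ^ ((σ + t * I : ℂ) - 1)‖ = (2 * π) ^ (σ - 1) := by
    rw [show (2 * π : ℂ) = (2 * π : ℝ) by push_cast; ring,
      norm_cpow_eq_rpow_re_of_pos (by positivity)]
    simp
  unfold chi
  rw [e2, e1, norm_mul, norm_mul, norm_mul, mul_pow, mul_pow, mul_pow, norm_cos_sq, e3,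
    ← Real.rpow_natCast ((2 * π) ^ (σ - 1)), ← Real.rpow_mul (by positivity),
    show 2 * (π * (1 - σ) / 2) = π * (1 - σ) by ring, show 2 * (-(π * t) / 2) = -(π * t) by ring,
    Real.cosh_neg, mul_comm (σ - 1)]
  simp
  ring

lemma gam_line (k : ℕ) (y : ℝ) : ‖Gamma ((1 / 2 + k : ℝ) + y * I)‖ ^ 2 ≤
    (k + |y|) ^ (2 * k) * (π / Real.cosh (π * y)) := by
  induction k with
  | zero => simpa using (gam_half y).le
  | succ k ih =>
    have hk : (0 : ℝ) ≤ k := k.cast_nonneg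
    have hy := abs_nonneg y
    have hc := Real.cosh_pos (π * y)
    rw [show (1 / 2 + (k + 1 : ℕ) : ℝ) = 1 / 2 + k + 1 by push_cast; ring,
      gam_succ (by positivity), show 2 * (k + 1) = 2 + 2 * k by ring, pow_add, mul_assoc]
    push_cast
    refine mul_le_mul (by nlinarith [sq_abs y]) (le_trans (by simpa using ih) ?_) (by positivity)
      (by positivity)
    gcongr
    linarith

theorem chi_half (t : ℝ) : ‖chi ((1 / 2 : ℝ) + t * I)‖ = 1 := by
  have h := norm_chi_sq (1 / 2) t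
  have hc := Real.cosh_pos (π * t)
  rw [show (1 - 1 / 2 : ℝ) = 1 / 2 by norm_num, gam_half, show π * (1 / 2) = π / 2 by ring,
    Real.cos_pi_div_two, show 2 * (1 / 2 - 1 : ℝ) = -1 by norm_num, Real.rpow_neg_one,
    show π * -t = -(π * t) by ring, Real.cosh_neg] at h
  refine (pow_eq_one_iff_of_nonneg (norm_nonneg _) two_ne_zero).1 (h.trans ?_)
  field_simp
  simp

lemma gam_mono {x z : ℝ} (hx : 0 < x) (h : x ≤ z) (y : ℝ) :
    ‖Gamma (x + y * I)‖ ^ 2 * Real.Gamma z ^ 2 ≤ ‖Gamma (z + y * I)‖ ^ 2 * Real.Gamma x ^ 2 := by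
  refine le_of_tendsto_of_tendsto (((GammaSeq_tendsto_Gamma _).norm.pow 2).mul
    ((Real.GammaSeq_tendsto_Gamma _).pow 2)) (((GammaSeq_tendsto_Gamma _).norm.pow 2).mul
    ((Real.GammaSeq_tendsto_Gamma _).pow 2)) ?_
  filter_upwards [eventually_ge_atTop 1] with n hn
  rw [gs_norm hx y hn, gs_norm (hx.trans_le h) y hn, mul_right_comm,
    mul_right_comm (Real.GammaSeq z n ^ 2), mul_comm (Real.GammaSeq z n ^ 2)]
  gcongr with j

lemma gam_half_le (k : ℕ) : Real.Gamma (1 / 2) ≤ 2 * Real.Gamma (1 / 2 + k) := by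
  have h0 := Real.Gamma_pos_of_pos (show (0 : ℝ) < 1 / 2 by norm_num)
  induction k with
  | zero => simp only [Nat.cast_zero, add_zero]; linarith
  | succ k ih =>
    have hk : (0 : ℝ) ≤ k := k.cast_nonneg
    rw [show (1 / 2 + (k + 1 : ℕ) : ℝ) = 1 / 2 + k + 1 by push_cast; ring,
      Real.Gamma_add_one (by positivity)]
    rcases Nat.eq_zero_or_pos k with rfl | h
    · simp only [Nat.cast_zero, add_zero]; linarith
    · have : (1 : ℝ) ≤ k := by exact_mod_cast h
      nlinarith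

lemma gam_strip (k : ℕ) {x : ℝ} (h1 : 1 / 2 ≤ x) (h2 : x ≤ 1 / 2 + k) (y : ℝ) :
    ‖Gamma (x + y * I)‖ ^ 2 ≤ 4 * ((k + |y|) ^ (2 * k) * (π / Real.cosh (π * y))) := by
  have hk : (0 : ℝ) ≤ k := k.cast_nonneg
  have h0 := Real.Gamma_pos_of_pos (show (0 : ℝ) < 1 / 2 + k by positivity)
  have hx := Real.Gamma_pos_of_pos (show (0 : ℝ) < x by linarith)
  have h3 : Real.Gamma x ≤ 2 * Real.Gamma (1 / 2 + k) :=
    (Real.convexOn_Gamma.le_max_of_mem_Icc (show (0 : ℝ) < 1 / 2 by norm_num)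
      (show (0 : ℝ) < 1 / 2 + k by positivity) ⟨h1, h2⟩).trans
      (max_le (gam_half_le k) (by linarith))
  have h4 := gam_mono (show 0 < x by linarith) h2 y
  have h5 := gam_line k y
  have h6 : Real.Gamma x ^ 2 ≤ 4 * Real.Gamma (1 / 2 + k) ^ 2 := by nlinarith
  refine le_of_mul_le_mul_right (h4.trans ?_) (pow_pos h0 2)
  calc _ ≤ ((k + |y|) ^ (2 * k) * (π / Real.cosh (π * y))) * (4 * Real.Gamma (1 / 2 + k) ^ 2) :=
        mul_le_mul h5 h6 (by positivity) (le_trans (by positivity) h5)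
    _ = _ := by ring

/-- polynomial growth to the left of the critical line -/
theorem chi_strip (k : ℕ) {s : ℂ} (h1 : 1 / 2 - k ≤ s.re) (h2 : s.re ≤ 1 / 2) :
    ‖chi s‖ ≤ 3 * (k + |s.im|) ^ k := by
  have hc := Real.cosh_pos (π * s.im)
  have hp := Real.pi_gt_three
  have h3 := gam_strip k (x := 1 - s.re) (by linarith) (by linarith) (-s.im)
  rw [abs_neg, show π * -s.im = -(π * s.im) by ring, Real.cosh_neg] at h3
  have h4 : (2 * π) ^ (2 * (s.re - 1)) ≤ (2 * π)⁻¹ := by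
    rw [← Real.rpow_neg_one]
    exact Real.rpow_le_rpow_of_exponent_le (by linarith) (by linarith)
  have h5 : Real.cos (π * (1 - s.re)) + Real.cosh (π * s.im) ≤ 2 * Real.cosh (π * s.im) := by
    linarith [Real.cos_le_one (π * (1 - s.re)), Real.one_le_cosh (π * s.im)]
  have h6 : 0 ≤ Real.cos (π * (1 - s.re)) + Real.cosh (π * s.im) := by
    linarith [Real.neg_one_le_cos (π * (1 - s.re)), Real.one_le_cosh (π * s.im)]
  refine (pow_le_pow_iff_left₀ (norm_nonneg _) (by positivity) two_ne_zero).1 ?_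
  have hK : 0 ≤ ((k : ℝ) + |s.im|) ^ (2 * k) := by positivity
  calc ‖chi s‖ ^ 2 = _ := by rw [← re_add_im s, norm_chi_sq]
    _ ≤ 2 * (2 * π)⁻¹ * (4 * ((k + |s.im|) ^ (2 * k) * (π / Real.cosh (π * s.im)))) *
        (2 * Real.cosh (π * s.im)) := by gcongr
    _ = 8 * (k + |s.im|) ^ (2 * k) := by field_simp; ring
    _ ≤ _ := by rw [mul_pow, ← pow_mul, mul_comm k 2]; linarith

/-- exact size on the lines of real part one half minus an integer -/
theorem chi_line (k : ℕ) (t : ℝ) : ‖chi ((1 / 2 - k : ℝ) + t * I)‖ ≤ ((k + |t|) / 6) ^ k := by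
  have hc := Real.cosh_pos (π * t)
  have hp := Real.pi_gt_three
  have h3 := gam_line k (-t)
  rw [abs_neg, show π * -t = -(π * t) by ring, Real.cosh_neg] at h3
  have h4 : (2 * π) ^ (2 * (1 / 2 - k - 1 : ℝ)) ≤ (2 * π)⁻¹ * (6 ^ (2 * k))⁻¹ := by
    rw [show (2 * (1 / 2 - k - 1) : ℝ) = -1 + -((2 * k : ℕ) : ℝ) by push_cast; ring,
      Real.rpow_add (by positivity), Real.rpow_neg_one, Real.rpow_neg (by positivity),
      Real.rpow_natCast]
    gcongr
    linarith
  have h5 : Real.cos (π * (1 - (1 / 2 - k))) = 0 :=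
    Real.cos_eq_zero_iff.2 ⟨k, by push_cast; ring⟩
  refine (pow_le_pow_iff_left₀ (norm_nonneg _) (by positivity) two_ne_zero).1 ?_
  rw [norm_chi_sq, h5, zero_add, show (1 - (1 / 2 - k) : ℝ) = 1 / 2 + k by ring]
  calc _ ≤ 2 * ((2 * π)⁻¹ * (6 ^ (2 * k))⁻¹) * ((k + |t|) ^ (2 * k) * (π / Real.cosh (π * t))) *
        Real.cosh (π * t) := by gcongr
    _ = _ := by rw [← pow_mul, mul_comm k 2, div_pow]; field_simp

lemma zeta_right {s : ℂ} (h1 : 1 / 2 ≤ s.re) (h2 : 1 ≤ |s.im|) :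
    ‖riemannZeta s‖ ≤ 2 * SW.Zc (1 / 2) * (‖s‖ + 1) := by
  have hs : s ≠ 1 := fun h => by
    rw [h] at h2
    norm_num at h2
  have h3 := SW.zeta0_bound (η := 1 / 2) (by norm_num) le_rfl (s := s) (by linarith)
  rw [show (2 * (1 / 2) : ℝ) = 1 by norm_num, Real.rpow_one] at h3
  have h4 : ‖(s - 1)⁻¹‖ ≤ 1 := by
    rw [norm_inv]
    exact inv_le_one_of_one_le₀ (h2.trans (by simpa using abs_im_le_norm (s - 1)))
  have h5 := SW.Zc_ge (η := 1 / 2) (by norm_num)
  rw [riemannZeta_eq_inv_sub_add hs]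
  refine (norm_add_le _ _).trans ?_
  nlinarith [norm_nonneg s]

/-- polynomial growth of the zeta function in a strip -/
theorem zeta_strip (k : ℕ) : ∃ C : ℝ, 1 ≤ C ∧ ∀ s : ℂ, |s.re - 1 / 2| ≤ k → 1 ≤ |s.im| →
    ‖riemannZeta s‖ ≤ C * |s.im| ^ (k + 1) := by
  have h5 := SW.Zc_ge (η := 1 / 2) (by norm_num)
  have hk : (0 : ℝ) ≤ k := k.cast_nonneg
  have hK : (1 : ℝ) ≤ (k + 1) ^ k := one_le_pow₀ (by linarith)
  have right : ∀ s : ℂ, 1 / 2 ≤ s.re → s.re ≤ 1 / 2 + k → 1 ≤ |s.im| →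
      ‖riemannZeta s‖ ≤ 2 * SW.Zc (1 / 2) * ((k + 3) * |s.im|) := fun s h1 h2 h3 =>
    (zeta_right h1 h3).trans (by
      have := norm_le_abs_re_add_abs_im s
      rw [abs_of_nonneg (show 0 ≤ s.re by linarith)] at this
      gcongr
      nlinarith)
  refine ⟨3 * (k + 1) ^ k * (2 * SW.Zc (1 / 2) * (k + 3)), ?_, fun s h1 h2 => ?_⟩
  · refine one_le_mul_of_one_le_of_one_le (by linarith) (by nlinarith)
  have ht : (1 : ℝ) ≤ |s.im| ^ k := one_le_pow₀ h2
  rw [abs_le] at h1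
  have e : 3 * (k + 1) ^ k * (2 * SW.Zc (1 / 2) * (k + 3)) * |s.im| ^ (k + 1) =
      3 * ((k + 1) * |s.im|) ^ k * (2 * SW.Zc (1 / 2) * ((k + 3) * |s.im|)) := by
    rw [mul_pow]; ring
  rw [e]
  rcases le_total (1 / 2) s.re with h | h
  · refine (right s h (by linarith) h2).trans (le_mul_of_one_le_left (by positivity) ?_)
    rw [mul_pow]
    nlinarith
  · have hs : s ≠ 0 := fun h0 => by
      rw [h0] at h2
      norm_num at h2
    have h3 := right (1 - s) (by simp; linarith) (by simp; linarith) (by simpa using h2)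
    simp only [sub_im, one_im, zero_sub, abs_neg] at h3
    rw [zeta_refl (by linarith) hs, norm_mul]
    refine mul_le_mul ((chi_strip k (by linarith) h).trans ?_) h3 (norm_nonneg _) (by positivity)
    gcongr
    nlinarith

/-- polynomial growth of the entire function `(s - 1) ζ(s)` in a strip -/
theorem zeta1_strip (k : ℕ) : ∃ C : ℝ, 1 ≤ C ∧ ∀ s : ℂ, |s.re - 1 / 2| ≤ k →
    ‖riemannZeta₁ s‖ ≤ C * (1 + |s.im|) ^ (k + 2) := by
  obtain ⟨C, hC, h⟩ := zeta_strip k
  have hk : (0 : ℝ) ≤ k := k.cast_nonneg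
  obtain ⟨D, hD⟩ := (isCompact_closedBall (0 : ℂ) (k + 2)).exists_bound_of_continuousOn
    differentiable_riemannZeta₁.continuous.continuousOn
  refine ⟨max D (C * (k + 2)), le_max_of_le_right (by nlinarith), fun s h1 => ?_⟩
  have ht := abs_nonneg s.im
  have h2 := abs_le.1 h1
  rcases le_total |s.im| 1 with h3 | h3
  · have : ‖s‖ ≤ k + 2 := by
      have h4 : |s.re| ≤ k + 1 := abs_le.2 ⟨by linarith, by linarith⟩
      linarith [norm_le_abs_re_add_abs_im s]
    refine ((hD s (by simpa using this)).trans (le_max_left _ (C * (k + 2)))).trans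
      (le_mul_of_one_le_right (le_max_of_le_right (by positivity)) (one_le_pow₀ (by linarith)))
  · have hs : s ≠ 1 := fun h0 => by
      rw [h0] at h3
      norm_num at h3
    have e : riemannZeta₁ s = (s - 1) * riemannZeta s := by
      rw [riemannZeta_eq_inv_sub_mul hs, mul_inv_cancel_left₀ (sub_ne_zero.2 hs)]
    have h4 : ‖s - 1‖ ≤ (k + 2) * (1 + |s.im|) := by
      have h5 : |(s - 1).re| ≤ k + 1 := by
        rw [sub_re, one_re]
        exact abs_le.2 ⟨by linarith, by linarith⟩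
      have h6 := norm_le_abs_re_add_abs_im (s - 1)
      simp only [sub_im, one_im, sub_zero] at h6
      nlinarith
    rw [e, norm_mul]
    calc _ ≤ (k + 2) * (1 + |s.im|) * (C * (1 + |s.im|) ^ (k + 1)) := by
          refine mul_le_mul h4 ((h s h1 h3).trans ?_) (norm_nonneg _) (by positivity)
          gcongr
          linarith
      _ = C * (k + 2) * (1 + |s.im|) ^ (k + 2) := by ring
      _ ≤ _ := by gcongr; exact le_max_right _ _

end Pool.Agent.Lib.MP_b09185_nt.Sh
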