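import Mathlib

/-! Elementary bounds for Dirichlet L-functions. -/

namespace Pool.Agent.Lib.MP_b09185_nt.Mai

open Complex Metric Set Finset Filter Topology

lemma rpow_tel {m σ : ℝ} (hm : 0 < m) (hσ : 0 < σ) :
    (m + 1) ^ (-1 - σ) ≤ (m ^ (-σ) - (m + 1) ^ (-σ)) / σ := by
  have hm1 : 0 < m + 1 := by linarith
  have h1 : m ^ (-σ) = (m + 1) ^ (-σ) * Real.exp (σ * Real.log ((m + 1) / m)) := by
    rw [Real.log_div hm1.ne' hm.ne', Real.rpow_def_of_pos hm, Real.rpow_def_of_pos hm1,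
      ← Real.exp_add]
    congr 1
    ring
  have h2 : 1 / (m + 1) ≤ Real.log ((m + 1) / m) := by
    have := Real.one_sub_inv_le_log_of_pos (div_pos hm1 hm)
    refine le_trans (le_of_eq ?_) this
    field_simp
    ring
  have h3 : (m + 1) ^ (-1 - σ) = (m + 1) ^ (-σ) * (1 / (m + 1)) := by
    rw [show -1 - σ = -σ + (-1) by ring, Real.rpow_add hm1, Real.rpow_neg_one, one_div]
  have h4 := Real.add_one_le_exp (σ * Real.log ((m + 1) / m))
  have h5 : 0 < (m + 1) ^ (-σ) := Real.rpow_pos_of_pos hm1 _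
  rw [le_div_iff₀ hσ, h1, h3]
  have h6 : σ * (1 / (m + 1)) ≤ σ * Real.log ((m + 1) / m) := mul_le_mul_of_nonneg_left h2 hσ.le
  nlinarith

lemma sum_tail_le {m σ : ℝ} (hm : 0 < m) (hσ : 0 < σ) (K : ℕ) :
    ∑ n ∈ range K, (m + n + 1) ^ (-1 - σ) ≤ (m ^ (-σ) - (m + K) ^ (-σ)) / σ := by
  induction K with
  | zero => simp
  | succ K ih =>
    rw [sum_range_succ]
    have := rpow_tel (m := m + K) (by positivity) hσ
    push_cast
    rw [← add_assoc]
    have e : (m ^ (-σ) - (m + K + 1) ^ (-σ)) / σ =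
      (m ^ (-σ) - (m + K) ^ (-σ)) / σ + ((m + K) ^ (-σ) - (m + K + 1) ^ (-σ)) / σ := by ring
    linarith

lemma summable_tail {m σ : ℝ} (hm : 0 < m) (hσ : 0 < σ) :
    Summable fun n : ℕ => (m + n + 1) ^ (-1 - σ) := by
  refine summable_of_sum_range_le (c := m ^ (-σ) / σ) (fun n => by positivity) fun K => ?_
  refine (sum_tail_le hm hσ K).trans ?_
  gcongr
  have : 0 ≤ (m + K) ^ (-σ) := by positivity
  linarith

lemma tsum_tail_le {m σ : ℝ} (hm : 0 < m) (hσ : 0 < σ) :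
    ∑' n : ℕ, (m + n + 1) ^ (-1 - σ) ≤ m ^ (-σ) / σ := by
  refine Real.tsum_le_of_sum_range_le (fun n => by positivity) fun K => ?_
  refine (sum_tail_le hm hσ K).trans ?_
  gcongr
  have : 0 ≤ (m + K) ^ (-σ) := by positivity
  linarith

lemma summable_succ {σ : ℝ} (hσ : 0 < σ) : Summable fun n : ℕ => ((n : ℝ) + 1) ^ (-1 - σ) := by
  rw [← summable_nat_add_iff 1]
  refine (summable_tail one_pos hσ).congr fun n => ?_
  push_cast
  congr 1
  ring

lemma tsum_succ_le {σ : ℝ} (hσ : 0 < σ) : ∑' n : ℕ, ((n : ℝ) + 1) ^ (-1 - σ) ≤ 1 + 1 / σ := by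
  rw [(summable_succ hσ).tsum_eq_zero_add]
  have := tsum_tail_le one_pos hσ
  simp only [Real.one_rpow] at this
  have e : ∑' n : ℕ, (((n + 1 : ℕ) : ℝ) + 1) ^ (-1 - σ) = ∑' n : ℕ, ((1 : ℝ) + n + 1) ^ (-1 - σ) := by
    refine tsum_congr fun n => ?_
    push_cast
    congr 1
    ring
  rw [e]
  simp only [Nat.cast_zero, zero_add, Real.one_rpow]
  linarith

/-- L-series with coefficients bounded by `B n ^ θ` -/
lemma norm_term_le' {a : ℕ → ℂ} {B θ : ℝ} (ha : ∀ n : ℕ, n ≠ 0 → ‖a n‖ ≤ B * (n : ℝ) ^ θ) (s : ℂ)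
    (n : ℕ) : ‖LSeries.term a s (n + 1)‖ ≤ B * ((n : ℝ) + 1) ^ (-1 - (s.re - θ - 1)) := by
  rw [LSeries.norm_term_eq, if_neg n.succ_ne_zero]
  have h := ha (n + 1) n.succ_ne_zero
  push_cast at h ⊢
  have hn : (0 : ℝ) < n + 1 := by positivity
  rw [div_le_iff₀ (by positivity), mul_assoc, ← Real.rpow_add hn]
  rwa [show -1 - (s.re - θ - 1) + s.re = θ by ring]

lemma summable_of_le {a : ℕ → ℂ} {B θ : ℝ} (ha : ∀ n : ℕ, n ≠ 0 → ‖a n‖ ≤ B * (n : ℝ) ^ θ)
    {s : ℂ} (hs : θ + 1 < s.re) : LSeriesSummable a s := by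
  rw [LSeriesSummable, ← summable_norm_iff, ← summable_nat_add_iff 1]
  exact Summable.of_nonneg_of_le (fun n => norm_nonneg _) (norm_term_le' ha s)
    ((summable_succ (by linarith)).mul_left B)

lemma tsum_norm_term_le {a : ℕ → ℂ} {B θ : ℝ} (hB : 0 ≤ B)
    (ha : ∀ n : ℕ, n ≠ 0 → ‖a n‖ ≤ B * (n : ℝ) ^ θ) {s : ℂ} (hs : θ + 1 < s.re) :
    ∑' n, ‖LSeries.term a s n‖ ≤ B * (1 + 1 / (s.re - θ - 1)) := by
  have h1 : Summable fun n => ‖LSeries.term a s n‖ := summable_norm_iff.2 (summable_of_le ha hs)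
  rw [h1.tsum_eq_zero_add]
  simp only [LSeries.term_zero, norm_zero, zero_add]
  have h2 : 0 < s.re - θ - 1 := by linarith
  refine (Summable.tsum_le_tsum (norm_term_le' ha s) ((summable_nat_add_iff 1).2 h1)
    ((summable_succ h2).mul_left B)).trans ?_
  rw [tsum_mul_left]
  exact mul_le_mul_of_nonneg_left (tsum_succ_le h2) hB

lemma norm_LSeries_le {a : ℕ → ℂ} {B θ : ℝ} (hB : 0 ≤ B)
    (ha : ∀ n : ℕ, n ≠ 0 → ‖a n‖ ≤ B * (n : ℝ) ^ θ) {s : ℂ} (hs : θ + 1 < s.re) :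
    ‖LSeries a s‖ ≤ B * (1 + 1 / (s.re - θ - 1)) :=
  (norm_tsum_le_tsum_norm (summable_norm_iff.2 (summable_of_le ha hs))).trans
    (tsum_norm_term_le hB ha hs)

lemma norm_LSeries_le_one {a : ℕ → ℂ} (ha : ∀ n : ℕ, ‖a n‖ ≤ 1) {s : ℂ} (hs : 1 < s.re) :
    ‖LSeries a s‖ ≤ 1 + 1 / (s.re - 1) := by
  have := norm_LSeries_le (a := a) (B := 1) (θ := 0) zero_le_one (fun n _ => by simpa using ha n)
    (s := s) (by simpa using hs)
  simpa using this

lemma differentiableOn_LSeries_of_le {a : ℕ → ℂ} {B θ : ℝ}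
    (ha : ∀ n : ℕ, n ≠ 0 → ‖a n‖ ≤ B * (n : ℝ) ^ θ) :
    DifferentiableOn ℂ (LSeries a) {s | θ + 1 < s.re} := by
  refine (LSeries_differentiableOn a).mono fun s hs => ?_
  have hs' : θ + 1 < s.re := hs
  have h1 := (summable_of_le ha (s := (((θ + 1 + s.re) / 2 : ℝ) : ℂ))
    (by simp only [ofReal_re]; linarith)).abscissaOfAbsConv_le
  simp only [ofReal_re] at h1
  refine h1.trans_lt ?_
  exact_mod_cast (by linarith : (θ + 1 + s.re) / 2 < s.re)

noncomputable def dd (s : ℂ) (n : ℕ) : ℂ := (((n : ℝ) + 1 : ℝ) : ℂ) ^ (-s) - (((n : ℝ) + 2 : ℝ) : ℂ) ^ (-s)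

lemma norm_dd_le {s : ℂ} (hs : 0 < s.re) (n : ℕ) :
    ‖dd s n‖ ≤ ‖s‖ * ((n : ℝ) + 1) ^ (-1 - s.re) := by
  have hs0 : -s ≠ 0 := by
    intro h
    rw [neg_eq_zero] at h
    simp [h] at hs
  have hn : (0 : ℝ) < n + 1 := by positivity
  have h := norm_image_sub_le_of_norm_deriv_le_segment' (f := fun x : ℝ => (x : ℂ) ^ (-s))
    (f' := fun x : ℝ => -s * (x : ℂ) ^ (-s - 1)) (a := (n : ℝ) + 1) (b := (n : ℝ) + 2)
    (C := ‖s‖ * ((n : ℝ) + 1) ^ (-1 - s.re))
    (fun x hx => (hasDerivAt_ofReal_cpow_const (by linarith [hx.1]) hs0).hasDerivWithinAt)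
    (fun x hx => by
      have hx0 : 0 < x := by linarith [hx.1]
      rw [norm_mul, norm_neg, norm_cpow_eq_rpow_re_of_pos hx0]
      apply mul_le_mul_of_nonneg_left _ (norm_nonneg _)
      simp only [sub_re, neg_re, one_re]
      rw [show -s.re - 1 = -1 - s.re by ring]
      exact Real.rpow_le_rpow_of_nonpos hn hx.1 (by linarith))
    ((n : ℝ) + 2) ⟨by linarith, le_rfl⟩
  rw [dd, norm_sub_rev]
  refine h.trans (le_of_eq ?_)
  ring

section
variable {a : ℕ → ℂ} {B : ℝ}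

noncomputable def GG (a : ℕ → ℂ) (s : ℂ) : ℂ := ∑' n, (∑ k ∈ range (n + 1), a (k + 1)) * dd s n

lemma GG_term_le (hA : ∀ n, ‖∑ k ∈ range n, a (k + 1)‖ ≤ B) {s : ℂ} (hs : 0 < s.re) (n : ℕ) :
    ‖(∑ k ∈ range (n + 1), a (k + 1)) * dd s n‖ ≤ B * (‖s‖ * ((n : ℝ) + 1) ^ (-1 - s.re)) := by
  rw [norm_mul]
  exact mul_le_mul (hA _) (norm_dd_le hs n) (norm_nonneg _) ((norm_nonneg _).trans (hA 0))

lemma GG_summable (hA : ∀ n, ‖∑ k ∈ range n, a (k + 1)‖ ≤ B) {s : ℂ} (hs : 0 < s.re) :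
    Summable fun n => (∑ k ∈ range (n + 1), a (k + 1)) * dd s n :=
  Summable.of_norm_bounded (((summable_succ hs).mul_left _).mul_left _) (GG_term_le hA hs)

lemma abel_fin (a : ℕ → ℂ) (s : ℂ) (K : ℕ) :
    ∑ n ∈ range K, a (n + 1) * (((n : ℝ) + 1 : ℝ) : ℂ) ^ (-s) =
      ∑ n ∈ range K, (∑ k ∈ range (n + 1), a (k + 1)) * dd s n +
        (∑ k ∈ range K, a (k + 1)) * (((K : ℝ) + 1 : ℝ) : ℂ) ^ (-s) := by
  induction K with
  | zero => simp
  | succ K ih =>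
    rw [sum_range_succ, ih, sum_range_succ (fun n => (∑ k ∈ range (n + 1), a (k + 1)) * dd s n),
      sum_range_succ (fun k => a (k + 1)) K, dd]
    have e : (((K + 1 : ℕ) : ℝ) + 1 : ℝ) = (K : ℝ) + 2 := by push_cast; ring
    rw [e]
    ring

lemma GG_diff (hA : ∀ n, ‖∑ k ∈ range n, a (k + 1)‖ ≤ B) :
    DifferentiableOn ℂ (GG a) {s | 0 < s.re} := by
  intro s hs
  have hs' : 0 < s.re := hs
  have hB : 0 ≤ B := (norm_nonneg _).trans (hA 0)
  have hU : IsOpen ({w : ℂ | s.re / 2 < w.re} ∩ ball 0 (‖s‖ + 1)) :=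
    (isOpen_lt continuous_const continuous_re).inter isOpen_ball
  have h := differentiableOn_tsum_of_summable_norm
    (F := fun n w => (∑ k ∈ range (n + 1), a (k + 1)) * dd w n)
    (((summable_succ (half_pos hs')).mul_left (‖s‖ + 1)).mul_left B)
    (fun n => by
      apply DifferentiableOn.const_mul
      apply Differentiable.differentiableOn
      unfold dd
      apply Differentiable.sub
      · exact differentiable_id.neg.const_cpow (Or.inl (ofReal_ne_zero.2 (by positivity)))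
      · exact differentiable_id.neg.const_cpow (Or.inl (ofReal_ne_zero.2 (by positivity))))
    hU (fun n w hw => by
      have h1 : s.re / 2 < w.re := hw.1
      have h2 : ‖w‖ < ‖s‖ + 1 := by simpa using hw.2
      refine (GG_term_le hA (by linarith) n).trans ?_
      apply mul_le_mul_of_nonneg_left _ hB
      apply mul_le_mul h2.le _ (by positivity) (by positivity)
      exact Real.rpow_le_rpow_of_exponent_le (by linarith [n.cast_nonneg (α := ℝ)]) (by linarith))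
  refine (h.differentiableAt (hU.mem_nhds ⟨?_, ?_⟩)).differentiableWithinAt
  · show s.re / 2 < s.re
    linarith
  · simp

lemma term_succ (a : ℕ → ℂ) (s : ℂ) (n : ℕ) :
    LSeries.term a s (n + 1) = a (n + 1) * (((n : ℝ) + 1 : ℝ) : ℂ) ^ (-s) := by
  rw [LSeries.term_of_ne_zero n.succ_ne_zero, cpow_neg, div_eq_mul_inv]
  push_cast
  rfl

lemma GG_eq (hA : ∀ n, ‖∑ k ∈ range n, a (k + 1)‖ ≤ B) {s : ℂ} (hs : 0 < s.re)
    (h : LSeriesSummable a s) : LSeries a s = GG a s := by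
  have h1 : Tendsto (fun K => ∑ n ∈ range K, a (n + 1) * (((n : ℝ) + 1 : ℝ) : ℂ) ^ (-s)) atTop
      (𝓝 (LSeries a s)) := by
    have h2 := ((hasSum_nat_add_iff' 1).2 h.hasSum).tendsto_sum_nat
    simpa only [term_succ, range_one, sum_singleton, LSeries.term_zero, sub_zero, LSeries] using h2
  have h2 := (GG_summable hA hs).hasSum.tendsto_sum_nat
  have h3 : Tendsto (fun K : ℕ => (∑ k ∈ range K, a (k + 1)) * (((K : ℝ) + 1 : ℝ) : ℂ) ^ (-s))
      atTop (𝓝 0) := by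
    rw [tendsto_zero_iff_norm_tendsto_zero]
    have h4 : Tendsto (fun K : ℕ => B * ((K : ℝ) + 1) ^ (-s.re)) atTop (𝓝 (B * 0)) :=
      ((tendsto_rpow_neg_atTop hs).comp
        (tendsto_atTop_add_const_right _ 1 tendsto_natCast_atTop_atTop)).const_mul B
    rw [mul_zero] at h4
    refine squeeze_zero (fun _ => norm_nonneg _) (fun K => ?_) h4
    rw [norm_mul, norm_cpow_eq_rpow_re_of_pos (by positivity), neg_re]
    exact mul_le_mul_of_nonneg_right (hA K) (by positivity)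
  have h5 := h2.add h3
  simp only [← abel_fin, add_zero] at h5
  exact tendsto_nhds_unique h1 h5

lemma GG_crude (hA : ∀ n, ‖∑ k ∈ range n, a (k + 1)‖ ≤ B) {s : ℂ} (hs : 0 < s.re) :
    ‖GG a s‖ ≤ B * (‖s‖ * (1 + 1 / s.re)) := by
  have hB : 0 ≤ B := (norm_nonneg _).trans (hA 0)
  refine (tsum_of_norm_bounded
    (((summable_succ hs).mul_left ‖s‖).mul_left B).hasSum (GG_term_le hA hs)).trans ?_
  rw [tsum_mul_left, tsum_mul_left]
  gcongr
  exact tsum_succ_le hs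

lemma GG_refined (hA : ∀ n, ‖∑ k ∈ range n, a (k + 1)‖ ≤ B) (ha : ∀ n, ‖a n‖ ≤ 1) {s : ℂ}
    (hs : 0 < s.re) {K : ℕ} (hK : 0 < K) :
    ‖GG a s‖ ≤ ∑ n ∈ range K, ((n : ℝ) + 1) ^ (-s.re) +
      B * (K : ℝ) ^ (-s.re) * (1 + ‖s‖ / s.re) := by
  have hB : 0 ≤ B := (norm_nonneg _).trans (hA 0)
  have hK' : (0 : ℝ) < K := by exact_mod_cast hK
  rw [GG, ← (GG_summable hA hs).sum_add_tsum_nat_add K, eq_sub_of_add_eq (abel_fin a s K).symm]
  have h1 : ‖∑ n ∈ range K, a (n + 1) * (((n : ℝ) + 1 : ℝ) : ℂ) ^ (-s)‖ ≤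
      ∑ n ∈ range K, ((n : ℝ) + 1) ^ (-s.re) := by
    refine norm_sum_le_of_le _ fun n _ => ?_
    rw [norm_mul, norm_cpow_eq_rpow_re_of_pos (by positivity), neg_re]
    exact mul_le_of_le_one_left (by positivity) (ha _)
  have h2 : ‖(∑ k ∈ range K, a (k + 1)) * (((K : ℝ) + 1 : ℝ) : ℂ) ^ (-s)‖ ≤
      B * (K : ℝ) ^ (-s.re) := by
    rw [norm_mul, norm_cpow_eq_rpow_re_of_pos (by positivity), neg_re]
    apply mul_le_mul (hA K) _ (by positivity) hB
    exact Real.rpow_le_rpow_of_nonpos hK' (by linarith) (by linarith)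
  have h3 : ‖∑' n, (∑ k ∈ range (n + K + 1), a (k + 1)) * dd s (n + K)‖ ≤
      B * (‖s‖ * ((K : ℝ) ^ (-s.re) / s.re)) := by
    refine (tsum_of_norm_bounded
      (((summable_tail hK' hs).mul_left ‖s‖).mul_left B).hasSum (fun n => ?_)).trans ?_
    · refine (GG_term_le hA hs (n + K)).trans (le_of_eq ?_)
      push_cast
      rw [add_comm (n : ℝ) K]
    · rw [tsum_mul_left, tsum_mul_left]
      gcongr
      exact tsum_tail_le hK' hs
  refine (norm_add_le _ _).trans ?_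
  refine (add_le_add (norm_sub_le _ _) h3).trans ?_
  have e : B * (K : ℝ) ^ (-s.re) * (1 + ‖s‖ / s.re) =
    B * (K : ℝ) ^ (-s.re) + B * (‖s‖ * ((K : ℝ) ^ (-s.re) / s.re)) := by ring
  linarith

end

section
variable {N : ℕ} [NeZero N] {χ : DirichletCharacter ℂ N}

lemma char_block (hχ : χ ≠ 1) (m : ℕ) : ∑ k ∈ range N, χ ((m + k + 1 : ℕ) : ZMod N) = 0 := by
  rw [← MulChar.sum_eq_zero_of_ne_one hχ]
  have h1 : ∑ k ∈ range N, χ ((m + k + 1 : ℕ) : ZMod N) =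
      ∑ k : ZMod N, χ ((m + 1 : ZMod N) + k) := by
    obtain ⟨N, rfl⟩ : ∃ N', N = N' + 1 := ⟨N - 1, (Nat.succ_pred_eq_of_ne_zero (NeZero.ne N)).symm⟩
    rw [Finset.sum_range]
    refine Finset.sum_congr rfl fun k _ => ?_
    congr 1
    push_cast
    have : ((k : ℕ) : ZMod (N + 1)) = k := ZMod.natCast_zmod_val (n := N + 1) k
    rw [this]
    ring
  rw [h1]
  exact Equiv.sum_comp (Equiv.addLeft (m + 1 : ZMod N)) χ

lemma char_sum_le (hχ : χ ≠ 1) (n : ℕ) : ‖∑ k ∈ range n, χ ((k + 1 : ℕ) : ZMod N)‖ ≤ N := by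
  induction n using Nat.strong_induction_on with
  | _ n ih =>
    rcases le_or_gt n N with h | h
    · refine (norm_sum_le_of_le _ fun k _ => χ.norm_le_one _).trans ?_
      simpa using h
    · obtain ⟨m, rfl⟩ := Nat.exists_eq_add_of_le' h.le
      rw [sum_range_add, char_block hχ, add_zero]
      exact ih m (by have := NeZero.pos N; omega)

lemma LFunction_eq_GG (hχ : χ ≠ 1) {s : ℂ} (hs : 0 < s.re) :
    χ.LFunction s = GG (fun n => χ n) s := by
  have hU : IsOpen {s : ℂ | 0 < s.re} := isOpen_lt continuous_const continuous_re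
  have h1 : AnalyticOnNhd ℂ χ.LFunction {s : ℂ | 0 < s.re} :=
    (χ.differentiable_LFunction hχ).differentiableOn.analyticOnNhd hU
  have h2 : AnalyticOnNhd ℂ (GG (fun n => χ n)) {s : ℂ | 0 < s.re} :=
    (GG_diff (char_sum_le hχ)).analyticOnNhd hU
  refine h1.eqOn_of_preconnected_of_eventuallyEq h2 (convex_halfSpace_re_gt 0).isPreconnected
    (z₀ := 2) (by simp) ?_ hs
  have : {s : ℂ | 1 < s.re} ∈ 𝓝 (2 : ℂ) :=
    (isOpen_lt continuous_const continuous_re).mem_nhds (by simp)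
  filter_upwards [this] with w hw
  rw [χ.LFunction_eq_LSeries hw]
  exact GG_eq (char_sum_le hχ) (by linarith [show 1 < w.re from hw])
    (χ.LSeriesSummable_of_one_lt_re hw)

lemma L_crude (hχ : χ ≠ 1) {s : ℂ} (hs : 1 / 4 ≤ s.re) : ‖χ.LFunction s‖ ≤ 5 * N * ‖s‖ := by
  rw [LFunction_eq_GG hχ (by linarith)]
  refine (GG_crude (char_sum_le hχ) (by linarith)).trans ?_
  have : 1 / s.re ≤ 4 := by
    rw [div_le_iff₀ (by linarith)]
    linarith
  have h2 : ‖s‖ * (1 + 1 / s.re) ≤ ‖s‖ * 5 := by gcongr; linarith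
  nlinarith [N.cast_nonneg (α := ℝ)]

/-- refined bound near the line of real part one -/
lemma L_refined (hχ : χ ≠ 1) {l : ℝ} (hl : 2 ≤ l) (hN : (N : ℝ) ≤ Real.exp l) {s : ℂ}
    (hs : 1 - 1 / l ≤ s.re) (hs' : ‖s‖ ≤ Real.exp l) : ‖χ.LFunction s‖ ≤ 1000 * l := by
  have hl0 : 0 < l := by linarith
  have hl1 : 1 / l ≤ 1 / 2 := by gcongr
  have hs0 : 1 / 2 ≤ s.re := by linarith
  rw [LFunction_eq_GG hχ (by linarith)]
  set K := ⌈Real.exp (4 * l)⌉₊ with hK
  have hK1 : Real.exp (4 * l) ≤ K := Nat.le_ceil _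
  have hK0 : (0 : ℝ) < K := (Real.exp_pos _).trans_le hK1
  have hK2 : (K : ℝ) ≤ Real.exp (5 * l) := by
    have h1 := (Nat.ceil_lt_add_one (Real.exp_pos (4 * l)).le).le
    have h2 : 1 ≤ Real.exp (4 * l) := Real.one_le_exp (by linarith)
    have h3 := Real.add_one_le_exp l
    rw [show 5 * l = 4 * l + l by ring, Real.exp_add]
    nlinarith
  refine (GG_refined (char_sum_le hχ) (fun n => χ.norm_le_one _) (by linarith)
    (K := K) (by exact_mod_cast hK0)).trans ?_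
  have e5 : Real.exp 5 ≤ 150 := by
    have := Real.exp_one_lt_d9
    have h : Real.exp 5 = Real.exp 1 ^ 5 := by rw [← Real.exp_nat_mul]; norm_num
    rw [h]
    calc Real.exp 1 ^ 5 ≤ (2.7182818286 : ℝ) ^ 5 := by gcongr
      _ ≤ 150 := by norm_num
  have h1 : ∑ n ∈ range K, ((n : ℝ) + 1) ^ (-s.re) ≤ 150 * (1 + 5 * l) := by
    have h2 : ∀ n ∈ range K, ((n : ℝ) + 1) ^ (-s.re) ≤ 150 * ((n + 1 : ℕ) : ℝ)⁻¹ := by
      intro n hn
      have hn1 : (0 : ℝ) < n + 1 := by positivity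
      have hn2 : (n : ℝ) + 1 ≤ K := by exact_mod_cast mem_range.1 hn
      calc ((n : ℝ) + 1) ^ (-s.re) ≤ ((n : ℝ) + 1) ^ (1 / l + (-1)) :=
            Real.rpow_le_rpow_of_exponent_le (by linarith [n.cast_nonneg (α := ℝ)]) (by linarith)
        _ = ((n : ℝ) + 1) ^ (1 / l) * ((n + 1 : ℕ) : ℝ)⁻¹ := by
            rw [Real.rpow_add hn1, Real.rpow_neg_one]; push_cast; rfl
        _ ≤ 150 * ((n + 1 : ℕ) : ℝ)⁻¹ := by
            gcongr
            calc ((n : ℝ) + 1) ^ (1 / l) ≤ (Real.exp (5 * l)) ^ (1 / l) := by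
                  gcongr; linarith
              _ = Real.exp 5 := by rw [← Real.exp_mul]; congr 1; field_simp
              _ ≤ 150 := e5
    refine (sum_le_sum h2).trans ?_
    rw [← mul_sum]
    have h3 := harmonic_le_one_add_log K
    rw [harmonic] at h3
    push_cast at h3 ⊢
    have h4 : Real.log K ≤ 5 * l := by
      rw [Real.log_le_iff_le_exp hK0]; exact hK2
    gcongr
    linarith
  have h2 : (K : ℝ) ^ (-s.re) ≤ Real.exp (-(2 * l)) := by
    calc (K : ℝ) ^ (-s.re) ≤ (Real.exp (4 * l)) ^ (-s.re) :=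
          Real.rpow_le_rpow_of_nonpos (Real.exp_pos _) hK1 (by linarith)
      _ = Real.exp (4 * l * (-s.re)) := by rw [← Real.exp_mul]
      _ ≤ _ := by gcongr; nlinarith
  have h3 : 1 + ‖s‖ / s.re ≤ 3 * Real.exp l := by
    have h4 : ‖s‖ / s.re ≤ 2 * Real.exp l := by
      rw [div_le_iff₀ (by linarith)]
      nlinarith [Real.exp_pos l]
    have := Real.one_le_exp hl0.le
    linarith
  have h4 : (N : ℝ) * (K : ℝ) ^ (-s.re) * (1 + ‖s‖ / s.re) ≤
      Real.exp l * Real.exp (-(2 * l)) * (3 * Real.exp l) := by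
    gcongr
  have h5 : Real.exp l * Real.exp (-(2 * l)) * (3 * Real.exp l) = 3 := by
    rw [mul_left_comm, ← Real.exp_add, ← Real.exp_add, show l + -(2 * l) + l = 0 by ring]
    simp
  linarith

lemma inv_L_le (χ : DirichletCharacter ℂ N) {s : ℂ} (hs : 1 < s.re) :
    1 ≤ (1 + 1 / (s.re - 1)) * ‖χ.LFunction s‖ := by
  have h1 := DirichletCharacter.LSeries.mul_mu_eq_one χ hs
  rw [← χ.LFunction_eq_LSeries hs] at h1
  have h2 := congrArg norm h1
  rw [norm_mul, norm_one] at h2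
  refine h2.symm.trans_le ?_
  rw [mul_comm]
  apply mul_le_mul_of_nonneg_right _ (norm_nonneg _)
  refine norm_LSeries_le_one (fun n => ?_) hs
  rw [Pi.mul_apply, norm_mul]
  refine mul_le_one₀ (χ.norm_le_one _) (norm_nonneg _) ?_
  rw [Complex.norm_intCast]
  exact_mod_cast ArithmeticFunction.abs_moebius_le_one

end

end Pool.Agent.Lib.MP_b09185_nt.Mai
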