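import Pool.Agent.Lib.MP_b09185_nt.ShDef
import Pool.Agent.Lib.MP_b09185_nt.MaiL
import Pool.Agent.Lib.SW.LBound

/-! A smoothed twisted prime sum is small when zeta has no zero in a box. -/

namespace Pool.Agent.Lib.MP_b09185_nt.Sh

open Complex Set Filter Topology MeasureTheory Metric ArithmeticFunction
open Pool.Agent.Lib.MP_b09185_nt.Mai

lemma logderiv_far {f : ℂ → ℂ} {c z : ℂ} {R B M δ : ℝ} (hδ : 0 < δ) (hM : 0 < M)
    (hf : DifferentiableOn ℂ f (ball c R)) (h0 : ∀ z ∈ ball c R, f z ≠ 0)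
    (hB : ∀ z ∈ ball c R, ‖f z‖ ≤ B) (hBM : B ≤ Real.exp M * ‖f c‖)
    (hz : ‖z - c‖ ≤ R - 2 * δ) : ‖deriv f z / f z‖ ≤ 2 * M * R / δ ^ 2 := by
  have hR : 0 < R := by linarith [norm_nonneg (z - c)]
  obtain ⟨h, hc, hh, he⟩ := exists_log hR hf h0
  have hfc : 0 < ‖f c‖ := norm_pos_iff.2 (h0 c (mem_ball_self hR))
  have hmem : ∀ w ∈ ball (0 : ℂ) R, c + w ∈ ball c R := by
    intro w hw
    simpa [mem_ball, dist_eq_norm] using hw
  have hd : DifferentiableOn ℂ (fun w => h (c + w)) (ball 0 R) := by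
    intro w hw
    exact (((hh _ (hmem w hw)).differentiableAt).comp w (by fun_prop)).differentiableWithinAt
  have hre : MapsTo (fun w => h (c + w)) (ball 0 R) {z | z.re ≤ M} := by
    intro w hw
    have h1 := hB _ (hmem w hw)
    rw [he _ (hmem w hw), norm_mul, norm_exp] at h1
    have h2 : Real.exp (h (c + w)).re ≤ Real.exp M := by
      have := h1.trans hBM
      rw [mul_comm] at this
      exact le_of_mul_le_mul_right this hfc
    exact Real.exp_le_exp.1 h2
  have hnear : ∀ w ∈ closedBall z δ, ‖w - c‖ ≤ R - δ := by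
    intro w hw
    have h1 : ‖w - z‖ ≤ δ := by simpa [mem_closedBall, dist_eq_norm] using hw
    have h2 := norm_add_le (w - z) (z - c)
    rw [sub_add_sub_cancel] at h2
    linarith
  have hin : ∀ w ∈ closedBall z δ, w ∈ ball c R := by
    intro w hw
    rw [mem_ball, dist_eq_norm]
    linarith [hnear w hw]
  have hb : ∀ w ∈ closedBall z δ, ‖h w‖ ≤ 2 * M * R / δ := by
    intro w hw
    have h1 := hnear w hw
    have h3 := borelCaratheodory_zero hM hd hre hR (z := w - c)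
      (by simp only [mem_ball, dist_zero_right]; linarith) (by simp [hc])
    simp only [add_sub_cancel] at h3
    refine h3.trans ?_
    gcongr <;> linarith
  rw [← (hh z (hin z (mem_closedBall_self hδ.le))).deriv]
  have hd2 : DiffContOnCl ℂ h (ball z δ) := by
    apply DifferentiableOn.diffContOnCl
    rw [closure_ball z hδ.ne']
    intro w hw
    exact (hh w (hin w hw)).differentiableAt.differentiableWithinAt
  have := norm_deriv_le_of_forall_mem_sphere_norm_le hδ hd2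
    (fun w hw => hb w (sphere_subset_closedBall hw))
  refine this.trans (le_of_eq ?_)
  field_simp

lemma zeta1_le : ∃ C : ℝ, 1 ≤ C ∧ ∀ s : ℂ, 1 / 2 ≤ s.re → ‖riemannZeta₁ s‖ ≤ C * (‖s‖ + 1) ^ 2 := by
  have hZ := SW.Zc_ge (η := 1 / 2) (by norm_num)
  refine ⟨1 + SW.Zc (1 / 2), by linarith, fun s hs => ?_⟩
  have h := SW.zeta0_bound (η := 1 / 2) (by norm_num) le_rfl (s := s) (by linarith)
  rw [show (2 * (1 / 2) : ℝ) = 1 by norm_num, Real.rpow_one] at h
  have h1 : ‖s - 1‖ ≤ ‖s‖ + 1 := by simpa using norm_sub_le s 1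
  have h2 : ‖(s - 1) * riemannZeta₀ s‖ ≤ (‖s‖ + 1) * (SW.Zc (1 / 2) * (‖s‖ + 1)) := by
    rw [norm_mul]; gcongr
  have h3 := norm_add_le (1 : ℂ) ((s - 1) * riemannZeta₀ s)
  rw [norm_one] at h3
  have h4 : 1 ≤ (‖s‖ + 1) ^ 2 := by nlinarith [norm_nonneg s]
  rw [riemannZeta₁]
  nlinarith

lemma zeta1_eq_mul {s : ℂ} (hs : s ≠ 1) : riemannZeta₁ s = (s - 1) * riemannZeta s := by
  rw [riemannZeta_eq_inv_sub_mul hs, ← mul_assoc, mul_inv_cancel₀ (sub_ne_zero.2 hs), one_mul]

lemma zeta_ge {s : ℂ} (hs : 1 < s.re) : 1 ≤ (1 + 1 / (s.re - 1)) * ‖riemannZeta s‖ := by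
  have h1 := LSeries_one_mul_Lseries_moebius hs
  rw [LSeries_one_eq_riemannZeta hs] at h1
  have h2 := congrArg norm h1
  rw [norm_mul, norm_one] at h2
  refine h2.symm.trans_le ?_
  rw [mul_comm]
  apply mul_le_mul_of_nonneg_right _ (norm_nonneg _)
  refine norm_LSeries_le_one (fun n => ?_) hs
  rw [Complex.norm_intCast]
  exact_mod_cast abs_moebius_le_one

lemma one_le_sub {s : ℂ} (hs : s.re = 2) : 1 ≤ ‖s - 1‖ := by
  have := re_le_norm (s - 1)
  rw [sub_re, hs, one_re] at this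
  linarith

lemma zeta1_ge {s : ℂ} (hs : s.re = 2) : 1 / 2 ≤ ‖riemannZeta₁ s‖ := by
  have h1 := zeta_ge (s := s) (by linarith)
  rw [hs] at h1
  have h2 := one_le_sub hs
  rw [zeta1_eq_mul (by rintro rfl; norm_num at hs), norm_mul]
  nlinarith [norm_nonneg (riemannZeta s)]

lemma zeta1_ne {s : ℂ} (h : riemannZeta s ≠ 0) : riemannZeta₁ s ≠ 0 := by
  rcases eq_or_ne s 1 with rfl | hs
  · simp
  · rw [zeta1_eq_mul hs]
    exact mul_ne_zero (sub_ne_zero.2 hs) h

/-- minus the logarithmic derivative of `(s - 1) * zeta s` -/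
noncomputable def HH (s : ℂ) : ℂ := -(deriv riemannZeta₁ s / riemannZeta₁ s)

lemma HH_diff {s : ℂ} (h : riemannZeta s ≠ 0) : DifferentiableAt ℂ HH s :=
  ((differentiable_riemannZeta₁.deriv s).div (differentiable_riemannZeta₁ s) (zeta1_ne h)).neg

lemma HH_eq {s : ℂ} (hs : 1 < s.re) :
    LSeries (fun n => (vonMangoldt n : ℂ)) s = HH s + (s - 1)⁻¹ := by
  have h1 : s ≠ 1 := by rintro rfl; simp at hs
  have h2 := sub_ne_zero.2 h1
  have h3 := zeta1_ne (riemannZeta_ne_zero_of_one_lt_re hs)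
  rw [LSeries_vonMangoldt_eq_deriv_riemannZeta_div hs,
    deriv_riemannZeta_eq_neg_inv_sub_sq_mul_add h1, riemannZeta_eq_inv_sub_mul h1, HH]
  field_simp
  ring

lemma HH_line : ∃ K : ℝ, 0 ≤ K ∧ ∀ s : ℂ, s.re = 2 → ‖HH s‖ ≤ K := by
  have hs2 : LSeriesSummable (fun n => (vonMangoldt n : ℂ)) (2 : ℝ) :=
    LSeriesSummable_vonMangoldt (by simp)
  refine ⟨(∑' n, ‖LSeries.term (fun n => (vonMangoldt n : ℂ)) (2 : ℝ) n‖) + 1, by positivity,
    fun s hs => ?_⟩
  have h1 := HH_eq (s := s) (by linarith)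
  have h2 : HH s = LSeries (fun n => (vonMangoldt n : ℂ)) s - (s - 1)⁻¹ := by rw [h1]; ring
  have h3 : ‖(s - 1)⁻¹‖ ≤ 1 := by
    rw [norm_inv]; exact inv_le_one_of_one_le₀ (one_le_sub hs)
  have h4 : ∀ n, ‖LSeries.term (fun n => (vonMangoldt n : ℂ)) s n‖ =
      ‖LSeries.term (fun n => (vonMangoldt n : ℂ)) (2 : ℝ) n‖ := by
    intro n
    simp [LSeries.norm_term_eq, hs]
  have h5 : LSeriesSummable (fun n => (vonMangoldt n : ℂ)) s :=
    LSeriesSummable_vonMangoldt (by linarith)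
  have h6 := norm_tsum_le_tsum_norm (summable_norm_iff.2 h5)
  simp_rw [h4] at h6
  rw [h2]
  exact (norm_sub_le _ _).trans (add_le_add h6 h3)

lemma HH_box : ∃ C : ℝ, 0 ≤ C ∧ ∀ v t σ : ℝ, 1 ≤ v → |t| ≤ Real.exp v → 1 / 2 ≤ σ →
    (∀ r : ℂ, riemannZeta r = 0 → |r.im - t| ≤ v + 2 → r.re ≤ σ) →
    ∀ s : ℂ, σ + 1 / v ≤ s.re → s.re ≤ 2 → |s.im - t| ≤ v → ‖HH s‖ ≤ C * v ^ 3 := by
  obtain ⟨C, hC, hle⟩ := zeta1_le
  refine ⟨12 * (98 * C + 2), by positivity, fun v t σ hv ht h1 hz s a1 a2 a3 => ?_⟩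
  have hv0 : 0 < v := by linarith
  set c : ℂ := 2 + s.im * I with hc
  have cre : c.re = 2 := by simp [hc]
  have cim : c.im = s.im := by simp [hc]
  have hball : ∀ z ∈ ball c (2 - σ), σ < z.re ∧ |z.im - t| ≤ v + 2 ∧ ‖z‖ + 1 ≤ 7 * Real.exp v := by
    intro z hzz
    rw [mem_ball, dist_eq_norm] at hzz
    have b1 := abs_re_le_norm (z - c)
    have b2 := abs_im_le_norm (z - c)
    rw [sub_re, cre] at b1
    rw [sub_im, cim] at b2
    have b3 := norm_le_abs_re_add_abs_im z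
    have b4 := Real.add_one_le_exp v
    rw [abs_le] at b1 b2 a3 ht
    refine ⟨by linarith [b1.1], abs_le.2 ⟨by linarith [b2.1, a3.1], by linarith [b2.2, a3.2]⟩, ?_⟩
    have b5 : |z.re| ≤ 7 / 2 := abs_le.2 ⟨by linarith [b1.1], by linarith [b1.2]⟩
    have b6 : |z.im| ≤ Real.exp v + v + 3 / 2 :=
      abs_le.2 ⟨by linarith [b2.1, a3.1, ht.1], by linarith [b2.2, a3.2, ht.2]⟩
    linarith
  have key := logderiv_far (f := riemannZeta₁) (c := c) (z := s) (R := 2 - σ)
    (B := C * (7 * Real.exp v) ^ 2) (M := (98 * C + 2) * v) (δ := 1 / (2 * v)) (by positivity)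
    (by positivity) differentiable_riemannZeta₁.differentiableOn
    (fun z hzz => zeta1_ne fun h => by
      have := hz z h (hball z hzz).2.1
      linarith [(hball z hzz).1])
    (fun z hzz => (hle z (by linarith [(hball z hzz).1])).trans (by
      have := (hball z hzz).2.2
      gcongr))
    (by
      have b1 := zeta1_ge cre
      have b2 : 98 * C ≤ Real.exp (98 * C * v) := by
        have := Real.add_one_le_exp (98 * C * v)
        nlinarith
      have b3 : Real.exp ((98 * C + 2) * v) = Real.exp (98 * C * v) * Real.exp v ^ 2 := by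
        rw [← Real.exp_nat_mul, ← Real.exp_add]; congr 1; push_cast; ring
      rw [b3]
      calc C * (7 * Real.exp v) ^ 2 = 98 * C * Real.exp v ^ 2 * (1 / 2) := by ring
        _ ≤ _ := by gcongr)
    (by
      have : s - c = ((s.re - 2 : ℝ) : ℂ) := by
        apply Complex.ext <;> simp [hc]
      rw [this, norm_real, Real.norm_eq_abs, abs_of_nonpos (by linarith)]
      have : 2 * (1 / (2 * v)) = 1 / v := by field_simp
      linarith)
  rw [HH, norm_neg]
  refine key.trans ?_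
  calc 2 * ((98 * C + 2) * v) * (2 - σ) / (1 / (2 * v)) ^ 2
      = 8 * (98 * C + 2) * v ^ 3 * (2 - σ) := by field_simp; ring
    _ ≤ 8 * (98 * C + 2) * v ^ 3 * (3 / 2) := by gcongr; linarith
    _ = _ := by ring

lemma EE_shift (v r : ℝ) (w : ℂ) : EE (v - r) w = exp (-w * r) * EE v w := by
  rw [EE, EE, ← exp_add]
  congr 1
  push_cast
  ring

lemma pole_eq (v t : ℝ) :
    ∫ y : ℝ, (t * I + ((1 : ℝ) + y * I))⁻¹ * EE v ((1 : ℝ) + y * I) =
      ∫ r in Ioi (0 : ℝ), exp (-(t * I) * r) *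
        ((√(2 * Real.pi) * Real.exp (-(v - r) ^ 2 / 2) : ℝ) : ℂ) := by
  have hint : Integrable (Function.uncurry fun (y r : ℝ) =>
      exp (-(t * I) * r) * EE (v - r) ((1 : ℝ) + y * I))
      (volume.prod (volume.restrict (Ioi (0 : ℝ)))) := by
    have h1 : Integrable (fun r : ℝ => Real.exp (-1 * r)) (volume.restrict (Ioi (0 : ℝ))) :=
      exp_neg_integrableOn_Ioi 0 one_pos
    have h2 := (integrable_gauss.const_mul (Real.exp (1 / 2 + v))).mul_prod h1
    refine h2.mono' (Continuous.aestronglyMeasurable ?_) (Eventually.of_forall fun p => ?_)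
    · unfold Function.uncurry EE
      fun_prop
    · simp only [Function.uncurry]
      rw [norm_mul, norm_EE, norm_exp]
      apply le_of_eq
      rw [← Real.exp_add, ← Real.exp_add, ← Real.exp_add, ← Real.exp_add]
      congr 1
      simp
      ring
  have h := integral_integral_swap hint
  simp_rw [integral_const_mul, integral_EE] at h
  rw [← h]
  refine integral_congr_ae (Eventually.of_forall fun y => ?_)
  have e : ∀ r : ℝ, exp (-(t * I) * r) * EE (v - r) ((1 : ℝ) + y * I) =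
      exp (-(t * I + ((1 : ℝ) + y * I)) * r) * EE v ((1 : ℝ) + y * I) := by
    intro r
    rw [EE_shift, ← mul_assoc, ← exp_add]
    congr 2
    ring
  simp_rw [e]
  rw [integral_mul_const, integral_exp_mul_complex_Ioi (by simp), neg_div_neg_eq]
  simp

lemma full_eq (v t : ℝ) :
    ∫ r : ℝ, exp (-(t * I) * r) * ((Real.exp (-(v - r) ^ 2 / 2) : ℝ) : ℂ) =
      √(2 * Real.pi) * exp (-(t * v * I) - t ^ 2 / 2) := by
  have h := integral_EE (-t) 0
  rw [← integral_sub_right_eq_self _ v] at h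
  have e : ∀ r : ℝ, exp (-(t * I) * r) * ((Real.exp (-(v - r) ^ 2 / 2) : ℝ) : ℂ) =
      exp (-(t * v * I)) * EE (-t) ((0 : ℝ) + ((r - v : ℝ) : ℂ) * I) := by
    intro r
    rw [EE, ofReal_exp, ← exp_add, ← exp_add]
    congr 1
    push_cast
    linear_combination (-(r - v) ^ 2 / 2 : ℂ) * I_sq
  simp_rw [e]
  rw [integral_const_mul, h, sub_eq_add_neg, exp_add]
  push_cast
  rw [show -(-(t : ℂ)) ^ 2 / 2 = -(t ^ 2 / 2) by ring]
  ring

lemma pole_le {v : ℝ} (hv : 1 ≤ v) (t : ℝ) :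
    ‖(∫ y : ℝ, (t * I + ((1 : ℝ) + y * I))⁻¹ * EE v ((1 : ℝ) + y * I)) -
      √(2 * Real.pi) * (√(2 * Real.pi) * exp (-(t * v * I) - t ^ 2 / 2))‖ ≤
      9 * Real.exp (-v / 2) := by
  have hn : ∀ r : ℝ, ‖exp (-(t * I) * r) * ((Real.exp (-(v - r) ^ 2 / 2) : ℝ) : ℂ)‖ =
      Real.exp (-(v - r) ^ 2 / 2) := by
    intro r
    rw [norm_mul, norm_exp, norm_real, Real.norm_of_nonneg (Real.exp_pos _).le]
    simp
  have hint : Integrable fun r : ℝ =>
      exp (-(t * I) * r) * ((Real.exp (-(v - r) ^ 2 / 2) : ℝ) : ℂ) := by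
    refine (integrable_gauss.comp_sub_right v).mono' (Continuous.aestronglyMeasurable ?_)
      (Eventually.of_forall fun r => ?_)
    · fun_prop
    · rw [hn]
      apply le_of_eq
      congr 1
      ring
  have e : ∀ r : ℝ, exp (-(t * I) * r) *
      ((√(2 * Real.pi) * Real.exp (-(v - r) ^ 2 / 2) : ℝ) : ℂ) =
      √(2 * Real.pi) * (exp (-(t * I) * r) * ((Real.exp (-(v - r) ^ 2 / 2) : ℝ) : ℂ)) := by
    intro r
    push_cast
    ring
  rw [pole_eq, ← full_eq]
  simp_rw [e]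
  rw [integral_const_mul, ← mul_sub, ← integral_add_compl (measurableSet_Ioi (a := (0 : ℝ))) hint,
    sub_add_cancel_left, norm_mul, norm_neg, norm_real, Real.norm_of_nonneg (Real.sqrt_nonneg _)]
  have hg := integrable_gauss.const_mul (Real.exp (-v / 2))
  have h1 : ‖∫ r in (Ioi (0 : ℝ))ᶜ, exp (-(t * I) * r) * ((Real.exp (-(v - r) ^ 2 / 2) : ℝ) : ℂ)‖ ≤
      Real.exp (-v / 2) * √(2 * Real.pi) := by
    refine (norm_integral_le_of_norm_le hg.integrableOn ?_).trans ?_
    · filter_upwards [ae_restrict_mem measurableSet_Ioi.compl] with r hr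
      simp only [mem_compl_iff, mem_Ioi, not_lt] at hr
      rw [hn, ← Real.exp_add]
      gcongr
      nlinarith
    · refine (setIntegral_le_integral hg (Eventually.of_forall fun y => by positivity)).trans ?_
      rw [integral_const_mul, integral_gauss]
  have h2 := sqrt_two_pi_le
  calc _ ≤ 3 * (Real.exp (-v / 2) * 3) := by
        refine mul_le_mul h2 (h1.trans ?_) (norm_nonneg _) (by norm_num)
        gcongr
    _ = _ := by ring

theorem loc0 : ∃ C : ℝ, 0 ≤ C ∧ ∀ v t σ : ℝ, 1 ≤ v → |t| ≤ Real.exp v → 1 / 2 ≤ σ → σ ≤ 1 →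
    (∀ r : ℂ, riemannZeta r = 0 → |r.im - t| ≤ v + 2 → r.re ≤ σ) →
    ‖(∑' n : ℕ, LSeries.term (fun n => (vonMangoldt n : ℂ)) (1 + t * I) n * (gw v n : ℂ)) -
      √(2 * Real.pi) * exp (-(t * v * I) - t ^ 2 / 2)‖ ≤
      C * v ^ 3 * Real.exp (-(1 - σ) * v) := by
  obtain ⟨K', hK', hline⟩ := HH_line
  obtain ⟨C, hC, hbox⟩ := HH_box
  refine ⟨64 * (C * 3 + (C + K') * Real.exp (9 / 4)) + 9, by positivity,
    fun v t σ hv ht h1 h2 hz => ?_⟩
  have hv0 : 0 < v := by linarith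
  have hv1 : 1 / v ≤ 1 := by rw [div_le_one hv0]; exact hv
  have hv2 : 0 < 1 / v := by positivity
  set a : ℕ → ℂ := LSeries.term (fun n => (vonMangoldt n : ℂ)) (1 + t * I) with ha
  have hre : ∀ y : ℝ, ((1 : ℂ) + t * I + ((1 : ℝ) + y * I)).re = 2 := by
    intro y; simp; norm_num
  have hsum : LSeriesSummable a (1 : ℝ) := by
    have : LSeriesSummable (fun n => (vonMangoldt n : ℂ)) (1 + t * I + (1 : ℝ)) :=
      LSeriesSummable_vonMangoldt (by simp)
    exact this.congr fun n => (term_term _ _ _ n).symm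
  have hL : ∀ y : ℝ, LSeries a ((1 : ℝ) + y * I) =
      HH (1 + t * I + ((1 : ℝ) + y * I)) + (t * I + ((1 : ℝ) + y * I))⁻¹ := by
    intro y
    have : LSeries a ((1 : ℝ) + y * I) =
        LSeries (fun n => (vonMangoldt n : ℂ)) (1 + t * I + ((1 : ℝ) + y * I)) :=
      tsum_congr fun n => term_term _ _ _ n
    rw [this, HH_eq (by rw [hre]; norm_num)]
    congr 2
    ring
  have hG := (gauss_LSeries (a := a) (by simp [ha]) hsum v).tsum_eq
  have hcH : Continuous fun y : ℝ => HH (1 + t * I + ((1 : ℝ) + y * I)) := by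
    refine continuous_iff_continuousAt.2 fun y => ?_
    exact ContinuousAt.comp (f := fun y : ℝ => (1 + t * I + ((1 : ℝ) + y * I) : ℂ))
      (HH_diff (riemannZeta_ne_zero_of_one_lt_re (by rw [hre]; norm_num))).continuousAt
      (by fun_prop)
  have hge : ∀ y : ℝ, 1 ≤ ‖(t * I + ((1 : ℝ) + y * I) : ℂ)‖ := by
    intro y
    have := re_le_norm (t * I + ((1 : ℝ) + y * I) : ℂ)
    simpa using this
  have hcP : Continuous fun y : ℝ => (t * I + ((1 : ℝ) + y * I) : ℂ)⁻¹ :=
    Continuous.inv₀ (by fun_prop) fun y h => by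
      have := hge y
      rw [h, norm_zero] at this
      linarith
  have i1 := integrable_line hcH (fun y => hline _ (hre y)) v 1
  have i2 := integrable_line hcP (K := 1)
    (fun y => by rw [norm_inv]; exact inv_le_one_of_one_le₀ (hge y)) v 1
  simp_rw [hL, add_mul] at hG
  rw [integral_add i1 i2] at hG
  have hS := shift_bound (F := fun w => HH (1 + t * I + w)) (σ₁ := σ - 1 + 1 / v) (σ₂ := 1) (T := v)
    (v := v) (K := C * v ^ 3) (K' := K') (by linarith) (by linarith) (by norm_num) hv0.le hv0.le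
    (fun w hw => by
      refine (DifferentiableAt.comp w (HH_diff fun h => ?_) (by fun_prop)).differentiableWithinAt
      have b1 := hw.1.1
      have b2 := hw.2
      have := hz _ h (by
        simp only [add_im, one_im, mul_im, ofReal_re, I_im, ofReal_im, I_re]
        rw [abs_le]
        constructor <;> linarith [b2.1, b2.2])
      simp at this b1
      simp only [one_div] at hv2
      linarith)
    (fun x hx y hy => hbox v t σ hv ht h1 hz _ (by simp; have := hx.1; simp at this; linarith)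
      (by simp; linarith [hx.2]) (by simp; exact abs_le.2 hy))
    hcH (fun y => hline _ (hre y))
  have hP := pole_le hv t
  have hq := one_le_sqrt_two_pi
  have e1 : (∑' n : ℕ, a n * ((√(2 * Real.pi) * gw v n : ℝ) : ℂ)) =
      √(2 * Real.pi) * ∑' n : ℕ, a n * (gw v n : ℂ) := by
    rw [← tsum_mul_left]
    refine tsum_congr fun n => ?_
    push_cast
    ring
  rw [e1] at hG
  set E := Real.exp (-(1 - σ) * v) with hE
  have hE0 : 0 < E := Real.exp_pos _
  have b1 : Real.exp (v * (σ - 1 + 1 / v)) ≤ 3 * E := by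
    rw [show v * (σ - 1 + 1 / v) = 1 + -(1 - σ) * v by field_simp; ring, Real.exp_add]
    gcongr
    linarith [Real.exp_one_lt_d9]
  have b2 : Real.exp (-v / 2) ≤ E := by
    rw [hE]; gcongr; nlinarith
  have b3 : Real.exp (v * 1) * Real.exp (-v ^ 2 / 4) ≤ Real.exp (9 / 4) * E := by
    rw [hE, ← Real.exp_add, ← Real.exp_add]
    refine Real.exp_le_exp.2 ?_
    nlinarith [sq_nonneg (v - 3)]
  have b4 : 1 ≤ v ^ 3 := one_le_pow₀ hv
  have b5 : C * v ^ 3 + K' ≤ (C + K') * v ^ 3 := by nlinarith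
  set D := (∑' n : ℕ, a n * (gw v n : ℂ)) - √(2 * Real.pi) * exp (-(t * v * I) - t ^ 2 / 2) with hD
  have b6 : ‖D‖ ≤ ‖(√(2 * Real.pi) : ℂ) * D‖ := by
    rw [norm_mul, norm_real, Real.norm_of_nonneg (Real.sqrt_nonneg _)]
    nlinarith [norm_nonneg D]
  refine b6.trans ?_
  rw [hD, mul_sub, hG, add_sub_assoc]
  refine (norm_add_le _ _).trans ((add_le_add hS hP).trans ?_)
  calc 64 * (C * v ^ 3 * Real.exp (v * (σ - 1 + 1 / v)) +
        (C * v ^ 3 + K') * Real.exp (v * 1) * Real.exp (-v ^ 2 / 4)) + 9 * Real.exp (-v / 2)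
      ≤ 64 * (C * v ^ 3 * (3 * E) + (C + K') * v ^ 3 * (Real.exp (9 / 4) * E)) +
          9 * (v ^ 3 * E) := by
        rw [mul_assoc (C * v ^ 3 + K')]
        gcongr
        nlinarith
    _ = _ := by ring

theorem pt : Pt := by
  obtain ⟨C, -, h⟩ := loc0
  refine ⟨C, 1, fun v t σ a1 a2 a3 a4 a5 => ?_⟩
  rw [show v * (σ - 1) = -(1 - σ) * v by ring]
  refine le_of_eq_of_le ?_ (h v t σ a1 a2 a3 a4 a5)
  unfold PG PM
  congr 2
  refine tsum_congr fun n => ?_
  rcases eq_or_ne n 0 with rfl | hn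
  · simp
  · rw [LSeries.term_of_ne_zero hn, cpow_neg, gw]
    rfl

end Pool.Agent.Lib.MP_b09185_nt.Sh
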