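import Pool.Agent.Lib.MP_b09185_nt.ShDef

/-! Line shifts, the kernel with a simple pole, thinning of separated sets. -/

namespace Pool.Agent.Lib.MP_b09185_nt.Sh

open Complex Set Filter Topology MeasureTheory Mai

lemma shift_gauss {G : ℂ → ℂ} {σ₁ σ₂ D : ℝ} (h12 : σ₁ ≤ σ₂)
    (hG : DifferentiableOn ℂ G (Icc σ₁ σ₂ ×ℂ univ))
    (hD : ∀ x ∈ Icc σ₁ σ₂, ∀ y : ℝ, ‖G (x + y * I)‖ ≤ D * Real.exp (-(1 / 4) * y ^ 2)) :
    (∀ x ∈ Icc σ₁ σ₂, Integrable fun y : ℝ => G (x + y * I)) ∧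
      ∫ y : ℝ, G (σ₁ + y * I) = ∫ y : ℝ, G (σ₂ + y * I) := by
  have hi : ∀ x ∈ Icc σ₁ σ₂, Integrable fun y : ℝ => G (x + y * I) := by
    intro x hx
    refine ((integrable_exp_neg_mul_sq (by norm_num : (0 : ℝ) < 1 / 4)).const_mul D).mono'
      (hG.continuousOn.comp_continuous (by fun_prop) fun y => ?_).aestronglyMeasurable
      (Eventually.of_forall (hD x hx))
    simpa [mem_reProdIm] using hx
  refine ⟨hi, ?_⟩
  have t1 := intervalIntegral_tendsto_integral (hi σ₁ ⟨le_rfl, h12⟩) tendsto_neg_atTop_atBot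
    tendsto_id
  have t2 := intervalIntegral_tendsto_integral (hi σ₂ ⟨h12, le_rfl⟩) tendsto_neg_atTop_atBot
    tendsto_id
  have t3 : Tendsto (fun T : ℝ => 2 * (D * Real.exp (-(1 / 4) * T ^ 2) * |σ₂ - σ₁|)) atTop
      (𝓝 (2 * (D * 0 * |σ₂ - σ₁|))) := by
    refine ((Tendsto.const_mul D ?_).mul_const _).const_mul 2
    refine Real.tendsto_exp_atBot.comp ?_
    exact (tendsto_pow_atTop two_ne_zero).const_mul_atTop_of_neg (by norm_num)
  rw [mul_zero, zero_mul, mul_zero] at t3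
  have t4 : Tendsto (fun T : ℝ => (∫ y in (-T)..T, G (σ₂ + y * I)) - ∫ y in (-T)..T, G (σ₁ + y * I))
      atTop (𝓝 0) := by
    refine squeeze_zero_norm (fun T => ?_) t3
    have hrect := integral_boundary_rect_eq_zero_of_differentiableOn G
      (σ₁ + (-T : ℝ) * I) (σ₂ + T * I) (hG.mono (by
        simp only [add_re, ofReal_re, mul_re, I_re, mul_zero, ofReal_im, I_im, mul_one, sub_self,
          add_zero, add_im, mul_im, zero_add, uIcc_of_le h12]
        exact fun z hz => ⟨hz.1, mem_univ _⟩))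
    simp only [add_re, ofReal_re, mul_re, I_re, mul_zero, ofReal_im, I_im, mul_one, sub_self,
      add_zero, add_im, mul_im, zero_add, smul_eq_mul] at hrect
    have hor : ∀ y : ℝ, y ^ 2 = T ^ 2 → ‖∫ x in σ₁..σ₂, G (x + y * I)‖ ≤
        D * Real.exp (-(1 / 4) * T ^ 2) * |σ₂ - σ₁| := by
      intro y hy
      refine intervalIntegral.norm_integral_le_of_norm_le_const fun x hx => ?_
      rw [uIoc_of_le h12] at hx
      rw [← hy]
      exact hD x ⟨hx.1.le, hx.2⟩ y
    have e : I * ((∫ y in (-T)..T, G (σ₂ + y * I)) - ∫ y in (-T)..T, G (σ₁ + y * I)) =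
        (∫ x in σ₁..σ₂, G (x + T * I)) - ∫ x in σ₁..σ₂, G (x + (-T : ℝ) * I) := by
      linear_combination hrect
    have e2 := congrArg norm e
    rw [norm_mul, norm_I, one_mul] at e2
    rw [e2]
    refine (norm_sub_le _ _).trans ?_
    linarith [hor T rfl, hor (-T) (by ring)]
  exact (sub_eq_zero.1 (tendsto_nhds_unique (t2.sub t1) t4)).symm

lemma shift_line {F : ℂ → ℂ} {σ₁ σ₂ C : ℝ} (v : ℝ) (h12 : σ₁ ≤ σ₂)
    (hF : DifferentiableOn ℂ F (Icc σ₁ σ₂ ×ℂ univ))
    (hK : ∀ x ∈ Icc σ₁ σ₂, ∀ y : ℝ, 1 ≤ |y| → ‖F (x + y * I)‖ ≤ C * Real.exp (C * |y|)) :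
    (∀ x ∈ Icc σ₁ σ₂, Integrable fun y : ℝ => F (x + y * I) * EE v (x + y * I)) ∧
      ∫ y : ℝ, F (σ₁ + y * I) * EE v (σ₁ + y * I) = ∫ y : ℝ, F (σ₂ + y * I) * EE v (σ₂ + y * I) := by
  obtain ⟨M, hM⟩ := (isCompact_Icc.reProdIm isCompact_Icc :
    IsCompact (Icc σ₁ σ₂ ×ℂ Icc (-1 : ℝ) 1)).exists_bound_of_continuousOn
      (hF.continuousOn.mono fun z hz => ⟨hz.1, mem_univ _⟩)
  obtain ⟨E, hE⟩ := (isCompact_Icc : IsCompact (Icc σ₁ σ₂)).exists_bound_of_continuousOn
    (f := fun x : ℝ => Real.exp (x ^ 2 / 2 + v * x)) (by fun_prop)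
  refine shift_gauss (G := fun s => F s * EE v s) (D := (|M| + |C|) * Real.exp (C ^ 2) * E) h12
    (hF.mul (differentiable_EE v).differentiableOn) fun x hx y => ?_
  have h1 : ‖F (x + y * I)‖ ≤ (|M| + |C|) * Real.exp (|C| * |y|) := by
    have e1 : 1 ≤ Real.exp (|C| * |y|) := Real.one_le_exp (by positivity)
    rcases le_total 1 |y| with h | h
    · refine (hK x hx y h).trans (mul_le_mul (by linarith [le_abs_self C, abs_nonneg M]) ?_
        (by positivity) (by positivity))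
      gcongr
      exact le_abs_self C
    · have := hM (x + y * I) (by simpa [mem_reProdIm, hx.1, hx.2] using abs_le.1 h)
      nlinarith [le_abs_self M, abs_nonneg M, abs_nonneg C]
  have h2 := (le_abs_self _).trans (hE x hx)
  have h3 : Real.exp (|C| * |y|) * Real.exp (-(1 / 2) * y ^ 2) ≤
      Real.exp (C ^ 2) * Real.exp (-(1 / 4) * y ^ 2) := by
    rw [← Real.exp_add, ← Real.exp_add]
    refine Real.exp_le_exp.2 ?_
    nlinarith [sq_nonneg (|C| - |y| / 2), sq_abs C, sq_abs y]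
  rw [norm_mul, norm_EE]
  calc _ ≤ (|M| + |C|) * Real.exp (|C| * |y|) * (E * Real.exp (-(1 / 2) * y ^ 2)) := by gcongr
    _ = (|M| + |C|) * E * (Real.exp (|C| * |y|) * Real.exp (-(1 / 2) * y ^ 2)) := by ring
    _ ≤ (|M| + |C|) * E * (Real.exp (C ^ 2) * Real.exp (-(1 / 4) * y ^ 2)) := by
        have : 0 ≤ E := (Real.exp_pos _).le.trans h2
        gcongr
    _ = _ := by ring

lemma ker_inv {c : ℝ} (hc : 0 < c) (x t : ℝ) :
    ∫ u : ℝ, ((c : ℂ) + u * I + t * I)⁻¹ * EE x (c + u * I) = (√(2 * Real.pi) : ℝ) *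
      ∫ y in Ioi (0 : ℝ), exp (-((t : ℂ) * y * I)) * (Real.exp (-(x - y) ^ 2 / 2) : ℝ) := by
  have e1 : ∀ u : ℝ, ((c : ℂ) + u * I + t * I)⁻¹ * EE x (c + u * I) =
      ∫ y in Ioi (0 : ℝ), exp (-((c : ℂ) + u * I + t * I) * y) * EE x (c + u * I) := by
    intro u
    rw [integral_mul_const, integral_exp_mul_complex_Ioi (by simpa using hc)]
    simp only [ofReal_zero, mul_zero, exp_zero]
    rw [neg_div_neg_eq, one_div]
  have e2 : ∀ u y : ℝ, exp (-((c : ℂ) + u * I + t * I) * y) * EE x (c + u * I) =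
      exp (-((t : ℂ) * y * I)) * EE (x - y) (c + u * I) := by
    intro u y
    simp only [EE, ← exp_add]
    congr 1
    push_cast
    ring
  simp_rw [e1]
  rw [integral_integral_swap]
  · simp_rw [e2, integral_const_mul, integral_EE]
    rw [← integral_const_mul]
    congr 1
    ext y
    push_cast
    ring
  · have h1 := (integrable_gauss.const_mul (Real.exp (c ^ 2 / 2 + x * c))).mul_prod
      (exp_neg_integrableOn_Ioi 0 hc)
    refine h1.mono' (Continuous.aestronglyMeasurable ?_) (Eventually.of_forall fun p => ?_)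
    · unfold EE Function.uncurry
      fun_prop
    · simp only [Function.uncurry]
      rw [norm_mul, norm_EE, norm_exp, mul_comm]
      simp

lemma ker_LSeries {a : ℕ → ℂ} (h0 : a 0 = 0) {c : ℝ} (ha : LSeriesSummable a c) (v : ℝ)
    {k : ℝ → ℂ} (hk : Continuous k) {K : ℝ} (hK : ∀ u, ‖k u‖ ≤ K) :
    HasSum (fun n => a n * ∫ u : ℝ, k u * EE (v - Real.log n) (c + u * I))
      (∫ u : ℝ, LSeries a (c + u * I) * (k u * EE v (c + u * I))) := by
  have hn : ∀ (t : ℝ) n, ‖LSeries.term a (c + t * I) n‖ = ‖LSeries.term a c n‖ := by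
    intro t n
    simp [LSeries.norm_term_eq]
  have hc : ∀ n, Continuous fun t : ℝ => LSeries.term a (c + t * I) n := by
    intro n
    rcases eq_or_ne n 0 with rfl | h
    · simp [continuous_const]
    · simp only [LSeries.term_of_ne_zero h]
      have : (n : ℂ) ≠ 0 := by exact_mod_cast h
      refine continuous_const.div (Continuous.const_cpow (by fun_prop) (Or.inl this)) fun t => ?_
      simp [this]
  have h := hasSum_integral_of_summable_integral_norm (μ := volume)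
    (F := fun n (t : ℝ) => LSeries.term a (c + t * I) n * (k t * EE v (c + t * I)))
    (fun n => by
      simp_rw [← mul_assoc]
      refine integrable_line ((hc n).mul hk) (K := ‖LSeries.term a c n‖ * K) (fun t => ?_) v c
      rw [Pi.mul_apply, norm_mul, hn]
      exact mul_le_mul_of_nonneg_left (hK t) (norm_nonneg _))
    (by
      simp_rw [norm_mul, hn, integral_const_mul]
      exact (summable_norm_iff.2 ha).mul_right _)
  simp_rw [tsum_mul_right] at h
  have e : (fun n => a n * ∫ u : ℝ, k u * EE (v - Real.log n) (c + u * I)) =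
      fun n => ∫ t : ℝ, LSeries.term a (c + t * I) n * (k t * EE v (c + t * I)) := by
    funext n
    rcases eq_or_ne n 0 with rfl | h
    · simp [h0]
    · rw [← integral_const_mul]
      congr 1
      ext t
      rw [mul_left_comm (LSeries.term _ _ _), term_EE a v _ h]
      ring
  rw [e]
  exact h

open Finset in
lemma thin {P : ℝ → Prop} {R U : ℝ} (hU : 0 ≤ U)
    (hR : ∀ S' : Finset ℝ, Sep S' → (∀ t ∈ S', P t) → (#S' : ℝ) ≤ R) {S : Finset ℝ} (hS : Sep S)
    (h : ∀ t ∈ S, ∃ t', |t' - t| ≤ U ∧ P t') : (#S : ℝ) ≤ (2 * U + 4) * R := by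
  classical
  choose! g hg hP using h
  have R0 : 0 ≤ R := by simpa using hR ∅ (by simp [Sep]) (by simp)
  set q : ℕ := ⌈2 * U⌉₊ + 2 with hq
  have q0 : (0 : ℤ) < q := by positivity
  have q1 : 2 * U + 2 ≤ q := by rw [hq]; push_cast; linarith [Nat.le_ceil (2 * U)]
  have q2 : (q : ℝ) ≤ 2 * U + 4 := by
    rw [hq]; push_cast; linarith [Nat.ceil_lt_add_one (by linarith : 0 ≤ 2 * U)]
  have far : ∀ t ∈ S, ∀ u ∈ S, t ≠ u → ⌊t⌋ % q = ⌊u⌋ % q → 1 ≤ |g t - g u| := by
    intro t ht u hu hne hm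
    have a1 := hS t ht u hu hne
    have a2 := abs_le.1 (hg t ht)
    have a3 := abs_le.1 (hg u hu)
    have b1 := Int.floor_le t
    have b2 := Int.lt_floor_add_one t
    have b3 := Int.floor_le u
    have b4 := Int.lt_floor_add_one u
    have a4 : ⌊t⌋ - ⌊u⌋ ≠ 0 := by
      intro e
      have e' : (⌊t⌋ : ℝ) = ⌊u⌋ := by exact_mod_cast sub_eq_zero.1 e
      exact absurd a1 (not_le.2 (abs_lt.2 ⟨by linarith, by linarith⟩))
    have a5 := Int.le_abs_of_dvd a4 (Int.ModEq.dvd hm.symm)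
    have a6 : (q : ℝ) ≤ |(⌊t⌋ : ℝ) - ⌊u⌋| := by exact_mod_cast a5
    rcases le_abs'.1 a6 with a | a
    · exact le_abs'.2 (Or.inl (by linarith))
    · exact le_abs'.2 (Or.inr (by linarith))
  have cls : ∀ r : ℤ, (#(S.filter fun t => ⌊t⌋ % q = r) : ℝ) ≤ R := by
    intro r
    have inj : Set.InjOn g (S.filter fun t => ⌊t⌋ % q = r) := by
      intro t ht u hu e
      rw [mem_coe, mem_filter] at ht hu
      by_contra hne
      have := far t ht.1 u hu.1 hne (ht.2.trans hu.2.symm)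
      rw [e, sub_self, abs_zero] at this
      linarith
    rw [← card_image_of_injOn inj]
    refine hR _ (fun x hx y hy hne => ?_) fun x hx => ?_
    · obtain ⟨t, ht, rfl⟩ := mem_image.1 hx
      obtain ⟨u, hu, rfl⟩ := mem_image.1 hy
      rw [mem_filter] at ht hu
      exact far t ht.1 u hu.1 (fun e => hne (e ▸ rfl)) (ht.2.trans hu.2.symm)
    · obtain ⟨t, ht, rfl⟩ := mem_image.1 hx
      exact hP t (mem_filter.1 ht).1
  rw [card_eq_sum_card_fiberwise (f := fun t => ⌊t⌋ % q) (t := Finset.Ico (0 : ℤ) q) fun t _ => by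
    simpa using ⟨Int.emod_nonneg _ q0.ne', Int.emod_lt_of_pos _ q0⟩]
  push_cast
  refine (sum_le_card_nsmul _ _ R fun r _ => cls r).trans ?_
  rw [nsmul_eq_mul, Int.card_Ico]
  simp only [sub_zero, Int.toNat_natCast]
  gcongr

end Pool.Agent.Lib.MP_b09185_nt.Sh
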