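import Pool.Agent.Lib.MP_b09185_nt.ShKer

/-! Zero density for separated ordinates from detection and class counting. -/

namespace Pool.Agent.Lib.MP_b09185_nt.Sh

open Finset Complex Filter

lemma dens_neg {P : ℝ → Prop} {R : ℝ}
    (hR : ∀ S' : Finset ℝ, Sep S' → (∀ t ∈ S', P t) → (#S' : ℝ) ≤ R) :
    ∀ S' : Finset ℝ, Sep S' → (∀ t ∈ S', P (-t)) → (#S' : ℝ) ≤ R := by
  classical
  intro S' hS h
  have hc : #(S'.image fun t : ℝ => -t) = #S' := card_image_of_injective _ neg_injective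
  rw [← hc]
  refine hR _ ?_ ?_
  · intro t ht u hu hne
    obtain ⟨a, ha, rfl⟩ := mem_image.1 ht
    obtain ⟨b, hb, rfl⟩ := mem_image.1 hu
    have := hS a ha b hb (fun e => hne (by rw [e]))
    rwa [show -a - -b = -(a - b) by ring, abs_neg]
  · intro t ht
    obtain ⟨a, ha, rfl⟩ := mem_image.1 ht
    exact h a ha

lemma dens_small {S : Finset ℝ} (hS : Sep S) (h : ∀ t ∈ S, |t| < 1) : (#S : ℝ) ≤ 6 := by
  have := thin (P := fun t => t = 0) (R := 1) (U := 1) zero_le_one (fun S' _ h' => by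
    have : #S' ≤ 1 := card_le_one.2 fun a ha b hb => by rw [h' a ha, h' b hb]
    exact_mod_cast this) hS (fun t ht => ⟨0, by simpa using (h t ht).le, rfl⟩)
  linarith

lemma dens_sub {S : Finset ℝ} (hS : Sep S) (p : ℝ → Prop) [DecidablePred p] :
    Sep (S.filter p) := fun t ht u hu hne =>
  hS t (mem_filter.1 ht).1 u (mem_filter.1 hu).1 hne

lemma dens_scale (k : ℕ) (hk : k ≠ 0) (Z2 : ℕ) {T : ℝ} (hT : 3 ≤ T) :
    ∃ Z : ℕ, Z2 ≤ Z ∧ T ≤ (Z : ℝ) ^ k ∧ (Z : ℝ) ^ k ≤ ((Z2 : ℝ) ^ k + 2 ^ k) * T := by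
  have T0 : 0 ≤ T := by linarith
  obtain ⟨x, x1, xp⟩ : ∃ x : ℝ, 1 ≤ x ∧ x ^ k = T :=
    ⟨T ^ ((k : ℝ)⁻¹), Real.one_le_rpow (by linarith) (by positivity),
      Real.rpow_inv_natCast_pow T0 hk⟩
  have c1 : x ≤ (⌈x⌉₊ : ℝ) := Nat.le_ceil x
  have c2 : (⌈x⌉₊ : ℝ) ≤ 2 * x := by linarith [Nat.ceil_lt_add_one (by linarith : 0 ≤ x)]
  have p2 : (0 : ℝ) ≤ (Z2 : ℝ) ^ k := by positivity
  have p3 : (0 : ℝ) ≤ (2 : ℝ) ^ k := by positivity
  rcases le_total Z2 ⌈x⌉₊ with h | h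
  · refine ⟨⌈x⌉₊, h, ?_, ?_⟩
    · rw [← xp]; exact pow_le_pow_left₀ (by linarith) c1 _
    · have : (⌈x⌉₊ : ℝ) ^ k ≤ (2 * x) ^ k := pow_le_pow_left₀ (by positivity) c2 _
      rw [mul_pow, xp] at this
      nlinarith [mul_nonneg p2 T0]
  · refine ⟨Z2, le_rfl, ?_, ?_⟩
    · rw [← xp]
      exact pow_le_pow_left₀ (by linarith) (c1.trans (by exact_mod_cast h)) _
    · nlinarith [mul_nonneg p3 T0]

theorem dens_of (hD : Det) (hC : Cls) : Dens := by
  classical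
  intro A hA
  obtain ⟨η, hη, Z0, hD⟩ := hD
  obtain ⟨B, C, Z1, hC⟩ := hC A η hA hη
  set Z2 : ℕ := max (max Z0 Z1) 3 with hZ2
  obtain ⟨K, hK1, hK⟩ : ∃ K : ℝ, 1 ≤ K ∧ ∀ T : ℝ, 3 ≤ T → ∃ Z : ℕ, Z2 ≤ Z ∧ T ≤ (Z : ℝ) ^ 1000 ∧
      (Z : ℝ) ^ 1000 ≤ K * T := by
    refine ⟨(Z2 : ℝ) ^ 1000 + 2 ^ 1000, ?_, fun T hT => dens_scale 1000 (by norm_num) Z2 hT⟩
    have p2 : (0 : ℝ) ≤ (Z2 : ℝ) ^ 1000 := by positivity
    have p3 : (1 : ℝ) ≤ (2 : ℝ) ^ 1000 := one_le_pow₀ (by norm_num)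
    generalize (2 : ℝ) ^ 1000 = w at *
    linarith
  have lK : 0 ≤ Real.log K := Real.log_nonneg hK1
  set B' : ℝ := max B 0 with hB'
  set C' : ℝ := max C 0 with hC'
  have B0 : 0 ≤ B' := le_max_right _ _
  have C0 : 0 ≤ C' := le_max_right _ _
  set E : ℝ := C' * K ^ A * (Real.log K + 1) ^ B' with hE
  have E0 : 0 ≤ E := by positivity
  refine ⟨B' + 1, 6 + (2 * Real.log K + 8) * E, fun T σ hT h1 h2 S hS h => ?_⟩
  obtain ⟨Z, hZ, hTZ, hZT⟩ := hK T hT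
  have z0 : Z0 ≤ Z := ((le_max_left _ _).trans (le_max_left _ _)).trans hZ
  have z1 : Z1 ≤ Z := ((le_max_right _ _).trans (le_max_left _ _)).trans hZ
  have z3 : (3 : ℝ) ≤ Z := by exact_mod_cast (le_max_right _ _).trans hZ
  have l3 : ∀ x : ℝ, 3 ≤ x → 1 ≤ Real.log x := fun x hx => by
    rw [Real.le_log_iff_exp_le (by linarith)]
    linarith [Real.exp_one_lt_d9]
  have lT := l3 T hT
  have lZ := l3 Z z3
  have zp : (Z : ℝ) ≤ (Z : ℝ) ^ 1000 := le_self_pow₀ (by linarith) (by norm_num)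
  have lZT : Real.log Z ≤ (Real.log K + 1) * Real.log T := by
    have a1 : Real.log Z ≤ Real.log (K * T) := Real.log_le_log (by linarith) (zp.trans hZT)
    rw [Real.log_mul (by linarith) (by linarith)] at a1
    nlinarith
  have lZZ : Real.log Z ≤ (Z : ℝ) ^ 1000 :=
    ((Real.log_le_sub_one_of_pos (by linarith)).trans (by linarith)).trans zp
  have e0 : 0 ≤ A * (1 - σ) := mul_nonneg (by linarith) (by linarith)
  have e1 : A * (1 - σ) ≤ A := by nlinarith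
  set W : ℝ := T ^ (A * (1 - σ)) * Real.log T ^ B' with hW
  have W1 : 1 ≤ W := one_le_mul_of_one_le_of_one_le (Real.one_le_rpow (by linarith) e0)
    (Real.one_le_rpow lT B0)
  have hR : C * ((Z : ℝ) ^ 1000) ^ (A * (1 - σ)) * Real.log Z ^ B ≤ E * W := by
    have a1 : ((Z : ℝ) ^ 1000) ^ (A * (1 - σ)) ≤ K ^ A * T ^ (A * (1 - σ)) := by
      calc ((Z : ℝ) ^ 1000) ^ (A * (1 - σ)) ≤ (K * T) ^ (A * (1 - σ)) :=
            Real.rpow_le_rpow (by positivity) hZT e0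
        _ = K ^ (A * (1 - σ)) * T ^ (A * (1 - σ)) := Real.mul_rpow (by linarith) (by linarith)
        _ ≤ _ := mul_le_mul_of_nonneg_right (Real.rpow_le_rpow_of_exponent_le hK1 e1)
            (by positivity)
    have a2 : Real.log Z ^ B ≤ (Real.log K + 1) ^ B' * Real.log T ^ B' := by
      calc Real.log Z ^ B ≤ Real.log Z ^ B' :=
            Real.rpow_le_rpow_of_exponent_le lZ (le_max_left _ _)
        _ ≤ ((Real.log K + 1) * Real.log T) ^ B' := Real.rpow_le_rpow (by linarith) lZT B0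
        _ = _ := Real.mul_rpow (by linarith) (by linarith)
    calc C * ((Z : ℝ) ^ 1000) ^ (A * (1 - σ)) * Real.log Z ^ B
        ≤ C' * ((Z : ℝ) ^ 1000) ^ (A * (1 - σ)) * Real.log Z ^ B := by
          have : C ≤ C' := le_max_left _ _
          gcongr
      _ ≤ C' * (K ^ A * T ^ (A * (1 - σ))) * ((Real.log K + 1) ^ B' * Real.log T ^ B') := by
          gcongr
      _ = E * W := by rw [hE, hW]; ring
  obtain ⟨b1, b2, b3, d1, d2, d3, hD⟩ := hD Z z0 σ h1 h2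
  let P : (ℕ → ℂ) → ℝ → Prop := fun b t =>
    |t| ≤ 2 * (Z : ℝ) ^ 1000 ∧ ∃ β : ℝ, σ ≤ β ∧ β ≤ 1 ∧ η ≤ ‖DP Z b (β + t * I)‖
  have hP : ∀ b, Dv b → ∀ S' : Finset ℝ, Sep S' → (∀ t ∈ S', P b t) → (#S' : ℝ) ≤ E * W :=
    fun b hb S' hS' h' => (hC Z z1 b hb σ (by linarith) h2 S' hS' h').trans hR
  let Q : ℝ → Prop := fun t => ∃ t', |t' - t| ≤ Real.log Z ∧ P b3 (-t')
  have cov : S ⊆ S.filter (fun t => |t| < 1) ∪ (S.filter (P b1) ∪ (S.filter (P b2) ∪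
      S.filter Q)) := by
    intro γ hγ
    obtain ⟨g1, β, g2, g3⟩ := h γ hγ
    simp only [mem_union, mem_filter, hγ, true_and]
    by_cases g4 : |γ| < 1
    · exact Or.inl g4
    right
    have g5 : β ≤ 1 := by
      by_contra g5
      exact riemannZeta_ne_zero_of_one_le_re (by simpa using (not_le.1 g5).le) g3
    have g6 : |γ| ≤ (Z : ℝ) ^ 1000 := g1.trans hTZ
    have g7 : |γ| ≤ 2 * (Z : ℝ) ^ 1000 := by linarith [abs_nonneg γ]
    rcases hD β γ g2 g5 (not_lt.1 g4) g6 g3 with g | g | ⟨u, hu, g⟩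
    · exact Or.inl ⟨g7, β, g2, g5, g⟩
    · exact Or.inr (Or.inl ⟨g7, β, g2, g5, g⟩)
    · refine Or.inr (Or.inr ⟨γ + u, by simpa using hu, ?_, σ, le_rfl, h2, g⟩)
      rw [abs_neg]
      linarith [abs_add_le γ u]
  have k0 := dens_small (dens_sub hS fun t => |t| < 1) fun t ht => (mem_filter.1 ht).2
  have k1 := hP b1 d1 _ (dens_sub hS (P b1)) fun t ht => (mem_filter.1 ht).2
  have k2 := hP b2 d2 _ (dens_sub hS (P b2)) fun t ht => (mem_filter.1 ht).2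
  have k3 := thin (P := fun t => P b3 (-t)) (U := Real.log Z) (by linarith)
    (dens_neg (hP b3 d3)) (dens_sub hS Q) fun t ht => (mem_filter.1 ht).2
  have k4 : (#S : ℝ) ≤ #(S.filter (fun t => |t| < 1)) + (#(S.filter (P b1)) +
      (#(S.filter (P b2)) + #(S.filter Q))) := by
    have := (card_le_card cov).trans ((card_union_le _ _).trans (Nat.add_le_add_left
      ((card_union_le _ _).trans (Nat.add_le_add_left (card_union_le _ _) _)) _))
    exact_mod_cast this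
  have EW : 0 ≤ E * W := by positivity
  have fin : (6 + (2 * Real.log K + 8) * E) * T ^ (A * (1 - σ)) * Real.log T ^ (B' + 1) =
      (6 + (2 * Real.log K + 8) * E) * W * Real.log T := by
    rw [Real.rpow_add_one (by linarith), hW]; ring
  rw [fin]
  have m1 : (2 * Real.log Z + 6) * (E * W) ≤ ((2 * Real.log K + 8) * Real.log T) * (E * W) :=
    mul_le_mul_of_nonneg_right (by nlinarith) EW
  have m2 : 1 ≤ W * Real.log T := one_le_mul_of_one_le_of_one_le W1 lT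
  nlinarith

end Pool.Agent.Lib.MP_b09185_nt.Sh
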