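import Pool.Agent.Lib.MP_b09185_nt.ShDet1

/-! Zero detection: reflection on the left and the conclusion. -/

namespace Pool.Agent.Lib.MP_b09185_nt.Sh

open Complex Set Filter Topology MeasureTheory Mai

namespace Dt

lemma pow_le_exp (k : ℕ) (y : ℝ) : (1 + |y|) ^ k ≤ Real.exp (k * |y|) := by
  rw [Real.exp_nat_mul]
  exact pow_le_pow_left₀ (by positivity) (by linarith [Real.add_one_le_exp |y|]) k

lemma shift_poly {F : ℂ → ℂ} {σ₁ σ₂ A : ℝ} {k : ℕ} (v : ℝ) (h12 : σ₁ ≤ σ₂) (hA : 0 ≤ A)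
    (hF : DifferentiableOn ℂ F (Icc σ₁ σ₂ ×ℂ univ))
    (hK : ∀ x ∈ Icc σ₁ σ₂, ∀ y : ℝ, 1 ≤ |y| → ‖F (x + y * I)‖ ≤ A * (1 + |y|) ^ k) :
    (∀ x ∈ Icc σ₁ σ₂, Integrable fun y : ℝ => F (x + y * I) * EE v (x + y * I)) ∧
      ∫ y : ℝ, F (σ₁ + y * I) * EE v (σ₁ + y * I) =
        ∫ y : ℝ, F (σ₂ + y * I) * EE v (σ₂ + y * I) :=
  shift_line (C := A + k) v h12 hF fun x hx y hy => (hK x hx y hy).trans (by
    have hk : (0 : ℝ) ≤ k := k.cast_nonneg
    refine mul_le_mul (by linarith) ((pow_le_exp k y).trans ?_) (by positivity) (by positivity)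
    gcongr
    linarith)

lemma line_le0 {G : ℝ → ℂ} {A : ℝ} (hA : 0 ≤ A)
    (h : ∀ u, ‖G u‖ ≤ A * Real.exp (-(1 / 4) * u ^ 2)) : ‖∫ u, G u‖ ≤ A * 4 := by
  refine (norm_integral_le_of_norm_le
    ((integrable_exp_neg_mul_sq (by norm_num : (0 : ℝ) < 1 / 4)).const_mul A)
    (Eventually.of_forall h)).trans ?_
  rw [integral_const_mul, integral_gaussian]
  gcongr
  rw [Real.sqrt_le_iff]
  constructor <;> linarith [Real.pi_le_four]

lemma line_le {F : ℝ → ℂ} {A : ℝ} {k : ℕ} (hA : 0 ≤ A) (h : ∀ u, ‖F u‖ ≤ A * (1 + |u|) ^ k)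
    (v c : ℝ) : ‖∫ u : ℝ, F u * EE v (c + u * I)‖ ≤
      A * (Real.exp (c ^ 2 / 2 + v * c) * Real.exp (k ^ 2)) * 4 := by
  refine line_le0 (by positivity) fun u => ?_
  rw [norm_mul, norm_EE]
  have h1 : Real.exp (k * |u|) * Real.exp (-(1 / 2) * u ^ 2) ≤
      Real.exp (k ^ 2) * Real.exp (-(1 / 4) * u ^ 2) := by
    rw [← Real.exp_add, ← Real.exp_add]
    exact Real.exp_le_exp.2 (by nlinarith [sq_nonneg (|u| / 2 - k), sq_abs u])
  calc _ ≤ A * Real.exp (k * |u|) * (Real.exp (c ^ 2 / 2 + v * c) * Real.exp (-(1 / 2) * u ^ 2)) :=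
        mul_le_mul_of_nonneg_right ((h u).trans (mul_le_mul_of_nonneg_left (pow_le_exp k u) hA))
          (by positivity)
    _ = A * Real.exp (c ^ 2 / 2 + v * c) * (Real.exp (k * |u|) * Real.exp (-(1 / 2) * u ^ 2)) := by
        ring
    _ ≤ A * Real.exp (c ^ 2 / 2 + v * c) * (Real.exp (k ^ 2) * Real.exp (-(1 / 4) * u ^ 2)) := by
        gcongr
    _ = _ := by ring

/-- the head of the series of the zeta function -/
noncomputable def hd (N : ℕ) (z : ℂ) : ℂ := ∑ m ∈ Finset.Icc 1 N, (m : ℂ) ^ (-z)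

lemma hd_le (N : ℕ) {z : ℂ} (hz : 0 ≤ z.re) : ‖hd N z‖ ≤ N := by
  refine (norm_sum_le_of_le _ (n := fun _ => (1 : ℝ)) fun d h => ?_).trans (by simp)
  simpa using norm_pow_le (k := 0) h (by simpa using hz)

lemma hd_diff (N : ℕ) : Differentiable ℂ (hd N) := Differentiable.fun_sum fun _ h => diff_pow h

lemma zeta_tail {N : ℕ} (hN : 1 ≤ N) {z : ℂ} (hz : 30 ≤ z.re) :
    ‖riemannZeta z - hd N z‖ ≤ 2 * (1 / (N : ℝ) ^ 28) := by
  have h := tail_le (A := 1) (j := 28) hN (LSeriesHasSum_one (s := z) (by linarith)) fun n hn => by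
    have hn1 : (1 : ℝ) ≤ n := by exact_mod_cast (by omega)
    rw [LSeries.norm_term_eq, if_neg (by omega), Pi.one_apply, norm_one, ← Real.rpow_natCast]
    exact one_div_le_one_div_of_le (by positivity)
      (Real.rpow_le_rpow_of_exponent_le hn1 (by push_cast; linarith))
  rw [Finset.range_eq_Ico, Finset.sum_eq_sum_Ico_succ_bot (by omega), LSeries.term_zero, zero_add,
    Finset.Ico_add_one_right_eq_Icc] at h
  convert h using 3
  refine Finset.sum_congr rfl fun m hm => ?_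
  rw [LSeries.term_of_ne_zero (by have := (Finset.mem_Icc.1 hm).1; omega), cpow_neg]
  simp

/-- the entire function -/
noncomputable def FF (Z : ℕ) (ρ s : ℂ) : ℂ :=
  dslope riemannZeta₁ ρ (ρ + s) * MM Z (ρ + s) * (ρ - 1)⁻¹

/-- the reflected head -/
noncomputable def HH (Z : ℕ) (ρ s : ℂ) : ℂ :=
  chi (ρ + s) * hd (Z ^ 500) (1 - (ρ + s)) * MM Z (ρ + s) * kk ρ s

lemma FF_diff (Z : ℕ) (ρ : ℂ) : Differentiable ℂ (FF Z ρ) := by
  have h1 : Differentiable ℂ (dslope riemannZeta₁ ρ) := differentiableOn_univ.1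
    ((differentiableOn_dslope univ_mem).2 differentiable_riemannZeta₁.differentiableOn)
  have h2 := MM_diff Z
  unfold FF
  fun_prop

lemma zeta1_eq {w : ℂ} (hw : w ≠ 1) : riemannZeta₁ w = (w - 1) * riemannZeta w := by
  rw [riemannZeta_eq_inv_sub_mul hw, mul_inv_cancel_left₀ (sub_ne_zero.2 hw)]

lemma ne_one {ρ : ℂ} (hρ : 1 ≤ |ρ.im|) : ρ ≠ 1 := fun h => by
  rw [h] at hρ
  norm_num at hρ

lemma ds_eq {ρ s : ℂ} (hρ : 1 ≤ |ρ.im|) (h0 : riemannZeta ρ = 0) (hs : s ≠ 0) :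
    dslope riemannZeta₁ ρ (ρ + s) = s⁻¹ * riemannZeta₁ (ρ + s) := by
  rw [dslope_of_ne _ (by simpa using hs), slope_def_field, zeta1_eq (ne_one hρ), h0]
  simp [div_eq_inv_mul]

lemma FF_eq (Z : ℕ) {ρ s : ℂ} (hρ : 1 ≤ |ρ.im|) (h0 : riemannZeta ρ = 0) (hs : s ≠ 0)
    (h1 : ρ + s ≠ 1) : FF Z ρ s = riemannZeta (ρ + s) * MM Z (ρ + s) * kk ρ s := by
  have := sub_ne_zero.2 (ne_one hρ)
  rw [FF, ds_eq hρ h0 hs, zeta1_eq h1, kk]
  field_simp
  ring

lemma abs_add_le_mul (γ u : ℝ) : 1 + |γ + u| ≤ (1 + |γ|) * (1 + |u|) := by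
  nlinarith [abs_add_le γ u, mul_nonneg (abs_nonneg γ) (abs_nonneg u)]

lemma chi_le {w : ℂ} (h1 : 1 / 2 - 30 ≤ w.re) (h2 : w.re ≤ 1 / 2) {γ u : ℝ} (h : w.im = γ + u) :
    ‖chi w‖ ≤ 3 * (30 * (1 + |γ|)) ^ 30 * (1 + |u|) ^ 30 := by
  refine (chi_strip 30 (by exact_mod_cast h1) h2).trans ?_
  rw [h, mul_assoc, ← mul_pow]
  gcongr
  push_cast
  nlinarith [abs_add_le_mul γ u, abs_nonneg (γ + u)]

lemma left : ∃ C : ℝ, 0 ≤ C ∧ ∀ Z : ℕ, 1 ≤ Z → ∀ β γ : ℝ, 5 / 9 ≤ β → β ≤ 1 → 1 ≤ |γ| →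
    |γ| ≤ (Z : ℝ) ^ 1000 → riemannZeta (β + γ * I) = 0 →
    ‖∫ u : ℝ, riemannZeta (β + γ * I + ((2 : ℝ) + u * I)) * MM Z (β + γ * I + ((2 : ℝ) + u * I)) *
      kk (β + γ * I) ((2 : ℝ) + u * I) * EE (yy Z) ((2 : ℝ) + u * I)‖ ≤ C / Z +
      ‖∫ u : ℝ, HH Z (β + γ * I) ((1 / 2 - β : ℝ) + u * I) *
        EE (yy Z) ((1 / 2 - β : ℝ) + u * I)‖ := by
  obtain ⟨D, hD1, hD⟩ := zeta1_strip 30
  obtain ⟨E, hE0, hE⟩ : ∃ E : ℝ, 0 ≤ E ∧ ∀ c v : ℝ, -31 ≤ c → c ≤ -30 → 0 ≤ v →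
      Real.exp (c ^ 2 / 2 + v * c) * Real.exp ((30 : ℕ) ^ 2) ≤ E / Real.exp ((30 : ℕ) * v) :=
    ⟨Real.exp (31 ^ 2 / 2 + 30 ^ 2), (Real.exp_pos _).le, fun c v h1 h2 h3 => by
      rw [← Real.exp_add, ← Real.exp_sub]
      exact Real.exp_le_exp.2 (by push_cast; nlinarith)⟩
  refine ⟨3 * 60 ^ 30 * 2 * 19 * E * 4, by positivity, fun Z hZ β γ h1 h2 h3 h4 h0 => ?_⟩
  set ρ : ℂ := β + γ * I with hρ
  have hZ' : (1 : ℝ) ≤ Z := by exact_mod_cast hZ
  have hi : 1 ≤ |ρ.im| := by simpa [hρ] using h3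
  have hre : ∀ x u : ℝ, (ρ + (x + u * I)).re = β + x := fun x u => by simp [hρ]
  have him : ∀ x u : ℝ, (ρ + (x + u * I)).im = γ + u := fun x u => by simp [hρ]
  have hM : ∀ x u : ℝ, 1 / 2 - 30 - β ≤ x → ‖MM Z (ρ + (x + u * I))‖ ≤ (Z : ℝ) ^ (30 + 1) :=
    fun x u hx => MM_le Z 30 (by rw [hre]; push_cast; linarith)
  obtain ⟨i1, e1⟩ := shift_poly (F := FF Z ρ) (σ₁ := 1 / 2 - 30 - β) (σ₂ := 2) (k := 30 + 2)
    (A := D * (1 + |γ|) ^ (30 + 2) * (Z : ℝ) ^ (30 + 1)) (yy Z) (by linarith) (by positivity)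
    (FF_diff Z ρ).differentiableOn fun x hx u hu => by
      have hs : ((x : ℂ) + u * I) ≠ 0 := fun h => by
        have : u = 0 := by simpa using congrArg im h
        rw [this] at hu
        norm_num at hu
      have a1 : ‖((x : ℂ) + u * I)⁻¹‖ ≤ 1 := by
        rw [norm_inv]
        exact inv_le_one_of_one_le₀ (hu.trans (by simpa using abs_im_le_norm ((x : ℂ) + u * I)))
      have a2 := hD (ρ + (x + u * I)) (by
        rw [hre, abs_le]
        push_cast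
        constructor <;> linarith [hx.1, hx.2])
      rw [him] at a2
      rw [FF, ds_eq hi h0 hs, norm_mul, norm_mul, norm_mul]
      calc _ ≤ 1 * (D * ((1 + |γ|) * (1 + |u|)) ^ (30 + 2)) * (Z : ℝ) ^ (30 + 1) * 1 := by
            gcongr
            · exact a2.trans (by gcongr; exact abs_add_le_mul γ u)
            · exact hM x u hx.1
            · exact inv_le_one hi
        _ = _ := by rw [mul_pow]; ring
  have hk : ∀ x u : ℝ, x ≤ 1 / 2 - β → ‖kk ρ (x + u * I)‖ ≤ 19 := fun x u hx =>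
    kk_le hi (by
      simp only [add_re, ofReal_re, mul_re, I_re, mul_zero, ofReal_im, I_im, mul_one, sub_self,
        add_zero]
      rw [abs_of_nonpos (by linarith)]
      linarith)
  obtain ⟨i2, e2⟩ := shift_poly (F := HH Z ρ) (σ₁ := 1 / 2 - 30 - β) (σ₂ := 1 / 2 - β) (k := 30)
    (A := 3 * (30 * (1 + |γ|)) ^ 30 * ((Z ^ 500 : ℕ) : ℝ) * (Z : ℝ) ^ (30 + 1) * 19) (yy Z)
    (by linarith) (by positivity) (fun s hs => by
      have a1 : s.re ≤ 1 / 2 - β := hs.1.2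
      have a2 : DifferentiableAt ℂ (fun z => chi (ρ + z)) s :=
        (chi_diffAt (s := ρ + s) (by simp [hρ]; linarith)).comp s (by fun_prop)
      have a3 : s ≠ 0 := fun h => by
        rw [h, zero_re] at a1
        linarith
      have a4 := hd_diff (Z ^ 500)
      have a5 := MM_diff Z
      refine DifferentiableAt.differentiableWithinAt ?_
      unfold HH kk
      fun_prop (disch := assumption))
    fun x hx u _ => by
      rw [HH, norm_mul, norm_mul, norm_mul]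
      calc _ ≤ 3 * (30 * (1 + |γ|)) ^ 30 * (1 + |u|) ^ 30 * ((Z ^ 500 : ℕ) : ℝ) *
            (Z : ℝ) ^ (30 + 1) * 19 := by
            gcongr
            · exact chi_le (by rw [hre]; linarith [hx.1]) (by rw [hre]; linarith [hx.2]) (him x u)
            · exact hd_le _ (by rw [sub_re, hre, one_re]; linarith [hx.2])
            · exact hM x u hx.1
            · exact hk x u hx.2
        _ = _ := by ring
  have e3 : ∀ u : ℝ, FF Z ρ ((2 : ℝ) + u * I) = riemannZeta (ρ + ((2 : ℝ) + u * I)) *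
      MM Z (ρ + ((2 : ℝ) + u * I)) * kk ρ ((2 : ℝ) + u * I) := fun u =>
    FF_eq Z hi h0 (fun h => by simpa using congrArg re h) fun h => by
      have := hre 2 u
      rw [h, one_re] at this
      linarith
  simp only [e3] at e1
  rw [← e1, ← e2]
  have j1 := i1 _ ⟨le_rfl, by linarith⟩
  have j2 := i2 _ ⟨le_rfl, by linarith⟩
  refine (norm_le_norm_sub_add _ _).trans (add_le_add ?_ le_rfl)
  rw [← integral_sub j1 j2]
  simp only [← sub_mul]
  have hb := line_le (k := 30) (F := fun u : ℝ => FF Z ρ ((1 / 2 - 30 - β : ℝ) + u * I) -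
    HH Z ρ ((1 / 2 - 30 - β : ℝ) + u * I))
    (A := 3 * (60 * (Z : ℝ) ^ 1000) ^ 30 * (2 * (1 / ((Z ^ 500 : ℕ) : ℝ) ^ 28)) *
      (Z : ℝ) ^ (30 + 1) * 19) (by positivity) (fun u => by
      have a1 := hre (1 / 2 - 30 - β) u
      set s : ℂ := (1 / 2 - 30 - β : ℝ) + u * I with hs
      have a2 : s ≠ 0 := fun h => by
        have : s.re = 1 / 2 - 30 - β := by simp only [hs, add_re, ofReal_re]; simp
        rw [h, zero_re] at this
        linarith
      have a3 : FF Z ρ s - HH Z ρ s = chi (ρ + s) *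
          (riemannZeta (1 - (ρ + s)) - hd (Z ^ 500) (1 - (ρ + s))) * MM Z (ρ + s) * kk ρ s := by
        rw [FF_eq Z hi h0 a2 (fun h => by rw [h, one_re] at a1; linarith), HH,
          zeta_refl (by linarith) (fun h => by rw [h, zero_re] at a1; linarith)]
        ring
      rw [a3, norm_mul, norm_mul, norm_mul]
      calc _ ≤ 3 * (60 * (Z : ℝ) ^ 1000) ^ 30 * (1 + |u|) ^ 30 *
            (2 * (1 / ((Z ^ 500 : ℕ) : ℝ) ^ 28)) * (Z : ℝ) ^ (30 + 1) * 19 := by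
            gcongr
            · refine (chi_le (w := ρ + s) (by linarith) (by linarith) (him _ u)).trans ?_
              have : (1 : ℝ) ≤ (Z : ℝ) ^ 1000 := h3.trans h4
              generalize (Z : ℝ) ^ 1000 = W at *
              gcongr 3 * ?_ ^ 30 * _
              linarith
            · exact zeta_tail (Nat.one_le_pow _ _ hZ) (by rw [sub_re, a1, one_re]; linarith)
            · exact hM _ u le_rfl
            · exact hk _ u (by linarith)
        _ = _ := by ring) (yy Z) (1 / 2 - 30 - β)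
  refine hb.trans ?_
  have hy : 0 ≤ yy Z := mul_nonneg (by norm_num) (Real.log_nonneg hZ')
  have a4 := hE (1 / 2 - 30 - β) (yy Z) (by linarith) (by linarith) hy
  rw [exp_yy hZ] at a4
  have a5 : (Z : ℝ) ^ (1000 * 30) * (Z : ℝ) ^ (30 + 1) * Z ≤
      (Z : ℝ) ^ (500 * 28) * (Z : ℝ) ^ (550 * 30) := by
    rw [← pow_add, ← pow_succ, ← pow_add]
    exact pow_le_pow_right₀ hZ' (by norm_num)
  rw [mul_pow, Nat.cast_pow, ← pow_mul, ← pow_mul]
  have p1 : 0 < (Z : ℝ) ^ (500 * 28) := by positivity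
  have p2 : 0 < (Z : ℝ) ^ (550 * 30) := by positivity
  have p3 : 0 < (Z : ℝ) ^ (1000 * 30) := by positivity
  have p4 : 0 < (Z : ℝ) ^ (30 + 1) := by positivity
  generalize (Z : ℝ) ^ (500 * 28) = W1 at *
  generalize (Z : ℝ) ^ (550 * 30) = W2 at *
  generalize (Z : ℝ) ^ (1000 * 30) = W3 at *
  generalize (Z : ℝ) ^ (30 + 1) = W4 at *
  calc _ ≤ 3 * (60 ^ 30 * W3) * (2 * (1 / W1)) * W4 * 19 * (E / W2) * 4 := by gcongr
    _ = 3 * 60 ^ 30 * 2 * 19 * E * 4 / Z * (W3 * W4 * Z / (W1 * W2)) := by field_simp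
    _ ≤ _ := mul_le_of_le_one_right (by positivity) ((div_le_one (by positivity)).2 a5)

noncomputable def b3 (Z : ℕ) (σ : ℝ) (m : ℕ) : ℂ :=
  if Z < m ∧ m ≤ Z ^ 500 then ((Z * Real.exp (yy Z * (1 / 2 - σ)) * (m : ℝ) ^ (σ - 1 / 2) : ℝ) : ℂ)
  else 0

lemma exp_small {Z : ℕ} (hZ : 1 ≤ Z) {σ : ℝ} (h : 5 / 9 ≤ σ) :
    Real.exp (yy Z * (1 / 2 - σ)) ≤ 1 / (Z : ℝ) ^ 3 := by
  have hZ' : (1 : ℝ) ≤ Z := by exact_mod_cast hZ
  have hL := Real.log_nonneg hZ'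
  rw [one_div ((Z : ℝ) ^ 3), ← Real.exp_log (show (0 : ℝ) < (Z : ℝ) ^ 3 by positivity), ← Real.exp_neg,
    Real.log_pow, yy]
  exact Real.exp_le_exp.2 (by push_cast; nlinarith)

lemma Dv_b3 {Z : ℕ} (hZ : 1 ≤ Z) {σ : ℝ} (h : 5 / 9 ≤ σ) : Dv (b3 Z σ) := fun m => by
  unfold b3
  split_ifs with hm
  · have hZ' : (1 : ℝ) ≤ Z := by exact_mod_cast hZ
    have hL := Real.log_nonneg hZ'
    have hm0 : (0 : ℝ) < m := by exact_mod_cast (by omega : 0 < m)
    have h1 : Real.log m ≤ 500 * Real.log Z := by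
      have := Real.log_le_log hm0 (show (m : ℝ) ≤ (Z : ℝ) ^ 500 by exact_mod_cast hm.2)
      rwa [Real.log_pow, Nat.cast_ofNat] at this
    have h2 : (1 : ℝ) ≤ m.divisors.card := by
      exact_mod_cast Finset.card_pos.2 ⟨1, Nat.one_mem_divisors.2 (by omega)⟩
    rw [norm_real, Real.norm_of_nonneg (by positivity), Real.rpow_def_of_pos hm0]
    refine le_trans ?_ h2
    nth_rewrite 1 [← Real.exp_log (show (0 : ℝ) < Z by linarith)]
    rw [← Real.exp_add, ← Real.exp_add, Real.exp_le_one_iff, yy]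
    nlinarith [mul_le_mul_of_nonneg_right h1 (show 0 ≤ σ - 1 / 2 by linarith)]
  · simp

lemma hd_split {Z : ℕ} (hZ : 1 ≤ Z) (σ t : ℝ) :
    ((Z * Real.exp (yy Z * (1 / 2 - σ)) : ℝ) : ℂ) * hd (Z ^ 500) ((1 / 2 : ℝ) + t * I) =
      ((Z * Real.exp (yy Z * (1 / 2 - σ)) : ℝ) : ℂ) * hd Z ((1 / 2 : ℝ) + t * I) +
        DP Z (b3 Z σ) (σ + t * I) := by
  have h1 : Z ≤ Z ^ 500 := Nat.le_self_pow (by decide) Z
  have h2 : Z ^ 500 ≤ Z ^ 560 := Nat.pow_le_pow_right hZ (by decide)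
  have e : ∀ N : ℕ, Finset.Icc 1 N = Finset.Ioc 0 N := fun N => by
    ext m
    simp [Nat.one_le_iff_ne_zero, Nat.pos_iff_ne_zero]
  unfold hd DP
  rw [e, e, ← Finset.sum_Ioc_consecutive _ (Nat.zero_le Z) h1, mul_add,
    ← Finset.sum_Ioc_consecutive _ h1 h2, Finset.sum_eq_zero (s := Finset.Ioc (Z ^ 500) (Z ^ 560)),
    add_zero, Finset.mul_sum (s := Finset.Ioc Z (Z ^ 500))]
  · congr 1
    refine Finset.sum_congr rfl fun m hm => ?_
    rw [Finset.mem_Ioc] at hm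
    have hm0 : (m : ℂ) ≠ 0 := by exact_mod_cast (by omega : m ≠ 0)
    rw [b3, if_pos hm, ofReal_mul _ ((m : ℝ) ^ (σ - 1 / 2)), ofReal_cpow m.cast_nonneg,
      ofReal_natCast, mul_assoc, ← cpow_add _ _ hm0]
    congr 2
    push_cast
    ring
  · intro m hm
    rw [b3, if_neg (fun h => absurd (Finset.mem_Ioc.1 hm).1 (not_lt.2 h.2)), zero_mul]

lemma mid {Z : ℕ} (hZ : 1 ≤ Z) (hL : 2008 ≤ Real.log Z) {σ β γ η : ℝ} (h1 : 5 / 9 ≤ σ)
    (h2 : σ ≤ β) (h3 : β ≤ 1) (h4 : 1 ≤ |γ|) (hη : 0 ≤ η)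
    (h : ∀ u : ℝ, |u| ≤ Real.log Z → ‖DP Z (b3 Z σ) (σ + (-(γ + u) : ℝ) * I)‖ ≤ η) :
    ‖∫ u : ℝ, HH Z (β + γ * I) ((1 / 2 - β : ℝ) + u * I) *
        EE (yy Z) ((1 / 2 - β : ℝ) + u * I)‖ ≤ 19 * 8 * (η + 1 / Z) * 4 := by
  have hZ' : (1 : ℝ) ≤ Z := by exact_mod_cast hZ
  refine line_le0 (by positivity) fun u => ?_
  have e1 : (β + γ * I + ((1 / 2 - β : ℝ) + u * I) : ℂ) = (1 / 2 : ℝ) + (γ + u : ℝ) * I := by
    push_cast; ring
  have e2 : (1 - ((1 / 2 : ℝ) + (γ + u : ℝ) * I) : ℂ) = (1 / 2 : ℝ) + (-(γ + u) : ℝ) * I := by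
    push_cast; ring
  have a1 : ‖MM Z ((1 / 2 : ℝ) + (γ + u : ℝ) * I)‖ ≤ Z := by
    simpa using MM_le Z 0 (w := (1 / 2 : ℝ) + (γ + u : ℝ) * I) (by simp)
  have a2 : ‖kk (β + γ * I) ((1 / 2 - β : ℝ) + u * I)‖ ≤ 19 := kk_le (by simpa using h4) (by
    simp only [add_re, ofReal_re, mul_re, I_re, mul_zero, ofReal_im, I_im, mul_one, sub_self,
      add_zero]
    rw [abs_of_nonpos (by linarith)]
    linarith)
  have a3 : Real.exp ((1 / 2 - β) ^ 2 / 2 + yy Z * (1 / 2 - β)) ≤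
      8 * Real.exp (yy Z * (1 / 2 - σ)) := by
    refine (exp_sq_le (by linarith) (by linarith) _).trans ?_
    have : 0 ≤ yy Z := by unfold yy; linarith
    gcongr
  have a4 := exp_small hZ h1
  have key : Z * Real.exp (yy Z * (1 / 2 - σ)) *
      ‖hd (Z ^ 500) ((1 / 2 : ℝ) + (-(γ + u) : ℝ) * I)‖ * Real.exp (-(1 / 2) * u ^ 2) ≤
      (η + 1 / Z) * Real.exp (-(1 / 4) * u ^ 2) := by
    rcases le_total |u| (Real.log Z) with hu | hu
    · refine mul_le_mul ?_ (Real.exp_le_exp.2 (by nlinarith [sq_nonneg u])) (by positivity)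
        (by positivity)
      have a5 := congrArg norm (hd_split hZ σ (-(γ + u)))
      rw [norm_mul, norm_real, Real.norm_of_nonneg (by positivity)] at a5
      rw [a5, add_comm η]
      refine norm_add_le_of_le ?_ (h u hu)
      rw [norm_mul, norm_real, Real.norm_of_nonneg (by positivity)]
      calc _ ≤ Z * (1 / (Z : ℝ) ^ 3) * Z := by
            gcongr
            exact hd_le Z (by simp)
        _ = _ := by field_simp
    · have a5 : ‖hd (Z ^ 500) ((1 / 2 : ℝ) + (-(γ + u) : ℝ) * I)‖ ≤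
          Real.exp (500 * Real.log Z) := by
        refine (hd_le _ (by simp)).trans (le_of_eq ?_)
        have := Real.exp_nat_mul (Real.log Z) 500
        rw [Real.exp_log (by linarith), Nat.cast_ofNat] at this
        rw [Nat.cast_pow, this]
      have a6 : Z * Real.exp (yy Z * (1 / 2 - σ)) ≤ 1 / Z := by
        calc _ ≤ Z * (1 / (Z : ℝ) ^ 3) := by gcongr
          _ ≤ _ := by
            rw [mul_one_div, div_le_div_iff₀ (by positivity) (by positivity)]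
            nlinarith [mul_le_mul hZ' hZ' zero_le_one (by linarith)]
      have a7 : Real.exp (500 * Real.log Z) * Real.exp (-(1 / 2) * u ^ 2) ≤
          Real.exp (-(1 / 4) * u ^ 2) := by
        rw [← Real.exp_add]
        exact Real.exp_le_exp.2 (by nlinarith [sq_abs u, mul_self_le_mul_self (by linarith) hu])
      calc _ ≤ 1 / Z * Real.exp (500 * Real.log Z) * Real.exp (-(1 / 2) * u ^ 2) := by gcongr
        _ ≤ _ := by
          rw [mul_assoc]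
          gcongr
          linarith
  rw [HH, e1, e2, norm_mul, norm_mul, norm_mul, norm_mul, chi_half, norm_EE]
  calc _ ≤ 1 * ‖hd (Z ^ 500) ((1 / 2 : ℝ) + (-(γ + u) : ℝ) * I)‖ * Z * 19 *
        (8 * Real.exp (yy Z * (1 / 2 - σ)) * Real.exp (-(1 / 2) * u ^ 2)) := by gcongr
    _ = 19 * 8 * (Z * Real.exp (yy Z * (1 / 2 - σ)) *
      ‖hd (Z ^ 500) ((1 / 2 : ℝ) + (-(γ + u) : ℝ) * I)‖ * Real.exp (-(1 / 2) * u ^ 2)) := by ring
    _ ≤ _ := by rw [mul_assoc (19 * 8 : ℝ)]; gcongr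

end Dt

open Dt in
theorem det : Det := by
  obtain ⟨C1, h1, H1⟩ := right
  obtain ⟨C2, h2, H2⟩ := left
  obtain ⟨Z0, hZ0⟩ := eventually_atTop.1 (((Real.tendsto_log_atTop.comp
    tendsto_natCast_atTop_atTop).eventually_ge_atTop 2008).and
    ((tendsto_natCast_atTop_atTop (R := ℝ)).eventually_ge_atTop (10 * (C1 + C2 + 608))))
  refine ⟨1 / 10000, by norm_num, Z0, fun Z hZ σ s1 s2 => ?_⟩
  obtain ⟨hL, hC⟩ := hZ0 Z hZ
  have hL' : 2008 ≤ Real.log Z := hL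
  have hZ' : (0 : ℝ) < Z := by linarith
  have hZ1 : 1 ≤ Z := by exact_mod_cast hZ'
  refine ⟨b1 Z, b2 Z, b3 Z σ, Dv_b1 Z, Dv_b2 Z, Dv_b3 hZ1 s1, fun β γ a1 a2 a3 a4 a5 => ?_⟩
  by_contra hc
  simp only [not_or, not_exists, not_and, not_le] at hc
  have c1 := H1 Z hZ1 (by linarith) (β + γ * I) (by simp; linarith) (by simpa using a3)
  have c2 := H2 Z hZ1 β γ (s1.trans a1) a2 a3 a4 a5
  have c3 := mid hZ1 hL' s1 a1 a2 a3 (by norm_num) fun u hu => (hc.2.2 u hu).le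
  have c4 : (C1 + C2 + 608) / Z ≤ 1 / 10 := by
    rw [div_le_iff₀ hZ']
    linarith
  have c5 : (C1 + C2 + 608) / Z = C1 / Z + C2 / Z + 608 * (1 / Z) := by ring
  linarith [hc.1, hc.2.1]

end Pool.Agent.Lib.MP_b09185_nt.Sh
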