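import Pool.Agent.Lib.MP_b09185_nt.MaiLandau
import Pool.Agent.Lib.MP_b09185_nt.MaiL

/-! The classical zero-free region with at most one exceptional character. -/

namespace Pool.Agent.Lib.MP_b09185_nt.Mai

open Complex Metric Set Finset Filter Topology ArithmeticFunction

noncomputable abbrev vm : ℕ → ℂ := fun n => (Λ n : ℂ)

noncomputable abbrev ch {N : ℕ} (χ : DirichletCharacter ℂ N) : ℕ → ℂ := fun n => χ n

lemma vm_bound : ∃ C : ℝ, ∀ x ∈ Set.Ioc (1 : ℝ) 2, (LSeries vm x).re ≤ 1 / (x - 1) + C := by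
  have ha : IsUnit (1 : ZMod 1) := isUnit_one
  have hc : ContinuousOn (fun x : ℝ ↦ (vonMangoldt.LFunctionResidueClassAux (1 : ZMod 1) x).re)
      (Set.Icc 1 2) :=
    continuous_re.continuousOn.comp (t := Set.univ)
      (vonMangoldt.continuousOn_LFunctionResidueClassAux (1 : ZMod 1))
      (fun ⦃x⦄ a ↦ trivial) |>.comp continuous_ofReal.continuousOn fun x hx ↦ by
        simpa only [Set.mem_ofPred_eq, ofReal_re] using hx.1
  obtain ⟨C, hC⟩ := bddAbove_def.mp <| IsCompact.bddAbove_image isCompact_Icc hc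
  refine ⟨C, fun x hx => ?_⟩
  have h1 := hC _ (Set.mem_image_of_mem _ (Set.mem_Icc_of_Ioc hx))
  have h2 := vonMangoldt.eqOn_LFunctionResidueClassAux ha (x := (x : ℂ)) (by simpa using hx.1)
  have h3 : LSeries (fun n => (vonMangoldt.residueClass (1 : ZMod 1) n : ℂ)) x = LSeries vm x := by
    refine LSeries_congr (fun {n} _ => ?_) _
    simp [vonMangoldt.residueClass, Subsingleton.elim ((n : ℕ) : ZMod 1) 1]
  simp only [h3, Nat.totient_one, Nat.cast_one, inv_one] at h2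
  rw [h2, sub_re] at h1
  have h4 : (1 / ((x : ℂ) - 1)).re = 1 / (x - 1) := by
    rw [← ofReal_one, ← ofReal_sub, ← ofReal_div, ofReal_re]
  linarith

section
variable {N : ℕ} [NeZero N]

omit [NeZero N] in
lemma term_twist (χ : DirichletCharacter ℂ N) (σ t : ℝ) (n : ℕ) :
    LSeries.term (ch χ * vm) (σ + t * I) n =
      ((Λ n / (n : ℝ) ^ σ : ℝ) : ℂ) * (χ n * exp ((-(t * Real.log n) : ℝ) * I)) := by
  rcases eq_or_ne n 0 with rfl | hn
  · simp
  · rw [LSeries.term_of_ne_zero hn, cpow_add _ _ (by exact_mod_cast hn), Pi.mul_apply]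
    have h1 : (n : ℂ) ^ (σ : ℂ) = (((n : ℝ) ^ σ : ℝ) : ℂ) := by
      rw [ofReal_cpow n.cast_nonneg]; simp
    have h2 : (n : ℂ) ^ ((t : ℂ) * I) = (exp ((-(t * Real.log n) : ℝ) * I))⁻¹ := by
      rw [cpow_def_of_ne_zero (by exact_mod_cast hn), ← exp_neg, ← natCast_log]
      congr 1
      push_cast
      ring
    rw [h1, h2]
    push_cast
    have := exp_ne_zero (-((t : ℂ) * (Real.log n : ℂ)) * I)
    field_simp

lemma term_vm (σ : ℝ) (n : ℕ) : LSeries.term vm σ n = ((Λ n / (n : ℝ) ^ σ : ℝ) : ℂ) := by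
  rcases eq_or_ne n 0 with rfl | hn
  · simp
  · rw [LSeries.term_of_ne_zero hn]
    push_cast
    rw [ofReal_cpow n.cast_nonneg]
    simp

lemma sq_ineq {z w : ℂ} (hz : ‖z‖ ≤ 1) (hw : ‖w‖ ≤ 1) :
    0 ≤ 3 + 2 * z.re + 2 * w.re + (z * star w).re := by
  have h1 : z.re ^ 2 + z.im ^ 2 ≤ 1 := by
    have := Complex.sq_norm z
    rw [normSq_apply] at this
    nlinarith [norm_nonneg z]
  have h2 : w.re ^ 2 + w.im ^ 2 ≤ 1 := by
    have := Complex.sq_norm w
    rw [normSq_apply] at this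
    nlinarith [norm_nonneg w]
  simp only [mul_re, star_def, conj_re, conj_im]
  nlinarith [sq_nonneg (2 + z.re + w.re), sq_nonneg (z.im + w.im)]

omit [NeZero N] in
lemma pos_comb (χ ψ : DirichletCharacter ℂ N) {σ : ℝ} (hσ : 1 < σ) (t u : ℝ) :
    0 ≤ 3 * (LSeries vm σ).re + 2 * (LSeries (ch χ * vm) (σ + t * I)).re +
      2 * (LSeries (ch ψ * vm) (σ + u * I)).re +
      (LSeries (ch (χ * ψ⁻¹) * vm) (σ + (t - u : ℝ) * I)).re := by
  have h0 := hasSum_re (LSeriesSummable_vonMangoldt (s := σ) (by simpa using hσ)).hasSum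
  have h1 := hasSum_re (χ.LSeriesSummable_twist_vonMangoldt (s := σ + t * I)
    (by simpa using hσ)).hasSum
  have h2 := hasSum_re (ψ.LSeriesSummable_twist_vonMangoldt (s := σ + u * I)
    (by simpa using hσ)).hasSum
  have h3 := hasSum_re ((χ * ψ⁻¹).LSeriesSummable_twist_vonMangoldt (s := σ + (t - u : ℝ) * I)
    (by simpa using hσ)).hasSum
  refine ((((h0.mul_left 3).add (h1.mul_left 2)).add (h2.mul_left 2)).add h3).nonneg fun n => ?_
  rw [term_vm, term_twist, term_twist, term_twist]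
  simp only [re_ofReal_mul, ofReal_re]
  have hc : 0 ≤ Λ n / (n : ℝ) ^ σ := div_nonneg vonMangoldt_nonneg (by positivity)
  have hn : ∀ (φ : DirichletCharacter ℂ N) (x : ℝ), ‖φ n * exp (x * I)‖ ≤ 1 := by
    intro φ x
    rw [norm_mul, norm_exp_ofReal_mul_I, mul_one]
    exact φ.norm_le_one _
  have h := sq_ineq (hn χ (-(t * Real.log n))) (hn ψ (-(u * Real.log n)))
  have e : χ n * exp ((-(t * Real.log n) : ℝ) * I) * star (ψ n * exp ((-(u * Real.log n) : ℝ) * I)) =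
      (χ * ψ⁻¹) n * exp ((-((t - u) * Real.log n) : ℝ) * I) := by
    rw [star_mul', MulChar.star_apply', MulChar.mul_apply, star_def, ← exp_conj, map_mul, conj_ofReal,
      conj_I, mul_mul_mul_comm, ← exp_add]
    congr 2
    push_cast
    ring
  rw [e] at h
  nlinarith [mul_nonneg hc h]

lemma twist_eq (χ : DirichletCharacter ℂ N) {s : ℂ} (hs : 1 < s.re) :
    LSeries (ch χ * vm) s = -(deriv χ.LFunction s / χ.LFunction s) := by
  rw [χ.LSeries_twist_vonMangoldt_eq hs, χ.deriv_LFunction_eq_deriv_LSeries hs,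
    χ.LFunction_eq_LSeries hs, neg_div]

lemma exp_big {l : ℝ} (hl : 20 ≤ l) : 100000 * l ≤ Real.exp l := by
  have h1 := Real.pow_div_factorial_le_exp l (by linarith) 10
  have h2 : (20 : ℝ) ^ 9 ≤ l ^ 9 := by gcongr
  norm_num [Nat.factorial] at h1 h2
  have : l ^ 10 = l ^ 9 * l := by ring
  nlinarith

lemma landau_hyp {χ : DirichletCharacter ℂ N} (hχ : χ ≠ 1) {l t : ℝ} (hl : 20 ≤ l)
    (hN : (N : ℝ) ≤ Real.exp l) (ht : |t| + 3 ≤ Real.exp l) :
    (∀ z ∈ ball (((1 + 1 / (2000 * l) : ℝ) : ℂ) + t * I) (1 / 2),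
      ‖χ.LFunction z‖ ≤ 5 * Real.exp l * Real.exp l) ∧
    (∀ z ∈ ball (((1 + 1 / (2000 * l) : ℝ) : ℂ) + t * I) (1 / 2), χ.LFunction z = 0 →
      z.re < (((1 + 1 / (2000 * l) : ℝ) : ℂ) + t * I).re) ∧
    5 * Real.exp l * Real.exp l ≤
      Real.exp (4 * l) * ‖χ.LFunction (((1 + 1 / (2000 * l) : ℝ) : ℂ) + t * I)‖ := by
  have h0 : 0 < 1 / (2000 * l) := by positivity
  have h1 : 1 / (2000 * l) ≤ 1 := by
    rw [div_le_one (by positivity)]; linarith
  set c : ℂ := ((1 + 1 / (2000 * l) : ℝ) : ℂ) + t * I with hc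
  have hre : c.re = 1 + 1 / (2000 * l) := by simp [hc, -ofReal_add, -ofReal_div]
  have him : c.im = t := by simp [hc, -ofReal_add, -ofReal_div]
  refine ⟨fun z hz => ?_, fun z _ hz => ?_, ?_⟩
  · rw [mem_ball, dist_eq_norm] at hz
    have h2 := abs_re_le_norm (z - c)
    rw [sub_re, hre] at h2
    have h3 := neg_abs_le (z.re - (1 + 1 / (2000 * l)))
    refine (L_crude hχ (by linarith)).trans ?_
    have h4 : ‖z‖ ≤ Real.exp l := by
      have h5 := norm_le_insert' z c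
      have h6 := norm_le_abs_re_add_abs_im c
      rw [hre, him, abs_of_pos (by linarith)] at h6
      linarith
    gcongr
  · by_contra h
    rw [hre] at h
    have h2 : 1 < z.re := by linarith
    rw [χ.LFunction_eq_LSeries h2] at hz
    exact χ.LSeries_ne_zero_of_one_lt_re h2 hz
  · have h2 := inv_L_le χ (s := c) (by linarith)
    rw [hre, add_sub_cancel_left, one_div_one_div] at h2
    have h3 := exp_big hl
    have h4 : 1 ≤ Real.exp l := Real.one_le_exp (by linarith)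
    have h5 : 5 * (1 + 2000 * l) ≤ Real.exp l * Real.exp l := by nlinarith
    have h6 : Real.exp (4 * l) = (Real.exp l * Real.exp l) * (Real.exp l * Real.exp l) := by
      simp only [← Real.exp_add]; congr 1; ring
    rw [h6]
    have h7 : 5 ≤ Real.exp l * Real.exp l * ‖χ.LFunction c‖ := by
      nlinarith [norm_nonneg (χ.LFunction c)]
    nlinarith [mul_pos (Real.exp_pos l) (Real.exp_pos l)]

lemma twist_le0 {χ : DirichletCharacter ℂ N} (hχ : χ ≠ 1) {l t : ℝ} (hl : 20 ≤ l)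
    (hN : (N : ℝ) ≤ Real.exp l) (ht : |t| + 3 ≤ Real.exp l) :
    (LSeries (ch χ * vm) (((1 + 1 / (2000 * l) : ℝ) : ℂ) + t * I)).re ≤ 128 * l := by
  obtain ⟨h1, h2, h3⟩ := landau_hyp hχ hl hN ht
  have h0 : 0 < 1 / (2000 * l) := by positivity
  rw [twist_eq χ (by simp [-ofReal_add, -ofReal_div]; positivity), neg_re]
  have := landau0 (by norm_num) (by linarith) (χ.differentiable_LFunction hχ).differentiableOn
    h1 h2 h3
  linarith

lemma twist_le1 {χ : DirichletCharacter ℂ N} (hχ : χ ≠ 1) {l : ℝ} (hl : 20 ≤ l)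
    (hN : (N : ℝ) ≤ Real.exp l) {ρ : ℂ} (ht : |ρ.im| + 3 ≤ Real.exp l)
    (hρ : 1 - 1 / (14000 * l) ≤ ρ.re) (hρ0 : χ.LFunction ρ = 0) :
    (LSeries (ch χ * vm) (((1 + 1 / (2000 * l) : ℝ) : ℂ) + ρ.im * I)).re ≤ 128 * l - 1750 * l := by
  obtain ⟨h1, h2, h3⟩ := landau_hyp hχ hl hN ht
  have h0 : 0 < 1 / (2000 * l) := by positivity
  have hρ1 : ρ.re ≤ 1 := by
    by_contra h
    push Not at h
    rw [χ.LFunction_eq_LSeries h] at hρ0
    exact χ.LSeries_ne_zero_of_one_lt_re h hρ0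
  rw [twist_eq χ (by simp [-ofReal_add, -ofReal_div]; positivity), neg_re]
  have e : ((1 + 1 / (2000 * l) : ℝ) : ℂ) + ρ.im * I - ρ = ((1 + 1 / (2000 * l) - ρ.re : ℝ) : ℂ) := by
    apply Complex.ext <;> simp [-ofReal_add, -ofReal_div, -ofReal_sub]
  have e2 : 1 / (2000 * l) + 1 / (14000 * l) = 1 / (1750 * l) := by field_simp; ring
  have e3 : 1 / (1750 * l) < 1 / 8 := by
    rw [div_lt_div_iff₀ (by positivity) (by norm_num)]; linarith
  have := landau1 (by norm_num) (by linarith) (χ.differentiable_LFunction hχ).differentiableOn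
    h1 h2 h3 (ρ := ρ) (by
      rw [mem_ball, dist_comm, dist_eq_norm, e, norm_real, Real.norm_of_nonneg (by linarith)]
      linarith) hρ0
  rw [e, ← ofReal_one, ← ofReal_div, ofReal_re] at this
  have h4 : 1750 * l ≤ 1 / (1 + 1 / (2000 * l) - ρ.re) := by
    rw [le_one_div (by positivity) (by linarith)]
    linarith
  linarith

/-- zero-free up to height `T` -/
def ZF (χ : DirichletCharacter ℂ N) (l T : ℝ) : Prop :=
  ∀ s : ℂ, 1 - 1 / (14000 * l) ≤ s.re → |s.im| ≤ T → χ.LFunction s ≠ 0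

end

lemma two_zero : ∃ l₀ : ℝ, 20 ≤ l₀ ∧ ∀ l ≥ l₀, ∀ T : ℝ, 2 * T + 3 ≤ Real.exp l →
    ∀ (N : ℕ) [NeZero N], (N : ℝ) ≤ Real.exp l → ∀ χ ψ : DirichletCharacter ℂ N,
      χ ≠ 1 → ψ ≠ 1 → ¬ ZF χ l T → ¬ ZF ψ l T → χ = ψ := by
  obtain ⟨C, hC⟩ := vm_bound
  refine ⟨max 20 C, le_max_left _ _, fun l hl T hT N _ hN χ ψ hχ hψ h1 h2 => ?_⟩
  have hl1 : 20 ≤ l := (le_max_left _ _).trans hl
  have hl2 : C ≤ l := (le_max_right _ _).trans hl
  by_contra hne
  have hφ : χ * ψ⁻¹ ≠ 1 := fun h => hne (mul_inv_eq_one.1 h)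
  simp only [ZF, not_forall, not_not] at h1 h2
  obtain ⟨ρ, a1, a2, a3⟩ := h1
  obtain ⟨τ, b1, b2, b3⟩ := h2
  have h0 : 0 < 1 / (2000 * l) := by positivity
  have h0' : 1 / (2000 * l) ≤ 1 := by
    rw [div_le_one (by positivity)]; linarith
  have hT0 : 0 ≤ T := (abs_nonneg _).trans a2
  have k0 := hC (1 + 1 / (2000 * l)) ⟨by linarith, by linarith⟩
  have k1 := twist_le1 hχ hl1 hN (by linarith) a1 a3
  have k2 := twist_le1 hψ hl1 hN (by linarith) b1 b3
  have k3 := twist_le0 hφ (t := ρ.im - τ.im) hl1 hN (by linarith [abs_sub ρ.im τ.im])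
  have k4 := pos_comb χ ψ (σ := 1 + 1 / (2000 * l)) (by linarith) ρ.im τ.im
  rw [add_sub_cancel_left, one_div_one_div] at k0
  linarith

section
variable {N : ℕ} [NeZero N]

/-- lower bound for the L-function inside the zero-free region -/
def Good (χ : DirichletCharacter ℂ N) (l T : ℝ) : Prop :=
  ∀ s : ℂ, 1 - 1 / (56000 * l) ≤ s.re → |s.im| ≤ T → 1 ≤ 10 ^ 20 * l ^ 5 * ‖χ.LFunction s‖

lemma good_of_ZF {χ : DirichletCharacter ℂ N} (hχ : χ ≠ 1) {l T : ℝ} (hl : 20 ≤ l)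
    (hN : (N : ℝ) ≤ Real.exp l) (hT : T + 3 ≤ Real.exp l) (h : ZF χ l (T + 1)) : Good χ l T := by
  intro s hs ht
  have hl0 : 0 < l := by linarith
  set η := 1 / (56000 * l) with hη
  have h0 : 0 < η := by positivity
  have h1 : η ≤ 1 / 100 := by
    rw [hη, div_le_div_iff₀ (by positivity) (by norm_num)]; linarith
  have hη4 : 1 / (14000 * l) = 4 * η := by rw [hη]; field_simp; norm_num
  have hηl : 4 * η ≤ 1 / l := by
    rw [← hη4]; gcongr; linarith
  have key : ∀ c : ℂ, 1 + 2 * η ≤ c.re → 1 ≤ 30000 * l * ‖χ.LFunction c‖ := by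
    intro c hc
    refine (inv_L_le χ (s := c) (by linarith)).trans ?_
    gcongr
    have : 1 / (c.re - 1) ≤ 1 / (2 * η) := by gcongr; linarith
    have e : 1 / (2 * η) = 28000 * l := by rw [hη]; field_simp; norm_num
    linarith
  have hl4 : 1 ≤ l ^ 4 := one_le_pow₀ (by linarith)
  rcases le_or_gt (1 + 2 * η) s.re with hs2 | hs2
  · refine (key s hs2).trans ?_
    gcongr ?_ * _
    nlinarith
  · set c : ℂ := ((1 + 2 * η : ℝ) : ℂ) + s.im * I with hc
    have hre : c.re = 1 + 2 * η := by simp [hc, -ofReal_add, -ofReal_mul]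
    have him : c.im = s.im := by simp [hc, -ofReal_add, -ofReal_mul]
    have hball : ∀ z ∈ ball c (6 * η), 1 - 4 * η ≤ z.re ∧ |z.im| ≤ T + 1 ∧ ‖z‖ ≤ Real.exp l := by
      intro z hz
      rw [mem_ball, dist_eq_norm] at hz
      have a1 := abs_re_le_norm (z - c)
      have a2 := abs_im_le_norm (z - c)
      rw [sub_re, hre] at a1
      rw [sub_im, him] at a2
      have a3 := neg_abs_le (z.re - (1 + 2 * η))
      have a4 := abs_sub_abs_le_abs_sub z.im s.im
      have a5 := norm_le_insert' z c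
      have a6 := norm_le_abs_re_add_abs_im c
      rw [hre, him, abs_of_pos (by linarith)] at a6
      exact ⟨by linarith, by linarith, by linarith⟩
    have hM : 1 < 30000000 * l ^ 2 := by nlinarith
    have k := key c hre.ge
    have h2 := inv_le (f := χ.LFunction) (c := c) (r := 6 * η) (B := 1000 * l)
      (M := Real.log (30000000 * l ^ 2)) (by positivity) (Real.log_pos hM)
      (χ.differentiable_LFunction hχ).differentiableOn
      (fun z hz => h z (by rw [hη4]; exact (hball z hz).1) (hball z hz).2.1)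
      (fun z hz => L_refined hχ (by linarith) hN (by linarith [(hball z hz).1]) (hball z hz).2.2)
      (by rw [Real.exp_log (by positivity)]; nlinarith) (z := s) (by
        have e : s - c = ((s.re - (1 + 2 * η) : ℝ) : ℂ) := by
          apply Complex.ext
          · rw [sub_re, hre, ofReal_re]
          · rw [sub_im, him, ofReal_im, sub_self]
        rw [mem_closedBall, dist_eq_norm, e, norm_real, Real.norm_eq_abs, abs_le]
        constructor <;> linarith)
    rw [two_mul, Real.exp_add, Real.exp_log (by positivity)] at h2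
    refine k.trans ?_
    calc 30000 * l * ‖χ.LFunction c‖
        ≤ 30000 * l * (30000000 * l ^ 2 * (30000000 * l ^ 2) * ‖χ.LFunction s‖) := by gcongr
      _ = 27 * 10 ^ 18 * l ^ 5 * ‖χ.LFunction s‖ := by ring
      _ ≤ _ := by gcongr; norm_num

lemma ZF_of_changeLevel {M : ℕ} [NeZero M] (h : M ∣ N) {ψ : DirichletCharacter ℂ M} (hψ : ψ ≠ 1)
    {l T : ℝ} (hz : ZF (DirichletCharacter.changeLevel h ψ) l T) : ZF ψ l T := by
  intro s h1 h2 h3
  apply hz s h1 h2
  rw [DirichletCharacter.LFunction_changeLevel h ψ (Or.inl hψ), h3, zero_mul]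

end

theorem good_modulus : ∃ l₀ : ℝ, 20 ≤ l₀ ∧ ∀ l ≥ l₀, ∀ T : ℝ, 0 ≤ T → 2 * T + 5 ≤ Real.exp l →
    ∀ P : ℕ, Squarefree P → (P : ℝ) ≤ Real.exp l →
      ∃ (Q : ℕ) (_ : NeZero Q), (Q = P ∨ ∃ p, p.Prime ∧ P = p * Q) ∧
        ∀ χ : DirichletCharacter ℂ Q, χ ≠ 1 → Good χ l T := by
  obtain ⟨l₀, h20, H⟩ := two_zero
  refine ⟨l₀, h20, fun l hl T hT0 hT P hP hPl => ?_⟩
  have : NeZero P := ⟨hP.ne_zero⟩
  have hl1 : 20 ≤ l := h20.trans hl
  by_cases h : ∃ χ : DirichletCharacter ℂ P, χ ≠ 1 ∧ ¬ ZF χ l (T + 1)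
  · obtain ⟨χ, hχ, hb⟩ := h
    have hc : χ.conductor ≠ 1 := fun h => hχ (χ.eq_one_iff_conductor_eq_one.2 h)
    obtain ⟨p, hp, hpc⟩ := Nat.exists_prime_and_dvd hc
    obtain ⟨Q, hQ⟩ := hpc.trans χ.conductor_dvd_level
    have hQ0 : Q ≠ 0 := by
      rintro rfl
      exact hP.ne_zero (by simpa using hQ)
    have : NeZero Q := ⟨hQ0⟩
    have hd : Q ∣ P := ⟨p, by rw [hQ, mul_comm]⟩
    have hQP : (Q : ℝ) ≤ P := by exact_mod_cast Nat.le_of_dvd (NeZero.pos P) hd
    refine ⟨Q, inferInstance, Or.inr ⟨p, hp, hQ⟩, fun ψ hψ => ?_⟩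
    refine good_of_ZF hψ hl1 (hQP.trans hPl) (by linarith) (ZF_of_changeLevel hd hψ ?_)
    by_contra hb'
    have h1 := H l hl (T + 1) (by linarith) P hPl χ _ hχ
      (fun h => hψ ((DirichletCharacter.changeLevel_eq_one_iff hd).1 h)) hb hb'
    have h2 : Q ∈ χ.conductorSet := by
      rw [h1]
      exact DirichletCharacter.changeLevel_factorsThrough ψ hd
    have h3 : p * p ∣ P := by
      rw [hQ]
      exact Nat.mul_dvd_mul_left p (hpc.trans (χ.conductor_dvd_of_mem_conductorSet h2))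
    exact hp.one_lt.ne' (Nat.isUnit_iff.1 (hP p h3))
  · push Not at h
    exact ⟨P, inferInstance, Or.inl rfl, fun χ hχ =>
      good_of_ZF hχ hl1 hPl (by linarith) (h χ hχ)⟩

end Pool.Agent.Lib.MP_b09185_nt.Mai
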