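import Pool.Agent.Lib.MP_b09185_nt.VinZeta
import Pool.Agent.Lib.MP_b09185_nt.MaiZero
import Pool.Agent.Lib.MP_b09185_nt.ShLoc
import Pool.Agent.Lib.SW.ZeroFree

/-! A zero free region of the Vinogradov type. -/

namespace Pool.Agent.Lib.MP_b09185_nt.Vin

open Complex Metric Filter ArithmeticFunction

lemma three_four {σ : ℝ} (hσ : 1 < σ) (t : ℝ) :
    0 ≤ 3 * (LSeries Mai.vm σ).re + 4 * (LSeries Mai.vm (σ + t * I)).re +
      (LSeries Mai.vm (σ + (2 * t : ℝ) * I)).re := by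
  have e : Mai.ch (1 : DirichletCharacter ℂ 1) * Mai.vm = Mai.vm := by
    funext n
    rw [Pi.mul_apply, Mai.ch, MulChar.one_apply (isUnit_of_subsingleton _), one_mul]
  have h := fun u : ℝ => hasSum_re (LSeriesSummable_vonMangoldt (s := σ + u * I)
    (by simpa using hσ)).hasSum
  have h0 := hasSum_re (LSeriesSummable_vonMangoldt (s := σ) (by simpa using hσ)).hasSum
  refine (((h0.mul_left 3).add ((h t).mul_left 4)).add (h (2 * t))).nonneg fun n => ?_
  have a := fun u : ℝ => Mai.term_twist (1 : DirichletCharacter ℂ 1) σ u n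
  simp only [e, MulChar.one_apply (isUnit_of_subsingleton (n : ZMod 1)), one_mul] at a
  rw [Mai.term_vm, a, a]
  simp only [re_ofReal_mul, ofReal_re, exp_ofReal_mul_I_re]
  have hc : 0 ≤ Λ n / (n : ℝ) ^ σ := div_nonneg vonMangoldt_nonneg (by positivity)
  rw [show -(2 * t * Real.log n) = 2 * -(t * Real.log n) by ring, Real.cos_two_mul]
  nlinarith [mul_nonneg hc (sq_nonneg (1 + Real.cos (-(t * Real.log n))))]

lemma land_hyp {m : ℕ} (hm : 5 ≤ m) (hM : 2 * (m : ℝ) ^ 225 ≤ Real.exp (m / 200)) {t : ℝ}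
    (h1 : 2 ≤ |t|) (h2 : |t| + 1 ≤ Real.exp ((m : ℝ) ^ 110)) :
    let c : ℂ := ((1 + 1 / (m : ℝ) ^ 109 : ℝ) : ℂ) + t * I
    DifferentiableOn ℂ riemannZeta (ball c (1 / (m : ℝ) ^ 108)) ∧
      (∀ z ∈ ball c (1 / (m : ℝ) ^ 108), ‖riemannZeta z‖ ≤ (m : ℝ) ^ 116) ∧
      (∀ z ∈ ball c (1 / (m : ℝ) ^ 108), riemannZeta z = 0 → z.re < c.re) ∧
      (m : ℝ) ^ 116 ≤ Real.exp (m / 200) * ‖riemannZeta c‖ ∧
      (LSeries Mai.vm c).re = -(deriv riemannZeta c / riemannZeta c).re := by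
  intro c
  have m5 : (5 : ℝ) ≤ m := by exact_mod_cast hm
  have p : ∀ n : ℕ, (2 : ℝ) ≤ (m : ℝ) ^ (n + 1) := fun n =>
    le_trans (by linarith) (le_self_pow₀ (by linarith) n.succ_ne_zero)
  have x0 : 0 < 1 / (m : ℝ) ^ 109 := by positivity
  have x1 : 1 / (m : ℝ) ^ 109 ≤ 1 / 2 := one_div_le_one_div_of_le (by norm_num) (p 108)
  have r1 : 1 / (m : ℝ) ^ 108 ≤ 1 / 2 := one_div_le_one_div_of_le (by norm_num) (p 107)
  have cr : c.re = 1 + 1 / (m : ℝ) ^ 109 := by simp [c, -ofReal_add, -ofReal_div, -one_div]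
  have ci : c.im = t := by simp [c, -ofReal_add, -ofReal_div, -one_div]
  have hb : ∀ z ∈ ball c (1 / (m : ℝ) ^ 108), |z.re - c.re| ≤ 1 / (m : ℝ) ^ 108 ∧
      |z.im - t| ≤ 1 / 2 := fun z hz => by
    rw [mem_ball, dist_eq_norm] at hz
    have a := abs_re_le_norm (z - c)
    have b := abs_im_le_norm (z - c)
    rw [sub_re] at a
    rw [sub_im, ci] at b
    exact ⟨by linarith, by linarith⟩
  have c1 : 1 < c.re := by linarith
  refine ⟨fun z hz => (differentiableAt_riemannZeta ?_).differentiableWithinAt, fun z hz => ?_,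
    fun z _ h => ?_, ?_, ?_⟩
  · rintro rfl
    have := (hb _ hz).2
    rw [one_im, zero_sub, abs_neg] at this
    linarith
  · obtain ⟨a, b⟩ := hb z hz
    rw [abs_le] at a
    have b1 := abs_sub_abs_le_abs_sub z.im t
    have b2 := abs_sub_abs_le_abs_sub t z.im
    rw [abs_sub_comm] at b2
    have := zeta_bound (l := m ^ 2) (s := z) (by nlinarith) (by push_cast; rw [← pow_mul]; linarith)
      (by linarith) (by linarith) (by push_cast; rw [← pow_mul]; linarith)
    push_cast at this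
    rwa [← pow_mul] at this
  · by_contra! hh
    exact riemannZeta_ne_zero_of_one_le_re (by linarith) h
  · have a := Sh.zeta_ge c1
    rw [cr, add_sub_cancel_left, one_div_one_div] at a
    calc (m : ℝ) ^ 116 ≤ (m : ℝ) ^ 116 * ((1 + (m : ℝ) ^ 109) * ‖riemannZeta c‖) :=
          le_mul_of_one_le_right (by positivity) a
      _ ≤ (m : ℝ) ^ 116 * ((2 * (m : ℝ) ^ 109) * ‖riemannZeta c‖) := by
          have : (2 : ℝ) ≤ (m : ℝ) ^ 109 := p 108
          gcongr _ * (?_ * _); linarith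
      _ = 2 * (m : ℝ) ^ 225 * ‖riemannZeta c‖ := by ring
      _ ≤ _ := by gcongr
  · rw [LSeries_vonMangoldt_eq_deriv_riemannZeta_div c1, neg_div, neg_re]

lemma zf_nat : ∀ᶠ m : ℕ in atTop, ∀ s : ℂ, riemannZeta s = 0 → 2 ≤ |s.im| →
    2 * |s.im| + 1 ≤ Real.exp ((m : ℝ) ^ 110) → s.re ≤ 1 - 1 / (10 * (m : ℝ) ^ 109) := by
  obtain ⟨C, hC⟩ := Mai.vm_bound
  have e1 : ∀ᶠ x : ℝ in atTop, 2 * x ^ 225 ≤ Real.exp (x / 200) := by
    have := (tendsto_exp_mul_div_rpow_atTop 225 (1 / 200) (by norm_num)).eventually_ge_atTop 2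
    filter_upwards [this, eventually_gt_atTop 0] with x h1 h2
    rw [le_div_iff₀ (by positivity), show (225 : ℝ) = (225 : ℕ) by norm_num, Real.rpow_natCast] at h1
    rwa [div_eq_inv_mul, ← one_div]
  filter_upwards [tendsto_natCast_atTop_atTop.eventually e1, eventually_ge_atTop 5,
    tendsto_natCast_atTop_atTop.eventually (eventually_ge_atTop (20 * C))] with m hM hm hmC s hs h1 h2
  by_contra! hh
  have m5 : (5 : ℝ) ≤ m := by exact_mod_cast hm
  have s1 : s.re < 1 := by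
    by_contra! h
    exact riemannZeta_ne_zero_of_one_le_re h hs
  obtain ⟨a1, a2, a3, a4, a5⟩ := land_hyp hm hM h1 (by linarith)
  obtain ⟨b1, b2, b3, b4, b5⟩ := land_hyp hm hM (t := 2 * s.im)
    (by rw [abs_mul, abs_two]; linarith) (by rw [abs_mul, abs_two]; linarith)
  set y : ℝ := (m : ℝ) ^ 108 with hy
  have y0 : 0 < y := by positivity
  have e : (m : ℝ) ^ 109 = y * m := pow_succ _ _
  have my : (m : ℝ) ≤ (m : ℝ) ^ 109 := le_self_pow₀ (by linarith) (by norm_num)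
  set w : ℝ := (m : ℝ) ^ 109 with hw
  have w0 : 0 < w := by linarith
  have d : ((1 + 1 / w : ℝ) : ℂ) + s.im * I - s = ((1 + 1 / w - s.re : ℝ) : ℂ) := by
    apply Complex.ext <;> simp
  have x0 : 0 < 1 / w := by positivity
  have d1 : 1 + 1 / w - s.re ≤ 11 / (10 * w) := by
    have : 11 / (10 * w) = 1 / w + 1 / (10 * w) := by field_simp; ring
    linarith
  have L1 := Mai.landau1 (by positivity) (by positivity) a1 a2 a3 a4 (ρ := s) (by
    rw [mem_ball, dist_comm, dist_eq_norm, d, norm_real, Real.norm_of_nonneg (by linarith)]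
    refine d1.trans_lt ?_
    rw [div_div, div_lt_div_iff₀ (by positivity) (by positivity), e]
    nlinarith) hs
  have L0 := Mai.landau0 (by positivity) (by positivity) b1 b2 b3 b4
  have T := three_four (σ := 1 + 1 / w) (by linarith) s.im
  have V := hC (1 + 1 / w) ⟨by linarith, by
    have := one_div_le_one_div_of_le one_pos (by linarith : 1 ≤ w); linarith⟩
  rw [a5, b5] at T
  rw [d, ← ofReal_one, ← ofReal_div, ofReal_re] at L1
  rw [add_sub_cancel_left, one_div_one_div] at V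
  have d2 : 10 * w / 11 ≤ 1 / (1 + 1 / w - s.re) := by
    rw [← one_div_div]
    exact one_div_le_one_div_of_le (by linarith) d1
  have d3 : 16 * ((m : ℝ) / 200) / (1 / y) = 2 * w / 25 := by rw [e]; field_simp; ring
  rw [d3] at L0 L1
  linarith

theorem zf : Sh.ZF := by
  obtain ⟨m0, hm0⟩ := eventually_atTop.1 zf_nat
  obtain ⟨c, c0, hc⟩ := SW.zero_free_zeta one_pos
  have e1 : ∀ᶠ L : ℝ in atTop, 10 * 4 ^ 109 ≤ L ^ (1 / 220 : ℝ) :=
    (tendsto_rpow_atTop (by norm_num)).eventually_ge_atTop _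
  have e2 : ∀ᶠ L : ℝ in atTop, (m0 : ℝ) ≤ L ^ (1 / 110 : ℝ) :=
    (tendsto_rpow_atTop (by norm_num)).eventually_ge_atTop _
  have e3 : ∀ᶠ L : ℝ in atTop, L ^ (-(219 / 220) : ℝ) ≤ c / 2 :=
    (tendsto_rpow_neg_atTop (by norm_num)).eventually_le_const (by positivity)
  obtain ⟨L0, hL0⟩ := eventually_atTop.1 (e1.and (e2.and (e3.and (eventually_ge_atTop 2))))
  refine ⟨219 / 220, L0, by norm_num, by norm_num, fun L hL s hs h => ?_⟩
  obtain ⟨a1, a2, a3, a4⟩ := hL0 L hL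
  have L0 : 0 < L := by linarith
  have s1 : s.re < 1 := by
    by_contra! h
    exact riemannZeta_ne_zero_of_one_le_re h hs
  rcases le_total |s.im| 2 with h2 | h2
  · by_contra! hh
    refine (hc 2 (c / 2) (by norm_num) (by positivity) (by simp) s
      (by rw [abs_le]; constructor <;> linarith) h2).1 ?_
    rw [Sh.zeta1_eq_mul (by rintro rfl; simp at s1), hs, mul_zero]
  · set r := L ^ (1 / 110 : ℝ) with hr
    have r1 : 1 ≤ r := Real.one_le_rpow (by linarith) (by norm_num)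
    have r2 : r ^ 110 = L := by
      rw [hr, ← Real.rpow_natCast, ← Real.rpow_mul L0.le]; norm_num
    have m1 : 2 * r ≤ ⌈2 * r⌉₊ := Nat.le_ceil _
    have m2 : (⌈2 * r⌉₊ : ℝ) ≤ 4 * r := by
      linarith [Nat.ceil_lt_add_one (by linarith : 0 ≤ 2 * r)]
    have H := hm0 ⌈2 * r⌉₊ (by exact_mod_cast (by linarith : (m0 : ℝ) ≤ ⌈2 * r⌉₊)) s hs h2 (by
      have b1 : L + 2 ≤ (⌈2 * r⌉₊ : ℝ) ^ 110 := by
        calc L + 2 ≤ 2 ^ 110 * r ^ 110 := by rw [r2]; linarith
          _ = (2 * r) ^ 110 := by ring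
          _ ≤ _ := by gcongr
      refine le_trans ?_ (Real.exp_le_exp.2 b1)
      rw [Real.exp_add]
      nlinarith [Real.add_one_le_exp 2, Real.add_one_le_exp L])
    refine H.trans ?_
    rw [Real.rpow_neg L0.le, ← one_div]
    gcongr
    calc 10 * (⌈2 * r⌉₊ : ℝ) ^ 109 ≤ 10 * (4 * r) ^ 109 := by gcongr
      _ = 10 * 4 ^ 109 * r ^ 109 := by ring
      _ ≤ L ^ (1 / 220 : ℝ) * r ^ 109 := by gcongr
      _ = _ := by
        rw [hr, ← Real.rpow_natCast, ← Real.rpow_mul L0.le, ← Real.rpow_add L0]; norm_num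

end Pool.Agent.Lib.MP_b09185_nt.Vin
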