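import Pool.Agent.Lib.MP_b09185_nt.VinExp
import Pool.Agent.Lib.MP_b09185_nt.MaiL
import Pool.Agent.Lib.SW.LBound

/-! The zeta function near the line of abscissa one. -/

namespace Pool.Agent.Lib.MP_b09185_nt.Vin

open Finset Complex

lemma abel (w : ℕ → ℝ) (a : ℕ → ℂ) {N M : ℕ} {B : ℝ} (h : N ≤ M)
    (hw : ∀ n, N ≤ n → w (n + 1) ≤ w n) (hB : ∀ m, N ≤ m → m ≤ M → ‖∑ n ∈ Ioc N m, a n‖ ≤ B) :
    ‖∑ n ∈ Ioc N M, w n * a n - w M * ∑ n ∈ Ioc N M, a n‖ ≤ B * (w N - w M) := by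
  induction M, h using Nat.le_induction with
  | base => simp
  | succ M h ih =>
    have h1 := ih fun m h1 h2 => hB m h1 (by omega)
    have h2 := hB M h (by omega)
    have h3 := hw M h
    rw [sum_Ioc_succ_top h, sum_Ioc_succ_top h]
    have e : ∑ n ∈ Ioc N M, w n * a n + w (M + 1) * a (M + 1) -
        w (M + 1) * (∑ n ∈ Ioc N M, a n + a (M + 1)) = (∑ n ∈ Ioc N M, w n * a n -
          w M * ∑ n ∈ Ioc N M, a n) + ((w M - w (M + 1) : ℝ) : ℂ) * ∑ n ∈ Ioc N M, a n := by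
      push_cast; ring
    rw [e]
    refine (norm_add_le _ _).trans ?_
    rw [norm_mul, norm_real, Real.norm_of_nonneg (by linarith)]
    nlinarith [mul_le_mul_of_nonneg_left h2 (sub_nonneg.2 h3)]

lemma block {l N : ℕ} (hl : 2 ≤ l) (hN : 1 ≤ N) {s : ℂ} (h0 : 1 - 1 / (l : ℝ) ^ 54 ≤ s.re)
    (h1 : (N : ℝ) ^ (3 / 4 : ℝ) ≤ |s.im|) (h2 : |s.im| ≤ Real.exp (l ^ 55)) :
    ‖∑ n ∈ Ioc N (2 * N), (n : ℂ) ^ (-s)‖ ≤ 3 := by
  have N1 : (1 : ℝ) ≤ N := by exact_mod_cast hN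
  have N0 : (0 : ℝ) < N := by linarith
  have l2 : (2 : ℝ) ≤ l := by exact_mod_cast hl
  have l1 : (1 : ℝ) ≤ (l : ℝ) ^ 54 := one_le_pow₀ (by linarith)
  have s0 : 0 ≤ s.re := le_trans (by rw [sub_nonneg, div_le_one (by linarith)]; exact l1) h0
  have hw : ∀ n m : ℕ, N ≤ n → n ≤ m → (m : ℝ) ^ (-s.re) ≤ (n : ℝ) ^ (-s.re) := fun n m h h' =>
    Real.rpow_le_rpow_of_nonpos (by exact_mod_cast (by omega)) (by exact_mod_cast h') (by linarith)
  rcases le_total (Real.log N) ((l : ℝ) ^ 54) with h | h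
  · refine (norm_sum_le_of_le _ (n := fun _ => (N : ℝ) ^ (-s.re)) fun n hn => ?_).trans ?_
    · rw [norm_natCast_cpow_of_pos (by have := (mem_Ioc.1 hn).1; omega), neg_re]
      exact hw N n le_rfl (mem_Ioc.1 hn).1.le
    · rw [sum_const, Nat.card_Ioc, nsmul_eq_mul, show 2 * N - N = N by omega, mul_comm,
        ← Real.rpow_add_one N0.ne', Real.rpow_def_of_pos N0]
      refine le_trans (Real.exp_le_exp.2 ?_) Real.exp_one_lt_three.le
      calc Real.log N * (-s.re + 1) ≤ Real.log N * (1 / (l : ℝ) ^ 54) := by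
            exact mul_le_mul_of_nonneg_left (by linarith) (Real.log_nonneg N1)
        _ ≤ 1 := by rw [mul_one_div, div_le_one (by linarith)]; exact h
  · have h3 : |s.im| ≤ (N : ℝ) ^ l := by
      refine h2.trans ?_
      rw [← Real.rpow_natCast (N : ℝ), Real.rpow_def_of_pos N0, pow_succ]
      gcongr
    have hB := fun m (a : N ≤ m) (b : m ≤ 2 * N) => expsum hl h a b h1 h3
    have A := abel (fun n => (n : ℝ) ^ (-s.re)) _ (by omega : N ≤ 2 * N)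
      (fun n hn => hw n (n + 1) hn (by omega)) hB
    have e : ∑ n ∈ Ioc N (2 * N), (n : ℂ) ^ (-s) = ∑ n ∈ Ioc N (2 * N),
        (((n : ℝ) ^ (-s.re) : ℝ) : ℂ) * (n : ℂ) ^ (-((s.im : ℂ) * I)) := by
      refine sum_congr rfl fun n hn => ?_
      have : (n : ℂ) ≠ 0 := by exact_mod_cast (by have := (mem_Ioc.1 hn).1; omega)
      rw [ofReal_cpow n.cast_nonneg, ofReal_natCast, ← cpow_add _ _ this, ofReal_neg, ← neg_add,
        re_add_im]
    have b := norm_le_norm_add_norm_sub' (∑ n ∈ Ioc N (2 * N),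
        (((n : ℝ) ^ (-s.re) : ℝ) : ℂ) * (n : ℂ) ^ (-((s.im : ℂ) * I)))
      (((((2 * N : ℕ) : ℝ) ^ (-s.re) : ℝ) : ℂ) * ∑ n ∈ Ioc N (2 * N), (n : ℂ) ^ (-((s.im : ℂ) * I)))
    rw [norm_mul, norm_real, Real.norm_of_nonneg (by positivity)] at b
    have c := mul_le_mul_of_nonneg_left (hB (2 * N) (by omega) le_rfl)
      (by positivity : 0 ≤ ((2 * N : ℕ) : ℝ) ^ (-s.re))
    have d : (N : ℝ) ^ (1 - 1 / (l : ℝ) ^ 54) * (N : ℝ) ^ (-s.re) ≤ 1 := by
      rw [← Real.rpow_add N0]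
      exact Real.rpow_le_one_of_one_le_of_nonpos N1 (by linarith)
    rw [e]
    linarith

lemma hz_sum (s : ℂ) (K : ℕ) : ∑ n ∈ range K, SW.hz n s =
    (s - 1) * ∑ n ∈ Ioc 0 K, (n : ℂ) ^ (-s) - 1 + ((K : ℂ) + 1) ^ (-(s - 1)) := by
  induction K with
  | zero => simp
  | succ K ih =>
    rw [sum_range_succ, sum_Ioc_succ_top K.zero_le, ih, SW.hz]
    push_cast
    rw [add_assoc (K : ℂ) 1 1, one_add_one_eq_two]
    ring

lemma zeta_approx {s : ℂ} (hs : 0 < s.re) (h1 : s ≠ 1) {K : ℕ} (hK : 0 < K) :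
    ‖riemannZeta s‖ ≤ ‖∑ n ∈ Ioc 0 K, (n : ℂ) ^ (-s)‖ + ((K : ℝ) + 1) ^ (1 - s.re) / ‖s - 1‖ +
      (‖s‖ + 1) * ((K : ℝ) ^ (-s.re) / s.re) := by
  have K0 : (0 : ℝ) < K := by exact_mod_cast hK
  have n0 : 0 < ‖s - 1‖ := norm_pos_iff.2 (sub_ne_zero.2 h1)
  have b : ∀ n : ℕ, ‖SW.hz (n + K) s‖ ≤ ‖s - 1‖ * ((‖s‖ + 1) * ((K : ℝ) + n + 1) ^ (-1 - s.re)) :=
    fun n => (SW.hz_b2 (n + K) hs.le).trans_eq (by push_cast; congr 3 <;> ring)
  have sm := ((Mai.summable_tail K0 hs).mul_left (‖s‖ + 1)).mul_left ‖s - 1‖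
  have s1 : Summable fun n => SW.hz n s :=
    (summable_nat_add_iff K).1 (Summable.of_norm_bounded sm b)
  have t := tsum_of_norm_bounded sm.hasSum b
  rw [tsum_mul_left, tsum_mul_left] at t
  have t2 : ‖∑' n, SW.hz (n + K) s‖ ≤ ‖s - 1‖ * ((‖s‖ + 1) * ((K : ℝ) ^ (-s.re) / s.re)) := by
    refine t.trans ?_
    gcongr
    exact Mai.tsum_tail_le K0 hs
  have e := SW.zeta1_eq hs
  rw [← s1.sum_add_tsum_nat_add K, hz_sum] at e
  have e2 : (s - 1) * riemannZeta s = (s - 1) * ∑ n ∈ Ioc 0 K, (n : ℂ) ^ (-s) +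
      ((K : ℂ) + 1) ^ (-(s - 1)) + ∑' n, SW.hz (n + K) s := by
    rw [riemannZeta_eq_inv_sub_mul h1, ← mul_assoc, mul_inv_cancel₀ (sub_ne_zero.2 h1), one_mul]
    linear_combination e
  have e3 : ‖((K : ℂ) + 1) ^ (-(s - 1))‖ = ((K : ℝ) + 1) ^ (1 - s.re) := by
    have := norm_natCast_cpow_of_pos (Nat.succ_pos K) (-(s - 1))
    simpa using this
  refine le_of_mul_le_mul_left ?_ n0
  rw [← norm_mul, e2, mul_add, mul_add, mul_div_cancel₀ _ n0.ne', ← norm_mul, ← e3]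
  exact (norm_add_le _ _).trans (add_le_add (norm_add_le _ _) t2)

lemma dyad (f : ℕ → ℂ) (h1 : ‖f 1‖ ≤ 1) (J : ℕ)
    (h : ∀ j < J, ‖∑ n ∈ Ioc (2 ^ j) (2 * 2 ^ j), f n‖ ≤ 3) :
    ‖∑ n ∈ Ioc 0 (2 ^ J), f n‖ ≤ 1 + 3 * J := by
  induction J with
  | zero => rw [pow_zero, show Ioc 0 1 = {1} from rfl]; simpa using h1
  | succ J ih =>
    rw [pow_succ', ← sum_Ioc_consecutive f (Nat.zero_le (2 ^ J)) (by omega)]
    refine (norm_add_le _ _).trans ?_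
    have a := ih fun j hj => h j (by omega)
    have b := h J (by omega)
    push_cast
    linarith

theorem zeta_bound {l : ℕ} (hl : 2 ≤ l) {s : ℂ} (h0 : 1 - 1 / (l : ℝ) ^ 54 ≤ s.re) (h0' : s.re ≤ 2)
    (h1 : 1 ≤ |s.im|) (h2 : |s.im| ≤ Real.exp (l ^ 55)) : ‖riemannZeta s‖ ≤ (l : ℝ) ^ 58 := by
  have l2 : (2 : ℝ) ≤ l := by exact_mod_cast hl
  have l4 : (4 : ℝ) ≤ (l : ℝ) ^ 54 := le_trans (by norm_num) (pow_le_pow_left₀ (by norm_num) l2 54)
  have s0 : 3 / 4 ≤ s.re := by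
    have := one_div_le_one_div_of_le (by norm_num) l4
    linarith
  set t := |s.im| with ht
  have t0 : 0 < t := by linarith
  have ex : ∃ J : ℕ, t < ((2 ^ J : ℕ) : ℝ) ^ (3 / 4 : ℝ) := by
    obtain ⟨J, hJ⟩ := pow_unbounded_of_one_lt (t ^ 2) (by norm_num : (1 : ℝ) < 2)
    refine ⟨J, lt_of_lt_of_le ((Real.lt_sqrt t0.le).2 hJ) ?_⟩
    rw [Real.sqrt_eq_rpow]
    push_cast
    exact Real.rpow_le_rpow_of_exponent_le (one_le_pow₀ (by norm_num)) (by norm_num)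
  have J1 := Nat.find_spec ex
  have J2 := fun j (hj : j < Nat.find ex) => not_lt.1 (Nat.find_min ex hj)
  obtain ⟨J, hJ⟩ : ∃ J, Nat.find ex = J + 1 := by
    refine Nat.exists_eq_succ_of_ne_zero fun h => ?_
    rw [h] at J1
    simp at J1
    linarith
  rw [hJ] at J1 J2
  have a1 := dyad (fun n => (n : ℂ) ^ (-s)) (by simp) (J + 1) fun j hj =>
    block hl Nat.one_le_two_pow h0 (J2 j hj) h2
  have J3 := J2 J (by omega)
  have a2 : (J : ℝ) ≤ 2 * (l : ℝ) ^ 55 := by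
    have b := J3.trans h2
    rw [Real.rpow_def_of_pos (by positivity), Real.exp_le_exp, Nat.cast_pow, Real.log_pow] at b
    have := Real.log_two_gt_d9
    push_cast at b
    nlinarith [Nat.cast_nonneg (α := ℝ) J]
  have hs1 : s ≠ 1 := by rintro rfl; simp at ht; linarith
  have a3 := zeta_approx (by linarith) hs1 (K := 2 ^ (J + 1)) (by positivity)
  set K : ℝ := ((2 ^ (J + 1) : ℕ) : ℝ) with hK
  have K1 : 1 ≤ K := by rw [hK]; exact_mod_cast Nat.one_le_two_pow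
  have a4 : (K + 1) ^ (1 - s.re) / ‖s - 1‖ ≤ 4 := by
    have b1 : t ≤ ‖s - 1‖ := by simpa using abs_im_le_norm (s - 1)
    rw [div_le_iff₀ (by linarith)]
    calc (K + 1) ^ (1 - s.re) ≤ (K + 1) ^ (3 / 4 : ℝ) :=
          Real.rpow_le_rpow_of_exponent_le (by linarith) (by linarith)
      _ ≤ (4 * ((2 ^ J : ℕ) : ℝ)) ^ (3 / 4 : ℝ) := by
          gcongr
          have : K = 2 * ((2 ^ J : ℕ) : ℝ) := by rw [hK]; push_cast; ring
          linarith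
      _ ≤ 4 * t := by
          rw [Real.mul_rpow (by norm_num) (by positivity)]
          gcongr
          exact Real.rpow_le_self_of_one_le (by norm_num) (by norm_num)
      _ ≤ _ := by gcongr
  have a5 : (‖s‖ + 1) * (K ^ (-s.re) / s.re) ≤ 6 := by
    have b1 : K ^ (-s.re) ≤ 1 / t := by
      refine (Real.rpow_le_rpow_of_exponent_le K1 (by linarith : -s.re ≤ -(3 / 4))).trans ?_
      rw [Real.rpow_neg (by linarith), one_div]
      gcongr
    have b2 := norm_le_abs_re_add_abs_im s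
    rw [abs_of_pos (by linarith : 0 < s.re)] at b2
    calc _ ≤ (4 * t) * ((1 / t) / (3 / 4)) := by gcongr; linarith
      _ ≤ _ := by field_simp; norm_num
  have a6 : (16 : ℝ) ≤ (l : ℝ) ^ 55 := le_trans (by norm_num) (pow_le_pow_left₀ (by norm_num) l2 55)
  have a7 : 8 * (l : ℝ) ^ 55 ≤ (l : ℝ) ^ 58 := by
    rw [show (l : ℝ) ^ 58 = l ^ 3 * l ^ 55 by ring]
    gcongr
    exact le_trans (by norm_num) (pow_le_pow_left₀ (by norm_num) l2 3)
  push_cast at a1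
  linarith

end Pool.Agent.Lib.MP_b09185_nt.Vin
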