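import Pool.Agent.Lib.MP_b09185_nt.ShDef
import Pool.Agent.Lib.SW.Div

/-! Counting large values of the zero detecting polynomials. -/

namespace Pool.Agent.Lib.MP_b09185_nt.Sh

open Finset Complex Filter

lemma ev_log (c : ℝ) {e : ℝ} (he : 0 < e) :
    ∀ᶠ Z : ℕ in atTop, c * Real.log Z ^ 2 ≤ (Z : ℝ) ^ e := by
  have h := (isLittleO_log_rpow_rpow_atTop (2 : ℝ) he).def (c := 1 / (|c| + 1)) (by positivity)
  have h2 := tendsto_natCast_atTop_atTop (R := ℝ) |>.eventually h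
  filter_upwards [h2] with Z hZ
  rw [Real.norm_eq_abs, Real.norm_eq_abs, Real.rpow_two, abs_of_nonneg (sq_nonneg _),
    abs_of_nonneg (by positivity : (0 : ℝ) ≤ (Z : ℝ) ^ e), one_div, inv_mul_eq_div,
    le_div_iff₀ (by positivity)] at hZ
  have : c ≤ |c| + 1 := by linarith [le_abs_self c]
  nlinarith [sq_nonneg (Real.log Z)]

lemma cls_far (hC : ThmC) {A δ : ℝ} (hA : 9 / 4 < A) (hδ : 0 < δ) :
    ∃ C : ℝ, 0 ≤ C ∧ ∀ᶠ Z : ℕ in atTop, ∀ N : ℕ, Z ≤ N → N ≤ Z ^ 560 → ∀ b : ℕ → ℂ, Dv b →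
      ∀ σ : ℝ, 1 / 2 ≤ σ → σ ≤ 1 - δ → ∀ S : Finset ℝ, Sep S →
      (∀ t ∈ S, |t| ≤ 2 * (Z : ℝ) ^ 1000 ∧ (N : ℝ) ^ σ / Real.log Z ^ 2 ≤ ‖BP N b t‖) →
      (#S : ℝ) ≤ C * ((Z : ℝ) ^ 1000) ^ (A * (1 - σ)) := by
  set e : ℝ := (A - 9 / 4) * δ / 6 with he_def
  have he : 0 < e := by have : 0 < A - 9 / 4 := by linarith
                        positivity
  obtain ⟨C0, hC0⟩ := hC e 1001 he
  obtain ⟨Cd, hCd1, hCd⟩ := SW.divisor_bound he
  refine ⟨|C0| * 4 ^ A, by positivity, ?_⟩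
  filter_upwards [ev_log (2 * Cd) he, eventually_ge_atTop 3] with Z hZe hZ3
  intro N hZN hNZ b hb σ hσ1 hσ2 S hS hV
  have hZ1 : (1 : ℝ) ≤ Z := by exact_mod_cast (by omega : 1 ≤ Z)
  have hZ3' : (3 : ℝ) ≤ Z := by exact_mod_cast hZ3
  have hN1 : (1 : ℝ) ≤ N := by exact_mod_cast (by omega : 1 ≤ N)
  have hZN' : (Z : ℝ) ≤ N := by exact_mod_cast hZN
  have hNZ' : (N : ℝ) ≤ (Z : ℝ) ^ 560 := by exact_mod_cast hNZ
  have hlog : 0 < Real.log Z := Real.log_pos (by linarith)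
  obtain ⟨W, hW⟩ : ∃ W : ℝ, W = (Z : ℝ) ^ 1000 := ⟨_, rfl⟩
  have hW1 : 1 ≤ W := by rw [hW]; exact one_le_pow₀ hZ1
  set D : ℝ := Cd * ((2 * N : ℕ) : ℝ) ^ e with hD
  have h2N : (0 : ℝ) < ((2 * N : ℕ) : ℝ) := by push_cast; linarith
  have hD0 : 0 < D := by positivity
  let a : ℕ → ℂ := fun n => if n ∈ Ioc N (2 * N) then
    b n * (n : ℂ) ^ (((2 * W : ℝ) : ℂ) * I) / (D : ℂ) else 0
  have ha : ∀ n, ‖a n‖ ≤ 1 := by
    intro n
    simp only [a]
    split_ifs with hn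
    · have hn' := mem_Ioc.mp hn
      have hn0 : 0 < n := by omega
      rw [norm_div, norm_mul, Complex.norm_natCast_cpow_of_pos hn0, Complex.norm_real,
        Real.norm_eq_abs, abs_of_pos hD0, div_le_one hD0]
      have : (((2 * W : ℝ) : ℂ) * I).re = 0 := by simp
      rw [this, Real.rpow_zero, mul_one]
      refine (hb n).trans ((hCd n).trans ?_)
      refine mul_le_mul_of_nonneg_left ?_ (by linarith)
      exact Real.rpow_le_rpow (by positivity) (by exact_mod_cast hn'.2) he.le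
    · simp
  have hsum : ∀ t : ℝ, ∑ n ∈ Icc 1 (2 * N), a n * (n : ℂ) ^ (-(((t + 2 * W : ℝ) : ℂ) * I)) =
      BP N b t / (D : ℂ) := by
    intro t
    have hsub : Ioc N (2 * N) ⊆ Icc 1 (2 * N) := by
      intro n hn
      have := mem_Ioc.mp hn
      exact mem_Icc.mpr ⟨by omega, this.2⟩
    rw [← sum_subset hsub (fun n _ hn => by simp only [a, if_neg hn, zero_mul]), BP, sum_div]
    refine sum_congr rfl fun n hn => ?_
    have hn' := mem_Ioc.mp hn
    have hn0 : (n : ℂ) ≠ 0 := by exact_mod_cast (by omega : n ≠ 0)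
    simp only [a, if_pos hn]
    have : (n : ℂ) ^ (-((t : ℂ) * I)) = (n : ℂ) ^ (((2 * W : ℝ) : ℂ) * I) *
        (n : ℂ) ^ (-(((t + 2 * W : ℝ) : ℂ) * I)) := by
      rw [← Complex.cpow_add _ _ hn0]; congr 1; push_cast; ring
    rw [this]; ring
  have key := hC0 (2 * N) a (4 * W) (σ - 2 * e) (S.map (Equiv.addRight (2 * W)).toEmbedding)
    (by omega) ha ?_ ?_ ?_ ?_ ?_
  · rw [card_map] at key
    refine key.trans ?_
    have hx : 9 / 4 * (1 - (σ - 2 * e)) + e ≤ A * (1 - σ) := by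
      have : (A - 9 / 4) * δ ≤ (A - 9 / 4) * (1 - σ) :=
        mul_le_mul_of_nonneg_left (by linarith) (by linarith)
      nlinarith
    have h1 : (4 * W) ^ (9 / 4 * (1 - (σ - 2 * e)) + e) ≤ (4 * W) ^ (A * (1 - σ)) :=
      Real.rpow_le_rpow_of_exponent_le (by linarith) hx
    have h2 : (4 * W) ^ (A * (1 - σ)) ≤ 4 ^ A * W ^ (A * (1 - σ)) := by
      rw [Real.mul_rpow (by norm_num) (by linarith)]
      refine mul_le_mul_of_nonneg_right ?_ (by positivity)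
      exact Real.rpow_le_rpow_of_exponent_le (by norm_num) (by nlinarith)
    rw [← hW, mul_assoc]
    calc C0 * (4 * W) ^ (9 / 4 * (1 - (σ - 2 * e)) + e)
        ≤ |C0| * (4 * W) ^ (9 / 4 * (1 - (σ - 2 * e)) + e) :=
          mul_le_mul_of_nonneg_right (le_abs_self _) (by positivity)
      _ ≤ |C0| * (4 ^ A * W ^ (A * (1 - σ))) :=
          mul_le_mul_of_nonneg_left (h1.trans h2) (abs_nonneg _)
  · push_cast
    rw [Real.mul_rpow (by norm_num) (by linarith)]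
    have h1 : (2 : ℝ) ^ (16 / 9 : ℝ) ≤ 4 := by
      calc (2 : ℝ) ^ (16 / 9 : ℝ) ≤ 2 ^ (2 : ℝ) :=
            Real.rpow_le_rpow_of_exponent_le (by norm_num) (by norm_num)
        _ = 4 := by norm_num
    have h2 : (N : ℝ) ^ (16 / 9 : ℝ) ≤ W := by
      calc (N : ℝ) ^ (16 / 9 : ℝ) ≤ ((Z : ℝ) ^ 560) ^ (16 / 9 : ℝ) :=
            Real.rpow_le_rpow (by linarith) hNZ' (by norm_num)
        _ = (Z : ℝ) ^ ((560 : ℕ) * (16 / 9 : ℝ)) := by
            rw [Real.rpow_mul (by linarith), Real.rpow_natCast]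
        _ ≤ (Z : ℝ) ^ ((1000 : ℕ) : ℝ) := Real.rpow_le_rpow_of_exponent_le hZ1 (by norm_num)
        _ = W := by rw [Real.rpow_natCast, hW]
    exact mul_le_mul h1 h2 (by positivity) (by norm_num)
  · have h1 : (((2 * N : ℕ) : ℝ)) ^ (1001 : ℝ) = ((2 * N : ℕ) : ℝ) ^ 1000 * ((2 * N : ℕ) : ℝ) := by
      rw [show (1001 : ℝ) = ((1001 : ℕ) : ℝ) by norm_num, Real.rpow_natCast, pow_succ]
    rw [h1, mul_comm]
    refine mul_le_mul ?_ (by push_cast; linarith) (by norm_num) (by positivity)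
    rw [hW]
    exact pow_le_pow_left₀ (by linarith) (by push_cast; linarith) _
  · intro t ht
    obtain ⟨u, hu, rfl⟩ := mem_map.mp ht
    have := abs_le.mp (hV u hu).1
    rw [← hW] at this
    simp only [Equiv.coe_toEmbedding, Equiv.coe_addRight]
    constructor <;> linarith [this.1, this.2]
  · intro t ht t' ht' hne
    obtain ⟨u, hu, rfl⟩ := mem_map.mp ht
    obtain ⟨u', hu', rfl⟩ := mem_map.mp ht'
    have := hS u hu u' hu' (fun h => hne (by rw [h]))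
    simpa using this
  · intro t ht
    obtain ⟨u, hu, rfl⟩ := mem_map.mp ht
    simp only [Equiv.coe_toEmbedding, Equiv.coe_addRight]
    rw [hsum, norm_div, Complex.norm_real, Real.norm_eq_abs, abs_of_pos hD0, le_div_iff₀ hD0]
    refine le_trans ?_ (hV u hu).2
    rw [le_div_iff₀ (by positivity)]
    set M : ℝ := ((2 * N : ℕ) : ℝ) with hM
    have hMσ : M ^ σ ≤ 2 * (N : ℝ) ^ σ := by
      rw [hM]; push_cast
      rw [Real.mul_rpow (by norm_num) (by linarith)]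
      refine mul_le_mul_of_nonneg_right ?_ (by positivity)
      calc (2 : ℝ) ^ σ ≤ 2 ^ (1 : ℝ) := Real.rpow_le_rpow_of_exponent_le (by norm_num) (by linarith)
        _ = 2 := by norm_num
    have hMe : 2 * Cd * Real.log Z ^ 2 ≤ M ^ e :=
      hZe.trans (Real.rpow_le_rpow (by linarith) (by rw [hM]; push_cast; linarith) he.le)
    have hsplit : M ^ (σ - 2 * e) * M ^ e * M ^ e = M ^ σ := by
      rw [← Real.rpow_add h2N, ← Real.rpow_add h2N]; congr 1; ring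
    have hp : 0 ≤ M ^ (σ - 2 * e) * M ^ e := by positivity
    have := mul_le_mul_of_nonneg_left hMe hp
    rw [hD]
    nlinarith

lemma cls_blk (hC : ThmC) (hN : Near) {A : ℝ} (hA : 9 / 4 < A) :
    ∃ B C : ℝ, 0 ≤ C ∧ ∀ᶠ Z : ℕ in atTop, ∀ N : ℕ, Z ≤ N → N ≤ Z ^ 560 → ∀ b : ℕ → ℂ, Dv b →
      ∀ σ : ℝ, 1 / 2 ≤ σ → σ ≤ 1 → ∀ S : Finset ℝ, Sep S →
      (∀ t ∈ S, |t| ≤ 2 * (Z : ℝ) ^ 1000 ∧ (N : ℝ) ^ σ / Real.log Z ^ 2 ≤ ‖BP N b t‖) →
      (#S : ℝ) ≤ C * ((Z : ℝ) ^ 1000) ^ (A * (1 - σ)) * Real.log Z ^ B := by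
  obtain ⟨δ, hδ, B, C1, Z1, h1⟩ := hN
  obtain ⟨C2, hC2, h2⟩ := cls_far hC hA hδ
  refine ⟨|B|, |C1| + C2, by positivity, ?_⟩
  filter_upwards [h2, eventually_ge_atTop Z1, eventually_ge_atTop 3] with Z h2 hZ1 hZ3
  intro N hZN hNZ b hb σ hσ1 hσ2 S hS hV
  have hZ3' : (3 : ℝ) ≤ Z := by exact_mod_cast hZ3
  have hlog : 1 ≤ Real.log Z := by
    rw [Real.le_log_iff_exp_le (by linarith)]
    linarith [Real.exp_one_lt_three]
  have hlB : 1 ≤ Real.log Z ^ |B| := Real.one_le_rpow hlog (abs_nonneg _)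
  have hP : 0 ≤ ((Z : ℝ) ^ 1000) ^ (A * (1 - σ)) := by positivity
  rcases le_total σ (1 - δ) with hs | hs
  · have := h2 N hZN hNZ b hb σ hσ1 hs S hS hV
    calc (#S : ℝ) ≤ C2 * ((Z : ℝ) ^ 1000) ^ (A * (1 - σ)) * 1 := by rwa [mul_one]
      _ ≤ _ := mul_le_mul (mul_le_mul_of_nonneg_right (by linarith [abs_nonneg C1]) hP) hlB
          zero_le_one (by positivity)
  · have := h1 Z hZ1 N hZN hNZ b hb σ hs hσ2 S hS hV
    have hNZ' : (N : ℝ) ≤ (Z : ℝ) ^ 560 := by exact_mod_cast hNZ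
    have h3 : (N : ℝ) ^ (2 * (1 - σ)) ≤ ((Z : ℝ) ^ 1000) ^ (A * (1 - σ)) := by
      calc (N : ℝ) ^ (2 * (1 - σ)) ≤ ((Z : ℝ) ^ 1000) ^ (2 * (1 - σ)) :=
            Real.rpow_le_rpow (by positivity)
              (hNZ'.trans (pow_le_pow_right₀ (by linarith) (by norm_num))) (by linarith)
        _ ≤ _ := Real.rpow_le_rpow_of_exponent_le (one_le_pow₀ (by linarith)) (by nlinarith)
    have h4 : Real.log Z ^ B ≤ Real.log Z ^ |B| :=
      Real.rpow_le_rpow_of_exponent_le hlog (le_abs_self _)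
    calc (#S : ℝ) ≤ C1 * (N : ℝ) ^ (2 * (1 - σ)) * Real.log Z ^ B := this
      _ ≤ |C1| * (N : ℝ) ^ (2 * (1 - σ)) * Real.log Z ^ B := by
          gcongr
          exact le_abs_self _
      _ ≤ _ := mul_le_mul (mul_le_mul (by linarith) h3 (by positivity) (by positivity)) h4
          (by positivity) (by positivity)

/-- The Taylor coefficients of a block. -/
noncomputable def bT (Z N i : ℕ) (b : ℕ → ℂ) (n : ℕ) : ℂ :=
  if n ∈ Ioc N (2 * N) ∧ n ≤ Z ^ 560 then b n * ((Real.log (n / N) ^ i : ℝ) : ℂ) else 0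

lemma log_blk {N n : ℕ} (hN : 1 ≤ N) (hn : n ∈ Ioc N (2 * N)) :
    0 ≤ Real.log ((n : ℝ) / N) ∧ Real.log ((n : ℝ) / N) ≤ 1 := by
  have hn' := mem_Ioc.mp hn
  have hN0 : (0 : ℝ) < N := by exact_mod_cast hN
  have h1 : (N : ℝ) ≤ n := by exact_mod_cast hn'.1.le
  have h2 : (n : ℝ) ≤ 2 * N := by exact_mod_cast hn'.2
  refine ⟨Real.log_nonneg ((one_le_div hN0).mpr h1), ?_⟩
  have := Real.log_le_sub_one_of_pos (x := (n : ℝ) / N) (div_pos (by linarith) hN0)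
  have h3 : (n : ℝ) / N ≤ 2 := (div_le_iff₀ hN0).mpr h2
  linarith

lemma bT_dv {Z N i : ℕ} (hN : 1 ≤ N) {b : ℕ → ℂ} (hb : Dv b) : Dv (bT Z N i b) := by
  intro n
  unfold bT
  split_ifs with h
  · obtain ⟨h0, h1⟩ := log_blk hN h.1
    rw [norm_mul, Complex.norm_real, Real.norm_eq_abs, abs_of_nonneg (pow_nonneg h0 _)]
    calc ‖b n‖ * Real.log ((n : ℝ) / N) ^ i ≤ (#n.divisors : ℝ) * 1 :=
          mul_le_mul (hb n) (pow_le_one₀ h0 h1) (pow_nonneg h0 _) (by positivity)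
      _ = _ := mul_one _
  · simp

lemma exp_tail {x : ℝ} (hx : |x| ≤ 1) {J : ℕ} (hJ : 1 ≤ J) :
    |Real.exp x - ∑ i ∈ range J, x ^ i / (i.factorial : ℝ)| ≤ 4 / 2 ^ J := by
  refine (Real.exp_bound hx hJ).trans ?_
  have hJ' : (1 : ℝ) ≤ J := by exact_mod_cast hJ
  have hf : (2 : ℝ) ^ J ≤ 2 * J.factorial := by
    have : ∀ k : ℕ, 2 ^ (k + 1) ≤ 2 * (k + 1).factorial := by
      intro k
      induction k with
      | zero => simp
      | succ k ih => rw [Nat.factorial_succ (k + 1), pow_succ]; nlinarith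
    obtain ⟨k, rfl⟩ : ∃ k, J = k + 1 := ⟨J - 1, by omega⟩
    exact_mod_cast this k
  have hf0 : (0 : ℝ) < J.factorial := by exact_mod_cast J.factorial_pos
  have h1 : |x| ^ J ≤ 1 := pow_le_one₀ (abs_nonneg _) hx
  have h2 : ((J.succ : ℕ) : ℝ) / (J.factorial * J) ≤ 4 / 2 ^ J := by
    rw [div_le_div_iff₀ (by positivity) (by positivity)]
    push_cast
    nlinarith [mul_le_mul_of_nonneg_left hf (by linarith : (0 : ℝ) ≤ J + 1),
      mul_nonneg hf0.le (by linarith : (0 : ℝ) ≤ J - 1)]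
  calc |x| ^ J * (((J.succ : ℕ) : ℝ) / (J.factorial * J)) ≤ 1 * (4 / 2 ^ J) :=
        mul_le_mul h1 h2 (by positivity) zero_le_one
    _ = _ := one_mul _

/-- A block at `β + it` is controlled by its Taylor pieces on the line `it`. -/
lemma blk_taylor {Z N J : ℕ} (hN : 1 ≤ N) (hJ : 1 ≤ J) {b : ℕ → ℂ} (hb : Dv b) {β t V : ℝ}
    (h0 : 0 ≤ β) (h1 : β ≤ 1) (hV0 : 0 ≤ V) (hV : ∀ i ∈ range J, ‖BP N (bT Z N i b) t‖ ≤ V) :
    ‖∑ n ∈ Ioc N (2 * N), (if n ≤ Z ^ 560 then b n else 0) * (n : ℂ) ^ (-((β : ℂ) + t * I))‖ ≤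
      (N : ℝ) ^ (-β) * (3 * V + 8 * (N : ℝ) ^ 2 / 2 ^ J) := by
  have hN0 : (0 : ℝ) < N := by exact_mod_cast hN
  set r : ℕ → ℝ := fun n => Real.exp (-(β * Real.log (n / N))) -
    ∑ i ∈ range J, (-(β * Real.log (n / N))) ^ i / (i.factorial : ℝ) with hr
  have hid : ∑ n ∈ Ioc N (2 * N), (if n ≤ Z ^ 560 then b n else 0) *
      (n : ℂ) ^ (-((β : ℂ) + t * I)) = (((N : ℝ) ^ (-β) : ℝ) : ℂ) *
      (∑ i ∈ range J, (((-β) ^ i / (i.factorial : ℝ) : ℝ) : ℂ) * BP N (bT Z N i b) t +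
        ∑ n ∈ Ioc N (2 * N), (if n ≤ Z ^ 560 then b n else 0) * (r n : ℂ) *
          (n : ℂ) ^ (-((t : ℂ) * I))) := by
    simp only [BP, mul_sum]
    rw [sum_comm, ← sum_add_distrib, mul_sum]
    refine sum_congr rfl fun n hn => ?_
    have hn' := mem_Ioc.mp hn
    have hn0 : (0 : ℝ) < n := by exact_mod_cast (by omega : 0 < n)
    have hnC : (n : ℂ) ≠ 0 := by exact_mod_cast (by omega : n ≠ 0)
    have e1 : (n : ℂ) ^ (-((β : ℂ) + t * I)) =
        ((((N : ℝ) ^ (-β) * Real.exp (-(β * Real.log (n / N))) : ℝ)) : ℂ) *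
          (n : ℂ) ^ (-((t : ℂ) * I)) := by
      have : (N : ℝ) ^ (-β) * Real.exp (-(β * Real.log (n / N))) = (n : ℝ) ^ (-β) := by
        rw [Real.rpow_def_of_pos hN0, Real.rpow_def_of_pos hn0, ← Real.exp_add,
          Real.log_div hn0.ne' hN0.ne']
        congr 1; ring
      rw [this, neg_add, Complex.cpow_add _ _ hnC, Complex.ofReal_cpow hn0.le]
      push_cast; rfl
    have e2 : Real.exp (-(β * Real.log (n / N))) =
        ∑ i ∈ range J, (-β) ^ i / (i.factorial : ℝ) * Real.log (n / N) ^ i + r n := by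
      simp only [hr]
      rw [add_sub, eq_sub_iff_add_eq, add_comm]
      congr 1
      refine sum_congr rfl fun i _ => ?_
      rw [← neg_mul, mul_pow]; ring
    rw [e1, e2]
    by_cases hz : n ≤ Z ^ 560
    · simp only [bT, if_pos hz, if_pos (And.intro hn hz)]
      push_cast
      rw [mul_add, add_mul, mul_add, mul_add]
      congr 1
      · simp only [mul_sum, sum_mul]
        refine sum_congr rfl fun i _ => ?_
        ring
      · ring
    · simp [bT, hz]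
  rw [hid, norm_mul, Complex.norm_real, Real.norm_eq_abs, abs_of_nonneg (by positivity)]
  refine mul_le_mul_of_nonneg_left ((norm_add_le _ _).trans (add_le_add ?_ ?_)) (by positivity)
  · refine (norm_sum_le _ _).trans ?_
    calc ∑ i ∈ range J, ‖(((-β) ^ i / (i.factorial : ℝ) : ℝ) : ℂ) * BP N (bT Z N i b) t‖
        ≤ ∑ i ∈ range J, β ^ i / (i.factorial : ℝ) * V := by
          refine sum_le_sum fun i hi => ?_
          rw [norm_mul, Complex.norm_real, Real.norm_eq_abs, abs_div, abs_pow, abs_neg,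
            abs_of_nonneg h0, Nat.abs_cast]
          exact mul_le_mul_of_nonneg_left (hV i hi) (by positivity)
      _ ≤ 3 * V := by
          rw [← sum_mul]
          refine mul_le_mul_of_nonneg_right ?_ hV0
          refine (Real.sum_le_exp_of_nonneg h0 J).trans ?_
          exact (Real.exp_le_exp.mpr h1).trans Real.exp_one_lt_three.le
  · refine (norm_sum_le _ _).trans ?_
    calc ∑ n ∈ Ioc N (2 * N), ‖(if n ≤ Z ^ 560 then b n else 0) * (r n : ℂ) *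
          (n : ℂ) ^ (-((t : ℂ) * I))‖
        ≤ ∑ _n ∈ Ioc N (2 * N), 2 * (N : ℝ) * (4 / 2 ^ J) := by
          refine sum_le_sum fun n hn => ?_
          have hn' := mem_Ioc.mp hn
          obtain ⟨l0, l1⟩ := log_blk hN hn
          rw [norm_mul, norm_mul, Complex.norm_natCast_cpow_of_pos (by omega : 0 < n)]
          have : (-((t : ℂ) * I)).re = 0 := by simp
          rw [this, Real.rpow_zero, mul_one, Complex.norm_real, Real.norm_eq_abs]
          refine mul_le_mul ?_ (exp_tail ?_ hJ) (abs_nonneg _) (by positivity)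
          · split_ifs
            · refine (hb n).trans ?_
              have := Nat.card_divisors_le_self n
              exact_mod_cast this.trans hn'.2
            · simp
          · rw [abs_neg, abs_of_nonneg (mul_nonneg h0 l0)]
            exact mul_le_one₀ h1 l0 l1
      _ = 8 * (N : ℝ) ^ 2 / 2 ^ J := by
          rw [sum_const, Nat.card_Ioc, nsmul_eq_mul, show 2 * N - N = N by omega]; ring

lemma sum_blocks (f : ℕ → ℂ) (Z J : ℕ) :
    ∑ n ∈ Ioc Z (Z * 2 ^ J), f n = ∑ j ∈ range J, ∑ n ∈ Ioc (Z * 2 ^ j) (2 * (Z * 2 ^ j)), f n := by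
  induction J with
  | zero => simp
  | succ J ih =>
    rw [sum_range_succ, ← ih, sum_Ioc_consecutive _ (Nat.le_mul_of_pos_right _ (by positivity))
      (by omega)]
    congr 2; ring

theorem cls_of (hC : ThmC) (hN : Near) : Cls := by
  intro A η hA hη
  obtain ⟨B, C, hC0, hblk⟩ := cls_blk hC hN hA
  have hev : ∀ᶠ Z : ℕ in atTop, 20000 / η ≤ Real.log Z :=
    (Real.tendsto_log_atTop.comp tendsto_natCast_atTop_atTop).eventually_ge_atTop _
  obtain ⟨Z0, hZ0⟩ := eventually_atTop.mp (hblk.and (hev.and (eventually_ge_atTop 3)))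
  refine ⟨B + 2, 1680 * 3369 * C, Z0, fun Z hZ b hb σ hσ1 hσ2 S hS hV => ?_⟩
  obtain ⟨hblk, hev, hZ3⟩ := hZ0 Z hZ
  have hZ3' : (3 : ℝ) ≤ Z := by exact_mod_cast hZ3
  have hlog : 1 ≤ Real.log Z := by
    rw [Real.le_log_iff_exp_le (by linarith)]
    linarith [Real.exp_one_lt_three]
  obtain ⟨L, hL⟩ : ∃ L : ℕ, L = Nat.log 2 Z + 1 := ⟨_, rfl⟩
  have hZL : Z < 2 ^ L := hL ▸ Nat.lt_pow_succ_log_self (by norm_num) Z
  have hL3 : (L : ℝ) ≤ 3 * Real.log Z := by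
    have h1 : 2 ^ Nat.log 2 Z ≤ Z := Nat.pow_log_le_self 2 (by omega)
    have h2 : ((2 : ℝ)) ^ Nat.log 2 Z ≤ Z := by exact_mod_cast h1
    have h3 := Real.log_le_log (by positivity) h2
    rw [Real.log_pow] at h3
    have h4 : (1 / 2 : ℝ) ≤ Real.log 2 := by linarith [Real.log_two_gt_d9]
    have h5 : (0 : ℝ) ≤ (Nat.log 2 Z : ℝ) := by positivity
    rw [hL]; push_cast
    nlinarith
  have hpow : ∀ k : ℕ, Z ^ k ≤ 2 ^ (k * L) := fun k => by
    rw [mul_comm, pow_mul]; exact Nat.pow_le_pow_left hZL.le k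
  obtain ⟨Jm, hJm⟩ : ∃ Jm : ℕ, Jm = 560 * L := ⟨_, rfl⟩
  obtain ⟨It, hIt⟩ : ∃ It : ℕ, It = 1123 * L := ⟨_, rfl⟩
  obtain ⟨Q, hQ⟩ : ∃ Q : ℕ, Q = Z ^ 560 := ⟨_, rfl⟩
  let idx : Finset (ℕ × ℕ) := ((range Jm).filter fun j => Z * 2 ^ j ≤ Q) ×ˢ range It
  let cl : ℕ × ℕ → Finset ℝ := fun p => S.filter fun t =>
    ((Z * 2 ^ p.1 : ℕ) : ℝ) ^ σ / Real.log Z ^ 2 ≤ ‖BP (Z * 2 ^ p.1) (bT Z (Z * 2 ^ p.1) p.2 b) t‖
  have hcover : S ⊆ idx.biUnion cl := by
    intro t ht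
    obtain ⟨-, β, hβ1, hβ2, hη'⟩ := hV t ht
    by_contra hcon
    simp only [mem_biUnion, not_exists, not_and] at hcon
    have hDP : DP Z b (β + t * I) = ∑ j ∈ range Jm, ∑ n ∈ Ioc (Z * 2 ^ j) (2 * (Z * 2 ^ j)),
        (if n ≤ Z ^ 560 then b n else 0) * (n : ℂ) ^ (-((β : ℂ) + t * I)) := by
      rw [← sum_blocks, DP]
      have hsub : Ioc Z (Z ^ 560) ⊆ Ioc Z (Z * 2 ^ Jm) :=
        Ioc_subset_Ioc_right ((hJm ▸ hpow 560).trans (Nat.le_mul_of_pos_left _ (by omega)))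
      rw [← sum_subset hsub]
      · exact sum_congr rfl fun n hn => by rw [if_pos (mem_Ioc.mp hn).2]
      · intro n hn hn'
        have : ¬ n ≤ Z ^ 560 := fun h => hn' (mem_Ioc.mpr ⟨(mem_Ioc.mp hn).1, h⟩)
        rw [if_neg this, zero_mul]
    have hterm : ∀ j ∈ range Jm, ‖∑ n ∈ Ioc (Z * 2 ^ j) (2 * (Z * 2 ^ j)),
        (if n ≤ Z ^ 560 then b n else 0) * (n : ℂ) ^ (-((β : ℂ) + t * I))‖ ≤
        11 / Real.log Z ^ 2 := by
      intro j hj
      by_cases hjz : Z * 2 ^ j ≤ Z ^ 560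
      · set N : ℕ := Z * 2 ^ j with hNdef
        have hN1 : 1 ≤ N := Nat.mul_pos (by omega) (by positivity)
        have hN1' : (1 : ℝ) ≤ N := by exact_mod_cast hN1
        have h := blk_taylor (Z := Z) (J := It) (t := t) (V := (N : ℝ) ^ σ / Real.log Z ^ 2) hN1
          (by omega) hb (by linarith : 0 ≤ β) hβ2 (by positivity) (fun i hi => by
            have := hcon (j, i) (mem_product.mpr ⟨mem_filter.mpr ⟨hj, hQ ▸ hjz⟩, hi⟩)
            simp only [cl, mem_filter, not_and, not_le] at this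
            exact (this ht).le)
        refine h.trans ?_
        have h1 : (N : ℝ) ^ (-β) * (N : ℝ) ^ σ ≤ 1 := by
          rw [← Real.rpow_add (by linarith)]
          exact Real.rpow_le_one_of_one_le_of_nonpos hN1' (by linarith)
        have h2 : (N : ℝ) ^ (-β) ≤ 1 := Real.rpow_le_one_of_one_le_of_nonpos hN1' (by linarith)
        have h3 : (N : ℝ) ^ 2 / 2 ^ It ≤ 1 / Real.log Z ^ 2 := by
          rw [div_le_div_iff₀ (by positivity) (by positivity), one_mul]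
          have h4 : N ^ 2 * Z ^ 2 ≤ 2 ^ It := by
            calc N ^ 2 * Z ^ 2 ≤ (Z ^ 560) ^ 2 * Z ^ 3 :=
                  Nat.mul_le_mul (Nat.pow_le_pow_left hjz 2) (Nat.pow_le_pow_right (by omega) (by norm_num))
              _ = Z ^ 1123 := by rw [← pow_mul, ← pow_add]
              _ ≤ 2 ^ It := hIt ▸ hpow 1123
          have h5 : (N : ℝ) ^ 2 * (Z : ℝ) ^ 2 ≤ 2 ^ It := by exact_mod_cast h4
          refine le_trans (mul_le_mul_of_nonneg_left ?_ (by positivity)) h5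
          exact pow_le_pow_left₀ (by linarith)
            ((Real.log_le_sub_one_of_pos (by linarith)).trans (by linarith)) 2
        have h6 : 0 < 1 / Real.log Z ^ 2 := by positivity
        have h7 : 0 ≤ (N : ℝ) ^ 2 / 2 ^ It := by positivity
        calc (N : ℝ) ^ (-β) * (3 * ((N : ℝ) ^ σ / Real.log Z ^ 2) + 8 * (N : ℝ) ^ 2 / 2 ^ It)
            = 3 * ((N : ℝ) ^ (-β) * (N : ℝ) ^ σ) * (1 / Real.log Z ^ 2) +
              8 * ((N : ℝ) ^ (-β) * ((N : ℝ) ^ 2 / 2 ^ It)) := by ring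
          _ ≤ 3 * 1 * (1 / Real.log Z ^ 2) + 8 * (1 * (1 / Real.log Z ^ 2)) := by
              gcongr
          _ = 11 / Real.log Z ^ 2 := by ring
      · rw [sum_eq_zero fun n hn => by
          rw [if_neg (by have := (mem_Ioc.mp hn).1; omega), zero_mul]]
        simp only [norm_zero]; positivity
    have hle : η ≤ (Jm : ℝ) * (11 / Real.log Z ^ 2) := by
      refine hη'.trans ?_
      rw [hDP]
      refine (norm_sum_le _ _).trans ((sum_le_sum hterm).trans ?_)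
      rw [sum_const, card_range, nsmul_eq_mul]
    have hJ3 : (Jm : ℝ) ≤ 1680 * Real.log Z := by rw [hJm]; push_cast; linarith
    rw [div_le_iff₀ hη] at hev
    rw [← mul_div_assoc, le_div_iff₀ (by positivity)] at hle
    nlinarith
  have hcl : ∀ p ∈ idx, (#(cl p) : ℝ) ≤
      C * ((Z : ℝ) ^ 1000) ^ (A * (1 - σ)) * Real.log Z ^ B := by
    intro p hp
    have hp' := mem_filter.mp (mem_product.mp hp).1
    refine hblk (Z * 2 ^ p.1) (Nat.le_mul_of_pos_right _ (by positivity)) (hQ ▸ hp'.2)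
      (bT Z (Z * 2 ^ p.1) p.2 b) (bT_dv (Nat.mul_pos (by omega) (by positivity)) hb) σ hσ1 hσ2
      (cl p) (fun t ht u hu => hS t (mem_filter.mp ht).1 u (mem_filter.mp hu).1) fun t ht => ?_
    exact ⟨(hV t (mem_filter.mp ht).1).1, (mem_filter.mp ht).2⟩
  have hidx : (idx.card : ℝ) ≤ 1680 * 3369 * Real.log Z ^ (2 : ℝ) := by
    have h1 : idx.card ≤ Jm * It := by
      rw [card_product, card_range]
      exact Nat.mul_le_mul_right _ ((card_filter_le _ _).trans (card_range _).le)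
    have h2 : (idx.card : ℝ) ≤ 560 * L * (1123 * L) := by
      rw [hJm, hIt] at h1; exact_mod_cast h1
    have h3 : (0 : ℝ) ≤ L := by positivity
    rw [Real.rpow_two]
    nlinarith [mul_le_mul hL3 hL3 h3 (by linarith)]
  calc (#S : ℝ) ≤ #(idx.biUnion cl) := by exact_mod_cast card_le_card hcover
    _ ≤ ∑ p ∈ idx, (#(cl p) : ℝ) := by exact_mod_cast card_biUnion_le
    _ ≤ ∑ _p ∈ idx, C * ((Z : ℝ) ^ 1000) ^ (A * (1 - σ)) * Real.log Z ^ B := sum_le_sum hcl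
    _ = idx.card * (C * ((Z : ℝ) ^ 1000) ^ (A * (1 - σ)) * Real.log Z ^ B) := by
        rw [sum_const, nsmul_eq_mul]
    _ ≤ 1680 * 3369 * Real.log Z ^ (2 : ℝ) *
        (C * ((Z : ℝ) ^ 1000) ^ (A * (1 - σ)) * Real.log Z ^ B) :=
        mul_le_mul_of_nonneg_right hidx (by positivity)
    _ = _ := by rw [Real.rpow_add (by linarith)]; ring

end Pool.Agent.Lib.MP_b09185_nt.Sh
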