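import Pool.Agent.Lib.MP_b09185_nt.ShDef

/-! From zero density, a zero free region and a pointwise bound to the mean value bound. -/

namespace Pool.Agent.Lib.MP_b09185_nt.Sh

open Finset Complex Filter MeasureTheory Topology

lemma l1_cover {P : ℝ → Prop} {R : ℝ}
    (hR : ∀ S : Finset ℝ, Sep S → (∀ t ∈ S, P t) → (#S : ℝ) ≤ R) :
    ∃ S : Finset ℝ, (#S : ℝ) ≤ R ∧ ∀ γ, P γ → ∃ s ∈ S, |γ - s| ≤ 1 := by
  classical
  by_contra hcon
  push Not at hcon
  have key : ∀ n : ℕ, ∃ S : Finset ℝ, Sep S ∧ (∀ t ∈ S, P t) ∧ #S = n := by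
    intro n
    induction n with
    | zero => exact ⟨∅, by simp [Sep], by simp, rfl⟩
    | succ n ih =>
      obtain ⟨S, h1, h2, h3⟩ := ih
      obtain ⟨γ, hγ, hs⟩ := hcon S (hR S h1 h2)
      have hn : γ ∉ S := fun h => by
        have := hs γ h
        simp at this
        linarith
      refine ⟨insert γ S, ?_, ?_, ?_⟩
      · intro t ht u hu htu
        rcases mem_insert.1 ht with a1 | a1 <;> rcases mem_insert.1 hu with a2 | a2
        · exact absurd (a1.trans a2.symm) htu
        · rw [a1]; exact (hs u a2).le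
        · rw [abs_sub_comm, a2]; exact (hs t a1).le
        · exact h1 t a1 u a2 htu
      · intro t ht
        rcases mem_insert.1 ht with rfl | ht
        · exact hγ
        · exact h2 t ht
      · rw [card_insert_of_notMem hn, h3]
  obtain ⟨n, hn⟩ := exists_nat_gt R
  obtain ⟨S, h1, h2, h3⟩ := key n
  have := hR S h1 h2
  rw [h3] at this
  linarith

lemma l1_int {ι : Type*} {f : ℝ → ℝ} {T c0 w : ℝ} (I : Finset ι) (x c : ι → ℝ) (hT : 0 ≤ T)
    (hw : 0 ≤ w) (hf : ∀ t, 0 ≤ f t) (hc0 : 0 ≤ c0) (hc : ∀ i ∈ I, 0 ≤ c i)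
    (h : ∀ t, |t| ≤ T → f t ≤ c0 ∨ ∃ i ∈ I, |t - x i| ≤ w ∧ f t ≤ c i) :
    ∫ t in (-T)..T, f t ≤ 2 * T * c0 + ∑ i ∈ I, 2 * w * c i := by
  rw [intervalIntegral.integral_of_le (by linarith)]
  set g : ι → ℝ → ℝ := fun i => Set.indicator (Set.Icc (x i - w) (x i + w)) (fun _ => c i)
    with hg
  have gi : ∀ i, Integrable (g i) volume := fun i => by
    rw [hg]
    exact (integrable_indicator_iff measurableSet_Icc).2
      (integrableOn_const (by simp))
  have g0 : ∀ i ∈ I, ∀ t, 0 ≤ g i t := fun i hi t =>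
    Set.indicator_nonneg (fun _ _ => hc i hi) t
  have ci : Integrable (fun _ : ℝ => c0) (volume.restrict (Set.Ioc (-T) T)) :=
    integrableOn_const (by simp)
  have si : Integrable (fun t => ∑ i ∈ I, g i t) (volume.restrict (Set.Ioc (-T) T)) :=
    integrable_finsetSum _ (fun i _ => (gi i).integrableOn)
  calc ∫ t in Set.Ioc (-T) T, f t ≤ ∫ t in Set.Ioc (-T) T, (c0 + ∑ i ∈ I, g i t) := by
        refine integral_mono_of_nonneg (ae_of_all _ hf) (ci.add si) ?_
        refine (ae_restrict_iff' measurableSet_Ioc).2 (ae_of_all _ fun t ht => ?_)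
        have hs : 0 ≤ ∑ i ∈ I, g i t := sum_nonneg fun i hi => g0 i hi t
        rcases h t (abs_le.2 ⟨ht.1.le, ht.2⟩) with h1 | ⟨i, hi, h1, h2⟩
        · show f t ≤ c0 + ∑ i ∈ I, g i t
          linarith
        · have h3 : g i t = c i := by
            rw [hg]
            have := abs_le.1 h1
            exact Set.indicator_of_mem (show t ∈ Set.Icc (x i - w) (x i + w) from
              ⟨by linarith [this.1], by linarith [this.2]⟩) _
          have h4 : g i t ≤ ∑ i ∈ I, g i t :=
            single_le_sum (f := fun i => g i t) (fun i hi => g0 i hi t) hi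
          show f t ≤ c0 + ∑ i ∈ I, g i t
          linarith
    _ = 2 * T * c0 + ∑ i ∈ I, ∫ t in Set.Ioc (-T) T, g i t := by
        rw [integral_add ci si, integral_finsetSum _ (fun i _ => (gi i).integrableOn)]
        congr 1
        rw [setIntegral_const, Real.volume_real_Ioc_of_le (by linarith), smul_eq_mul]
        ring
    _ ≤ _ := by
        gcongr with i hi
        calc ∫ t in Set.Ioc (-T) T, g i t ≤ ∫ t, g i t :=
              setIntegral_le_integral (gi i) (ae_of_all _ (g0 i hi))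
          _ = 2 * w * c i := by
              rw [hg]
              simp only
              rw [integral_indicator_const _ measurableSet_Icc,
                Real.volume_real_Icc_of_le (by linarith), smul_eq_mul]
              ring

/-- the estimate for a fixed value of the parameter -/
lemma l1_fix {f : ℝ → ℝ} {C Q v η T T' : ℝ} (hv : 1 ≤ v) (hC : 0 ≤ C) (hQ : 0 ≤ Q) (hT : 0 ≤ T)
    (hf : ∀ t, 0 ≤ f t) (hη : 1 / v ≤ η) (hT' : T + v + 2 ≤ T')
    (hZ : ∀ s : ℂ, riemannZeta s = 0 → |s.im| ≤ T' → s.re ≤ 1 - η)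
    (hP : ∀ t σ : ℝ, |t| ≤ T → 1 / 2 ≤ σ → σ ≤ 1 →
      (∀ s : ℂ, riemannZeta s = 0 → |s.im - t| ≤ v + 2 → s.re ≤ σ) →
        f t ≤ C * Real.exp (v * (σ - 1)))
    (hD : ∀ σ : ℝ, 5 / 9 ≤ σ → σ ≤ 1 - η → ∀ S : Finset ℝ, Sep S →
      (∀ γ ∈ S, |γ| ≤ T' ∧ ∃ β : ℝ, σ ≤ β ∧ riemannZeta (β + γ * I) = 0) →
        (#S : ℝ) ≤ Q * Real.exp (v * (1 - σ))) :
    ∫ t in (-T)..T, f t ≤
      2 * T * (C * Real.exp (-(4 / 9) * v)) + (v + 1) * (2 * (v + 3) * (C * 3 * Q)) := by
  classical
  have hv0 : 0 < v := by linarith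
  have hη0 : 0 < η := lt_of_lt_of_le (by positivity) hη
  set σ : ℕ → ℝ := fun j => 5 / 9 + j / v with hσ
  have hσ0 : ∀ j, 5 / 9 ≤ σ j := fun j => by
    have : 0 ≤ (j : ℝ) / v := by positivity
    simp only [hσ]; linarith
  have cov : ∀ j : ℕ, ∃ S : Finset ℝ, (#S : ℝ) ≤ Q * Real.exp (v * (1 - σ j)) ∧
      ∀ γ, (σ j ≤ 1 - η ∧ |γ| ≤ T' ∧ ∃ β : ℝ, σ j ≤ β ∧ riemannZeta (β + γ * I) = 0) →
        ∃ s ∈ S, |γ - s| ≤ 1 := by
    intro j
    apply l1_cover
    intro S h1 h2
    rcases S.eq_empty_or_nonempty with rfl | ⟨t, ht⟩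
    · simp only [card_empty, Nat.cast_zero]; positivity
    · exact hD _ (hσ0 j) (h2 t ht).1 S h1 (fun γ hγ => (h2 γ hγ).2)
  choose S hS1 hS2 using cov
  have main := l1_int (f := f) (T := T) (c0 := C * Real.exp (-(4 / 9) * v)) (w := v + 3)
    ((range ⌈v⌉₊).sigma S) (fun p => p.2) (fun p => C * Real.exp (v * (σ (p.1 + 1) - 1)))
    hT (by linarith) hf (by positivity) (fun _ _ => by positivity) ?_
  · refine main.trans ?_
    gcongr
    rw [sum_sigma]
    have hb : ∀ j ∈ range ⌈v⌉₊, ∑ s ∈ S j, 2 * (v + 3) * (C * Real.exp (v * (σ (j + 1) - 1))) ≤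
        2 * (v + 3) * (C * 3 * Q) := by
      intro j _
      rw [sum_const, nsmul_eq_mul]
      have e1 : Real.exp (v * (1 - σ j)) * Real.exp (v * (σ (j + 1) - 1)) = Real.exp 1 := by
        rw [← Real.exp_add]
        congr 1
        simp only [hσ]
        push_cast
        field_simp
        ring
      have e2 : Real.exp 1 ≤ 3 := by linarith [Real.exp_one_lt_d9]
      calc (#(S j) : ℝ) * (2 * (v + 3) * (C * Real.exp (v * (σ (j + 1) - 1))))
          ≤ Q * Real.exp (v * (1 - σ j)) *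
            (2 * (v + 3) * (C * Real.exp (v * (σ (j + 1) - 1)))) := by
            gcongr
            exact hS1 j
        _ = 2 * (v + 3) * (C * (Real.exp (v * (1 - σ j)) *
            Real.exp (v * (σ (j + 1) - 1))) * Q) := by ring
        _ ≤ _ := by rw [e1]; gcongr
    refine (sum_le_card_nsmul _ _ _ hb).trans ?_
    rw [card_range, nsmul_eq_mul]
    gcongr
    exact (Nat.ceil_lt_add_one hv0.le).le
  · intro t ht
    have him : ∀ s : ℂ, |s.im - t| ≤ v + 2 → |s.im| ≤ T' := fun s hs => by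
      have := abs_add_le (s.im - t) t
      rw [sub_add_cancel] at this
      linarith
    have hex : ∃ j : ℕ, ∀ s : ℂ, riemannZeta s = 0 → |s.im - t| ≤ v + 2 → s.re ≤ σ j := by
      refine ⟨⌈v⌉₊, fun s h1 h2 => ?_⟩
      have h3 := hZ s h1 (him s h2)
      have h4 : 1 ≤ (⌈v⌉₊ : ℝ) / v := (one_le_div hv0).2 (Nat.le_ceil v)
      simp only [hσ]
      linarith
    have hj := Nat.find_spec hex
    have hm := fun m => Nat.find_min hex (m := m)
    generalize Nat.find hex = j at hj hm
    rcases j with _ | j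
    · left
      have := hP t (σ 0) ht (by linarith [hσ0 0]) (by simp only [hσ]; norm_num) hj
      have e : v * (σ 0 - 1) = -(4 / 9) * v := by simp only [hσ]; push_cast; ring
      rwa [e] at this
    · right
      have h1 := hm j (Nat.lt_succ_self j)
      push Not at h1
      obtain ⟨s, hs0, hs1, hs2⟩ := h1
      have h3 := hZ s hs0 (him s hs1)
      obtain ⟨y, hy, hy1⟩ := hS2 j s.im ⟨by linarith, him s hs1, s.re, hs2.le, by
        rw [re_add_im]; exact hs0⟩
      have hjv : (j : ℝ) < v := by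
        have : (j : ℝ) / v < 1 := by
          have : σ j < 1 := by linarith
          simp only [hσ] at this
          linarith
        exact (div_lt_one hv0).1 this
      refine ⟨⟨j, y⟩, mem_sigma.2 ⟨mem_range.2 (Nat.lt_ceil.2 hjv), hy⟩, ?_, ?_⟩
      · have := abs_add_le (s.im - y) (t - s.im)
        rw [abs_sub_comm t s.im] at this
        have e : s.im - y + (t - s.im) = t - y := by ring
        rw [e] at this
        show |t - y| ≤ v + 3
        linarith
      · refine hP t _ ht (by linarith [hσ0 (j + 1)]) ?_ hj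
        have e : σ (j + 1) = σ j + 1 / v := by simp only [hσ]; push_cast; ring
        rw [e]
        linarith

lemma l1_lim (k : ℕ) {κ φ : ℝ} (hκ : 0 < κ) (hφ : 0 < φ) :
    Tendsto (fun v : ℝ => v ^ k * Real.exp (-κ * v ^ φ)) atTop (𝓝 0) := by
  have h := (tendsto_rpow_mul_exp_neg_mul_atTop_nhds_zero (k / φ) κ hκ).comp
    (tendsto_rpow_atTop hφ)
  refine h.congr' ?_
  filter_upwards [eventually_gt_atTop 0] with v hv
  simp only [Function.comp]
  rw [← Real.rpow_mul hv.le, mul_div_cancel₀ _ hφ.ne', Real.rpow_natCast]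

theorem L1_of (hD : Dens) (hZ : ZF) (hP : Pt) {a : ℝ} (h0 : 0 < a) (h1 : a < 4 / 9) : L1 a := by
  obtain ⟨θ, L0, hθ0, hθ1, hZ⟩ := hZ
  obtain ⟨C, v0, hP⟩ := hP
  obtain ⟨b, hab, hb⟩ := exists_between h1
  have hb0 : 0 < b := by linarith
  obtain ⟨A, hA1, hA2⟩ := exists_between (show (9 / 4 : ℝ) < 1 / b by
    rw [lt_div_iff₀ hb0]; linarith)
  have hκ : 0 < 1 - A * b := by
    rw [lt_div_iff₀ hb0] at hA2; linarith
  obtain ⟨B, C', hD⟩ := hD A hA1
  set κ := 1 - A * b with hκd
  set n := ⌈B⌉₊ with hn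
  intro e he
  have t1 : Tendsto (fun v : ℝ => 2 * |C| * (v ^ 3 * Real.exp (-(4 / 9 - a) * v ^ (1 : ℝ))) +
      48 * |C| * |C'| * (v ^ (n + 5) * Real.exp (-κ * v ^ (1 - θ)))) atTop (𝓝 0) := by
    have := ((l1_lim 3 (κ := 4 / 9 - a) (by linarith) one_pos).const_mul (2 * |C|)).add
      ((l1_lim (n + 5) hκ (φ := 1 - θ) (by linarith)).const_mul (48 * |C| * |C'|))
    simpa using this
  have t2 : Tendsto (fun v : ℝ => v ^ 0 * Real.exp (-(b - a) * v ^ (1 : ℝ)) +
      3 * (v ^ 1 * Real.exp (-b * v ^ (1 : ℝ)))) atTop (𝓝 0) := by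
    have := (l1_lim 0 (κ := b - a) (by linarith) one_pos).add
      ((l1_lim 1 hb0 one_pos).const_mul 3)
    simpa using this
  filter_upwards [t1.eventually (eventually_le_nhds he), t2.eventually (eventually_le_nhds one_pos),
    eventually_ge_atTop 1, eventually_ge_atTop v0, eventually_ge_atTop L0,
    eventually_ge_atTop (1 / b)] with v e1 e2 hv hv0 hL hvb
  have hv' : 0 < v := by linarith
  simp only [Real.rpow_one, pow_zero, pow_one, one_mul] at e1 e2
  have hbv : 1 ≤ b * v := by rw [div_le_iff₀ hb0] at hvb; linarith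
  have hT' : Real.exp (a * v) + v + 2 ≤ Real.exp (b * v) := by
    have h2 := mul_le_mul_of_nonneg_right e2 (Real.exp_pos (b * v)).le
    have h3 : Real.exp (-(b - a) * v) * Real.exp (b * v) = Real.exp (a * v) := by
      rw [← Real.exp_add]; congr 1; ring
    have h4 : Real.exp (-b * v) * Real.exp (b * v) = 1 := by
      rw [← Real.exp_add]; simp
    have h5 : (Real.exp (-(b - a) * v) + 3 * (v * Real.exp (-b * v))) * Real.exp (b * v) =
        Real.exp (-(b - a) * v) * Real.exp (b * v) +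
          3 * v * (Real.exp (-b * v) * Real.exp (b * v)) := by ring
    rw [h5, h3, h4] at h2
    linarith
  have hbe : Real.exp (b * v) ≤ Real.exp v := Real.exp_le_exp.2 (by nlinarith)
  have hpos := Real.exp_pos (a * v)
  have main := l1_fix (f := fun t => ‖PG v t - PM v t‖) (C := |C| * v ^ 3)
    (Q := |C'| * v ^ n * Real.exp (-κ * v ^ (1 - θ))) (v := v) (η := v ^ (-θ))
    (T := Real.exp (a * v)) (T' := Real.exp (b * v)) hv (by positivity) (by positivity)
    hpos.le (fun _ => norm_nonneg _) ?_ hT' (fun s h2 h3 => hZ v hL s h2 (h3.trans hbe)) ?_ ?_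
  · refine main.trans (le_trans ?_ e1)
    apply add_le_add
    · apply le_of_eq
      have : Real.exp (-(4 / 9 - a) * v) = Real.exp (a * v) * Real.exp (-(4 / 9) * v) := by
        rw [← Real.exp_add]; congr 1; ring
      rw [this]
      ring
    · calc (v + 1) * (2 * (v + 3) * (|C| * v ^ 3 * 3 *
            (|C'| * v ^ n * Real.exp (-κ * v ^ (1 - θ)))))
          ≤ (2 * v) * (2 * (4 * v) * (|C| * v ^ 3 * 3 *
            (|C'| * v ^ n * Real.exp (-κ * v ^ (1 - θ))))) := by
            gcongr <;> linarith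
        _ = _ := by ring
  · rw [one_div, ← Real.rpow_neg_one]
    exact Real.rpow_le_rpow_of_exponent_le hv (by linarith)
  · intro t σ ht h2 h3 h4
    refine (hP v t σ hv0 (by linarith) h2 h3 h4).trans ?_
    gcongr
    exact le_abs_self C
  · intro σ h2 h3 S h4 h5
    have hη : 0 < v ^ (-θ) := Real.rpow_pos_of_pos hv' _
    refine (hD _ σ (by linarith) h2 (by linarith) S h4 h5).trans ?_
    rw [Real.log_exp, ← Real.exp_mul]
    have h6 : (b * v) ^ B ≤ v ^ n := by
      calc (b * v) ^ B ≤ (b * v) ^ (n : ℝ) :=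
            Real.rpow_le_rpow_of_exponent_le hbv (Nat.le_ceil B)
        _ = (b * v) ^ n := Real.rpow_natCast _ _
        _ ≤ v ^ n := by gcongr; nlinarith
    have h7 : Real.exp (b * v * (A * (1 - σ))) ≤
        Real.exp (-κ * v ^ (1 - θ)) * Real.exp (v * (1 - σ)) := by
      rw [← Real.exp_add]
      apply Real.exp_le_exp.2
      have h8 : v ^ (1 - θ) = v * v ^ (-θ) := by
        rw [sub_eq_add_neg, Real.rpow_add hv', Real.rpow_one]
      have h9 : κ * (v * v ^ (-θ)) ≤ κ * (v * (1 - σ)) := by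
        gcongr; linarith
      rw [h8]
      have : b * v * (A * (1 - σ)) = v * (1 - σ) - κ * (v * (1 - σ)) := by rw [hκd]; ring
      linarith
    calc C' * Real.exp (b * v * (A * (1 - σ))) * (b * v) ^ B
        ≤ |C'| * Real.exp (b * v * (A * (1 - σ))) * (b * v) ^ B := by
          gcongr; exact le_abs_self _
      _ ≤ |C'| * (Real.exp (-κ * v ^ (1 - θ)) * Real.exp (v * (1 - σ))) * v ^ n := by gcongr
      _ = _ := by ring

end Pool.Agent.Lib.MP_b09185_nt.Sh
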