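import Pool.Agent.Lib.MP_b09185_nt.ShDef

/-! The Halasz inequality near the line one. -/

namespace Pool.Agent.Lib.MP_b09185_nt.Sh

open Finset Complex Filter

lemma harm_le (x : ℕ) : ∑ k ∈ Icc 1 x, (1 : ℝ) / k ≤ 1 + Real.log x := by
  have h := harmonic_le_one_add_log x
  rw [harmonic_eq_sum_Icc] at h
  push_cast at h
  simpa [one_div] using h

lemma harm_mul (x : ℕ) {g : ℕ} (hg : 0 < g) :
    ∑ a ∈ Icc 1 x, (if g ∣ a then (1 : ℝ) / a else 0) ≤ 1 / g * ∑ k ∈ Icc 1 x, (1 : ℝ) / k := by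
  rw [← sum_filter, mul_sum]
  have hsub : (Icc 1 x).filter (fun a => g ∣ a) ⊆ (Icc 1 x).image (fun k => g * k) := by
    intro a ha
    simp only [mem_filter, mem_Icc] at ha
    obtain ⟨⟨h1, h2⟩, k, rfl⟩ := ha
    refine mem_image.2 ⟨k, mem_Icc.2 ⟨?_, ?_⟩, rfl⟩
    · rcases Nat.eq_zero_or_pos k with rfl | h
      · simp at h1
      · exact h
    · exact le_trans (Nat.le_mul_of_pos_left k hg) h2
  refine (sum_le_sum_of_subset_of_nonneg hsub fun _ _ _ => by positivity).trans ?_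
  rw [sum_image fun a _ b _ h => Nat.eq_of_mul_eq_mul_left hg h]
  refine sum_le_sum fun k _ => le_of_eq ?_
  push_cast
  rw [div_mul_div_comm, one_mul]

lemma card_div_eq {x n : ℕ} (hn : n ∈ Icc 1 x) :
    (#n.divisors : ℝ) = ∑ a ∈ Icc 1 x, if a ∣ n then (1 : ℝ) else 0 := by
  rw [← sum_filter, sum_const, nsmul_eq_mul, mul_one]
  congr 2
  ext a
  rw [mem_Icc] at hn
  simp only [Nat.mem_divisors, mem_filter, mem_Icc]
  constructor
  · rintro ⟨h, h0⟩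
    exact ⟨⟨Nat.pos_of_dvd_of_pos h hn.1, (Nat.le_of_dvd hn.1 h).trans hn.2⟩, h⟩
  · rintro ⟨_, h⟩
    exact ⟨h, by omega⟩

lemma count_lcm (x : ℕ) {a b : ℕ} (ha : a ∈ Icc 1 x) (hb : b ∈ Icc 1 x) :
    ∑ n ∈ Icc 1 x, (if a ∣ n then (1 : ℝ) else 0) * (if b ∣ n then (1 : ℝ) else 0) ≤
      x * ∑ g ∈ Icc 1 x, g * ((if g ∣ a then (1 : ℝ) / a else 0) *
        (if g ∣ b then (1 : ℝ) / b else 0)) := by
  rw [mem_Icc] at ha hb
  have ha0 : (0 : ℝ) < a := by exact_mod_cast ha.1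
  have hb0 : (0 : ℝ) < b := by exact_mod_cast hb.1
  have h1 : ∑ n ∈ Icc 1 x, (if a ∣ n then (1 : ℝ) else 0) * (if b ∣ n then (1 : ℝ) else 0) =
      ((x / Nat.lcm a b : ℕ) : ℝ) := by
    rw [← Nat.Ioc_filter_dvd_card_eq_div, card_eq_sum_ones, sum_filter]
    push_cast
    refine sum_congr rfl fun n _ => ?_
    by_cases h1 : a ∣ n <;> by_cases h2 : b ∣ n <;> simp [h1, h2, Nat.lcm_dvd_iff]
  have hl : (0 : ℝ) < Nat.lcm a b := by exact_mod_cast Nat.lcm_pos ha.1 hb.1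
  have hgl : (Nat.gcd a b : ℝ) * Nat.lcm a b = a * b := by exact_mod_cast Nat.gcd_mul_lcm a b
  have hg : Nat.gcd a b ∈ Icc 1 x :=
    mem_Icc.2 ⟨Nat.gcd_pos_of_pos_left _ ha.1, (Nat.gcd_le_left _ ha.1).trans ha.2⟩
  rw [h1]
  refine Nat.cast_div_le.trans ?_
  rw [div_eq_mul_one_div]
  refine mul_le_mul_of_nonneg_left ?_ (Nat.cast_nonneg x)
  refine le_trans (le_of_eq ?_) (single_le_sum (f := fun g : ℕ => (g : ℝ) *
    ((if g ∣ a then (1 : ℝ) / a else 0) * (if g ∣ b then (1 : ℝ) / b else 0)))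
    (fun g _ => by positivity) hg)
  simp only [Nat.gcd_dvd_left, Nat.gcd_dvd_right, if_true]
  field_simp
  linarith

lemma sum_div_sq (x : ℕ) : ∑ n ∈ Icc 1 x, (#n.divisors : ℝ) ^ 2 ≤ x * (1 + Real.log x) ^ 3 := by
  set H := ∑ k ∈ Icc 1 x, (1 : ℝ) / k with hH
  have hH0 : 0 ≤ H := sum_nonneg fun _ _ => by positivity
  have h1 : ∑ n ∈ Icc 1 x, (#n.divisors : ℝ) ^ 2 = ∑ a ∈ Icc 1 x, ∑ b ∈ Icc 1 x, ∑ n ∈ Icc 1 x,
      (if a ∣ n then (1 : ℝ) else 0) * (if b ∣ n then (1 : ℝ) else 0) := by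
    rw [sum_congr rfl fun n hn => by rw [card_div_eq hn, sq, sum_mul_sum]]
    rw [sum_comm]
    exact sum_congr rfl fun a _ => sum_comm
  rw [h1]
  refine (sum_le_sum fun a ha => sum_le_sum fun b hb => count_lcm x ha hb).trans ?_
  simp_rw [← mul_sum]
  refine mul_le_mul_of_nonneg_left ?_ (Nat.cast_nonneg x)
  have h2 : ∑ a ∈ Icc 1 x, ∑ b ∈ Icc 1 x, ∑ g ∈ Icc 1 x, (g : ℝ) *
      ((if g ∣ a then (1 : ℝ) / a else 0) * (if g ∣ b then (1 : ℝ) / b else 0)) =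
      ∑ g ∈ Icc 1 x, (g : ℝ) * (∑ a ∈ Icc 1 x, (if g ∣ a then (1 : ℝ) / a else 0)) ^ 2 := by
    rw [sum_congr rfl fun a _ => sum_comm, sum_comm]
    refine sum_congr rfl fun g _ => ?_
    rw [sq, sum_mul_sum, mul_sum]
    exact sum_congr rfl fun a _ => by rw [mul_sum]
  rw [h2]
  calc _ ≤ ∑ g ∈ Icc 1 x, (1 : ℝ) / g * H ^ 2 := by
        refine sum_le_sum fun g hg => ?_
        have hg0 : 0 < g := (mem_Icc.1 hg).1
        have hg1 : (0 : ℝ) < g := by exact_mod_cast hg0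
        calc _ ≤ (g : ℝ) * (1 / g * H) ^ 2 := by
              gcongr
              exact harm_mul x hg0
          _ = _ := by field_simp
    _ = H ^ 3 := by rw [← sum_mul]; ring
    _ ≤ _ := by
        gcongr
        exact harm_le x

/-- the oscillating factor -/
noncomputable def osc (t u : ℝ) : ℂ := exp (I * (-(t * Real.log u) : ℝ))

lemma norm_osc (t u : ℝ) : ‖osc t u‖ = 1 := norm_exp_I_mul_ofReal _

lemma cpow_eq_osc (t : ℝ) {n : ℕ} (hn : n ≠ 0) : (n : ℂ) ^ (-((t : ℂ) * I)) = osc t n := by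
  rw [cpow_def_of_ne_zero (by exact_mod_cast hn), ← natCast_log, osc]
  congr 1
  push_cast
  ring

lemma osc_mul_conj (t s u : ℝ) : osc t u * (starRingEnd ℂ) (osc s u) = osc (t - s) u := by
  rw [osc, osc, osc, ← exp_conj, ← exp_add]
  congr 1
  simp only [map_mul, conj_I, conj_ofReal]
  push_cast
  ring

lemma osc_sub (t u w : ℝ) : ‖osc t u - osc t w‖ ≤ |t| * |Real.log u - Real.log w| := by
  have h : osc t u - osc t w =
      osc t w * (exp (I * (-(t * (Real.log u - Real.log w)) : ℝ)) - 1) := by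
    rw [mul_sub, mul_one, osc, osc, ← exp_add]
    congr 2
    push_cast
    ring
  rw [h, norm_mul, norm_osc, one_mul]
  refine Real.norm_exp_I_mul_ofReal_sub_one_le.trans (le_of_eq ?_)
  rw [Real.norm_eq_abs, abs_neg, abs_mul]

lemma osc_deriv (t : ℝ) {u : ℝ} (hu : 0 < u) :
    HasDerivAt (fun u : ℝ => (u : ℂ) * osc t u) ((1 - t * I) * osc t u) u := by
  have h1 : HasDerivAt (fun u : ℝ => -(t * Real.log u)) (-(t * u⁻¹)) u :=
    ((Real.hasDerivAt_log hu.ne').const_mul t).neg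
  have h2 := (h1.ofReal_comp.const_mul I).cexp
  have h3 := (hasDerivAt_id u).ofReal_comp.mul h2
  have hu' : (u : ℂ) ≠ 0 := by exact_mod_cast hu.ne'
  refine HasDerivAt.congr_deriv h3 ?_
  simp only [osc, id]
  push_cast
  field_simp
  ring

lemma osc_step (t : ℝ) {n : ℝ} (hn : 0 < n) :
    ‖((n + 1 : ℝ) : ℂ) * osc t (n + 1) - n * osc t n - (1 - t * I) * osc t n‖ ≤
      ‖(1 : ℂ) - t * I‖ * (|t| / n) := by
  have h := norm_image_sub_le_of_norm_deriv_le_segment'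
    (f := fun u : ℝ => (u : ℂ) * osc t u - (1 - t * I) * osc t n * u)
    (f' := fun u : ℝ => (1 - t * I) * osc t u - (1 - t * I) * osc t n) (a := n) (b := n + 1)
    (C := ‖(1 : ℂ) - t * I‖ * (|t| / n)) (fun u hu => by
      have h1 := osc_deriv t (hn.trans_le hu.1)
      have h2 := (hasDerivAt_id u).ofReal_comp.const_mul ((1 - t * I) * osc t n)
      have h3 := h1.sub h2
      simp only [id, ofReal_one, mul_one] at h3
      exact h3.hasDerivWithinAt) (fun u hu => by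
      rw [← mul_sub, norm_mul]
      refine mul_le_mul_of_nonneg_left ((osc_sub t u n).trans ?_) (norm_nonneg _)
      rw [div_eq_mul_one_div]
      refine mul_le_mul_of_nonneg_left ?_ (abs_nonneg t)
      have hu0 : 0 < u := hn.trans_le hu.1
      rw [abs_of_nonneg (sub_nonneg.2 (Real.log_le_log hn hu.1)), ← Real.log_div hu0.ne' hn.ne']
      refine (Real.log_le_sub_one_of_pos (by positivity)).trans ?_
      rw [div_sub_one hn.ne']
      gcongr
      linarith [hu.2]) (n + 1) ⟨by linarith, le_rfl⟩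
  simp only [add_sub_cancel_left, mul_one] at h
  refine le_trans (le_of_eq ?_) h
  congr 1
  push_cast
  ring

lemma Zs_small {N : ℕ} (hN : 1 ≤ N) {t : ℝ} (ht : t ≠ 0) :
    ‖∑ n ∈ Ioc N (2 * N), osc t n‖ ≤ 5 * N / |t| + |t| := by
  have hN0 : (1 : ℝ) ≤ N := by exact_mod_cast hN
  have ht0 : 0 < |t| := abs_pos.2 ht
  set w : ℂ := 1 - t * I with hw
  have hwt : |t| ≤ ‖w‖ := by
    have := abs_im_le_norm w
    simpa [hw] using this
  have hw0 : 0 < ‖w‖ := ht0.trans_le hwt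
  have htel : ∀ k : ℕ, ∑ n ∈ Ioc N (N + k), ((((n : ℝ) + 1 : ℝ) : ℂ) * osc t (n + 1) -
      ((n : ℝ) : ℂ) * osc t n) = (((N + k : ℕ) : ℝ) + 1 : ℝ) * osc t (((N + k : ℕ) : ℝ) + 1) -
        ((N : ℝ) + 1 : ℝ) * osc t (N + 1) := by
    intro k
    induction k with
    | zero => simp
    | succ k ih =>
      rw [← add_assoc, sum_Ioc_succ_top (by omega), ih]
      push_cast
      ring
  have h1 := htel N
  rw [← two_mul] at h1
  have h2 : w * ∑ n ∈ Ioc N (2 * N), osc t n =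
      ((((2 * N : ℕ) : ℝ) + 1 : ℝ) * osc t (((2 * N : ℕ) : ℝ) + 1) -
        ((N : ℝ) + 1 : ℝ) * osc t (N + 1)) - ∑ n ∈ Ioc N (2 * N),
      ((((n : ℝ) + 1 : ℝ) : ℂ) * osc t (n + 1) - ((n : ℝ) : ℂ) * osc t n - w * osc t n) := by
    rw [← h1, sum_sub_distrib (f := fun n : ℕ => (((n : ℝ) + 1 : ℝ) : ℂ) * osc t (n + 1) -
      ((n : ℝ) : ℂ) * osc t n), mul_sum]
    ring
  have h3 : ‖∑ n ∈ Ioc N (2 * N), ((((n : ℝ) + 1 : ℝ) : ℂ) * osc t (n + 1) -
      ((n : ℝ) : ℂ) * osc t n - w * osc t n)‖ ≤ ‖w‖ * |t| := by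
    refine (norm_sum_le _ _).trans ?_
    refine (sum_le_card_nsmul _ _ (‖w‖ * (|t| / N)) fun n hn => ?_).trans (le_of_eq ?_)
    · have hn' : (N : ℝ) ≤ n := by exact_mod_cast (mem_Ioc.1 hn).1.le
      refine (osc_step t (by linarith)).trans ?_
      gcongr
    · rw [Nat.card_Ioc, nsmul_eq_mul, show 2 * N - N = N by omega]
      field_simp
  have h4 : ‖(((((2 * N : ℕ) : ℝ) + 1 : ℝ) : ℂ) * osc t (((2 * N : ℕ) : ℝ) + 1) -
        ((N : ℝ) + 1 : ℝ) * osc t (N + 1))‖ ≤ 5 * N := by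
    refine (norm_sub_le _ _).trans ?_
    rw [norm_mul, norm_mul, norm_osc, norm_osc, norm_real, norm_real,
      Real.norm_of_nonneg (by positivity), Real.norm_of_nonneg (by positivity)]
    push_cast
    linarith
  have h5 : ‖w‖ * ‖∑ n ∈ Ioc N (2 * N), osc t n‖ ≤ 5 * N + ‖w‖ * |t| := by
    rw [← norm_mul, h2]
    exact (norm_sub_le _ _).trans (add_le_add h4 h3)
  have h6 : 5 * (N : ℝ) ≤ ‖w‖ * (5 * N / |t|) := by
    calc 5 * (N : ℝ) = |t| * (5 * N / |t|) := by field_simp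
      _ ≤ _ := by gcongr
  refine le_of_mul_le_mul_left ?_ hw0
  rw [mul_add]
  linarith

lemma sep_half {S : Finset ℝ} (hS : Sep S) {D : ℝ} (h : ∀ u ∈ S, 1 ≤ u ∧ u ≤ D) (hD : 1 ≤ D) :
    ∑ u ∈ S, 1 / u ≤ 1 + Real.log D := by
  have hinj : Set.InjOn (fun u : ℝ => ⌊u⌋₊) S := by
    intro u hu w hw huw
    by_contra hne
    have h1 := hS u hu w hw hne
    have a1 := Nat.floor_le (le_trans zero_le_one (h u hu).1)
    have a2 := Nat.lt_floor_add_one u
    have a3 := Nat.floor_le (le_trans zero_le_one (h w hw).1)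
    have a4 := Nat.lt_floor_add_one w
    simp only at huw
    rw [huw] at a1 a2
    have : |u - w| < 1 := abs_lt.2 ⟨by linarith, by linarith⟩
    linarith
  calc ∑ u ∈ S, 1 / u ≤ ∑ u ∈ S, (1 : ℝ) / (⌊u⌋₊ : ℕ) := by
        refine sum_le_sum fun u hu => ?_
        have : 0 < ⌊u⌋₊ := Nat.floor_pos.2 (h u hu).1
        exact one_div_le_one_div_of_le (by exact_mod_cast this)
          (Nat.floor_le (le_trans zero_le_one (h u hu).1))
    _ = ∑ k ∈ S.image (fun u : ℝ => ⌊u⌋₊), (1 : ℝ) / k :=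
        (sum_image (f := fun k : ℕ => (1 : ℝ) / k) hinj).symm
    _ ≤ ∑ k ∈ Icc 1 ⌊D⌋₊, (1 : ℝ) / k := by
        refine sum_le_sum_of_subset_of_nonneg (fun k hk => ?_) fun _ _ _ => by positivity
        obtain ⟨u, hu, rfl⟩ := mem_image.1 hk
        exact mem_Icc.2 ⟨Nat.floor_pos.2 (h u hu).1, Nat.floor_le_floor (h u hu).2⟩
    _ ≤ 1 + Real.log ⌊D⌋₊ := harm_le _
    _ ≤ _ := by
        have : 0 < ⌊D⌋₊ := Nat.floor_pos.2 hD
        gcongr
        exact Nat.floor_le (by linarith)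

lemma sep_harm {S : Finset ℝ} (hS : Sep S) {t D : ℝ} (ht : t ∈ S) (hD : 1 ≤ D)
    (h : ∀ u ∈ S, |t - u| ≤ D) : ∑ u ∈ S.erase t, 1 / |t - u| ≤ 2 * (1 + Real.log D) := by
  classical
  have key : ∀ e : ℝ, |e| = 1 → ∑ u ∈ (S.erase t).filter (fun u => 0 < e * (t - u)),
      1 / |t - u| ≤ 1 + Real.log D := by
    intro e he
    have he0 : e ≠ 0 := by rintro rfl; simp at he
    have hab : ∀ x : ℝ, |e * x| = |x| := fun x => by rw [abs_mul, he, one_mul]
    have hinj : Function.Injective fun u : ℝ => e * (t - u) := fun a b hab => by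
      have := mul_left_cancel₀ he0 hab
      linarith
    have h1 := sep_half (S := ((S.erase t).filter (fun u => 0 < e * (t - u))).image
      fun u => e * (t - u)) (D := D) (by
        intro a ha b hb hne
        obtain ⟨u, hu, rfl⟩ := mem_image.1 ha
        obtain ⟨w, hw, rfl⟩ := mem_image.1 hb
        have hu' := mem_of_mem_erase (mem_filter.1 hu).1
        have hw' := mem_of_mem_erase (mem_filter.1 hw).1
        have := hS w hw' u hu' (fun h => hne (by rw [h]))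
        rwa [show e * (t - u) - e * (t - w) = e * (w - u) by ring, hab]) (by
        intro a ha
        obtain ⟨u, hu, rfl⟩ := mem_image.1 ha
        obtain ⟨hu1, hu2⟩ := mem_filter.1 hu
        have hu' := mem_erase.1 hu1
        rw [← abs_of_pos hu2, hab]
        exact ⟨hS t ht u hu'.2 hu'.1.symm, h u hu'.2⟩) hD
    rw [sum_image fun a _ b _ h => hinj h] at h1
    refine le_trans (le_of_eq (sum_congr rfl fun u hu => ?_)) h1
    rw [← abs_of_pos (mem_filter.1 hu).2, hab]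
  have h1 := key 1 abs_one
  have h2 := key (-1) (by simp)
  rw [← sum_filter_add_sum_filter_not (S.erase t) (fun u => 0 < 1 * (t - u))]
  have e : (S.erase t).filter (fun u => ¬ 0 < 1 * (t - u)) =
      (S.erase t).filter (fun u => 0 < -1 * (t - u)) := by
    refine filter_congr fun u hu => ?_
    have : u ≠ t := (mem_erase.1 hu).1
    constructor
    · intro h
      rcases lt_trichotomy u t with h' | h' | h'
      · exact absurd (by linarith) h
      · exact absurd h' this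
      · linarith
    · intro h
      linarith
  rw [e]
  linarith

lemma halasz (J : Finset ℕ) (b : ℕ → ℂ) (S : Finset ℝ) :
    (∑ t ∈ S, ‖∑ n ∈ J, b n * osc t n‖) ^ 2 ≤
      (∑ n ∈ J, ‖b n‖ ^ 2) * ∑ t ∈ S, ∑ s ∈ S, ‖∑ n ∈ J, osc (t - s) n‖ := by
  have hη : ∀ t : ℝ, ∃ η : ℂ, ‖η‖ ≤ 1 ∧
      η * ∑ n ∈ J, b n * osc t n = (‖∑ n ∈ J, b n * osc t n‖ : ℝ) := by
    intro t
    obtain ⟨η, h1, h2⟩ := exists_norm_eq_mul_self (∑ n ∈ J, b n * osc t n)
    exact ⟨η, h1.le, h2.symm⟩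
  choose η h1 h2 using hη
  have e1 : ((∑ t ∈ S, ‖∑ n ∈ J, b n * osc t n‖ : ℝ) : ℂ) =
      ∑ n ∈ J, b n * ∑ t ∈ S, η t * osc t n := by
    rw [ofReal_sum]
    simp_rw [← h2, mul_sum]
    rw [sum_comm]
    exact sum_congr rfl fun n _ => sum_congr rfl fun t _ => by ring
  have e2 : ∑ t ∈ S, ‖∑ n ∈ J, b n * osc t n‖ ≤ ∑ n ∈ J, ‖b n‖ * ‖∑ t ∈ S, η t * osc t n‖ := by
    have := congrArg norm e1
    rw [norm_real, Real.norm_of_nonneg (sum_nonneg fun _ _ => norm_nonneg _)] at this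
    rw [this]
    exact (norm_sum_le _ _).trans (le_of_eq (sum_congr rfl fun n _ => norm_mul _ _))
  have e3 : ((∑ n ∈ J, ‖∑ t ∈ S, η t * osc t n‖ ^ 2 : ℝ) : ℂ) =
      ∑ t ∈ S, ∑ s ∈ S, η t * (starRingEnd ℂ) (η s) * ∑ n ∈ J, osc (t - s) n := by
    rw [ofReal_sum]
    have : ∀ n : ℕ, ((‖∑ t ∈ S, η t * osc t n‖ ^ 2 : ℝ) : ℂ) =
        ∑ t ∈ S, ∑ s ∈ S, η t * (starRingEnd ℂ) (η s) * osc (t - s) n := by
      intro n
      rw [ofReal_pow, ← mul_conj', map_sum, sum_mul_sum]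
      refine sum_congr rfl fun t _ => sum_congr rfl fun s _ => ?_
      rw [map_mul, ← osc_mul_conj]
      ring
    simp_rw [this, mul_sum]
    rw [sum_comm]
    exact sum_congr rfl fun t _ => sum_comm
  have e4 : ∑ n ∈ J, ‖∑ t ∈ S, η t * osc t n‖ ^ 2 ≤
      ∑ t ∈ S, ∑ s ∈ S, ‖∑ n ∈ J, osc (t - s) n‖ := by
    have := congrArg norm e3
    rw [norm_real, Real.norm_of_nonneg (sum_nonneg fun _ _ => by positivity)] at this
    rw [this]
    refine (norm_sum_le _ _).trans (sum_le_sum fun t _ => (norm_sum_le _ _).trans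
      (sum_le_sum fun s _ => ?_))
    rw [norm_mul, norm_mul, norm_conj]
    exact mul_le_of_le_one_left (norm_nonneg _) (mul_le_one₀ (h1 t) (norm_nonneg _) (h1 s))
  calc _ ≤ (∑ n ∈ J, ‖b n‖ * ‖∑ t ∈ S, η t * osc t n‖) ^ 2 :=
        pow_le_pow_left₀ (sum_nonneg fun _ _ => norm_nonneg _) e2 2
    _ ≤ (∑ n ∈ J, ‖b n‖ ^ 2) * ∑ n ∈ J, ‖∑ t ∈ S, η t * osc t n‖ ^ 2 :=
        sum_mul_sq_le_sq_mul_sq _ _ _
    _ ≤ _ := mul_le_mul_of_nonneg_left e4 (sum_nonneg fun _ _ => by positivity)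

theorem near_of (h : ExpS) : Near := by
  classical
  obtain ⟨c, hc, N0, hE⟩ := h 1001
  set d : ℝ := min c (1 / 4) with hd
  have hd0 : 0 < d := lt_min hc (by norm_num)
  have hev : ∀ᶠ x : ℝ in atTop, 4 * 562 ^ 3 * Real.log x ^ 7 ≤ x ^ (d / 2) := by
    have h1 := (isLittleO_log_rpow_rpow_atTop (7 : ℝ) (by linarith : 0 < d / 2)).bound
      (by positivity : (0 : ℝ) < 1 / (4 * 562 ^ 3))
    filter_upwards [h1, eventually_ge_atTop 1] with x hx hx1
    rw [Real.norm_of_nonneg (Real.rpow_nonneg (Real.log_nonneg hx1) _),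
      Real.norm_of_nonneg (by positivity), show (7 : ℝ) = (7 : ℕ) by norm_num,
      Real.rpow_natCast] at hx
    linarith
  obtain ⟨Z1, hZ1⟩ := eventually_atTop.1 (tendsto_natCast_atTop_atTop.eventually hev)
  refine ⟨d / 4, by positivity, 8, 4 * 562 ^ 3 * 10031, max (max N0 Z1) 4, ?_⟩
  intro Z hZ N hZN hNZ b hb σ hσ1 hσ2 S hS hV
  have hZ4 : 4 ≤ Z := (le_max_right _ _).trans hZ
  have hZ0 : N0 ≤ Z := ((le_max_left _ _).trans (le_max_left _ _)).trans hZ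
  have hZ1' : Z1 ≤ Z := ((le_max_right _ _).trans (le_max_left _ _)).trans hZ
  have hZr : (4 : ℝ) ≤ Z := by exact_mod_cast hZ4
  have hZNr : (Z : ℝ) ≤ N := by exact_mod_cast hZN
  have hN1 : (1 : ℝ) ≤ N := by linarith
  have hN0 : (0 : ℝ) < N := by linarith
  set l := Real.log Z with hl
  have hl1 : 1 ≤ l := by
    rw [hl, Real.le_log_iff_exp_le (by linarith)]
    linarith [Real.exp_one_lt_d9]
  have hl2 : Real.log 2 ≤ 1 := by linarith [Real.log_two_lt_d9]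
  have hlN : Real.log N ≤ 560 * l := by
    have : (N : ℝ) ≤ (Z : ℝ) ^ 560 := by exact_mod_cast hNZ
    refine (Real.log_le_log hN0 this).trans (le_of_eq ?_)
    rw [Real.log_pow]
    norm_num [hl]
  have hG : ∑ n ∈ Ioc N (2 * N), ‖b n‖ ^ 2 ≤ 2 * 562 ^ 3 * N * l ^ 3 := by
    have hlog : 1 + Real.log ((2 * N : ℕ) : ℝ) ≤ 562 * l := by
      push_cast
      rw [Real.log_mul (by norm_num) hN0.ne']
      linarith
    have hlog0 : 0 ≤ 1 + Real.log ((2 * N : ℕ) : ℝ) := by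
      have := Real.log_natCast_nonneg (2 * N)
      linarith
    calc _ ≤ ∑ n ∈ Ioc N (2 * N), (#n.divisors : ℝ) ^ 2 :=
          sum_le_sum fun n _ => pow_le_pow_left₀ (norm_nonneg _) (hb n) 2
      _ ≤ ∑ n ∈ Icc 1 (2 * N), (#n.divisors : ℝ) ^ 2 := by
          refine sum_le_sum_of_subset_of_nonneg (fun n hn => ?_) fun _ _ _ => by positivity
          rw [mem_Ioc] at hn
          exact mem_Icc.2 ⟨by omega, hn.2⟩
      _ ≤ ((2 * N : ℕ) : ℝ) * (1 + Real.log ((2 * N : ℕ) : ℝ)) ^ 3 := sum_div_sq _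
      _ ≤ ((2 * N : ℕ) : ℝ) * (562 * l) ^ 3 := by gcongr
      _ = _ := by push_cast; ring
  have hP : (1 : ℝ) ≤ (Z : ℝ) ^ 1000 := one_le_pow₀ (by linarith)
  have hdiff : ∀ t ∈ S, ∀ s ∈ S, |t - s| ≤ 4 * (Z : ℝ) ^ 1000 := by
    intro t ht s hs
    have := abs_sub t s
    linarith [(hV t ht).1, (hV s hs).1]
  have hbig : 4 * (Z : ℝ) ^ 1000 ≤ (N : ℝ) ^ 1001 := by
    rw [pow_succ' (N : ℝ) 1000]
    have : (Z : ℝ) ^ 1000 ≤ (N : ℝ) ^ 1000 := pow_le_pow_left₀ (by linarith) hZNr _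
    exact mul_le_mul (by linarith) this (by positivity) hN0.le
  have hker : ∀ τ : ℝ, τ ≠ 0 → |τ| ≤ 4 * (Z : ℝ) ^ 1000 →
      ‖∑ n ∈ Ioc N (2 * N), osc τ n‖ ≤ 5 * N * (1 / |τ|) + (N : ℝ) ^ (1 - d) := by
    intro τ h0 h1
    have hp : 0 ≤ 5 * (N : ℝ) * (1 / |τ|) := by positivity
    rcases le_total ((N : ℝ) ^ (3 / 4 : ℝ)) |τ| with h2 | h2
    · have := hE N (hZ0.trans hZN) τ h2 (h1.trans hbig)
      rw [sum_congr rfl fun n hn => cpow_eq_osc τ (by have := (mem_Ioc.1 hn).1; omega)] at this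
      have h3 : (N : ℝ) ^ (1 - c) ≤ (N : ℝ) ^ (1 - d) :=
        Real.rpow_le_rpow_of_exponent_le hN1 (by linarith [min_le_left c (1 / 4)])
      linarith
    · have := Zs_small (N := N) (by omega) h0
      have h3 : (N : ℝ) ^ (3 / 4 : ℝ) ≤ (N : ℝ) ^ (1 - d) :=
        Real.rpow_le_rpow_of_exponent_le hN1 (by linarith [min_le_right c (1 / 4)])
      rw [mul_one_div]
      linarith
  have hrow : ∀ t ∈ S, ∑ s ∈ S, ‖∑ n ∈ Ioc N (2 * N), osc (t - s) n‖ ≤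
      10031 * N * l + #S * (N : ℝ) ^ (1 - d) := by
    intro t ht
    rw [← add_sum_erase _ _ ht]
    have a1 : ‖∑ n ∈ Ioc N (2 * N), osc (t - t) n‖ ≤ N := by
      refine (norm_sum_le _ _).trans (le_of_eq ?_)
      simp only [norm_osc, sum_const, Nat.card_Ioc, nsmul_eq_mul, mul_one]
      rw [show 2 * N - N = N by omega]
    have a2 : ∑ s ∈ S.erase t, ‖∑ n ∈ Ioc N (2 * N), osc (t - s) n‖ ≤
        ∑ s ∈ S.erase t, (5 * N * (1 / |t - s|) + (N : ℝ) ^ (1 - d)) :=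
      sum_le_sum fun s hs => hker _ (sub_ne_zero.2 (mem_erase.1 hs).1.symm)
        (hdiff t ht s (mem_erase.1 hs).2)
    rw [sum_add_distrib, ← mul_sum, sum_const, nsmul_eq_mul] at a2
    have a3 := sep_harm hS ht (D := 4 * (Z : ℝ) ^ 1000) (by linarith) (hdiff t ht)
    have a4 : Real.log (4 * (Z : ℝ) ^ 1000) ≤ 2 + 1000 * l := by
      rw [Real.log_mul (by norm_num) (by positivity), Real.log_pow,
        show (4 : ℝ) = 2 ^ 2 by norm_num, Real.log_pow]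
      push_cast
      linarith
    have a5 : (#(S.erase t) : ℝ) ≤ #S := by exact_mod_cast card_erase_le
    have a6 : (#(S.erase t) : ℝ) * (N : ℝ) ^ (1 - d) ≤ #S * (N : ℝ) ^ (1 - d) := by gcongr
    have a7 : 5 * (N : ℝ) * ∑ s ∈ S.erase t, 1 / |t - s| ≤ 5 * N * (2006 * l) := by
      gcongr
      linarith
    have a8 : (N : ℝ) ≤ N * l := le_mul_of_one_le_right hN0.le hl1
    linarith
  set V : ℝ := (N : ℝ) ^ σ / l ^ 2 with hVd
  have hV0 : 0 < V := by positivity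
  set R : ℝ := (#S : ℝ) with hR
  have hR0 : 0 ≤ R := Nat.cast_nonneg _
  have hlow : R * V ≤ ∑ t ∈ S, ‖∑ n ∈ Ioc N (2 * N), b n * osc t n‖ := by
    rw [hR, ← nsmul_eq_mul]
    refine card_nsmul_le_sum _ _ _ fun t ht => (hV t ht).2.trans (le_of_eq ?_)
    rw [BP, sum_congr rfl fun n hn => by
      rw [cpow_eq_osc t (by have := (mem_Ioc.1 hn).1; omega)]]
  have hmain : (R * V) ^ 2 ≤
      2 * 562 ^ 3 * N * l ^ 3 * (R * (10031 * N * l + R * (N : ℝ) ^ (1 - d))) := by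
    refine (pow_le_pow_left₀ (by positivity) hlow 2).trans ((halasz _ b S).trans ?_)
    refine mul_le_mul hG ?_ (sum_nonneg fun _ _ => sum_nonneg fun _ _ => norm_nonneg _)
      (by positivity)
    rw [hR, ← nsmul_eq_mul]
    exact sum_le_card_nsmul _ _ _ hrow
  have hV2 : V ^ 2 = (N : ℝ) ^ (2 * σ) / l ^ 4 := by
    rw [hVd, div_pow, ← Real.rpow_natCast, ← Real.rpow_mul hN0.le]
    push_cast
    ring_nf
  have hsm : 2 * (2 * 562 ^ 3 * N * l ^ 3 * (N : ℝ) ^ (1 - d)) ≤ V ^ 2 := by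
    rw [hV2, le_div_iff₀ (by positivity)]
    have b1 : 4 * 562 ^ 3 * l ^ 7 ≤ (N : ℝ) ^ (d / 2) :=
      (hZ1 Z hZ1').trans (Real.rpow_le_rpow (by linarith) hZNr (by linarith))
    have b2 : (N : ℝ) ^ (d / 2) * ((N : ℝ) ^ (1 : ℝ) * (N : ℝ) ^ (1 - d)) ≤ (N : ℝ) ^ (2 * σ) := by
      rw [← Real.rpow_add hN0, ← Real.rpow_add hN0]
      exact Real.rpow_le_rpow_of_exponent_le hN1 (by linarith)
    rw [Real.rpow_one] at b2
    calc _ = 4 * 562 ^ 3 * l ^ 7 * (N * (N : ℝ) ^ (1 - d)) := by ring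
      _ ≤ (N : ℝ) ^ (d / 2) * (N * (N : ℝ) ^ (1 - d)) := by gcongr
      _ ≤ _ := b2
  have hfin : R * V ^ 2 ≤ 4 * 562 ^ 3 * 10031 * (N : ℝ) ^ 2 * l ^ 4 := by
    rcases hR0.eq_or_lt with h0 | h0
    · rw [← h0, zero_mul]
      positivity
    · refine le_of_mul_le_mul_left ?_ h0
      have := mul_le_mul_of_nonneg_left hsm (sq_nonneg R)
      nlinarith
  have hpow : (N : ℝ) ^ (2 * (1 - σ)) * (N : ℝ) ^ (2 * σ) = (N : ℝ) ^ 2 := by
    rw [← Real.rpow_add hN0, ← Real.rpow_natCast]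
    congr 1
    push_cast
    ring
  rw [hV2, ← mul_div_assoc, div_le_iff₀ (by positivity)] at hfin
  rw [show (8 : ℝ) = (8 : ℕ) by norm_num, Real.rpow_natCast]
  refine le_of_mul_le_mul_right ?_ (Real.rpow_pos_of_pos hN0 (2 * σ))
  refine hfin.trans (le_of_eq ?_)
  rw [← hpow]
  ring

end Pool.Agent.Lib.MP_b09185_nt.Sh
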