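import Pool.Agent.Lib.MP_6a20cc_nt.Mertens

/-! The second and third theorems of Mertens. -/

namespace Pool.Agent.Lib.MP_b09185_nt.Mai

open Filter Topology Finset Nat

lemma sum_primesLE_succ (f : ℕ → ℝ) (n : ℕ) : ∑ p ∈ primesLE (n + 1), f p =
    ∑ p ∈ primesLE n, f p + if (n + 1).Prime then f (n + 1) else 0 := by
  rw [primesLE_eq_filter_range, primesLE_eq_filter_range, sum_filter, sum_filter, sum_range_succ]

/-- sum of reciprocals of the primes up to `x` -/
noncomputable def Rp (x : ℝ) : ℝ := ∑ p ∈ primesLE ⌊x⌋₊, 1 / (p : ℝ)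

lemma loglog_step {x w : ℝ} (hx : 1 < x) (h : x ≤ w) :
    (Real.log w - Real.log x) / Real.log w ≤ Real.log (Real.log w) - Real.log (Real.log x) ∧
    Real.log (Real.log w) - Real.log (Real.log x) ≤ (Real.log w - Real.log x) / Real.log x := by
  have h1 := Real.log_pos hx
  have h2 := Real.log_pos (hx.trans_le h)
  rw [← Real.log_div h2.ne' h1.ne']
  constructor
  · refine le_trans (le_of_eq ?_) (Real.one_sub_inv_le_log_of_pos (div_pos h2 h1))
    field_simp
  · refine (Real.log_le_sub_one_of_pos (div_pos h2 h1)).trans (le_of_eq ?_)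
    field_simp

lemma m2nat {N n : ℕ} (hN : 2 ≤ N) (h : N ≤ n) :
    |Rp n - Rp N - (Real.log (Real.log n) - Real.log (Real.log N))| ≤ 20 / Real.log N := by
  have hN' : (1 : ℝ) < N := by exact_mod_cast hN
  have hL := Real.log_pos hN'
  set F : ℕ → ℝ := fun j => 1 / Real.log (max j N : ℕ) with hF
  set G : ℕ → ℝ := fun j => if j ≤ N then Real.log j / Real.log N else
    1 + Real.log (Real.log j) - Real.log (Real.log N) with hG
  have hpos : ∀ j : ℕ, 0 < Real.log (max j N : ℕ) := fun j =>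
    Real.log_pos (hN'.trans_le (by exact_mod_cast le_max_right j N))
  have hF1 : ∀ j, F (j + 1) ≤ F j := fun j =>
    one_div_le_one_div_of_le (hpos j) (Real.log_le_log (by
      have : 0 < max j N := lt_of_lt_of_le (by omega) (le_max_right j N)
      exact_mod_cast this) (by exact_mod_cast max_le_max_right N (Nat.le_succ j)))
  have hF0 : ∀ j, 0 ≤ F j := fun j => (one_div_pos.2 (hpos j)).le
  have hG' : ∀ j, N ≤ j → G j = 1 + Real.log (Real.log j) - Real.log (Real.log N) := by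
    intro j hj
    simp only [hG]
    split_ifs with h1
    · obtain rfl : j = N := le_antisymm h1 hj
      field_simp
      ring
    · rfl
  have hstep : ∀ j : ℕ,
      (Real.log ((j + 1 : ℕ) : ℝ) - Real.log j) * F (j + 1) ≤ G (j + 1) - G j ∧
      G (j + 1) - G j ≤ (Real.log ((j + 1 : ℕ) : ℝ) - Real.log j) * F j := by
    intro j
    rcases lt_or_ge j N with hj | hj
    · simp only [hF, hG, if_pos hj.le, if_pos (Nat.succ_le_of_lt hj), max_eq_right hj.le,
        max_eq_right (Nat.succ_le_of_lt hj)]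
      constructor <;> exact le_of_eq (by ring)
    · rw [hG' j hj, hG' (j + 1) (by omega)]
      simp only [hF, max_eq_left hj, max_eq_left (hj.trans (Nat.le_succ j)), mul_one_div]
      have := loglog_step (x := j) (w := (j + 1 : ℕ)) (hN'.trans_le (by exact_mod_cast hj))
        (by exact_mod_cast Nat.le_succ j)
      constructor <;> linarith [this.1, this.2]
  have hup := MP_6a20cc_nt.abel_upper F G hF1 hF0 (fun j => (hstep j).1) n
  have hlo := MP_6a20cc_nt.abel_lower F G hF1 hF0 (fun j => (hstep j).2) n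
  have hG0 : G 0 = 0 := by simp [hG]
  have hF00 : F 0 = 1 / Real.log N := by simp [hF]
  have hdec : ∀ m, N ≤ m → ∑ p ∈ primesLE m, Real.log p / p * F p =
      (∑ p ∈ primesLE N, Real.log p / p) / Real.log N + (Rp m - Rp N) := by
    intro m hm
    induction m, hm using Nat.le_induction with
    | base =>
      rw [sub_self, add_zero, sum_div]
      refine sum_congr rfl fun p hp => ?_
      simp only [hF, max_eq_right (mem_primesLE.1 hp).1, mul_one_div]
    | succ m hm ih =>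
      simp only [Rp, Nat.floor_natCast] at ih ⊢
      rw [sum_primesLE_succ, sum_primesLE_succ, ih]
      have := hpos (m + 1)
      simp only [hF, max_eq_left (hm.trans (Nat.le_succ m))] at this ⊢
      split_ifs
      · field_simp
        ring
      · ring
  rw [hdec n h, hG0, hF00] at hup hlo
  rw [hG' n h] at hup
  have hm : G n ≤ G (n + 1) := by
    have := (hstep n).1
    have := mul_nonneg (sub_nonneg.2 (MP_6a20cc_nt.log_succ_ge n)) (hF0 (n + 1))
    linarith
  rw [hG' n h] at hm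
  have a1 : (∑ p ∈ primesLE N, Real.log p / p) / Real.log N ≤ 1 + 10 / Real.log N := by
    rw [div_le_iff₀ hL, add_mul, div_mul_cancel₀ _ hL.ne']
    linarith [MP_6a20cc_nt.sum0_upper N]
  have a2 : 1 - 10 / Real.log N ≤ (∑ p ∈ primesLE N, Real.log p / p) / Real.log N := by
    rw [le_div_iff₀ hL, sub_mul, div_mul_cancel₀ _ hL.ne']
    linarith [MP_6a20cc_nt.mertens_lower N]
  have e : 20 / Real.log N = 10 / Real.log N + 10 * (1 / Real.log N) := by ring
  rw [abs_le]
  constructor <;> linarith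

lemma loglog_floor {x : ℝ} (hx : 4 ≤ x) : Real.log x ≤ 2 * Real.log ⌊x⌋₊ ∧
    0 ≤ Real.log (Real.log x) - Real.log (Real.log ⌊x⌋₊) ∧
    Real.log (Real.log x) - Real.log (Real.log ⌊x⌋₊) ≤ 1 / Real.log ⌊x⌋₊ := by
  have h1 : (4 : ℝ) ≤ ⌊x⌋₊ := by exact_mod_cast Nat.le_floor (n := 4) (by exact_mod_cast hx)
  have h2 := Nat.lt_floor_add_one x
  have h3 := Nat.floor_le (by linarith : 0 ≤ x)
  have h4 := Real.log_pos (by linarith : (1 : ℝ) < ⌊x⌋₊)
  have h5 : Real.log x ≤ Real.log (2 * ⌊x⌋₊) := Real.log_le_log (by linarith) (by linarith)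
  rw [Real.log_mul (by norm_num) (by linarith)] at h5
  have h6 : Real.log 2 ≤ Real.log ⌊x⌋₊ := Real.log_le_log (by norm_num) (by linarith)
  have h7 := loglog_step (x := ⌊x⌋₊) (w := x) (by linarith) h3
  have h8 : Real.log ⌊x⌋₊ ≤ Real.log x := Real.log_le_log (by linarith) h3
  refine ⟨by linarith, sub_nonneg.2 (Real.log_le_log h4 h8), h7.2.trans ?_⟩
  gcongr
  linarith [Real.log_two_lt_d9]

lemma m2 {x w : ℝ} (hx : 4 ≤ x) (h : x ≤ w) :
    |Rp w - Rp x - (Real.log (Real.log w) - Real.log (Real.log x))| ≤ 42 / Real.log x := by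
  have h1 : 4 ≤ ⌊x⌋₊ := Nat.le_floor (n := 4) (by exact_mod_cast hx)
  have h0 := m2nat (N := ⌊x⌋₊) (n := ⌊w⌋₊) (by omega) (Nat.floor_mono h)
  obtain ⟨a1, a2, a3⟩ := loglog_floor hx
  obtain ⟨-, b2, b3⟩ := loglog_floor (hx.trans h)
  have h2 : (4 : ℝ) ≤ ⌊x⌋₊ := by exact_mod_cast h1
  have h4 := Real.log_pos (by linarith : (1 : ℝ) < ⌊x⌋₊)
  have b4 : 1 / Real.log ⌊w⌋₊ ≤ 1 / Real.log ⌊x⌋₊ :=
    one_div_le_one_div_of_le h4 (Real.log_le_log (by linarith)
      (by exact_mod_cast Nat.floor_mono h))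
  have h5 : 21 * (1 / Real.log ⌊x⌋₊) ≤ 42 / Real.log x := by
    rw [mul_one_div, div_le_div_iff₀ h4 (Real.log_pos (by linarith))]
    linarith
  have e : 20 / Real.log ⌊x⌋₊ = 20 * (1 / Real.log ⌊x⌋₊) := by ring
  simp only [Rp, Nat.floor_natCast] at h0 ⊢
  rw [abs_le] at h0 ⊢
  constructor <;> linarith [h0.1, h0.2]

lemma m2_lim : ∃ M, Tendsto (fun x => Rp x - Real.log (Real.log x)) atTop (𝓝 M) := by
  apply cauchySeq_tendsto_of_complete
  rw [Metric.cauchySeq_iff']
  intro ε hε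
  have t : Tendsto (fun x : ℝ => 42 / Real.log x) atTop (𝓝 0) :=
    Real.tendsto_log_atTop.const_div_atTop 42
  obtain ⟨x, h1, h2⟩ := ((t.eventually (gt_mem_nhds hε)).and (eventually_ge_atTop 4)).exists
  refine ⟨x, fun w hw => lt_of_le_of_lt ?_ h1⟩
  rw [Real.dist_eq]
  rw [show Rp w - Real.log (Real.log w) - (Rp x - Real.log (Real.log x)) =
    Rp w - Rp x - (Real.log (Real.log w) - Real.log (Real.log x)) by ring]
  exact m2 h2 hw

noncomputable def hh (t : ℝ) : ℝ := -Real.log (1 - t) - t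

lemma hh_bound {t : ℝ} (h1 : t ≤ 1 / 2) : |hh t| ≤ 2 * t ^ 2 := by
  have a1 := Real.log_le_sub_one_of_pos (by linarith : 0 < 1 - t)
  have a2 := Real.one_sub_inv_le_log_of_pos (by linarith : 0 < 1 - t)
  have a3 : (1 - t)⁻¹ ≤ 1 + t + 2 * t ^ 2 := by
    rw [inv_le_iff_one_le_mul₀ (by linarith)]
    nlinarith [mul_nonneg (sq_nonneg t) (by linarith : 0 ≤ 1 - 2 * t)]
  rw [hh, abs_le]
  constructor <;> nlinarith

noncomputable def gp (f : ℝ → ℝ) (s : ℝ) (n : ℕ) : ℝ := if n.Prime then f ((n : ℝ) ^ (-s)) else 0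

lemma rpow_small {s : ℝ} (hs : 1 ≤ s) {n : ℕ} (hn : n.Prime) :
    0 ≤ (n : ℝ) ^ (-s) ∧ (n : ℝ) ^ (-s) ≤ (n : ℝ)⁻¹ ∧ (n : ℝ)⁻¹ ≤ 1 / 2 := by
  have h2 : (2 : ℝ) ≤ n := by exact_mod_cast hn.two_le
  refine ⟨by positivity, ?_, ?_⟩
  · rw [← Real.rpow_neg_one]
    exact Real.rpow_le_rpow_of_exponent_le (by linarith) (by linarith)
  · rw [one_div]
    exact inv_anti₀ (by norm_num) h2

lemma gp_hh_le {s : ℝ} (hs : 1 ≤ s) (n : ℕ) : ‖gp hh s n‖ ≤ 2 * ((n : ℝ) ^ 2)⁻¹ := by
  rw [gp]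
  split_ifs with hn
  · obtain ⟨a1, a2, a3⟩ := rpow_small hs hn
    refine (hh_bound (a2.trans a3)).trans ?_
    rw [← inv_pow]
    gcongr
  · simp

lemma summable_sq : Summable fun n : ℕ => 2 * ((n : ℝ) ^ 2)⁻¹ :=
  (Real.summable_nat_pow_inv.2 one_lt_two).mul_left _

lemma gp_id_nonneg (s : ℝ) (n : ℕ) : 0 ≤ gp id s n := by
  rw [gp]; split_ifs
  · exact Real.rpow_nonneg (Nat.cast_nonneg n) _
  · exact le_rfl

lemma summable_gp_id {s : ℝ} (hs : 1 < s) : Summable (gp id s) := by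
  refine Summable.of_nonneg_of_le (fun n => ?_) (fun n => ?_)
    (Real.summable_nat_rpow.2 (by linarith : -s < -1))
  · exact gp_id_nonneg s n
  · rw [gp]; split_ifs
    · exact le_rfl
    · positivity

lemma log_zeta {s : ℝ} (hs : 1 < s) :
    Real.log (riemannZeta s).re = ∑' n, gp id s n + ∑' n, gp hh s n := by
  rw [← (summable_gp_id hs).tsum_add (Summable.of_norm_bounded summable_sq (gp_hh_le hs.le)),
    ← riemannZeta_eulerProduct_exp_log (by simpa using hs)]
  have e : ∑' p : Nat.Primes, -Complex.log (1 - (p : ℂ) ^ (-(s : ℂ))) =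
      ((∑' n, (gp id s n + gp hh s n) : ℝ) : ℂ) := by
    have e1 : ∑' n, (gp id s n + gp hh s n) =
        ∑' p : Nat.Primes, -Real.log (1 - ((p : ℕ) : ℝ) ^ (-s)) := by
      refine Eq.trans ?_ (tsum_subtype {n : ℕ | n.Prime}
        fun n => -Real.log (1 - (n : ℝ) ^ (-s))).symm
      refine tsum_congr fun n => ?_
      simp only [gp, hh, Set.indicator_apply, Set.mem_ofPred_eq, id]
      split_ifs <;> ring
    rw [e1, Complex.ofReal_tsum]
    refine tsum_congr fun p => ?_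
    obtain ⟨a1, a2, a3⟩ := rpow_small hs.le p.2
    rw [Complex.ofReal_neg, Complex.ofReal_log (by linarith)]
    push_cast
    rw [Complex.ofReal_cpow (Nat.cast_nonneg _)]
    simp
  rw [e, Complex.exp_ofReal_re, Real.log_exp]

lemma tendsto_hh : Tendsto (fun s => ∑' n, gp hh s n) (𝓝[>] 1) (𝓝 (∑' n, gp hh 1 n)) := by
  refine tendsto_tsum_of_dominated_convergence summable_sq (fun n => ?_)
    (eventually_nhdsWithin_of_forall fun s hs => gp_hh_le (le_of_lt hs))
  unfold gp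
  split_ifs with hn
  · obtain ⟨a1, a2, a3⟩ := rpow_small le_rfl hn
    refine Tendsto.mono_left (ContinuousAt.tendsto ?_) nhdsWithin_le_nhds
    have h1 : ContinuousAt (fun s : ℝ => (n : ℝ) ^ (-s)) 1 :=
      (Real.continuousAt_const_rpow (by exact_mod_cast hn.ne_zero)).comp continuousAt_id.neg
    unfold hh
    exact ((continuousAt_const.sub h1).log (by
      show (1 : ℝ) - (n : ℝ) ^ (-1 : ℝ) ≠ 0
      linarith)).neg.sub h1
  · exact tendsto_const_nhds

noncomputable def blk (j : ℕ) : ℝ := Rp (Real.exp (j + 1 : ℕ)) - Rp (Real.exp j)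

lemma sum_primes_Ioc (f : ℕ → ℝ) {a b : ℕ} (h : a ≤ b) :
    ∑ p ∈ primesLE b, f p - ∑ p ∈ primesLE a, f p = ∑ n ∈ Ioc a b, if n.Prime then f n else 0 := by
  induction b, h using Nat.le_induction with
  | base => simp
  | succ b hb ih => rw [sum_primesLE_succ, sum_Ioc_succ_top hb, ← ih]; ring

lemma blk_sum (n : ℕ) : ∑ j ∈ range n, blk j = Rp (Real.exp n) := by
  unfold blk
  rw [sum_range_sub (fun j : ℕ => Rp (Real.exp j))]
  simp [Rp]

lemma blk_cmp {σ : ℝ} (hσ : 0 < σ) (n : ℕ) :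
    Real.exp (-σ) * ∑ j ∈ range n, blk j * Real.exp (-σ) ^ j ≤
      ∑ p ∈ primesLE ⌊Real.exp n⌋₊, (p : ℝ) ^ (-(1 + σ)) ∧
    ∑ p ∈ primesLE ⌊Real.exp n⌋₊, (p : ℝ) ^ (-(1 + σ)) ≤
      ∑ j ∈ range n, blk j * Real.exp (-σ) ^ j := by
  induction n with
  | zero => simp
  | succ n ih =>
    have hm : ⌊Real.exp n⌋₊ ≤ ⌊Real.exp (n + 1 : ℕ)⌋₊ :=
      Nat.floor_mono (Real.exp_le_exp.2 (by push_cast; linarith))
    have h1 := sum_primes_Ioc (fun p => (p : ℝ) ^ (-(1 + σ))) hm
    have h2 : blk n = _ := sum_primes_Ioc (fun p => 1 / (p : ℝ)) hm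
    have h3 : ∀ m ∈ Ioc ⌊Real.exp n⌋₊ ⌊Real.exp (n + 1 : ℕ)⌋₊,
        (if m.Prime then 1 / (m : ℝ) else 0) * (Real.exp (-σ) * Real.exp (-σ) ^ n) ≤
          (if m.Prime then (m : ℝ) ^ (-(1 + σ)) else 0) ∧
        (if m.Prime then (m : ℝ) ^ (-(1 + σ)) else 0) ≤
          (if m.Prime then 1 / (m : ℝ) else 0) * Real.exp (-σ) ^ n := by
      intro m hm
      rw [mem_Ioc, Nat.floor_lt (Real.exp_pos _).le, Nat.le_floor_iff (Real.exp_pos _).le] at hm
      have m0 : (0 : ℝ) < m := (Real.exp_pos _).trans hm.1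
      have a1 := (Real.lt_log_iff_exp_lt m0).2 hm.1
      have a2 := (Real.log_le_iff_le_exp m0).2 hm.2
      push_cast at a2
      have e : (m : ℝ) ^ (-(1 + σ)) = 1 / m * Real.exp (-σ * Real.log m) := by
        rw [neg_add, Real.rpow_add m0, Real.rpow_neg_one, Real.rpow_def_of_pos m0, one_div,
          mul_comm (Real.log m)]
      split_ifs
      · rw [e, ← Real.exp_nat_mul, ← Real.exp_add]
        constructor <;> exact mul_le_mul_of_nonneg_left (Real.exp_le_exp.2 (by nlinarith))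
          (by positivity)
      · simp
    have h4 := sum_le_sum fun m hm => (h3 m hm).1
    have h5 := sum_le_sum fun m hm => (h3 m hm).2
    rw [← sum_mul, ← h2, ← h1] at h4 h5
    rw [sum_range_succ]
    constructor <;> linarith [ih.1, ih.2]

lemma tendsto_primesum {f : ℕ → ℝ} (hf : Summable fun n => if n.Prime then f n else 0) :
    Tendsto (fun x : ℝ => ∑ p ∈ primesLE ⌊x⌋₊, f p) atTop (𝓝 (∑' n, if n.Prime then f n else 0)) := by
  simp only [primesLE_eq_filter_range, sum_filter]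
  exact hf.hasSum.tendsto_sum_nat.comp ((tendsto_add_atTop_nat 1).comp tendsto_nat_floor_atTop)

lemma blk_nonneg (j : ℕ) : 0 ≤ blk j := by
  rw [blk, Rp, Rp, sum_primes_Ioc _ (Nat.floor_mono (Real.exp_le_exp.2 (by push_cast; linarith)))]
  exact sum_nonneg fun n _ => by split_ifs <;> positivity

lemma abel_cmp {σ : ℝ} (hσ : 0 < σ) : Summable (fun j => blk j * Real.exp (-σ) ^ j) ∧
    Real.exp (-σ) * ∑' j, blk j * Real.exp (-σ) ^ j ≤ ∑' n, gp id (1 + σ) n ∧
    ∑' n, gp id (1 + σ) n ≤ ∑' j, blk j * Real.exp (-σ) ^ j := by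
  have hs := summable_gp_id (s := 1 + σ) (by linarith)
  have t1 := (tendsto_primesum (f := fun p => (p : ℝ) ^ (-(1 + σ))) hs).comp
    (Real.tendsto_exp_atTop.comp tendsto_natCast_atTop_atTop)
  have hle : ∀ n : ℕ, ∑ p ∈ primesLE ⌊Real.exp n⌋₊, (p : ℝ) ^ (-(1 + σ)) ≤ ∑' n, gp id (1 + σ) n := by
    intro n
    rw [primesLE_eq_filter_range, sum_filter]
    exact hs.sum_le_tsum _ fun n _ => gp_id_nonneg _ n
  have hsum : Summable (fun j => blk j * Real.exp (-σ) ^ j) :=
    summable_of_sum_range_le (c := (∑' n, gp id (1 + σ) n) / Real.exp (-σ))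
      (fun j => mul_nonneg (blk_nonneg j) (by positivity)) fun n => by
        rw [le_div_iff₀' (Real.exp_pos _)]
        exact (blk_cmp hσ n).1.trans (hle n)
  have t2 := hsum.hasSum.tendsto_sum_nat
  exact ⟨hsum, le_of_tendsto' (t2.const_mul _) fun n => (blk_cmp hσ n).1.trans (hle n),
    le_of_tendsto_of_tendsto' t1 t2 fun n => (blk_cmp hσ n).2⟩

lemma m2_const {M : ℝ} (hM : Tendsto (fun x => Rp x - Real.log (Real.log x)) atTop (𝓝 M)) :
    M = Real.eulerMascheroniConstant - ∑' n, gp hh 1 n := by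
  have t1 : Tendsto (fun n => ∑ j ∈ range n, (blk j - 1 / ((j : ℝ) + 1))) atTop
      (𝓝 (M - Real.eulerMascheroniConstant)) := by
    refine ((hM.comp (Real.tendsto_exp_atTop.comp tendsto_natCast_atTop_atTop)).sub
      Real.tendsto_harmonic_sub_log).congr fun n => ?_
    simp only [Function.comp_apply, Real.log_exp, sum_sub_distrib, blk_sum, harmonic]
    push_cast
    simp only [one_div]
    ring
  have tq : Tendsto (fun σ : ℝ => Real.exp (-σ)) (𝓝[>] 0) (𝓝[<] 1) := by
    refine tendsto_nhdsWithin_iff.2 ⟨?_, eventually_nhdsWithin_of_forall fun σ hσ => ?_⟩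
    · have : Tendsto (fun σ : ℝ => Real.exp (-σ)) (𝓝 0) (𝓝 (Real.exp (-0))) :=
        (by fun_prop : Continuous fun σ : ℝ => Real.exp (-σ)).tendsto 0
      simpa using this.mono_left nhdsWithin_le_nhds
    · exact Real.exp_lt_one_iff.2 (by simpa using hσ)
  have tq1 : Tendsto (fun σ : ℝ => Real.exp (-σ)) (𝓝[>] 0) (𝓝 1) := tq.mono_right nhdsWithin_le_nhds
  have t2 := (Real.tendsto_tsum_powerSeries_nhdsWithin_lt t1).comp tq
  have ts : Tendsto (fun σ : ℝ => 1 + σ) (𝓝[>] 0) (𝓝[>] 1) := by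
    refine tendsto_nhdsWithin_iff.2 ⟨?_, eventually_nhdsWithin_of_forall fun σ hσ => ?_⟩
    · have : Tendsto (fun σ : ℝ => 1 + σ) (𝓝 0) (𝓝 (1 + 0)) :=
        (by fun_prop : Continuous fun σ : ℝ => 1 + σ).tendsto 0
      simpa using this.mono_left nhdsWithin_le_nhds
    · simpa using hσ
  have t3 := ((Asymptotics.isLittleO_one_iff ℝ).1
    log_riemannZeta_add_log_sub_isLittleO_ofReal).comp ts
  have t4 := tendsto_hh.comp ts
  -- the prime sum plus log
  have tP : Tendsto (fun σ : ℝ => ∑' n, gp id (1 + σ) n + Real.log σ) (𝓝[>] 0)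
      (𝓝 (0 - ∑' n, gp hh 1 n)) := by
    refine (t3.sub t4).congr' (eventually_nhdsWithin_of_forall fun σ hσ => ?_)
    have hσ : 0 < σ := hσ
    simp only [Function.comp_apply, add_sub_cancel_left]
    rw [log_zeta (by linarith)]
    ring
  have t5 : Tendsto (fun σ : ℝ => Real.log (1 - Real.exp (-σ)) - Real.log σ) (𝓝[>] 0) (𝓝 0) := by
    have hd : HasDerivAt (fun σ : ℝ => 1 - Real.exp (-σ)) 1 0 := by
      simpa using ((hasDerivAt_id (0 : ℝ)).neg.exp).const_sub 1
    have := (hd.tendsto_slope_zero_right.log one_ne_zero)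
    rw [Real.log_one] at this
    refine this.congr' (eventually_nhdsWithin_of_forall fun σ hσ => ?_)
    have hσ : 0 < σ := hσ
    have h1 : Real.exp (-σ) < 1 := Real.exp_lt_one_iff.2 (by linarith)
    simp only [zero_add, neg_zero, Real.exp_zero, sub_self, sub_zero, smul_eq_mul]
    rw [Real.log_mul (by positivity) (by linarith), Real.log_inv]
    ring
  have t6 : Tendsto (fun σ : ℝ => (1 - Real.exp (-σ)) * Real.log σ) (𝓝[>] 0) (𝓝 0) := by
    have h1 : Tendsto (fun σ : ℝ => σ * Real.log σ) (𝓝[>] 0) (𝓝 0) := by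
      simpa using (Real.continuous_mul_log.tendsto 0).mono_left nhdsWithin_le_nhds
    refine squeeze_zero_norm' (eventually_nhdsWithin_of_forall fun σ hσ => ?_)
      (tendsto_zero_iff_norm_tendsto_zero.1 h1)
    have hσ : 0 < σ := hσ
    have h2 : Real.exp (-σ) < 1 := Real.exp_lt_one_iff.2 (by linarith)
    rw [norm_mul, norm_mul, Real.norm_of_nonneg (by linarith), Real.norm_of_nonneg hσ.le]
    gcongr
    linarith [Real.add_one_le_exp (-σ)]
  -- q times the block series plus log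
  have tQ : Tendsto (fun σ : ℝ => Real.exp (-σ) * ∑' j, blk j * Real.exp (-σ) ^ j + Real.log σ)
      (𝓝[>] 0) (𝓝 (1 * (M - Real.eulerMascheroniConstant) - 0)) := by
    refine ((tq1.mul t2).sub t5).congr' (eventually_nhdsWithin_of_forall fun σ hσ => ?_)
    have hσ : 0 < σ := hσ
    have h2 : Real.exp (-σ) < 1 := Real.exp_lt_one_iff.2 (by linarith)
    have h3 := Real.hasSum_pow_div_log_of_abs_lt_one (x := Real.exp (-σ))
      (by rwa [abs_of_pos (Real.exp_pos _)])
    have h4 := ((abel_cmp hσ).1.hasSum.mul_left (Real.exp (-σ))).sub h3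
    simp only [Function.comp_apply]
    have h5 : HasSum (fun j : ℕ => Real.exp (-σ) * ((blk j - 1 / ((j : ℝ) + 1)) * Real.exp (-σ) ^ j))
        (Real.exp (-σ) * ∑' j, blk j * Real.exp (-σ) ^ j - -Real.log (1 - Real.exp (-σ))) := by
      refine h4.congr_fun fun j => ?_
      ring
    rw [← tsum_mul_left, h5.tsum_eq]
    ring
  have k1 := le_of_tendsto_of_tendsto tQ tP (eventually_nhdsWithin_of_forall fun σ hσ => by
    have := (abel_cmp (σ := σ) hσ).2.1
    simp only
    linarith)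
  have k2 := le_of_tendsto_of_tendsto ((tq1.mul tP).add t6) tQ
    (eventually_nhdsWithin_of_forall fun σ hσ => by
      have := mul_le_mul_of_nonneg_left (abel_cmp (σ := σ) hσ).2.2 (Real.exp_pos (-σ)).le
      simp only
      linarith)
  linarith

/-- the Mertens product -/
noncomputable def Th (x : ℝ) : ℝ := ∏ p ∈ primesLE ⌊x⌋₊, (1 - 1 / (p : ℝ))

lemma factor_pos {p : ℕ} (hp : p.Prime) : 0 < 1 - 1 / (p : ℝ) := by
  have := (rpow_small le_rfl hp).2.2
  rw [one_div]
  linarith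

lemma Th_pos (x : ℝ) : 0 < Th x := prod_pos fun _ hp => factor_pos (mem_primesLE.1 hp).2

theorem m3 : Tendsto (fun x => Th x * Real.log x) atTop
    (𝓝 (Real.exp (-Real.eulerMascheroniConstant))) := by
  obtain ⟨M, hM⟩ := m2_lim
  have h1 := tendsto_primesum (f := fun p => hh ((p : ℝ) ^ (-1 : ℝ)))
    (Summable.of_norm_bounded summable_sq (gp_hh_le le_rfl))
  have h2 := (Real.continuous_exp.tendsto _).comp (hM.add h1).neg
  have e : -(M + ∑' n : ℕ, if n.Prime then hh ((n : ℝ) ^ (-1 : ℝ)) else 0) =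
      -Real.eulerMascheroniConstant := by
    rw [m2_const hM]
    simp only [gp]
    ring
  rw [e] at h2
  refine h2.congr' ?_
  filter_upwards [eventually_gt_atTop 1] with x hx
  rw [Function.comp_apply, ← Real.exp_log (mul_pos (Th_pos x) (Real.log_pos hx)),
    Real.log_mul (Th_pos x).ne' (Real.log_pos hx).ne', Th,
    Real.log_prod fun p hp => (factor_pos (mem_primesLE.1 hp).2).ne']
  simp only [Rp, hh, Real.rpow_neg_one, one_div, sum_sub_distrib, sum_neg_distrib]
  congr 1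
  ring

lemma m3_pow {β : ℝ} (hβ : 0 < β) : Tendsto (fun z => Th (z ^ β) * Real.log z) atTop
    (𝓝 (Real.exp (-Real.eulerMascheroniConstant) / β)) := by
  refine ((m3.comp (tendsto_rpow_atTop hβ)).div_const β).congr' ?_
  filter_upwards [eventually_gt_atTop 0] with z hz
  simp only [Function.comp_apply, Real.log_rpow hz]
  field_simp

lemma totient_prod {s : Finset ℕ} (hs : ∀ p ∈ s, p.Prime) :
    ((∏ p ∈ s, p).totient : ℝ) / ((∏ p ∈ s, p : ℕ) : ℝ) = ∏ p ∈ s, (1 - 1 / (p : ℝ)) := by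
  have h := Nat.totient_eq_mul_prod_factors (∏ p ∈ s, p)
  rw [Nat.primeFactors_prod hs] at h
  have h2 := congrArg (fun q : ℚ => (q : ℝ)) h
  have h3 : ((∏ p ∈ s, p : ℕ) : ℝ) ≠ 0 := by
    exact_mod_cast prod_ne_zero_iff.2 fun p hp => (hs p hp).ne_zero
  simp only [Rat.cast_natCast, Rat.cast_mul, Rat.cast_prod, Rat.cast_sub, Rat.cast_one,
    Rat.cast_inv] at h2
  rw [h2, mul_div_cancel_left₀ _ h3]
  simp only [one_div]

lemma prod_primes_dvd {s : Finset ℕ} {n : ℕ} (hs : s ⊆ primesLE n) :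
    Squarefree (∏ p ∈ s, p) ∧ ((∏ p ∈ s, p : ℕ) : ℝ) ≤ Real.exp (2 * n) := by
  have hd : ∏ p ∈ s, p ∣ primorial n := prod_dvd_prod_of_subset _ _ _ hs
  refine ⟨(squarefree_primorial n).squarefree_of_dvd hd, ?_⟩
  have h1 : ((∏ p ∈ s, p : ℕ) : ℝ) ≤ 4 ^ n := by
    exact_mod_cast (Nat.le_of_dvd (primorial_pos n) hd).trans (primorial_le_four_pow n)
  refine h1.trans ?_
  rw [mul_comm, Real.exp_nat_mul]
  gcongr
  have h : Real.exp 2 = Real.exp 1 * Real.exp 1 := by rw [← Real.exp_add]; norm_num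
  nlinarith [Real.add_one_le_exp 1]

end Pool.Agent.Lib.MP_b09185_nt.Mai
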