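import Mathlib
import Pool.Agent.Lib.MP_6a20cc_nt.Mertens

/-! The fundamental lemma of the sieve for an interval and arbitrary residue classes. -/

namespace Pool.Agent.Lib.MP_b09185_nt

open Finset Nat
open Pool.Agent.Lib.MP_6a20cc_nt

/-- density of survivors -/
noncomputable def th (N : ℕ) : ℝ := ∏ p ∈ primesLE N, (1 - 1 / (p : ℝ))

/-- sieve count -/
def cnt (c : ℕ → ℕ) (x H : ℕ) (Q : Finset ℕ) (N : ℕ) : ℕ :=
  #{n ∈ Ioc x (x + H) | (∀ q ∈ Q, n ≡ c q [MOD q]) ∧ ∀ q ∈ primesLE N, ¬ n ≡ c q [MOD q]}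

lemma factor_pos {p : ℕ} (hp : p.Prime) : 0 < 1 - 1 / (p : ℝ) := by
  have : (2 : ℝ) ≤ p := by exact_mod_cast hp.two_le
  have : 1 / (p : ℝ) ≤ 1 / 2 := one_div_le_one_div_of_le (by norm_num) this
  linarith

lemma factor_ge {p : ℕ} (hp : p.Prime) : Real.exp (-(2 * (1 / (p : ℝ)))) ≤ 1 - 1 / (p : ℝ) := by
  have h : (2 : ℝ) ≤ p := by exact_mod_cast hp.two_le
  have h1 : 1 / (p : ℝ) ≤ 1 / 2 := one_div_le_one_div_of_le (by norm_num) h
  have h0 : 0 ≤ 1 / (p : ℝ) := by positivity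
  set t := 1 / (p : ℝ)
  have h2 := Real.add_one_le_exp (2 * t)
  rw [Real.exp_neg, inv_le_iff_one_le_mul₀ (Real.exp_pos _)]
  nlinarith

lemma th_pos (N : ℕ) : 0 < th N :=
  prod_pos fun _ hp => factor_pos (prime_of_mem_primesLE hp)

lemma prod_factor_ge {P : Finset ℕ} (hP : ∀ p ∈ P, p.Prime) :
    Real.exp (-(2 * ∑ p ∈ P, 1 / (p : ℝ))) ≤ ∏ p ∈ P, (1 - 1 / (p : ℝ)) := by
  rw [mul_sum, ← sum_neg_distrib, Real.exp_sum]
  exact prod_le_prod (fun _ _ => (Real.exp_pos _).le) fun p hp => factor_ge (hP p hp)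

lemma prod_factor_le_one {P : Finset ℕ} (hP : ∀ p ∈ P, p.Prime) :
    ∏ p ∈ P, (1 - 1 / (p : ℝ)) ≤ 1 :=
  prod_le_one (fun p hp => (factor_pos (hP p hp)).le) fun p _ => by
    have : 0 ≤ 1 / (p : ℝ) := by positivity
    linarith

lemma th_split {M N : ℕ} (h : M ≤ N) :
    th N = th M * ∏ p ∈ primesLE N \ primesLE M, (1 - 1 / (p : ℝ)) := by
  rw [th, th, mul_comm, prod_sdiff (primesLE_mono h)]

lemma th_anti {M N : ℕ} (h : M ≤ N) : th N ≤ th M := by
  rw [th_split h]
  exact mul_le_of_le_one_right (th_pos M).le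
    (prod_factor_le_one fun p hp => prime_of_mem_primesLE (mem_sdiff.1 hp).1)

lemma th_le_one (N : ℕ) : th N ≤ 1 := prod_factor_le_one fun _ hp => prime_of_mem_primesLE hp

lemma crt (c : ℕ → ℕ) (Q : Finset ℕ) (hQ : ∀ q ∈ Q, q.Prime) :
    ∃ r, ∀ n, (∀ q ∈ Q, n ≡ c q [MOD q]) ↔ n ≡ r [MOD ∏ q ∈ Q, q] := by
  induction Q using Finset.induction_on with
  | empty => exact ⟨0, fun n => by simp [Nat.modEq_one]⟩
  | insert a Q ha ih =>
    obtain ⟨r, hr⟩ := ih fun q hq => hQ q (mem_insert_of_mem hq)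
    have co : Nat.Coprime a (∏ q ∈ Q, q) := Nat.Coprime.prod_right fun q hq =>
      (Nat.coprime_primes (hQ a (mem_insert_self _ _)) (hQ q (mem_insert_of_mem hq))).2
        (by rintro rfl; exact ha hq)
    obtain ⟨s, h1, h2⟩ := Nat.chineseRemainder co (c a) r
    refine ⟨s, fun n => ?_⟩
    rw [prod_insert ha, ← Nat.modEq_and_modEq_iff_modEq_mul co, forall_mem_insert, hr]
    constructor
    · rintro ⟨a1, a2⟩; exact ⟨a1.trans h1.symm, a2.trans h2.symm⟩
    · rintro ⟨a1, a2⟩; exact ⟨a1.trans h1, a2.trans h2⟩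

lemma class_count (x H r v : ℕ) (hr : 0 < r) :
    |(#{n ∈ Ioc x (x + H) | n ≡ v [MOD r]} : ℝ) - H / r| ≤ 1 := by
  have h := Nat.Ioc_filter_modEq_card x (x + H) hr v
  have hr' : (0 : ℚ) < r := by exact_mod_cast hr
  set s : ℚ := ((x : ℚ) - v) / r with hs
  have e : (((x + H : ℕ) : ℚ) - v) / r = s + H / r := by rw [hs]; push_cast; ring
  rw [e] at h
  have h0 : (0 : ℚ) ≤ H / r := by positivity
  have h1 : ⌊s⌋ ≤ ⌊s + H / r⌋ := Int.floor_le_floor (by linarith)
  rw [max_eq_left (by omega)] at h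
  have h2 : ((#{n ∈ Ioc x (x + H) | n ≡ v [MOD r]} : ℕ) : ℚ) = ⌊s + H / r⌋ - ⌊s⌋ := by
    exact_mod_cast h
  have h3 : |((#{n ∈ Ioc x (x + H) | n ≡ v [MOD r]} : ℕ) : ℚ) - H / r| ≤ 1 := by
    rw [h2, abs_le]
    constructor <;>
      linarith [Int.floor_le s, Int.lt_floor_add_one s, Int.floor_le (s + H / r),
        Int.lt_floor_add_one (s + H / r)]
  have h4 := (Rat.cast_le (K := ℝ)).2 h3
  push_cast at h4
  exact h4

lemma base_count (c : ℕ → ℕ) (x H : ℕ) (Q : Finset ℕ) (hQ : ∀ q ∈ Q, q.Prime) :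
    |(cnt c x H Q 1 : ℝ) - H * ∏ q ∈ Q, 1 / (q : ℝ)| ≤ 1 := by
  obtain ⟨r, hr⟩ := crt c Q hQ
  have := class_count x H (∏ q ∈ Q, q) r (prod_pos fun q hq => (hQ q hq).pos)
  simp only [cnt, primesLE_one, notMem_empty, IsEmpty.forall_iff, implies_true, and_true, hr]
  convert this using 3
  simp [div_eq_mul_inv]

lemma bonf (T : Finset ℕ) (k : ℕ) :
    |(if T = ∅ then (1 : ℝ) else 0) - ∑ D ∈ T.powerset, if #D ≤ k then (-1 : ℝ) ^ #D else 0| ≤
      ∑ D ∈ T.powerset, if #D = k + 1 then (1 : ℝ) else 0 := by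
  by_cases h : T = ∅
  · subst h; simp
  obtain ⟨r, hr⟩ : ∃ r, #T = r + 1 := Nat.exists_eq_succ_of_ne_zero (by simpa using h)
  have e1 : (∑ D ∈ T.powerset, if #D = k + 1 then (1 : ℝ) else 0) = (r + 1).choose (k + 1) := by
    rw [← sum_filter, ← powersetCard_eq_filter, sum_const, card_powersetCard, hr]; simp
  have e2 : (∑ D ∈ T.powerset, if #D ≤ k then (-1 : ℝ) ^ #D else 0) = (-1) ^ k * r.choose k := by
    rw [sum_powerset_apply_card (fun i => if i ≤ k then (-1 : ℝ) ^ i else 0), hr]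
    have := Int.alternating_sum_range_choose_eq_choose (n := r) (m := k)
    have h2 : (∑ i ∈ range (k + 1), ((-1 : ℝ) ^ i * (r + 1).choose i)) = (-1) ^ k * r.choose k := by
      exact_mod_cast this
    rw [← h2]
    have a1 : ∑ i ∈ range (r + 1 + 1), (r + 1).choose i • (if i ≤ k then (-1 : ℝ) ^ i else 0) =
        ∑ i ∈ range (r + 1 + 1 + (k + 1)),
          (r + 1).choose i • (if i ≤ k then (-1 : ℝ) ^ i else 0) := by
      apply sum_subset (range_mono (by omega))
      intro i _ hi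
      rw [Nat.choose_eq_zero_of_lt (by simpa using hi), zero_smul]
    have a2 : ∑ i ∈ range (k + 1), ((-1 : ℝ) ^ i * (r + 1).choose i) =
        ∑ i ∈ range (r + 1 + 1 + (k + 1)),
          (r + 1).choose i • (if i ≤ k then (-1 : ℝ) ^ i else 0) := by
      rw [← sum_subset (range_mono (by omega : k + 1 ≤ r + 1 + 1 + (k + 1)))]
      · apply sum_congr rfl
        intro i hi
        rw [if_pos (by simpa [Nat.lt_succ_iff] using hi), nsmul_eq_mul, mul_comm]
      · intro i _ hi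
        rw [if_neg (by simpa [Nat.lt_succ_iff] using hi), smul_zero]
    rw [a1, a2]
  rw [if_neg h, e1, e2, zero_sub, abs_neg, abs_mul, abs_pow, abs_neg, abs_one, one_pow, one_mul,
    Nat.abs_cast, Nat.choose_succ_succ]
  push_cast
  have : (0 : ℝ) ≤ r.choose k.succ := by positivity
  linarith

lemma cnt_step (c : ℕ → ℕ) (x H : ℕ) (Q : Finset ℕ) {M N : ℕ} (h : M ≤ N) (k : ℕ) :
    |(cnt c x H Q N : ℝ) - ∑ D ∈ (primesLE N \ primesLE M).powerset,
        if #D ≤ k then (-1 : ℝ) ^ #D * cnt c x H (Q ∪ D) M else 0| ≤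
      ∑ D ∈ (primesLE N \ primesLE M).powerset,
        if #D = k + 1 then (cnt c x H (Q ∪ D) M : ℝ) else 0 := by
  set P := primesLE N \ primesLE M with hP
  set I := {n ∈ Ioc x (x + H) |
    (∀ q ∈ Q, n ≡ c q [MOD q]) ∧ ∀ q ∈ primesLE M, ¬ n ≡ c q [MOD q]} with hI
  set T : ℕ → Finset ℕ := fun n => {q ∈ P | n ≡ c q [MOD q]} with hT
  have e0 : (cnt c x H Q N : ℝ) = ∑ n ∈ I, if T n = ∅ then (1 : ℝ) else 0 := by
    rw [← sum_filter, sum_const, nsmul_eq_mul, mul_one, hI, filter_filter, cnt]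
    congr 2
    ext n
    simp only [mem_filter, hT, filter_eq_empty_iff, hP, mem_sdiff, and_congr_right_iff, and_assoc]
    intro _ _
    constructor
    · intro h1
      exact ⟨fun q hq => h1 q (primesLE_mono h hq), fun q hq => h1 q hq.1⟩
    · rintro ⟨h1, h2⟩ q hq
      by_cases h3 : q ∈ primesLE M
      · exact h1 q h3
      · exact h2 ⟨hq, h3⟩
  have e1 : ∀ g : ℕ → ℝ, ∑ D ∈ P.powerset, g #D * cnt c x H (Q ∪ D) M =
      ∑ n ∈ I, ∑ D ∈ (T n).powerset, g #D := by
    intro g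
    have : ∀ D ∈ P.powerset, g #D * cnt c x H (Q ∪ D) M =
        ∑ n ∈ I, if D ⊆ T n then g #D else 0 := by
      intro D hD
      rw [← sum_filter, sum_const, nsmul_eq_mul, mul_comm, hI, filter_filter, cnt]
      congr 2
      apply congrArg
      apply filter_congr
      intro n _
      simp only [mem_union, hT, subset_iff, mem_filter]
      constructor
      · rintro ⟨h1, h2⟩
        exact ⟨⟨fun q hq => h1 q (Or.inl hq), h2⟩,
          fun q hq => ⟨mem_powerset.1 hD hq, h1 q (Or.inr hq)⟩⟩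
      · rintro ⟨⟨h1, h2⟩, h3⟩
        exact ⟨fun q hq => hq.elim (h1 q) fun hq => (h3 hq).2, h2⟩
    rw [sum_congr rfl this, sum_comm]
    apply sum_congr rfl
    intro n _
    rw [← sum_filter]
    congr 1
    ext D
    simp only [mem_filter, mem_powerset, and_iff_right_iff_imp]
    exact fun h => h.trans (filter_subset _ _)
  have e2 := e1 (fun i => if i ≤ k then (-1 : ℝ) ^ i else 0)
  have e3 := e1 (fun i => if i = k + 1 then (1 : ℝ) else 0)
  simp only [ite_mul, zero_mul, one_mul] at e2 e3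
  rw [e0, e2, e3, ← sum_sub_distrib]
  exact (abs_sum_le_sum_abs _ _).trans (sum_le_sum fun n _ => bonf (T n) k)

lemma block_sum {N : ℕ} (hN : 2 ≤ N) :
    ∑ p ∈ primesLE N \ primesLE N.sqrt, 1 / (p : ℝ) ≤ 32 := by
  have hl : 2 / 3 ≤ Real.log N := by
    have := Real.log_le_log (by norm_num) (show (2 : ℝ) ≤ N by exact_mod_cast hN)
    linarith [Real.log_two_gt_d9]
  have h1 : ∑ p ∈ primesLE N \ primesLE N.sqrt, 1 / (p : ℝ) ≤
      ∑ p ∈ primesLE N, Real.log p / p * (2 / Real.log N) := by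
    refine le_trans (sum_le_sum ?_) (sum_le_sum_of_subset_of_nonneg sdiff_subset ?_)
    · intro p hp
      obtain ⟨h1, h2⟩ := mem_sdiff.1 hp
      have h3 : N.sqrt < p := by
        by_contra h
        exact h2 (mem_primesLE.2 ⟨by omega, prime_of_mem_primesLE h1⟩)
      have h4 : (N : ℝ) ≤ (p : ℝ) ^ 2 := by
        have := Nat.sqrt_lt'.1 h3
        exact_mod_cast this.le
      have h5 := Real.log_le_log (by positivity) h4
      rw [Real.log_pow] at h5
      have : Real.log p / p * (2 / Real.log N) = 1 / p * (2 * Real.log p / Real.log N) := by ring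
      rw [this]
      apply le_mul_of_one_le_right (by positivity)
      rw [le_div_iff₀ (by linarith)]
      simpa using h5
    · intro p _ _
      have := Real.log_natCast_nonneg p
      positivity
  rw [← sum_mul] at h1
  refine h1.trans ?_
  have h2 := sum0_upper N
  rw [← le_div_iff₀ (by positivity), div_div_eq_mul_div]
  linarith

lemma card_small {P : Finset ℕ} {N : ℕ} (hN : 1 ≤ N) (hP : P ⊆ primesLE N) (j : ℕ) :
    #{D ∈ P.powerset | #D ≤ j} ≤ N ^ j := by
  have : #{D ∈ P.powerset | #D ≤ j} ≤ #(Icc 1 (N ^ j)) := by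
    apply card_le_card_of_injOn (fun D => ∏ q ∈ D, q)
    · intro D hD
      simp only [coe_filter, mem_powerset, Set.mem_ofPred_eq] at hD
      simp only [coe_Icc, Set.mem_Icc]
      refine ⟨prod_pos fun q hq => (prime_of_mem_primesLE (hP (hD.1 hq))).pos, ?_⟩
      exact (prod_le_pow_card D _ N fun q hq => le_of_mem_primesLE (hP (hD.1 hq))).trans
        (Nat.pow_le_pow_right hN hD.2)
    · intro D hD E hE h
      simp only [coe_filter, mem_powerset, Set.mem_ofPred_eq] at hD hE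
      have h1 := Nat.primeFactors_prod (s := D) fun q hq => prime_of_mem_primesLE (hP (hD.1 hq))
      have h2 := Nat.primeFactors_prod (s := E) fun q hq => prime_of_mem_primesLE (hP (hE.1 hq))
      rw [← h1, ← h2]
      exact congrArg _ h
  simpa using this

lemma weight_sum (P : Finset ℕ) (t : ℝ) (ht : 0 ≤ t) :
    ∑ D ∈ P.powerset, t ^ #D * ∏ q ∈ D, 1 / (q : ℝ) ≤ Real.exp (t * ∑ p ∈ P, 1 / (p : ℝ)) := by
  have : ∀ D ∈ P.powerset, t ^ #D * ∏ q ∈ D, 1 / (q : ℝ) = ∏ q ∈ D, t * (1 / (q : ℝ)) := by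
    intro D _
    rw [prod_mul_distrib, prod_const]
  rw [sum_congr rfl this, ← prod_one_add, mul_sum, Real.exp_sum]
  exact prod_le_prod (fun q _ => by positivity) fun q _ => by
    rw [add_comm]; exact Real.add_one_le_exp _

theorem fl_aux {K : ℝ} (hK : Real.exp 128 ≤ K) {d : ℕ} (hd : 2 * K ≤ 2 ^ d) (c : ℕ → ℕ) (x H : ℕ)
    (N : ℕ) : 1 ≤ N → ∀ (k : ℕ) (Q : Finset ℕ), (∀ q ∈ Q, q.Prime ∧ N < q) →
      |(cnt c x H Q N : ℝ) - H * (∏ q ∈ Q, 1 / (q : ℝ)) * th N| ≤
        2 * K / 2 ^ k * (H * (∏ q ∈ Q, 1 / (q : ℝ)) * th N) + (N : ℝ) ^ (2 * (k + d + 1)) := by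
  have hK0 : 0 < K := (Real.exp_pos _).trans_le hK
  induction N using Nat.strong_induction_on with
  | _ N ih =>
  intro hN k Q hQ
  rcases hN.eq_or_lt with rfl | hN2
  · have := base_count c x H Q fun q hq => (hQ q hq).1
    have e : th 1 = 1 := by simp [th]
    rw [e, mul_one, Nat.cast_one, one_pow]
    have : 0 ≤ 2 * K / 2 ^ k * (H * ∏ q ∈ Q, 1 / (q : ℝ)) := by positivity
    linarith
  have hs1 : 1 ≤ N.sqrt := Nat.le_sqrt.2 (by omega)
  have hs2 : N.sqrt < N := Nat.sqrt_lt_self hN2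
  set P := primesLE N \ primesLE N.sqrt with hP
  have hPp : ∀ p ∈ P, p.Prime := fun p hp => prime_of_mem_primesLE (mem_sdiff.1 hp).1
  set m : ℝ := H * (∏ q ∈ Q, 1 / (q : ℝ)) * th N.sqrt with hm
  have hm0 : 0 ≤ m := by have := th_pos N.sqrt; positivity
  set w : Finset ℕ → ℝ := fun D => ∏ q ∈ D, 1 / (q : ℝ) with hw
  have hw0 : ∀ D, 0 ≤ w D := fun D => prod_nonneg fun _ _ => by positivity
  set ε : ℝ := 2 * K / 2 ^ (k + d) with hε
  have hε0 : 0 ≤ ε := by positivity
  set B : ℝ := (N.sqrt : ℝ) ^ (2 * (k + d + d + 1)) with hB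
  have hD : ∀ D ∈ P.powerset, |(cnt c x H (Q ∪ D) N.sqrt : ℝ) - m * w D| ≤ ε * (m * w D) + B := by
    intro D hD
    have hdis : Disjoint Q D := by
      rw [disjoint_left]
      intro q hq hq'
      have := le_of_mem_primesLE (mem_sdiff.1 (mem_powerset.1 hD hq')).1
      have := (hQ q hq).2
      omega
    have := ih N.sqrt hs2 hs1 (k + d) (Q ∪ D) (by
      intro q hq
      rcases mem_union.1 hq with h | h
      · exact ⟨(hQ q h).1, hs2.trans (hQ q h).2⟩
      · obtain ⟨h1, h2⟩ := mem_sdiff.1 (mem_powerset.1 hD h)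
        refine ⟨prime_of_mem_primesLE h1, ?_⟩
        by_contra h
        exact h2 (mem_primesLE.2 ⟨by omega, prime_of_mem_primesLE h1⟩))
    rw [prod_union hdis] at this
    convert this using 2
    · rw [hm, hw]; ring
    · rw [hm, hw]; ring
  set V : ℝ := ∏ p ∈ P, (1 - 1 / (p : ℝ)) with hV
  have hL := block_sum (N := N) hN2
  rw [← hP] at hL
  have hV1 : Real.exp (-64) ≤ V :=
    le_trans (Real.exp_le_exp.2 (by linarith)) (prod_factor_ge hPp)
  have hV2 : V = ∑ D ∈ P.powerset, (-1 : ℝ) ^ #D * w D := by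
    have : ∀ D ∈ P.powerset, (-1 : ℝ) ^ #D * w D = ∏ q ∈ D, -(1 / (q : ℝ)) := by
      intro D _
      rw [hw, prod_neg]
    rw [sum_congr rfl this, ← prod_one_add, hV]
    simp only [sub_eq_add_neg]
  have hE : ∑ D ∈ P.powerset, w D ≤ Real.exp 64 := by
    have := weight_sum P 1 zero_le_one
    simp only [one_pow, one_mul] at this
    exact this.trans (Real.exp_le_exp.2 (by linarith))
  have hτ : ∑ D ∈ P.powerset, (if #D ≤ k then 0 else w D) ≤ Real.exp 64 / 2 ^ (k + 1) := by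
    have := weight_sum P 2 zero_le_two
    rw [le_div_iff₀ (by positivity), sum_mul]
    refine le_trans (sum_le_sum ?_) (this.trans (Real.exp_le_exp.2 (by linarith)))
    intro D _
    split_ifs with h
    · have := hw0 D
      rw [zero_mul]; positivity
    · rw [mul_comm]
      exact mul_le_mul_of_nonneg_right (pow_le_pow_right₀ one_le_two (by omega)) (hw0 D)
  have hstep := cnt_step c x H Q hs2.le k
  rw [← hP] at hstep
  have e1 : H * (∏ q ∈ Q, 1 / (q : ℝ)) * th N = m * V := by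
    rw [th_split hs2.le, hm]; ring
  have hB0 : 0 ≤ B := by positivity
  have main : |(cnt c x H Q N : ℝ) - m * V| ≤ ∑ D ∈ P.powerset,
      (2 * m * (if #D ≤ k then 0 else w D) + ε * m * w D + if #D ≤ k + 1 then B else 0) := by
    refine (abs_sub_le _ _ _).trans ((add_le_add hstep le_rfl).trans ?_)
    rw [hV2, mul_sum, ← sum_sub_distrib]
    refine (add_le_add le_rfl (abs_sum_le_sum_abs _ _)).trans ?_
    rw [← sum_add_distrib]
    apply sum_le_sum
    intro D hD'
    have h1 := hD D hD'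
    have h2 : 0 ≤ m * w D := mul_nonneg hm0 (hw0 D)
    have h3 : 0 ≤ ε * (m * w D) := mul_nonneg hε0 h2
    by_cases a1 : #D ≤ k
    · rw [if_neg (by omega), if_pos a1, if_pos a1, if_pos (by omega)]
      have : (-1 : ℝ) ^ #D * cnt c x H (Q ∪ D) N.sqrt - m * ((-1) ^ #D * w D) =
        (-1) ^ #D * (cnt c x H (Q ∪ D) N.sqrt - m * w D) := by ring
      rw [this, abs_mul, abs_pow, abs_neg, abs_one, one_pow]
      linarith
    · have : |(0 : ℝ) - m * ((-1) ^ #D * w D)| = m * w D := by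
        rw [zero_sub, abs_neg, abs_mul m, abs_of_nonneg hm0, abs_mul, abs_pow, abs_neg, abs_one,
          one_pow, one_mul, abs_of_nonneg (hw0 D)]
      rw [if_neg a1, if_neg a1, this]
      by_cases a2 : #D = k + 1
      · rw [if_pos a2, if_pos (by omega)]
        linarith [(abs_le.1 h1).2]
      · rw [if_neg a2, if_neg (by omega)]
        linarith
  rw [sum_add_distrib, sum_add_distrib, ← mul_sum, ← mul_sum, ← sum_filter, sum_const,
    nsmul_eq_mul] at main
  rw [e1]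
  refine main.trans (add_le_add ?_ ?_)
  · have k1 : Real.exp 64 ≤ K * V := by
      have : Real.exp 64 = Real.exp 128 * Real.exp (-64) := by rw [← Real.exp_add]; norm_num
      rw [this]
      exact mul_le_mul hK hV1 (Real.exp_pos _).le hK0.le
    have hV0 : 0 ≤ V := (Real.exp_pos _).le.trans hV1
    have k2 : 2 * m * ∑ D ∈ P.powerset, (if #D ≤ k then 0 else w D) ≤ K / 2 ^ k * (m * V) := by
      calc _ ≤ 2 * m * (K * V / 2 ^ (k + 1)) := by
            apply mul_le_mul_of_nonneg_left (hτ.trans ?_) (by positivity)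
            gcongr
        _ = _ := by rw [pow_succ]; field_simp
    have k3 : ε * m * ∑ D ∈ P.powerset, w D ≤ K / 2 ^ k * (m * V) := by
      have : ε ≤ 1 / 2 ^ k := by
        rw [hε, pow_add, div_le_div_iff₀ (by positivity) (by positivity), one_mul, mul_comm]
        gcongr
      calc _ ≤ 1 / 2 ^ k * m * (K * V) := by
            apply mul_le_mul (mul_le_mul_of_nonneg_right this hm0) (hE.trans k1)
              (sum_nonneg fun D _ => hw0 D) (by positivity)
        _ = _ := by ring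
    calc _ ≤ K / 2 ^ k * (m * V) + K / 2 ^ k * (m * V) := add_le_add k2 k3
      _ = _ := by ring
  · have k1 : (#{D ∈ P.powerset | #D ≤ k + 1} : ℝ) ≤ (N : ℝ) ^ (k + 1) := by
      exact_mod_cast card_small hN sdiff_subset (k + 1)
    have k2 : B ≤ (N : ℝ) ^ (k + d + d + 1) := by
      rw [hB, pow_mul]
      apply pow_le_pow_left₀ (by positivity)
      exact_mod_cast Nat.sqrt_le' N
    calc _ ≤ (N : ℝ) ^ (k + 1) * (N : ℝ) ^ (k + d + d + 1) :=
          mul_le_mul k1 k2 hB0 (by positivity)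
      _ = _ := by rw [← pow_add]; congr 1; ring

/-- fundamental lemma -/
theorem fl {η : ℝ} (hη : 0 < η) : ∃ B : ℕ, 1 ≤ B ∧ ∀ (c : ℕ → ℕ) (x H N : ℕ), 1 ≤ N →
    ∀ Q : Finset ℕ, (∀ q ∈ Q, q.Prime ∧ N < q) →
      |(cnt c x H Q N : ℝ) - H * (∏ q ∈ Q, 1 / (q : ℝ)) * th N| ≤
        η * (H * (∏ q ∈ Q, 1 / (q : ℝ)) * th N) + (N : ℝ) ^ B := by
  obtain ⟨d, hd⟩ := pow_unbounded_of_one_lt (2 * Real.exp 128) (one_lt_two (α := ℝ))
  obtain ⟨k, hk⟩ := pow_unbounded_of_one_lt (2 * Real.exp 128 / η) (one_lt_two (α := ℝ))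
  refine ⟨2 * (k + d + 1), by omega, fun c x H N hN Q hQ => ?_⟩
  refine (fl_aux le_rfl hd.le c x H N hN k Q hQ).trans (add_le_add ?_ le_rfl)
  apply mul_le_mul_of_nonneg_right
  · rw [div_lt_iff₀ hη] at hk
    rw [div_le_iff₀ (by positivity)]
    linarith
  · have := th_pos N
    positivity

end Pool.Agent.Lib.MP_b09185_nt
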