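import Pool.Agent.Lib.MP_b09185_nt.VinSum

/-! The bound for zeta sums with a polynomial loss in the exponent. -/

namespace Pool.Agent.Lib.MP_b09185_nt.Vin

open Finset Fintype Real Pool.Agent.Lib.LargeSieve

lemma pick {X t : ℝ} {l : ℕ} (hX : 1 ≤ X) (hl : 1 ≤ l) (h1 : X ^ (3 / 4 : ℝ) ≤ t) (h2 : t ≤ X ^ l) :
    ∃ j, j + 1 ≤ l ∧ t ≤ X ^ (j + 1) * X ^ (3 / 4 : ℝ) ∧ X ^ j * X ^ (3 / 4 : ℝ) ≤ t := by
  have b1 : 1 ≤ X ^ (3 / 4 : ℝ) := Real.one_le_rpow hX (by norm_num)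
  have hl' : t ≤ X ^ (l - 1 + 1) * X ^ (3 / 4 : ℝ) := by
    rw [Nat.sub_add_cancel hl]
    exact h2.trans (le_mul_of_one_le_right (by positivity) b1)
  have ex : ∃ j : ℕ, t ≤ X ^ (j + 1) * X ^ (3 / 4 : ℝ) := ⟨_, hl'⟩
  refine ⟨Nat.find ex, by have := Nat.find_min' ex hl'; omega, Nat.find_spec ex, ?_⟩
  rcases h : Nat.find ex with _ | j
  · simpa using h1
  · exact (not_le.1 (Nat.find_min ex (by omega : j < Nat.find ex))).le

lemma nu_le {X t q : ℝ} {j : ℕ} (hX : 1 ≤ X) (h1 : t ≤ X ^ (j + 1) * X ^ (3 / 4 : ℝ))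
    (h2 : X ^ j * X ^ (3 / 4 : ℝ) ≤ t) (hq : X ^ (1 / 2 : ℝ) ≤ q) :
    (t / (2 * π) / X ^ (j + 1) + 1) * ((j + 1) * (2 * X) ^ (j + 2) / (t / (2 * π) * q) + 1) ≤
      32 * ((j + 1) * 2 ^ (j + 2)) * X ^ (3 / 4 : ℝ) := by
  have X0 : 0 < X := by linarith
  set a := X ^ (1 / 2 : ℝ) with ha
  set b := X ^ (3 / 4 : ℝ) with hb
  have b1 : 1 ≤ b := Real.one_le_rpow hX (by norm_num)
  have a1 : 1 ≤ a := Real.one_le_rpow hX (by norm_num)
  have ab : X ≤ a * b := by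
    rw [ha, hb, ← Real.rpow_add X0]
    exact Real.self_le_rpow_of_one_le hX (by norm_num)
  have ab2 : X ^ 2 = a * b * b := by
    rw [ha, hb, ← Real.rpow_add X0, ← Real.rpow_add X0, ← Real.rpow_two]; norm_num
  have t0 : 0 < t := lt_of_lt_of_le (by positivity) h2
  have q0 : 0 < q := by linarith
  have p3 := Real.pi_gt_three
  have p4 := Real.pi_le_four
  set c : ℝ := (j + 1) * 2 ^ (j + 2) with hc
  have c1 : 1 ≤ c := one_le_mul_of_one_le_of_one_le (by linarith [Nat.cast_nonneg (α := ℝ) j])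
    (one_le_pow₀ (by norm_num))
  have r1 : t / (2 * π) / X ^ (j + 1) ≤ b := by
    rw [div_le_iff₀' (by positivity)]
    exact (div_le_self t0.le (by linarith)).trans h1
  have r2 : t / (2 * π) / X ^ (j + 1) * ((j + 1) * (2 * X) ^ (j + 2) / (t / (2 * π) * q)) ≤
      c * b := by
    calc _ = c * (X / q) := by rw [hc, mul_pow]; field_simp; ring
      _ ≤ c * b := by
        gcongr
        rw [div_le_iff₀' q0]
        exact ab.trans (by gcongr)
  have r3 : (j + 1) * (2 * X) ^ (j + 2) / (t / (2 * π) * q) ≤ 8 * c * b := by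
    calc _ = 2 * π * c * (X ^ j * X ^ 2 / (t * q)) := by rw [hc, mul_pow]; field_simp; ring
      _ ≤ 8 * c * b := by
        gcongr
        · linarith
        · rw [div_le_iff₀ (by positivity), ab2]
          calc X ^ j * (a * b * b) = b * ((X ^ j * b) * a) := by ring
            _ ≤ _ := by gcongr
  have r4 : b ≤ c * b := le_mul_of_one_le_left (by linarith) c1
  nlinarith

lemma const_le {k j s : ℕ} (hk : 4 ≤ k) (hj : j + 2 ≤ k) (hs : s ≤ k ^ 5) :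
    32 * ((j + 1) * 2 ^ (j + 2)) * (2 * s : ℝ) ^ k * exp (k ^ 24) ≤ exp (k ^ 25) := by
  have pw : ∀ a b : ℕ, a ≤ b → k ^ a ≤ k ^ b := fun a b h => Nat.pow_le_pow_right (by omega) h
  have h1 : 32 * ((j + 1) * 2 ^ (j + 2)) * (2 * s) ^ k ≤ 2 ^ (k ^ 24) := by
    have b1 : j + 1 ≤ 2 ^ k := le_trans (by omega) Nat.lt_two_pow_self.le
    have b2 : 2 * s ≤ 2 ^ (2 * s) := Nat.lt_two_pow_self.le
    calc _ ≤ 32 * (2 ^ k * 2 ^ k) * (2 ^ (2 * s)) ^ k := by gcongr; norm_num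
      _ = 2 ^ (5 + 2 * k + 2 * (s * k)) := by rw [← pow_mul]; ring
      _ ≤ _ := by
        apply Nat.pow_le_pow_right (by norm_num)
        have : s * k ≤ k ^ 6 := by rw [pow_succ]; gcongr
        have : 4 * k ^ 6 ≤ k ^ 7 := by rw [pow_succ' k 6]; gcongr
        have : 4 * k ^ 7 ≤ k ^ 8 := by rw [pow_succ' k 7]; gcongr
        have := pw 1 6 (by omega)
        have := pw 8 24 (by omega)
        rw [pow_one] at *
        omega
  have h2 : (32 * ((j + 1) * 2 ^ (j + 2)) * (2 * s : ℝ) ^ k) ≤ 2 ^ (k ^ 24) := by exact_mod_cast h1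
  have h3 : (2 : ℝ) ^ (k ^ 24) ≤ exp (k ^ 24) := by
    rw [← Nat.cast_pow, ← Real.exp_one_pow]
    gcongr
    linarith [Real.add_one_le_exp 1]
  have k4 : (4 : ℝ) ≤ k := by exact_mod_cast hk
  calc _ ≤ exp (k ^ 24) * exp (k ^ 24) := by gcongr; exact h2.trans h3
    _ ≤ _ := by
      rw [← Real.exp_add, pow_succ (k : ℝ) 24]
      gcongr
      nlinarith [pow_nonneg (by linarith : (0 : ℝ) ≤ k) 24]

lemma core {l N M : ℕ} (hl : 2 ≤ l) (hL : (l : ℝ) ^ 54 ≤ log N) (h : N ≤ M) (hM : M ≤ 2 * N)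
    {t : ℝ} (h1 : (N : ℝ) ^ (3 / 4 : ℝ) ≤ t) (h2 : t ≤ (N : ℝ) ^ l) :
    ‖∑ n ∈ Ioc N M, ee (-(t / (2 * π) * log n))‖ ≤ (N : ℝ) ^ (1 - 1 / (l : ℝ) ^ 54) := by
  obtain ⟨k, hk⟩ : ∃ k, k = 2 * l := ⟨_, rfl⟩
  have k4 : 4 ≤ k := by omega
  have s1 := sV_le (k := k) (by omega)
  have s2 := sV_ge (k := k) (by omega)
  set s := sV k with hs
  have k4' : (4 : ℝ) ≤ k := by exact_mod_cast k4
  have s2' : (k : ℝ) ≤ s := by exact_mod_cast s2
  have l1 : 16 * (k : ℝ) ^ 25 ≤ (l : ℝ) ^ 54 := by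
    have : 16 * k ^ 25 ≤ l ^ 54 := by
      calc 16 * k ^ 25 ≤ l ^ 4 * (l ^ 2) ^ 25 := by
            gcongr
            · exact Nat.pow_le_pow_left hl 4
            · nlinarith
        _ = _ := by ring
    exact_mod_cast this
  have l2 : 192 * (s : ℝ) ≤ 16 * (k : ℝ) ^ 25 := by
    have : 192 * s ≤ 16 * k ^ 25 := by
      have : 16 * k ^ 5 ≤ k ^ 2 * k ^ 5 := by gcongr; exact Nat.pow_le_pow_left k4 2
      have : k ^ 2 * k ^ 5 ≤ k ^ 25 := by
        rw [← pow_add]; exact Nat.pow_le_pow_right (by omega) (by omega)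
      omega
    exact_mod_cast this
  set X : ℝ := (N : ℝ) with hX
  have L1 : 192 * (s : ℝ) ≤ log X := by linarith
  have X4 : 4 ≤ X := by
    have h0 : 0 < X := by
      rcases (show (0 : ℝ) ≤ X from Nat.cast_nonneg N).eq_or_lt with h | h
      · rw [← h, Real.log_zero] at L1; linarith
      · exact h
    linarith [Real.log_le_sub_one_of_pos h0]
  have X0 : 0 < X := by linarith
  have X1 : 1 ≤ X := by linarith
  have big : ∀ y c : ℝ, c ≤ log X * y → exp c ≤ X ^ y := fun y c h => by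
    rw [Real.rpow_def_of_pos X0]; gcongr
  have N4 : 4 ≤ N := by rw [hX] at X4; exact_mod_cast X4
  set P := Nat.sqrt N with hP
  have P2 : 2 ≤ P := Nat.le_sqrt.2 N4
  have PP : P * P ≤ N := Nat.sqrt_le N
  have P2' : (2 : ℝ) ≤ P := by exact_mod_cast P2
  have P0 : (0 : ℝ) < P := by linarith
  have Pa : (P : ℝ) ≤ X ^ (1 / 2 : ℝ) := by
    rw [← Real.sqrt_eq_rpow]; exact Real.nat_sqrt_le_real_sqrt
  have Pb : X ^ (1 / 2 : ℝ) ≤ 2 * P := by
    rw [← Real.sqrt_eq_rpow]; linarith [Real.real_sqrt_le_nat_sqrt_succ (a := N)]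
  set e : ℝ := 1 / (16 * k) with he
  have Y2 : 2 ≤ X ^ e := by
    refine le_trans (by linarith [Real.add_one_le_exp 1]) (big e 1 ?_)
    rw [he, mul_one_div, le_div_iff₀ (by positivity)]; linarith
  set D := ⌈X ^ e⌉₊ with hD
  have D1 : X ^ e ≤ D := Nat.le_ceil _
  have D2 : (D : ℝ) ≤ 2 * X ^ e := by linarith [Nat.ceil_lt_add_one (by positivity : 0 ≤ X ^ e)]
  have D3 : 2 ≤ D := by exact_mod_cast Y2.trans D1
  set Q : Fin k → ℕ := fun j => s * D * P ^ (j.1 + 1) with hQd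
  have hQ : ∀ j, s * P ^ (j.1 + 1) < Q j := fun j =>
    Nat.mul_lt_mul_of_pos_right (lt_mul_of_one_lt_right (by omega) D3) (by positivity)
  have hQ0 : ∀ j, 0 < Q j := fun j => (Nat.zero_le _).trans_lt (hQ j)
  have t0 : 0 < t := lt_of_lt_of_le (by positivity) h1
  have τ0 : 0 < t / (2 * π) := by positivity
  obtain ⟨j, j1, j2, j3⟩ := pick X1 (by omega) h1 h2
  have hq : X ^ (1 / 2 : ℝ) ≤ Q ⟨j, by omega⟩ := by
    refine Pb.trans ?_
    have : 2 * P ≤ s * D * P ^ (j + 1) :=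
      Nat.mul_le_mul (D3.trans (Nat.le_mul_of_pos_left _ (by omega))) (Nat.le_self_pow (by omega) P)
    exact_mod_cast this
  have m2 := main2 Q hQ0 (t / (2 * π)) hM hQ (fun b =>
    (fiber Q hQ0 τ0 (by omega) hM ⟨j, by omega⟩ b).trans (nu_le X1 j2 j3 hq)) (by omega)
  have m1 := main1 Q hQ0 τ0.le h hM (P := P) ((Nat.mul_le_mul_right P P2).trans PP)
  rw [← hX] at m1 m2
  set G := ∑ n ∈ Ioc N M, ‖fA Q (an Q (t / (2 * π)) n) (range P)‖ with hG
  have q1 : (∏ j, (Q j : ℝ)) * JA k s (range P) ≤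
      (2 * s) ^ k * exp (k ^ 24) * X ^ (1 / 8 : ℝ) * P ^ (2 * s) := by
    have e1 : ∏ j, (Q j : ℝ) = (s * D) ^ k * (P : ℝ) ^ ((k : ℝ) * (k + 1) / 2) := by
      rw [← sum_succ_eq, Real.rpow_natCast, ← prod_pow_eq_pow_sum]
      simp only [hQd]
      push_cast
      rw [prod_mul_distrib, prod_const, card_univ, Fintype.card_fin]
    have e2 : (X ^ e) ^ k = X ^ (1 / 16 : ℝ) := by
      rw [← Real.rpow_mul_natCast X0.le, he]; congr 1; field_simp
    have e3 : (P : ℝ) ^ (1 / 8 : ℝ) ≤ X ^ (1 / 16 : ℝ) := by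
      refine (Real.rpow_le_rpow P0.le Pa (by norm_num)).trans_eq ?_
      rw [← Real.rpow_mul X0.le]; norm_num
    have e4 : X ^ (1 / 8 : ℝ) = X ^ (1 / 16 : ℝ) * X ^ (1 / 16 : ℝ) := by
      rw [← Real.rpow_add X0]; norm_num
    have e5 : (P : ℝ) ^ ((k : ℝ) * (k + 1) / 2) *
        (P : ℝ) ^ (2 * (s : ℝ) - k * (k + 1) / 2 + 1 / 8) = P ^ (1 / 8 : ℝ) * P ^ (2 * s) := by
      rw [← Real.rpow_natCast, ← Real.rpow_add P0, ← Real.rpow_add P0]; congr 1; push_cast; ring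
    calc _ ≤ (s * (2 * X ^ e)) ^ k * (P : ℝ) ^ ((k : ℝ) * (k + 1) / 2) *
          (exp (k ^ 24) * (P : ℝ) ^ (2 * (s : ℝ) - k * (k + 1) / 2 + 1 / 8)) := by
          rw [e1]; gcongr; exact vmvt (by omega) (by omega)
      _ = (2 * s) ^ k * exp (k ^ 24) * ((X ^ e) ^ k * P ^ (1 / 8 : ℝ)) * P ^ (2 * s) := by
          rw [mul_pow, mul_pow, mul_pow]
          linear_combination (s ^ k * 2 ^ k * (X ^ e) ^ k * exp (k ^ 24)) * e5
      _ ≤ _ := by rw [e2, e4]; gcongr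
  have q2 : 32 * ((j + 1) * 2 ^ (j + 2)) * (2 * s : ℝ) ^ k * exp (k ^ 24) ≤ X ^ (1 / 16 : ℝ) :=
    (const_le k4 (by omega) s1).trans (big _ _ (by linarith))
  have s0 : (0 : ℝ) < s := by linarith
  set ε : ℝ := 1 / (32 * s) with hε
  have g1 : G ≤ X * P * X ^ (-ε) := by
    refine le_of_pow_le_pow_left₀ (n := 2 * s) (by omega) (by positivity)
      (le_of_mul_le_mul_left (m2.trans ?_) X0)
    have e1 : (X ^ (-ε)) ^ (2 * s) = X ^ (-1 / 16 : ℝ) := by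
      rw [← Real.rpow_mul_natCast X0.le, hε]; congr 1; push_cast; field_simp; norm_num
    have e2 : X ^ (1 / 16 : ℝ) * X ^ (3 / 4 : ℝ) * X ^ (1 / 8 : ℝ) = X * X ^ (-1 / 16 : ℝ) := by
      rw [← Real.rpow_add X0, ← Real.rpow_add X0, ← Real.rpow_one_add' X0.le (by norm_num)]
      norm_num
    calc _ ≤ X ^ (2 * s) * (32 * ((j + 1) * 2 ^ (j + 2)) * X ^ (3 / 4 : ℝ) *
          ((2 * s) ^ k * exp (k ^ 24) * X ^ (1 / 8 : ℝ) * P ^ (2 * s))) := by gcongr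
      _ = X ^ (2 * s) * P ^ (2 * s) * ((32 * ((j + 1) * 2 ^ (j + 2)) * (2 * s : ℝ) ^ k *
          exp (k ^ 24)) * X ^ (3 / 4 : ℝ) * X ^ (1 / 8 : ℝ)) := by ring
      _ ≤ X ^ (2 * s) * P ^ (2 * s) * (X ^ (1 / 16 : ℝ) * X ^ (3 / 4 : ℝ) * X ^ (1 / 8 : ℝ)) := by
          gcongr
      _ = _ := by rw [e2, mul_pow, mul_pow, e1]; ring
  have ε1 : ε ≤ e := one_div_le_one_div_of_le (by positivity) (by linarith)
  have ε2 : ε ≤ 1 / 2 := one_div_le_one_div_of_le (by positivity) (by linarith)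
  set Z := X ^ (-ε) with hZ
  have Z0 : 0 < Z := by positivity
  have PX : (P : ℝ) / X ≤ Z := by
    rw [div_le_iff₀ X0, hZ, ← Real.rpow_add_one X0.ne']
    exact Pa.trans (Real.rpow_le_rpow_of_exponent_le X1 (by linarith))
  have d1 : ∑ j, (P : ℝ) ^ (j.1 + 1) / Q j ≤ Z := by
    have : ∀ j : Fin k, (P : ℝ) ^ (j.1 + 1) / Q j = 1 / (s * D) := fun j => by
      simp only [hQd]; push_cast; field_simp
    simp only [this, sum_const, card_univ, Fintype.card_fin, nsmul_eq_mul]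
    calc (k : ℝ) * (1 / (s * D)) ≤ s * (1 / (s * X ^ e)) := by gcongr
      _ = X ^ (-e) := by rw [Real.rpow_neg X0.le]; field_simp
      _ ≤ Z := Real.rpow_le_rpow_of_exponent_le X1 (by linarith)
  have d2 : 2 * (t / (2 * π)) * ((P : ℝ) / X) ^ (k + 1) ≤ Z := by
    have b1 : ((P : ℝ) / X) ^ 2 ≤ 1 / X := by
      rw [div_pow, div_le_div_iff₀ (by positivity) X0, one_mul, sq, sq]
      gcongr
      rw [hX]
      exact_mod_cast PP
    have b2 : 2 * (t / (2 * π)) ≤ X ^ l := by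
      rw [mul_div_assoc', mul_div_mul_left _ _ two_ne_zero]
      exact (div_le_self t0.le (by linarith [Real.pi_gt_three])).trans h2
    calc _ = 2 * (t / (2 * π)) * ((((P : ℝ) / X) ^ 2) ^ l * (P / X)) := by
          rw [hk, pow_succ, pow_mul]
      _ ≤ X ^ l * ((1 / X) ^ l * Z) := by gcongr
      _ = Z := by rw [one_div, inv_pow]; field_simp
  have f1 : ‖∑ n ∈ Ioc N M, ee (-(t / (2 * π) * log n))‖ ≤ 19 * (X * Z) := by
    refine le_of_mul_le_mul_left (m1.trans ?_) P0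
    rw [div_le_iff₀ X0] at PX
    have : X * (P * (2 * π * (∑ j, (P : ℝ) ^ (j.1 + 1) / Q j +
        2 * (t / (2 * π)) * ((P : ℝ) / X) ^ (k + 1)))) ≤ X * (P * (2 * 4 * (Z + Z))) := by
      gcongr; exact Real.pi_le_four
    have b2 := mul_le_mul_of_nonneg_left PX P0.le
    have b3 : G ≤ X * P * Z := g1
    linarith
  have f2 : 19 ≤ X ^ (ε / 2) := by
    refine le_trans ?_ (big _ 3 ?_)
    · have := Real.exp_one_gt_d9
      rw [show (3 : ℝ) = (3 : ℕ) by norm_num, ← Real.exp_one_pow]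
      calc (19 : ℝ) ≤ 2.7 ^ 3 := by norm_num
        _ ≤ _ := by gcongr; linarith
    · rw [hε, div_div, mul_one_div, le_div_iff₀ (by positivity)]; linarith
  calc _ ≤ X ^ (ε / 2) * (X * Z) := f1.trans (by gcongr)
    _ = X ^ (1 - ε / 2) := by
        rw [hZ, ← Real.rpow_one_add' X0.le (by linarith), ← Real.rpow_add X0]; congr 1; ring
    _ ≤ _ := by
        refine Real.rpow_le_rpow_of_exponent_le X1 ?_
        rw [hε, div_div]
        gcongr
        linarith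

lemma cpow_eq (n : ℕ) (hn : 0 < n) (t : ℝ) :
    (n : ℂ) ^ (-((t : ℂ) * Complex.I)) = ee (-(t / (2 * π) * log n)) := by
  rw [Complex.cpow_def_of_ne_zero (by exact_mod_cast hn.ne'), ee, ← Complex.natCast_log]
  congr 1
  have : (π : ℂ) ≠ 0 := by exact_mod_cast Real.pi_ne_zero
  push_cast
  field_simp

theorem expsum {l N M : ℕ} (hl : 2 ≤ l) (hL : (l : ℝ) ^ 54 ≤ log N) (h : N ≤ M) (hM : M ≤ 2 * N)
    {t : ℝ} (h1 : (N : ℝ) ^ (3 / 4 : ℝ) ≤ |t|) (h2 : |t| ≤ (N : ℝ) ^ l) :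
    ‖∑ n ∈ Ioc N M, (n : ℂ) ^ (-((t : ℂ) * Complex.I))‖ ≤ (N : ℝ) ^ (1 - 1 / (l : ℝ) ^ 54) := by
  rw [Finset.sum_congr rfl fun n hn => cpow_eq n (by have := (mem_Ioc.1 hn).1; omega) t]
  have H := core hl hL h hM h1 h2
  rcases le_total 0 t with h0 | h0
  · rwa [abs_of_nonneg h0] at H
  · rw [abs_of_nonpos h0, ← Complex.norm_conj, map_sum] at H
    simpa only [conj_ee, neg_neg, neg_div, neg_mul] using H

end Pool.Agent.Lib.MP_b09185_nt.Vin
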