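import Mathlib

namespace Pool.Agent.Lib.MP_b09185_nt

/-- The product of `1 - 1/p` over the primes `p ≤ z`. -/
noncomputable def Theta (z : ℝ) : ℝ := ∏ p ∈ Nat.primesLE ⌊z⌋₊, (1 - 1 / (p : ℝ))

/-- The random sieve set of Banks, Ford and Tao attached to the residue classes `c p`. -/
def model (c : (p : Nat.Primes) → ZMod p) : Set ℕ :=
  {n | 8 ≤ n ∧ ∀ p : Nat.Primes, (Theta p)⁻¹ ≤ Real.log n → (n : ZMod p) ≠ c p}

/-- Independent uniform residue classes. -/
noncomputable def law : MeasureTheory.Measure ((p : Nat.Primes) → ZMod p) :=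
  MeasureTheory.Measure.infinitePi fun _ => ProbabilityTheory.uniformOn Set.univ

/-- The normalised count of elements of `A` in the interval of length `(log x) ^ a` after `x`. -/
noncomputable def ratio (A : Set ℕ) (a x : ℝ) : ℝ :=
  Real.log x / Real.log x ^ a * {n ∈ A | x < n ∧ n ≤ x + Real.log x ^ a}.ncard

/-- The normalised count of integers in `(t.1, t.1 + t.2 ^ a]` free of primes up to `t.2`. -/
noncomputable def sieveRatio (a : ℝ) (t : ℕ × ℝ) : ℝ :=
  {n : ℕ | t.1 < n ∧ n ≤ t.1 + t.2 ^ a ∧ ∀ p : ℕ, p.Prime → p ≤ t.2 → ¬ p ∣ n}.ncard /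
    (t.2 ^ a * Theta t.2)

end Pool.Agent.Lib.MP_b09185_nt
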