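import Mathlib
import Pool.Agent.Lib.MP_b09185_nt.Defs
import Pool.Agent.Lib.MP_b09185_nt.FL

/-! Concentration of the random sieve. -/

namespace Pool.Agent.Lib.MP_b09185_nt

open Finset Nat MeasureTheory ProbabilityTheory

abbrev Om := (p : Nat.Primes) → ZMod p

instance nz (p : Nat.Primes) : NeZero (p : ℕ) := ⟨p.2.ne_zero⟩

instance : IsProbabilityMeasure law := by unfold law; infer_instance

def cl (ω : Om) (q : ℕ) : ℕ := if h : q.Prime then (ω ⟨q, h⟩).val else 0

lemma cl_iff (ω : Om) (p : Nat.Primes) (n : ℕ) : n ≡ cl ω p [MOD p] ↔ (n : ZMod p) = ω p := by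
  rw [cl, dif_pos p.2, ← ZMod.natCast_eq_natCast_iff, ZMod.natCast_zmod_val]
  rfl

lemma cl_update_ne (ω : Om) (p : Nat.Primes) (v : ZMod p) {q : ℕ} (h : q ≠ p) :
    cl (Function.update ω p v) q = cl ω q := by
  unfold cl
  split_ifs with hq
  · exact congrArg ZMod.val (Function.update_of_ne (a := (⟨q, hq⟩ : Nat.Primes)) (a' := p)
      (fun h' => h (congrArg Subtype.val h')) v ω)
  · rfl

lemma meas_hit (q n : ℕ) : MeasurableSet {ω : Om | n ≡ cl ω q [MOD q]} := by
  by_cases h : q.Prime
  · have : {ω : Om | n ≡ cl ω q [MOD q]} =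
        (fun ω : Om => ω ⟨q, h⟩) ⁻¹' {(n : ZMod q)} := by
      ext ω
      exact (cl_iff ω ⟨q, h⟩ n).trans eq_comm
    rw [this]
    exact measurable_pi_apply _ (MeasurableSet.of_discrete)
  · simp [cl, h]

lemma meas_cnt (x H N : ℕ) : Measurable fun ω : Om => (cnt (cl ω) x H ∅ N : ℝ) := by
  simp only [cnt, card_filter, Nat.cast_sum]
  apply Finset.measurable_sum
  intro n _
  simp only [notMem_empty, IsEmpty.forall_iff, implies_true, true_and, Nat.cast_ite]
  refine Measurable.ite ?_ measurable_const measurable_const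
  have : {ω : Om | ∀ q ∈ primesLE N, ¬ n ≡ cl ω q [MOD q]} =
      ⋂ q ∈ primesLE N, {ω : Om | n ≡ cl ω q [MOD q]}ᶜ := by
    ext ω; simp
  rw [this]
  exact Finset.measurableSet_biInter _ fun q _ => (meas_hit q n).compl

lemma shift_inv (p : Nat.Primes) (v : ZMod p) :
    law.map (fun ω : Om => Function.update ω p (ω p + v)) = law := by
  classical
  have e : (fun ω : Om => Function.update ω p (ω p + v)) =
      fun ω i => (fun (i : Nat.Primes) (y : ZMod i) => y + (Pi.single p v : Om) i) i (ω i) := by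
    funext ω i
    by_cases h : i = p
    · subst h; simp
    · simp [h]
  rw [e, law]
  refine (Measure.infinitePi_map_pi (fun i : Nat.Primes => uniformOn (Set.univ : Set (ZMod i)))
    (f := fun (i : Nat.Primes) (y : ZMod i) => y + (Pi.single p v : Om) i)
    (fun i => Measurable.of_discrete)).trans ?_
  congr 1
  funext i
  ext s hs
  rw [Measure.map_apply Measurable.of_discrete hs, uniformOn_univ, uniformOn_univ]
  congr 1
  exact measure_preimage_add_right _ _ _

lemma resample_le (p : Nat.Primes) {F G : Om → ℝ} (hF : Measurable F)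
    (h : ∀ ω, ∑ v, Real.exp (F (Function.update ω p v)) ≤ (p : ℕ) * Real.exp (G ω)) :
    ∫⁻ ω, ENNReal.ofReal (Real.exp (F ω)) ∂law ≤ ∫⁻ ω, ENNReal.ofReal (Real.exp (G ω)) ∂law := by
  classical
  have hm : ∀ v : ZMod p, Measurable fun ω : Om => Function.update ω p (ω p + v) := fun v =>
    (measurable_update' (a := p)).comp (measurable_id.prodMk
      ((Measurable.of_discrete (f := fun y : ZMod p => y + v)).comp
        (measurable_pi_apply (X := fun i : Nat.Primes => ZMod i) p)))
  have hf : Measurable fun ω => ENNReal.ofReal (Real.exp (F ω)) := by fun_prop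
  have h1 : ∀ v : ZMod p, ∫⁻ ω, ENNReal.ofReal (Real.exp (F ω)) ∂law =
      ∫⁻ ω, ENNReal.ofReal (Real.exp (F (Function.update ω p (ω p + v)))) ∂law := by
    intro v
    conv_lhs => rw [← shift_inv p v]
    rw [lintegral_map hf (hm v)]
  have hp : ((p : ℕ) : ENNReal) ≠ 0 := by exact_mod_cast p.2.ne_zero
  rw [← ENNReal.mul_le_mul_iff_right hp (ENNReal.natCast_ne_top _)]
  calc ((p : ℕ) : ENNReal) * ∫⁻ ω, ENNReal.ofReal (Real.exp (F ω)) ∂law
      = ∑ v : ZMod p, ∫⁻ ω, ENNReal.ofReal
          (Real.exp (F (Function.update ω p (ω p + v)))) ∂law := by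
        rw [← sum_congr rfl fun v _ => h1 v, sum_const, Finset.card_univ, ZMod.card, nsmul_eq_mul]
    _ = ∫⁻ ω, ∑ v : ZMod p, ENNReal.ofReal
          (Real.exp (F (Function.update ω p (ω p + v)))) ∂law :=
        (lintegral_finsetSum _ fun v _ => hf.comp (hm v)).symm
    _ ≤ ∫⁻ ω, ((p : ℕ) : ENNReal) * ENNReal.ofReal (Real.exp (G ω)) ∂law := by
        apply lintegral_mono
        intro ω
        simp only
        rw [← ENNReal.ofReal_sum_of_nonneg fun _ _ => (Real.exp_pos _).le,
          ← ENNReal.ofReal_natCast, ← ENNReal.ofReal_mul (Nat.cast_nonneg _)]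
        apply ENNReal.ofReal_le_ofReal
        refine le_trans (le_of_eq ?_) (h ω)
        exact Equiv.sum_comp (Equiv.addLeft (ω p))
          (fun v => Real.exp (F (Function.update ω p v)))
    _ = _ := lintegral_const_mul' _ _ (ENNReal.natCast_ne_top _)

lemma exp_avg {ι : Type} [Fintype ι] (n : ι → ℝ) (q b A μ : ℝ) (hq : q = Fintype.card ι)
    (hq0 : 0 < q) (h0 : ∀ v, 0 ≤ n v) (hb : ∀ v, n v ≤ b) (hA : ∑ v, n v = A) (hμ : |μ| * b ≤ 1) :
    ∑ v, Real.exp (μ * (A - n v)) ≤ q * Real.exp (μ * A * (1 - 1 / q) + μ ^ 2 * b * A / q) := by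
  have hA0 : 0 ≤ A := hA ▸ sum_nonneg fun v _ => h0 v
  have hAb : A / q ≤ b := by
    rw [div_le_iff₀ hq0, ← hA, hq]
    refine (sum_le_sum fun v _ => hb v).trans ?_
    simp [mul_comm]
  have hAq : 0 ≤ A / q := by positivity
  have h1 : ∀ v, Real.exp (μ * (A - n v)) ≤ Real.exp (μ * A * (1 - 1 / q)) *
      (1 + μ * (A / q - n v) + (μ * (A / q - n v)) ^ 2) := by
    intro v
    have e : μ * (A - n v) = μ * A * (1 - 1 / q) + μ * (A / q - n v) := by ring
    rw [e, Real.exp_add]
    apply mul_le_mul_of_nonneg_left _ (Real.exp_pos _).le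
    have : |μ * (A / q - n v)| ≤ 1 := by
      rw [abs_mul]
      refine le_trans (mul_le_mul_of_nonneg_left ?_ (abs_nonneg _)) hμ
      rw [abs_le]; constructor <;> linarith [h0 v, hb v]
    linarith [(abs_le.1 (Real.abs_exp_sub_one_sub_id_le this)).2]
  refine (sum_le_sum fun v _ => h1 v).trans ?_
  rw [← mul_sum, Real.exp_add, mul_left_comm]
  apply mul_le_mul_of_nonneg_left _ (Real.exp_pos _).le
  have h2 : ∀ v, 1 + μ * (A / q - n v) + (μ * (A / q - n v)) ^ 2 ≤
      (1 + μ * (A / q) + μ ^ 2 * (A / q) ^ 2) + (μ ^ 2 * b - μ - 2 * μ ^ 2 * (A / q)) * n v := by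
    intro v
    have := mul_le_mul_of_nonneg_left (mul_le_mul_of_nonneg_left (hb v) (h0 v)) (sq_nonneg μ)
    nlinarith
  refine (sum_le_sum fun v _ => h2 v).trans ?_
  rw [sum_add_distrib, ← mul_sum, hA, sum_const, Finset.card_univ, nsmul_eq_mul, ← hq]
  have h3 := Real.add_one_le_exp (μ ^ 2 * b * A / q)
  have h4 : q * (1 + μ * (A / q) + μ ^ 2 * (A / q) ^ 2) +
      (μ ^ 2 * b - μ - 2 * μ ^ 2 * (A / q)) * A =
      q * (μ ^ 2 * b * A / q + 1) - μ ^ 2 * (A / q) * A := by
    field_simp; ring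
  have h5 : 0 ≤ μ ^ 2 * (A / q) * A := by positivity
  rw [h4]
  nlinarith

lemma cnt_update_lt (ω : Om) (p : Nat.Primes) (v : ZMod p) (x H : ℕ) {N : ℕ} (h : N < p) :
    cnt (cl (Function.update ω p v)) x H ∅ N = cnt (cl ω) x H ∅ N := by
  unfold cnt
  congr 1
  apply filter_congr
  intro n _
  simp only [notMem_empty, IsEmpty.forall_iff, implies_true, true_and]
  refine forall₂_congr fun q hq => ?_
  rw [cl_update_ne ω p v (by have := le_of_mem_primesLE hq; omega)]

lemma step_pointwise (ω : Om) (x H N : ℕ) (p : Nat.Primes) (hN : (p : ℕ) = N + 1) (μ : ℝ)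
    (hμ : |μ| * (H / (N + 1 : ℕ) + 1) ≤ 1) :
    ∑ v, Real.exp (μ * cnt (cl (Function.update ω p v)) x H ∅ (N + 1)) ≤
      (N + 1 : ℕ) * Real.exp (μ * cnt (cl ω) x H ∅ N * (1 - 1 / (N + 1 : ℕ)) +
        μ ^ 2 * (H / (N + 1 : ℕ) + 1) * cnt (cl ω) x H ∅ N / (N + 1 : ℕ)) := by
  classical
  have hp : (N + 1).Prime := hN ▸ p.2
  set A := {n ∈ Ioc x (x + H) | (∀ q ∈ (∅ : Finset ℕ), n ≡ cl ω q [MOD q]) ∧
    ∀ q ∈ primesLE N, ¬ n ≡ cl ω q [MOD q]} with hA
  set B : ZMod p → Finset ℕ := fun v => A.filter (fun n : ℕ => (n : ZMod p) = v) with hB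
  have e : ∀ v : ZMod p, (cnt (cl (Function.update ω p v)) x H ∅ (N + 1) : ℝ) =
      cnt (cl ω) x H ∅ N - #(B v) := by
    intro v
    rw [eq_sub_iff_add_eq, show cnt (cl ω) x H ∅ N = #A from rfl,
      ← card_filter_add_card_filter_not (s := A) (fun n : ℕ => (n : ZMod p) = v), add_comm]
    push_cast
    congr 2
    rw [hA, filter_filter, cnt]
    congr 1
    apply filter_congr
    intro n _
    simp only [notMem_empty, IsEmpty.forall_iff, implies_true, true_and, primesLE_succ,
      if_pos hp, forall_mem_insert]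
    rw [and_comm]
    apply and_congr
    · refine forall₂_congr fun q hq => ?_
      rw [cl_update_ne ω p v (by have := le_of_mem_primesLE hq; omega)]
    · have := cl_iff (Function.update ω p v) p n
      rw [Function.update_self] at this
      rw [← hN]
      exact not_congr this
  simp only [e]
  apply exp_avg (fun v : ZMod p => (#(B v) : ℝ))
  · rw [ZMod.card, hN]
  · positivity
  · intro v; positivity
  · intro v
    have h1 := (abs_le.1 (class_count x H p v.val p.2.pos)).2
    have h2 : #(B v) ≤ #{n ∈ Ioc x (x + H) | n ≡ v.val [MOD p]} := by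
      apply card_le_card
      intro n hn
      obtain ⟨a1, a2⟩ := mem_filter.1 hn
      refine mem_filter.2 ⟨(mem_filter.1 a1).1, ?_⟩
      rw [← a2, ZMod.val_natCast]
      exact (Nat.mod_modEq _ _).symm
    have h3 : (#(B v) : ℝ) ≤
        #{n ∈ Ioc x (x + H) | n ≡ v.val [MOD p]} := by exact_mod_cast h2
    rw [← hN]
    linarith
  · have := card_eq_sum_card_fiberwise (s := A) (t := univ) (f := fun n : ℕ => (n : ZMod p))
      (fun _ _ => mem_univ _)
    exact_mod_cast this.symm
  · exact hμ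

/-- variance proxy -/
noncomputable def sv (H w N : ℕ) : ℝ :=
  ∑ q ∈ primesLE N \ primesLE w, 2 * (H / (q : ℝ) + 1) / (q * th q)

lemma sv_nonneg (H w N : ℕ) : 0 ≤ sv H w N :=
  sum_nonneg fun q _ => by have := th_pos q; positivity

lemma mgf (x H w z : ℕ) (c : ℝ) (hc : 0 < c) (h1 : sv H w z ≤ c)
    (h2 : ∀ q, q.Prime → w < q → q ≤ z → (H / (q : ℝ) + 1) / th q ≤ c) (N : ℕ) (hw : w ≤ N) :
    N ≤ z → ∀ l : ℝ, |l| ≤ (2 - sv H w N / c) / (12 * c) →
      ∫⁻ ω, ENNReal.ofReal (Real.exp (l * (cnt (cl ω) x H ∅ N / th N) -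
        (l + 2 * sv H w N * l ^ 2) * (cnt (cl ω) x H ∅ w / th w))) ∂law ≤ 1 := by
  induction N, hw using Nat.le_induction with
  | base =>
    intro _ l _
    simp [sv]
  | succ N hw ih =>
    intro hz l hl
    by_cases hp : (N + 1).Prime
    swap
    · have e : primesLE (N + 1) = primesLE N := by rw [primesLE_succ, if_neg hp]
      have e1 : sv H w (N + 1) = sv H w N := by simp only [sv, e]
      have e2 : th (N + 1) = th N := by simp only [th, e]
      have e3 : ∀ c, cnt c x H ∅ (N + 1) = cnt c x H ∅ N := fun c => by simp only [cnt, e]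
      simp only [e1, e2, e3] at hl ⊢
      exact ih (by omega) l hl
    have e : primesLE (N + 1) = insert (N + 1) (primesLE N) := by rw [primesLE_succ, if_pos hp]
    set q : ℝ := ((N + 1 : ℕ) : ℝ) with hq
    have hq2 : 2 ≤ q := by rw [hq]; exact_mod_cast hp.two_le
    set b : ℝ := H / q + 1 with hb
    have hb0 : 0 < b := by positivity
    have t1 := th_pos N
    have t2 := th_pos (N + 1)
    have t3 := th_pos w
    set cq : ℝ := 2 * b / (q * th (N + 1)) with hcq
    have hcq0 : 0 < cq := by positivity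
    have e1 : sv H w (N + 1) = sv H w N + cq := by
      rw [sv, e, insert_sdiff_of_notMem _ (fun h => by
        have := le_of_mem_primesLE h; omega), sum_insert (fun h =>
        notMem_primesLE N (mem_sdiff.1 h).1), add_comm]
      rfl
    have e2 : th (N + 1) = th N * (1 - 1 / q) := by
      rw [th, e, prod_insert (notMem_primesLE N), mul_comm]; rfl
    have s0 := sv_nonneg H w N
    have s1 : sv H w (N + 1) ≤ c := by
      refine le_trans (sum_le_sum_of_subset_of_nonneg
        (sdiff_subset_sdiff (primesLE_mono hz) Subset.rfl) ?_) h1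
      intro q _ _
      have := th_pos q; positivity
    set s := sv H w N with hs
    rw [e1] at hl s1 ⊢
    have hl1 : |l| * c ≤ 1 / 6 := by
      rw [le_div_iff₀ (by positivity)] at hl
      have : 0 ≤ (s + cq) / c := by positivity
      linarith
    have hl0 := abs_nonneg l
    have hl2 : |l| * cq ≤ 1 / 6 := le_trans (by gcongr; linarith) hl1
    have hl3 : |l| * s ≤ 1 / 6 := le_trans (by gcongr; linarith) hl1
    refine le_trans ?_ (ih (by omega) (l + cq * l ^ 2) ?_)
    · apply resample_le ⟨N + 1, hp⟩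
      · have := meas_cnt x H (N + 1)
        have := meas_cnt x H w
        fun_prop
      intro ω
      have hstep := step_pointwise ω x H N ⟨N + 1, hp⟩ rfl (l / th (N + 1)) (by
        rw [abs_div, abs_of_pos t2, div_mul_eq_mul_div, mul_div_assoc]
        have := h2 (N + 1) hp (by omega) hz
        calc _ ≤ |l| * c := mul_le_mul_of_nonneg_left this hl0
          _ ≤ 1 := by linarith)
      simp only [cnt_update_lt ω ⟨N + 1, hp⟩ _ x H (show w < N + 1 by omega), Real.exp_sub,
        ← sum_div]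
      have e3 : ∀ y : ℝ, l * (y / th (N + 1)) = l / th (N + 1) * y := fun y => by ring
      simp only [e3]
      set A : ℝ := (cnt (cl ω) x H ∅ N : ℝ)
      set W : ℝ := (cnt (cl ω) x H ∅ w : ℝ) / th w
      refine le_trans ?_ (le_of_eq (mul_div_assoc _ _ _))
      have hA0 : 0 ≤ A := Nat.cast_nonneg _
      have hW0 : 0 ≤ W := by positivity
      apply div_le_div₀ (by positivity) (hstep.trans ?_) (Real.exp_pos _)
      · apply Real.exp_le_exp.2
        apply mul_le_mul_of_nonneg_right _ hW0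
        have a1 : (l + cq * l ^ 2) ^ 2 ≤ l ^ 2 * (1 + 3 * (|l| * cq)) := by
          have : (l + cq * l ^ 2) ^ 2 = l ^ 2 * (1 + 2 * (l * cq) + (|l| * cq) ^ 2) := by
            rw [mul_pow, sq_abs]; ring
          rw [this]
          apply mul_le_mul_of_nonneg_left _ (sq_nonneg l)
          have b1 : l * cq ≤ |l| * cq := mul_le_mul_of_nonneg_right (le_abs_self l) hcq0.le
          have b2 : 0 ≤ |l| * cq := by positivity
          nlinarith
        have a2 : 2 * s * (l + cq * l ^ 2) ^ 2 ≤ 2 * s * (l ^ 2 * (1 + 3 * (|l| * cq))) := by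
          gcongr
        have a3 : 6 * (|l| * s) * (cq * l ^ 2) ≤ 1 * (cq * l ^ 2) :=
          mul_le_mul_of_nonneg_right (by linarith) (by positivity)
        nlinarith
      · apply mul_le_mul_of_nonneg_left _ (by positivity)
        apply Real.exp_le_exp.2
        have hf : 0 < 1 - 1 / q := factor_pos hp
        have a1 : l / th (N + 1) * A * (1 - 1 / q) = l * (A / th N) := by
          rw [e2]
          generalize 1 - 1 / q = u at hf
          field_simp
        have a2 : (l / th (N + 1)) ^ 2 * b * A / q ≤ cq * l ^ 2 * (A / th N) := by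
          have : 1 / q ≤ 1 / 2 := one_div_le_one_div_of_le (by norm_num) hq2
          have a3 : 1 / th (N + 1) ≤ 2 / th N := by
            rw [div_le_div_iff₀ t2 t1, e2]; nlinarith
          calc _ = l ^ 2 * b * A / (q * th (N + 1)) * (1 / th (N + 1)) := by field_simp
            _ ≤ l ^ 2 * b * A / (q * th (N + 1)) * (2 / th N) := by gcongr
            _ = _ := by rw [hcq]; field_simp
        rw [a1]
        linarith
    · have a1 : |l + cq * l ^ 2| ≤ |l| + cq * l ^ 2 := by
        refine (abs_add_le _ _).trans ?_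
        rw [abs_of_nonneg (by positivity : 0 ≤ cq * l ^ 2)]
      have a2 : l ^ 2 ≤ 1 / (12 * c ^ 2) := by
        rw [← sq_abs, le_div_iff₀ (by positivity)]
        have : 0 ≤ |l| * c := by positivity
        nlinarith
      have a3 : (2 - s / c) / (12 * c) = (2 - (s + cq) / c) / (12 * c) + cq * (1 / (12 * c ^ 2)) := by
        field_simp; ring
      rw [a3]
      have := mul_le_mul_of_nonneg_left a2 hcq0.le
      linarith

lemma cnt_le (c : ℕ → ℕ) (x H : ℕ) (Q : Finset ℕ) (N : ℕ) : cnt c x H Q N ≤ H :=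
  (card_filter_le _ _).trans (by simp)

theorem tail (x H w z : ℕ) (c : ℝ) (hc : 0 < c) (hwz : w ≤ z) (h1 : sv H w z ≤ c)
    (h2 : ∀ q, q.Prime → w < q → q ≤ z → (H / (q : ℝ) + 1) / th q ≤ c) {ε : ℝ} (hε : 0 < ε)
    (hε' : ε ≤ 1 / 3) :
    law {ω | ε * H ≤ |cnt (cl ω) x H ∅ z / th z - cnt (cl ω) x H ∅ w / th w|} ≤
      2 * ENNReal.ofReal (Real.exp (-(ε ^ 2 * H * th w / (8 * c)))) := by
  have t1 := th_pos w
  have t2 := th_le_one w
  have s0 := sv_nonneg H w z
  have key : ∀ σ : ℝ, |σ| = 1 →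
      law {ω | ε * H ≤ σ * (cnt (cl ω) x H ∅ z / th z - cnt (cl ω) x H ∅ w / th w)} ≤
        ENNReal.ofReal (Real.exp (-(ε ^ 2 * H * th w / (8 * c)))) := by
    intro σ hσ
    have hσ2 : σ ^ 2 = 1 := by rw [← sq_abs, hσ]; norm_num
    set l : ℝ := ε * th w / (4 * c) with hl
    have hl0 : 0 < l := by positivity
    have hm := mgf x H w z c hc h1 h2 z hwz le_rfl (σ * l) (by
      rw [abs_mul, hσ, one_mul, abs_of_pos hl0, hl, div_le_div_iff₀ (by positivity) (by positivity)]
      have a1 : sv H w z / c ≤ 1 := (div_le_one hc).2 h1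
      have a2 : ε * th w ≤ 1 / 3 := by nlinarith
      nlinarith)
    have hf : Measurable fun ω : Om => ENNReal.ofReal (Real.exp (σ * l *
        (cnt (cl ω) x H ∅ z / th z) - (σ * l + 2 * sv H w z * (σ * l) ^ 2) *
        (cnt (cl ω) x H ∅ w / th w))) := by
      have := meas_cnt x H z
      have := meas_cnt x H w
      fun_prop
    have := meas_ge_le_lintegral_div (μ := law) hf.aemeasurable
      (ε := ENNReal.ofReal (Real.exp (ε ^ 2 * H * th w / (8 * c))))
      (by simp [Real.exp_pos]) ENNReal.ofReal_ne_top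
    refine le_trans (measure_mono ?_) (this.trans ?_)
    · intro ω hω
      simp only [Set.mem_ofPred_eq] at hω ⊢
      apply ENNReal.ofReal_le_ofReal
      apply Real.exp_le_exp.2
      have a1 : (cnt (cl ω) x H ∅ w : ℝ) / th w ≤ H / th w := by
        gcongr; exact_mod_cast cnt_le _ _ _ _ _
      have a2 : 2 * sv H w z * (σ * l) ^ 2 * (cnt (cl ω) x H ∅ w / th w) ≤
          2 * c * l ^ 2 * (H / th w) := by
        rw [mul_pow, hσ2, one_mul]; gcongr
      have a3 : ε ^ 2 * H * th w / (8 * c) = l * (ε * H) - 2 * c * l ^ 2 * (H / th w) := by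
        rw [hl]; field_simp; ring
      have a4 := mul_le_mul_of_nonneg_left hω hl0.le
      rw [a3]
      nlinarith
    · rw [Real.exp_neg, ENNReal.ofReal_inv_of_pos (Real.exp_pos _), ← one_div]
      exact ENNReal.div_le_div_right hm _
  rw [two_mul]
  refine le_trans (measure_mono ?_) ((measure_union_le _ _).trans
    (add_le_add (key 1 abs_one) (key (-1) (by simp))))
  intro ω hω
  simp only [Set.mem_ofPred_eq, Set.mem_union, one_mul, neg_one_mul] at hω ⊢
  exact le_abs.1 hω

end Pool.Agent.Lib.MP_b09185_nt
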