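import Mathlib
import Pool.Agent.Lib.MP_b09185_nt.FL
import Pool.Agent.Lib.MP_be93de_nt.Rough

/-! Deterministic sieve comparisons. -/

namespace Pool.Agent.Lib.MP_b09185_nt

open Finset Nat Filter
open Pool.Agent.Lib.MP_6a20cc_nt

lemma th_inv_le (N : ℕ) : (th N)⁻¹ ≤ Real.exp 76 * (1 + Real.log N) ^ 2 := by
  have h0 : 0 < 1 + Real.log N := by have := Real.log_natCast_nonneg N; linarith
  have h1 := prod_factor_ge (P := primesLE N) fun _ hp => prime_of_mem_primesLE hp
  have h2 := Pool.Agent.Lib.MP_be93de_nt.mertens2 N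
  rw [inv_le_comm₀ (th_pos N) (by positivity)]
  refine le_trans (le_of_eq ?_) ((Real.exp_le_exp.2 (by linarith :
    -(76 + 2 * Real.log (1 + Real.log N)) ≤ _)).trans h1)
  rw [Real.exp_neg, Real.exp_add, two_mul, Real.exp_add, Real.exp_log h0, pow_two]

lemma sum_le_log (N : ℕ) : ∑ p ∈ primesLE N, 1 / (p : ℝ) ≤ Real.log (th N)⁻¹ := by
  rw [Real.log_inv, le_neg, Real.log_le_iff_le_exp (th_pos N), ← sum_neg_distrib, Real.exp_sum]
  exact prod_le_prod (fun _ hp => (factor_pos (prime_of_mem_primesLE hp)).le) fun p _ => by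
    have := Real.add_one_le_exp (-(1 / (p : ℝ)))
    linarith

lemma ev_log (K δ : ℝ) (hδ : 0 < δ) : ∀ᶠ L : ℝ in atTop, K * Real.log L ^ 4 ≤ L ^ δ := by
  have h := (isLittleO_log_rpow_rpow_atTop (4 : ℕ) hδ).const_mul_left K
  filter_upwards [h.eventuallyLE, eventually_ge_atTop 0] with L h1 h2
  rw [Real.norm_of_nonneg (Real.rpow_nonneg h2 _), Real.rpow_natCast] at h1
  exact (le_abs_self _).trans h1

lemma range_sum {a b : ℕ} (ha : 2 ≤ a) (hab : a ≤ b) :
    ∑ p ∈ primesLE b \ primesLE a, 1 / (p : ℝ) ≤ (Real.log b - Real.log a + 20) / Real.log a := by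
  have ha' : (1 : ℝ) < a := by exact_mod_cast ha
  have hl := Real.log_pos ha'
  rw [le_div_iff₀ hl, sum_mul]
  have h1 := sum0_upper b
  have h2 := sum0_lower a
  have h3 := log_succ_ge a
  have h4 := sum_sdiff (f := fun p : ℕ => Real.log p / p) (primesLE_mono hab)
  refine le_trans (sum_le_sum (g := fun p : ℕ => Real.log p / p) ?_) (by linarith)
  intro p hp
  obtain ⟨a1, a2⟩ := mem_sdiff.1 hp
  have : a ≤ p := by
    by_contra h
    exact a2 (mem_primesLE.2 ⟨by omega, prime_of_mem_primesLE a1⟩)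
  have h5 : Real.log a ≤ Real.log p := Real.log_le_log (by linarith) (by exact_mod_cast this)
  rw [one_div_mul_eq_div]
  gcongr

lemma one_sub_sum_le {P : Finset ℕ} (hP : ∀ p ∈ P, p.Prime) :
    1 - ∑ p ∈ P, 1 / (p : ℝ) ≤ ∏ p ∈ P, (1 - 1 / (p : ℝ)) := by
  induction P using Finset.induction_on with
  | empty => simp
  | insert a P ha ih =>
    rw [sum_insert ha, prod_insert ha]
    have h1 := ih fun p hp => hP p (mem_insert_of_mem hp)
    have h2 := factor_pos (hP a (mem_insert_self _ _))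
    have h3 : 0 ≤ ∑ p ∈ P, 1 / (p : ℝ) := sum_nonneg fun _ _ => by positivity
    have h4 : 0 ≤ 1 / (a : ℝ) := by positivity
    nlinarith [mul_le_mul_of_nonneg_left h1 h2.le, mul_nonneg h3 h4]

lemma cnt_anti (c : ℕ → ℕ) (x H : ℕ) (Q : Finset ℕ) {M N : ℕ} (h : M ≤ N) :
    cnt c x H Q N ≤ cnt c x H Q M := by
  apply card_le_card
  intro n hn
  simp only [mem_filter] at hn ⊢
  exact ⟨hn.1, hn.2.1, fun q hq => hn.2.2 q (primesLE_mono h hq)⟩

lemma cnt_diff (c : ℕ → ℕ) (x H : ℕ) {y M N : ℕ} (hy : y ≤ M) :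
    cnt c x H ∅ M ≤ cnt c x H ∅ N + ∑ q ∈ primesLE N \ primesLE M, cnt c x H {q} y := by
  unfold cnt
  refine le_trans (card_le_card ?_) ((card_union_le _ _).trans (Nat.add_le_add le_rfl card_biUnion_le))
  intro n hn
  simp only [mem_filter, mem_union, mem_biUnion, Finset.mem_sdiff, notMem_empty, IsEmpty.forall_iff,
    implies_true, true_and, mem_singleton, forall_eq] at hn ⊢
  by_cases h : ∀ q ∈ primesLE N, ¬ n ≡ c q [MOD q]
  · exact Or.inl ⟨hn.1, h⟩
  · push Not at h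
    obtain ⟨q, hq, h⟩ := h
    exact Or.inr ⟨q, ⟨hq, fun h' => hn.2 q h' h⟩, hn.1, h,
      fun r hr => hn.2 r (primesLE_mono hy hr)⟩

lemma cnt_len (c : ℕ → ℕ) (x N : ℕ) {H H' : ℕ} (h : H' ≤ H) :
    cnt c x H' ∅ N ≤ cnt c x H ∅ N ∧ cnt c x H ∅ N ≤ cnt c x H' ∅ N + (H - H') := by
  unfold cnt
  constructor
  · exact card_le_card (filter_subset_filter _ (Ioc_subset_Ioc_right (by omega)))
  · have : H - H' = #(Ioc (x + H') (x + H)) := by simp; omega
    rw [this]
    refine le_trans (card_le_card ?_) (card_union_le _ _)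
    intro n hn
    simp only [mem_filter, mem_union, mem_Ioc] at hn ⊢
    by_cases h : n ≤ x + H'
    · exact Or.inl ⟨⟨hn.1.1, h⟩, hn.2⟩
    · exact Or.inr ⟨by omega, hn.1.2⟩

lemma cnt_shift (c c' : ℕ → ℕ) (x x' H N : ℕ)
    (h : ∀ q ∈ primesLE N, x + c' q ≡ x' + c q [MOD q]) : cnt c x H ∅ N = cnt c' x' H ∅ N := by
  have key : ∀ i, ∀ q ∈ primesLE N, x + i ≡ c q [MOD q] ↔ x' + i ≡ c' q [MOD q] := by
    intro i q hq
    have := h q hq
    rw [← ZMod.natCast_eq_natCast_iff] at this ⊢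
    rw [← ZMod.natCast_eq_natCast_iff]
    push_cast at this ⊢
    constructor
    · intro h1; linear_combination h1 - this
    · intro h1; linear_combination h1 + this
  unfold cnt
  apply card_bij' (fun n _ => x' + (n - x)) (fun n _ => x + (n - x'))
  · intro n hn
    simp only [mem_filter, mem_Ioc, notMem_empty, IsEmpty.forall_iff, implies_true,
      true_and] at hn ⊢
    refine ⟨by omega, fun q hq h1 => hn.2 q hq ?_⟩
    have := (key (n - x) q hq).2 h1
    rwa [show x + (n - x) = n by omega] at this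
  · intro n hn
    simp only [mem_filter, mem_Ioc, notMem_empty, IsEmpty.forall_iff, implies_true,
      true_and] at hn ⊢
    refine ⟨by omega, fun q hq h1 => hn.2 q hq ?_⟩
    have := (key (n - x') q hq).1 h1
    rwa [show x' + (n - x') = n by omega] at this
  · intro n hn
    simp only [mem_filter, mem_Ioc] at hn
    omega
  · intro n hn
    simp only [mem_filter, mem_Ioc] at hn
    omega

theorem det : ∃ C : ℝ, 1 ≤ C ∧ ∀ᶠ L : ℝ in atTop, ∀ (c : ℕ → ℕ) (x H w' w : ℕ),
    L ^ 2 / 2 ≤ H → L / 4 ≤ w' → w' ≤ w → w ≤ L ^ (3 / 2 : ℝ) →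
    cnt c x H ∅ w' / th w ≤ C * H ∧
    |cnt c x H ∅ w / th w - cnt c x H ∅ w' / th w'| ≤
      C * ((Real.log w - Real.log w' + 20) / Real.log L) * H := by
  obtain ⟨B, hB1, hB⟩ := fl one_pos
  have hB0 : (0 : ℝ) < B := by exact_mod_cast hB1
  have hB1' : (1 : ℝ) ≤ B := by exact_mod_cast hB1
  set E := Real.exp (40 * B) with hE
  have hE1 : 1 ≤ E := Real.one_le_exp (by positivity)
  refine ⟨4 * E + 2, by linarith, ?_⟩
  have t1 := (tendsto_rpow_atTop (y := 1 / (8 * B)) (by positivity)).eventually_ge_atTop 2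
  have t2 := Real.tendsto_log_atTop.eventually_ge_atTop 20
  filter_upwards [t1, t2, ev_log (18 * Real.exp 76) (1 / 4) (by norm_num), eventually_ge_atTop 16]
    with L h1 h2 h3 h4 c x H w' w hH hw' hww hw
  have hL0 : 0 < L := by linarith
  have hL1 : 1 ≤ L := by linarith
  set y := ⌊L ^ (1 / (4 * B) : ℝ)⌋₊ with hy
  have y0 : L ^ (1 / (4 * B) : ℝ) = (L ^ (1 / (8 * B) : ℝ)) ^ 2 := by
    rw [← Real.rpow_natCast, ← Real.rpow_mul hL0.le]; congr 1; push_cast; field_simp; norm_num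
  have y1 : L ^ (1 / (8 * B) : ℝ) ≤ y := by
    have := Nat.lt_floor_add_one (L ^ (1 / (4 * B) : ℝ))
    rw [← hy, y0] at this
    nlinarith
  have y2 : 2 ≤ y := by exact_mod_cast h1.trans y1
  have y3 : (y : ℝ) ≤ L ^ (1 / (4 * B) : ℝ) := Nat.floor_le (by positivity)
  have y4 : (y : ℝ) ^ B ≤ L ^ (1 / 4 : ℝ) := by
    refine (pow_le_pow_left₀ (by positivity) y3 B).trans (le_of_eq ?_)
    rw [← Real.rpow_natCast, ← Real.rpow_mul hL0.le]; congr 1; field_simp
  have s1 : L ^ (1 / 2 : ℝ) ≤ w' := by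
    refine le_trans ?_ hw'
    have a1 : L ^ (1 / 2 : ℝ) * L ^ (1 / 2 : ℝ) = L := by
      rw [← Real.rpow_add hL0]; norm_num
    have a2 : 4 ≤ L ^ (1 / 2 : ℝ) := by
      by_contra h
      have : 0 ≤ L ^ (1 / 2 : ℝ) := by positivity
      nlinarith
    nlinarith
  have y5 : y ≤ w' := by
    have : L ^ (1 / (4 * B) : ℝ) ≤ L ^ (1 / 2 : ℝ) := Real.rpow_le_rpow_of_exponent_le hL1
      (one_div_le_one_div_of_le (by norm_num) (by linarith))
    exact_mod_cast (y3.trans this).trans s1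
  have l1 : Real.log L / (8 * B) ≤ Real.log y := by
    have := Real.log_le_log (by positivity) y1
    rwa [Real.log_rpow hL0, one_div_mul_eq_div] at this
  have l2 : Real.log L / 2 ≤ Real.log w' := by
    have := Real.log_le_log (by positivity) s1
    rwa [Real.log_rpow hL0, one_div_mul_eq_div] at this
  have w0 : (0 : ℝ) < w' := by linarith
  have w1 : (w' : ℝ) ≤ w := by exact_mod_cast hww
  have l3 : Real.log w ≤ 3 / 2 * Real.log L := by
    have := Real.log_le_log (by linarith) hw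
    rwa [Real.log_rpow hL0] at this
  have l4 : Real.log w' ≤ Real.log w := Real.log_le_log w0 w1
  have tw := th_pos w
  have tw' := th_pos w'
  have ty := th_pos y
  set ρ := (Real.log w - Real.log w' + 20) / Real.log L with hρ
  have hρ1 : 1 / Real.log L ≤ ρ := by rw [hρ]; gcongr; linarith
  have hρ0 : 0 < ρ := lt_of_lt_of_le (by positivity) hρ1
  set η := ∑ p ∈ primesLE w \ primesLE w', 1 / (p : ℝ) with hη
  have hη1 : η ≤ 2 * ρ := by
    refine (range_sum (y2.trans y5) hww).trans ?_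
    rw [hρ, ← mul_div_assoc, div_le_div_iff₀ (by linarith) (by linarith)]
    nlinarith
  have r1 : th y ≤ E * th w := by
    have a1 := range_sum y2 (y5.trans hww)
    have ly : 0 < Real.log y := lt_of_lt_of_le (by positivity) l1
    have a2 : (Real.log w - Real.log y + 20) / Real.log y ≤ 20 * B := by
      rw [div_le_iff₀ ly]
      rw [div_le_iff₀ (by positivity)] at l1
      nlinarith
    have a3 := prod_factor_ge (P := primesLE w \ primesLE y)
      fun _ hp => prime_of_mem_primesLE (mem_sdiff.1 hp).1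
    have a4 : Real.exp (-(40 * B)) ≤ ∏ p ∈ primesLE w \ primesLE y, (1 - 1 / (p : ℝ)) :=
      le_trans (Real.exp_le_exp.2 (by linarith)) a3
    rw [th_split (y5.trans hww)]
    calc th y = E * (th y * Real.exp (-(40 * B))) := by
          rw [hE, Real.exp_neg]; field_simp
      _ ≤ _ := by gcongr
  have r2 : w * L ^ (1 / 4 : ℝ) ≤ H * th w * (1 / Real.log L) := by
    have a1 := th_inv_le w
    have a2 : (1 + Real.log w) ^ 2 ≤ (3 * Real.log L) ^ 2 := by
      apply pow_le_pow_left₀ (by linarith) (by linarith)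
    have a3 : (th w)⁻¹ * Real.log L * 2 ≤ L ^ (1 / 4 : ℝ) := by
      refine le_trans ?_ h3
      have : (th w)⁻¹ ≤ Real.exp 76 * (3 * Real.log L) ^ 2 := a1.trans (by gcongr)
      calc _ ≤ Real.exp 76 * (3 * Real.log L) ^ 2 * Real.log L * 2 := by gcongr
        _ = 18 * Real.exp 76 * Real.log L ^ 3 * 1 := by ring
        _ ≤ 18 * Real.exp 76 * Real.log L ^ 3 * Real.log L := by gcongr; linarith
        _ = _ := by ring
    have a4 : L ^ (3 / 2 : ℝ) * L ^ (1 / 4 : ℝ) * L ^ (1 / 4 : ℝ) = L ^ 2 := by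
      rw [← Real.rpow_add hL0, ← Real.rpow_add hL0, ← Real.rpow_natCast]; norm_num
    have a5 : 0 < Real.log L := by linarith
    rw [mul_one_div, le_div_iff₀ a5, ← div_le_iff₀ tw, div_eq_mul_inv]
    calc _ = w * L ^ (1 / 4 : ℝ) * ((th w)⁻¹ * Real.log L * 2) / 2 := by ring
      _ ≤ L ^ (3 / 2 : ℝ) * L ^ (1 / 4 : ℝ) * L ^ (1 / 4 : ℝ) / 2 := by gcongr
      _ ≤ H := by rw [a4]; exact hH
  have hHt : 0 ≤ H * th w := by positivity
  have r3 : L ^ (1 / 4 : ℝ) ≤ H * th w := by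
    have a1 : 1 / Real.log L ≤ 1 := by rw [div_le_one (by linarith)]; linarith
    have a2 : (1 : ℝ) ≤ w := by linarith
    have a3 : 0 ≤ L ^ (1 / 4 : ℝ) := by positivity
    nlinarith [mul_le_mul_of_nonneg_left a1 hHt]
  have c1 : (cnt c x H ∅ w' : ℝ) ≤ (2 * E + 1) * (H * th w) := by
    have a1 := (abs_le.1 (hB c x H y (by omega) ∅ (by simp))).2
    have a2 : (cnt c x H ∅ w' : ℝ) ≤ cnt c x H ∅ y := by exact_mod_cast cnt_anti c x H ∅ y5
    have a3 : H * th y ≤ H * (E * th w) := by gcongr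
    simp only [prod_empty, mul_one, one_mul] at a1
    linarith
  have c2 : (cnt c x H ∅ w' : ℝ) ≤ cnt c x H ∅ w + (4 * E + 1) * ρ * (H * th w) := by
    have a1 : (cnt c x H ∅ w' : ℝ) ≤ cnt c x H ∅ w +
        ∑ q ∈ primesLE w \ primesLE w', (cnt c x H {q} y : ℝ) := by
      exact_mod_cast cnt_diff c x H (N := w) y5
    have a2 : ∑ q ∈ primesLE w \ primesLE w', (cnt c x H {q} y : ℝ) ≤
        ∑ q ∈ primesLE w \ primesLE w', (2 * E * (H * th w) * (1 / q) + L ^ (1 / 4 : ℝ)) := by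
      apply sum_le_sum
      intro q hq
      obtain ⟨b1, b2⟩ := mem_sdiff.1 hq
      have b3 : y < q := by
        by_contra h
        exact b2 (mem_primesLE.2 ⟨by omega, prime_of_mem_primesLE b1⟩)
      have b4 := (abs_le.1 (hB c x H y (by omega) {q}
        (by simpa using ⟨prime_of_mem_primesLE b1, b3⟩))).2
      simp only [prod_singleton, one_mul] at b4
      have b5 : H * (1 / (q : ℝ)) * th y ≤ H * (1 / (q : ℝ)) * (E * th w) := by gcongr
      linarith
    rw [sum_add_distrib, ← mul_sum, ← hη, sum_const, nsmul_eq_mul] at a2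
    have a3 : (#(primesLE w \ primesLE w') : ℝ) ≤ w := by
      have : #(primesLE w \ primesLE w') ≤ #(Icc 1 w) := card_le_card fun q hq =>
        mem_Icc.2 ⟨(prime_of_mem_primesLE (mem_sdiff.1 hq).1).pos,
          le_of_mem_primesLE (mem_sdiff.1 hq).1⟩
      simpa using this
    have a4 : (#(primesLE w \ primesLE w') : ℝ) * L ^ (1 / 4 : ℝ) ≤ H * th w * ρ :=
      le_trans (by gcongr) (r2.trans (by gcongr))
    have a5 : 2 * E * (H * th w) * η ≤ 2 * E * (H * th w) * (2 * ρ) := by gcongr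
    linarith
  have hH0 : (0 : ℝ) ≤ H := Nat.cast_nonneg _
  constructor
  · rw [div_le_iff₀ tw]
    nlinarith
  have c3 : (cnt c x H ∅ w : ℝ) ≤ cnt c x H ∅ w' := by exact_mod_cast cnt_anti c x H ∅ hww
  set V := ∏ p ∈ primesLE w \ primesLE w', (1 - 1 / (p : ℝ)) with hV
  have v1 : 1 - η ≤ V := one_sub_sum_le fun _ hp => prime_of_mem_primesLE (mem_sdiff.1 hp).1
  have v2 : V ≤ 1 := prod_factor_le_one fun _ hp => prime_of_mem_primesLE (mem_sdiff.1 hp).1
  have e : (cnt c x H ∅ w' : ℝ) / th w' = cnt c x H ∅ w' * V / th w := by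
    have : th w = th w' * V := th_split hww
    have hV0 : V ≠ 0 := by rintro h; rw [h, mul_zero] at this; exact tw.ne' this
    rw [this]; field_simp
  rw [e, ← sub_div, abs_div, abs_of_pos tw, div_le_iff₀ tw, abs_le]
  have c0 : (0 : ℝ) ≤ cnt c x H ∅ w' := Nat.cast_nonneg _
  have c4 : cnt c x H ∅ w' * (1 - V) ≤ (2 * E + 1) * (H * th w) * (2 * ρ) :=
    mul_le_mul c1 (by linarith) (by linarith) (by positivity)
  have c5 : 0 ≤ cnt c x H ∅ w' * (1 - V) := mul_nonneg c0 (by linarith)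
  have c6 : 0 ≤ ρ * (H * th w) := by positivity
  constructor <;> nlinarith

end Pool.Agent.Lib.MP_b09185_nt
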