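import Mathlib
import Pool.Agent.Lib.MP_b09185_nt.Conc
import Pool.Agent.Lib.MP_b09185_nt.Det

/-! Borel-Cantelli and the cutoff. -/

namespace Pool.Agent.Lib.MP_b09185_nt

open Finset Nat Filter MeasureTheory

lemma exists_big (L : ℝ) : ∃ N, L < (th (N + 1))⁻¹ := by
  have h := (not_summable_iff_tendsto_nat_atTop_of_nonneg (fun n => Set.indicator_nonneg
    (fun n _ => by positivity) n)).1 not_summable_one_div_on_primes
  obtain ⟨N, hN⟩ := (h.eventually_gt_atTop L).exists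
  refine ⟨N, ?_⟩
  have h1 : ∑ i ∈ range N, Set.indicator {p | Nat.Prime p} (fun n : ℕ => (1 : ℝ) / n) i ≤
      ∑ p ∈ primesLE (N + 1), 1 / (p : ℝ) := by
    rw [primesLE_eq_filter_range, sum_filter]
    simp only [Set.indicator_apply, Set.mem_ofPred_eq]
    apply sum_le_sum_of_subset_of_nonneg (range_mono (by omega))
    intro i _ _
    split_ifs <;> positivity
  have h2 := sum_le_log (N + 1)
  have h3 := Real.log_le_sub_one_of_pos (inv_pos.2 (th_pos (N + 1)))
  linarith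

/-- the sieving cutoff -/
noncomputable def zc (L : ℝ) : ℕ := Nat.find (exists_big L)

lemma le_zc {L : ℝ} (hL : 1 ≤ L) (N : ℕ) : N ≤ zc L ↔ (th N)⁻¹ ≤ L := by
  constructor
  · intro h
    rcases N with _ | N
    · simpa [th] using hL
    · exact not_lt.1 (Nat.find_min (exists_big L) (by omega : N < zc L))
  · intro h
    by_contra h'
    have h1 := Nat.find_spec (exists_big L)
    have h2 : th N ≤ th (zc L + 1) := th_anti (by omega)
    have h3 := inv_anti₀ (th_pos N) h2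
    exact absurd (h1.trans_le (h3.trans h)) (lt_irrefl _)

lemma zc_mono {L L' : ℝ} (hL : 1 ≤ L) (h : L ≤ L') : zc L ≤ zc L' :=
  (le_zc (hL.trans h) _).2 (((le_zc hL _).1 le_rfl).trans h)

lemma zc_bounds {L : ℝ} (hL : 1 ≤ L) :
    1 ≤ L * th (zc L) ∧ L * th (zc L) * zc L ≤ zc L + 1 := by
  have t := th_pos (zc L)
  constructor
  · have := (le_zc hL _).1 (le_refl (zc L))
    rwa [inv_le_iff_one_le_mul₀ t] at this
  · have h1 : L < (th (zc L + 1))⁻¹ := Nat.find_spec (exists_big L)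
    rw [lt_inv_comm₀ (by linarith) (th_pos _), ← one_div, lt_div_iff₀ (by linarith)] at h1
    have h2 : th (zc L) * (1 - 1 / ((zc L + 1 : ℕ) : ℝ)) ≤ th (zc L + 1) := by
      by_cases hp : (zc L + 1).Prime
      · rw [th, th, primesLE_succ, if_pos hp, prod_insert (notMem_primesLE _), mul_comm]
      · rw [th, th, primesLE_succ, if_neg hp]
        apply mul_le_of_le_one_right t.le
        have : 0 ≤ 1 / ((zc L + 1 : ℕ) : ℝ) := by positivity
        linarith
    have h3 : 1 - 1 / ((zc L + 1 : ℕ) : ℝ) = zc L / (zc L + 1) := by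
      push_cast; field_simp; ring
    rw [h3, ← mul_div_assoc, div_le_iff₀ (by positivity)] at h2
    have h4 : (0 : ℝ) ≤ zc L + 1 := by positivity
    nlinarith [mul_le_mul_of_nonneg_left h2 (by linarith : 0 ≤ L),
      mul_le_mul_of_nonneg_right h1.le h4]

/-- numerical condition of the tail bound -/
def Cond (L ε : ℝ) (H w z : ℕ) : Prop :=
  ∃ c : ℝ, 0 < c ∧ w ≤ z ∧ sv H w z ≤ c ∧
    (∀ q, q.Prime → w < q → q ≤ z → (H / (q : ℝ) + 1) / th q ≤ c) ∧
    6 * L ≤ ε ^ 2 * H * th w / (8 * c)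

lemma ae_conc {ε : ℝ} (hε : 0 < ε) (hε' : ε ≤ 1 / 3) : ∀ᵐ ω ∂law, ∀ᶠ x : ℕ in atTop,
    ∀ H ≤ x, ∀ w ≤ x, ∀ n ≤ 3 * x, Cond (Real.log x) ε H w (zc (Real.log n)) →
      |cnt (cl ω) x H ∅ (zc (Real.log n)) / th (zc (Real.log n)) -
        cnt (cl ω) x H ∅ w / th w| < ε * H := by
  set s : ℕ → ℕ × ℕ × ℕ → Set Om := fun x t => {ω | 1 ≤ x ∧
    Cond (Real.log x) ε t.1 t.2.1 (zc (Real.log t.2.2)) ∧ ε * t.1 ≤
      |cnt (cl ω) x t.1 ∅ (zc (Real.log t.2.2)) / th (zc (Real.log t.2.2)) -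
        cnt (cl ω) x t.1 ∅ t.2.1 / th t.2.1|} with hs
  have h1 : ∀ x t, law (s x t) ≤ ENNReal.ofReal (2 / (x : ℝ) ^ 6) := by
    intro x t
    by_cases h : 1 ≤ x ∧ Cond (Real.log x) ε t.1 t.2.1 (zc (Real.log t.2.2))
    · obtain ⟨hx, c, c0, c1, c2, c3, c4⟩ := h
      refine le_trans (measure_mono fun ω hω => hω.2.2)
        ((tail x t.1 t.2.1 _ c c0 c1 c2 c3 hε hε').trans ?_)
      rw [← ENNReal.ofReal_ofNat, ← ENNReal.ofReal_mul (by norm_num)]
      apply ENNReal.ofReal_le_ofReal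
      have hx' : (0 : ℝ) < x := by exact_mod_cast hx
      have : Real.exp (-(6 * Real.log x)) = 1 / (x : ℝ) ^ 6 := by
        rw [Real.exp_neg, show 6 * Real.log x = Real.log ((x : ℝ) ^ 6) by rw [Real.log_pow]; norm_num,
          Real.exp_log (by positivity), one_div]
      have h2 := Real.exp_le_exp.2 (neg_le_neg c4)
      rw [this] at h2
      rw [div_eq_mul_one_div 2]
      linarith
    · have : s x t = ∅ := by
        ext ω
        simp only [hs, Set.mem_ofPred_eq, Set.mem_empty_iff_false, iff_false]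
        exact fun h' => h ⟨h'.1, h'.2.1⟩
      simp [this]
  set T : ℕ → Finset (ℕ × ℕ × ℕ) := fun x => range (x + 1) ×ˢ range (x + 1) ×ˢ range (3 * x + 1)
    with hT
  have h2 : ∀ x, law (⋃ t ∈ T x, s x t) ≤ ENNReal.ofReal (32 * (1 / (x : ℝ) ^ 2)) := by
    intro x
    refine (measure_biUnion_finset_le _ _).trans ((sum_le_sum fun t _ => h1 x t).trans ?_)
    rw [sum_const, nsmul_eq_mul, ← ENNReal.ofReal_natCast, ← ENNReal.ofReal_mul (Nat.cast_nonneg _)]
    apply ENNReal.ofReal_le_ofReal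
    rcases Nat.eq_zero_or_pos x with rfl | hx
    · simp
    have hx' : (1 : ℝ) ≤ x := by exact_mod_cast hx
    simp only [hT, card_product, card_range]
    push_cast
    calc _ ≤ (2 * x) * ((2 * x) * (4 * x)) * (2 / (x : ℝ) ^ 6) := by gcongr <;> linarith
      _ = 32 * (1 / (x : ℝ) ^ 3) := by field_simp; norm_num
      _ ≤ _ := by gcongr; norm_num
  have h3 : ∑' x, law (⋃ t ∈ T x, s x t) ≠ ⊤ :=
    ne_top_of_le_ne_top ((Real.summable_one_div_nat_pow.2 one_lt_two).mul_left 32).tsum_ofReal_ne_top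
      (ENNReal.tsum_le_tsum h2)
  filter_upwards [ae_eventually_notMem h3] with ω hω
  filter_upwards [hω, eventually_ge_atTop 1] with x hx hx1 H hH w hw n hn hc
  by_contra h
  apply hx
  simp only [Set.mem_iUnion]
  exact ⟨(H, w, n), by simp [hT]; omega, hx1, hc, not_lt.1 h⟩

lemma cond_ok {δ A ε : ℝ} (hδ : 0 < δ) (hA : 0 ≤ A) (hε : 0 < ε) : ∀ᶠ L : ℝ in atTop,
    ∀ (H w z : ℕ) (L' : ℝ), L' ≤ L → L ^ (2 + δ) / 2 ≤ H → H ≤ 2 * L ^ A → L ^ (1 + δ) / 2 ≤ w →
      w ≤ H → w ≤ z → (th z)⁻¹ ≤ 2 * L → Cond L' ε H w z := by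
  set K := Real.exp 76 * (A + 2) ^ 2 with hK
  have hK0 : 0 < K := by positivity
  filter_upwards [Real.tendsto_log_atTop.eventually_ge_atTop 1, eventually_ge_atTop 2,
    ev_log (768 * K ^ 2 / ε ^ 2) δ hδ, ev_log (192 * 20 * K / ε ^ 2) δ hδ]
    with L h1 h2 h3 h4 H w z L' hL' hH hH' hw hwH hwz hz
  have hL0 : 0 < L := by linarith
  have e1 : L ^ (1 + δ) = L * L ^ δ := by rw [Real.rpow_add hL0, Real.rpow_one]
  have e2 : L ^ (2 + δ) = L ^ 2 * L ^ δ := by rw [Real.rpow_add hL0, Real.rpow_two]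
  have d1 : 1 ≤ L ^ δ := Real.one_le_rpow (by linarith) hδ.le
  have w1 : (1 : ℝ) ≤ w := by nlinarith
  have w2 : (w : ℝ) ≤ H := by exact_mod_cast hwH
  set κ := K * Real.log L ^ 2 with hκ
  have hκ0 : 0 < κ := by positivity
  have k1 : ∀ q : ℕ, q ≤ H → (th q)⁻¹ ≤ κ := by
    intro q hq
    refine (inv_anti₀ (th_pos H) (th_anti hq)).trans ((th_inv_le H).trans ?_)
    have a1 : Real.log H ≤ Real.log 2 + A * Real.log L := by
      have := Real.log_le_log (by linarith) hH'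
      rwa [Real.log_mul (by norm_num) (by positivity), Real.log_rpow hL0] at this
    have a2 : 1 + Real.log H ≤ (A + 2) * Real.log L := by linarith [Real.log_two_lt_d9]
    have a3 := Real.log_natCast_nonneg H
    rw [hκ, hK, mul_assoc, ← mul_pow]
    gcongr
  have k2 : ∀ q : ℕ, q ≤ z → (th q)⁻¹ ≤ 2 * L := fun q hq =>
    (inv_anti₀ (th_pos z) (th_anti hq)).trans hz
  have l2 : Real.log (2 * L) ≤ 2 * Real.log L := by
    rw [Real.log_mul (by norm_num) hL0.ne']; linarith [Real.log_two_lt_d9]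
  have k3 : ∀ q : ℕ, w < q → q ≤ z → (H / (q : ℝ) + 1) / th q ≤ 2 * H * κ / q + 4 * L := by
    intro q hq hq'
    have q0 : (0 : ℝ) < q := by exact_mod_cast (Nat.zero_le w).trans_lt hq
    rw [div_eq_mul_inv]
    have := th_pos q
    by_cases h : q ≤ H
    · have a1 : 1 ≤ H / (q : ℝ) := by rw [one_le_div q0]; exact_mod_cast h
      calc _ ≤ (2 * (H / (q : ℝ))) * κ := by gcongr; linarith; exact k1 q h
        _ = 2 * H * κ / q := by ring
        _ ≤ _ := by linarith
    · have a1 : H / (q : ℝ) ≤ 1 := by rw [div_le_one q0]; exact_mod_cast (not_le.1 h).le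
      have a2 : 0 ≤ 2 * H * κ / q := by positivity
      calc _ ≤ 2 * (2 * L) := by gcongr; linarith; exact k2 q hq'
        _ ≤ _ := by linarith
  have hl0 : 0 < Real.log L := by linarith
  refine ⟨4 * H * κ / w + 20 * L * Real.log L, by positivity, hwz, ?_, ?_, ?_⟩
  · have a1 : sv H w z ≤ ∑ q ∈ primesLE z \ primesLE w,
        (4 * H * κ * ((q : ℝ) ^ 2)⁻¹ + 8 * L * (1 / q)) := by
      apply sum_le_sum
      intro q hq
      obtain ⟨b1, b2⟩ := Finset.mem_sdiff.1 hq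
      have b3 : w < q := by
        by_contra h
        exact b2 (mem_primesLE.2 ⟨by omega, prime_of_mem_primesLE b1⟩)
      have q0 : (0 : ℝ) < q := by exact_mod_cast (Nat.zero_le w).trans_lt b3
      have := th_pos q
      calc _ = 2 / q * ((H / (q : ℝ) + 1) / th q) := by field_simp
        _ ≤ 2 / q * (2 * H * κ / q + 4 * L) := by gcongr; exact k3 q b3 (le_of_mem_primesLE b1)
        _ = _ := by field_simp; ring
    rw [sum_add_distrib, ← mul_sum, ← mul_sum] at a1
    have a2 : ∑ q ∈ primesLE z \ primesLE w, ((q : ℝ) ^ 2)⁻¹ ≤ (w : ℝ)⁻¹ := by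
      have b1 := sum_Ioc_inv_sq_le_sub (α := ℝ) (k := w) (n := z)
        (by rintro rfl; norm_num at w1) hwz
      have b2 : (0 : ℝ) ≤ (z : ℝ)⁻¹ := by positivity
      refine le_trans (sum_le_sum_of_subset_of_nonneg ?_ fun _ _ _ => by positivity)
        (b1.trans (by linarith))
      intro q hq
      obtain ⟨b1, b2⟩ := Finset.mem_sdiff.1 hq
      refine mem_Ioc.2 ⟨?_, le_of_mem_primesLE b1⟩
      by_contra h
      exact b2 (mem_primesLE.2 ⟨by omega, prime_of_mem_primesLE b1⟩)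
    have a3 : ∑ q ∈ primesLE z \ primesLE w, 1 / (q : ℝ) ≤ 2 * Real.log L :=
      le_trans (sum_le_sum_of_subset_of_nonneg sdiff_subset fun _ _ _ => by positivity)
        ((sum_le_log z).trans ((Real.log_le_log (inv_pos.2 (th_pos z)) hz).trans l2))
    have a4 : 4 * H * κ * ∑ q ∈ primesLE z \ primesLE w, ((q : ℝ) ^ 2)⁻¹ ≤ 4 * H * κ / w := by
      rw [div_eq_mul_inv]; gcongr
    have a5 : 8 * L * ∑ q ∈ primesLE z \ primesLE w, 1 / (q : ℝ) ≤ 8 * L * (2 * Real.log L) := by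
      gcongr
    have a6 : 0 ≤ L * Real.log L := by positivity
    linarith
  · intro q _ hq hq'
    refine (k3 q hq hq').trans (add_le_add ?_ (by nlinarith))
    have : (w : ℝ) ≤ q := by exact_mod_cast hq.le
    gcongr
    norm_num
  · have t1 := th_pos w
    have t2 : 1 ≤ κ * th w := by
      have := k1 w hwH
      rwa [inv_le_iff_one_le_mul₀ t1] at this
    have a1 : 48 * L * κ * (4 * H * κ / w) ≤ ε ^ 2 * H / 2 := by
      rw [div_mul_eq_mul_div, div_le_iff₀ (by positivity)] at h3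
      have b1 : 384 * L * κ ^ 2 ≤ ε ^ 2 * w := by
        calc _ = L / 2 * (768 * K ^ 2 * Real.log L ^ 4) := by rw [hκ]; ring
          _ ≤ L / 2 * (L ^ δ * ε ^ 2) := by gcongr
          _ = ε ^ 2 * (L ^ (1 + δ) / 2) := by rw [e1]; ring
          _ ≤ _ := by gcongr
      calc _ = (384 * L * κ ^ 2) * H / 2 / w := by ring
        _ ≤ (ε ^ 2 * w) * H / 2 / w := by gcongr
        _ = _ := by field_simp
    have a2 : 48 * L * κ * (20 * L * Real.log L) ≤ ε ^ 2 * H / 2 := by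
      rw [div_mul_eq_mul_div, div_le_iff₀ (by positivity)] at h4
      calc _ = L ^ 2 / 4 * (192 * 20 * K * (Real.log L ^ 3 * 1)) := by rw [hκ]; ring
        _ ≤ L ^ 2 / 4 * (192 * 20 * K * (Real.log L ^ 3 * Real.log L)) := by gcongr
        _ = L ^ 2 / 4 * (192 * 20 * K * Real.log L ^ 4) := by ring
        _ ≤ L ^ 2 / 4 * (L ^ δ * ε ^ 2) := by gcongr
        _ = ε ^ 2 * (L ^ (2 + δ) / 2) / 2 := by rw [e2]; ring
        _ ≤ _ := by gcongr
    rw [le_div_iff₀ (by positivity)]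
    set c := 4 * H * κ / w + 20 * L * Real.log L with hc
    have c0 : 0 < c := by positivity
    have a3 : 48 * L * κ * c ≤ ε ^ 2 * H := by rw [hc]; linarith
    calc 6 * L' * (8 * c) ≤ 6 * L * (8 * c) * 1 := by rw [mul_one]; gcongr
      _ ≤ 6 * L * (8 * c) * (κ * th w) := by gcongr
      _ = 48 * L * κ * c * th w := by ring
      _ ≤ _ := by gcongr

end Pool.Agent.Lib.MP_b09185_nt
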