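import Mathlib
import Pool.Agent.Lib.MP_b09185_nt.AE

/-! Reduction of the random set to the small primes. -/

namespace Pool.Agent.Lib.MP_b09185_nt

open Finset Nat Filter MeasureTheory

lemma Theta_nat (N : ℕ) : Theta N = th N := by simp [Theta, th]

lemma mem_model (ω : Om) {n : ℕ} (hn : 8 ≤ n) :
    n ∈ model ω ↔ ∀ q ∈ primesLE (zc (Real.log n)), ¬ n ≡ cl ω q [MOD q] := by
  have h1 : 1 ≤ Real.log n := by
    rw [Real.le_log_iff_exp_le (by positivity)]
    have : (8 : ℝ) ≤ n := by exact_mod_cast hn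
    linarith [Real.exp_one_lt_d9]
  simp only [model, Set.mem_ofPred_eq, hn, true_and, Theta_nat, ← le_zc h1, mem_primesLE]
  constructor
  · rintro h q ⟨h2, h3⟩ h4
    exact h ⟨q, h3⟩ h2 ((cl_iff ω ⟨q, h3⟩ n).1 h4)
  · intro h p h2 h3
    exact h p ⟨h2, p.2⟩ ((cl_iff ω p n).2 h3)

open Classical in
lemma ncard_eq (A : Set ℕ) {x y : ℝ} (hx : 0 ≤ x) (hy : 0 ≤ y) :
    {n ∈ A | x < n ∧ n ≤ x + y}.ncard =
      #{n ∈ Ioc ⌊x⌋₊ (⌊x⌋₊ + (⌊x + y⌋₊ - ⌊x⌋₊)) | n ∈ A} := by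
  rw [← Set.ncard_coe_finset]
  congr 1
  ext n
  have : ⌊x⌋₊ ≤ ⌊x + y⌋₊ := Nat.floor_le_floor (by linarith)
  simp only [Set.mem_ofPred_eq, coe_filter, mem_Ioc, Nat.add_sub_cancel' this, Nat.floor_lt hx,
    Nat.le_floor_iff (add_nonneg hx hy)]
  tauto

open Classical in
lemma sandwich (ω : Om) {x H : ℕ} (hx : 7 ≤ x) :
    cnt (cl ω) x H ∅ (zc (Real.log (x + H : ℕ))) ≤ #{n ∈ Ioc x (x + H) | n ∈ model ω} ∧
    #{n ∈ Ioc x (x + H) | n ∈ model ω} ≤ cnt (cl ω) x H ∅ (zc (Real.log (x + 1 : ℕ))) := by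
  have mono : ∀ m n : ℕ, 8 ≤ m → m ≤ n → zc (Real.log m) ≤ zc (Real.log n) := by
    intro m n hm hmn
    have : (8 : ℝ) ≤ m := by exact_mod_cast hm
    apply zc_mono
    · rw [Real.le_log_iff_exp_le (by positivity)]
      linarith [Real.exp_one_lt_d9]
    · exact Real.log_le_log (by linarith) (by exact_mod_cast hmn)
  constructor
  · apply card_le_card
    intro n hn
    simp only [mem_filter, mem_Ioc] at hn ⊢
    refine ⟨hn.1, (mem_model ω (by omega)).2 fun q hq => hn.2.2 q ?_⟩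
    exact primesLE_mono (mono n (x + H) (by omega) hn.1.2) hq
  · apply card_le_card
    intro n hn
    simp only [mem_filter, mem_Ioc] at hn ⊢
    refine ⟨hn.1, by simp, fun q hq => (mem_model ω (by omega)).1 hn.2 q ?_⟩
    exact primesLE_mono (mono (x + 1) n (by omega) hn.1.1) hq

lemma len_bounds {x y : ℝ} (hx : 0 ≤ x) (hy : 0 ≤ y) :
    y - 1 ≤ (⌊x + y⌋₊ - ⌊x⌋₊ : ℕ) ∧ ((⌊x + y⌋₊ - ⌊x⌋₊ : ℕ) : ℝ) ≤ y + 1 := by
  have : ⌊x⌋₊ ≤ ⌊x + y⌋₊ := Nat.floor_le_floor (by linarith)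
  rw [Nat.cast_sub this]
  constructor <;>
    linarith [Nat.floor_le hx, Nat.lt_floor_add_one x, Nat.floor_le (add_nonneg hx hy),
      Nat.lt_floor_add_one (x + y)]

lemma ev_kappa : ∀ᶠ L : ℝ in atTop, ∀ N : ℕ, (N : ℝ) ≤ L ^ 2 → (th N)⁻¹ ≤ L ^ (1 / 2 : ℝ) := by
  filter_upwards [ev_log (9 * Real.exp 76) (1 / 2) (by norm_num),
    Real.tendsto_log_atTop.eventually_ge_atTop 1, eventually_ge_atTop 1] with L h1 h2 h3 N hN
  refine (th_inv_le N).trans (le_trans ?_ h1)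
  have a1 : Real.log N ≤ 2 * Real.log L := by
    rcases Nat.eq_zero_or_pos N with rfl | h
    · simp; linarith
    · have := Real.log_le_log (by exact_mod_cast h) hN
      rwa [Real.log_pow] at this
  have a2 := Real.log_natCast_nonneg N
  calc _ ≤ Real.exp 76 * (3 * Real.log L) ^ 2 := by gcongr; linarith
    _ = 9 * Real.exp 76 * (Real.log L ^ 2 * 1) := by ring
    _ ≤ 9 * Real.exp 76 * (Real.log L ^ 2 * Real.log L ^ 2) := by gcongr; nlinarith
    _ = _ := by ring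

lemma ev_pow (a : ℝ) : ∀ᶠ x : ℝ in atTop, Real.log x ^ a ≤ x / 4 := by
  have h := (isLittleO_log_rpow_rpow_atTop a one_pos).bound (by norm_num : (0 : ℝ) < 1 / 4)
  filter_upwards [h, eventually_ge_atTop 0] with x h1 h2
  rw [Real.rpow_one, Real.norm_of_nonneg h2] at h1
  linarith [le_abs_self (Real.log x ^ a), Real.norm_eq_abs (Real.log x ^ a)]

lemma half_rpow {L : ℝ} (h : 4 ≤ L) :
    L ^ (1 / 2 : ℝ) ≤ L / 2 ∧ L ^ (3 / 2 : ℝ) ≤ L ^ 2 / 2 := by
  have hL0 : 0 < L := by linarith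
  have q3 : L ^ (1 / 2 : ℝ) * L ^ (1 / 2 : ℝ) = L := by rw [← Real.rpow_add hL0]; norm_num
  have q4 : L ^ (3 / 2 : ℝ) = L * L ^ (1 / 2 : ℝ) := by
    conv_rhs => rw [← Real.rpow_one L, ← Real.rpow_mul hL0.le, ← Real.rpow_add hL0]
    norm_num
  have q5 : 2 ≤ L ^ (1 / 2 : ℝ) := by
    by_contra h
    have : 0 ≤ L ^ (1 / 2 : ℝ) := by positivity
    nlinarith
  have q6 : L ^ (1 / 2 : ℝ) ≤ L / 2 := by nlinarith
  exact ⟨q6, by nlinarith⟩

lemma z_aux {L t z : ℝ} (hL : 4 ≤ L) (h1 : 1 ≤ (L + 1) * t) (h2 : L * t * z ≤ z + 1)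
    (h3 : L - 1 ≤ z) : |L * t - 1| ≤ 2 / L := by
  have hL0 : 0 < L := by linarith
  rw [abs_le]
  constructor
  · have a2 : t * L ≤ 2 := by
      by_contra h
      nlinarith
    have a3 : t ≤ 2 / L := by rwa [le_div_iff₀ hL0]
    linarith
  · rw [le_div_iff₀ hL0]
    by_contra h
    have : 0 < L * t - 1 := by
      by_contra h'
      nlinarith
    nlinarith

theorem key : ∀ᵐ ω ∂law, ∀ a : ℝ, 2 < a → ∀ ε : ℝ, 0 < ε → ∀ᶠ x : ℝ in atTop,
    ∀ w' : ℕ, Real.log x / 4 ≤ w' → w' ≤ Real.log x →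
      |ratio (model ω) a x - cnt (cl ω) ⌊x⌋₊ (⌊x + Real.log x ^ a⌋₊ - ⌊x⌋₊) ∅ w' /
        (Real.log x ^ a * th w')| ≤ ε := by
  obtain ⟨C, hC1, hC⟩ := det
  have hae : ∀ᵐ ω ∂law, ∀ j : ℕ, _ := ae_all_iff.2 fun j : ℕ =>
    ae_conc (ε := 1 / ((j : ℝ) + 3)) (by positivity)
      (one_div_le_one_div_of_le (by norm_num) (by linarith [(Nat.cast_nonneg j : (0 : ℝ) ≤ j)]))
  filter_upwards [hae] with ω hω a ha ε hε
  obtain ⟨j, hj⟩ := exists_nat_one_div_lt (show 0 < ε / 8 by positivity)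
  set e : ℝ := 1 / ((j : ℝ) + 3) with he
  have he0 : 0 < e := by positivity
  have he1 : e ≤ ε / 8 := le_trans (one_div_le_one_div_of_le (by positivity) (by linarith)) hj.le
  have he2 : e ≤ 1 := by
    rw [he, div_le_one (by positivity)]; linarith [(Nat.cast_nonneg j : (0 : ℝ) ≤ j)]
  set δ := min (min (a - 2) (1 / 2)) (ε / (8 * C)) with hδ
  have hδ0 : 0 < δ := lt_min (lt_min (by linarith) (by norm_num)) (by positivity)
  have hδ1 : δ ≤ a - 2 := (min_le_left _ _).trans (min_le_left _ _)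
  have hδ2 : δ ≤ 1 / 2 := (min_le_left _ _).trans (min_le_right _ _)
  have hδ3 : δ ≤ ε / (8 * C) := min_le_right _ _
  have tl := Real.tendsto_log_atTop
  filter_upwards [tendsto_nat_floor_atTop.eventually (hω j), tl.eventually hC,
    tl.eventually (cond_ok hδ0 (show 0 ≤ a by linarith) he0), tl.eventually ev_kappa, ev_pow a,
    eventually_ge_atTop 8, tl.eventually_ge_atTop 4, tl.eventually_ge_atTop (8 * (C + 1) / ε),
    (tl.comp tl).eventually_ge_atTop (8 * 22 * C / ε), (tl.comp tl).eventually_gt_atTop 0]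
    with x h1 h2 h3 h4 h5 h6 h7 h8 h9 h10 w' hw1 hw2
  simp only [Function.comp] at h9 h10
  set L := Real.log x with hL
  set x0 := ⌊x⌋₊ with hx0
  have hL0 : 0 < L := by linarith
  have hL1 : 1 ≤ L := by linarith
  have hx : 0 ≤ x := by linarith
  set P := L ^ a with hP
  have p1 : L ^ (2 + δ) ≤ P := Real.rpow_le_rpow_of_exponent_le hL1 (by linarith)
  have p2 : L ^ 2 ≤ L ^ (2 + δ) := by
    rw [← Real.rpow_two]; exact Real.rpow_le_rpow_of_exponent_le hL1 (by linarith)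
  have p3 : 16 ≤ L ^ 2 := le_trans (by norm_num) (pow_le_pow_left₀ (by norm_num) h7 2)
  have hP0 : 0 < P := by linarith
  obtain ⟨b1, b2⟩ := len_bounds hx hP0.le
  set H := ⌊x + P⌋₊ - ⌊x⌋₊ with hH
  have x1 : (x0 : ℝ) ≤ x := Nat.floor_le hx
  have x2 : x < x0 + 1 := Nat.lt_floor_add_one x
  have x3 : 8 ≤ x0 := Nat.le_floor (by exact_mod_cast h6)
  set w := ⌊L ^ (1 + δ)⌋₊ with hw
  have q1 : L ≤ L ^ (1 + δ) := by
    conv_lhs => rw [← Real.rpow_one L]
    exact Real.rpow_le_rpow_of_exponent_le hL1 (by linarith)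
  have q2 : L ^ (1 + δ) ≤ L ^ (3 / 2 : ℝ) := Real.rpow_le_rpow_of_exponent_le hL1 (by linarith)
  obtain ⟨q6, q7⟩ := half_rpow h7
  have w1 : (w : ℝ) ≤ L ^ (1 + δ) := Nat.floor_le (by positivity)
  have w2 : L ^ (1 + δ) < w + 1 := Nat.lt_floor_add_one _
  have w3 : w' ≤ w := Nat.le_floor (hw2.trans q1)
  have w4 : (w : ℝ) ≤ L ^ 2 / 2 := (w1.trans q2).trans q7
  have H1 : L ^ 2 / 2 ≤ H := by linarith
  have H2 : (H : ℝ) ≤ 2 * P := by linarith
  have H3 : H ≤ x0 := by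
    have : (H : ℝ) ≤ x0 := by linarith
    exact_mod_cast this
  have H4 : w ≤ H := by exact_mod_cast w4.trans H1
  have H5 : 1 ≤ H := by
    have : (1 : ℝ) ≤ H := by linarith
    exact_mod_cast this
  obtain ⟨d1, d2⟩ := h2 (cl ω) x0 H w' w H1 hw1 w3 (w1.trans q2)
  have tw := th_pos w
  have tw' := th_pos w'
  have d3 : (cnt (cl ω) x0 H ∅ w : ℝ) / th w ≤ C * H :=
    le_trans (by gcongr; exact cnt_anti _ _ _ _ w3) d1
  have d4 : (Real.log w - Real.log w' + 20) / Real.log L ≤ ε / (4 * C) := by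
    have w0 : (0 : ℝ) < w' := by linarith
    have a1 : Real.log w ≤ (1 + δ) * Real.log L := by
      have := Real.log_le_log (w0.trans_le (by exact_mod_cast w3)) w1
      rwa [Real.log_rpow hL0] at this
    have a2 : Real.log L - 2 ≤ Real.log w' := by
      have := Real.log_le_log (by positivity) hw1
      rw [Real.log_div hL0.ne' (by norm_num), show (4 : ℝ) = 2 ^ 2 by norm_num, Real.log_pow] at this
      push_cast at this
      linarith [Real.log_two_lt_d9]
    rw [div_le_iff₀ h10]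
    have a3 : δ * Real.log L ≤ ε / (8 * C) * Real.log L := by gcongr
    have a4 : 22 ≤ ε / (8 * C) * Real.log L := by
      rw [div_le_iff₀ hε] at h9
      rw [div_mul_eq_mul_div, le_div_iff₀ (by positivity)]
      linarith
    have a5 : ε / (4 * C) = ε / (8 * C) + ε / (8 * C) := by field_simp; norm_num
    rw [a5]
    linarith
  have d5 : |(cnt (cl ω) x0 H ∅ w : ℝ) / th w - cnt (cl ω) x0 H ∅ w' / th w'| ≤ ε / 4 * H := by
    refine d2.trans (mul_le_mul_of_nonneg_right ?_ (Nat.cast_nonneg _))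
    calc _ ≤ C * (ε / (4 * C)) := by gcongr
      _ = _ := by field_simp
  have main : ∀ n : ℕ, x0 + 1 ≤ n → n ≤ x0 + H →
      |L / P * cnt (cl ω) x0 H ∅ (zc (Real.log n)) -
        cnt (cl ω) x0 H ∅ w' / (P * th w')| ≤ ε := by
    intro n hn hn'
    have n1 : x ≤ n := le_trans x2.le (by exact_mod_cast hn)
    have n2 : (n : ℝ) ≤ 2 * x := by
      have : (n : ℝ) ≤ x0 + x0 := by exact_mod_cast (by omega : n ≤ x0 + x0)
      linarith
    have l1 : L ≤ Real.log n := Real.log_le_log (by linarith) n1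
    have l2 : Real.log n ≤ L + 1 := by
      have := Real.log_le_log (by linarith) n2
      rw [Real.log_mul (by norm_num) (by linarith)] at this
      linarith [Real.log_two_lt_d9]
    set z := zc (Real.log n) with hz
    have z1 : w ≤ z := (le_zc (hL1.trans l1) w).2 ((h4 w (by linarith)).trans (by linarith))
    have z2 : (th z)⁻¹ ≤ 2 * L := ((le_zc (hL1.trans l1) z).1 le_rfl).trans (by linarith)
    have z3 : L - 1 ≤ z := by
      have : (w : ℝ) ≤ z := by exact_mod_cast z1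
      linarith
    obtain ⟨z4, z5⟩ := zc_bounds (hL1.trans l1)
    rw [← hz] at z4 z5
    have tz := th_pos z
    have c1 := h1 H H3 w (H4.trans H3) n (by omega) (h3 H w z _
      (Real.log_le_log (by exact_mod_cast (by omega : 0 < x0)) x1) (by linarith) H2 (by linarith)
      H4 z1 z2)
    rw [← hz] at c1
    have z6 : |L * th z - 1| ≤ 2 / L :=
      z_aux h7 (z4.trans (by gcongr)) (le_trans (by gcongr) z5) z3
    set r : ℝ := (cnt (cl ω) x0 H ∅ z : ℝ) / th z with hr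
    have hH0 : (0 : ℝ) ≤ H := Nat.cast_nonneg _
    have r0 : 0 ≤ r := by positivity
    have r1 : r ≤ (C + 1) * H := by
      have := (abs_lt.1 c1).2
      have := mul_le_of_le_one_left hH0 he2
      linarith
    have e1 : L / P * cnt (cl ω) x0 H ∅ z - cnt (cl ω) x0 H ∅ w' / (P * th w') =
        ((L * th z - 1) * r + (r - cnt (cl ω) x0 H ∅ w / th w) +
          (cnt (cl ω) x0 H ∅ w / th w - cnt (cl ω) x0 H ∅ w' / th w')) / P := by
      rw [hr]; field_simp; ring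
    rw [e1, abs_div, abs_of_pos hP0, div_le_iff₀ hP0]
    have f1 : |(L * th z - 1) * r| ≤ ε / 8 * H * 2 := by
      rw [abs_mul, abs_of_nonneg r0]
      have : 2 / L * (C + 1) ≤ ε / 4 := by
        rw [div_le_iff₀ hε] at h8
        rw [div_mul_eq_mul_div, div_le_iff₀ hL0]
        linarith
      calc _ ≤ 2 / L * ((C + 1) * H) := by gcongr
        _ = 2 / L * (C + 1) * H := by ring
        _ ≤ ε / 4 * H := by gcongr
        _ = _ := by ring
    have f2 : e * H ≤ ε / 8 * H := by gcongr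
    have f3 : (H : ℝ) ≤ 5 / 4 * P := by linarith
    have f4 : ε * H ≤ ε * (5 / 4 * P) := by gcongr
    have f5 : 0 ≤ ε * P := by positivity
    refine (abs_add_three _ _ _).trans ?_
    linarith
  have s := sandwich ω (x := x0) (H := H) (by omega)
  have m1 := abs_le.1 (main (x0 + 1) le_rfl (by omega))
  have m2 := abs_le.1 (main (x0 + H) (by omega) le_rfl)
  rw [ratio, ncard_eq _ hx hP0.le, abs_le]
  have hLP : 0 ≤ L / P := by positivity
  constructor
  · refine m2.1.trans (sub_le_sub_right (mul_le_mul_of_nonneg_left ?_ hLP) _)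
    exact_mod_cast s.1
  · refine le_trans (sub_le_sub_right (mul_le_mul_of_nonneg_left ?_ hLP) _) m1.2
    exact_mod_cast s.2

end Pool.Agent.Lib.MP_b09185_nt
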