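import Pool.Agent.Lib.MP_b09185_nt.MaiSum

/-! Primes in progressions with Gaussian weight, and the layer-cake comparison. -/

namespace Pool.Agent.Lib.MP_b09185_nt.Mai

open Set Filter Topology MeasureTheory ArithmeticFunction

lemma gw_le (ℓ : ℝ) {n : ℕ} (hn : n ≠ 0) :
    gw ℓ n ≤ Real.exp (9 / 2 + 3 * ℓ) * ((n : ℝ) ^ 3)⁻¹ := by
  have hn' : (0 : ℝ) < n := by positivity
  have : ((n : ℝ) ^ 3)⁻¹ = Real.exp (-(3 * Real.log n)) := by
    rw [Real.exp_neg, show 3 * Real.log n = Real.log (n ^ 3) by simp, Real.exp_log (by positivity)]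
  rw [this, ← Real.exp_add, gw]
  gcongr
  nlinarith [sq_nonneg (Real.log n - ℓ - 3)]

lemma summable_gw {h : ℕ → ℝ} {C : ℝ} (hh : ∀ n, |h n| ≤ C * n) (ℓ : ℝ) :
    Summable fun n => h n * gw ℓ n := by
  have hs : Summable fun n : ℕ => C * Real.exp (9 / 2 + 3 * ℓ) * ((n : ℝ) ^ 2)⁻¹ :=
    (Real.summable_nat_pow_inv.2 one_lt_two).mul_left _
  refine Summable.of_norm_bounded hs fun n => ?_
  rw [norm_mul, Real.norm_eq_abs, Real.norm_of_nonneg (gw_pos ℓ n).le]
  rcases eq_or_ne n 0 with rfl | hn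
  · have := hh 0
    simp only [Nat.cast_zero, mul_zero, abs_nonpos_iff] at this
    simp [this]
  · have hn' : (0 : ℝ) < n := by positivity
    calc _ ≤ C * n * (Real.exp (9 / 2 + 3 * ℓ) * ((n : ℝ) ^ 3)⁻¹) :=
          mul_le_mul (hh n) (gw_le ℓ hn) (gw_pos ℓ n).le ((abs_nonneg _).trans (hh n))
      _ = _ := by field_simp

noncomputable def kk (v : ℝ) : ℝ := v * Real.exp (-(1 / 2) * v ^ 2)

lemma integrable_kk : Integrable kk := integrable_mul_exp_neg_mul_sq (by norm_num)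

lemma integral_kk (c : ℝ) : ∫ v in Ioi c, kk v = Real.exp (-(1 / 2) * c ^ 2) := by
  have h := integral_Ioi_of_hasDerivAt_of_tendsto' (f := fun v => -Real.exp (-(1 / 2) * v ^ 2))
    (f' := kk) (a := c) (m := 0) (fun v _ => by
      have := (((hasDerivAt_pow 2 v).const_mul (-(1 / 2) : ℝ)).exp).neg
      refine this.congr_deriv ?_
      simp [kk]
      ring) integrable_kk.integrableOn (by
      rw [← neg_zero]
      refine (Real.tendsto_exp_atBot.comp ?_).neg
      exact (tendsto_pow_atTop two_ne_zero).const_mul_atTop_of_neg (by norm_num))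
  simpa using h

/-- the window of integers at level `v` -/
noncomputable def win (ℓ v : ℝ) : Finset ℕ := Finset.Ioc ⌊Real.exp (ℓ - v)⌋₊ ⌊Real.exp (ℓ + v)⌋₊

lemma mem_win {ℓ v : ℝ} {n : ℕ} (hn : n ≠ 0) :
    n ∈ win ℓ v ↔ ℓ - v < Real.log n ∧ Real.log n ≤ ℓ + v := by
  have hn' : (0 : ℝ) < n := by positivity
  rw [win, Finset.mem_Ioc, Nat.floor_lt (Real.exp_pos _).le, Nat.le_floor_iff (Real.exp_pos _).le,
    Real.lt_log_iff_exp_lt hn', Real.log_le_iff_le_exp hn']

lemma win_ae (ℓ : ℝ) {n : ℕ} (hn : n ≠ 0) (c : ℝ) :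
    (fun v => (if n ∈ win ℓ v then c else 0) * kk v) =ᵐ[volume]
      (Ioi |Real.log n - ℓ|).indicator fun v => c * kk v := by
  filter_upwards [(countable_singleton |Real.log n - ℓ|).ae_notMem volume] with v hv
  have hv' : v ≠ |Real.log n - ℓ| := hv
  have : n ∈ win ℓ v ↔ v ∈ Ioi |Real.log n - ℓ| := by
    rw [mem_win hn, mem_Ioi]
    constructor
    · intro h
      refine lt_of_le_of_ne (abs_le.2 ⟨by linarith, by linarith⟩) hv'.symm
    · intro h
      have := abs_lt.1 h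
      constructor <;> linarith
  by_cases h : n ∈ win ℓ v
  · rw [if_pos h, indicator_of_mem (this.1 h)]
  · rw [if_neg h, indicator_of_notMem (fun h' => h (this.2 h')), zero_mul]

lemma integral_win (ℓ : ℝ) {n : ℕ} (hn : n ≠ 0) (c : ℝ) :
    ∫ v in Ioi 0, (if n ∈ win ℓ v then c else 0) * kk v = c * gw ℓ n := by
  rw [integral_congr_ae (ae_restrict_of_ae (win_ae ℓ hn c)), setIntegral_indicator measurableSet_Ioi,
    Ioi_inter_Ioi, max_eq_right (abs_nonneg _), integral_const_mul, integral_kk, gw,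
    sq_abs]
  congr 2
  ring

lemma layer {h : ℕ → ℝ} {C : ℝ} (hh : ∀ n, |h n| ≤ C * n) (ℓ : ℝ) {H : ℝ → ℝ}
    (hH : IntegrableOn (fun v => H v * kk v) (Ioi 0)) (hH0 : ∀ v, 0 < v → 0 ≤ H v)
    (hb : ∀ v, 0 < v → ∑ n ∈ win ℓ v, h n ≤ H v) :
    ∑' n, h n * gw ℓ n ≤ ∫ v in Ioi 0, H v * kk v := by
  have h0 : h 0 = 0 := by simpa using hh 0
  have hk : ∀ v : ℝ, 0 < v → 0 ≤ kk v := fun v hv => by unfold kk; positivity
  have e : ∀ n, ∫ v in Ioi 0, (if n ∈ win ℓ v then h n else 0) * kk v = h n * gw ℓ n := by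
    intro n
    rcases eq_or_ne n 0 with rfl | hn
    · simp [h0]
    · exact integral_win ℓ hn _
  have hs := hasSum_integral_of_summable_integral_norm (μ := volume.restrict (Ioi 0))
    (F := fun n v => (if n ∈ win ℓ v then h n else 0) * kk v)
    (fun n => by
      rcases eq_or_ne n 0 with rfl | hn
      · simp [h0]
      · exact (((integrable_kk.const_mul _).indicator measurableSet_Ioi).congr
          (win_ae ℓ hn _).symm).integrableOn)
    (by
      refine (summable_gw (h := fun n => |h n|) (C := C) (by simpa using hh) ℓ).congr fun n => ?_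
      rcases eq_or_ne n 0 with rfl | hn
      · simp [h0]
      · rw [← integral_win ℓ hn]
        refine setIntegral_congr_fun measurableSet_Ioi fun v hv => ?_
        simp only [norm_mul, Real.norm_eq_abs, abs_of_nonneg (hk v hv)]
        split_ifs <;> simp)
  simp only [e] at hs
  rw [hs.tsum_eq]
  have e2 : ∀ v, ∑' n, (if n ∈ win ℓ v then h n else 0) * kk v = (∑ n ∈ win ℓ v, h n) * kk v := by
    intro v
    rw [tsum_mul_right, tsum_eq_sum (s := win ℓ v) fun n hn => if_neg hn]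
    congr 1
    exact Finset.sum_congr rfl fun n hn => if_pos hn
  simp only [e2]
  by_cases hi : IntegrableOn (fun v => (∑ n ∈ win ℓ v, h n) * kk v) (Ioi 0)
  · exact setIntegral_mono_on hi hH measurableSet_Ioi fun v hv =>
      mul_le_mul_of_nonneg_right (hb v hv) (hk v hv)
  · rw [integral_undef hi]
    exact setIntegral_nonneg measurableSet_Ioi fun v hv => mul_nonneg (hH0 v hv) (hk v hv)

lemma layer_exp {h : ℕ → ℝ} {C : ℝ} (hh : ∀ n, |h n| ≤ C * n) (ℓ : ℝ) {K : ℝ} (hK : 0 ≤ K)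
    (hb : ∀ v, 0 < v → ∑ n ∈ win ℓ v, h n ≤ K * Real.exp (2 * v)) :
    ∑' n, h n * gw ℓ n ≤ 300 * K := by
  have hg := (integrable_shift 3).const_mul (K * Real.exp (9 / 2))
  have hle : ∀ v : ℝ, 0 < v → K * Real.exp (2 * v) * kk v ≤
      K * Real.exp (9 / 2) * Real.exp (-(3 - v) ^ 2 / 2) := by
    intro v hv
    have h1 : v ≤ Real.exp v := by linarith [Real.add_one_le_exp v]
    calc _ ≤ K * Real.exp (2 * v) * (Real.exp v * Real.exp (-(1 / 2) * v ^ 2)) := by
          unfold kk; gcongr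
      _ = _ := by
          rw [mul_assoc, mul_assoc, ← Real.exp_add, ← Real.exp_add, ← Real.exp_add]
          congr 2
          ring
  have hi : IntegrableOn (fun v => K * Real.exp (2 * v) * kk v) (Ioi 0) := by
    refine Integrable.mono' hg.integrableOn (by unfold kk; fun_prop) ?_
    filter_upwards [ae_restrict_mem measurableSet_Ioi] with v hv
    have hv' : 0 < v := hv
    rw [Real.norm_of_nonneg (by unfold kk; positivity)]
    exact hle v hv
  refine (layer hh ℓ hi (fun v _ => by positivity) hb).trans ?_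
  refine (setIntegral_mono_on hi hg.integrableOn measurableSet_Ioi hle).trans ?_
  refine (setIntegral_le_integral hg (Eventually.of_forall fun y => by positivity)).trans ?_
  rw [integral_const_mul, integral_shift]
  have h1 : Real.exp (9 / 2) ≤ 100 := by
    have h : Real.exp (9 / 2) ^ 2 = Real.exp 1 ^ 9 := by
      rw [← Real.exp_nat_mul, ← Real.exp_nat_mul]; norm_num
    have h2 : Real.exp 1 ^ 9 ≤ (2.7182818286 : ℝ) ^ 9 := by gcongr; exact Real.exp_one_lt_d9.le
    have h3 : (2.7182818286 : ℝ) ^ 9 ≤ 100 ^ 2 := by norm_num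
    exact le_of_sq_le_sq (by rw [sq_abs]; linarith) (by norm_num) |>.trans' (le_abs_self _)
  calc _ ≤ K * 100 * 3 := by gcongr; exact sqrt_two_pi_le
    _ = _ := by ring

/-- von Mangoldt function on integers coprime to `N` -/
noncomputable def Lc (N n : ℕ) : ℝ := if n.Coprime N then Λ n else 0

/-- von Mangoldt function on a residue class -/
noncomputable def La (N c n : ℕ) : ℝ := if n ≡ c [MOD N] then Λ n else 0

lemma vm_le (n : ℕ) : Λ n ≤ n := vonMangoldt_le_log.trans (Real.log_le_self n.cast_nonneg)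

lemma Lc_nonneg (N n : ℕ) : 0 ≤ Lc N n := by
  unfold Lc; split_ifs; exacts [vonMangoldt_nonneg, le_rfl]

lemma Lc_le (N n : ℕ) : Lc N n ≤ Λ n := by
  unfold Lc; split_ifs; exacts [le_rfl, vonMangoldt_nonneg]

lemma La_nonneg (N c n : ℕ) : 0 ≤ La N c n := by
  unfold La; split_ifs; exacts [vonMangoldt_nonneg, le_rfl]

lemma La_le (N c n : ℕ) : La N c n ≤ Λ n := by
  unfold La; split_ifs; exacts [le_rfl, vonMangoldt_nonneg]

lemma abs_Lc_le (N n : ℕ) : |Lc N n| ≤ 1 * n := by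
  rw [abs_of_nonneg (Lc_nonneg N n), one_mul]; exact (Lc_le N n).trans (vm_le n)

lemma abs_La_le (N c n : ℕ) : |La N c n| ≤ 1 * n := by
  rw [abs_of_nonneg (La_nonneg N c n), one_mul]; exact (La_le N c n).trans (vm_le n)

open Classical in
lemma ap_estimate {N : ℕ} [NeZero N] (ℓ : ℝ) {c : ℕ} (hc : c.Coprime N) :
    |N.totient * ∑' n, La N c n * gw ℓ n - ∑' n, Lc N n * gw ℓ n| ≤
      ∑ χ ∈ (Finset.univ : Finset (DirichletCharacter ℂ N)).erase 1, ‖SS χ ℓ‖ := by
  have hu : IsUnit (c : ZMod N) := (ZMod.isUnit_iff_coprime c N).2 hc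
  have hsum : ∀ χ : DirichletCharacter ℂ N, Summable fun n => (ch χ * vm) n * (gw ℓ n : ℝ) := by
    intro χ
    refine Summable.of_norm_bounded (summable_gw (h := fun n => Λ n) (C := 1) (fun n => by
      rw [abs_of_nonneg vonMangoldt_nonneg, one_mul]; exact vm_le n) ℓ) fun n => ?_
    rw [Pi.mul_apply, norm_mul, norm_mul, Complex.norm_real, Complex.norm_real,
      Real.norm_of_nonneg (gw_pos ℓ n).le, Real.norm_of_nonneg vonMangoldt_nonneg]
    gcongr
    · exact (gw_pos ℓ n).le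
    · exact mul_le_of_le_one_left vonMangoldt_nonneg (χ.norm_le_one _)
  have h1 : ((N.totient * ∑' n, La N c n * gw ℓ n : ℝ) : ℂ) =
      ∑ χ : DirichletCharacter ℂ N, star (χ c) * SS χ ℓ := by
    simp_rw [SS, ← tsum_mul_left]
    rw [← Summable.tsum_finsetSum fun χ _ => (hsum χ).mul_left _, Complex.ofReal_tsum]
    refine tsum_congr fun n => ?_
    have e : ∀ χ : DirichletCharacter ℂ N, star (χ c) * ((ch χ * vm) n * (gw ℓ n : ℝ)) =
        star (χ c) * χ n * ((Λ n : ℝ) * (gw ℓ n : ℝ)) := by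
      intro χ; simp only [Pi.mul_apply]; ring
    simp_rw [e]
    rw [← Finset.sum_mul, orth, La]
    have e2 : (IsUnit (c : ZMod N) ∧ (c : ZMod N) = n) ↔ n ≡ c [MOD N] := by
      rw [ZMod.natCast_eq_natCast_iff, and_iff_right hu]
      exact ⟨Nat.ModEq.symm, Nat.ModEq.symm⟩
    by_cases h : n ≡ c [MOD N]
    · rw [if_pos h, if_pos (e2.2 h)]; push_cast; ring
    · rw [if_neg h, if_neg (fun h' => h (e2.1 h'))]; simp
  have h2 : ((∑' n, Lc N n * gw ℓ n : ℝ) : ℂ) =
      star ((1 : DirichletCharacter ℂ N) c) * SS (1 : DirichletCharacter ℂ N) ℓ := by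
    rw [MulChar.one_apply hu, star_one, one_mul, SS, Complex.ofReal_tsum]
    refine tsum_congr fun n => ?_
    rw [Lc, Pi.mul_apply]
    by_cases h : n.Coprime N
    · rw [if_pos h, ch, MulChar.one_apply ((ZMod.isUnit_iff_coprime n N).2 h)]
      push_cast; ring
    · rw [if_neg h, ch, MulChar.map_nonunit _ (mt (ZMod.isUnit_iff_coprime n N).1 h)]
      simp
  rw [← Real.norm_eq_abs, ← Complex.norm_real, Complex.ofReal_sub, h1, h2,
    ← Finset.add_sum_erase _ _ (Finset.mem_univ (1 : DirichletCharacter ℂ N)), add_sub_cancel_left]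
  refine norm_sum_le_of_le _ fun χ _ => ?_
  rw [norm_mul, norm_star]
  exact mul_le_of_le_one_left (norm_nonneg _) (χ.norm_le_one _)

/-- equidistribution of the weighted primes over reduced classes, with relative error `ε` -/
def Equi (N : ℕ) (ℓ ε : ℝ) : Prop := ∀ c : ℕ, c.Coprime N →
  |N.totient * ∑' n, La N c n * gw ℓ n - ∑' n, Lc N n * gw ℓ n| ≤ ε * Real.exp ℓ

theorem exists_equi {δ ε : ℝ} (hδ : 0 < δ) (hε : 0 < ε) : ∀ᶠ z : ℝ in atTop,
    ∀ P : ℕ, Squarefree P → (P : ℝ) ≤ Real.exp (2 * z) →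
      ∃ Q : ℕ, (Q = P ∨ ∃ p, p.Prime ∧ P = p * Q) ∧ Equi Q (z ^ (1 + δ)) ε := by
  obtain ⟨l₀, h20, H⟩ := good_modulus
  have t0 : Tendsto (fun z : ℝ => z ^ δ) atTop atTop := tendsto_rpow_atTop hδ
  have t1 : Tendsto (fun z : ℝ => z ^ (1 + δ) * Real.exp (-1 * z)) atTop (𝓝 0) :=
    tendsto_rpow_mul_exp_neg_mul_atTop_nhds_zero _ _ one_pos
  have t2 : Tendsto (fun z : ℝ => 10 ^ 33 * ((z ^ δ) ^ (12 * (1 + δ) / δ) *
      Real.exp (-(1 / 1120000) * z ^ δ))) atTop (𝓝 (10 ^ 33 * 0)) :=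
    ((tendsto_rpow_mul_exp_neg_mul_atTop_nhds_zero _ _ (by norm_num)).comp t0).const_mul _
  rw [mul_zero] at t2
  filter_upwards [eventually_ge_atTop l₀, t0.eventually_ge_atTop 56000,
    t1.eventually_le_const one_pos, t2.eventually_le_const hε] with z hz h0 h1 h2 P hP hPz
  have hz0 : 0 < z := by linarith
  have e : z ^ (1 + δ) = z * z ^ δ := by rw [Real.rpow_add hz0, Real.rpow_one]
  have h3 : z ^ (1 + δ) ≤ Real.exp z := by
    rw [neg_one_mul, Real.exp_neg, ← div_eq_mul_inv, div_le_one (Real.exp_pos z)] at h1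
    exact h1
  have h4 := Real.add_one_le_exp z
  obtain ⟨Q, _, hQ, hg⟩ := H (2 * z) (by linarith) (2 * z ^ (1 + δ)) (by positivity)
    (by rw [two_mul z, Real.exp_add]; nlinarith) P hP hPz
  refine ⟨Q, hQ, fun c hc => (ap_estimate _ hc).trans ?_⟩
  have hQP : (Q : ℝ) ≤ P := by
    rcases hQ with rfl | ⟨p, hp, rfl⟩
    · exact le_rfl
    · exact_mod_cast Nat.le_mul_of_pos_left Q hp.pos
  refine (char_sum_bound (l := 2 * z) (by linarith) (by rw [e]; nlinarith) (hQP.trans hPz) hg).trans ?_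
  have e1 : (z ^ δ) ^ (12 * (1 + δ) / δ) = (z ^ (1 + δ)) ^ 12 := by
    rw [← Real.rpow_mul hz0.le, ← Real.rpow_natCast, ← Real.rpow_mul hz0.le]
    congr 1
    field_simp
    norm_num
  have e2 : -(1 / 1120000) * z ^ δ = -(z ^ (1 + δ) / (560000 * (2 * z))) := by
    rw [e]; field_simp; norm_num
  rw [e1, e2] at h2
  calc _ = 10 ^ 33 * ((z ^ (1 + δ)) ^ 12 * Real.exp (-(z ^ (1 + δ) / (560000 * (2 * z))))) *
        Real.exp (z ^ (1 + δ)) := by ring
    _ ≤ _ := by gcongr

end Pool.Agent.Lib.MP_b09185_nt.Mai
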