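import Pool.Agent.Lib.MP_b09185_nt.MaiAP

/-! The Maier matrix: rows against columns. -/

namespace Pool.Agent.Lib.MP_b09185_nt.Mai

open Filter Topology ArithmeticFunction Finset Chebyshev

noncomputable def th (n : ℕ) : ℝ := if n.Prime then Real.log n else 0

lemma th_nonneg (n : ℕ) : 0 ≤ th n := by
  unfold th; split_ifs; exacts [Real.log_natCast_nonneg n, le_rfl]

lemma th_le (n : ℕ) : th n ≤ Λ n := by
  unfold th; split_ifs with h; exacts [(vonMangoldt_apply_prime h).ge, vonMangoldt_nonneg]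

lemma sum_Ioc_sub (f : ℕ → ℝ) {a b : ℕ} (h : a ≤ b) :
    ∑ n ∈ Ioc a b, f n = ∑ n ∈ Ioc 0 b, f n - ∑ n ∈ Ioc 0 a, f n := by
  rw [← sum_Ioc_consecutive f (Nat.zero_le a) h]; ring

lemma theta_eq (x : ℝ) : theta x = ∑ n ∈ Ioc 0 ⌊x⌋₊, th n := by
  rw [theta, sum_filter]; rfl

lemma theta_sub {x w : ℝ} (h : x ≤ w) : theta w - theta x = ∑ n ∈ Ioc ⌊x⌋₊ ⌊w⌋₊, th n := by
  rw [sum_Ioc_sub th (Nat.floor_mono h), theta_eq, theta_eq]

lemma psi_sub {x w : ℝ} (h : x ≤ w) : psi w - psi x = ∑ n ∈ Ioc ⌊x⌋₊ ⌊w⌋₊, Λ n := by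
  rw [sum_Ioc_sub (fun n => Λ n) (Nat.floor_mono h), psi, psi]

lemma row_eq (x y : ℕ) : theta (x + y) - theta x = ∑ j ∈ range y, th (x + j + 1) := by
  induction y with
  | zero => simp
  | succ y ih =>
    rw [sum_range_succ, ← ih]
    have h := theta_sub (x := (x + y : ℕ)) (w := (x + y + 1 : ℕ)) (by push_cast; linarith)
    rw [Nat.floor_natCast, Nat.floor_natCast, Nat.Ioc_succ_singleton, sum_singleton] at h
    push_cast at h ⊢
    rw [← add_assoc]
    linarith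

/-- number of survivors of the interval `(t, t + y]` -/
def Sv (Q t y : ℕ) : ℕ := ((range y).filter fun j => (t + j + 1).Coprime Q).card

noncomputable def ff (Q t y n : ℕ) : ℝ :=
  ∑ j ∈ (range y).filter fun j => (t + j + 1).Coprime Q, La Q (t + j + 1) n

lemma ff_nonneg (Q t y n : ℕ) : 0 ≤ ff Q t y n := sum_nonneg fun _ _ => La_nonneg _ _ _

lemma ff_le (Q t y n : ℕ) : ff Q t y n ≤ y * Λ n := by
  refine (sum_le_card_nsmul _ _ _ fun j _ => La_le Q (t + j + 1) n).trans ?_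
  rw [nsmul_eq_mul]
  gcongr
  exact_mod_cast (card_filter_le _ _).trans (card_range y).le

lemma abs_ff_le (Q t y n : ℕ) : |ff Q t y n| ≤ y * n := by
  rw [abs_of_nonneg (ff_nonneg Q t y n)]
  refine (ff_le Q t y n).trans ?_
  gcongr
  exact vm_le n

lemma tsum_ff (Q t y : ℕ) (ℓ : ℝ) : ∑' n, ff Q t y n * gw ℓ n =
    ∑ j ∈ (range y).filter fun j => (t + j + 1).Coprime Q, ∑' n, La Q (t + j + 1) n * gw ℓ n := by
  rw [← Summable.tsum_finsetSum fun j _ => summable_gw (abs_La_le Q _) ℓ]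
  simp_rw [ff, sum_mul]

lemma rows_le (Q t y a b : ℕ) (hQ : 0 < Q) (ha : Q ≤ a) :
    ∑ x ∈ (Ioc a (b - y)).filter fun x => x ≡ t [MOD Q], (theta (x + y) - theta x) ≤
      ∑ n ∈ Ioc a b, ff Q t y n := by
  simp_rw [row_eq, ff]
  rw [sum_comm, sum_comm (s := Ioc a b), sum_filter (fun j => (t + j + 1).Coprime Q)]
  refine sum_le_sum fun j hj => ?_
  have hj := mem_range.1 hj
  split_ifs with hc
  · have inj : Set.InjOn (fun x => x + j + 1) ((Ioc a (b - y)).filter fun x => x ≡ t [MOD Q]) :=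
      fun x _ x' _ h => by simpa using h
    rw [← sum_image (f := th) inj]
    refine le_trans (sum_le_sum fun n hn => ?_)
      (sum_le_sum_of_subset_of_nonneg (fun n hn => ?_) fun n _ _ => La_nonneg _ _ _)
    · obtain ⟨x, hx, rfl⟩ := mem_image.1 hn
      rw [La, if_pos (((mem_filter.1 hx).2.add_right j).add_right 1)]
      exact th_le _
    · obtain ⟨x, hx, rfl⟩ := mem_image.1 hn
      have := mem_Ioc.1 (mem_filter.1 hx).1
      rw [mem_Ioc]
      omega
  · refine (sum_eq_zero fun x hx => ?_).le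
    rw [th, if_neg]
    intro hp
    have h1 := mem_Ioc.1 (mem_filter.1 hx).1
    apply hc
    rw [Nat.Coprime, ← (((mem_filter.1 hx).2.add_right j).add_right 1).gcd_eq]
    exact (Nat.Prime.coprime_iff_not_dvd hp).2 (Nat.not_dvd_of_pos_of_lt hQ (by omega))

lemma le_rows (Q t y a b : ℕ) (ha : y ≤ a) :
    ∑ n ∈ Ioc a b, ff Q t y n ≤
      ∑ x ∈ (Ico (a - y) b).filter fun x => x ≡ t [MOD Q], (theta (x + y) - theta x) +
        y * ∑ n ∈ Ioc a b, (Λ n - th n) := by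
  simp_rw [row_eq, ff]
  rw [sum_comm, sum_comm (t := range y)]
  refine (sum_le_sum_of_subset_of_nonneg (filter_subset _ (range y)) fun j _ _ =>
    sum_nonneg fun n _ => La_nonneg _ _ _).trans ?_
  have e : (y : ℝ) * ∑ n ∈ Ioc a b, (Λ n - th n) = ∑ _j ∈ range y, ∑ n ∈ Ioc a b, (Λ n - th n) := by
    rw [sum_const, card_range, nsmul_eq_mul]
  rw [e, ← sum_add_distrib]
  refine sum_le_sum fun j hj => ?_
  have hj := mem_range.1 hj
  have inj : Set.InjOn (fun x => x + j + 1) ((Ico (a - y) b).filter fun x => x ≡ t [MOD Q]) :=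
    fun x _ x' _ h => by simpa using h
  rw [← sum_image (f := th) inj]
  have h1 : ∀ n ∈ Ioc a b, La Q (t + j + 1) n ≤
      (if n ≡ t + j + 1 [MOD Q] then th n else 0) + (Λ n - th n) := by
    intro n _
    rw [La]
    split_ifs
    · linarith
    · linarith [th_le n]
  refine (sum_le_sum h1).trans ?_
  rw [sum_add_distrib, ← sum_filter]
  refine add_le_add_left (sum_le_sum_of_subset_of_nonneg (fun n hn => ?_)
    fun n _ _ => th_nonneg n) _
  have h2 := mem_Ioc.1 (mem_filter.1 hn).1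
  obtain ⟨x, rfl⟩ : ∃ x, n = x + j + 1 := ⟨n - j - 1, by omega⟩
  refine mem_image.2 ⟨x, mem_filter.2 ⟨mem_Ico.2 (by omega), ?_⟩, rfl⟩
  exact Nat.ModEq.add_right_cancel' j (Nat.ModEq.add_right_cancel' 1 (mem_filter.1 hn).2)

lemma count_ge {Q : ℕ} (hQ : 0 < Q) (t a b : ℕ) :
    ((b : ℝ) - a) / Q - 1 ≤ ((Ioc a b).filter fun x => x ≡ t [MOD Q]).card := by
  have h := Nat.Ioc_filter_modEq_card a b hQ t
  have h1 : ((b : ℚ) - a) / Q - 1 ≤ ((Ioc a b).filter fun x => x ≡ t [MOD Q]).card := by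
    have h2 : ((⌊((b : ℚ) - t) / Q⌋ - ⌊((a : ℚ) - t) / Q⌋ : ℤ) : ℚ) ≤
        ((Ioc a b).filter fun x => x ≡ t [MOD Q]).card := by
      exact_mod_cast (le_max_left _ _).trans h.ge
    push_cast at h2
    have h3 := Int.lt_floor_add_one (((b : ℚ) - t) / Q)
    have h4 := Int.floor_le (((a : ℚ) - t) / Q)
    have e : ((b : ℚ) - a) / Q = ((b : ℚ) - t) / Q - ((a : ℚ) - t) / Q := by ring
    linarith
  exact_mod_cast h1

lemma count_le {Q : ℕ} (hQ : 0 < Q) (t : ℕ) {a b : ℕ} (hab : a ≤ b) :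
    (((Ico a b).filter fun x => x ≡ t [MOD Q]).card : ℝ) ≤ ((b : ℝ) - a) / Q + 1 := by
  have h := Nat.Ico_filter_modEq_card a b hQ t
  have h1 : (((Ico a b).filter fun x => x ≡ t [MOD Q]).card : ℚ) ≤ ((b : ℚ) - a) / Q + 1 := by
    have h2 : (((Ico a b).filter fun x => x ≡ t [MOD Q]).card : ℚ) =
        max ((⌈((b : ℚ) - t) / Q⌉ - ⌈((a : ℚ) - t) / Q⌉ : ℤ) : ℚ) 0 := by
      exact_mod_cast h
    rw [h2]
    have h3 := Int.ceil_lt_add_one (((b : ℚ) - t) / Q)
    have h4 := Int.le_ceil (((a : ℚ) - t) / Q)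
    have e : ((b : ℚ) - a) / Q = ((b : ℚ) - t) / Q - ((a : ℚ) - t) / Q := by ring
    have h5 : (0 : ℚ) ≤ ((b : ℚ) - a) / Q :=
      div_nonneg (sub_nonneg.2 (by exact_mod_cast hab)) (by positivity)
    push_cast
    exact max_le (by linarith) (by linarith)
  have h2 := (Rat.cast_le (K := ℝ)).2 h1
  push_cast at h2
  exact h2

lemma th_le_Lc {Q n : ℕ} (hQ : 0 < Q) (h : Q < n) : th n ≤ Lc Q n := by
  rw [th]
  split_ifs with hp
  · rw [Lc, if_pos ((Nat.Prime.coprime_iff_not_dvd hp).2 (Nat.not_dvd_of_pos_of_lt hQ h)),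
      vonMangoldt_apply_prime hp]
  · exact Lc_nonneg _ _

/-- the standing size conditions -/
structure Par (Q y : ℕ) (ℓ ε : ℝ) : Prop where
  Qpos : 0 < Q
  ε1 : ε ≤ 1 / 10
  ℓ0 : 0 ≤ ℓ
  Qle : Q ≤ ε * Real.exp (ℓ / 2)
  yle : y ≤ ε * Real.exp (ℓ / 2)
  pnt : ∀ w, Real.exp (ℓ / 2) ≤ w → (1 - ε) * w ≤ theta w ∧ psi w ≤ (1 + ε) * w
  pow : ∀ w, Real.exp ℓ ≤ w → Q * (psi w - theta w) ≤ ε * w
  equi : Equi Q ℓ ε

variable {Q y : ℕ} {ℓ ε : ℝ}

lemma Par.one_le (h : Par Q y ℓ ε) : 1 ≤ ε * Real.exp (ℓ / 2) :=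
  le_trans (by exact_mod_cast h.Qpos) h.Qle

lemma Par.εpos (h : Par Q y ℓ ε) : 0 < ε := by
  have := h.one_le
  by_contra h'
  nlinarith [Real.exp_pos (ℓ / 2)]

lemma Par.floor (h : Par Q y ℓ ε) {w : ℝ} (hw : Real.exp (ℓ / 2) ≤ w) :
    Q ≤ ⌊w⌋₊ ∧ y ≤ ⌊w⌋₊ := by
  have h1 := h.ε1
  have h2 := Real.exp_pos (ℓ / 2)
  exact ⟨Nat.le_floor (by nlinarith [h.Qle]), Nat.le_floor (by nlinarith [h.yle])⟩

lemma Par.main_ge (h : Par Q y ℓ ε) : Real.exp ℓ / 4 ≤ ∑' n, Lc Q n * gw ℓ n := by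
  have h0 : Real.exp (ℓ / 2) ≤ Real.exp ℓ := by gcongr; linarith [h.ℓ0]
  have hX := Real.exp_pos ℓ
  refine le_trans ?_ ((summable_gw (abs_Lc_le Q) ℓ).sum_le_tsum (Ioc ⌊Real.exp ℓ⌋₊ ⌊2 * Real.exp ℓ⌋₊)
    fun n _ => mul_nonneg (Lc_nonneg _ _) (gw_pos _ _).le)
  have h1 : ∀ n ∈ Ioc ⌊Real.exp ℓ⌋₊ ⌊2 * Real.exp ℓ⌋₊, th n * (1 / 2) ≤ Lc Q n * gw ℓ n := by
    intro n hn
    rw [mem_Ioc] at hn
    have a1 : Real.exp ℓ < n := (Nat.floor_lt hX.le).1 hn.1
    have a2 : (n : ℝ) ≤ 2 * Real.exp ℓ := (Nat.le_floor_iff (by positivity)).1 hn.2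
    have a3 : ℓ < Real.log n := (Real.lt_log_iff_exp_lt (by linarith)).2 a1
    have a4 : Real.log n ≤ 1 + ℓ := by
      rw [Real.log_le_iff_le_exp (by linarith), Real.exp_add]
      nlinarith [Real.add_one_le_exp 1]
    have a5 := Real.add_one_le_exp (-(Real.log n - ℓ) ^ 2 / 2)
    refine mul_le_mul (th_le_Lc h.Qpos ((h.floor h0).1.trans_lt hn.1)) ?_ (by norm_num)
      (Lc_nonneg _ _)
    rw [gw]
    nlinarith
  refine le_trans ?_ (sum_le_sum h1)
  rw [← sum_mul, ← theta_sub (by linarith)]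
  have a1 := (h.pnt (2 * Real.exp ℓ) (by linarith)).1
  have a2 := (h.pnt (Real.exp ℓ) h0).2
  have a3 := theta_le_psi (Real.exp ℓ)
  have := h.ε1
  nlinarith

lemma exp_shift (ℓ v : ℝ) (hv : 0 ≤ v) : Real.exp (ℓ + v) ≤ Real.exp ℓ * Real.exp (2 * v) := by
  rw [← Real.exp_add]; gcongr; linarith

lemma exp_shift2 (ℓ v : ℝ) (hv : ℓ / 2 ≤ v) :
    Real.exp (ℓ / 2) * Real.exp (ℓ + v) ≤ Real.exp ℓ * Real.exp (2 * v) := by
  rw [← Real.exp_add, ← Real.exp_add]; exact Real.exp_le_exp.2 (by linarith)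

lemma Par.core_lower (h : Par Q y ℓ ε) (t : ℕ) {ρ : ℝ} (hρ : 0 ≤ ρ)
    (hrow : ∀ x : ℕ, Real.exp (ℓ / 2) / 2 ≤ x → x ≤ Real.exp (3 * ℓ / 2) →
      ρ * y ≤ theta (x + y) - theta x) :
    ρ * y / Q * (1 - 6000 * ε) ≤ Sv Q t y / Q.totient * (1 + 4 * ε) := by
  have hQ : (0 : ℝ) < Q := by exact_mod_cast h.Qpos
  have hφ : (0 : ℝ) < Q.totient := by exact_mod_cast Nat.totient_pos.2 h.Qpos
  have hε := h.εpos
  have hε1 := h.ε1
  have hW := h.main_ge
  have hX := Real.exp_pos ℓ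
  set c := ρ * y / Q with hc
  have hc0 : 0 ≤ c := by positivity
  have key := layer_exp (h := fun n => c * Lc Q n - ff Q t y n) (C := c + y) (fun n => by
      have a1 := abs_Lc_le Q n
      have a2 := abs_ff_le Q t y n
      refine (abs_sub _ _).trans ?_
      rw [abs_mul, abs_of_nonneg hc0]
      nlinarith) ℓ (K := c * (5 * ε * Real.exp ℓ)) (by positivity) (fun v hv => by
      have hAB : Real.exp (ℓ - v) ≤ Real.exp (ℓ + v) := by gcongr; linarith
      have hB : Real.exp (ℓ / 2) ≤ Real.exp (ℓ + v) := by gcongr; linarith [h.ℓ0]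
      have a1 : ∑ n ∈ win ℓ v, Lc Q n ≤ psi (Real.exp (ℓ + v)) - psi (Real.exp (ℓ - v)) := by
        rw [psi_sub hAB]
        exact sum_le_sum fun n _ => Lc_le Q n
      have a2 := (h.pnt _ hB).2
      rw [sum_sub_distrib, ← mul_sum]
      rcases le_or_gt v (ℓ / 2) with hv2 | hv2
      · have hA : Real.exp (ℓ / 2) ≤ Real.exp (ℓ - v) := by gcongr; linarith
        have hB2 : Real.exp (ℓ + v) ≤ Real.exp (3 * ℓ / 2) := by gcongr; linarith
        have a3 := (h.pnt _ hA).1.trans (theta_le_psi _)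
        have a4 := rows_le Q t y ⌊Real.exp (ℓ - v)⌋₊ ⌊Real.exp (ℓ + v)⌋₊ h.Qpos (h.floor hA).1
        have a5 := count_ge h.Qpos t ⌊Real.exp (ℓ - v)⌋₊ (⌊Real.exp (ℓ + v)⌋₊ - y)
        have a6 := card_nsmul_le_sum ((Ioc ⌊Real.exp (ℓ - v)⌋₊ (⌊Real.exp (ℓ + v)⌋₊ - y)).filter
          fun x => x ≡ t [MOD Q]) (fun x => theta (x + y) - theta x) (ρ * y) (fun x hx => by
            have b1 := mem_Ioc.1 (mem_filter.1 hx).1
            have b2 : Real.exp (ℓ - v) < x := (Nat.floor_lt (Real.exp_pos _).le).1 b1.1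
            have b3 : (x : ℝ) ≤ Real.exp (ℓ + v) :=
              (Nat.le_floor_iff (Real.exp_pos _).le).1 (b1.2.trans (Nat.sub_le _ _))
            exact hrow x (by linarith [Real.exp_pos (ℓ / 2)]) (by linarith))
        rw [nsmul_eq_mul] at a6
        rw [Nat.cast_sub (h.floor hB).2] at a5
        have b1 := Nat.floor_le (Real.exp_pos (ℓ - v)).le
        have b2 := Nat.lt_floor_add_one (Real.exp (ℓ + v))
        have b3 : ε * Real.exp (ℓ / 2) ≤ ε * Real.exp (ℓ + v) := by gcongr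
        have b4 : ε * Real.exp (ℓ - v) ≤ ε * Real.exp (ℓ + v) := by gcongr
        have a7 : (Real.exp (ℓ + v) - Real.exp (ℓ - v) - 3 * (ε * Real.exp (ℓ + v))) / Q ≤
            ((⌊Real.exp (ℓ + v)⌋₊ : ℝ) - y - ⌊Real.exp (ℓ - v)⌋₊) / Q - 1 := by
          rw [div_sub_one hQ.ne']
          exact div_le_div_of_nonneg_right (by linarith [h.Qle, h.yle, h.one_le]) hQ.le
        have a8 : c * (Real.exp (ℓ + v) - Real.exp (ℓ - v) - 3 * (ε * Real.exp (ℓ + v))) ≤
            ∑ n ∈ win ℓ v, ff Q t y n := by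
          refine le_trans ?_ (a6.trans a4)
          calc _ = (Real.exp (ℓ + v) - Real.exp (ℓ - v) - 3 * (ε * Real.exp (ℓ + v))) / Q *
                (ρ * y) := by rw [hc]; ring
            _ ≤ _ := by gcongr; exact a7.trans a5
        have a9 : c * ∑ n ∈ win ℓ v, Lc Q n ≤
            c * (Real.exp (ℓ + v) - Real.exp (ℓ - v) + 2 * (ε * Real.exp (ℓ + v))) := by
          gcongr; linarith
        have a10 : c * (5 * ε * Real.exp (ℓ + v)) ≤
            c * (5 * ε * (Real.exp ℓ * Real.exp (2 * v))) := by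
          gcongr; exact exp_shift ℓ v hv.le
        nlinarith
      · have a3 : 0 ≤ ∑ n ∈ win ℓ v, ff Q t y n := sum_nonneg fun n _ => ff_nonneg _ _ _ _
        have a4 := psi_nonneg (Real.exp (ℓ - v))
        have a5 := exp_shift2 ℓ v hv2.le
        have a6 := h.one_le
        have a7 := Real.exp_pos (ℓ + v)
        have a8 : Real.exp (ℓ + v) ≤ ε * (Real.exp ℓ * Real.exp (2 * v)) := by nlinarith
        have a9 : c * ∑ n ∈ win ℓ v, Lc Q n ≤ c * (5 * (ε * (Real.exp ℓ * Real.exp (2 * v)))) := by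
          gcongr; nlinarith
        nlinarith)
  simp_rw [sub_mul, mul_assoc c] at key
  rw [((summable_gw (abs_Lc_le Q) ℓ).mul_left c).tsum_sub (summable_gw (abs_ff_le Q t y) ℓ),
    tsum_mul_left, tsum_ff] at key
  set W := ∑' n, Lc Q n * gw ℓ n
  have a1 := sum_le_card_nsmul ((range y).filter fun j => (t + j + 1).Coprime Q)
    (fun j => ∑' n, La Q (t + j + 1) n * gw ℓ n) (W * (1 + 4 * ε) / Q.totient) (fun j hj => by
      have := (abs_le.1 (h.equi _ (mem_filter.1 hj).2)).2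
      rw [le_div_iff₀' hφ]
      nlinarith)
  rw [nsmul_eq_mul] at a1
  have hW0 : 0 < W := by linarith
  refine le_of_mul_le_mul_right ?_ hW0
  have a2 : c * (ε * Real.exp ℓ) ≤ c * (ε * (4 * W)) := by gcongr; linarith
  calc c * (1 - 6000 * ε) * W ≤ (Sv Q t y : ℝ) * (W * (1 + 4 * ε) / Q.totient) := by
        rw [Sv]; nlinarith
    _ = _ := by ring

lemma Par.core_upper (h : Par Q y ℓ ε) (t : ℕ) {ρ : ℝ} (hρ : 0 ≤ ρ)
    (hrow : ∀ x : ℕ, Real.exp (ℓ / 2) / 2 ≤ x → x ≤ Real.exp (3 * ℓ / 2) →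
      theta (x + y) - theta x ≤ ρ * y) :
    Sv Q t y / Q.totient * (1 - 4 * ε) ≤ y / Q * (ρ + 1200 * ε * (5 * ρ + 2)) := by
  have hQ : (0 : ℝ) < Q := by exact_mod_cast h.Qpos
  have hφ : (0 : ℝ) < Q.totient := by exact_mod_cast Nat.totient_pos.2 h.Qpos
  have hε := h.εpos
  have hε1 := h.ε1
  have hW := h.main_ge
  have hX := Real.exp_pos ℓ
  set c := (y : ℝ) / Q with hc
  have hc0 : 0 ≤ c := by positivity
  have hy : (y : ℝ) = c * Q := by rw [hc]; field_simp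
  have key := layer_exp (h := fun n => ff Q t y n - c * ρ * Lc Q n) (C := c * ρ + y) (fun n => by
      have a1 := abs_Lc_le Q n
      have a2 := abs_ff_le Q t y n
      refine (abs_sub _ _).trans ?_
      rw [abs_mul, abs_of_nonneg (mul_nonneg hc0 hρ)]
      nlinarith [mul_nonneg hc0 hρ]) ℓ (K := c * ((5 * ρ + 2) * ε * Real.exp ℓ)) (by positivity)
      (fun v hv => by
      have hAB : Real.exp (ℓ - v) ≤ Real.exp (ℓ + v) := by gcongr; linarith
      have hB : Real.exp (ℓ / 2) ≤ Real.exp (ℓ + v) := by gcongr; linarith [h.ℓ0]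
      rw [sum_sub_distrib, ← mul_sum]
      rcases le_or_gt v (ℓ / 2) with hv2 | hv2
      · have hA : Real.exp (ℓ / 2) ≤ Real.exp (ℓ - v) := by gcongr; linarith
        have hB2 : Real.exp (ℓ + v) ≤ Real.exp (3 * ℓ / 2) := by gcongr; linarith
        have a1 : theta (Real.exp (ℓ + v)) - theta (Real.exp (ℓ - v)) ≤ ∑ n ∈ win ℓ v, Lc Q n := by
          rw [theta_sub hAB]
          exact sum_le_sum fun n hn => th_le_Lc h.Qpos ((h.floor hA).1.trans_lt (mem_Ioc.1 hn).1)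
        have a2 := (h.pnt _ hB).1
        have a3 := (theta_le_psi _).trans (h.pnt _ hA).2
        have a4 := le_rows Q t y ⌊Real.exp (ℓ - v)⌋₊ ⌊Real.exp (ℓ + v)⌋₊ (h.floor hA).2
        have a5 := count_le h.Qpos t (a := ⌊Real.exp (ℓ - v)⌋₊ - y) (b := ⌊Real.exp (ℓ + v)⌋₊)
          ((Nat.sub_le _ _).trans (Nat.floor_mono hAB))
        have b1 := Nat.floor_le (Real.exp_pos (ℓ + v)).le
        have b2 := Nat.lt_floor_add_one (Real.exp (ℓ - v))
        have a6 := sum_le_card_nsmul ((Ico (⌊Real.exp (ℓ - v)⌋₊ - y) ⌊Real.exp (ℓ + v)⌋₊).filter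
          fun x => x ≡ t [MOD Q]) (fun x => theta (x + y) - theta x) (ρ * y) (fun x hx => by
            have b3 := mem_Ico.1 (mem_filter.1 hx).1
            have b4 : ((⌊Real.exp (ℓ - v)⌋₊ - y : ℕ) : ℝ) ≤ x := by exact_mod_cast b3.1
            have b5 : (x : ℝ) ≤ ⌊Real.exp (ℓ + v)⌋₊ := by exact_mod_cast b3.2.le
            rw [Nat.cast_sub (h.floor hA).2] at b4
            refine hrow x ?_ (by linarith)
            nlinarith [h.yle, h.one_le, Real.exp_pos (ℓ / 2)])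
        rw [nsmul_eq_mul] at a6
        rw [Nat.cast_sub (h.floor hA).2] at a5
        have b3 : ε * Real.exp (ℓ / 2) ≤ ε * Real.exp (ℓ + v) := by gcongr
        have b4 : ε * Real.exp (ℓ - v) ≤ ε * Real.exp (ℓ + v) := by gcongr
        have a7 : ((⌊Real.exp (ℓ + v)⌋₊ : ℝ) - (⌊Real.exp (ℓ - v)⌋₊ - y)) / Q + 1 ≤
            (Real.exp (ℓ + v) - Real.exp (ℓ - v) + 3 * (ε * Real.exp (ℓ + v))) / Q := by
          rw [div_add_one hQ.ne']
          exact div_le_div_of_nonneg_right (by linarith [h.Qle, h.yle, h.one_le]) hQ.le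
        have a11 : ∑ n ∈ win ℓ v, (Λ n - th n) ≤
            psi (Real.exp (ℓ + v)) - theta (Real.exp (ℓ + v)) := by
          rw [win, sum_sub_distrib, ← psi_sub hAB, ← theta_sub hAB]
          linarith [theta_le_psi (Real.exp (ℓ - v))]
        have a12 := h.pow (Real.exp (ℓ + v)) (by gcongr; linarith)
        have a13 : y * ∑ n ∈ win ℓ v, (Λ n - th n) ≤ c * (ε * Real.exp (ℓ + v)) := by
          rw [hy, mul_assoc]
          exact mul_le_mul_of_nonneg_left ((mul_le_mul_of_nonneg_left a11 hQ.le).trans a12) hc0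
        have a8 : ∑ n ∈ win ℓ v, ff Q t y n ≤
            c * ρ * (Real.exp (ℓ + v) - Real.exp (ℓ - v) + 3 * (ε * Real.exp (ℓ + v))) +
              c * (ε * Real.exp (ℓ + v)) := by
          refine a4.trans (add_le_add (a6.trans ?_) a13)
          calc _ ≤ (Real.exp (ℓ + v) - Real.exp (ℓ - v) + 3 * (ε * Real.exp (ℓ + v))) / Q *
                (ρ * y) := by gcongr; exact a5.trans a7
            _ = _ := by rw [hc]; ring
        have a9 : c * ρ * (Real.exp (ℓ + v) - Real.exp (ℓ - v) - 2 * (ε * Real.exp (ℓ + v))) ≤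
            c * ρ * ∑ n ∈ win ℓ v, Lc Q n := by
          gcongr; linarith
        have a10 : c * ((5 * ρ + 2) * ε * Real.exp (ℓ + v)) ≤
            c * ((5 * ρ + 2) * ε * (Real.exp ℓ * Real.exp (2 * v))) := by
          gcongr; exact exp_shift ℓ v hv.le
        have a14 : 0 ≤ c * (ε * Real.exp (ℓ + v)) := by positivity
        nlinarith
      · have a3 : 0 ≤ c * ρ * ∑ n ∈ win ℓ v, Lc Q n :=
          mul_nonneg (mul_nonneg hc0 hρ) (sum_nonneg fun n _ => Lc_nonneg _ _)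
        have a1 : ∑ n ∈ win ℓ v, ff Q t y n ≤ y * psi (Real.exp (ℓ + v)) := by
          refine (sum_le_sum fun n _ => ff_le Q t y n).trans ?_
          rw [← mul_sum, win, ← psi_sub hAB]
          gcongr
          linarith [psi_nonneg (Real.exp (ℓ - v))]
        have a2 := (h.pnt _ hB).2
        have a5 := exp_shift2 ℓ v hv2.le
        have a7 := Real.exp_pos (ℓ + v)
        have a8 : y * psi (Real.exp (ℓ + v)) ≤
            c * (2 * ε * (Real.exp ℓ * Real.exp (2 * v))) := by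
          calc _ = c * (Q * psi (Real.exp (ℓ + v))) := by rw [hy]; ring
            _ ≤ c * (ε * Real.exp (ℓ / 2) * (2 * Real.exp (ℓ + v))) := by
                gcongr
                · exact h.Qle
                · nlinarith
            _ = c * (2 * ε * (Real.exp (ℓ / 2) * Real.exp (ℓ + v))) := by ring
            _ ≤ _ := by gcongr
        have a9 : 0 ≤ c * (ρ * ε * (Real.exp ℓ * Real.exp (2 * v))) := by positivity
        nlinarith)
  simp_rw [sub_mul, mul_assoc (c * ρ)] at key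
  rw [(summable_gw (abs_ff_le Q t y) ℓ).tsum_sub ((summable_gw (abs_Lc_le Q) ℓ).mul_left _),
    tsum_mul_left, tsum_ff] at key
  set W := ∑' n, Lc Q n * gw ℓ n
  have a1 := card_nsmul_le_sum ((range y).filter fun j => (t + j + 1).Coprime Q)
    (fun j => ∑' n, La Q (t + j + 1) n * gw ℓ n) (W * (1 - 4 * ε) / Q.totient) (fun j hj => by
      have := (abs_le.1 (h.equi _ (mem_filter.1 hj).2)).1
      rw [div_le_iff₀' hφ]
      nlinarith)
  rw [nsmul_eq_mul] at a1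
  have hW0 : 0 < W := by linarith
  refine le_of_mul_le_mul_right ?_ hW0
  have a2 : c * ((5 * ρ + 2) * ε * Real.exp ℓ) ≤ c * ((5 * ρ + 2) * ε * (4 * W)) := by
    gcongr; linarith
  calc _ = (Sv Q t y : ℝ) * (W * (1 - 4 * ε) / Q.totient) := by ring
    _ ≤ _ := by rw [Sv]; nlinarith

end Pool.Agent.Lib.MP_b09185_nt.Mai
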