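import Mathlib

namespace Pool.Agent.Lib.MP_b09185_nt.Mai

/-- iterated integrals: the mass of `{t₁ + ⋯ + t_k ≤ v}` in `[α, 1] ^ k` for `∏ dt_i / t_i` -/
noncomputable def II (α : ℝ) : ℕ → ℝ → ℝ
  | 0, v => if 0 ≤ v then 1 else 0
  | k + 1, v => ∫ t in α..1, II α k (v - t) / t

/-- density of the integers up to `z ^ u` free of primes in `(z ^ α, z]`, divided by `α` -/
noncomputable def EW (α u : ℝ) : ℝ := (∑' k : ℕ, (-1) ^ k * II α k u / (k.factorial : ℝ)) / α

end Pool.Agent.Lib.MP_b09185_nt.Mai
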