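import Pool.Agent.Lib.MP_b09185_nt.MaiTransfer
import Pool.Agent.Lib.MP_b09185_nt.MaiMertens

/-! Intervals with few primes: sieving by all primes outside a middle window. -/

namespace Pool.Agent.Lib.MP_b09185_nt.Mai

open Filter Topology Finset Nat

lemma conf_of_subset (u : ℝ) : ∀ᶠ z : ℝ in atTop, ∀ s ⊆ primesLE ⌊z⌋₊,
    Conf u z (∏ p ∈ s, p) ⌈z ^ u⌉₊ := by
  have t1 : Tendsto (fun z : ℝ => z ^ u * Real.exp (-1 * z)) atTop (𝓝 0) :=
    tendsto_rpow_mul_exp_neg_mul_atTop_nhds_zero _ _ one_pos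
  have t2 := (m3.pos_mul_atTop (Real.exp_pos _) Real.tendsto_log_atTop).eventually_ge_atTop 1
  filter_upwards [eventually_ge_atTop 1, t1.eventually_le_const (show (0 : ℝ) < 1 / 2 by norm_num),
    t2] with z hz h1 h2 s hs
  obtain ⟨a1, a2⟩ := prod_primes_dvd hs
  have hp : ∀ p ∈ s, p.Prime := fun p hp => (mem_primesLE.1 (hs hp)).2
  refine ⟨a1, a2.trans (Real.exp_le_exp.2 (by linarith [Nat.floor_le (by linarith : 0 ≤ z)])),
    Nat.le_ceil _, ?_, ?_⟩
  · have b1 := Nat.ceil_lt_add_one (by positivity : 0 ≤ z ^ u)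
    rw [neg_one_mul, Real.exp_neg, ← div_eq_mul_inv, div_le_iff₀ (Real.exp_pos z)] at h1
    linarith [Real.add_one_le_exp z]
  · have hP : (0 : ℝ) < (∏ p ∈ s, p : ℕ) := by exact_mod_cast Nat.pos_of_ne_zero a1.ne_zero
    have b1 : Th z ≤ ((∏ p ∈ s, p).totient : ℝ) / ((∏ p ∈ s, p : ℕ) : ℝ) := by
      rw [totient_prod hp, Th]
      refine prod_le_prod_of_subset_of_le_one hs
        (fun p hp => (factor_pos (mem_primesLE.1 hp).2).le) fun p _ _ => ?_
      have : 0 ≤ 1 / (p : ℝ) := by positivity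
      linarith
    rw [le_div_iff₀ hP] at b1
    calc _ ≤ Th z * Real.log z * Real.log z * (∏ p ∈ s, p : ℕ) :=
          le_mul_of_one_le_left hP.le h2
      _ = Real.log z ^ 2 * (Th z * (∏ p ∈ s, p : ℕ)) := by ring
      _ ≤ _ := by gcongr

lemma coprime_prod_iff {s : Finset ℕ} (hs : ∀ p ∈ s, p.Prime) (n : ℕ) :
    n.Coprime (∏ p ∈ s, p) ↔ ∀ p ∈ s, ¬ p ∣ n := by
  rw [Nat.coprime_prod_right_iff]
  exact forall₂_congr fun p hp => by rw [Nat.coprime_comm, (hs p hp).coprime_iff_not_dvd]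

lemma Th_sdiff {x w : ℝ} (h : x ≤ w) :
    ∏ p ∈ primesLE ⌊w⌋₊ \ primesLE ⌊x⌋₊, (1 - 1 / (p : ℝ)) = Th w / Th x := by
  rw [eq_div_iff (Th_pos x).ne', Th, Th]
  exact prod_sdiff (primesLE_mono (Nat.floor_mono h))

/-- survivors are primes or small -/
lemma survivors {B A Z y n : ℕ} (h3 : y < B ^ 3) (hZ : y < B * Z) (hn : n ≤ y) (hA : A ^ 2 < n)
    (hn1 : 1 < n) (h : ∀ p ∈ primesLE B ∪ (primesLE Z \ primesLE A), ¬ p ∣ n) : n.Prime := by
  have big : ∀ p, p.Prime → p ∣ n → B < p := by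
    intro p hp hd
    by_contra hc
    exact h p (mem_union_left _ (mem_primesLE.2 ⟨by omega, hp⟩)) hd
  by_contra hnp
  obtain ⟨m, hm⟩ := minFac_dvd n
  have hp := minFac_prime hn1.ne'
  have hm1 : m ≠ 1 := by
    rintro rfl
    exact hnp (by rw [hm, mul_one]; exact hp)
  obtain ⟨r, hr⟩ := minFac_dvd m
  have hq := minFac_prime hm1
  have hqn : m.minFac ∣ n := (minFac_dvd m).trans (Dvd.intro_left _ hm.symm)
  have b1 := big _ hp (minFac_dvd n)
  have b2 := big _ hq hqn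
  have hpq : n.minFac ≤ m.minFac := minFac_le_of_dvd hq.two_le hqn
  by_cases hr1 : r = 1
  · rw [hr1, mul_one] at hr
    rw [← hr] at hq b2 hqn hpq
    have c1 : m ≤ Z := by
      by_contra hc
      have : B * Z ≤ n.minFac * m := Nat.mul_le_mul b1.le (by omega)
      omega
    have c2 : m ≤ A := by
      by_contra hc
      exact h m (mem_union_right _ (mem_sdiff.2 ⟨mem_primesLE.2 ⟨c1, hq⟩,
        fun h' => hc (mem_primesLE.1 h').1⟩)) hqn
    have : n.minFac * m ≤ A * A := Nat.mul_le_mul (hpq.trans c2) c2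
    nlinarith
  · have hrn : r ∣ n := (Dvd.intro_left _ hr.symm).trans (Dvd.intro_left _ hm.symm)
    have b3 := big _ (minFac_prime hr1) ((minFac_dvd r).trans hrn)
    have hr0 : 0 < r := Nat.pos_of_dvd_of_pos hrn (by omega)
    have b4 := b3.trans_le (minFac_le hr0)
    have : B * (B * B) ≤ n.minFac * (m.minFac * r) :=
      Nat.mul_le_mul b1.le (Nat.mul_le_mul b2.le b4.le)
    rw [← hr, ← hm] at this
    have e : B ^ 3 = B * (B * B) := by ring
    omega

lemma Sv_few {B A Z y : ℕ} (h3 : y < B ^ 3) (hZ : y < B * Z) :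
    (Sv (∏ p ∈ primesLE B ∪ (primesLE Z \ primesLE A), p) 0 y : ℝ) ≤
      Nat.primeCounting y + (A ^ 2 + 1) := by
  have hs : ∀ p ∈ primesLE B ∪ (primesLE Z \ primesLE A), p.Prime := by
    intro p hp
    rcases mem_union.1 hp with h | h
    exacts [(mem_primesLE.1 h).2, (mem_primesLE.1 (mem_sdiff.1 h).1).2]
  have h1 : Sv (∏ p ∈ primesLE B ∪ (primesLE Z \ primesLE A), p) 0 y ≤
      (primesLE y ∪ range (A ^ 2 + 2) \ {0}).card := by
    refine card_le_card_of_injOn (fun j => j + 1) (fun j hj => ?_) fun _ _ _ _ h => by simpa using h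
    simp only [coe_filter, mem_range, Set.mem_ofPred_eq, zero_add] at hj
    simp only [coe_union, Set.mem_union, mem_coe]
    by_cases hc : j + 1 < A ^ 2 + 2
    · exact Or.inr (mem_sdiff.2 ⟨mem_range.2 hc, by simp⟩)
    · exact Or.inl (mem_primesLE.2 ⟨by omega, survivors h3 hZ (by omega) (by omega) (by omega)
        ((coprime_prod_iff hs _).1 hj.2)⟩)
  have h2 := h1.trans (card_union_le _ _)
  rw [primesLE_card_eq_primeCounting, card_sdiff_of_subset (by simp), card_range,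
    card_singleton] at h2
  exact_mod_cast h2

lemma floor_rpow_ge {β β' : ℝ} (h : β' < β) (h0 : 0 < β) :
    ∀ᶠ z : ℝ in atTop, 2 * z ^ β' ≤ ⌊z ^ β⌋₊ := by
  filter_upwards [eventually_gt_atTop 0, (tendsto_rpow_atTop (sub_pos.2 h)).eventually_ge_atTop 4,
    (tendsto_rpow_atTop h0).eventually_ge_atTop 2] with z hz h1 h2
  have e : z ^ β = z ^ (β - β') * z ^ β' := by rw [← Real.rpow_add hz]; congr 1; ring
  have h3 := Nat.lt_floor_add_one (z ^ β)
  have h4 : 4 * z ^ β' ≤ z ^ β := by rw [e]; gcongr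
  linarith

lemma ceil_ratio {u : ℝ} (hu : 0 < u) :
    Tendsto (fun z : ℝ => (Nat.primeCounting ⌈z ^ u⌉₊ : ℝ) * Real.log z / ⌈z ^ u⌉₊) atTop
      (𝓝 (1 / u)) := by
  have t0 : Tendsto (fun z : ℝ => (⌈z ^ u⌉₊ : ℝ)) atTop atTop :=
    tendsto_atTop_mono (fun z => Nat.le_ceil _) (tendsto_rpow_atTop hu)
  have t1 := PNT.pi_tendsto.comp t0
  have t2 : Tendsto (fun z : ℝ => Real.log (⌈z ^ u⌉₊ / z ^ u)) atTop (𝓝 (Real.log 1)) :=
    (tendsto_nat_ceil_div_atTop.comp (tendsto_rpow_atTop hu)).log one_ne_zero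
  have t3 := (t2.div_atTop Real.tendsto_log_atTop).const_add u
  rw [add_zero] at t3
  refine (t1.div t3 hu.ne').congr' ?_
  filter_upwards [eventually_gt_atTop 1, t0.eventually_gt_atTop 1] with z hz h1
  have h2 := Real.log_pos hz
  have h3 := Real.log_pos h1
  have h4 : 0 < z ^ u := by positivity
  simp only [Function.comp_apply, Pi.div_apply, Nat.floor_natCast]
  rw [Real.log_div (by linarith) h4.ne', Real.log_rpow (by linarith)]
  have e : u + (Real.log ⌈z ^ u⌉₊ - u * Real.log z) / Real.log z =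
      Real.log ⌈z ^ u⌉₊ / Real.log z := by field_simp; ring
  rw [e]
  field_simp

lemma few_conf {u α β ρ : ℝ} (hβ : u - 1 < β) (hβ3 : u < 3 * β) (hβα : β ≤ α) (hα : 2 * α < u)
    (hα1 : α ≤ 1) (hβ0 : 0 < β) (hρ : Real.exp Real.eulerMascheroniConstant * β / (α * u) < ρ) :
    ∀ᶠ z : ℝ in atTop, ∃ P t y : ℕ, Conf u z P y ∧ (Sv P t y : ℝ) ≤ ρ * y * P.totient / P := by
  have hα0 : 0 < α := hβ0.trans_le hβα
  have hu : 0 < u := by linarith
  set G := Real.exp (-Real.eulerMascheroniConstant) with hG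
  have hG0 : 0 < G := Real.exp_pos _
  have t1 := (((m3_pow hβ0).mul m3).div (m3_pow hα0) (by positivity)).const_mul ρ
  have t2 : Tendsto (fun z : ℝ => 2 * (Real.log z / z ^ (u - 2 * α))) atTop (𝓝 (2 * 0)) :=
    ((isLittleO_log_rpow_atTop (by linarith)).tendsto_div_nhds_zero).const_mul 2
  have t3 := (ceil_ratio hu).add t2
  have hlt : 1 / u + 2 * 0 < ρ * (G / β * G / (G / α)) := by
    rw [div_lt_iff₀ (by positivity)] at hρ
    have e : G * Real.exp Real.eulerMascheroniConstant = 1 := by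
      rw [hG, ← Real.exp_add]; simp
    have e2 : ρ * (G / β * G / (G / α)) = G * (ρ * (α * u)) / (β * u) := by field_simp
    rw [e2, mul_zero, add_zero, lt_div_iff₀ (by positivity)]
    have e3 : 1 / u * (β * u) = G * (Real.exp Real.eulerMascheroniConstant * β) := by
      rw [← mul_assoc G, e]; field_simp
    rw [e3]
    gcongr
  obtain ⟨β', b1, b2⟩ := exists_between (max_lt hβ (show u / 3 < β by linarith))
  obtain ⟨γ', c1, c2⟩ := exists_between (show u - β' < 1 by linarith [le_max_left (u - 1) (u / 3)])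
  filter_upwards [t3.eventually_lt t1 hlt, conf_of_subset u, eventually_gt_atTop 1,
    floor_rpow_ge b2 hβ0, floor_rpow_ge c2 one_pos] with z h1 h2 hz h3 h4
  rw [Real.rpow_one] at h4
  have hz0 : 0 < z := by linarith
  have hl := Real.log_pos hz
  have m1 : z ^ β ≤ z ^ α := Real.rpow_le_rpow_of_exponent_le hz.le hβα
  have m2 : z ^ α ≤ z := Real.rpow_le_self_of_one_le hz.le hα1
  have hy0 : 1 ≤ z ^ u := Real.one_le_rpow hz.le hu.le
  have hy : (⌈z ^ u⌉₊ : ℝ) < 2 * z ^ u := by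
    have := Nat.ceil_lt_add_one (by positivity : 0 ≤ z ^ u)
    linarith
  have hsub : primesLE ⌊z ^ β⌋₊ ∪ (primesLE ⌊z⌋₊ \ primesLE ⌊z ^ α⌋₊) ⊆ primesLE ⌊z⌋₊ :=
    union_subset (primesLE_mono (Nat.floor_mono (m1.trans m2))) sdiff_subset
  refine ⟨_, 0, _, h2 _ hsub, (Sv_few ?_ ?_).trans ?_⟩
  · have a1 : z ^ u ≤ (z ^ β') ^ 3 := by
      rw [← Real.rpow_natCast, ← Real.rpow_mul hz0.le]
      exact Real.rpow_le_rpow_of_exponent_le hz.le
        (by push_cast; linarith [le_max_right (u - 1) (u / 3)])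
    have a2 : (2 * z ^ β') ^ 3 ≤ (⌊z ^ β⌋₊ : ℝ) ^ 3 := by gcongr
    have a3 : (⌈z ^ u⌉₊ : ℝ) < (⌊z ^ β⌋₊ : ℝ) ^ 3 := by nlinarith
    exact_mod_cast a3
  · have a1 : z ^ u ≤ z ^ β' * z ^ γ' := by
      rw [← Real.rpow_add hz0]
      exact Real.rpow_le_rpow_of_exponent_le hz.le (by linarith)
    have a2 : (2 * z ^ β') * (2 * z ^ γ') ≤ (⌊z ^ β⌋₊ : ℝ) * ⌊z⌋₊ := by gcongr
    have a3 : (⌈z ^ u⌉₊ : ℝ) < (⌊z ^ β⌋₊ : ℝ) * ⌊z⌋₊ := by nlinarith
    exact_mod_cast a3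
  · rw [mul_div_assoc, totient_prod fun p hp => (mem_primesLE.1 (hsub hp)).2,
      prod_union (disjoint_of_subset_left (primesLE_mono (Nat.floor_mono m1)) disjoint_sdiff),
      Th_sdiff m2, ← Th]
    have hy1 : z ^ u ≤ ⌈z ^ u⌉₊ := Nat.le_ceil _
    have hy2 : (0 : ℝ) < ⌈z ^ u⌉₊ := by linarith
    have a1 : (⌊z ^ α⌋₊ : ℝ) ^ 2 + 1 ≤ 2 * z ^ (2 * α) := by
      have b1 : (⌊z ^ α⌋₊ : ℝ) ^ 2 ≤ (z ^ α) ^ 2 := by gcongr; exact Nat.floor_le (by positivity)
      have b2 : (z ^ α) ^ 2 = z ^ (2 * α) := by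
        rw [← Real.rpow_natCast, ← Real.rpow_mul hz0.le]; congr 1; push_cast; ring
      have b3 : 1 ≤ z ^ (2 * α) := Real.one_le_rpow hz.le (by linarith)
      linarith
    have a2 : 2 * z ^ (2 * α) * Real.log z / ⌈z ^ u⌉₊ ≤ 2 * (Real.log z / z ^ (u - 2 * α)) := by
      calc _ ≤ 2 * z ^ (2 * α) * Real.log z / z ^ u := by gcongr
        _ = _ := by rw [Real.rpow_sub hz0]; field_simp
    simp only [Pi.div_apply] at h1
    have a3 := Th_pos (z ^ α)
    have e : ρ * (Th (z ^ β) * Real.log z * (Th z * Real.log z) / (Th (z ^ α) * Real.log z)) =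
        ρ * ⌈z ^ u⌉₊ * (Th (z ^ β) * (Th z / Th (z ^ α))) * Real.log z / ⌈z ^ u⌉₊ := by
      field_simp
    rw [e] at h1
    have a4 := (add_le_add_right a2 _).trans h1.le
    rw [← add_div, div_le_div_iff_of_pos_right hy2, ← add_mul] at a4
    have a5 := le_of_mul_le_mul_right a4 hl
    linarith

theorem few_primes {a u : ℝ} (ha : 0 < a) (hau : a ≤ u) (h1 : 3 / 2 ≤ u) (h2 : u < 2) {ε : ℝ}
    (hε : 0 < ε) : ∃ᶠ x : ℝ in atTop,
      RR a x ≤ 2 * Real.exp Real.eulerMascheroniConstant * (u - 1) / u ^ 2 + ε := by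
  set E := Real.exp Real.eulerMascheroniConstant with hE
  have hE0 : 0 < E := Real.exp_pos _
  have hc : ContinuousAt (fun δ : ℝ => E * (u - 1 + 2 * δ) / (u / 2 * (u + δ))) 0 := by
    refine ContinuousAt.div (by fun_prop) (by fun_prop) ?_
    have : 0 < u := by linarith
    positivity
  have hv : E * (u - 1 + 2 * 0) / (u / 2 * (u + 0)) < 2 * E * (u - 1) / u ^ 2 + ε / 2 := by
    have : E * (u - 1 + 2 * 0) / (u / 2 * (u + 0)) = 2 * E * (u - 1) / u ^ 2 := by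
      field_simp; ring
    linarith
  have e1 : ∀ᶠ δ in 𝓝[>] (0 : ℝ), E * (u - 1 + 2 * δ) / (u / 2 * (u + δ)) <
      2 * E * (u - 1) / u ^ 2 + ε / 2 := nhdsWithin_le_nhds (hc.eventually (gt_mem_nhds hv))
  have e2 : ∀ᶠ δ in 𝓝[>] (0 : ℝ), δ ≤ (2 - u) / 4 :=
    nhdsWithin_le_nhds (eventually_le_nhds (by linarith))
  obtain ⟨δ, d1, d2, d3⟩ := (e1.and (e2.and self_mem_nhdsWithin)).exists
  have d4 : 0 < δ := d3
  have h := transfer_lower (u := u + δ) (ρ := 2 * E * (u - 1) / u ^ 2 + ε / 2) ha (by linarith)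
    (by have : 0 < u - 1 := by linarith
        positivity)
    (few_conf (α := u / 2) (β := u - 1 + 2 * δ) (by linarith) (by linarith) (by linarith)
      (by linarith) (by linarith) (by linarith) d1).frequently (half_pos hε)
  simpa only [add_assoc, add_halves] using h

lemma liminf_le_of {f : ℝ → ℝ} {ρ : ℝ} (h : ∀ ε, 0 < ε → ∃ᶠ x in atTop, f x ≤ ρ + ε) :
    liminf (fun x => (f x : EReal)) atTop ≤ (ρ : EReal) := by
  refine le_of_forall_gt_imp_ge_of_dense fun c hc => ?_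
  obtain ⟨r, h1, h2⟩ := EReal.lt_iff_exists_real_btwn.1 hc
  refine (liminf_le_of_frequently_le' ((h (r - ρ) (sub_pos.2 (EReal.coe_lt_coe_iff.1 h1))).mono
    fun x hx => ?_)).trans h2.le
  exact EReal.coe_le_coe_iff.2 (by linarith)

lemma le_limsup_of {f : ℝ → ℝ} {ρ : ℝ} (h : ∀ ε, 0 < ε → ∃ᶠ x in atTop, ρ - ε ≤ f x) :
    (ρ : EReal) ≤ limsup (fun x => (f x : EReal)) atTop := by
  refine le_of_forall_lt_imp_le_of_dense fun c hc => ?_
  obtain ⟨r, h1, h2⟩ := EReal.lt_iff_exists_real_btwn.1 hc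
  refine h1.le.trans (le_limsup_of_frequently_le' ((h (ρ - r)
    (sub_pos.2 (EReal.coe_lt_coe_iff.1 h2))).mono fun x hx => ?_))
  exact EReal.coe_le_coe_iff.2 (by linarith)

end Pool.Agent.Lib.MP_b09185_nt.Mai
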