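import Mathlib

/-! Gaussian Mellin transform and contour shifts. -/

namespace Pool.Agent.Lib.MP_b09185_nt.Mai

open Complex Set Filter Topology MeasureTheory

noncomputable def EE (v : ℝ) (s : ℂ) : ℂ := exp (s ^ 2 / 2 + v * s)

noncomputable def gw (v : ℝ) (n : ℕ) : ℝ := Real.exp (-(Real.log n - v) ^ 2 / 2)

lemma gw_pos (v : ℝ) (n : ℕ) : 0 < gw v n := Real.exp_pos _

lemma norm_EE (v σ t : ℝ) :
    ‖EE v (σ + t * I)‖ = Real.exp (σ ^ 2 / 2 + v * σ) * Real.exp (-(1 / 2) * t ^ 2) := by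
  rw [EE, norm_exp, ← Real.exp_add]
  congr 1
  simp [pow_two]
  ring

lemma differentiable_EE (v : ℝ) : Differentiable ℂ (EE v) := by
  unfold EE
  fun_prop

lemma continuous_EE_line (v σ : ℝ) : Continuous fun t : ℝ => EE v (σ + t * I) :=
  (differentiable_EE v).continuous.comp (by fun_prop)

lemma integral_EE (x σ : ℝ) :
    ∫ t : ℝ, EE x (σ + t * I) = ((√(2 * Real.pi) * Real.exp (-x ^ 2 / 2) : ℝ) : ℂ) := by
  have h := integral_cexp_quadratic (b := -(1 / 2 : ℂ)) (by simp) (I * (σ + x)) (σ ^ 2 / 2 + x * σ)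
  have e : ∀ t : ℝ, EE x (σ + t * I) =
      exp (-(1 / 2 : ℂ) * t ^ 2 + I * (σ + x) * t + (σ ^ 2 / 2 + x * σ)) := by
    intro t
    rw [EE]
    congr 1
    linear_combination (t ^ 2 / 2 : ℂ) * I_sq
  simp_rw [e, h]
  push_cast
  congr 1
  · rw [Real.sqrt_eq_rpow, ofReal_cpow (by positivity)]
    push_cast
    congr 1
    ring
  · congr 1
    linear_combination ((σ + x) ^ 2 / 2 : ℂ) * I_sq

lemma sqrt_two_pi_le : √(2 * Real.pi) ≤ 3 := by
  rw [Real.sqrt_le_iff]
  constructor <;> linarith [Real.pi_le_four]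

lemma one_le_sqrt_two_pi : 1 ≤ √(2 * Real.pi) := by
  rw [Real.one_le_sqrt]
  linarith [Real.two_le_pi]

lemma integrable_gauss : Integrable fun t : ℝ => Real.exp (-(1 / 2) * t ^ 2) :=
  integrable_exp_neg_mul_sq (by norm_num)

lemma integral_gauss : ∫ t : ℝ, Real.exp (-(1 / 2) * t ^ 2) = √(2 * Real.pi) := by
  rw [integral_gaussian]
  congr 1
  ring

lemma integrable_line {F : ℝ → ℂ} (hF : Continuous F) {K : ℝ} (hK : ∀ t, ‖F t‖ ≤ K) (v σ : ℝ) :
    Integrable fun t : ℝ => F t * EE v (σ + t * I) := by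
  refine Integrable.mono' (integrable_gauss.const_mul (K * Real.exp (σ ^ 2 / 2 + v * σ)))
    (hF.mul (continuous_EE_line v σ)).aestronglyMeasurable (Eventually.of_forall fun t => ?_)
  rw [norm_mul, norm_EE, mul_assoc]
  exact mul_le_mul_of_nonneg_right (hK t) (by positivity)

lemma term_EE (a : ℕ → ℂ) (v : ℝ) (s : ℂ) {n : ℕ} (hn : n ≠ 0) :
    LSeries.term a s n * EE v s = a n * EE (v - Real.log n) s := by
  rw [LSeries.term_of_ne_zero hn, cpow_def_of_ne_zero (by exact_mod_cast hn), ← natCast_log, EE, EE,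
    div_eq_mul_inv, ← exp_neg, mul_assoc, ← exp_add]
  congr 2
  push_cast
  ring

lemma gauss_LSeries {a : ℕ → ℂ} (h0 : a 0 = 0) {σ : ℝ} (ha : LSeriesSummable a σ) (v : ℝ) :
    HasSum (fun n => a n * ((√(2 * Real.pi) * gw v n : ℝ) : ℂ))
      (∫ t : ℝ, LSeries a (σ + t * I) * EE v (σ + t * I)) := by
  have hn : ∀ (t : ℝ) n, ‖LSeries.term a (σ + t * I) n‖ = ‖LSeries.term a σ n‖ := by
    intro t n
    simp [LSeries.norm_term_eq]
  have hc : ∀ n, Continuous fun t : ℝ => LSeries.term a (σ + t * I) n := by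
    intro n
    rcases eq_or_ne n 0 with rfl | h
    · simp [continuous_const]
    · simp only [LSeries.term_of_ne_zero h]
      have : (n : ℂ) ≠ 0 := by exact_mod_cast h
      refine continuous_const.div (Continuous.const_cpow (by fun_prop) (Or.inl this)) fun t => ?_
      simp [this]
  have h := hasSum_integral_of_summable_integral_norm (μ := volume)
    (F := fun n (t : ℝ) => LSeries.term a (σ + t * I) n * EE v (σ + t * I))
    (fun n => integrable_line (hc n) (fun t => (hn t n).le) v σ)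
    (by
      simp_rw [norm_mul, hn, integral_const_mul]
      exact (summable_norm_iff.2 ha).mul_right _)
  simp_rw [tsum_mul_right] at h
  have e : (fun n => a n * ((√(2 * Real.pi) * gw v n : ℝ) : ℂ)) =
      fun n => ∫ t : ℝ, LSeries.term a (σ + t * I) n * EE v (σ + t * I) := by
    funext n
    rcases eq_or_ne n 0 with rfl | h
    · simp [h0]
    · simp_rw [term_EE a v _ h, integral_const_mul, integral_EE, gw]
      congr 4
      ring
  rw [e]
  exact h

lemma term_term (a : ℕ → ℂ) (s w : ℂ) (n : ℕ) :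
    LSeries.term (LSeries.term a s) w n = LSeries.term a (s + w) n := by
  rcases eq_or_ne n 0 with rfl | h
  · simp
  · simp only [LSeries.term_of_ne_zero h]
    rw [cpow_add _ _ (by exact_mod_cast h), div_div]

lemma exp_two_le : Real.exp 2 ≤ 8 := by
  have := Real.exp_one_lt_d9
  have h : Real.exp 2 = Real.exp 1 ^ 2 := by rw [← Real.exp_nat_mul]; norm_num
  rw [h]
  calc Real.exp 1 ^ 2 ≤ (2.7182818286 : ℝ) ^ 2 := by gcongr
    _ ≤ 8 := by norm_num

lemma exp_sq_le {σ : ℝ} (h1 : -2 ≤ σ) (h2 : σ ≤ 2) (x : ℝ) :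
    Real.exp (σ ^ 2 / 2 + x) ≤ 8 * Real.exp x := by
  rw [Real.exp_add]
  gcongr
  refine le_trans ?_ exp_two_le
  gcongr
  nlinarith

lemma norm_line_le {F : ℝ → ℂ} {G : ℝ → ℝ} (hG : Continuous G) {K : ℝ} (hK : ∀ t, ‖F t‖ ≤ G t)
    (hGK : ∀ t, G t ≤ K) {σ : ℝ} (h1 : -2 ≤ σ) (h2 : σ ≤ 2) (v : ℝ) :
    ‖∫ t : ℝ, F t * EE v (σ + t * I)‖ ≤
      8 * Real.exp (v * σ) * ∫ t, G t * Real.exp (-(1 / 2) * t ^ 2) := by
  rw [← integral_const_mul]
  have hi : Integrable fun t => G t * Real.exp (-(1 / 2) * t ^ 2) := by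
    refine Integrable.mono' (integrable_gauss.const_mul K)
      (hG.mul (by fun_prop)).aestronglyMeasurable (Eventually.of_forall fun t => ?_)
    rw [norm_mul, Real.norm_of_nonneg ((norm_nonneg _).trans (hK t)),
      Real.norm_of_nonneg (Real.exp_pos _).le]
    exact mul_le_mul_of_nonneg_right (hGK t) (by positivity)
  refine norm_integral_le_of_norm_le (hi.const_mul _) (Eventually.of_forall fun t => ?_)
  rw [norm_mul, norm_EE]
  have := exp_sq_le h1 h2 (v * σ)
  calc ‖F t‖ * (Real.exp (σ ^ 2 / 2 + v * σ) * Real.exp (-(1 / 2) * t ^ 2))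
      ≤ G t * (8 * Real.exp (v * σ) * Real.exp (-(1 / 2) * t ^ 2)) := by
        gcongr
        · exact (norm_nonneg _).trans (hK t)
        · exact hK t
    _ = _ := by ring

lemma shift_bound {F : ℂ → ℂ} {σ₁ σ₂ T v K K' : ℝ} (h1 : -2 ≤ σ₁) (h12 : σ₁ ≤ σ₂) (h2 : σ₂ ≤ 2)
    (hT : 0 ≤ T) (hv : 0 ≤ v) (hF : DifferentiableOn ℂ F (Icc σ₁ σ₂ ×ℂ Icc (-T) T))
    (hK : ∀ x ∈ Icc σ₁ σ₂, ∀ y ∈ Icc (-T) T, ‖F (x + y * I)‖ ≤ K)
    (hc : Continuous fun t : ℝ => F (σ₂ + t * I)) (hK' : ∀ t : ℝ, ‖F (σ₂ + t * I)‖ ≤ K') :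
    ‖∫ t : ℝ, F (σ₂ + t * I) * EE v (σ₂ + t * I)‖ ≤
      64 * (K * Real.exp (v * σ₁) + (K + K') * Real.exp (v * σ₂) * Real.exp (-T ^ 2 / 4)) := by
  have hK0 : 0 ≤ K := (norm_nonneg _).trans (hK σ₁ ⟨le_rfl, h12⟩ 0 ⟨by linarith, hT⟩)
  have hK0' : 0 ≤ K' := (norm_nonneg _).trans (hK' 0)
  have hint := integrable_line hc hK' v σ₂
  have hTT : -T ≤ T := by linarith
  have hrect := integral_boundary_rect_eq_zero_of_differentiableOn (fun s => F s * EE v s)
    (σ₁ + (-T : ℝ) * I) (σ₂ + T * I) (by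
      simp only [add_re, ofReal_re, mul_re, I_re, mul_zero, ofReal_im, I_im, mul_one, sub_self,
        add_zero, add_im, mul_im, zero_add, uIcc_of_le h12, uIcc_of_le hTT]
      exact hF.mul (differentiable_EE v).differentiableOn)
  simp only [add_re, ofReal_re, mul_re, I_re, mul_zero, ofReal_im, I_im, mul_one, sub_self,
    add_zero, add_im, mul_im, zero_add, smul_eq_mul] at hrect
  have hor : ∀ y ∈ Icc (-T) T, y ^ 2 = T ^ 2 →
      ‖∫ x in σ₁..σ₂, F (x + y * I) * EE v (x + y * I)‖ ≤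
        32 * (K * Real.exp (v * σ₂) * Real.exp (-T ^ 2 / 4)) := by
    intro y hy hy2
    refine (intervalIntegral.norm_integral_le_of_norm_le_const
      (C := 8 * (K * Real.exp (v * σ₂) * Real.exp (-T ^ 2 / 4))) fun x hx => ?_).trans ?_
    · rw [uIoc_of_le h12] at hx
      rw [norm_mul, norm_EE, hy2]
      have a1 := exp_sq_le (h1.trans hx.1.le) (hx.2.trans h2) (v * x)
      have a2 : Real.exp (v * x) ≤ Real.exp (v * σ₂) := by gcongr; exact hx.2
      have a3 : Real.exp (-(1 / 2) * T ^ 2) ≤ Real.exp (-T ^ 2 / 4) := by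
        gcongr; nlinarith [sq_nonneg T]
      calc _ ≤ K * (8 * Real.exp (v * σ₂) * Real.exp (-T ^ 2 / 4)) := by
            gcongr
            · exact hK x ⟨hx.1.le, hx.2⟩ y hy
            · linarith
        _ = _ := by ring
    · rw [abs_of_nonneg (by linarith)]
      have : 0 ≤ K * Real.exp (v * σ₂) * Real.exp (-T ^ 2 / 4) := by positivity
      nlinarith
  have left : ‖∫ y in (-T)..T, F (σ₁ + y * I) * EE v (σ₁ + y * I)‖ ≤
      24 * (K * Real.exp (v * σ₁)) := by
    rw [intervalIntegral.integral_of_le hTT]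
    have hg := integrable_gauss.const_mul (8 * (K * Real.exp (v * σ₁)))
    refine (norm_integral_le_of_norm_le hg.integrableOn ?_).trans ?_
    · filter_upwards [ae_restrict_mem measurableSet_Ioc] with y hy
      rw [norm_mul, norm_EE]
      have a1 := exp_sq_le h1 (h12.trans h2) (v * σ₁)
      calc _ ≤ K * (8 * Real.exp (v * σ₁) * Real.exp (-(1 / 2) * y ^ 2)) := by
            gcongr
            exact hK σ₁ ⟨le_rfl, h12⟩ y ⟨hy.1.le, hy.2⟩
        _ = _ := by ring
    · refine (setIntegral_le_integral hg (Eventually.of_forall fun y => by positivity)).trans ?_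
      rw [integral_const_mul, integral_gauss]
      have : 0 ≤ K * Real.exp (v * σ₁) := by positivity
      nlinarith [sqrt_two_pi_le]
  have tail : ‖∫ y in (Ioc (-T) T)ᶜ, F (σ₂ + y * I) * EE v (σ₂ + y * I)‖ ≤
      32 * (K' * Real.exp (v * σ₂) * Real.exp (-T ^ 2 / 4)) := by
    have hg := (integrable_exp_neg_mul_sq (by norm_num : (0 : ℝ) < 1 / 4)).const_mul
      (8 * (K' * Real.exp (v * σ₂) * Real.exp (-T ^ 2 / 4)))
    refine (norm_integral_le_of_norm_le hg.integrableOn ?_).trans ?_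
    · filter_upwards [ae_restrict_mem measurableSet_Ioc.compl] with y hy
      rw [norm_mul, norm_EE]
      have a1 := exp_sq_le (h1.trans h12) h2 (v * σ₂)
      have a2 : T ^ 2 ≤ y ^ 2 := by
        simp only [mem_compl_iff, mem_Ioc, not_and_or, not_lt, not_le] at hy
        rcases hy with h | h <;> nlinarith
      have a3 : Real.exp (-(1 / 2) * y ^ 2) ≤
          Real.exp (-T ^ 2 / 4) * Real.exp (-(1 / 4) * y ^ 2) := by
        rw [← Real.exp_add]
        gcongr
        linarith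
      calc _ ≤ K' * (8 * Real.exp (v * σ₂) *
            (Real.exp (-T ^ 2 / 4) * Real.exp (-(1 / 4) * y ^ 2))) := by
            gcongr
            exact hK' y
        _ = _ := by ring
    · refine (setIntegral_le_integral hg (Eventually.of_forall fun y => by positivity)).trans ?_
      rw [integral_const_mul, integral_gaussian]
      have : 0 ≤ K' * Real.exp (v * σ₂) * Real.exp (-T ^ 2 / 4) := by positivity
      have h4 : √(Real.pi / (1 / 4)) ≤ 4 := by
        rw [Real.sqrt_le_iff]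
        constructor <;> linarith [Real.pi_le_four]
      nlinarith
  rw [← integral_add_compl (measurableSet_Ioc (a := -T) (b := T)) hint,
    ← intervalIntegral.integral_of_le hTT]
  have hb := hor (-T) ⟨le_rfl, hTT⟩ (by ring)
  have ht := hor T ⟨hTT, le_rfl⟩ rfl
  have mid : ‖∫ y in (-T)..T, F (σ₂ + y * I) * EE v (σ₂ + y * I)‖ ≤
      24 * (K * Real.exp (v * σ₁)) + 64 * (K * Real.exp (v * σ₂) * Real.exp (-T ^ 2 / 4)) := by
    have e : I * ∫ y in (-T)..T, F (σ₂ + y * I) * EE v (σ₂ + y * I) =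
        I * (∫ y in (-T)..T, F (σ₁ + y * I) * EE v (σ₁ + y * I)) +
          (∫ x in σ₁..σ₂, F (x + T * I) * EE v (x + T * I)) -
          ∫ x in σ₁..σ₂, F (x + (-T : ℝ) * I) * EE v (x + (-T : ℝ) * I) := by
      linear_combination hrect
    have e2 := congrArg norm e
    rw [norm_mul, norm_I, one_mul] at e2
    rw [e2]
    refine (norm_sub_le _ _).trans ?_
    refine (add_le_add (norm_add_le _ _) hb).trans ?_
    rw [norm_mul, norm_I, one_mul]
    linarith
  refine (norm_add_le _ _).trans ?_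
  have a1 : 0 ≤ K * Real.exp (v * σ₁) := by positivity
  have a2 : 0 ≤ K' * Real.exp (v * σ₂) * Real.exp (-T ^ 2 / 4) := by positivity
  nlinarith

end Pool.Agent.Lib.MP_b09185_nt.Mai
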