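import Pool.Agent.Lib.MP_b09185_nt.MaiDefs

/-! Elementary symmetric sums with a cutoff, against iterated integrals. -/

namespace Pool.Agent.Lib.MP_b09185_nt.Mai

open Filter Topology Finset MeasureTheory

lemma int_anti {g : ℝ → ℝ} (hg : Antitone g) {a b : ℝ} (ha : 0 < a) (hab : a ≤ b) :
    IntervalIntegrable (fun t => g t / t) volume a b := by
  simp_rw [div_eq_mul_inv]
  refine hg.intervalIntegrable.mul_continuousOn (continuousOn_inv₀.mono fun t ht => ?_)
  rw [Set.uIcc_of_le hab] at ht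
  exact (ha.trans_le ht.1).ne'

lemma int_const (c : ℝ) {a b : ℝ} (ha : 0 < a) (hab : a ≤ b) :
    ∫ t in a..b, c / t = c * Real.log (b / a) := by
  rw [← integral_one_div_of_pos ha (ha.trans_le hab), ← intervalIntegral.integral_const_mul]
  simp only [mul_one_div]

lemma int_mono {g g' : ℝ → ℝ} (hg : Antitone g) (hg' : Antitone g') {a b : ℝ} (ha : 0 < a)
    (hab : a ≤ b) (h : ∀ t ∈ Set.Icc a b, g t ≤ g' t) :
    ∫ t in a..b, g t / t ≤ ∫ t in a..b, g' t / t :=
  intervalIntegral.integral_mono_on hab (int_anti hg ha hab) (int_anti hg' ha hab) fun t ht =>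
    div_le_div_of_nonneg_right (h t ht) (ha.le.trans ht.1)

lemma int_bounds {g : ℝ → ℝ} (hg : Antitone g) {a b : ℝ} (ha : 0 < a) (hab : a ≤ b) :
    g b * Real.log (b / a) ≤ ∫ t in a..b, g t / t ∧ ∫ t in a..b, g t / t ≤ g a * Real.log (b / a) := by
  rw [← int_const _ ha hab, ← int_const _ ha hab]
  exact ⟨int_mono antitone_const hg ha hab fun t ht => hg ht.2,
    int_mono hg antitone_const ha hab fun t ht => hg ht.1⟩

variable {α : ℝ}

lemma II_mono (h0 : 0 < α) (h1 : α ≤ 1) (k : ℕ) : Monotone (II α k) := by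
  induction k with
  | zero =>
    intro v w h
    simp only [II]
    split_ifs <;> first | rfl | linarith
  | succ k ih =>
    intro v w h
    exact int_mono (fun s t hst => ih (by linarith)) (fun s t hst => ih (by linarith)) h0 h1
      fun t _ => ih (by linarith)

lemma II_anti (h0 : 0 < α) (h1 : α ≤ 1) (k : ℕ) (v : ℝ) : Antitone fun t => II α k (v - t) :=
  fun _ _ h => II_mono h0 h1 k (by linarith)

lemma II_bound (h0 : 0 < α) (h1 : α ≤ 1) (k : ℕ) (v : ℝ) :
    0 ≤ II α k v ∧ II α k v ≤ Real.log (1 / α) ^ k := by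
  induction k generalizing v with
  | zero => simp only [II]; split_ifs <;> norm_num
  | succ k ih =>
    constructor
    · have := int_mono antitone_const (II_anti h0 h1 k v) h0 h1 fun t _ => (ih (v - t)).1
      rwa [int_const _ h0 h1, zero_mul] at this
    · have := int_mono (II_anti h0 h1 k v) antitone_const h0 h1 fun t _ => (ih (v - t)).2
      rwa [int_const _ h0 h1, ← pow_succ] at this

lemma II_zero (h1 : α ≤ 1) (k : ℕ) {v : ℝ} (hv : v < k * α) : II α k v = 0 := by
  induction k generalizing v with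
  | zero => simp only [II]; rw [if_neg]; simpa using hv
  | succ k ih =>
    simp only [II]
    rw [intervalIntegral.integral_congr (g := fun _ => 0), intervalIntegral.integral_zero]
    intro t ht
    rw [Set.uIcc_of_le h1] at ht
    push_cast at hv
    simp only
    rw [ih (by linarith [ht.1]), zero_div]

lemma II_cont (h0 : 0 < α) (h1 : α ≤ 1) (k : ℕ) {u : ℝ} (hu : 0 < u) : ContinuousAt (II α k) u := by
  cases k with
  | zero =>
    refine (continuousAt_const (y := (1 : ℝ))).congr ?_
    filter_upwards [lt_mem_nhds hu] with v hv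
    simp only [II, if_pos hv.le]
  | succ k =>
    refine intervalIntegral.continuousAt_of_dominated_interval (μ := volume)
      (F := fun v t => II α k (v - t) / t) (bound := fun t => Real.log (1 / α) ^ k / t)
      (Eventually.of_forall fun v => (int_anti (II_anti h0 h1 k v) h0 h1).def'.aestronglyMeasurable)
      (Eventually.of_forall fun v => Eventually.of_forall fun t ht => ?_)
      (int_anti antitone_const h0 h1) ?_
    · rw [Set.uIoc_of_le h1] at ht
      have ht0 : 0 < t := h0.trans ht.1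
      rw [Real.norm_of_nonneg (div_nonneg (II_bound h0 h1 k _).1 ht0.le)]
      exact div_le_div_of_nonneg_right (II_bound h0 h1 k _).2 ht0.le
    · have hc := ((II_mono h0 h1 k).countable_not_continuousAt.image fun s => u - s).ae_notMem volume
      filter_upwards [hc] with t ht _
      refine ContinuousAt.div_const (ContinuousAt.comp (g := II α k) ?_ (by fun_prop)) t
      by_contra h
      exact ht ⟨u - t, h, by ring⟩

lemma EW_eq (h1 : α ≤ 1) {u : ℝ} {K : ℕ} (hK : u < K * α) (h0 : 0 < α) :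
    EW α u = (∑ k ∈ range K, (-1) ^ k * II α k u / (k.factorial : ℝ)) / α := by
  rw [EW, tsum_eq_sum]
  intro k hk
  have : (K : ℝ) ≤ k := by exact_mod_cast not_lt.1 (mt mem_range.2 hk)
  rw [II_zero h1 k (by nlinarith)]
  simp

lemma EW_cont (h0 : 0 < α) (h1 : α ≤ 1) {u : ℝ} (hu : 0 < u) : ContinuousAt (EW α) u := by
  obtain ⟨K, hK⟩ := exists_nat_gt ((u + 1) / α)
  rw [div_lt_iff₀ h0] at hK
  have : ContinuousAt
      (fun v => (∑ k ∈ range K, (-1) ^ k * II α k v / (k.factorial : ℝ)) / α) u :=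
    ContinuousAt.div_const (tendsto_finsetSum _ fun k _ =>
      ((II_cont h0 h1 k hu).const_mul _).div_const _) _
  refine this.congr ?_
  filter_upwards [gt_mem_nhds (lt_add_one u)] with v hv
  exact (EW_eq h1 (by linarith) h0).symm

/-- elementary symmetric sum with cutoff -/
noncomputable def ee (W : Finset ℕ) (x w : ℕ → ℝ) (k : ℕ) (v : ℝ) : ℝ :=
  ∑ D ∈ powersetCard k W, if ∑ p ∈ D, x p ≤ v then ∏ p ∈ D, w p else 0

lemma double_count (W : Finset ℕ) (k : ℕ) (F : Finset ℕ → ℝ) :
    (k + 1) * ∑ D ∈ powersetCard (k + 1) W, F D =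
      ∑ p ∈ W, ∑ D ∈ powersetCard k (W.erase p), F (insert p D) := by
  have h1 : (k + 1) * ∑ D ∈ powersetCard (k + 1) W, F D =
      ∑ D ∈ powersetCard (k + 1) W, ∑ _p ∈ D, F D := by
    rw [mul_sum]
    refine sum_congr rfl fun D hD => ?_
    rw [sum_const, (mem_powersetCard.1 hD).2, nsmul_eq_mul]
    push_cast
    rfl
  rw [h1, sum_comm' (t' := W) (s' := fun p => (powersetCard (k + 1) W).filter fun D => p ∈ D)]
  · refine sum_congr rfl fun p hp => ?_
    symm
    refine sum_bij' (fun D _ => insert p D) (fun D _ => D.erase p) ?_ ?_ ?_ ?_ ?_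
    · intro D hD
      rw [mem_powersetCard] at hD
      have hn : p ∉ D := fun h => by simpa using hD.1 h
      rw [mem_filter, mem_powersetCard, card_insert_of_notMem hn, hD.2]
      exact ⟨⟨insert_subset hp (hD.1.trans (erase_subset _ _)), rfl⟩, mem_insert_self _ _⟩
    · intro D hD
      rw [mem_filter, mem_powersetCard] at hD
      rw [mem_powersetCard, card_erase_of_mem hD.2, hD.1.2]
      exact ⟨erase_subset_erase _ hD.1.1, rfl⟩
    · intro D hD
      exact erase_insert fun h => by simpa using (mem_powersetCard.1 hD).1 h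
    · intro D hD
      exact insert_erase (mem_filter.1 hD).2
    · intro D _
      rfl
  · intro D p
    simp only [mem_filter, mem_powersetCard]
    exact ⟨fun h => ⟨h, h.1.1 h.2⟩, fun h => h.1⟩

variable {W : Finset ℕ} {x w : ℕ → ℝ}

lemma ee_insert {p : ℕ} (k : ℕ) (v : ℝ) :
    (∑ D ∈ powersetCard k (W.erase p),
      if ∑ q ∈ insert p D, x q ≤ v then ∏ q ∈ insert p D, w q else 0) =
      w p * ee (W.erase p) x w k (v - x p) := by
  rw [ee, mul_sum]
  refine sum_congr rfl fun D hD => ?_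
  have hn : p ∉ D := fun h => by simpa using (mem_powersetCard.1 hD).1 h
  rw [sum_insert hn, prod_insert hn, mul_ite, mul_zero]
  exact if_congr (by constructor <;> intro <;> linarith) rfl rfl

lemma ee_succ (k : ℕ) (v : ℝ) :
    (k + 1) * ee W x w (k + 1) v = ∑ p ∈ W, w p * ee (W.erase p) x w k (v - x p) := by
  rw [ee, double_count]
  exact sum_congr rfl fun p _ => ee_insert k v

lemma ee_zero (v : ℝ) : ee W x w 0 v = if 0 ≤ v then 1 else 0 := by simp [ee]

lemma ee_nonneg (hw : ∀ p, 0 ≤ w p) (W : Finset ℕ) (k : ℕ) (v : ℝ) : 0 ≤ ee W x w k v :=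
  sum_nonneg fun _ _ => by
    split_ifs
    exacts [prod_nonneg fun p _ => hw p, le_rfl]

lemma ee_le (hw : ∀ p, 0 ≤ w p) {M : ℝ} (k : ℕ) :
    ∀ W : Finset ℕ, ∑ p ∈ W, w p ≤ M → ∀ v, ee W x w k v ≤ M ^ k := by
  induction k with
  | zero => intro W _ v; rw [ee_zero]; split_ifs <;> norm_num
  | succ k ih =>
    intro W hW v
    have hM : 0 ≤ M := (sum_nonneg fun p _ => hw p).trans hW
    have h1 := ee_succ (W := W) (x := x) (w := w) k v
    have h2 : ∑ p ∈ W, w p * ee (W.erase p) x w k (v - x p) ≤ ∑ p ∈ W, w p * M ^ k :=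
      sum_le_sum fun p _ => mul_le_mul_of_nonneg_left (ih _
        ((sum_le_sum_of_subset_of_nonneg (erase_subset _ _) fun q _ _ => hw q).trans hW) _) (hw p)
    rw [← sum_mul] at h2
    have h3 := ee_nonneg (x := x) hw W (k + 1) v
    have h4 : (∑ p ∈ W, w p) * M ^ k ≤ M * M ^ k := by gcongr
    rw [pow_succ']
    nlinarith [k.cast_nonneg (α := ℝ)]

lemma ee_erase (hw : ∀ p, 0 ≤ w p) {M : ℝ} (hM : 1 ≤ M) (hW : ∑ p ∈ W, w p ≤ M) {p : ℕ}
    (hp : p ∈ W) (k : ℕ) (v : ℝ) : |ee (W.erase p) x w k v - ee W x w k v| ≤ w p * M ^ k := by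
  cases k with
  | zero => simp [ee_zero, hw p]
  | succ k =>
    have hn : p ∉ W.erase p := notMem_erase p W
    have h1 : ee W x w (k + 1) v =
        ee (W.erase p) x w (k + 1) v + w p * ee (W.erase p) x w k (v - x p) := by
      conv_lhs => rw [← insert_erase hp, ee, powersetCard_succ_insert hn]
      rw [sum_union, sum_image, ee_insert]
      · rfl
      · intro D hD D' hD' h
        have a1 : p ∉ D := fun h => hn ((mem_powersetCard.1 hD).1 h)
        have a2 : p ∉ D' := fun h => hn ((mem_powersetCard.1 hD').1 h)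
        rw [← erase_insert a1, ← erase_insert a2]
        exact congrArg (fun s => erase s p) h
      · rw [disjoint_left]
        intro D hD hD'
        obtain ⟨D', -, rfl⟩ := mem_image.1 hD'
        exact hn ((mem_powersetCard.1 hD).1 (mem_insert_self _ _))
    have h2 := ee_le (x := x) hw k (W.erase p)
      ((sum_le_sum_of_subset_of_nonneg (erase_subset _ _) fun q _ _ => hw q).trans hW) (v - x p)
    have h3 := ee_nonneg (x := x) hw (W.erase p) k (v - x p)
    rw [h1, sub_add_cancel_left, abs_neg, abs_of_nonneg (mul_nonneg (hw p) h3)]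
    exact mul_le_mul_of_nonneg_left (h2.trans (pow_le_pow_right₀ hM k.le_succ)) (hw p)

lemma ee_approx (h0 : 0 < α) (h1 : α ≤ 1) {M : ℝ} (hM : 1 ≤ M) (hL : Real.log (1 / α) ≤ M)
    (k : ℕ) : ∃ C, 0 ≤ C ∧ ∀ (W : Finset ℕ) (x w : ℕ → ℝ) (δ : ℝ), 0 ≤ δ → (∀ p, 0 ≤ w p) →
      (∀ p ∈ W, w p ≤ δ) → ∑ p ∈ W, w p ≤ M →
      (∀ (g : ℝ → ℝ) (G : ℝ), Antitone g → (∀ t, 0 ≤ g t ∧ g t ≤ G) →
        |∑ p ∈ W, w p * g (x p) - ∫ t in α..1, g t / t| ≤ δ * G) →
      ∀ v, |k.factorial * ee W x w k v - II α k v| ≤ C * δ := by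
  induction k with
  | zero => exact ⟨0, le_rfl, fun W x w δ _ _ _ _ _ v => by simp [ee_zero, II]⟩
  | succ k ih =>
    obtain ⟨C, hC, ih⟩ := ih
    have hL0 : 0 ≤ Real.log (1 / α) := Real.log_nonneg (by rw [le_div_iff₀ h0]; linarith)
    refine ⟨M * (k.factorial * M ^ k + C) + M ^ k, by positivity,
      fun W x w δ hδ hw hwδ hW hg v => ?_⟩
    have a1 := hg (fun t => II α k (v - t)) (M ^ k) (II_anti h0 h1 k v) fun t =>
      ⟨(II_bound h0 h1 k _).1, (II_bound h0 h1 k _).2.trans (by gcongr)⟩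
    have a2 : |∑ p ∈ W, w p * (k.factorial * ee (W.erase p) x w k (v - x p)) -
        ∑ p ∈ W, w p * II α k (v - x p)| ≤ ∑ p ∈ W, w p * ((k.factorial * M ^ k + C) * δ) := by
      rw [← sum_sub_distrib]
      refine (abs_sum_le_sum_abs _ _).trans (sum_le_sum fun p hp => ?_)
      rw [← mul_sub, abs_mul, abs_of_nonneg (hw p)]
      refine mul_le_mul_of_nonneg_left ?_ (hw p)
      have b1 := ee_erase (x := x) hw hM hW hp k (v - x p)
      have b2 := ih W x w δ hδ hw hwδ hW hg (v - x p)
      have b3 : w p * M ^ k ≤ δ * M ^ k := by gcongr; exact hwδ p hp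
      have b4 : |(k.factorial : ℝ) * ee (W.erase p) x w k (v - x p) -
          k.factorial * ee W x w k (v - x p)| ≤ k.factorial * (δ * M ^ k) := by
        rw [← mul_sub, abs_mul, Nat.abs_cast]
        gcongr
        exact b1.trans b3
      refine (abs_sub_le _ _ _).trans ((add_le_add b4 b2).trans (le_of_eq (by ring)))
    rw [← sum_mul] at a2
    have a3 : (∑ p ∈ W, w p) * ((k.factorial * M ^ k + C) * δ) ≤
        M * ((k.factorial * M ^ k + C) * δ) := by gcongr
    have e : ((k + 1).factorial : ℝ) * ee W x w (k + 1) v =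
        ∑ p ∈ W, w p * (k.factorial * ee (W.erase p) x w k (v - x p)) := by
      rw [Nat.factorial_succ]
      push_cast
      rw [mul_comm ((k : ℝ) + 1), mul_assoc, ee_succ, mul_sum]
      exact sum_congr rfl fun p _ => by ring
    rw [e]
    refine (abs_sub_le _ _ _).trans ((add_le_add (a2.trans a3) a1).trans (le_of_eq (by ring)))

end Pool.Agent.Lib.MP_b09185_nt.Mai
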