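import Pool.Agent.Lib.MP_b09185_nt.MaiIter

/-! Certified evaluation of the iterated integrals by packed convolution. -/

namespace Pool.Agent.Lib.MP_b09185_nt.Mai

open Finset

def horner (W : ℕ → ℕ) (B : ℕ) : ℕ → ℕ → ℕ
  | 0, _ => 0
  | c + 1, i => W i + B * horner W B c (i + 1)

lemma horner_eq (W : ℕ → ℕ) (B s : ℕ) (c : ℕ) : ∀ i,
    B ^ (i + s) * horner W B c i = ∑ j ∈ Ico i (i + c), W j * B ^ (j + s) := by
  induction c with
  | zero => simp [horner]
  | succ c ih =>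
    intro i
    rw [sum_eq_sum_Ico_succ_bot (by omega), show i + (c + 1) = i + 1 + c by ring, ← ih, horner]
    ring

noncomputable def DD (W : ℕ → ℕ) (s a n : ℕ) : ℕ → ℝ → ℝ
  | 0, v => if 0 ≤ v then 1 else 0
  | k + 1, v => ∑ j ∈ Ico a n, W j * DD W s a n k (v - (j + s : ℕ))

lemma DD_rep (W : ℕ → ℕ) (s a n B : ℕ) (k : ℕ) : ∃ (ι : Type) (t : Finset ι) (c m : ι → ℕ),
    (∑ j ∈ Ico a n, W j * B ^ (j + s)) ^ k = ∑ i ∈ t, c i * B ^ m i ∧
    (∑ j ∈ Ico a n, W j) ^ k = ∑ i ∈ t, c i ∧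
    ∀ v, DD W s a n k v = ∑ i ∈ t, if (m i : ℝ) ≤ v then (c i : ℝ) else 0 := by
  induction k with
  | zero => exact ⟨Unit, {()}, fun _ => 1, fun _ => 0, by simp, by simp, fun v => by simp [DD]⟩
  | succ k ih =>
    obtain ⟨ι, t, c, m, h1, h2, h3⟩ := ih
    refine ⟨ℕ × ι, Ico a n ×ˢ t, fun p => W p.1 * c p.2, fun p => p.1 + s + m p.2, ?_, ?_, fun v => ?_⟩
    · rw [pow_succ', h1, sum_mul_sum, sum_product]
      exact sum_congr rfl fun j _ => sum_congr rfl fun i _ => by ring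
    · rw [pow_succ', h2, sum_mul_sum, sum_product]
    · rw [DD, sum_product]
      refine sum_congr rfl fun j _ => ?_
      rw [h3, mul_sum]
      refine sum_congr rfl fun i _ => ?_
      push_cast
      rw [mul_ite, mul_zero]
      exact if_congr (by constructor <;> intro <;> linarith) rfl rfl

lemma digit_sum {ι : Type} (t : Finset ι) (c m : ι → ℕ) {B : ℕ} (J : ℕ) (hB : ∑ i ∈ t, c i < B - 1) :
    (∑ i ∈ t, c i * B ^ m i) % B ^ (J + 1) % (B - 1) = ∑ i ∈ t, if m i ≤ J then c i else 0 := by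
  have hB1 : 1 ≤ B := by omega
  have h1 : (∑ i ∈ t, c i * B ^ m i) % B ^ (J + 1) =
      ∑ i ∈ t, if m i ≤ J then c i * B ^ m i else 0 := by
    have a1 : ∑ i ∈ t, (if m i ≤ J then c i * B ^ m i else 0) < B ^ (J + 1) := by
      calc _ ≤ ∑ i ∈ t, c i * B ^ J := sum_le_sum fun i _ => by
            split_ifs with h
            · gcongr
            · exact Nat.zero_le _
        _ < B * B ^ J := by rw [← sum_mul]; gcongr; omega
        _ = _ := by ring
    rw [← Nat.mod_eq_of_lt a1]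
    refine Nat.ModEq.sum fun i _ => ?_
    split_ifs with h
    · rfl
    · exact (Nat.modEq_zero_iff_dvd).2 (Dvd.dvd.mul_left (pow_dvd_pow B (by omega)) _)
  have a2 : ∑ i ∈ t, (if m i ≤ J then c i else 0) < B - 1 :=
    lt_of_le_of_lt (sum_le_sum fun i _ => by split_ifs <;> simp) hB
  rw [h1, ← Nat.mod_eq_of_lt a2]
  refine Nat.ModEq.sum fun i _ => ?_
  split_ifs with h
  · have a3 : B ≡ 1 [MOD B - 1] := ((Nat.modEq_iff_dvd' hB1).2 dvd_rfl).symm
    simpa using (a3.pow (m i)).mul_left (c i)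
  · rfl

def dig (W : ℕ → ℕ) (s a c B J k : ℕ) : ℕ :=
  (B ^ (a + s) * horner W B c a) ^ k % B ^ (J + 1) % (B - 1)

lemma dig_eq (W : ℕ → ℕ) (s a c B J k : ℕ) (h : horner W 1 c a ^ k < B - 1) :
    (dig W s a c B J k : ℝ) = DD W s a (a + c) k J := by
  obtain ⟨ι, t, c', m, h1, h2, h3⟩ := DD_rep W s a (a + c) B k
  have h4 := horner_eq W 1 0 c a
  simp only [one_pow, one_mul, mul_one] at h4
  rw [dig, horner_eq, h1, digit_sum t c' m J (by rwa [← h2, ← h4]), h3]
  push_cast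
  exact sum_congr rfl fun i _ => if_congr (by norm_cast) rfl rfl

def Wu (S i : ℕ) : ℕ := S * (2 * i + 1) / (2 * i * (i + 1)) + 1

def Wl (S i : ℕ) : ℕ := 2 * S / (2 * i + 1)

lemma Wu_ge (S : ℕ) {i : ℕ} (hi : 0 < i) : S * Real.log (((i : ℝ) + 1) / i) ≤ Wu S i := by
  have hi' : (0 : ℝ) < i := by exact_mod_cast hi
  have h1 : (1 : ℝ) ≤ ((i : ℝ) + 1) / i := by rw [le_div_iff₀ hi']; linarith
  have h2 := Real.self_le_sinh_iff.2 (Real.log_nonneg h1)
  rw [Real.sinh_log (by positivity)] at h2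
  have h3 : ((S * (2 * i + 1) : ℕ) : ℝ) < (2 * i * (i + 1) : ℕ) * (Wu S i : ℝ) := by
    exact_mod_cast Nat.lt_mul_div_succ _ (by positivity)
  push_cast at h3
  have h4 : (((i : ℝ) + 1) / i - (((i : ℝ) + 1) / i)⁻¹) / 2 = (2 * i + 1) / (2 * i * (i + 1)) := by
    field_simp; ring
  rw [h4] at h2
  refine (mul_le_mul_of_nonneg_left h2 S.cast_nonneg).trans ?_
  rw [mul_div_assoc', div_le_iff₀' (by positivity)]
  exact h3.le

lemma Wl_le (S : ℕ) {i : ℕ} (hi : 0 < i) : Wl S i ≤ S * Real.log (((i : ℝ) + 1) / i) := by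
  have hi' : (0 : ℝ) < i := by exact_mod_cast hi
  have h2 := Real.le_log_one_add_of_nonneg (x := 1 / (i : ℝ)) (by positivity)
  have e1 : 1 + 1 / (i : ℝ) = (i + 1) / i := by field_simp
  have e2 : 2 * (1 / (i : ℝ)) / (1 / i + 2) = 2 / (2 * i + 1) := by field_simp; ring
  rw [e1, e2] at h2
  refine le_trans ?_ (mul_le_mul_of_nonneg_left h2 S.cast_nonneg)
  refine Nat.cast_div_le.trans (le_of_eq ?_)
  push_cast
  ring

lemma II_cells {a n : ℕ} (ha : 0 < a) (han : a ≤ n) (k : ℕ) (v : ℝ) :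
    II (a / n) (k + 1) v = ∑ j ∈ Ico a n,
      ∫ t in ((j : ℝ) / n)..(((j + 1 : ℕ) : ℝ) / n), II (a / n) k (v - t) / t := by
  have hn : (0 : ℝ) < n := by exact_mod_cast ha.trans_le han
  have h0 : (0 : ℝ) < a / n := by positivity
  have h1 : (a : ℝ) / n ≤ 1 := by rw [div_le_one hn]; exact_mod_cast han
  rw [intervalIntegral.sum_integral_adjacent_intervals_Ico (a := fun j : ℕ => (j : ℝ) / n) han,
    div_self hn.ne']
  · rfl
  · intro j hj
    have : 0 < j := ha.trans_le hj.1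
    exact int_anti (II_anti h0 h1 k v) (by positivity) (by gcongr; omega)

lemma II_DD {a n : ℕ} (ha : 0 < a) (han : a ≤ n) (S k : ℕ) : ∀ v : ℝ,
    DD (Wl S) 1 a n k v ≤ S ^ k * II (a / n) k (v / n) ∧
      S ^ k * II (a / n) k (v / n) ≤ DD (Wu S) 0 a n k v := by
  have hn : (0 : ℝ) < n := by exact_mod_cast ha.trans_le han
  have h0 : (0 : ℝ) < a / n := by positivity
  have h1 : (a : ℝ) / n ≤ 1 := by rw [div_le_one hn]; exact_mod_cast han
  induction k with
  | zero => intro v; simp [DD, II, le_div_iff₀ hn]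
  | succ k ih =>
    intro v
    rw [II_cells ha han, mul_sum, DD, DD]
    have key : ∀ j ∈ Ico a n,
        Wl S j * DD (Wl S) 1 a n k (v - (j + 1 : ℕ)) ≤ S ^ (k + 1) *
          ∫ t in ((j : ℝ) / n)..(((j + 1 : ℕ) : ℝ) / n), II (a / n) k (v / n - t) / t ∧
        S ^ (k + 1) * ∫ t in ((j : ℝ) / n)..(((j + 1 : ℕ) : ℝ) / n), II (a / n) k (v / n - t) / t ≤
          Wu S j * DD (Wu S) 0 a n k (v - (j + 0 : ℕ)) := by
      intro j hj
      have hj0 : 0 < j := ha.trans_le (mem_Ico.1 hj).1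
      have hj' : (0 : ℝ) < j := by exact_mod_cast hj0
      obtain ⟨b1, b2⟩ := int_bounds (II_anti h0 h1 k (v / n)) (a := (j : ℝ) / n)
        (b := ((j + 1 : ℕ) : ℝ) / n) (by positivity) (by gcongr; omega)
      have e : ((j + 1 : ℕ) : ℝ) / n / (j / n) = (j + 1) / j := by push_cast; field_simp
      simp only [e, ← sub_div] at b1 b2
      have c1 := (ih (v - (j + 1 : ℕ))).1
      have c2 := (ih (v - (j + 0 : ℕ))).2
      have c3 := (II_bound h0 h1 k ((v - (j + 1 : ℕ)) / n)).1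
      have c4 := (II_bound h0 h1 k ((v - j) / n)).1
      rw [add_zero] at c2 ⊢
      constructor
      · calc _ ≤ (Wl S j : ℝ) * (S ^ k * II (a / n) k ((v - (j + 1 : ℕ)) / n)) := by gcongr
          _ ≤ S * Real.log (((j : ℝ) + 1) / j) * (S ^ k * II (a / n) k ((v - (j + 1 : ℕ)) / n)) := by
              gcongr; exact Wl_le S hj0
          _ = S ^ (k + 1) * (II (a / n) k ((v - (j + 1 : ℕ)) / n) * Real.log (((j : ℝ) + 1) / j)) := by
              ring
          _ ≤ _ := by gcongr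
      · calc _ ≤ (S : ℝ) ^ (k + 1) * (II (a / n) k ((v - j) / n) * Real.log (((j : ℝ) + 1) / j)) := by
              gcongr
          _ = S * Real.log (((j : ℝ) + 1) / j) * (S ^ k * II (a / n) k ((v - j) / n)) := by ring
          _ ≤ Wu S j * (S ^ k * II (a / n) k ((v - j) / n)) := by gcongr; exact Wu_ge S hj0
          _ ≤ _ := by gcongr
    exact ⟨sum_le_sum fun j hj => (key j hj).1, sum_le_sum fun j hj => (key j hj).2⟩

/-- certified lower (`e = 0`) or upper (`e = 1`) value -/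
def cert (e S a c B J K : ℕ) : ℚ :=
  (∑ k ∈ range K, (-1) ^ k * ((if (k + e) % 2 = 0 then dig (Wl S) 1 a c B J k
    else dig (Wu S) 0 a c B J k : ℕ) : ℚ) / (S ^ k * k.factorial : ℕ)) * (a + c : ℕ) / a

def sizeOK (S a c B J K : ℕ) : Prop :=
  0 < S ∧ 0 < a ∧ J < K * a ∧ ∀ k ∈ range K, horner (Wl S) 1 c a ^ k < B - 1 ∧
    horner (Wu S) 1 c a ^ k < B - 1

instance (S a c B J K : ℕ) : Decidable (sizeOK S a c B J K) := by
  unfold sizeOK; infer_instance

lemma cert_bounds {S a c B J K : ℕ} (h : sizeOK S a c B J K) :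
    (cert 0 S a c B J K : ℝ) ≤ EW (a / (a + c : ℕ)) (J / (a + c : ℕ)) ∧
      EW (a / (a + c : ℕ)) (J / (a + c : ℕ)) ≤ cert 1 S a c B J K := by
  obtain ⟨hS, ha, hJ, hk⟩ := h
  have hn : (0 : ℝ) < (a + c : ℕ) := by positivity
  have ha' : (0 : ℝ) < a := by positivity
  have hS' : (0 : ℝ) < S := by positivity
  have h0 : (0 : ℝ) < a / (a + c : ℕ) := by positivity
  have h1 : (a : ℝ) / (a + c : ℕ) ≤ 1 := by rw [div_le_one hn]; exact_mod_cast Nat.le_add_right a c
  rw [EW_eq h1 (K := K) (by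
    rw [mul_div_assoc']; gcongr; exact_mod_cast hJ) h0, div_div_eq_mul_div]
  have key : ∀ k ∈ range K,
      (dig (Wl S) 1 a c B J k : ℝ) / (S ^ k * k.factorial) ≤
        II (a / (a + c : ℕ)) k (J / (a + c : ℕ)) / k.factorial ∧
      II (a / (a + c : ℕ)) k (J / (a + c : ℕ)) / k.factorial ≤
        (dig (Wu S) 0 a c B J k : ℝ) / (S ^ k * k.factorial) := by
    intro k hk'
    obtain ⟨b1, b2⟩ := II_DD ha (Nat.le_add_right a c) S k J
    rw [dig_eq _ _ _ _ _ _ _ (hk k hk').1, dig_eq _ _ _ _ _ _ _ (hk k hk').2, ← div_div, ← div_div]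
    constructor <;> gcongr
    · rwa [div_le_iff₀' (by positivity)]
    · rwa [le_div_iff₀' (by positivity)]
  simp only [cert]
  push_cast
  constructor
  · refine div_le_div_of_nonneg_right (mul_le_mul_of_nonneg_right (sum_le_sum fun k hk' => ?_)
      (by positivity)) ha'.le
    obtain ⟨b1, b2⟩ := key k hk'
    push_cast at b1 b2
    rw [mul_div_assoc, mul_div_assoc]
    rcases Nat.even_or_odd k with he | he
    · rw [he.neg_one_pow, if_pos (by simpa using Nat.even_iff.1 he), Rat.cast_natCast]; linarith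
    · rw [he.neg_one_pow, if_neg (by simpa using Nat.odd_iff.1 he), Rat.cast_natCast]; linarith
  · refine div_le_div_of_nonneg_right (mul_le_mul_of_nonneg_right (sum_le_sum fun k hk' => ?_)
      (by positivity)) ha'.le
    obtain ⟨b1, b2⟩ := key k hk'
    push_cast at b1 b2
    rw [mul_div_assoc, mul_div_assoc]
    rcases Nat.even_or_odd k with he | he
    · rw [he.neg_one_pow, if_neg (by have := Nat.even_iff.1 he; omega), Rat.cast_natCast]; linarith
    · rw [he.neg_one_pow, if_pos (by have := Nat.odd_iff.1 he; omega), Rat.cast_natCast]; linarith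

lemma num1 : (131 / 100 : ℝ) ≤ EW (7 / 40) (3 / 2) := by
  have h := (cert_bounds (S := 2 ^ 30) (a := 175) (c := 825) (B := 2 ^ 320) (J := 1500) (K := 9)
    (by decide +kernel)).1
  have h2 : (131 / 100 : ℚ) ≤ cert 0 (2 ^ 30) 175 825 (2 ^ 320) 1500 9 := by decide +kernel
  have h3 := (Rat.cast_le (K := ℝ)).2 h2
  norm_num at h h3 ⊢
  linarith

lemma num2 : (108 / 100 : ℝ) ≤ EW (2 / 5) 2 := by
  have h := (cert_bounds (S := 2 ^ 30) (a := 400) (c := 600) (B := 2 ^ 320) (J := 2000) (K := 6)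
    (by decide +kernel)).1
  have h2 : (108 / 100 : ℚ) ≤ cert 0 (2 ^ 30) 400 600 (2 ^ 320) 2000 6 := by decide +kernel
  have h3 := (Rat.cast_le (K := ℝ)).2 h2
  norm_num at h h3 ⊢
  linarith

lemma num3 : EW (7 / 25) (5 / 2) ≤ 968 / 1000 := by
  have h := (cert_bounds (S := 2 ^ 30) (a := 560) (c := 1440) (B := 2 ^ 320) (J := 5000) (K := 9)
    (by decide +kernel)).2
  have h2 : cert 1 (2 ^ 30) 560 1440 (2 ^ 320) 5000 9 ≤ (968 / 1000 : ℚ) := by decide +kernel
  have h3 := (Rat.cast_le (K := ℝ)).2 h2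
  norm_num at h h3 ⊢
  linarith

lemma num4 : EW (1 / 2) 3 ≤ 9958 / 10000 := by
  have h := (cert_bounds (S := 2 ^ 30) (a := 500) (c := 500) (B := 2 ^ 320) (J := 3000) (K := 7)
    (by decide +kernel)).2
  have h2 : cert 1 (2 ^ 30) 500 500 (2 ^ 320) 3000 7 ≤ (9958 / 10000 : ℚ) := by decide +kernel
  have h3 := (Rat.cast_le (K := ℝ)).2 h2
  norm_num at h h3 ⊢
  linarith

lemma num5 : (10018 / 10000 : ℝ) ≤ EW (19 / 50) (7 / 2) := by
  have h := (cert_bounds (S := 2 ^ 30) (a := 380) (c := 620) (B := 2 ^ 320) (J := 3500) (K := 10)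
    (by decide +kernel)).1
  have h2 : (10018 / 10000 : ℚ) ≤ cert 0 (2 ^ 30) 380 620 (2 ^ 320) 3500 10 := by decide +kernel
  have h3 := (Rat.cast_le (K := ℝ)).2 h2
  norm_num at h h3 ⊢
  linarith

end Pool.Agent.Lib.MP_b09185_nt.Mai
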