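import Pool.Agent.Lib.MP_b09185_nt.MaiTail

/-! The sum over all nonprincipal characters of the smoothed von Mangoldt sums. -/

namespace Pool.Agent.Lib.MP_b09185_nt.Mai

open Complex Set Filter Topology MeasureTheory ArithmeticFunction Metric

variable {N : ℕ} [NeZero N]

noncomputable def SS {N : ℕ} (χ : DirichletCharacter ℂ N) (ℓ : ℝ) : ℂ :=
  ∑' n, (ch χ * vm) n * (gw ℓ n : ℝ)

noncomputable def AA (χ : DirichletCharacter ℂ N) (V : ℝ) (s : ℂ) : ℂ :=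
  -deriv χ.LFunction s * χ.LFunction s ^ 2 * LSeries (Tc χ V) s ^ 3

noncomputable def BB (χ : DirichletCharacter ℂ N) (V : ℝ) (s : ℂ) : ℂ :=
  -deriv χ.LFunction s * LSeries (Mc χ V) s *
    (3 - 3 * (χ.LFunction s * LSeries (Mc χ V) s) + (χ.LFunction s * LSeries (Mc χ V) s) ^ 2)

lemma twist_split (χ : DirichletCharacter ℂ N) (V : ℝ) {s : ℂ} (hs : 1 < s.re) :
    LSeries (ch χ * vm) s = AA χ V s + BB χ V s := by
  have h := L_mul_split χ V hs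
  rw [twist_eq χ hs, div_eq_mul_inv, ← eq_inv_of_mul_eq_one_right h, AA, BB]
  set L := χ.LFunction s
  set M := LSeries (Mc χ V) s
  set T := LSeries (Tc χ V) s
  set D := deriv χ.LFunction s
  linear_combination (D * (T * (L * T + 1 - L * M) + M * (L * M - 2))) * h

lemma deriv_le {f : ℂ → ℂ} (hf : Differentiable ℂ f) {c : ℂ} {r B : ℝ} (hr : 0 < r)
    (hB : ∀ z, ‖z - c‖ = r → ‖f z‖ ≤ B) : ‖deriv f c‖ ≤ B / r :=
  norm_deriv_le_of_forall_mem_sphere_norm_le hr hf.diffContOnCl fun z hz =>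
    hB z (by rwa [mem_sphere, dist_eq_norm] at hz)

lemma L_le (χ : DirichletCharacter ℂ N) {s : ℂ} (hs : 1 < s.re) :
    ‖χ.LFunction s‖ ≤ 1 + 1 / (s.re - 1) := by
  rw [χ.LFunction_eq_LSeries hs]
  exact norm_LSeries_le_one (fun n => χ.norm_le_one _) hs

lemma norm_BB_le (χ : DirichletCharacter ℂ N) (V : ℝ) (s : ℂ) {a b c : ℝ}
    (h1 : ‖deriv χ.LFunction s‖ ≤ a) (h2 : ‖χ.LFunction s‖ ≤ b) (h3 : ‖LSeries (Mc χ V) s‖ ≤ c)
    (hbc : 1 ≤ b * c) : ‖BB χ V s‖ ≤ 7 * (a * c) * (b * c) ^ 2 := by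
  have ha : 0 ≤ a := (norm_nonneg _).trans h1
  have hb : 0 ≤ b := (norm_nonneg _).trans h2
  have hc : 0 ≤ c := (norm_nonneg _).trans h3
  have h4 : ‖χ.LFunction s * LSeries (Mc χ V) s‖ ≤ b * c := by
    rw [norm_mul]; gcongr
  set w := χ.LFunction s * LSeries (Mc χ V) s with hw
  have h5 : ‖3 - 3 * w + w ^ 2‖ ≤ 7 * (b * c) ^ 2 := by
    refine (norm_add_le _ _).trans ?_
    refine (add_le_add (norm_sub_le _ _) le_rfl).trans ?_
    rw [norm_mul, norm_pow]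
    have : ‖w‖ ^ 2 ≤ (b * c) ^ 2 := by gcongr
    simp only [Complex.norm_ofNat]
    nlinarith
  rw [BB, ← hw, norm_mul, norm_mul, norm_neg]
  calc _ ≤ a * c * (7 * (b * c) ^ 2) := by gcongr
    _ = _ := by ring

lemma line_bounds {χ : DirichletCharacter ℂ N} (hχ : χ ≠ 1) {ℓ : ℝ} (hℓ : 1 ≤ ℓ) (t : ℝ) :
    ‖deriv χ.LFunction ((1 + 1 / ℓ : ℝ) + t * I)‖ ≤ 6 * ℓ ^ 2 ∧
      ‖χ.LFunction ((1 + 1 / ℓ : ℝ) + t * I)‖ ≤ 2 * ℓ := by
  have k0 : 0 < 1 / ℓ := by positivity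
  have hre : (((1 + 1 / ℓ : ℝ) : ℂ) + t * I).re = 1 + 1 / ℓ := by simp [-ofReal_add, -ofReal_div]
  constructor
  · refine (deriv_le (χ.differentiable_LFunction hχ) (r := 1 / ℓ / 2) (B := 3 * ℓ) (by positivity)
      fun z hz => ?_).trans (le_of_eq (by field_simp; ring))
    have a1 := abs_re_le_norm (z - ((1 + 1 / ℓ : ℝ) + t * I))
    rw [hz, sub_re, hre] at a1
    have a2 := neg_abs_le (z.re - (1 + 1 / ℓ))
    refine (L_le χ (by linarith)).trans ?_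
    have a3 : 1 / (z.re - 1) ≤ 1 / (1 / ℓ / 2) := one_div_le_one_div_of_le (by positivity) (by linarith)
    have a4 : 1 / (1 / ℓ / 2) = 2 * ℓ := by field_simp
    linarith
  · refine (L_le χ (by rw [hre]; linarith)).trans ?_
    rw [hre, add_sub_cancel_left, one_div_one_div]
    linarith

omit [NeZero N] in
lemma differentiableOn_Mc (χ : DirichletCharacter ℂ N) (V : ℝ) :
    DifferentiableOn ℂ (LSeries (Mc χ V)) {s | 0 < s.re} := by
  simpa using differentiableOn_LSeries_of_le (norm_Mc_le' χ V)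

lemma differentiableOn_BB {χ : DirichletCharacter ℂ N} (hχ : χ ≠ 1) (V : ℝ) :
    DifferentiableOn ℂ (BB χ V) {s | 0 < s.re} := by
  have h1 := (χ.differentiable_LFunction hχ).differentiableOn (s := {s | 0 < s.re})
  have h2 := (χ.differentiable_LFunction hχ).deriv.differentiableOn (s := {s | 0 < s.re})
  have h3 := differentiableOn_Mc χ V
  exact (h2.neg.mul h3).mul (((differentiableOn_const _).sub ((h1.mul h3).const_mul 3)).add
    ((h1.mul h3).pow 2))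

lemma differentiableOn_AA {χ : DirichletCharacter ℂ N} (hχ : χ ≠ 1) (V : ℝ) :
    DifferentiableOn ℂ (AA χ V) {s | 1 < s.re} := by
  have h1 := (χ.differentiable_LFunction hχ).differentiableOn (s := {s | 1 < s.re})
  have h2 := (χ.differentiable_LFunction hχ).deriv.differentiableOn (s := {s | 1 < s.re})
  exact (h2.neg.mul (h1.pow 2)).mul ((differentiableOn_of_le_one (norm_Tc_le χ V)).pow 3)

lemma BB_line {χ : DirichletCharacter ℂ N} (hχ : χ ≠ 1) {ℓ : ℝ} (hℓ : 1 ≤ ℓ) (V t : ℝ) :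
    ‖BB χ V ((1 + 1 / ℓ : ℝ) + t * I)‖ ≤ 1344 * ℓ ^ 7 := by
  have k0 : 0 < 1 / ℓ := by positivity
  have hre : (((1 + 1 / ℓ : ℝ) : ℂ) + t * I).re = 1 + 1 / ℓ := by simp [-ofReal_add, -ofReal_div]
  obtain ⟨h1, h2⟩ := line_bounds hχ hℓ t
  have h3 := norm_LSeries_le_one (norm_Mc_le_one χ V) (s := (1 + 1 / ℓ : ℝ) + t * I)
    (by rw [hre]; linarith)
  rw [hre, add_sub_cancel_left, one_div_one_div] at h3
  refine (norm_BB_le χ V _ h1 h2 (c := 2 * ℓ) (by linarith) (by nlinarith)).trans (le_of_eq ?_)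
  ring

lemma AA_line {χ : DirichletCharacter ℂ N} (hχ : χ ≠ 1) {ℓ : ℝ} (hℓ : 1 ≤ ℓ) (V t : ℝ) :
    ‖AA χ V ((1 + 1 / ℓ : ℝ) + t * I)‖ ≤
      24 * ℓ ^ 4 * ‖LSeries (Tc χ V) ((1 + 1 / ℓ : ℝ) + t * I)‖ ^ 3 := by
  obtain ⟨h1, h2⟩ := line_bounds hχ hℓ t
  rw [AA, norm_mul, norm_mul, norm_neg, norm_pow, norm_pow]
  calc _ ≤ 6 * ℓ ^ 2 * (2 * ℓ) ^ 2 * ‖LSeries (Tc χ V) ((1 + 1 / ℓ : ℝ) + t * I)‖ ^ 3 := by gcongr
    _ = _ := by ring

lemma AA_line' {χ : DirichletCharacter ℂ N} (hχ : χ ≠ 1) {ℓ : ℝ} (hℓ : 1 ≤ ℓ) (V t : ℝ) :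
    ‖AA χ V ((1 + 1 / ℓ : ℝ) + t * I)‖ ≤ 24 * ℓ ^ 4 * (1 + ℓ) ^ 3 := by
  have k0 : 0 < 1 / ℓ := by positivity
  have hre : (((1 + 1 / ℓ : ℝ) : ℂ) + t * I).re = 1 + 1 / ℓ := by simp [-ofReal_add, -ofReal_div]
  have h3 := norm_LSeries_le_one (norm_Tc_le χ V) (s := (1 + 1 / ℓ : ℝ) + t * I)
    (by rw [hre]; linarith)
  rw [hre, add_sub_cancel_left, one_div_one_div] at h3
  refine (AA_line hχ hℓ V t).trans ?_
  gcongr

lemma BB_rect {χ : DirichletCharacter ℂ N} (hχ : χ ≠ 1) {ℓ : ℝ} (hℓ : 3 ≤ ℓ) {V : ℝ} (hV : 0 ≤ V)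
    {s : ℂ} (h1 : 1 / 2 ≤ s.re) (h2 : s.re ≤ 2) (h3 : |s.im| ≤ ℓ) :
    ‖BB χ V s‖ ≤ 28 * (60 * N * ℓ * Real.exp V) ^ 3 := by
  have hN1 : (1 : ℝ) ≤ N := by exact_mod_cast NeZero.pos N
  have a0 := norm_le_abs_re_add_abs_im s
  rw [abs_of_pos (by linarith)] at a0
  have a1 : ‖χ.LFunction s‖ ≤ 10 * N * ℓ := by
    refine (L_crude hχ (by linarith)).trans ?_
    nlinarith
  have a2 : ‖deriv χ.LFunction s‖ ≤ 10 * N * ℓ / (1 / 4) := by
    refine deriv_le (χ.differentiable_LFunction hχ) (by norm_num) fun z hz => ?_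
    have b1 := abs_re_le_norm (z - s)
    rw [hz, sub_re] at b1
    have b2 := neg_abs_le (z.re - s.re)
    have b3 := norm_le_insert' z s
    refine (L_crude hχ (by linarith)).trans ?_
    nlinarith
  have a3 : ‖LSeries (Mc χ V) s‖ ≤ 6 * Real.exp V := by
    refine (norm_LSeries_le (by positivity) (norm_Mc_le' χ V) (by linarith)).trans ?_
    have : 1 / (s.re - -1 - 1) ≤ 1 / (1 / 2) := one_div_le_one_div_of_le (by norm_num) (by linarith)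
    nlinarith [Real.exp_pos V]
  have a4 := Real.one_le_exp hV
  refine (norm_BB_le χ V s a2 a1 a3 ?_).trans (le_of_eq (by ring))
  calc (1 : ℝ) ≤ 10 * 1 * 1 * (6 * 1) := by norm_num
    _ ≤ _ := by gcongr; linarith

lemma SS_eq {χ : DirichletCharacter ℂ N} (hχ : χ ≠ 1) {ℓ : ℝ} (hℓ : 1 ≤ ℓ) (V : ℝ) :
    (√(2 * Real.pi) : ℝ) * SS χ ℓ =
      (∫ t : ℝ, AA χ V ((1 + 1 / ℓ : ℝ) + t * I) * EE ℓ ((1 + 1 / ℓ : ℝ) + t * I)) +
      ∫ t : ℝ, BB χ V ((1 + 1 / ℓ : ℝ) + t * I) * EE ℓ ((1 + 1 / ℓ : ℝ) + t * I) := by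
  have k0 : 0 < 1 / ℓ := by positivity
  have hre : ∀ t : ℝ, (((1 + 1 / ℓ : ℝ) : ℂ) + t * I).re = 1 + 1 / ℓ := by
    intro t; simp [-ofReal_add, -ofReal_div]
  have h := (gauss_LSeries (a := ch χ * vm) (by simp) (σ := 1 + 1 / ℓ)
    (χ.LSeriesSummable_twist_vonMangoldt (by rw [ofReal_re]; linarith)) ℓ).tsum_eq
  rw [← integral_add
    (integrable_line (continuous_line (differentiableOn_AA hχ V) (by linarith))
      (AA_line' hχ hℓ V) _ _)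
    (integrable_line (continuous_line (differentiableOn_BB hχ V) (by linarith))
      (BB_line hχ hℓ V) _ _)]
  simp_rw [← add_mul]
  have e : ∀ t : ℝ, AA χ V ((1 + 1 / ℓ : ℝ) + t * I) + BB χ V ((1 + 1 / ℓ : ℝ) + t * I) =
      LSeries (ch χ * vm) ((1 + 1 / ℓ : ℝ) + t * I) := fun t =>
    (twist_split χ V (by rw [hre]; linarith)).symm
  simp_rw [e]
  rw [← h, SS, ← tsum_mul_left]
  refine tsum_congr fun n => ?_
  push_cast
  ring

lemma exp_line {ℓ : ℝ} (hℓ : 1 ≤ ℓ) : Real.exp (ℓ * (1 + 1 / ℓ)) ≤ 3 * Real.exp ℓ := by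
  have : ℓ * (1 + 1 / ℓ) = 1 + ℓ := by field_simp; ring
  rw [this, Real.exp_add]
  gcongr
  linarith [Real.exp_one_lt_d9]

lemma partB {χ : DirichletCharacter ℂ N} (hχ : χ ≠ 1) {l ℓ : ℝ} (hl : 1 ≤ l) (hℓ : 28000 * l ≤ ℓ)
    (hN : (N : ℝ) ≤ Real.exp l) :
    N * ‖∫ t : ℝ, BB χ (ℓ / 10) ((1 + 1 / ℓ : ℝ) + t * I) * EE ℓ ((1 + 1 / ℓ : ℝ) + t * I)‖ ≤
      10 ^ 10 * ℓ ^ 12 * Real.exp ℓ * Real.exp (-(ℓ / (560000 * l))) := by
  have hℓ1 : 1 ≤ ℓ := by linarith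
  have k0 : 0 < 1 / ℓ := by positivity
  have k2 : 1 / ℓ ≤ 1 := by rw [div_le_one (by linarith)]; exact hℓ1
  have hN1 : (1 : ℝ) ≤ N := by exact_mod_cast NeZero.pos N
  have h := shift_bound (F := BB χ (ℓ / 10)) (σ₁ := 1 / 2) (σ₂ := 1 + 1 / ℓ) (T := ℓ) (v := ℓ)
    (K := 28 * (60 * N * ℓ * Real.exp (ℓ / 10)) ^ 3) (K' := 1344 * ℓ ^ 7)
    (by norm_num) (by linarith) (by linarith) (by linarith) (by linarith)
    ((differentiableOn_BB hχ _).mono fun s hs => lt_of_lt_of_le (by norm_num) hs.1.1)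
    (fun x hx y hy => BB_rect hχ (by linarith) (by linarith) (by simpa using hx.1)
      (by simpa using hx.2.trans (by linarith)) (by simpa using abs_le.2 hy))
    (continuous_line (differentiableOn_BB hχ _) (by linarith)) (BB_line hχ hℓ1 _)
  have h1 := exp_line hℓ1
  have h2 : Real.exp (-ℓ ^ 2 / 4) ≤ Real.exp (-(ℓ / 2)) := by gcongr; nlinarith
  have h3 : Real.exp (ℓ * (1 / 2)) = Real.exp ℓ * Real.exp (-(ℓ / 2)) := by
    rw [← Real.exp_add]; congr 1; ring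
  rw [h3] at h
  have h4 : Real.exp l ^ 4 * Real.exp (ℓ / 10) ^ 3 * Real.exp (-(ℓ / 2)) ≤
      Real.exp (-(ℓ / (560000 * l))) := by
    rw [← Real.exp_nat_mul, ← Real.exp_nat_mul, ← Real.exp_add, ← Real.exp_add]
    gcongr
    have : ℓ / (560000 * l) ≤ ℓ / 560000 := by gcongr; linarith
    push_cast
    linarith
  have h5 : 1 ≤ Real.exp (ℓ / 10) := Real.one_le_exp (by linarith)
  have h6 : 1 ≤ Real.exp l := Real.one_le_exp (by linarith)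
  have h7 : ℓ ^ 3 ≤ ℓ ^ 12 := pow_le_pow_right₀ hℓ1 (by norm_num)
  have h8 : ℓ ^ 7 ≤ ℓ ^ 12 * (Real.exp l ^ 3 * Real.exp (ℓ / 10) ^ 3) :=
    (pow_le_pow_right₀ hℓ1 (by norm_num)).trans
      (le_mul_of_one_le_right (by positivity) (one_le_mul_of_one_le_of_one_le
        (one_le_pow₀ h6) (one_le_pow₀ h5)))
  have h9 : (60 * N * ℓ * Real.exp (ℓ / 10)) ^ 3 ≤
      216000 * (ℓ ^ 12 * (Real.exp l ^ 3 * Real.exp (ℓ / 10) ^ 3)) := by
    calc _ = 216000 * (ℓ ^ 3 * ((N : ℝ) ^ 3 * Real.exp (ℓ / 10) ^ 3)) := by ring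
      _ ≤ _ := by gcongr
  set Z := ℓ ^ 12 * (Real.exp l ^ 3 * Real.exp (ℓ / 10) ^ 3) with hZ
  calc _ ≤ Real.exp l * (64 * (28 * (216000 * Z) * (Real.exp ℓ * Real.exp (-(ℓ / 2))) +
        (28 * (216000 * Z) + 1344 * Z) * (3 * Real.exp ℓ) * Real.exp (-(ℓ / 2)))) := by
        gcongr
        refine h.trans ?_
        gcongr
    _ = (64 * (28 * 216000 * 4 + 1344 * 3)) * ℓ ^ 12 * Real.exp ℓ *
        (Real.exp l ^ 4 * Real.exp (ℓ / 10) ^ 3 * Real.exp (-(ℓ / 2))) := by rw [hZ]; ring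
    _ ≤ _ := by gcongr; norm_num

open Classical in
lemma partA {l ℓ : ℝ} (hl : 1 ≤ l) (hℓ : 28000 * l ≤ ℓ) (hN : (N : ℝ) ≤ Real.exp l)
    (hg : ∀ χ : DirichletCharacter ℂ N, χ ≠ 1 → Good χ l (2 * ℓ)) :
    ∑ χ ∈ (Finset.univ : Finset (DirichletCharacter ℂ N)).erase 1,
      ‖∫ t : ℝ, AA χ (ℓ / 10) ((1 + 1 / ℓ : ℝ) + t * I) * EE ℓ ((1 + 1 / ℓ : ℝ) + t * I)‖ ≤
      10 ^ 32 * ℓ ^ 12 * Real.exp ℓ * Real.exp (-(ℓ / (560000 * l))) := by
  have hℓ1 : 1 ≤ ℓ := by linarith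
  have k0 : 0 < 1 / ℓ := by positivity
  have k2 : 1 / ℓ ≤ 1 := by rw [div_le_one (by linarith)]; exact hℓ1
  have hV : 2 * N ≤ Real.exp (ℓ / 10) := by
    have h1 : Real.exp (1 + l) ≤ Real.exp (ℓ / 10) := by gcongr; linarith
    rw [Real.exp_add] at h1
    have h2 := Real.add_one_le_exp 1
    nlinarith [Real.exp_pos l]
  have hint : ∀ χ ∈ (Finset.univ : Finset (DirichletCharacter ℂ N)).erase 1,
      Integrable fun t : ℝ =>
        ‖AA χ (ℓ / 10) ((1 + 1 / ℓ : ℝ) + t * I) * EE ℓ ((1 + 1 / ℓ : ℝ) + t * I)‖ := by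
    intro χ hχ
    have hχ := Finset.ne_of_mem_erase hχ
    exact (integrable_line (continuous_line (differentiableOn_AA hχ _) (by linarith))
      (AA_line' hχ hℓ1 _) _ _).norm
  refine (Finset.sum_le_sum fun χ _ => norm_integral_le_integral_norm _).trans ?_
  rw [← integral_finsetSum _ hint]
  set ε := Real.exp (-(ℓ / (560000 * l))) with hε
  have hG := (integrable_exp_neg_mul_sq (by norm_num : (0 : ℝ) < 1 / 4)).const_mul
    (24 * ℓ ^ 4 * (10 ^ 27 * ℓ ^ 6 * ε) * (24 * Real.exp ℓ) * (9 * ℓ ^ 2))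
  refine (integral_mono (integrable_finsetSum _ hint) hG fun t => ?_).trans ?_
  · have h1 : ∀ χ ∈ (Finset.univ : Finset (DirichletCharacter ℂ N)).erase 1,
        ‖AA χ (ℓ / 10) ((1 + 1 / ℓ : ℝ) + t * I) * EE ℓ ((1 + 1 / ℓ : ℝ) + t * I)‖ ≤
          24 * ℓ ^ 4 * (10 ^ 27 * ℓ ^ 6 * ε) * (24 * Real.exp ℓ) * Real.exp (-(1 / 4) * t ^ 2) *
            ‖LSeries (Tc χ (ℓ / 10)) ((1 + 1 / ℓ : ℝ) + t * I)‖ ^ 2 := by
      intro χ hχ
      have hχ := Finset.ne_of_mem_erase hχ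
      have a1 := AA_line hχ hℓ1 (ℓ / 10) t
      have a2 := T_point hχ hl hℓ (hg χ hχ) t
      have a3 := exp_sq_le (σ := 1 + 1 / ℓ) (by linarith) (by linarith) (ℓ * (1 + 1 / ℓ))
      have a4 := exp_line hℓ1
      have a5 : Real.exp (-(1 / 2) * t ^ 2) =
          Real.exp (-(1 / 4) * t ^ 2) * Real.exp (-(1 / 4) * t ^ 2) := by
        rw [← Real.exp_add]; congr 1; ring
      rw [norm_mul, norm_EE, a5]
      set W := ‖LSeries (Tc χ (ℓ / 10)) ((1 + 1 / ℓ : ℝ) + t * I)‖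
      calc _ ≤ 24 * ℓ ^ 4 * W ^ 3 * (24 * Real.exp ℓ *
            (Real.exp (-(1 / 4) * t ^ 2) * Real.exp (-(1 / 4) * t ^ 2))) := by
            gcongr
            linarith
        _ = 24 * ℓ ^ 4 * (W * Real.exp (-(1 / 4) * t ^ 2)) * (24 * Real.exp ℓ) *
            Real.exp (-(1 / 4) * t ^ 2) * W ^ 2 := by ring
        _ ≤ _ := by gcongr
    refine (Finset.sum_le_sum h1).trans ?_
    rw [← Finset.mul_sum]
    have h2 := (Finset.sum_le_sum_of_subset_of_nonneg (Finset.erase_subset 1 Finset.univ)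
      fun χ _ _ => sq_nonneg _).trans (T_mean (N := N) hℓ1 hV t)
    calc _ ≤ 24 * ℓ ^ 4 * (10 ^ 27 * ℓ ^ 6 * ε) * (24 * Real.exp ℓ) * Real.exp (-(1 / 4) * t ^ 2) *
          (9 * ℓ ^ 2) := by gcongr
      _ = _ := by ring
  · rw [integral_const_mul, integral_gaussian]
    have h4 : √(Real.pi / (1 / 4)) ≤ 4 := by
      rw [Real.sqrt_le_iff]
      constructor <;> linarith [Real.pi_le_four]
    calc _ ≤ 24 * ℓ ^ 4 * (10 ^ 27 * ℓ ^ 6 * ε) * (24 * Real.exp ℓ) * (9 * ℓ ^ 2) * 4 := by gcongr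
      _ = (24 * 10 ^ 27 * 24 * 9 * 4) * ℓ ^ 12 * Real.exp ℓ * ε := by ring
      _ ≤ _ := by gcongr; norm_num

open Classical in
theorem char_sum_bound {l ℓ : ℝ} (hl : 1 ≤ l) (hℓ : 28000 * l ≤ ℓ) (hN : (N : ℝ) ≤ Real.exp l)
    (hg : ∀ χ : DirichletCharacter ℂ N, χ ≠ 1 → Good χ l (2 * ℓ)) :
    ∑ χ ∈ (Finset.univ : Finset (DirichletCharacter ℂ N)).erase 1, ‖SS χ ℓ‖ ≤
      10 ^ 33 * ℓ ^ 12 * Real.exp ℓ * Real.exp (-(ℓ / (560000 * l))) := by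
  have hℓ1 : 1 ≤ ℓ := by linarith
  have hN0 : (0 : ℝ) < N := by exact_mod_cast NeZero.pos N
  have hA := partA hl hℓ hN hg
  set Y := ℓ ^ 12 * Real.exp ℓ * Real.exp (-(ℓ / (560000 * l))) with hY
  have hY0 : 0 ≤ Y := by positivity
  have h1 : ∀ χ ∈ (Finset.univ : Finset (DirichletCharacter ℂ N)).erase 1, ‖SS χ ℓ‖ ≤
      ‖∫ t : ℝ, AA χ (ℓ / 10) ((1 + 1 / ℓ : ℝ) + t * I) * EE ℓ ((1 + 1 / ℓ : ℝ) + t * I)‖ +
        10 ^ 10 * Y / N := by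
    intro χ hχ
    have hχ := Finset.ne_of_mem_erase hχ
    have a1 := congrArg norm (SS_eq hχ hℓ1 (ℓ / 10))
    rw [norm_mul, norm_real, Real.norm_of_nonneg sq2pi_pos.le] at a1
    refine (le_mul_of_one_le_left (norm_nonneg _) one_le_sqrt_two_pi).trans ?_
    rw [a1]
    refine (norm_add_le _ _).trans ?_
    gcongr
    rw [le_div_iff₀' hN0]
    exact (partB hχ hl hℓ hN).trans (le_of_eq (by rw [hY]; ring))
  refine (Finset.sum_le_sum h1).trans ?_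
  rw [Finset.sum_add_distrib, Finset.sum_const, nsmul_eq_mul]
  have h2 : (((Finset.univ : Finset (DirichletCharacter ℂ N)).erase 1).card : ℝ) ≤ N := by
    have a1 := Finset.card_erase_le (s := (Finset.univ : Finset (DirichletCharacter ℂ N))) (a := 1)
    rw [Finset.card_univ, ← Nat.card_eq_fintype_card,
      DirichletCharacter.card_eq_totient_of_hasEnoughRootsOfUnity] at a1
    exact_mod_cast a1.trans (Nat.totient_le N)
  have h3 : (((Finset.univ : Finset (DirichletCharacter ℂ N)).erase 1).card : ℝ) *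
      (10 ^ 10 * Y / N) ≤ 10 ^ 10 * Y := by
    calc _ ≤ N * (10 ^ 10 * Y / N) := by gcongr
      _ = _ := by field_simp
  have e1 : 10 ^ 32 * ℓ ^ 12 * Real.exp ℓ * Real.exp (-(ℓ / (560000 * l))) = 10 ^ 32 * Y := by
    rw [hY]; ring
  have e2 : 10 ^ 33 * ℓ ^ 12 * Real.exp ℓ * Real.exp (-(ℓ / (560000 * l))) = 10 ^ 33 * Y := by
    rw [hY]; ring
  rw [e1] at hA
  rw [e2]
  linarith

end Pool.Agent.Lib.MP_b09185_nt.Mai
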