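import Pool.Agent.Lib.MP_b09185_nt.MaiZero
import Pool.Agent.Lib.MP_b09185_nt.MaiGauss

/-! Smooth splitting of the reciprocal of an L-function into head and tail. -/

namespace Pool.Agent.Lib.MP_b09185_nt.Mai

open Complex Set Filter Topology MeasureTheory ArithmeticFunction

lemma integrable_shift (c : ℝ) : Integrable fun v : ℝ => Real.exp (-(c - v) ^ 2 / 2) := by
  have := integrable_gauss.comp_sub_right c
  refine this.congr (Eventually.of_forall fun v => ?_)
  simp only
  congr 1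
  ring

lemma integral_shift (c : ℝ) : ∫ v : ℝ, Real.exp (-(c - v) ^ 2 / 2) = √(2 * Real.pi) := by
  rw [← integral_gauss, ← integral_sub_right_eq_self (fun t : ℝ => Real.exp (-(1 / 2) * t ^ 2)) c]
  congr 1
  funext v
  congr 1
  ring

noncomputable def tau (V : ℝ) (n : ℕ) : ℝ := (∫ v in Ioi V, gw v n) / √(2 * Real.pi)

lemma sq2pi_pos : 0 < √(2 * Real.pi) := lt_of_lt_of_le one_pos one_le_sqrt_two_pi

lemma integrable_gw (n : ℕ) : Integrable fun v => gw v n := integrable_shift _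

lemma integral_gw (n : ℕ) : ∫ v, gw v n = √(2 * Real.pi) := integral_shift _

lemma tau_nonneg (V : ℝ) (n : ℕ) : 0 ≤ tau V n :=
  div_nonneg (integral_nonneg fun v => (gw_pos v n).le) sq2pi_pos.le

lemma tau_le_one (V : ℝ) (n : ℕ) : tau V n ≤ 1 := by
  rw [tau, div_le_one sq2pi_pos, ← integral_gw n]
  exact setIntegral_le_integral (integrable_gw n) (Eventually.of_forall fun v => (gw_pos v n).le)

lemma exp_half_le : Real.exp (1 / 2) ≤ 2 := by
  have h : Real.exp (1 / 2) ^ 2 = Real.exp 1 := by rw [← Real.exp_nat_mul]; norm_num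
  have := Real.exp_one_lt_d9
  nlinarith [Real.exp_pos (1 / 2)]

lemma tau_le (V : ℝ) {n : ℕ} (hn : n ≠ 0) : tau V n ≤ 2 * n * Real.exp (-V) := by
  have hn' : (0 : ℝ) < n := by positivity
  rw [tau, div_le_iff₀ sq2pi_pos]
  have hg := (integrable_shift (Real.log n + 1)).const_mul (Real.exp (1 / 2) * n * Real.exp (-V))
  refine (setIntegral_mono_on (integrable_gw n).integrableOn hg.integrableOn measurableSet_Ioi
    fun v hv => ?_).trans ?_
  · have : Real.exp (1 / 2) * n * Real.exp (-V) = Real.exp (1 / 2 + Real.log n + -V) := by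
      rw [Real.exp_add, Real.exp_add, Real.exp_log hn']
    rw [this, ← Real.exp_add, gw]
    gcongr
    have : V < v := hv
    nlinarith
  · refine (setIntegral_le_integral hg (Eventually.of_forall fun v => by positivity)).trans ?_
    rw [integral_const_mul, integral_shift]
    gcongr
    exact exp_half_le

lemma one_sub_tau_le (V : ℝ) {n : ℕ} (hn : n ≠ 0) :
    1 - tau V n ≤ 2 * Real.exp V * (n : ℝ) ^ (-1 : ℝ) := by
  have hn' : (0 : ℝ) < n := by positivity
  have h1 := integral_add_compl (μ := volume) (measurableSet_Ioi (a := V)) (integrable_gw n)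
  rw [integral_gw, compl_Ioi] at h1
  have h2 : 1 - tau V n = (∫ v in Iic V, gw v n) / √(2 * Real.pi) := by
    have := sq2pi_pos
    rw [tau]
    field_simp
    linarith
  rw [h2, div_le_iff₀ sq2pi_pos]
  have hg := (integrable_shift (Real.log n - 1)).const_mul
    (Real.exp (1 / 2) * Real.exp V * (n : ℝ) ^ (-1 : ℝ))
  refine (setIntegral_mono_on (integrable_gw n).integrableOn hg.integrableOn measurableSet_Iic
    fun v hv => ?_).trans ?_
  · have : Real.exp (1 / 2) * Real.exp V * (n : ℝ) ^ (-1 : ℝ) =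
        Real.exp (1 / 2 + V + Real.log n * (-1)) := by
      rw [Real.exp_add, Real.exp_add, Real.rpow_def_of_pos hn']
    rw [this, ← Real.exp_add, gw]
    gcongr
    have : v ≤ V := hv
    nlinarith
  · refine (setIntegral_le_integral hg (Eventually.of_forall fun v => by positivity)).trans ?_
    rw [integral_const_mul, integral_shift]
    gcongr
    exact exp_half_le

section
variable {N : ℕ}

noncomputable abbrev mu (χ : DirichletCharacter ℂ N) : ℕ → ℂ :=
  ch χ * fun n => ((moebius n : ℤ) : ℂ)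

lemma norm_moebius_le (n : ℕ) : ‖((moebius n : ℤ) : ℂ)‖ ≤ 1 := by
  rw [Complex.norm_intCast]
  exact_mod_cast abs_moebius_le_one

lemma norm_mu_le (χ : DirichletCharacter ℂ N) (n : ℕ) : ‖mu χ n‖ ≤ 1 := by
  rw [mu, Pi.mul_apply, norm_mul]
  exact mul_le_one₀ (χ.norm_le_one _) (norm_nonneg _) (norm_moebius_le n)

noncomputable def Tc (χ : DirichletCharacter ℂ N) (V : ℝ) (n : ℕ) : ℂ := mu χ n * tau V n

noncomputable def Mc (χ : DirichletCharacter ℂ N) (V : ℝ) (n : ℕ) : ℂ :=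
  mu χ n * ((1 - tau V n : ℝ) : ℂ)

lemma norm_Tc_le (χ : DirichletCharacter ℂ N) (V : ℝ) (n : ℕ) : ‖Tc χ V n‖ ≤ 1 := by
  rw [Tc, norm_mul, norm_real, Real.norm_of_nonneg (tau_nonneg V n)]
  exact mul_le_one₀ (norm_mu_le χ n) (tau_nonneg V n) (tau_le_one V n)

lemma norm_Mc_le (χ : DirichletCharacter ℂ N) (V : ℝ) (n : ℕ) : ‖Mc χ V n‖ ≤ 1 - tau V n := by
  rw [Mc, norm_mul, norm_real, Real.norm_of_nonneg (by linarith [tau_le_one V n])]
  exact mul_le_of_le_one_left (by linarith [tau_le_one V n]) (norm_mu_le χ n)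

lemma norm_Mc_le_one (χ : DirichletCharacter ℂ N) (V : ℝ) (n : ℕ) : ‖Mc χ V n‖ ≤ 1 :=
  (norm_Mc_le χ V n).trans (by linarith [tau_nonneg V n])

lemma norm_Mc_le' (χ : DirichletCharacter ℂ N) (V : ℝ) (n : ℕ) (hn : n ≠ 0) :
    ‖Mc χ V n‖ ≤ 2 * Real.exp V * (n : ℝ) ^ (-1 : ℝ) :=
  (norm_Mc_le χ V n).trans (one_sub_tau_le V hn)

lemma summable_of_le_one {a : ℕ → ℂ} (ha : ∀ n, ‖a n‖ ≤ 1) {s : ℂ} (hs : 1 < s.re) :
    LSeriesSummable a s :=
  summable_of_le (B := 1) (θ := 0) (fun n _ => by simpa using ha n) (by simpa using hs)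

lemma differentiableOn_of_le_one {a : ℕ → ℂ} (ha : ∀ n, ‖a n‖ ≤ 1) :
    DifferentiableOn ℂ (LSeries a) {s | 1 < s.re} := by
  simpa using differentiableOn_LSeries_of_le (a := a) (B := 1) (θ := 0)
    (fun n _ => by simpa using ha n)

lemma continuous_line {F : ℂ → ℂ} {b σ : ℝ} (hF : DifferentiableOn ℂ F {s | b < s.re}) (h : b < σ) :
    Continuous fun t : ℝ => F (σ + t * I) :=
  hF.continuousOn.comp_continuous (by fun_prop) fun t => by simpa using h

variable [NeZero N]

lemma L_mul_mu (χ : DirichletCharacter ℂ N) {s : ℂ} (hs : 1 < s.re) :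
    χ.LFunction s * LSeries (mu χ) s = 1 := by
  rw [χ.LFunction_eq_LSeries hs]
  exact DirichletCharacter.LSeries.mul_mu_eq_one χ hs

lemma L_mul_split (χ : DirichletCharacter ℂ N) (V : ℝ) {s : ℂ} (hs : 1 < s.re) :
    χ.LFunction s * (LSeries (Mc χ V) s + LSeries (Tc χ V) s) = 1 := by
  rw [← LSeries_add (summable_of_le_one (norm_Mc_le_one χ V) hs)
    (summable_of_le_one (norm_Tc_le χ V) hs), ← L_mul_mu χ hs]
  congr 2
  funext n
  simp only [Pi.add_apply, Mc, Tc]
  push_cast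
  ring

lemma D_bound {χ : DirichletCharacter ℂ N} (hχ : χ ≠ 1) {l ℓ : ℝ} (hl : 1 ≤ l) (hℓ : 28000 * l ≤ ℓ)
    (hg : Good χ l (2 * ℓ)) {t : ℝ} (ht : |t| ≤ ℓ) {v : ℝ} (hv : 0 ≤ v) :
    ‖∑' n, LSeries.term (mu χ) ((1 + 1 / ℓ : ℝ) + t * I) n * (gw v n : ℝ)‖ ≤
      64 * (10 ^ 20 * l ^ 5 * Real.exp (-(1 / (56000 * l)) * v) +
        (10 ^ 20 * l ^ 5 + 3 * ℓ) * Real.exp (-ℓ ^ 2 / 4) * Real.exp (-(1 / (2 * ℓ)) * v)) := by
  have hℓ1 : 1 ≤ ℓ := by linarith
  set s : ℂ := (1 + 1 / ℓ : ℝ) + t * I with hs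
  have hre : s.re = 1 + 1 / ℓ := by simp [hs, -ofReal_add, -ofReal_div]
  have him : s.im = t := by simp [hs, -ofReal_add, -ofReal_div]
  have k0 : 0 < 1 / ℓ := by positivity
  have k1 : 1 / (2 * ℓ) = 1 / ℓ / 2 := by field_simp
  have k2 : 1 / ℓ ≤ 1 := by rw [div_le_one (by linarith)]; exact hℓ1
  have hline : ∀ u : ℝ, (s + ((-(1 / (2 * ℓ)) : ℝ) + u * I)).re = 1 + 1 / (2 * ℓ) := by
    intro u
    simp only [add_re, hre, ofReal_re, mul_re, I_re, mul_zero, ofReal_im, I_im, mul_one, sub_self,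
      add_zero]
    linarith
  have hsum : LSeriesSummable (LSeries.term (mu χ) s) ((-(1 / (2 * ℓ)) : ℝ) : ℂ) := by
    have := summable_of_le_one (norm_mu_le χ) (s := s + ((-(1 / (2 * ℓ)) : ℝ) + (0 : ℝ) * I))
      (by rw [hline]; linarith)
    refine this.congr fun n => ?_
    rw [term_term]
    simp
  have h := (gauss_LSeries (LSeries.term_zero _ _) hsum v).tsum_eq
  have hL : ∀ u : ℝ, LSeries (LSeries.term (mu χ) s) ((-(1 / (2 * ℓ)) : ℝ) + u * I) =
      (χ.LFunction (s + ((-(1 / (2 * ℓ)) : ℝ) + u * I)))⁻¹ := by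
    intro u
    rw [← eq_inv_of_mul_eq_one_right (L_mul_mu χ (by rw [hline]; linarith)), LSeries, LSeries]
    exact tsum_congr fun n => term_term _ _ _ _
  simp_rw [hL] at h
  have hη : 1 / (2 * ℓ) ≤ 1 / (56000 * l) := one_div_le_one_div_of_le (by positivity) (by linarith)
  have hη2 : 1 / (56000 * l) ≤ 1 := by rw [div_le_one (by linarith)]; linarith
  have hK : 0 < 10 ^ 20 * l ^ 5 := by positivity
  have hgood : ∀ w : ℂ, -(1 / (56000 * l)) ≤ w.re → |w.im| ≤ ℓ →
      1 ≤ 10 ^ 20 * l ^ 5 * ‖χ.LFunction (s + w)‖ := by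
    intro w h1 h2
    refine hg _ (by rw [add_re, hre]; linarith) ?_
    rw [add_im, him]
    linarith [abs_add_le t w.im]
  have hne : ∀ w : ℂ, -(1 / (56000 * l)) ≤ w.re → |w.im| ≤ ℓ → χ.LFunction (s + w) ≠ 0 := by
    intro w h1 h2 h3
    have := hgood w h1 h2
    rw [h3, norm_zero, mul_zero] at this
    linarith
  have hLd : Differentiable ℂ fun w => χ.LFunction (s + w) :=
    (χ.differentiable_LFunction hχ).comp (by fun_prop)
  have hb := shift_bound (F := fun w => (χ.LFunction (s + w))⁻¹) (σ₁ := -(1 / (56000 * l)))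
    (σ₂ := -(1 / (2 * ℓ))) (T := ℓ) (v := v) (K := 10 ^ 20 * l ^ 5) (K' := 3 * ℓ)
    (by linarith) (by linarith) (by linarith) (by linarith) hv
    (hLd.differentiableOn.inv fun w hw => hne w hw.1.1 (abs_le.2 hw.2))
    (fun x hx y hy => by
      have a1 := hgood (x + y * I) (by simpa using hx.1) (by simpa using abs_le.2 hy)
      have a2 := norm_pos_iff.2 (hne (x + y * I) (by simpa using hx.1) (by simpa using abs_le.2 hy))
      rw [norm_inv, inv_eq_one_div, div_le_iff₀ a2]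
      exact a1)
    ((hLd.continuous.comp (by fun_prop)).inv₀ fun u => by
      simp only [Function.comp_apply]
      rw [χ.LFunction_eq_LSeries (by rw [hline]; linarith)]
      exact χ.LSeries_ne_zero_of_one_lt_re (by rw [hline]; linarith))
    (fun u => by
      rw [← eq_inv_of_mul_eq_one_right (L_mul_mu χ (by rw [hline]; linarith))]
      refine (norm_LSeries_le_one (norm_mu_le χ) (by rw [hline]; linarith)).trans ?_
      rw [hline, add_sub_cancel_left, one_div_one_div]
      linarith)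
  rw [← h] at hb
  have e : ∑' n, LSeries.term (mu χ) s n * ((√(2 * Real.pi) * gw v n : ℝ) : ℂ) =
      (√(2 * Real.pi) : ℝ) * ∑' n, LSeries.term (mu χ) s n * (gw v n : ℝ) := by
    rw [← tsum_mul_left]
    refine tsum_congr fun n => ?_
    push_cast
    ring
  rw [e, norm_mul, norm_real, Real.norm_of_nonneg sq2pi_pos.le] at hb
  refine (le_mul_of_one_le_left (norm_nonneg _) one_le_sqrt_two_pi).trans (hb.trans (le_of_eq ?_))
  rw [mul_comm v, mul_comm v]
  ring

omit [NeZero N] in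
lemma T_eq (χ : DirichletCharacter ℂ N) (V : ℝ) {s : ℂ} (hs : 1 < s.re) :
    (√(2 * Real.pi) : ℝ) * LSeries (Tc χ V) s =
      ∫ v in Ioi V, ∑' n, LSeries.term (mu χ) s n * (gw v n : ℝ) := by
  have hsum := summable_norm_iff.2 (summable_of_le_one (norm_mu_le χ) hs)
  have h := hasSum_integral_of_summable_integral_norm (μ := volume.restrict (Ioi V))
    (F := fun n v => LSeries.term (mu χ) s n * (gw v n : ℝ))
    (fun n => ((integrable_gw n).ofReal.integrableOn).const_mul _)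
    (by
      refine Summable.of_nonneg_of_le (fun n => integral_nonneg fun v => norm_nonneg _)
        (fun n => ?_) (hsum.mul_right √(2 * Real.pi))
      simp_rw [norm_mul, norm_real, Real.norm_of_nonneg (gw_pos _ n).le]
      rw [integral_const_mul]
      gcongr
      have := tau_le_one V n
      rwa [tau, div_le_one sq2pi_pos] at this)
  rw [← h.tsum_eq, LSeries, ← tsum_mul_left]
  refine tsum_congr fun n => ?_
  rw [integral_const_mul, integral_complex_ofReal]
  rcases eq_or_ne n 0 with rfl | hn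
  · simp
  · have : ((√(2 * Real.pi) : ℝ) : ℂ) ≠ 0 := ofReal_ne_zero.2 sq2pi_pos.ne'
    simp only [LSeries.term_of_ne_zero hn, Tc, tau, ofReal_div]
    field_simp

lemma T_point {χ : DirichletCharacter ℂ N} (hχ : χ ≠ 1) {l ℓ : ℝ} (hl : 1 ≤ l) (hℓ : 28000 * l ≤ ℓ)
    (hg : Good χ l (2 * ℓ)) (t : ℝ) :
    ‖LSeries (Tc χ (ℓ / 10)) ((1 + 1 / ℓ : ℝ) + t * I)‖ * Real.exp (-(1 / 4) * t ^ 2) ≤
      10 ^ 27 * ℓ ^ 6 * Real.exp (-(ℓ / (560000 * l))) := by
  have hℓ1 : 1 ≤ ℓ := by linarith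
  have k0 : 0 < 1 / ℓ := by positivity
  have hre : (((1 + 1 / ℓ : ℝ) : ℂ) + t * I).re = 1 + 1 / ℓ := by simp [-ofReal_add, -ofReal_div]
  have hε : Real.exp (-ℓ ^ 2 / 4) ≤ Real.exp (-(ℓ / (560000 * l))) := by
    gcongr
    have : ℓ / (560000 * l) ≤ ℓ / 4 := by gcongr; linarith
    nlinarith
  have h6 : ℓ ≤ ℓ ^ 6 := le_self_pow₀ hℓ1 (by norm_num)
  rcases le_or_gt |t| ℓ with ht | ht
  · have h1 := T_eq χ (ℓ / 10) (s := (1 + 1 / ℓ : ℝ) + t * I) (by rw [hre]; linarith)
    have a1 : -(1 / (56000 * l)) < 0 := by rw [neg_lt_zero]; positivity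
    have a2 : -(1 / (2 * ℓ)) < 0 := by rw [neg_lt_zero]; positivity
    have i1 := (integrableOn_exp_mul_Ioi a1 (ℓ / 10)).const_mul (10 ^ 20 * l ^ 5)
    have i2 := (integrableOn_exp_mul_Ioi a2 (ℓ / 10)).const_mul
      ((10 ^ 20 * l ^ 5 + 3 * ℓ) * Real.exp (-ℓ ^ 2 / 4))
    have h2 := norm_integral_le_of_norm_le (μ := volume.restrict (Ioi (ℓ / 10)))
      (f := fun v => ∑' n, LSeries.term (mu χ) ((1 + 1 / ℓ : ℝ) + t * I) n * (gw v n : ℝ))
      ((i1.add i2).const_mul 64) (by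
        filter_upwards [ae_restrict_mem measurableSet_Ioi] with v hv
        exact D_bound hχ hl hℓ hg ht (le_trans (by positivity) (le_of_lt hv)))
    simp only [Pi.add_apply] at h2
    rw [← h1, integral_const_mul, integral_add i1 i2, integral_const_mul, integral_const_mul,
      integral_exp_mul_Ioi a1, integral_exp_mul_Ioi a2, norm_mul, norm_real,
      Real.norm_of_nonneg sq2pi_pos.le, neg_div_neg_eq, neg_div_neg_eq, div_div_eq_mul_div,
      div_div_eq_mul_div, div_one, div_one] at h2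
    have h3 := (le_mul_of_one_le_left (norm_nonneg _) one_le_sqrt_two_pi).trans h2
    refine (mul_le_of_le_one_right (norm_nonneg _)
      (Real.exp_le_one_iff.2 (by nlinarith [sq_nonneg t]))).trans (h3.trans ?_)
    have e1 : -(1 / (56000 * l)) * (ℓ / 10) = -(ℓ / (560000 * l)) := by field_simp; ring
    have e2 : Real.exp (-(1 / (2 * ℓ)) * (ℓ / 10)) ≤ 1 :=
      Real.exp_le_one_iff.2 (by nlinarith)
    rw [e1]
    have hlℓ : l ≤ ℓ := by linarith
    have h5 : ℓ ≤ ℓ ^ 5 := le_self_pow₀ hℓ1 (by norm_num)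
    set ε := Real.exp (-(ℓ / (560000 * l))) with hεd
    have hε0 : 0 < ε := Real.exp_pos _
    calc _ ≤ 64 * (10 ^ 20 * ℓ ^ 5 * (ε * (56000 * ℓ)) +
          (10 ^ 20 * ℓ ^ 5 + 3 * ℓ ^ 5) * ε * (1 * (2 * ℓ))) := by gcongr
      _ = (64 * (10 ^ 20 * 56000 + (10 ^ 20 + 3) * 2)) * ℓ ^ 6 * ε := by ring
      _ ≤ _ := by gcongr; norm_num
  · have h1 := norm_LSeries_le_one (norm_Tc_le χ (ℓ / 10)) (s := (1 + 1 / ℓ : ℝ) + t * I)
      (by rw [hre]; linarith)
    rw [hre, add_sub_cancel_left, one_div_one_div] at h1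
    have h2 : Real.exp (-(1 / 4) * t ^ 2) ≤ Real.exp (-ℓ ^ 2 / 4) := by
      gcongr
      have := sq_lt_sq' (by linarith [abs_nonneg t]) ht
      rw [sq_abs] at this
      linarith
    exact mul_le_mul (by linarith) (h2.trans hε) (Real.exp_pos _).le (by positivity)

lemma orth (a b : ZMod N) : ∑ χ : DirichletCharacter ℂ N, star (χ a) * χ b =
    if IsUnit a ∧ a = b then (N.totient : ℂ) else 0 := by
  by_cases ha : IsUnit a
  · simp only [ha, true_and]
    rw [← DirichletCharacter.sum_char_inv_mul_char_eq ℂ ha b]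
    refine Finset.sum_congr rfl fun χ _ => ?_
    obtain ⟨u, rfl⟩ := ha
    rw [MulChar.star_apply', MulChar.inv_apply, Ring.inverse_unit, ZMod.inv_coe_unit]
  · simp [ha, MulChar.map_nonunit _ ha]

lemma parseval (B : ZMod N → ℂ) : ∑ χ : DirichletCharacter ℂ N, ‖∑ a, χ a * B a‖ ^ 2 ≤
    N.totient * ∑ a, ‖B a‖ ^ 2 := by
  have h : ((∑ χ : DirichletCharacter ℂ N, ‖∑ a, χ a * B a‖ ^ 2 : ℝ) : ℂ) =
      ((∑ a, if IsUnit a then N.totient * ‖B a‖ ^ 2 else 0 : ℝ) : ℂ) := by
    push_cast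
    have e : ∀ χ : DirichletCharacter ℂ N, ((‖∑ a, χ a * B a‖ : ℝ) : ℂ) ^ 2 =
        ∑ a, ∑ b, star (B a) * B b * (star (χ a) * χ b) := by
      intro χ
      rw [← conj_mul', map_sum, Finset.sum_mul_sum]
      refine Finset.sum_congr rfl fun a _ => Finset.sum_congr rfl fun b _ => ?_
      simp only [map_mul, star_def]
      ring
    simp_rw [e]
    rw [Finset.sum_comm]
    refine Finset.sum_congr rfl fun a _ => ?_
    rw [Finset.sum_comm]
    simp_rw [← Finset.mul_sum, orth]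
    split_ifs with ha
    · simp only [ha, true_and, mul_ite, mul_zero, Finset.sum_ite_eq, Finset.mem_univ, if_true]
      push_cast
      rw [star_def, conj_mul', mul_comm]
    · simp [ha]
  rw [ofReal_injective h, Finset.mul_sum]
  refine Finset.sum_le_sum fun a _ => ?_
  split_ifs
  · exact le_rfl
  · positivity

lemma T_mean {ℓ V : ℝ} (hℓ : 1 ≤ ℓ) (hV : 2 * N ≤ Real.exp V) (t : ℝ) :
    ∑ χ : DirichletCharacter ℂ N, ‖LSeries (Tc χ V) ((1 + 1 / ℓ : ℝ) + t * I)‖ ^ 2 ≤ 9 * ℓ ^ 2 := by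
  have k0 : 0 < 1 / ℓ := by positivity
  have hN : (0 : ℝ) < N := by exact_mod_cast NeZero.pos N
  have hN1 : (1 : ℝ) ≤ N := by exact_mod_cast NeZero.pos N
  set s : ℂ := (1 + 1 / ℓ : ℝ) + t * I with hs
  have hre : s.re = 1 + 1 / ℓ := by simp [hs, -ofReal_add, -ofReal_div]
  set c : ℕ → ℂ := fun n => ((moebius n : ℤ) : ℂ) * tau V n with hc
  have hc1 : ∀ n, ‖c n‖ ≤ tau V n := by
    intro n
    rw [hc, norm_mul, norm_real, Real.norm_of_nonneg (tau_nonneg V n)]
    exact mul_le_of_le_one_left (tau_nonneg V n) (norm_moebius_le n)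
  have e : ∀ χ : DirichletCharacter ℂ N, LSeries (Tc χ V) s =
      ∑ a : ZMod N, χ a * ∑' m, LSeries.term c s (a.val + N * m) := by
    intro χ
    rw [LSeries, Nat.sumByResidueClasses (summable_of_le_one (norm_Tc_le χ V) (by linarith)) N]
    refine Finset.sum_congr rfl fun a _ => ?_
    rw [← tsum_mul_left]
    refine tsum_congr fun m => ?_
    rcases eq_or_ne (a.val + N * m) 0 with h | h
    · simp [h]
    · simp only [LSeries.term_of_ne_zero h, Tc, hc, Pi.mul_apply, ch]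
      have : ((a.val + N * m : ℕ) : ZMod N) = a := by simp
      rw [this]
      ring
  simp_rw [e]
  refine (parseval _).trans ?_
  have hB : ∀ a : ZMod N, ‖∑' m, LSeries.term c s (a.val + N * m)‖ ≤ 3 * ℓ / N := by
    intro a
    have h0 : ‖LSeries.term c s a.val‖ ≤ 1 / N := by
      rcases eq_or_ne a.val 0 with h | h
      · simp [h]
      · rw [LSeries.norm_term_eq, if_neg h, hre]
        have ha : (1 : ℝ) ≤ a.val := by exact_mod_cast Nat.one_le_iff_ne_zero.2 h
        have h1 : (a.val : ℝ) ≤ (a.val : ℝ) ^ (1 + 1 / ℓ) :=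
          Real.self_le_rpow_of_one_le ha (by linarith)
        calc _ ≤ 2 * a.val * Real.exp (-V) / a.val := by
              gcongr
              exact (hc1 _).trans (tau_le V h)
          _ = 2 / Real.exp V := by rw [Real.exp_neg]; field_simp
          _ ≤ 2 / (2 * N) := by gcongr
          _ = 1 / N := by field_simp
    have h1 : ∀ m : ℕ, ‖LSeries.term c s (a.val + N * (m + 1))‖ ≤
        1 / N * ((m : ℝ) + 1) ^ (-1 - 1 / ℓ) := by
      intro m
      have hpos : 0 < a.val + N * (m + 1) := by have := NeZero.pos N; positivity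
      rw [LSeries.norm_term_eq, if_neg hpos.ne', hre]
      have h2 : N * ((m : ℝ) + 1) ^ (1 + 1 / ℓ) ≤ ((a.val + N * (m + 1) : ℕ) : ℝ) ^ (1 + 1 / ℓ) := by
        calc N * ((m : ℝ) + 1) ^ (1 + 1 / ℓ) ≤ (N : ℝ) ^ (1 + 1 / ℓ) * ((m : ℝ) + 1) ^ (1 + 1 / ℓ) := by
              gcongr
              exact Real.self_le_rpow_of_one_le hN1 (by linarith)
          _ = (N * ((m : ℝ) + 1)) ^ (1 + 1 / ℓ) := (Real.mul_rpow hN.le (by positivity)).symm
          _ ≤ _ := by
              gcongr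
              push_cast
              linarith [(a.val).cast_nonneg (α := ℝ)]
      calc _ ≤ 1 / (N * ((m : ℝ) + 1) ^ (1 + 1 / ℓ)) := by
            gcongr
            exact (hc1 _).trans (tau_le_one V _)
        _ = _ := by
            rw [show -1 - 1 / ℓ = -(1 + 1 / ℓ) by ring, Real.rpow_neg (by positivity)]
            field_simp
    have hs1 := (summable_succ k0).mul_left (1 / (N : ℝ))
    have hs2 : Summable fun m => LSeries.term c s (a.val + N * m) := by
      rw [← summable_nat_add_iff 1]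
      exact Summable.of_norm_bounded hs1 h1
    rw [hs2.tsum_eq_zero_add]
    refine (norm_add_le _ _).trans ?_
    have h3 := tsum_of_norm_bounded hs1.hasSum h1
    rw [tsum_mul_left] at h3
    have h4 := tsum_succ_le k0
    rw [one_div_one_div] at h4
    simp only [mul_zero, add_zero]
    calc _ ≤ 1 / N + 1 / N * (1 + ℓ) := by
          refine add_le_add h0 (h3.trans ?_)
          gcongr
      _ = (2 + ℓ) / N := by ring
      _ ≤ _ := by gcongr; linarith
  have hφ : (N.totient : ℝ) ≤ N := by exact_mod_cast Nat.totient_le N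
  calc _ ≤ (N : ℝ) * ∑ _a : ZMod N, (3 * ℓ / N) ^ 2 := by
        gcongr with a
        exact hB a
    _ = 9 * ℓ ^ 2 := by
        simp only [Finset.sum_const, Finset.card_univ, ZMod.card, nsmul_eq_mul]
        field_simp
        norm_num

end

end Pool.Agent.Lib.MP_b09185_nt.Mai
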