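import Pool.Agent.Lib.MP_b09185_nt.MaiCore
import Pool.Agent.Lib.PNT.Main

/-! Transfer from sieved intervals to primes in short intervals. -/

namespace Pool.Agent.Lib.MP_b09185_nt.Mai

open Filter Topology ArithmeticFunction Finset Chebyshev

noncomputable def RR (a x : ℝ) : ℝ :=
  Real.log x / Real.log x ^ a *
    ((Nat.primeCounting ⌊x + Real.log x ^ a⌋₊ : ℝ) - (Nat.primeCounting ⌊x⌋₊ : ℝ))

lemma pi_eq (n : ℕ) : (Nat.primeCounting n : ℝ) = ∑ k ∈ Ioc 0 n, if k.Prime then 1 else 0 := by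
  induction n with
  | zero => simp
  | succ n ih =>
    rw [sum_Ioc_succ_top (Nat.zero_le n), ← ih, Nat.primeCounting, Nat.primeCounting',
      Nat.count_succ, Nat.primeCounting, Nat.primeCounting']
    push_cast
    rfl

lemma pi_sub {x w : ℝ} (h : x ≤ w) : (Nat.primeCounting ⌊w⌋₊ : ℝ) - Nat.primeCounting ⌊x⌋₊ =
    ∑ k ∈ Ioc ⌊x⌋₊ ⌊w⌋₊, if k.Prime then 1 else 0 := by
  rw [sum_Ioc_sub _ (Nat.floor_mono h), pi_eq, pi_eq]

lemma theta_sub_ge {x w : ℝ} (hx : 0 < x) (h : x ≤ w) :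
    Real.log x * ((Nat.primeCounting ⌊w⌋₊ : ℝ) - Nat.primeCounting ⌊x⌋₊) ≤ theta w - theta x := by
  rw [pi_sub h, theta_sub h, mul_sum]
  refine sum_le_sum fun n hn => ?_
  rw [th]
  split_ifs
  · rw [mul_one]
    exact Real.log_le_log hx ((Nat.floor_lt hx.le).1 (mem_Ioc.1 hn).1).le
  · simp

lemma theta_sub_le {x w : ℝ} (hx : 0 < x) (h : x ≤ w) :
    theta w - theta x ≤ Real.log w * ((Nat.primeCounting ⌊w⌋₊ : ℝ) - Nat.primeCounting ⌊x⌋₊) := by
  rw [pi_sub h, theta_sub h, mul_sum]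
  refine sum_le_sum fun n hn => ?_
  rw [th]
  split_ifs with hp
  · rw [mul_one]
    exact Real.log_le_log (by exact_mod_cast hp.pos)
      ((Nat.le_floor_iff (by linarith)).1 (mem_Ioc.1 hn).2)
  · simp

lemma cover_lower {G h : ℝ → ℝ} (hG : Monotone G) {x E H c : ℝ} (hc : 0 ≤ c) (hx : x ≤ E)
    (hh : ∀ w, x ≤ w → w ≤ E → 1 ≤ h w ∧ h w ≤ H ∧ c * h w ≤ G (w + h w) - G w) :
    c * (E - x - H) ≤ G E - G x := by
  have key : ∀ n : ℕ, ∀ w, x ≤ w → w ≤ E → E - w ≤ n → c * (E - w - H) ≤ G E - G w := by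
    intro n
    induction n with
    | zero =>
      intro w h1 h2 h3
      obtain ⟨a1, a2, -⟩ := hh w h1 h2
      have := hG h2
      simp only [Nat.cast_zero] at h3
      nlinarith
    | succ n ih =>
      intro w h1 h2 h3
      obtain ⟨a1, a2, a3⟩ := hh w h1 h2
      rcases le_or_gt (w + h w) E with h4 | h4
      · push_cast at h3
        have := ih (w + h w) (by linarith) h4 (by linarith)
        linarith
      · have := hG h2
        nlinarith
  exact key ⌈E - x⌉₊ x le_rfl hx (Nat.le_ceil _)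

lemma cover_upper {G h : ℝ → ℝ} (hG : Monotone G) {x E H c : ℝ} (hc : 0 ≤ c) (hx : x ≤ E)
    (hh : ∀ w, x ≤ w → w ≤ E → 1 ≤ h w ∧ h w ≤ H ∧ G (w + h w) - G w ≤ c * h w) :
    G E - G x ≤ c * (E - x + H) := by
  have key : ∀ n : ℕ, ∀ w, x ≤ w → w ≤ E → E - w ≤ n → G E - G w ≤ c * (E - w + H) := by
    intro n
    induction n with
    | zero =>
      intro w h1 h2 h3
      obtain ⟨a1, a2, a3⟩ := hh w h1 h2
      simp only [Nat.cast_zero] at h3
      have := hG (show E ≤ w + h w by linarith)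
      nlinarith
    | succ n ih =>
      intro w h1 h2 h3
      obtain ⟨a1, a2, a3⟩ := hh w h1 h2
      rcases le_or_gt (w + h w) E with h4 | h4
      · push_cast at h3
        have := ih (w + h w) (by linarith) h4 (by linarith)
        linarith
      · have := hG h4.le
        nlinarith
  exact key ⌈E - x⌉₊ x le_rfl hx (Nat.le_ceil _)

lemma one_le_log {w : ℝ} (hw : 3 ≤ w) : 1 ≤ Real.log w := by
  rw [Real.le_log_iff_exp_le (by linarith)]
  linarith [Real.exp_one_lt_d9]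

lemma step_size {a w E L : ℝ} (ha : 0 < a) (hw : 3 ≤ w) (hE : w ≤ E) (hL : Real.log E ≤ L) :
    1 ≤ Real.log w ^ a ∧ Real.log w ^ a ≤ L ^ a := by
  have h1 := one_le_log hw
  refine ⟨Real.one_le_rpow h1 ha.le, Real.rpow_le_rpow (by linarith) ?_ ha.le⟩
  exact (Real.log_le_log (by linarith) hE).trans hL

lemma step_lower {a c : ℝ} (H : ∀ᶠ w in atTop, c ≤ RR a w) :
    ∀ᶠ w in atTop, c * Real.log w ^ a ≤ theta (w + Real.log w ^ a) - theta w := by
  filter_upwards [H, eventually_ge_atTop 3] with w h hw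
  have h1 := one_le_log hw
  have h2 : 0 < Real.log w ^ a := by positivity
  refine le_trans ?_ (theta_sub_ge (by linarith) (by linarith))
  rw [RR, div_mul_eq_mul_div, le_div_iff₀ h2] at h
  exact h

lemma step_upper {a c η : ℝ} (hη : 0 < η) (H : ∀ᶠ w in atTop, RR a w ≤ c) :
    ∀ᶠ w in atTop, theta (w + Real.log w ^ a) - theta w ≤ c * (1 + η) * Real.log w ^ a := by
  have t1 := (isLittleO_log_rpow_rpow_atTop a one_pos).bound one_pos
  filter_upwards [H, eventually_ge_atTop 3, t1,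
    Real.tendsto_log_atTop.eventually_ge_atTop (1 / η)] with w h hw h3 h4
  have h1 := one_le_log hw
  have h2 : 0 < Real.log w ^ a := by positivity
  rw [Real.rpow_one, one_mul, Real.norm_of_nonneg h2.le, Real.norm_of_nonneg (by linarith)] at h3
  refine (theta_sub_le (by linarith) (by linarith)).trans ?_
  rw [RR, div_mul_eq_mul_div, div_le_iff₀ h2] at h
  have h5 : Real.log (w + Real.log w ^ a) ≤ (1 + η) * Real.log w := by
    have a1 : Real.log (w + Real.log w ^ a) ≤ Real.log (2 * w) :=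
      Real.log_le_log (by linarith) (by linarith)
    rw [Real.log_mul (by norm_num) (by linarith)] at a1
    rw [div_le_iff₀ hη] at h4
    linarith [Real.log_two_lt_d9]
  have h6 : 0 ≤ (Nat.primeCounting ⌊w + Real.log w ^ a⌋₊ : ℝ) - Nat.primeCounting ⌊w⌋₊ := by
    rw [pi_sub (by linarith)]
    exact sum_nonneg fun n _ => by split_ifs <;> norm_num
  calc _ ≤ (1 + η) * Real.log w *
        ((Nat.primeCounting ⌊w + Real.log w ^ a⌋₊ : ℝ) - Nat.primeCounting ⌊w⌋₊) := by gcongr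
    _ = (1 + η) * (Real.log w *
        ((Nat.primeCounting ⌊w + Real.log w ^ a⌋₊ : ℝ) - Nat.primeCounting ⌊w⌋₊)) := by ring
    _ ≤ (1 + η) * (c * Real.log w ^ a) := by gcongr
    _ = _ := by ring

lemma par_eventually {δ η : ℝ} (hδ : 0 < δ) (hη : 0 < η) (hη1 : η ≤ 1 / 10) : ∀ᶠ z : ℝ in atTop,
    ∀ Q y : ℕ, 0 < Q → (Q : ℝ) ≤ Real.exp (2 * z) → (y : ℝ) ≤ Real.exp z →
      Equi Q (z ^ (1 + δ)) η → Par Q y (z ^ (1 + δ)) η := by
  obtain ⟨C, hC⟩ := psi_sub_theta_le_mul_sqrt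
  have t0 : Tendsto (fun z : ℝ => z ^ δ) atTop atTop := tendsto_rpow_atTop hδ
  have p1 := PNT.theta_tendsto.eventually_const_le (show 1 - η < 1 by linarith)
  have p2 := PNT.psi_tendsto.eventually_le_const (show 1 < 1 + η by linarith)
  obtain ⟨w₀, hw₀⟩ := eventually_atTop.1 (p1.and p2)
  have t1 := Real.tendsto_exp_atTop.eventually_ge_atTop ((|C| + 1) / η)
  have t2 := Real.tendsto_exp_atTop.eventually_ge_atTop w₀
  filter_upwards [eventually_ge_atTop 1, t0.eventually_ge_atTop 6, t1, t2]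
    with z hz h0 h1 h2 Q y hQ hQz hyz hE
  have hz0 : 0 < z := by linarith
  have e : z ^ (1 + δ) = z * z ^ δ := by rw [Real.rpow_add hz0, Real.rpow_one]
  have h3 : Real.exp z * Real.exp (2 * z) ≤ Real.exp (z ^ (1 + δ) / 2) := by
    rw [← Real.exp_add, e]
    exact Real.exp_le_exp.2 (by nlinarith)
  rw [div_le_iff₀ hη] at h1
  have h4 : (|C| + 1) * Real.exp (2 * z) ≤ η * Real.exp (z ^ (1 + δ) / 2) := by
    calc _ ≤ Real.exp z * η * Real.exp (2 * z) := by gcongr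
      _ = η * (Real.exp z * Real.exp (2 * z)) := by ring
      _ ≤ _ := by gcongr
  have h5 : Real.exp z ≤ Real.exp (2 * z) := Real.exp_le_exp.2 (by linarith)
  have h6 := abs_nonneg C
  have h7 := Real.exp_pos (2 * z)
  have h8 : 1 ≤ Real.exp (2 * z) := Real.one_le_exp (by linarith)
  refine ⟨hQ, hη1, by positivity, by nlinarith, by nlinarith, fun w hw => ?_, fun w hw => ?_, hE⟩
  · have hw0 : 0 < w := (Real.exp_pos _).trans_le hw
    obtain ⟨a1, a2⟩ := hw₀ w (by nlinarith [Real.exp_pos z])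
    exact ⟨(le_div_iff₀ hw0).1 a1, (div_le_iff₀ hw0).1 a2⟩
  · have hw0 : 0 < w := (Real.exp_pos _).trans_le hw
    have a1 : Real.exp (z ^ (1 + δ) / 2) ≤ √w := by
      rw [Real.le_sqrt (Real.exp_pos _).le hw0.le, ← Real.exp_nat_mul]
      convert hw using 2
      push_cast
      ring
    have a2 : psi w - theta w ≤ (|C| + 1) * √w :=
      (hC w).trans (mul_le_mul_of_nonneg_right (by linarith [le_abs_self C]) (Real.sqrt_nonneg w))
    calc _ ≤ Real.exp (2 * z) * ((|C| + 1) * √w) :=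
          mul_le_mul hQz a2 (by linarith [theta_le_psi w]) h7.le
      _ = (|C| + 1) * Real.exp (2 * z) * √w := by ring
      _ ≤ η * √w * √w := by
          exact mul_le_mul_of_nonneg_right (h4.trans (by gcongr)) (Real.sqrt_nonneg w)
      _ = η * w := by rw [mul_assoc, Real.mul_self_sqrt hw0.le]

lemma Sv_eq (Q t y : ℕ) : Sv Q t y = ∑ j ∈ range y, if (t + j + 1).Coprime Q then 1 else 0 := by
  rw [Sv, card_filter]

lemma Sv_mono (Q t : ℕ) {y y' : ℕ} (h : y ≤ y') : Sv Q t y ≤ Sv Q t y' :=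
  card_le_card (filter_subset_filter _ (range_mono h))

lemma Sv_le_add (Q t y k : ℕ) : Sv Q t (y + k) ≤ Sv Q t y + k := by
  rw [Sv_eq, Sv_eq, sum_range_add]
  gcongr
  refine (sum_le_card_nsmul _ _ 1 fun _ _ => by split_ifs <;> simp).trans (by simp)

lemma sum_range_mul (F : ℕ → ℕ) (p m : ℕ) :
    ∑ j ∈ range (p * m), F j = ∑ i ∈ range p, ∑ k ∈ range m, F (p * k + i) := by
  induction m with
  | zero => simp
  | succ m ih =>
    rw [Nat.mul_succ, sum_range_add, ih, ← sum_add_distrib]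
    exact sum_congr rfl fun i _ => (sum_range_succ _ _).symm

lemma Sv_split {p Q : ℕ} (hQ : 0 < Q) (hp : 0 < p) (hpQ : p.Coprime Q) (t m : ℕ) :
    ∃ s : ℕ → ℕ, Sv (p * Q) t (p * m) =
      ∑ i ∈ (range p).filter fun i => (t + i + 1).Coprime p, Sv Q (s i) m := by
  refine ⟨fun i => (t + i + 1) * p ^ (Q.totient - 1) - 1, ?_⟩
  rw [Sv_eq, sum_range_mul, sum_filter]
  refine sum_congr rfl fun i _ => ?_
  have h1 : ∀ k, (t + (p * k + i) + 1).Coprime p ↔ (t + i + 1).Coprime p := by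
    intro k
    rw [show t + (p * k + i) + 1 = t + i + 1 + p * k by ring, Nat.coprime_add_mul_left_left]
  have h2 : ∀ k, (t + (p * k + i) + 1).Coprime Q ↔
      ((t + i + 1) * p ^ (Q.totient - 1) - 1 + k + 1).Coprime Q := by
    intro k
    have a1 : 0 < (t + i + 1) * p ^ (Q.totient - 1) := by positivity
    have a2 : (t + i + 1) * p ^ (Q.totient - 1) - 1 + k + 1 =
        (t + i + 1) * p ^ (Q.totient - 1) + k := by omega
    have a3 : p * ((t + i + 1) * p ^ (Q.totient - 1) + k) ≡ t + (p * k + i) + 1 [MOD Q] := by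
      have a4 : p * ((t + i + 1) * p ^ (Q.totient - 1) + k) = (t + i + 1) * p ^ Q.totient + p * k := by
        conv_rhs => rw [← Nat.sub_add_cancel (Nat.totient_pos.2 hQ), pow_succ]
        ring
      rw [a4, show t + (p * k + i) + 1 = (t + i + 1) * 1 + p * k by ring]
      exact ((Nat.ModEq.pow_totient hpQ).mul_left _).add_right _
    rw [a2, Nat.Coprime, ← a3.gcd_eq, ← Nat.Coprime, Nat.coprime_mul_iff_left, and_iff_right hpQ]
  split_ifs with h
  · rw [Sv_eq]
    refine sum_congr rfl fun k _ => ?_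
    simp only [Nat.coprime_mul_iff_right, h1, h2, eq_true h, true_and]
  · refine sum_eq_zero fun k _ => ?_
    simp only [Nat.coprime_mul_iff_right, h1, h, false_and, if_false]

lemma card_cop {p : ℕ} (hp : p.Prime) (t : ℕ) :
    ((range p).filter fun i => (t + i + 1).Coprime p).card = p - 1 := by
  rw [← Nat.totient_prime hp, ← Nat.filter_coprime_Ico_eq_totient p (t + 1), card_filter,
    card_filter, sum_Ico_eq_sum_range]
  simp only [add_tsub_cancel_left]
  refine sum_congr rfl fun i _ => ?_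
  simp only [Nat.coprime_comm (m := p), show t + 1 + i = t + i + 1 by ring]

lemma drop_small {p Q : ℕ} (hQ : 0 < Q) (hp : p.Prime) (hpQ : p.Coprime Q) (t y : ℕ) :
    (∃ s, (p - 1) * Sv Q s (y / p) ≤ Sv (p * Q) t y) ∧
      ∃ s, Sv (p * Q) t y ≤ (p - 1) * Sv Q s (y / p) + p := by
  obtain ⟨s, hs⟩ := Sv_split hQ hp.pos hpQ t (y / p)
  have hne : ((range p).filter fun i => (t + i + 1).Coprime p).Nonempty := by
    rw [← card_pos, card_cop hp]
    have := hp.two_le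
    omega
  constructor
  · obtain ⟨i, -, hi⟩ := exists_min_image _ (fun i => Sv Q (s i) (y / p)) hne
    refine ⟨s i, le_trans ?_ (Sv_mono _ _ (Nat.mul_div_le y p))⟩
    rw [hs, ← card_cop hp t]
    exact card_nsmul_le_sum _ _ _ hi
  · obtain ⟨i, -, hi⟩ := exists_max_image _ (fun i => Sv Q (s i) (y / p)) hne
    refine ⟨s i, ?_⟩
    have h1 : y ≤ p * (y / p) + p := by
      have := Nat.div_add_mod y p
      have := Nat.mod_lt y hp.pos
      omega
    refine (Sv_mono _ _ h1).trans ((Sv_le_add _ _ _ _).trans ?_)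
    rw [hs, ← card_cop hp t]
    gcongr
    exact sum_le_card_nsmul _ _ _ hi

lemma drop_large {p : ℕ} (Q : ℕ) (hp : p.Prime) (t y : ℕ) :
    (Sv Q t y : ℝ) ≤ Sv (p * Q) t y + (y / p + 1) ∧ Sv (p * Q) t y ≤ Sv Q t y := by
  constructor
  · have h1 := count_le hp.pos 0 (a := t + 1) (b := t + 1 + y) (by omega)
    rw [card_filter, sum_Ico_eq_sum_range] at h1
    simp only [add_tsub_cancel_left] at h1
    push_cast at h1
    rw [add_sub_cancel_left] at h1
    refine le_trans ?_ (add_le_add_right h1 _)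
    rw [Sv_eq, Sv_eq]
    push_cast
    rw [← sum_add_distrib]
    refine sum_le_sum fun j _ => ?_
    have a0 : (t + j + 1).Coprime p ↔ ¬ p ∣ t + j + 1 := by
      rw [Nat.coprime_comm, hp.coprime_iff_not_dvd]
    simp only [Nat.coprime_mul_iff_right, Nat.modEq_zero_iff_dvd,
      show t + 1 + j = t + j + 1 by ring, a0]
    split_ifs <;> first | tauto | norm_num
  · exact card_le_card (monotone_filter_right _ fun j _ h => (Nat.coprime_mul_iff_right.1 h).2)

/-- size conditions on a sieve configuration -/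
structure Conf (u z : ℝ) (P y : ℕ) : Prop where
  sq : Squarefree P
  Ple : (P : ℝ) ≤ Real.exp (2 * z)
  yge : z ^ u ≤ y
  yle : (y : ℝ) ≤ Real.exp z
  φge : (P : ℝ) ≤ Real.log z ^ 2 * P.totient

lemma drop {u u₁ η : ℝ} (hu₁ : 0 < u₁) (hu : u₁ < u) (hη : 0 < η) (hη1 : η ≤ 1) :
    ∀ᶠ z : ℝ in atTop, ∀ P y : ℕ, Conf u z P y → ∀ Q : ℕ, (Q = P ∨ ∃ p, p.Prime ∧ P = p * Q) →
      ∀ (t : ℕ) (ρ : ℝ), 0 ≤ ρ →
      ((Sv P t y : ℝ) ≤ ρ * y * P.totient / P → ∃ t' y' : ℕ, z ^ u₁ ≤ y' ∧ y' ≤ y ∧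
        (Sv Q t' y' : ℝ) ≤ (ρ * (1 + η) + η) * y' * Q.totient / Q) ∧
      (ρ * y * P.totient / P ≤ Sv P t y → ∃ t' y' : ℕ, z ^ u₁ ≤ y' ∧ y' ≤ y ∧
        (ρ * (1 - η) - η) * y' * Q.totient / Q ≤ Sv Q t' y') := by
  set κ := min ((u - u₁) / 2) u₁ with hκ
  have hκ0 : 0 < κ := lt_min (by linarith) hu₁
  have t1 := (isLittleO_log_rpow_rpow_atTop 2 hκ0).bound (half_pos hη)
  filter_upwards [eventually_ge_atTop 3, t1, (tendsto_rpow_atTop hκ0).eventually_ge_atTop 2]
    with z hz h1 h2 P y hc Q hQ t ρ hρ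
  have hz0 : 0 < z := by linarith
  have hlog := one_le_log hz
  rw [Real.norm_of_nonneg (by positivity), Real.norm_of_nonneg (by positivity),
    Real.rpow_two] at h1
  set w := z ^ κ with hw
  have hw1 : w ≤ z ^ u₁ := Real.rpow_le_rpow_of_exponent_le (by linarith) (min_le_right _ _)
  have hw2 : z ^ u₁ * w * w ≤ y := by
    refine le_trans ?_ hc.yge
    rw [hw, ← Real.rpow_add hz0, ← Real.rpow_add hz0]
    exact Real.rpow_le_rpow_of_exponent_le (by linarith) (by linarith [min_le_left ((u - u₁) / 2) u₁])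
  have hzu : 0 < z ^ u₁ := by positivity
  have hy1 : z ^ u₁ * w ≤ y := by nlinarith
  have hy2 : z ^ u₁ ≤ y := by nlinarith
  have hP0 : (0 : ℝ) < P := by exact_mod_cast Nat.pos_of_ne_zero hc.sq.ne_zero
  have hφP : (0 : ℝ) < P.totient := by
    exact_mod_cast Nat.totient_pos.2 (Nat.pos_of_ne_zero hc.sq.ne_zero)
  have hsmall : 2 / w ≤ η * (P.totient / P) := by
    rw [div_le_iff₀ (by linarith), mul_div_assoc', div_mul_eq_mul_div, le_div_iff₀ hP0]
    nlinarith [hc.φge]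
  rcases hQ with rfl | ⟨p, hp, rfl⟩
  · refine ⟨fun h => ⟨t, y, hy2, le_rfl, h.trans ?_⟩, fun h => ⟨t, y, hy2, le_rfl, le_trans ?_ h⟩⟩
    · gcongr; nlinarith
    · gcongr; nlinarith
  have hQ0 : 0 < Q := Nat.pos_of_ne_zero fun h => hc.sq.ne_zero (by simp [h])
  have hpQ : p.Coprime Q := Nat.coprime_of_squarefree_mul hc.sq
  have hQ' : (0 : ℝ) < Q := by exact_mod_cast hQ0
  have hp' : (2 : ℝ) ≤ p := by exact_mod_cast hp.two_le
  set r : ℝ := Q.totient / Q with hr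
  have hr0 : 0 < r := div_pos (by exact_mod_cast Nat.totient_pos.2 hQ0) hQ'
  have hφ : ((p * Q).totient : ℝ) / (p * Q : ℕ) = (p - 1) / p * r := by
    rw [Nat.totient_mul hpQ, Nat.totient_prime hp, hr]
    push_cast [Nat.cast_sub hp.one_le]
    field_simp
  have hq1 : ((p : ℝ) - 1) / p ≤ 1 := by rw [div_le_one (by linarith)]; linarith
  have hsm : 2 / w ≤ η * r := by
    refine hsmall.trans ?_
    rw [hφ]
    gcongr
    exact mul_le_of_le_one_left hr0.le hq1
  rw [div_le_iff₀ (by linarith)] at hsm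
  have hr1 : r ≤ 1 := by
    rw [hr, div_le_one hQ']; exact_mod_cast Nat.totient_le Q
  simp only [mul_div_assoc, hφ, ← hr]
  rcases le_or_gt (p : ℝ) w with hpw | hpw
  · obtain ⟨⟨s, hs⟩, s', hs'⟩ := drop_small hQ0 hp hpQ t y
    have a1 : (y : ℝ) < p * ((y / p : ℕ) + 1) := by
      exact_mod_cast Nat.lt_mul_div_succ y hp.pos
    have a2 : (p : ℝ) * (y / p : ℕ) ≤ y := by exact_mod_cast Nat.mul_div_le y p
    set m : ℝ := ((y / p : ℕ) : ℝ) with hm
    have a3 : z ^ u₁ * w ≤ m + 1 := by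
      have : w * (z ^ u₁ * w) ≤ w * (m + 1) := by
        have : p * (m + 1) ≤ w * (m + 1) := by gcongr
        linarith
      exact le_of_mul_le_mul_left this (by linarith)
    have a4 : z ^ u₁ ≤ m := by nlinarith
    have a5 : 2 ≤ η * r * m := hsm.trans (by gcongr; linarith)
    have a6 : 1 ≤ η * m := by nlinarith
    refine ⟨fun h => ⟨s, y / p, a4, Nat.div_le_self _ _, ?_⟩,
      fun h => ⟨s', y / p, a4, Nat.div_le_self _ _, ?_⟩⟩
    · have b1 : ((p : ℝ) - 1) * Sv Q s (y / p) ≤ Sv (p * Q) t y := by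
        rw [← Nat.cast_pred hp.pos]; exact_mod_cast hs
      have b2 : ρ * y * ((p - 1) / p * r) ≤ (p - 1) * (ρ * (m + 1) * r) := by
        calc _ ≤ ρ * (p * (m + 1)) * ((p - 1) / p * r) := by
              gcongr
              exact mul_nonneg (div_nonneg (by linarith) (by linarith)) hr0.le
          _ = _ := by field_simp
      have b3 := le_of_mul_le_mul_left (b1.trans (h.trans b2)) (by linarith)
      refine b3.trans ?_
      have b4 : ρ * (m + 1) ≤ (ρ * (1 + η) + η) * m := by nlinarith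
      calc _ ≤ (ρ * (1 + η) + η) * m * r := by gcongr
        _ = _ := by ring
    · have b1 : (Sv (p * Q) t y : ℝ) ≤ ((p : ℝ) - 1) * Sv Q s' (y / p) + p := by
        rw [← Nat.cast_pred hp.pos]; exact_mod_cast hs'
      have b2 : (p - 1) * (ρ * m * r) ≤ ρ * y * ((p - 1) / p * r) := by
        calc _ = ρ * (p * m) * ((p - 1) / p * r) := by field_simp
          _ ≤ _ := by
              gcongr
              exact mul_nonneg (div_nonneg (by linarith) (by linarith)) hr0.le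
      have b3 : ((p : ℝ) - 1) * (ρ * m * r) ≤ (p - 1) * (Sv Q s' (y / p) + 2) := by linarith
      have b4 := le_of_mul_le_mul_left b3 (by linarith)
      have b5 : 0 ≤ ρ * η * m * r := by positivity
      nlinarith
  · obtain ⟨hs, hs'⟩ := drop_large Q hp t y
    have hy0 : (0 : ℝ) ≤ y := by positivity
    refine ⟨fun h => ⟨t, y, hy2, le_rfl, ?_⟩, fun h => ⟨t, y, hy2, le_rfl, ?_⟩⟩
    · have b1 : ρ * y * ((p - 1) / p * r) ≤ ρ * y * r := by
        gcongr
        exact mul_le_of_le_one_left hr0.le hq1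
      have b2 : (y : ℝ) / p ≤ y / w := by gcongr
      have b3 : 1 ≤ (y : ℝ) / w := by rw [le_div_iff₀ (by linarith)]; linarith
      have b4 : 2 * (y / w) ≤ η * r * y := by
        rw [mul_div_assoc', div_le_iff₀ (by linarith)]
        nlinarith
      have b5 : 0 ≤ ρ * η * y * r := by positivity
      nlinarith
    · have b1 : 1 - η ≤ ((p : ℝ) - 1) / p := by
        rw [le_div_iff₀ (by linarith)]
        nlinarith
      have b2 : ρ * y * ((1 - η) * r) ≤ ρ * y * ((p - 1) / p * r) := by gcongr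
      have b3 : (Sv (p * Q) t y : ℝ) ≤ Sv Q t y := by exact_mod_cast hs'
      have b5 : 0 ≤ η * y * r := by positivity
      nlinarith

lemma row_setup {a u₁ δ η x₀ : ℝ} (hδ : 0 < δ) (hu : (1 + δ) * a < u₁) (hη : 0 < η) :
    ∀ᶠ z : ℝ in atTop, ∀ x y : ℕ, z ^ u₁ ≤ y → (y : ℝ) ≤ Real.exp z →
      Real.exp (z ^ (1 + δ) / 2) / 2 ≤ x → x ≤ Real.exp (3 * z ^ (1 + δ) / 2) →
      x₀ ≤ x ∧ Real.log (x + y) ≤ 2 * z ^ (1 + δ) ∧ (2 * z ^ (1 + δ)) ^ a ≤ η * y := by
  have t0 := (tendsto_rpow_atTop (sub_pos.2 hu)).eventually_ge_atTop (2 ^ a / η)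
  filter_upwards [eventually_ge_atTop 2, eventually_ge_atTop (4 * x₀), t0]
    with z hz hz2 h0 x y h1 h2 h3 h4
  have hz0 : 0 < z := by linarith
  have h5 : z ≤ z ^ (1 + δ) := Real.self_le_rpow_of_one_le (by linarith) (by linarith)
  have h6 := Real.add_one_le_exp (z ^ (1 + δ) / 2)
  refine ⟨by linarith, ?_, ?_⟩
  · rw [Real.log_le_iff_le_exp (by linarith [y.cast_nonneg (α := ℝ)])]
    have a1 : Real.exp z ≤ Real.exp (3 * z ^ (1 + δ) / 2) := Real.exp_le_exp.2 (by linarith)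
    rw [show 2 * z ^ (1 + δ) = z ^ (1 + δ) / 2 + 3 * z ^ (1 + δ) / 2 by ring, Real.exp_add]
    nlinarith [Real.exp_pos (3 * z ^ (1 + δ) / 2)]
  · rw [Real.mul_rpow (by norm_num) (by positivity), ← Real.rpow_mul hz0.le]
    rw [div_le_iff₀ hη] at h0
    calc _ ≤ z ^ (u₁ - (1 + δ) * a) * η * z ^ ((1 + δ) * a) := by gcongr
      _ = η * z ^ u₁ := by rw [Real.rpow_sub hz0]; field_simp
      _ ≤ _ := by gcongr

lemma exps {a u : ℝ} (ha : 0 < a) (hau : a < u) :
    ∃ u₁ δ : ℝ, 0 < δ ∧ 0 < u₁ ∧ u₁ < u ∧ (1 + δ) * a < u₁ := by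
  refine ⟨(a + u) / 2, (u - a) / (4 * a), div_pos (by linarith) (by linarith), by linarith,
    by linarith, ?_⟩
  have : (1 + (u - a) / (4 * a)) * a = a + (u - a) / 4 := by field_simp
  linarith

lemma small_eta {f : ℝ → ℝ} (hf : Continuous f) (h0 : 0 < f 0) :
    ∃ η, 0 < η ∧ η ≤ 1 / 10 ∧ 0 < f η := by
  have h1 : ∀ᶠ η in 𝓝[>] (0 : ℝ), 0 < f η :=
    nhdsWithin_le_nhds (hf.continuousAt.eventually (lt_mem_nhds h0))
  have h2 : ∀ᶠ η in 𝓝[>] (0 : ℝ), η ≤ 1 / 10 :=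
    nhdsWithin_le_nhds (eventually_le_nhds (by norm_num))
  obtain ⟨η, a1, a2, a3⟩ := (h1.and (h2.and self_mem_nhdsWithin)).exists
  exact ⟨η, a3, a2, a1⟩

theorem transfer_lower {a u ρ : ℝ} (ha : 0 < a) (hau : a < u) (hρ : 0 ≤ ρ)
    (H : ∃ᶠ z : ℝ in atTop, ∃ P t y : ℕ, Conf u z P y ∧ (Sv P t y : ℝ) ≤ ρ * y * P.totient / P)
    {ε : ℝ} (hε : 0 < ε) : ∃ᶠ x : ℝ in atTop, RR a x ≤ ρ + ε := by
  by_contra hcon
  rw [not_frequently] at hcon
  obtain ⟨x₀, hx₀⟩ := eventually_atTop.1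
    ((step_lower (hcon.mono fun x hx => (not_le.1 hx).le)).and (eventually_ge_atTop 3))
  obtain ⟨u₁, δ, hδ, hu₁, hu, hδu⟩ := exps ha hau
  obtain ⟨η, hη, hη1, hf⟩ := small_eta
    (f := fun η => (ρ + ε) * (1 - η) * (1 - 6000 * η) - (ρ * (1 + η) + η) * (1 + 4 * η))
    (by fun_prop) (by simpa using hε)
  obtain ⟨z, ⟨P, t, y, hc, hS⟩, ⟨h1, h2⟩, ⟨h3, h4⟩, h5⟩ := (H.and_eventually
    (((exists_equi hδ hη).and (par_eventually hδ hη hη1)).and
      (((drop hu₁ hu hη (by linarith)).and (row_setup (x₀ := x₀) hδ hδu hη)).and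
        (eventually_gt_atTop 0)))).exists
  obtain ⟨Q, hQ, hE⟩ := h1 P hc.sq hc.Ple
  obtain ⟨t', y', a1, a2, a3⟩ := (h3 P y hc Q hQ t ρ hρ).1 hS
  have hP0 : 0 < P := Nat.pos_of_ne_zero hc.sq.ne_zero
  have hQP : 0 < Q ∧ Q ≤ P := by
    rcases hQ with rfl | ⟨p, hp, rfl⟩
    · exact ⟨hP0, le_rfl⟩
    · exact ⟨Nat.pos_of_mul_pos_left hP0, Nat.le_mul_of_pos_left Q hp.pos⟩
  have hy' : (y' : ℝ) ≤ Real.exp z := le_trans (by exact_mod_cast a2) hc.yle
  have hpar := h2 Q y' hQP.1 (le_trans (by exact_mod_cast hQP.2) hc.Ple) hy' hE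
  have key := hpar.core_lower t' (ρ := (ρ + ε) * (1 - η)) (by nlinarith) (fun x b1 b2 => by
    obtain ⟨c1, c2, c3⟩ := h4 x y' a1 hy' b1 b2
    have := cover_lower theta_mono (h := fun w => Real.log w ^ a) (c := ρ + ε) (x := x)
      (E := x + y') (H := η * y') (by linarith) (by linarith [y'.cast_nonneg (α := ℝ)])
      (fun w d1 d2 => by
        obtain ⟨e1, e2⟩ := hx₀ w (c1.trans d1)
        obtain ⟨e3, e4⟩ := step_size ha e2 d2 c2
        exact ⟨e3, e4.trans c3, e1⟩)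
    linarith)
  have hQ' : (0 : ℝ) < Q := by exact_mod_cast hQP.1
  have hφ : (0 : ℝ) < Q.totient := by exact_mod_cast Nat.totient_pos.2 hQP.1
  have hy0 : (0 : ℝ) < y' := lt_of_lt_of_le (by positivity) a1
  have b1 : (Sv Q t' y' : ℝ) / Q.totient ≤ (ρ * (1 + η) + η) * (y' / Q) := by
    rw [div_le_iff₀ hφ]
    refine a3.trans (le_of_eq ?_)
    ring
  have b2 : 0 < (y' : ℝ) / Q := by positivity
  have b3 : (Sv Q t' y' : ℝ) / Q.totient * (1 + 4 * η) ≤
      (ρ * (1 + η) + η) * (y' / Q) * (1 + 4 * η) := by gcongr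
  have b4 := mul_pos hf b2
  rw [mul_div_assoc] at key
  nlinarith

theorem transfer_upper {a u ρ : ℝ} (ha : 0 < a) (hau : a < u)
    (H : ∃ᶠ z : ℝ in atTop, ∃ P t y : ℕ, Conf u z P y ∧ ρ * y * P.totient / P ≤ Sv P t y)
    {ε : ℝ} (hε : 0 < ε) : ∃ᶠ x : ℝ in atTop, ρ - ε ≤ RR a x := by
  rcases le_or_gt ρ ε with hρ | hρ
  · refine Eventually.frequently ?_
    filter_upwards [eventually_ge_atTop 3] with x hx
    have h1 := one_le_log hx
    have h2 : 0 < Real.log x ^ a := by positivity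
    refine le_trans (by linarith) (mul_nonneg (by positivity) ?_)
    rw [pi_sub (by linarith)]
    exact sum_nonneg fun n _ => by split_ifs <;> norm_num
  by_contra hcon
  rw [not_frequently] at hcon
  obtain ⟨u₁, δ, hδ, hu₁, hu, hδu⟩ := exps ha hau
  obtain ⟨η, hη, hη1, hf⟩ := small_eta
    (f := fun η => (ρ * (1 - η) - η) * (1 - 4 * η) - ((ρ - ε) * (1 + η) * (1 + η) +
      1200 * η * (5 * ((ρ - ε) * (1 + η) * (1 + η)) + 2)))
    (by fun_prop) (by simpa using hε)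
  obtain ⟨x₀, hx₀⟩ := eventually_atTop.1
    ((step_upper hη (hcon.mono fun x hx => (not_le.1 hx).le)).and (eventually_ge_atTop 3))
  obtain ⟨z, ⟨P, t, y, hc, hS⟩, ⟨h1, h2⟩, ⟨h3, h4⟩, h5⟩ := (H.and_eventually
    (((exists_equi hδ hη).and (par_eventually hδ hη hη1)).and
      (((drop hu₁ hu hη (by linarith)).and (row_setup (x₀ := x₀) hδ hδu hη)).and
        (eventually_gt_atTop 0)))).exists
  obtain ⟨Q, hQ, hE⟩ := h1 P hc.sq hc.Ple
  obtain ⟨t', y', a1, a2, a3⟩ := (h3 P y hc Q hQ t ρ (by linarith)).2 hS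
  have hP0 : 0 < P := Nat.pos_of_ne_zero hc.sq.ne_zero
  have hQP : 0 < Q ∧ Q ≤ P := by
    rcases hQ with rfl | ⟨p, hp, rfl⟩
    · exact ⟨hP0, le_rfl⟩
    · exact ⟨Nat.pos_of_mul_pos_left hP0, Nat.le_mul_of_pos_left Q hp.pos⟩
  have hy' : (y' : ℝ) ≤ Real.exp z := le_trans (by exact_mod_cast a2) hc.yle
  have hpar := h2 Q y' hQP.1 (le_trans (by exact_mod_cast hQP.2) hc.Ple) hy' hE
  have hρε : 0 < ρ - ε := by linarith
  have key := hpar.core_upper t' (ρ := (ρ - ε) * (1 + η) * (1 + η)) (by positivity)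
    (fun x b1 b2 => by
    obtain ⟨c1, c2, c3⟩ := h4 x y' a1 hy' b1 b2
    have := cover_upper theta_mono (h := fun w => Real.log w ^ a) (c := (ρ - ε) * (1 + η)) (x := x)
      (E := x + y') (H := η * y') (by positivity) (by linarith [y'.cast_nonneg (α := ℝ)])
      (fun w d1 d2 => by
        obtain ⟨e1, e2⟩ := hx₀ w (c1.trans d1)
        obtain ⟨e3, e4⟩ := step_size ha e2 d2 c2
        exact ⟨e3, e4.trans c3, e1⟩)
    linarith)
  have hQ' : (0 : ℝ) < Q := by exact_mod_cast hQP.1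
  have hφ : (0 : ℝ) < Q.totient := by exact_mod_cast Nat.totient_pos.2 hQP.1
  have hy0 : (0 : ℝ) < y' := lt_of_lt_of_le (by positivity) a1
  have b1 : (ρ * (1 - η) - η) * (y' / Q) ≤ (Sv Q t' y' : ℝ) / Q.totient := by
    rw [le_div_iff₀ hφ]
    refine le_trans (le_of_eq ?_) a3
    ring
  have b2 : 0 < (y' : ℝ) / Q := by positivity
  have b3 : (ρ * (1 - η) - η) * (y' / Q) * (1 - 4 * η) ≤
      (Sv Q t' y' : ℝ) / Q.totient * (1 - 4 * η) := by gcongr; linarith
  have b4 := mul_pos hf b2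
  nlinarith

end Pool.Agent.Lib.MP_b09185_nt.Mai
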