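import Pool.Agent.Lib.MP_b09185_nt.MaiIter
import Pool.Agent.Lib.MP_b09185_nt.MaiFew

/-! Sieving by the primes of a window `(z ^ α, z]`. -/

namespace Pool.Agent.Lib.MP_b09185_nt.Mai

open Filter Topology Finset Nat

noncomputable def xx (z : ℝ) (p : ℕ) : ℝ := Real.log p / Real.log z

noncomputable def Ac (z : ℝ) (g : ℝ → ℝ) (s : ℝ) : ℝ :=
  ∑ p ∈ primesLE ⌊z ^ s⌋₊, 1 / (p : ℝ) * g (xx z p)

lemma xx_mem {z s s' : ℝ} (hz : 1 < z) {p : ℕ} (hp : p ∈ Ioc ⌊z ^ s⌋₊ ⌊z ^ s'⌋₊) :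
    s < xx z p ∧ xx z p ≤ s' := by
  have hz0 : 0 < z := by linarith
  rw [mem_Ioc, Nat.floor_lt (by positivity), Nat.le_floor_iff (by positivity)] at hp
  have hp0 : (0 : ℝ) < p := lt_trans (by positivity) hp.1
  rw [xx, lt_div_iff₀ (Real.log_pos hz), div_le_iff₀ (Real.log_pos hz), ← Real.log_rpow hz0,
    ← Real.log_rpow hz0]
  exact ⟨Real.log_lt_log (by positivity) hp.1, Real.log_le_log hp0 hp.2⟩

lemma cell {z α s s' G : ℝ} {g : ℝ → ℝ} (hz : 1 < z) (hα : 0 < α) (h4 : 4 ≤ z ^ α) (hs : α ≤ s)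
    (hss : s ≤ s') (hg : Antitone g) (hG : ∀ t, 0 ≤ g t ∧ g t ≤ G) :
    |Ac z g s' - Ac z g s - ∫ t in s..s', g t / t| ≤
      (g s - g s') * ((s' - s) / α) + G * (42 / (α * Real.log z)) := by
  have hz0 : 0 < z := by linarith
  have hl := Real.log_pos hz
  have hs0 : 0 < s := hα.trans_le hs
  have m1 : z ^ α ≤ z ^ s := Real.rpow_le_rpow_of_exponent_le hz.le hs
  have m3 : z ^ s ≤ z ^ s' := Real.rpow_le_rpow_of_exponent_le hz.le hss
  have h1 := m2 (h4.trans m1) m3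
  rw [Real.log_rpow hz0, Real.log_rpow hz0, Real.log_mul (by linarith) hl.ne',
    Real.log_mul hs0.ne' hl.ne', add_sub_add_right_eq_sub,
    ← Real.log_div (by linarith) hs0.ne'] at h1
  have h2 : 42 / (s * Real.log z) ≤ 42 / (α * Real.log z) := by gcongr
  obtain ⟨b1, b2⟩ := int_bounds hg hs0 hss
  have e1 := sum_primes_Ioc (fun p => 1 / (p : ℝ) * g (xx z p)) (Nat.floor_mono m3)
  have e2 := sum_primes_Ioc (fun p => 1 / (p : ℝ)) (Nat.floor_mono m3)
  have c1 : (Rp (z ^ s') - Rp (z ^ s)) * g s' ≤ Ac z g s' - Ac z g s := by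
    rw [Ac, Ac, Rp, Rp, e1, e2, sum_mul]
    refine sum_le_sum fun p hp => ?_
    split_ifs
    · exact mul_le_mul_of_nonneg_left (hg (xx_mem hz hp).2) (by positivity)
    · simp
  have c2 : Ac z g s' - Ac z g s ≤ (Rp (z ^ s') - Rp (z ^ s)) * g s := by
    rw [Ac, Ac, Rp, Rp, e1, e2, sum_mul]
    refine sum_le_sum fun p hp => ?_
    split_ifs
    · exact mul_le_mul_of_nonneg_left (hg (xx_mem hz hp).1.le) (by positivity)
    · simp
  have d1 : Real.log (s' / s) ≤ (s' - s) / α := by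
    refine (Real.log_le_sub_one_of_pos (div_pos (by linarith) hs0)).trans ?_
    rw [div_sub_one hs0.ne']
    gcongr
  have d2 : (g s - g s') * Real.log (s' / s) ≤ (g s - g s') * ((s' - s) / α) :=
    mul_le_mul_of_nonneg_left d1 (sub_nonneg.2 (hg hss))
  obtain ⟨f1, f2⟩ := abs_le.1 (h1.trans h2)
  set δ := 42 / (α * Real.log z)
  have hδ : 0 ≤ δ := by positivity
  have g1 := hG s
  have g2 := hG s'
  have k1 : δ * g s ≤ G * δ := by nlinarith
  have k2 : δ * g s' ≤ G * δ := by nlinarith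
  rw [abs_le]
  constructor <;> nlinarith

lemma window_close {α β ε : ℝ} (h0 : 0 < α) (h1 : α ≤ β) (hε : 0 < ε) :
    ∀ᶠ z : ℝ in atTop, ∀ (g : ℝ → ℝ) (G : ℝ), Antitone g → (∀ t, 0 ≤ g t ∧ g t ≤ G) →
      |∑ p ∈ primesLE ⌊z ^ β⌋₊ \ primesLE ⌊z ^ α⌋₊, 1 / (p : ℝ) * g (xx z p) -
        ∫ t in α..β, g t / t| ≤ ε * G := by
  obtain ⟨n, hn⟩ := exists_nat_gt (2 * (β - α) / (α * ε))
  have hn0 : (0 : ℝ) < n := lt_of_le_of_lt (div_nonneg (by linarith) (by positivity)) hn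
  filter_upwards [eventually_gt_atTop 1, (tendsto_rpow_atTop h0).eventually_ge_atTop 4,
    Real.tendsto_log_atTop.eventually_ge_atTop (84 * n / (α * ε))] with z hz h4 hl g G hg hG
  set h := (β - α) / n with hh
  have hh0 : 0 ≤ h := div_nonneg (by linarith) hn0.le
  have key : ∀ j : ℕ, |Ac z g (α + j * h) - Ac z g α - ∫ t in α..(α + j * h), g t / t| ≤
      (g α - g (α + j * h)) * (h / α) + j * (G * (42 / (α * Real.log z))) := by
    intro j
    induction j with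
    | zero => simp
    | succ j ih =>
      have a1 : α ≤ α + j * h := by nlinarith [j.cast_nonneg (α := ℝ)]
      have a2 : α + j * h ≤ α + (j + 1 : ℕ) * h := by push_cast; linarith
      have a3 := cell hz h0 h4 a1 a2 hg hG
      rw [← intervalIntegral.integral_add_adjacent_intervals (int_anti hg h0 a1)
        (int_anti hg (h0.trans_le a1) a2)]
      have e : α + (j + 1 : ℕ) * h - (α + j * h) = h := by push_cast; ring
      rw [e] at a3
      rw [abs_le] at a3 ih ⊢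
      push_cast at a3 ⊢
      constructor <;> linarith [a3.1, a3.2, ih.1, ih.2]
  have k := key n
  have e : α + n * h = β := by rw [hh]; field_simp; ring
  rw [e] at k
  rw [sum_sdiff_eq_sub (primesLE_mono (Nat.floor_mono
    (Real.rpow_le_rpow_of_exponent_le hz.le h1)))]
  refine k.trans ?_
  have hG0 : 0 ≤ G := (hG 0).1.trans (hG 0).2
  have b1 : h / α ≤ ε / 2 := by
    rw [div_lt_iff₀ (by positivity)] at hn
    rw [hh, div_div, div_le_iff₀ (by positivity)]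
    nlinarith
  have b2 : n * (42 / (α * Real.log z)) ≤ ε / 2 := by
    have := Real.log_pos hz
    rw [div_le_iff₀ (by positivity)] at hl
    rw [mul_div_assoc', div_le_iff₀ (by positivity)]
    nlinarith
  have b3 : (g α - g β) * (h / α) ≤ G * (ε / 2) :=
    mul_le_mul (by linarith [(hG α).2, (hG β).1]) b1 (by positivity) hG0
  have b4 : G * (n * (42 / (α * Real.log z))) ≤ G * (ε / 2) := by gcongr
  linarith

noncomputable def WW (α z : ℝ) : Finset ℕ := primesLE ⌊z⌋₊ \ primesLE ⌊z ^ α⌋₊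

lemma WW_prime {α z : ℝ} {p : ℕ} (hp : p ∈ WW α z) : p.Prime := (mem_primesLE.1 (mem_sdiff.1 hp).1).2

lemma WW_gt {α z : ℝ} {p : ℕ} (hp : p ∈ WW α z) : z ^ α < p :=
  Nat.lt_of_floor_lt (not_le.1 fun h => (mem_sdiff.1 hp).2 (mem_primesLE.2 ⟨h, WW_prime hp⟩))

lemma tendsto_ee {α u : ℝ} (h0 : 0 < α) (h1 : α ≤ 1) (hu : 0 < u) (k : ℕ) {v : ℝ → ℝ}
    (hv : Tendsto v atTop (𝓝 u)) :
    Tendsto (fun z => ee (WW α z) (xx z) (fun p => 1 / (p : ℝ)) k (v z)) atTop
      (𝓝 (II α k u / k.factorial)) := by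
  have hL0 : 0 ≤ Real.log (1 / α) := Real.log_nonneg (by rw [le_div_iff₀ h0]; linarith)
  obtain ⟨C, hC, H⟩ := ee_approx h0 h1 (M := Real.log (1 / α) + 1) (by linarith) (by linarith) k
  have t1 : Tendsto (fun z => k.factorial * ee (WW α z) (xx z) (fun p => 1 / (p : ℝ)) k (v z) -
      II α k (v z)) atTop (𝓝 0) := by
    rw [Metric.tendsto_nhds]
    intro ε hε
    have hδ : 0 < min (ε / (C + 1)) 1 := lt_min (by positivity) one_pos
    filter_upwards [window_close h0 h1 hδ,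
      (tendsto_rpow_atTop h0).eventually_ge_atTop (min (ε / (C + 1)) 1)⁻¹] with z hz hz2
    rw [Real.rpow_one] at hz
    have a1 := hz (fun _ => 1) 1 antitone_const (fun _ => ⟨zero_le_one, le_rfl⟩)
    simp only [mul_one] at a1
    rw [int_const 1 h0 h1, one_mul] at a1
    have a2 := H (WW α z) (xx z) (fun p => 1 / (p : ℝ)) _ hδ.le (fun p => by positivity)
      (fun p hp => by
        rw [one_div]
        exact inv_le_of_inv_le₀ hδ (hz2.trans (WW_gt hp).le))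
      (by rw [WW]; linarith [(abs_le.1 a1).2, min_le_right (ε / (C + 1)) 1]) hz (v z)
    rw [Real.dist_eq, sub_zero]
    refine a2.trans_lt ?_
    calc C * min (ε / (C + 1)) 1 ≤ C * (ε / (C + 1)) := by gcongr; exact min_le_left _ _
      _ < ε := by rw [mul_div_assoc', div_lt_iff₀ (by positivity)]; linarith
  have t2 := (t1.add ((II_cont h0 h1 k hu).tendsto.comp hv)).div_const (k.factorial : ℝ)
  rw [zero_add] at t2
  refine t2.congr fun z => ?_
  have : (k.factorial : ℝ) ≠ 0 := by positivity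
  simp only [Function.comp_apply]
  field_simp
  ring

lemma incl_excl {W : Finset ℕ} (hW : ∀ p ∈ W, p.Prime) (y : ℕ) :
    (Sv (∏ p ∈ W, p) 0 y : ℝ) = ∑ D ∈ W.powerset, (-1) ^ D.card * ((y / ∏ p ∈ D, p : ℕ) : ℝ) := by
  rw [Sv_eq]
  push_cast
  have h1 : ∀ j : ℕ, (if (0 + j + 1).Coprime (∏ p ∈ W, p) then (1 : ℝ) else 0) =
      ∑ D ∈ W.powerset, (-1) ^ D.card * if (∏ p ∈ D, p) ∣ j + 1 then 1 else 0 := by
    intro j
    have e1 : (if (0 + j + 1).Coprime (∏ p ∈ W, p) then (1 : ℝ) else 0) =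
        ∏ p ∈ W, (1 + -if p ∣ j + 1 then 1 else 0) := by
      rw [zero_add]
      split_ifs with h
      · exact (prod_eq_one fun p hp => by rw [if_neg ((coprime_prod_iff hW _).1 h p hp)]; simp).symm
      · rw [coprime_prod_iff hW] at h
        push Not at h
        obtain ⟨p, hp, hd⟩ := h
        exact (prod_eq_zero hp (by rw [if_pos hd]; simp)).symm
    rw [e1, prod_one_add]
    refine sum_congr rfl fun D hD => ?_
    rw [prod_neg, prod_boole]
    congr 1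
    refine if_congr ⟨fun h => Finset.prod_primes_dvd _ (fun p hp => (hW p (mem_powerset.1 hD hp)).prime) h,
      fun h p hp => (dvd_prod_of_mem _ hp).trans h⟩ rfl rfl
  simp_rw [h1]
  rw [sum_comm]
  refine sum_congr rfl fun D _ => ?_
  rw [← mul_sum, sum_boole, Nat.card_multiples]

lemma sum_pow_card (W : Finset ℕ) (K : ℕ) (f : Finset ℕ → ℝ)
    (hf : ∀ D ⊆ W, K ≤ D.card → f D = 0) :
    ∑ D ∈ W.powerset, f D = ∑ k ∈ range K, ∑ D ∈ powersetCard k W, f D := by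
  rw [sum_powerset]
  rcases le_total K (W.card + 1) with h | h
  · refine (sum_subset (range_mono h) fun k _ hk => sum_eq_zero fun D hD => ?_).symm
    rw [mem_powersetCard] at hD
    exact hf D hD.1 (hD.2 ▸ not_lt.1 (mt mem_range.2 hk))
  · refine sum_subset (range_mono h) fun k _ hk => ?_
    rw [powersetCard_eq_empty.2 (by simpa using hk), sum_empty]

lemma cut_iff {z Y : ℝ} (hz : 1 < z) (hY : 0 < Y) {D : Finset ℕ} (hD : ∀ p ∈ D, p.Prime) :
    ∑ p ∈ D, xx z p ≤ Real.log Y / Real.log z ↔ ((∏ p ∈ D, p : ℕ) : ℝ) ≤ Y := by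
  have h1 : ∀ p ∈ D, (p : ℝ) ≠ 0 := fun p hp => by exact_mod_cast (hD p hp).ne_zero
  simp only [xx]
  rw [← sum_div, div_le_div_iff_of_pos_right (Real.log_pos hz), ← Real.log_prod h1,
    Real.log_le_log_iff (prod_pos fun p hp => by exact_mod_cast (hD p hp).pos) hY]
  push_cast
  rfl

lemma sum_ee {α z Y : ℝ} (hz : 1 < z) (hY : 0 < Y) (h0 : 0 < α) {K : ℕ}
    (hK : Real.log Y / Real.log z < K * α) (c : ℕ → ℝ) :
    ∑ D ∈ (WW α z).powerset, c D.card *
        (if ((∏ p ∈ D, p : ℕ) : ℝ) ≤ Y then 1 / ((∏ p ∈ D, p : ℕ) : ℝ) else 0) =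
      ∑ k ∈ range K, c k * ee (WW α z) (xx z) (fun p => 1 / (p : ℝ)) k (Real.log Y / Real.log z) := by
  rw [sum_pow_card _ K]
  · refine sum_congr rfl fun k _ => ?_
    rw [ee, mul_sum]
    refine sum_congr rfl fun D hD => ?_
    rw [mem_powersetCard] at hD
    rw [hD.2]
    congr 1
    refine if_congr (cut_iff hz hY fun p hp => WW_prime (hD.1 hp)).symm ?_ rfl
    push_cast
    rw [prod_div_distrib, prod_const_one]
  · intro D hD hc
    rw [if_neg, mul_zero]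
    rw [← cut_iff hz hY fun p hp => WW_prime (hD hp), not_le]
    refine hK.trans_le (le_trans ?_ (card_nsmul_le_sum D _ α fun p hp => ?_))
    · rw [nsmul_eq_mul]
      gcongr
    · rw [xx, le_div_iff₀ (Real.log_pos hz), ← Real.log_rpow (by linarith)]
      exact Real.log_le_log (by positivity) (WW_gt (hD hp)).le

lemma Sv_approx {W : Finset ℕ} (hW : ∀ p ∈ W, p.Prime) {y : ℕ} (hy : 0 < y) {δ : ℝ} (hδ : 0 ≤ δ)
    (hδ1 : δ ≤ 1) :
    |(Sv (∏ p ∈ W, p) 0 y : ℝ) / y - ∑ D ∈ W.powerset, (-1) ^ D.card *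
        (if ((∏ p ∈ D, p : ℕ) : ℝ) ≤ y then 1 / ((∏ p ∈ D, p : ℕ) : ℝ) else 0)| ≤
      δ + (∑ D ∈ W.powerset,
          1 * (if ((∏ p ∈ D, p : ℕ) : ℝ) ≤ y then 1 / ((∏ p ∈ D, p : ℕ) : ℝ) else 0) -
        ∑ D ∈ W.powerset,
          1 * (if ((∏ p ∈ D, p : ℕ) : ℝ) ≤ δ * y then 1 / ((∏ p ∈ D, p : ℕ) : ℝ) else 0)) := by
  have hy' : (0 : ℝ) < y := by exact_mod_cast hy
  have hpos : ∀ D ∈ W.powerset, 0 < ∏ p ∈ D, p := fun D hD =>
    prod_pos fun p hp => (hW p (mem_powerset.1 hD hp)).pos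
  have h1 : ∑ D ∈ W.powerset, (if ((∏ p ∈ D, p : ℕ) : ℝ) ≤ δ * y then 1 / (y : ℝ) else 0) ≤ δ := by
    rw [← sum_filter, sum_const, nsmul_eq_mul, mul_one_div, div_le_iff₀ hy']
    refine le_trans ?_ (Nat.floor_le (by positivity))
    have := card_le_card_of_injOn (s := W.powerset.filter fun D => ((∏ p ∈ D, p : ℕ) : ℝ) ≤ δ * y)
      (t := Ioc 0 ⌊δ * y⌋₊) (fun D => ∏ p ∈ D, p) (fun D hD => by
        rw [mem_coe, mem_filter] at hD
        exact mem_coe.2 (mem_Ioc.2 ⟨hpos D hD.1, Nat.le_floor hD.2⟩)) (fun D hD D' hD' h => by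
        rw [mem_coe, mem_filter, mem_powerset] at hD hD'
        rw [← Nat.primeFactors_prod fun p hp => hW p (hD.1 hp),
          ← Nat.primeFactors_prod fun p hp => hW p (hD'.1 hp)]
        exact congrArg Nat.primeFactors h)
    rw [Nat.card_Ioc, Nat.sub_zero] at this
    exact_mod_cast this
  rw [incl_excl hW, sum_div, ← sum_sub_distrib, ← sum_sub_distrib]
  refine (abs_sum_le_sum_abs _ _).trans (le_trans ?_ (add_le_add_left h1 _))
  rw [← sum_add_distrib]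
  refine sum_le_sum fun D hD => ?_
  rw [mul_div_assoc, ← mul_sub, abs_mul, abs_pow, abs_neg, abs_one, one_pow, one_mul, one_mul,
    one_mul]
  set d := ∏ p ∈ D, p
  have hd : 0 < d := hpos D hD
  have hd' : (0 : ℝ) < d := by exact_mod_cast hd
  by_cases h2 : (d : ℝ) ≤ y
  · have a1 : ((y / d : ℕ) : ℝ) ≤ y / d := Nat.cast_div_le
    have a2 : (y : ℝ) / d < (y / d : ℕ) + 1 := by
      rw [div_lt_iff₀' hd']
      exact_mod_cast Nat.lt_mul_div_succ y hd
    have a3 : |((y / d : ℕ) : ℝ) / y - 1 / d| ≤ 1 / y := by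
      have : ((y / d : ℕ) : ℝ) / y - 1 / d = (((y / d : ℕ) : ℝ) - y / d) / y := by field_simp
      rw [this, abs_div, abs_of_pos hy']
      gcongr
      rw [abs_le]
      constructor <;> linarith
    have a4 : 1 / (y : ℝ) ≤ 1 / d := by gcongr
    rw [if_pos h2]
    split_ifs <;> linarith
  · rw [if_neg h2, Nat.div_eq_of_lt (by exact_mod_cast not_le.1 h2)]
    have a4 : ¬ (d : ℝ) ≤ δ * y := fun h => h2 (h.trans (mul_le_of_le_one_left hy'.le hδ1))
    simp [a4]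

lemma tendsto_logratio {u : ℝ} (hu : 0 < u) {δ : ℝ} (hδ : 0 < δ) :
    Tendsto (fun z : ℝ => Real.log (δ * ⌈z ^ u⌉₊) / Real.log z) atTop (𝓝 u) := by
  have t2 : Tendsto (fun z : ℝ => Real.log (δ * (⌈z ^ u⌉₊ / z ^ u))) atTop (𝓝 (Real.log (δ * 1))) :=
    ((tendsto_nat_ceil_div_atTop.comp (tendsto_rpow_atTop hu)).const_mul δ).log (by positivity)
  have t3 := (t2.div_atTop Real.tendsto_log_atTop).const_add u
  rw [add_zero] at t3
  refine t3.congr' ?_
  filter_upwards [eventually_gt_atTop 1] with z hz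
  have h2 := Real.log_pos hz
  have h4 : 0 < z ^ u := by positivity
  have h5 : (0 : ℝ) < ⌈z ^ u⌉₊ := h4.trans_le (Nat.le_ceil _)
  rw [← mul_div_assoc, Real.log_div (by positivity) h4.ne', Real.log_rpow (by linarith)]
  field_simp
  ring

lemma tendsto_Sv {α u : ℝ} (h0 : 0 < α) (h1 : α ≤ 1) (hu : 0 < u) :
    Tendsto (fun z : ℝ => (Sv (∏ p ∈ WW α z, p) 0 ⌈z ^ u⌉₊ : ℝ) / ⌈z ^ u⌉₊) atTop
      (𝓝 (EW α u * α)) := by
  obtain ⟨K, hK⟩ := exists_nat_gt (u / α)
  rw [div_lt_iff₀ h0] at hK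
  have gen : ∀ (c : ℕ → ℝ) {δ : ℝ}, 0 < δ → Tendsto (fun z : ℝ => ∑ D ∈ (WW α z).powerset, c D.card *
      (if ((∏ p ∈ D, p : ℕ) : ℝ) ≤ δ * ⌈z ^ u⌉₊ then 1 / ((∏ p ∈ D, p : ℕ) : ℝ) else 0)) atTop
      (𝓝 (∑ k ∈ range K, c k * (II α k u / k.factorial))) := by
    intro c δ hδ
    refine (tendsto_finsetSum _ fun k _ =>
      (tendsto_ee h0 h1 hu k (tendsto_logratio hu hδ)).const_mul (c k)).congr' ?_
    filter_upwards [eventually_gt_atTop 1, (tendsto_logratio hu hδ).eventually (gt_mem_nhds hK)]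
      with z hz h2
    have h5 : (0 : ℝ) < ⌈z ^ u⌉₊ := lt_of_lt_of_le (by positivity) (Nat.le_ceil _)
    exact (sum_ee hz (by positivity) h0 h2 c).symm
  have tA := gen (fun k => (-1) ^ k) one_pos
  have e : ∑ k ∈ range K, (-1) ^ k * (II α k u / k.factorial) = EW α u * α := by
    rw [EW_eq h1 hK h0, div_mul_cancel₀ _ h0.ne']
    simp only [mul_div_assoc]
  rw [e] at tA
  simp only [one_mul] at tA
  have t0 : Tendsto (fun z : ℝ => (Sv (∏ p ∈ WW α z, p) 0 ⌈z ^ u⌉₊ : ℝ) / ⌈z ^ u⌉₊ -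
      ∑ D ∈ (WW α z).powerset, (-1) ^ D.card *
      (if ((∏ p ∈ D, p : ℕ) : ℝ) ≤ ⌈z ^ u⌉₊ then 1 / ((∏ p ∈ D, p : ℕ) : ℝ) else 0)) atTop (𝓝 0) := by
    rw [Metric.tendsto_nhds]
    intro ε hε
    have hδ : 0 < min (ε / 2) 1 := lt_min (half_pos hε) one_pos
    have tB := (gen (fun _ => 1) one_pos).sub (gen (fun _ => 1) hδ)
    rw [sub_self] at tB
    filter_upwards [eventually_gt_atTop 1, tB.eventually (gt_mem_nhds (half_pos hε))] with z hz h2
    rw [Real.dist_eq, sub_zero]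
    refine (Sv_approx (fun p hp => WW_prime hp) (Nat.ceil_pos.2 (by positivity)) hδ.le
      (min_le_right _ _)).trans_lt ?_
    simp only [one_mul] at h2 ⊢
    linarith [min_le_left (ε / 2) 1]
  simpa using t0.add tA

lemma tendsto_phi {α : ℝ} (h0 : 0 < α) (h1 : α ≤ 1) :
    Tendsto (fun z : ℝ => ((∏ p ∈ WW α z, p).totient : ℝ) / (∏ p ∈ WW α z, p : ℕ)) atTop (𝓝 α) := by
  have t := m3.div (m3_pow h0) (by positivity)
  have e : Real.exp (-Real.eulerMascheroniConstant) /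
      (Real.exp (-Real.eulerMascheroniConstant) / α) = α := by field_simp
  rw [e] at t
  refine t.congr' ?_
  filter_upwards [eventually_gt_atTop 1] with z hz
  rw [totient_prod fun p hp => WW_prime hp, WW, Th_sdiff (Real.rpow_le_self_of_one_le hz.le h1),
    Pi.div_apply, mul_div_mul_right _ _ (Real.log_pos hz).ne']

lemma EW_nonneg {α u : ℝ} (h0 : 0 < α) (h1 : α ≤ 1) (hu : 0 < u) : 0 ≤ EW α u :=
  nonneg_of_mul_nonneg_left
    (ge_of_tendsto' (tendsto_Sv h0 h1 hu) fun z => by positivity) h0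

lemma near_right {f : ℝ → ℝ} {u ε : ℝ} (hf : ContinuousAt f u) (hε : 0 < ε) :
    ∃ u', u < u' ∧ |f u' - f u| < ε := by
  have e1 : ∀ᶠ v in 𝓝[>] u, dist (f v) (f u) < ε :=
    nhdsWithin_le_nhds (Metric.tendsto_nhds.1 hf ε hε)
  obtain ⟨v, h1, h2⟩ := (e1.and self_mem_nhdsWithin).exists
  exact ⟨v, h2, h1⟩

theorem window_lower {α u a : ℝ} (h0 : 0 < α) (h1 : α ≤ 1) (ha : 0 < a) (hau : a ≤ u) {ε : ℝ}
    (hε : 0 < ε) : ∃ᶠ x : ℝ in atTop, RR a x ≤ EW α u + ε := by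
  have hu : 0 < u := ha.trans_le hau
  obtain ⟨v, hv, hE⟩ := near_right (EW_cont h0 h1 hu) (half_pos hε)
  have hv0 : 0 < v := hu.trans hv
  have hlt : EW α v * α < (EW α u + ε / 2) * α := by
    gcongr; linarith [(abs_lt.1 hE).2]
  have h := transfer_lower (u := v) (ρ := EW α u + ε / 2) ha (hau.trans_lt hv)
    (by linarith [EW_nonneg h0 h1 hu]) (Eventually.frequently (by
      filter_upwards [(tendsto_Sv h0 h1 hv0).eventually_lt ((tendsto_phi h0 h1).const_mul _) hlt,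
        conf_of_subset v, eventually_gt_atTop 1] with z h2 h3 hz
      refine ⟨_, 0, _, h3 (WW α z) sdiff_subset, ?_⟩
      have h5 : (0 : ℝ) < ⌈z ^ v⌉₊ := lt_of_lt_of_le (by positivity) (Nat.le_ceil _)
      rw [div_lt_iff₀ h5] at h2
      refine h2.le.trans (le_of_eq (by ring)))) (half_pos hε)
  simpa only [add_assoc, add_halves] using h

theorem window_upper {α u a : ℝ} (h0 : 0 < α) (h1 : α ≤ 1) (ha : 0 < a) (hau : a ≤ u) {ε : ℝ}
    (hε : 0 < ε) : ∃ᶠ x : ℝ in atTop, EW α u - ε ≤ RR a x := by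
  have hu : 0 < u := ha.trans_le hau
  obtain ⟨v, hv, hE⟩ := near_right (EW_cont h0 h1 hu) (half_pos hε)
  have hv0 : 0 < v := hu.trans hv
  have hlt : (EW α u - ε / 2) * α < EW α v * α := by
    gcongr; linarith [(abs_lt.1 hE).1]
  have h := transfer_upper (u := v) (ρ := EW α u - ε / 2) ha (hau.trans_lt hv)
    (Eventually.frequently (by
      filter_upwards [((tendsto_phi h0 h1).const_mul _).eventually_lt (tendsto_Sv h0 h1 hv0) hlt,
        conf_of_subset v, eventually_gt_atTop 1] with z h2 h3 hz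
      refine ⟨_, 0, _, h3 (WW α z) sdiff_subset, ?_⟩
      have h5 : (0 : ℝ) < ⌈z ^ v⌉₊ := lt_of_lt_of_le (by positivity) (Nat.le_ceil _)
      rw [lt_div_iff₀ h5] at h2
      refine le_trans (le_of_eq (by ring)) h2.le)) (half_pos hε)
  simpa only [sub_sub, add_halves] using h

end Pool.Agent.Lib.MP_b09185_nt.Mai
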