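import Mathlib
import Pool.Agent.Lib.MP_b09185_nt.Key

namespace Pool.Agent.Lib.MP_b09185_nt

open Finset Nat Filter MeasureTheory Topology

lemma small_aux {L P t : ℝ} (hL : 4 ≤ L) (ht : 0 < t) (hP : L ^ 2 ≤ P)
    (h : t⁻¹ ≤ L ^ (1 / 2 : ℝ)) : 1 / (P * t) ≤ 1 / L := by
  have h1 := (half_rpow hL).1
  have hL0 : 0 < L := by linarith
  have h2 : t⁻¹ ≤ L := by linarith
  rw [inv_le_iff_one_le_mul₀ ht] at h2
  apply one_div_le_one_div_of_le hL0
  calc L = L * 1 := by ring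
    _ ≤ L * (L * t) := by gcongr
    _ = L ^ 2 * t := by ring
    _ ≤ _ := by gcongr

theorem main1 (ε : ℝ) (hε : 0 < ε) : ∃ a₀ : ℝ, ∀ᵐ ω ∂law, ∀ a : ℝ, a₀ ≤ a →
    ∀ᶠ x : ℝ in atTop, |ratio (model ω) a x - 1| ≤ ε := by
  obtain ⟨B, hB1, hB⟩ := fl (show 0 < ε / 8 by positivity)
  refine ⟨B + 2, ?_⟩
  filter_upwards [key] with ω hω a ha
  have hB' : (1 : ℝ) ≤ B := by exact_mod_cast hB1
  have tl := Real.tendsto_log_atTop
  filter_upwards [hω a (by linarith) (ε / 4) (by positivity), tl.eventually ev_kappa,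
    tl.eventually_ge_atTop 4, tl.eventually_ge_atTop (8 / ε), eventually_ge_atTop 0]
    with x h1 h2 h3 h4 hx
  set L := Real.log x with hL
  have hL0 : 0 < L := by linarith
  have hL1 : 1 ≤ L := by linarith
  set N := ⌊L⌋₊ with hN
  have n1 : (N : ℝ) ≤ L := Nat.floor_le hL0.le
  have n2 : L < N + 1 := Nat.lt_floor_add_one L
  have n3 : 1 ≤ N := Nat.le_floor (by exact_mod_cast hL1)
  have k1 := h1 N (by linarith) n1
  set P := L ^ a with hP
  have p1 : L ^ B * L ^ 2 ≤ P := by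
    rw [← pow_add, ← Real.rpow_natCast]
    exact Real.rpow_le_rpow_of_exponent_le hL1 (by push_cast; linarith)
  have p2 : 1 ≤ L ^ B := one_le_pow₀ hL1
  have p3 : L ≤ L ^ 2 := le_self_pow₀ hL1 two_ne_zero
  have p4 : L ^ 2 ≤ P := le_trans (le_mul_of_one_le_left (by positivity) p2) p1
  have hP0 : 0 < P := by linarith
  obtain ⟨b1, b2⟩ := len_bounds hx hP0.le
  set H := ⌊x + P⌋₊ - ⌊x⌋₊ with hH
  have k2 := hB (cl ω) ⌊x⌋₊ H N n3 ∅ (by simp)
  simp only [prod_empty, mul_one] at k2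
  have t := th_pos N
  have k3 := small_aux h3 t le_rfl (h2 N (n1.trans p3))
  have e1 : 1 / L ≤ ε / 8 := by
    rw [div_le_iff₀ hε] at h4
    rw [div_le_iff₀ hL0]; linarith
  have k4 : (N : ℝ) ^ B ≤ ε / 8 * (P * th N) := by
    rw [div_le_iff₀ (by positivity)] at k3
    calc _ ≤ L ^ B * 1 := by rw [mul_one]; gcongr
      _ ≤ L ^ B * (1 / L * (L ^ 2 * th N)) := by gcongr
      _ = 1 / L * (L ^ B * L ^ 2 * th N) := by ring
      _ ≤ _ := by gcongr
  have k5 : 1 ≤ ε / 8 * P := by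
    rw [div_le_iff₀ hL0] at e1
    exact e1.trans (by gcongr; linarith)
  have k6 : |(cnt (cl ω) ⌊x⌋₊ H ∅ N : ℝ) / (P * th N) - 1| ≤ ε / 2 := by
    have e : (cnt (cl ω) ⌊x⌋₊ H ∅ N : ℝ) / (P * th N) - 1 =
        ((cnt (cl ω) ⌊x⌋₊ H ∅ N - H * th N) + (H - P) * th N) / (P * th N) := by
      field_simp; ring
    rw [e, abs_div, abs_of_pos (mul_pos hP0 t), div_le_iff₀ (mul_pos hP0 t)]
    refine (abs_add_le _ _).trans ?_
    have a1 : |(H - P) * th N| ≤ ε / 8 * P * th N := by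
      rw [abs_mul, abs_of_pos t]
      gcongr
      rw [abs_le]; constructor <;> linarith
    have a2 : ε / 8 * (H * th N) ≤ ε / 8 * (2 * P * th N) := by gcongr; linarith
    linarith
  have := abs_sub_le (ratio (model ω) a x) (cnt (cl ω) ⌊x⌋₊ H ∅ N / (P * th N)) 1
  linarith

lemma sieveRatio_eq (a : ℝ) (x : ℕ) {z : ℝ} (hz : 0 ≤ z) :
    sieveRatio a (x, z) = cnt (fun _ => 0) x ⌊z ^ a⌋₊ ∅ ⌊z⌋₊ / (z ^ a * th ⌊z⌋₊) := by
  unfold sieveRatio
  congr 2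
  rw [cnt, ← Set.ncard_coe_finset]
  congr 1
  ext n
  have h : (n : ℝ) ≤ x + z ^ a ↔ n ≤ x + ⌊z ^ a⌋₊ := by
    rw [add_comm x, ← Nat.floor_add_natCast (by positivity), Nat.le_floor_iff (by positivity),
      add_comm]
  simp only [Set.mem_ofPred_eq, coe_filter, mem_Ioc, h, mem_primesLE, Nat.le_floor_iff hz,
    Nat.modEq_zero_iff_dvd, notMem_empty, IsEmpty.forall_iff, implies_true, true_and]
  constructor
  · rintro ⟨h1, h2, h3⟩; exact ⟨⟨h1, h2⟩, fun q hq => h3 q hq.2 hq.1⟩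
  · rintro ⟨⟨h1, h2⟩, h3⟩; exact ⟨h1, h2, fun q h4 h5 => h3 q ⟨h5, h4⟩⟩

/-- the property supplied by `key` -/
def KeyProp (ω : Om) (a : ℝ) : Prop := ∀ ε : ℝ, 0 < ε → ∀ᶠ x : ℝ in atTop,
    ∀ w' : ℕ, Real.log x / 4 ≤ w' → w' ≤ Real.log x →
      |ratio (model ω) a x - cnt (cl ω) ⌊x⌋₊ (⌊x + Real.log x ^ a⌋₊ - ⌊x⌋₊) ∅ w' /
        (Real.log x ^ a * th w')| ≤ ε

lemma approx_up {ω : Om} {a : ℝ} (ha : 2 < a) (h : KeyProp ω a) {ε : ℝ} (hε : 0 < ε) :
    ∀ᶠ x : ℝ in atTop, ∃ x' : ℕ, |ratio (model ω) a x - sieveRatio a (x', Real.log x)| ≤ ε := by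
  have tl := Real.tendsto_log_atTop
  filter_upwards [h (ε / 2) (by positivity), tl.eventually ev_kappa,
    tl.eventually_ge_atTop 4, tl.eventually_ge_atTop (2 / ε), eventually_ge_atTop 0]
    with x h1 h2 h3 h4 hx
  set L := Real.log x with hL
  have hL0 : 0 < L := by linarith
  have hL1 : 1 ≤ L := by linarith
  set N := ⌊L⌋₊ with hN
  have n1 : (N : ℝ) ≤ L := Nat.floor_le hL0.le
  have n2 : L < N + 1 := Nat.lt_floor_add_one L
  have k1 := h1 N (by linarith) n1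
  set P := L ^ a with hP
  have p3 : L ≤ L ^ 2 := le_self_pow₀ hL1 two_ne_zero
  have p4 : L ^ 2 ≤ P := by
    rw [← Real.rpow_two]; exact Real.rpow_le_rpow_of_exponent_le hL1 ha.le
  have hP0 : 0 < P := by linarith
  set H := ⌊x + P⌋₊ - ⌊x⌋₊ with hH
  have H1 : ⌊P⌋₊ ≤ H ∧ H ≤ ⌊P⌋₊ + 1 := by
    have a1 : ⌊x⌋₊ + ⌊P⌋₊ ≤ ⌊x + P⌋₊ := Nat.le_floor (by
      push_cast; linarith [Nat.floor_le hx, Nat.floor_le hP0.le])
    have a2 : ⌊x + P⌋₊ < ⌊x⌋₊ + ⌊P⌋₊ + 2 := (Nat.floor_lt (by linarith)).2 (by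
      push_cast; linarith [Nat.lt_floor_add_one x, Nat.lt_floor_add_one P])
    omega
  obtain ⟨r, hr⟩ := crt (fun q => ⌊x⌋₊ + (q - 1) * cl ω q) (primesLE N)
    fun _ hq => prime_of_mem_primesLE hq
  refine ⟨r, ?_⟩
  have t := th_pos N
  have k2 : cnt (cl ω) ⌊x⌋₊ ⌊P⌋₊ ∅ N = cnt (fun _ => 0) r ⌊P⌋₊ ∅ N := by
    apply cnt_shift
    intro q hq
    have a1 := ((hr r).2 rfl q hq).add_right (cl ω q)
    refine Nat.ModEq.trans ?_ a1.symm
    obtain ⟨k, rfl⟩ := Nat.exists_eq_succ_of_ne_zero (prime_of_mem_primesLE hq).ne_zero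
    rw [add_assoc]
    apply Nat.ModEq.add_left
    rw [Nat.succ_sub_one, ← Nat.succ_mul]
    exact (Nat.modEq_zero_iff_dvd.2 (dvd_mul_right _ _)).symm
  rw [sieveRatio_eq a r hL0.le, ← k2]
  obtain ⟨c1, c2⟩ := cnt_len (cl ω) ⌊x⌋₊ N H1.1
  have k3 := small_aux h3 t p4 (h2 N (n1.trans p3))
  have e1 : 1 / L ≤ ε / 2 := by
    rw [div_le_iff₀ hε] at h4
    rw [div_le_iff₀ hL0]; linarith
  have k4 : |(cnt (cl ω) ⌊x⌋₊ H ∅ N : ℝ) / (P * th N) -
      cnt (cl ω) ⌊x⌋₊ ⌊P⌋₊ ∅ N / (P * th N)| ≤ 1 / (P * th N) := by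
    rw [← sub_div, abs_div, abs_of_pos (mul_pos hP0 t)]
    gcongr
    have d1 : (cnt (cl ω) ⌊x⌋₊ ⌊P⌋₊ ∅ N : ℝ) ≤ cnt (cl ω) ⌊x⌋₊ H ∅ N := by exact_mod_cast c1
    have d2 : (cnt (cl ω) ⌊x⌋₊ H ∅ N : ℝ) ≤ cnt (cl ω) ⌊x⌋₊ ⌊P⌋₊ ∅ N + 1 := by
      exact_mod_cast (by omega : cnt (cl ω) ⌊x⌋₊ H ∅ N ≤ cnt (cl ω) ⌊x⌋₊ ⌊P⌋₊ ∅ N + 1)
    rw [abs_le]; constructor <;> linarith
  have := abs_sub_le (ratio (model ω) a x) (cnt (cl ω) ⌊x⌋₊ H ∅ N / (P * th N))
    (cnt (cl ω) ⌊x⌋₊ ⌊P⌋₊ ∅ N / (P * th N))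
  linarith

lemma exists_class (X r P : ℕ) (hP : 0 < P) : ∃ x, X ≤ x ∧ x ≤ X + P ∧ x ≡ r [MOD P] := by
  refine ⟨P * (X / P) + (if X % P ≤ r % P then 0 else P) + r % P, ?_, ?_, ?_⟩
  · have := Nat.div_add_mod X P
    have := Nat.mod_lt X hP
    split_ifs <;> omega
  · have := Nat.div_add_mod X P
    have := Nat.mod_lt r hP
    split_ifs <;> omega
  · unfold Nat.ModEq
    split_ifs <;> simp [Nat.add_mod]

lemma pow_ratio {a z L : ℝ} (ha : 1 ≤ a) (hz : 2 ≤ z) (h1 : z ≤ L) (h2 : L ≤ z + 2) :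
    L ^ a - z ^ a ≤ 2 * a / z * L ^ a := by
  have hL0 : 0 < L := by linarith
  have a1 : -1 ≤ -(2 / L) := by
    rw [neg_le_neg_iff, div_le_one hL0]; linarith
  have a2 := one_add_mul_self_le_rpow_one_add a1 ha
  have a3 : (1 + -(2 / L)) ^ a * L ^ a ≤ z ^ a := by
    rw [← Real.mul_rpow (by linarith) hL0.le]
    apply Real.rpow_le_rpow (mul_nonneg (by linarith) hL0.le) _ (by linarith)
    have : (1 + -(2 / L)) * L = L - 2 := by field_simp; ring
    linarith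
  have a4 : 0 ≤ L ^ a := by positivity
  have a5 : 2 * a / L ≤ 2 * a / z := by gcongr
  have a6 := mul_le_mul_of_nonneg_right a2 a4
  have a7 := mul_le_mul_of_nonneg_right a5 a4
  have a8 : (1 + a * -(2 / L)) * L ^ a = L ^ a - 2 * a / L * L ^ a := by ring
  linarith

lemma approx_down {ω : Om} {a : ℝ} (ha : 2 < a) (h : KeyProp ω a) {ε : ℝ} (hε : 0 < ε) (X : ℝ) :
    ∀ᶠ z : ℝ in atTop, ∀ x' : ℕ, ∃ x : ℝ, X ≤ x ∧
      |ratio (model ω) a x - sieveRatio a (x', z)| ≤ ε := by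
  obtain ⟨C, hC1, hC⟩ := det
  obtain ⟨X0, hX0⟩ := eventually_atTop.1 (h (ε / 4) (by positivity))
  have tl := Real.tendsto_log_atTop
  filter_upwards [hC, ev_kappa, eventually_ge_atTop 8, eventually_ge_atTop (max X X0),
    tl.eventually_ge_atTop (4 * 22 * C / ε), tl.eventually_gt_atTop 0,
    (tendsto_rpow_atTop (y := 1 / 2) (by norm_num)).eventually_ge_atTop (4 * (2 * a + 1) / ε),
    eventually_ge_atTop (8 * C * a / ε)] with z h1 h2 h3 h4 h5 h6 h7 h8 x'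
  have hz0 : 0 < z := by linarith
  have hz1 : 1 ≤ z := by linarith
  set N := ⌊z / 2⌋₊ with hN
  have n1 : (N : ℝ) ≤ z / 2 := Nat.floor_le (by positivity)
  have n2 : z / 2 < N + 1 := Nat.lt_floor_add_one _
  obtain ⟨r, hr⟩ := crt (fun q => x' + cl ω q) (primesLE N) fun _ hq => prime_of_mem_primesLE hq
  obtain ⟨x, x1, x2, x3⟩ := exists_class ⌈Real.exp z⌉₊ r (∏ q ∈ primesLE N, q)
    (prod_pos fun _ hq => (prime_of_mem_primesLE hq).pos)
  have x4 : Real.exp z ≤ x := (Nat.le_ceil _).trans (by exact_mod_cast x1)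
  have x5 : (x : ℝ) ≤ 3 * Real.exp z := by
    have a1 : ((∏ q ∈ primesLE N, q : ℕ) : ℝ) ≤ 4 ^ N := by
      exact_mod_cast primorial_le_four_pow N
    have a2 : (4 : ℝ) ^ N ≤ Real.exp z := by
      have b1 : (4 : ℝ) ≤ Real.exp 2 := by
        have := Real.add_one_le_exp 1
        rw [show (2 : ℝ) = 1 + 1 by norm_num, Real.exp_add]; nlinarith
      calc (4 : ℝ) ^ N ≤ Real.exp 2 ^ N := by gcongr
        _ = Real.exp (N * 2) := by rw [Real.exp_nat_mul]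
        _ ≤ _ := Real.exp_le_exp.2 (by linarith)
    have a3 := (Nat.ceil_lt_add_one (Real.exp_pos z).le).le
    have a4 : (x : ℝ) ≤ ⌈Real.exp z⌉₊ + ((∏ q ∈ primesLE N, q : ℕ) : ℝ) := by exact_mod_cast x2
    have a5 := Real.one_le_exp hz0.le
    linarith
  have x6 : z ≤ x := by linarith [Real.add_one_le_exp z]
  refine ⟨x, ((le_max_left _ _).trans h4).trans x6, ?_⟩
  set L := Real.log x with hL
  have l1 : z ≤ L := by
    rw [hL, Real.le_log_iff_exp_le (by linarith)]; exact x4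
  have l2 : L ≤ z + 2 := by
    rw [hL, Real.log_le_iff_le_exp (by linarith), Real.exp_add]
    have := Real.add_one_le_exp 2
    nlinarith [Real.exp_pos z]
  have k1 := hX0 x (((le_max_right _ _).trans h4).trans x6) N (by linarith) (by linarith)
  rw [← hL, Nat.floor_natCast, add_comm (x : ℝ), Nat.floor_add_natCast (by positivity),
    Nat.add_sub_cancel, cnt_shift (cl ω) (fun _ => 0) x x' _ N
      (fun q hq => (hr x).2 x3 q hq)] at k1
  rw [sieveRatio_eq a x' hz0.le]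
  set P := L ^ a with hP
  set P' := z ^ a with hP'
  have p1 : z ^ 2 ≤ P' := by
    rw [← Real.rpow_two]; exact Real.rpow_le_rpow_of_exponent_le hz1 ha.le
  have p2 : P' ≤ P := Real.rpow_le_rpow hz0.le l1 (by linarith)
  have p3 : P - P' ≤ 2 * a / z * P := pow_ratio (by linarith) (by linarith) l1 l2
  have p4 : z ≤ z ^ 2 := le_self_pow₀ hz1 two_ne_zero
  have hP0' : 0 < P' := by linarith
  have hP0 : 0 < P := by linarith
  have f1 : (⌊P'⌋₊ : ℝ) ≤ P' := Nat.floor_le hP0'.le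
  have f2 : P' < ⌊P'⌋₊ + 1 := Nat.lt_floor_add_one _
  have f3 : (⌊P⌋₊ : ℝ) ≤ P := Nat.floor_le hP0.le
  have f4 : ⌊P'⌋₊ ≤ ⌊P⌋₊ := Nat.floor_le_floor p2
  have m1 : (⌊z⌋₊ : ℝ) ≤ z := Nat.floor_le hz0.le
  have m2 : N ≤ ⌊z⌋₊ := Nat.floor_le_floor (by linarith)
  have m3 : z ≤ z ^ (3 / 2 : ℝ) := by
    conv_lhs => rw [← Real.rpow_one z]
    exact Real.rpow_le_rpow_of_exponent_le hz1 (by norm_num)
  obtain ⟨-, d2⟩ := h1 (fun _ => 0) x' ⌊P'⌋₊ N ⌊z⌋₊ (by linarith) (by linarith) m2 (m1.trans m3)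
  obtain ⟨d1, -⟩ := h1 (fun _ => 0) x' ⌊P'⌋₊ N N (by linarith) (by linarith) le_rfl (by linarith)
  obtain ⟨c1, c2⟩ := cnt_len (fun _ => 0) x' N f4
  have t := th_pos N
  have t' := th_pos ⌊z⌋₊
  set u : ℝ := (cnt (fun _ => 0) x' ⌊P⌋₊ ∅ N : ℝ) with hu
  set u' : ℝ := (cnt (fun _ => 0) x' ⌊P'⌋₊ ∅ N : ℝ) with hu'
  set v : ℝ := (cnt (fun _ => 0) x' ⌊P'⌋₊ ∅ ⌊z⌋₊ : ℝ) with hv
  have u1 : u' ≤ u := by rw [hu, hu']; exact_mod_cast c1
  have u2 : u ≤ u' + (P - P' + 1) := by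
    have : u ≤ u' + ((⌊P⌋₊ - ⌊P'⌋₊ : ℕ) : ℝ) := by rw [hu, hu']; exact_mod_cast c2
    rw [Nat.cast_sub f4] at this
    linarith
  have g1 : |u / (P * th N) - u' / (P * th N)| ≤ ε / 4 := by
    rw [← sub_div, abs_div, abs_of_pos (mul_pos hP0 t), abs_of_nonneg (by linarith),
      div_le_iff₀ (mul_pos hP0 t)]
    have a1 := h2 N (by linarith)
    rw [inv_le_iff_one_le_mul₀ t] at a1
    set s := z ^ (1 / 2 : ℝ) with hs
    have a2 : s * s = z := by rw [hs, ← Real.rpow_add hz0]; norm_num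
    have a3 : 1 ≤ 1 / z * P := by rw [one_div_mul_eq_div, one_le_div hz0]; linarith
    have a4 : u - u' ≤ (2 * a + 1) / z * P := by
      have : (2 * a + 1) / z * P = 2 * a / z * P + 1 / z * P := by ring
      linarith
    have a5 : (2 * a + 1) / z ≤ ε / 4 * th N := by
      rw [div_le_iff₀ hε] at h7
      rw [div_le_iff₀ hz0, ← a2]
      calc 2 * a + 1 ≤ ε / 4 * s * 1 := by linarith
        _ ≤ ε / 4 * s * (s * th N) := by gcongr
        _ = _ := by ring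
    calc _ ≤ (2 * a + 1) / z * P := a4
      _ ≤ ε / 4 * th N * P := by gcongr
      _ = _ := by ring
  have g2 : |u' / (P * th N) - u' / (P' * th N)| ≤ ε / 4 := by
    have e : u' / (P * th N) - u' / (P' * th N) = -(u' / th N * (P - P') / (P * P')) := by
      field_simp; ring
    have a0 : 0 ≤ u' / th N := by positivity
    rw [e, abs_neg, abs_of_nonneg (div_nonneg (mul_nonneg a0 (by linarith)) (by positivity)),
      div_le_iff₀ (by positivity)]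
    have a1 : C * (2 * a / z) ≤ ε / 4 := by
      rw [div_le_iff₀ hε] at h8
      rw [← mul_div_assoc, div_le_iff₀ hz0]; linarith
    calc _ ≤ C * P' * (2 * a / z * P) :=
          mul_le_mul (d1.trans (by gcongr)) p3 (by linarith) (by positivity)
      _ = C * (2 * a / z) * (P * P') := by ring
      _ ≤ _ := by gcongr
  have g3 : |u' / (P' * th N) - v / (P' * th ⌊z⌋₊)| ≤ ε / 4 := by
    have e : u' / (P' * th N) - v / (P' * th ⌊z⌋₊) = -((v / th ⌊z⌋₊ - u' / th N) / P') := by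
      field_simp; ring
    rw [e, abs_neg, abs_div, abs_of_pos hP0', div_le_iff₀ hP0']
    refine d2.trans ?_
    have a1 : Real.log ⌊z⌋₊ ≤ Real.log z :=
      Real.log_le_log (by linarith [Nat.lt_floor_add_one z]) m1
    have a2 : Real.log z - 2 ≤ Real.log N := by
      have := Real.log_le_log (by positivity) (show z / 4 ≤ N by linarith)
      rw [Real.log_div hz0.ne' (by norm_num), show (4 : ℝ) = 2 ^ 2 by norm_num,
        Real.log_pow] at this
      push_cast at this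
      linarith [Real.log_two_lt_d9]
    have a3 : C * ((Real.log ⌊z⌋₊ - Real.log N + 20) / Real.log z) ≤ ε / 4 := by
      rw [div_le_iff₀ hε] at h5
      rw [← mul_div_assoc, div_le_iff₀ h6]
      have : C * (Real.log ⌊z⌋₊ - Real.log N + 20) ≤ C * 22 := by gcongr; linarith
      linarith
    exact mul_le_mul a3 f1 (Nat.cast_nonneg _) (by positivity)
  rw [abs_le] at k1 g1 g2 g3 ⊢
  constructor <;> linarith [k1.1, k1.2, g1.1, g1.2, g2.1, g2.2, g3.1, g3.2]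

lemma transfer {α β : Type} {F : Filter α} {G : Filter β} {f : α → ℝ} {g : β → ℝ}
    (h : ∀ ε : ℝ, 0 < ε → ∀ t ∈ G, ∀ᶠ x in F, ∃ y ∈ t, |f x - g y| ≤ ε) :
    limsup (fun x => ENNReal.ofReal (f x)) F ≤ limsup (fun y => ENNReal.ofReal (g y)) G ∧
    liminf (fun y => ENNReal.ofReal (g y)) G ≤ liminf (fun x => ENNReal.ofReal (f x)) F := by
  constructor
  · refine le_of_forall_gt_imp_ge_of_dense fun b hb => ?_
    refine ENNReal.le_of_forall_pos_le_add fun ε hε _ => ?_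
    refine limsup_le_of_le (by isBoundedDefault) ?_
    filter_upwards [h ε hε _ (eventually_lt_of_limsup_lt hb)] with x ⟨y, hy, hxy⟩
    calc ENNReal.ofReal (f x) ≤ ENNReal.ofReal (g y + ε) :=
          ENNReal.ofReal_le_ofReal (by linarith [(abs_le.1 hxy).2])
      _ ≤ ENNReal.ofReal (g y) + ENNReal.ofReal ε := ENNReal.ofReal_add_le
      _ ≤ b + ε := by rw [ENNReal.ofReal_coe_nnreal]; exact add_le_add (le_of_lt hy) le_rfl
  · refine le_of_forall_lt_imp_le_of_dense fun b hb => ?_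
    refine ENNReal.le_of_forall_pos_le_add fun ε hε _ => ?_
    rw [← tsub_le_iff_right]
    refine le_liminf_of_le (by isBoundedDefault) ?_
    filter_upwards [h ε hε _ (eventually_lt_of_lt_liminf hb)] with x ⟨y, hy, hxy⟩
    rw [tsub_le_iff_right]
    calc b ≤ ENNReal.ofReal (g y) := le_of_lt hy
      _ ≤ ENNReal.ofReal (f x + ε) := ENNReal.ofReal_le_ofReal (by linarith [(abs_le.1 hxy).1])
      _ ≤ ENNReal.ofReal (f x) + ENNReal.ofReal ε := ENNReal.ofReal_add_le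
      _ = _ := by rw [ENNReal.ofReal_coe_nnreal]

theorem main2 : ∀ᵐ ω ∂law, ∀ a : ℝ, 2 < a →
    limsup (fun x => ENNReal.ofReal (ratio (model ω) a x)) atTop =
      limsup (fun t => ENNReal.ofReal (sieveRatio a t)) (⊤ ×ˢ atTop) ∧
    liminf (fun x => ENNReal.ofReal (ratio (model ω) a x)) atTop =
      liminf (fun t => ENNReal.ofReal (sieveRatio a t)) (⊤ ×ˢ atTop) := by
  filter_upwards [key] with ω hω a ha
  have h1 := transfer (F := atTop) (G := ⊤ ×ˢ atTop) (f := ratio (model ω) a) (g := sieveRatio a)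
    (by
      intro ε hε t ht
      obtain ⟨t1, h1, t2, h2, h3⟩ := mem_prod_iff.1 ht
      filter_upwards [approx_up ha (hω a ha) hε, Real.tendsto_log_atTop.eventually h2]
        with x ⟨x', hx⟩ hx2
      exact ⟨(x', Real.log x), h3 ⟨by rw [Filter.mem_top.1 h1]; trivial, hx2⟩, hx⟩)
  have h2 := transfer (F := ⊤ ×ˢ atTop) (G := atTop) (f := sieveRatio a) (g := ratio (model ω) a)
    (by
      intro ε hε t ht
      obtain ⟨X, hX⟩ := mem_atTop_sets.1 ht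
      filter_upwards [tendsto_snd.eventually (approx_down ha (hω a ha) hε X)] with p hp
      obtain ⟨x, hx, hx'⟩ := hp p.1
      exact ⟨x, hX x hx, by rw [abs_sub_comm]; exact hx'⟩)
  exact ⟨le_antisymm h1.1 h2.1, le_antisymm h2.2 h1.2⟩

end Pool.Agent.Lib.MP_b09185_nt
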