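import Mathlib
import Pool.Agent.Lib.MP_b09185_nt.MaiFew

namespace Pool.Agent.Lib.MP_b09185_nt.OldFewPrimes

theorem result : ∀ a u : ℝ, 0 < a → a ≤ u → 3 / 2 ≤ u → u < 2 →
    Filter.liminf (fun x : ℝ => ((Real.log x / Real.log x ^ a *
        ((Nat.primeCounting ⌊x + Real.log x ^ a⌋₊ : ℝ) - (Nat.primeCounting ⌊x⌋₊ : ℝ)) : ℝ) : EReal))
      Filter.atTop ≤
      ((2 * Real.exp Real.eulerMascheroniConstant * (u - 1) / u ^ 2 : ℝ) : EReal) :=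
  fun _ _ ha hau h1 h2 => Pool.Agent.Lib.MP_b09185_nt.Mai.liminf_le_of fun _ hε =>
    Pool.Agent.Lib.MP_b09185_nt.Mai.few_primes ha hau h1 h2 hε

end Pool.Agent.Lib.MP_b09185_nt.OldFewPrimes
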