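import Mathlib
import Pool.Agent.Lib.MP_b09185_nt.Main

namespace Pool.Agent.Lib.MP_b09185_nt.OldRandomSieve

open Pool.Agent.Lib.MP_b09185_nt

theorem result : ∀ ε : ℝ, 0 < ε → ∃ a₀ : ℝ, ∀ᵐ c ∂law, ∀ a : ℝ, a₀ ≤ a →
    ∀ᶠ x : ℝ in Filter.atTop, |ratio (model c) a x - 1| ≤ ε :=
  main1

end Pool.Agent.Lib.MP_b09185_nt.OldRandomSieve
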