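import Mathlib
import Pool.Agent.Lib.MP_b09185_nt.Main

namespace Pool.Agent.Lib.MP_b09185_nt.OldRandomSieveExact

open Pool.Agent.Lib.MP_b09185_nt Filter

theorem result : ∀ᵐ c ∂law, ∀ a : ℝ, 2 < a →
    limsup (fun x => ENNReal.ofReal (ratio (model c) a x)) atTop =
      limsup (fun t => ENNReal.ofReal (sieveRatio a t)) (⊤ ×ˢ atTop) ∧
    liminf (fun x => ENNReal.ofReal (ratio (model c) a x)) atTop =
      liminf (fun t => ENNReal.ofReal (sieveRatio a t)) (⊤ ×ˢ atTop) :=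
  main2

end Pool.Agent.Lib.MP_b09185_nt.OldRandomSieveExact
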