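import Pool.Agent.Lib.MP_b09185_nt.ShDef

/-! From Gaussian averages of the von Mangoldt function to primes in short intervals. -/

namespace Pool.Agent.Lib.MP_b09185_nt.Sh

open Real Finset Filter Topology MeasureTheory ArithmeticFunction Chebyshev

noncomputable section

namespace End

/-- the Gaussian -/
def g (a : ℝ) : ℝ := Real.exp (-a ^ 2 / 2)

lemma g_pos (a : ℝ) : 0 < g a := Real.exp_pos _

lemma g_cont : Continuous g := by unfold g; fun_prop

lemma g_eq : g = fun a => Real.exp (-(1 / 2) * a ^ 2) := by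
  funext a; unfold g; congr 1; ring

lemma g_int : Integrable g := by
  rw [g_eq]; exact integrable_exp_neg_mul_sq (by norm_num)

lemma int_g : ∫ a, g a = √(2 * π) := by
  rw [g_eq, integral_gaussian]; congr 1; ring

lemma g_tail {K a : ℝ} (hK : 0 ≤ K) (h : K ≤ |a|) :
    g a ≤ Real.exp (-(3 / 8) * K ^ 2) * g (a / 2) := by
  unfold g
  rw [← Real.exp_add]
  apply Real.exp_le_exp.2
  have := pow_le_pow_left₀ hK h 2
  rw [sq_abs] at this
  nlinarith

lemma win_eq (H l a b : ℝ) :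
    ∫ v in a..b, H * g (H * (l - v)) = ∫ s in (H * l - H * b)..(H * l - H * a), g s := by
  rw [← intervalIntegral.smul_integral_comp_sub_mul, intervalIntegral.integral_const_mul,
    smul_eq_mul]
  simp only [mul_sub]

lemma win_le {H a b : ℝ} (hH : 0 ≤ H) (hab : a ≤ b) (l : ℝ) :
    ∫ v in a..b, H * g (H * (l - v)) ≤ √(2 * π) := by
  rw [win_eq, intervalIntegral.integral_of_le (by nlinarith), ← int_g]
  exact setIntegral_le_integral g_int (ae_of_all _ fun s => (g_pos s).le)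

lemma win_ge {H a b l K : ℝ} (hK : 0 ≤ K) (ha : K ≤ H * (l - a)) (hb : K ≤ H * (b - l)) :
    ∫ s in (-K)..K, g s ≤ ∫ v in a..b, H * g (H * (l - v)) := by
  rw [win_eq]
  exact intervalIntegral.integral_mono_interval (by linarith) (by linarith) (by linarith)
    (ae_of_all _ fun s => (g_pos s).le) (g_cont.intervalIntegrable _ _)

lemma exists_K {d : ℝ} (hd : 0 < d) : ∃ K : ℝ, 0 ≤ K ∧ (1 - d) * √(2 * π) ≤ ∫ s in (-K)..K, g s ∧
    Real.exp (-(3 / 8) * K ^ 2) ≤ d := by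
  have h1 := intervalIntegral_tendsto_integral g_int tendsto_neg_atTop_atBot tendsto_id
  rw [int_g] at h1
  have hp : 0 < √(2 * π) := Real.sqrt_pos.2 (by positivity)
  have h2 := h1.eventually (eventually_ge_nhds (show (1 - d) * √(2 * π) < √(2 * π) by nlinarith))
  have h3 : Tendsto (fun K : ℝ => Real.exp (-(3 / 8) * K ^ 2)) atTop (𝓝 0) :=
    Real.tendsto_exp_atBot.comp ((tendsto_pow_atTop two_ne_zero).const_mul_atTop_of_neg
      (by norm_num))
  obtain ⟨K, hK⟩ := ((eventually_ge_atTop 0).and (h2.and (h3.eventually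
    (eventually_le_nhds hd)))).exists
  exact ⟨K, hK.1, hK.2.1, hK.2.2⟩

/-- the terms of the Gaussian average -/
def tm (H v : ℝ) (n : ℕ) : ℝ := Λ n * g (H * (Real.log n - v))

lemma tm_nonneg (H v : ℝ) (n : ℕ) : 0 ≤ tm H v n :=
  mul_nonneg vonMangoldt_nonneg (g_pos _).le

lemma int_fin (H a b : ℝ) (F : Finset ℕ) : ∫ v in a..b, H * ∑ n ∈ F, tm H v n =
    ∑ n ∈ F, Λ n * ∫ v in a..b, H * g (H * (Real.log n - v)) := by
  have hc : ∀ n : ℕ, Continuous fun v => Λ n * (H * g (H * (Real.log n - v))) := fun n =>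
    continuous_const.mul (continuous_const.mul (g_cont.comp (by fun_prop)))
  simp_rw [← intervalIntegral.integral_const_mul]
  rw [← intervalIntegral.integral_finsetSum fun n _ => (hc n).intervalIntegrable _ _]
  congr 1
  funext v
  rw [Finset.mul_sum]
  refine Finset.sum_congr rfl fun n _ => ?_
  unfold tm; ring

lemma cont_fin (H : ℝ) (F : Finset ℕ) : Continuous fun v => H * ∑ n ∈ F, tm H v n :=
  continuous_const.mul (continuous_finsetSum _ fun n _ =>
    continuous_const.mul (g_cont.comp (by fun_prop)))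

lemma psi_sub {x y : ℝ} (hy : 0 ≤ y) :
    ψ (x + y) - ψ x = ∑ n ∈ Ioc ⌊x⌋₊ ⌊x + y⌋₊, Λ n := by
  unfold psi
  rw [← Finset.sum_Ioc_consecutive _ (Nat.zero_le ⌊x⌋₊) (Nat.floor_le_floor (by linarith))]
  ring

lemma mem_iff {x y : ℝ} (hx : 0 ≤ x) (hy : 0 ≤ y) {n : ℕ} :
    n ∈ Ioc ⌊x⌋₊ ⌊x + y⌋₊ ↔ x < n ∧ (n : ℝ) ≤ x + y := by
  rw [mem_Ioc, Nat.floor_lt hx, Nat.le_floor_iff (by linarith)]

lemma upper {H K x y d : ℝ} (hH : 0 < H) (hK : 0 ≤ K) (hx : 0 < x) (hy : 0 ≤ y)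
    (hd : (1 - d) * √(2 * π) ≤ ∫ s in (-K)..K, g s)
    (hS : ∀ v, Real.log x - K / H ≤ v → Summable (tm H v) ∧
      H * ∑' n, tm H v n ≤ (1 + d) * √(2 * π) * Real.exp v) :
    (1 - d) * (ψ (x + y) - ψ x) ≤
      (1 + d) * ((x + y) * Real.exp (K / H) - x * Real.exp (-(K / H))) := by
  have hp : 0 < √(2 * π) := Real.sqrt_pos.2 (by positivity)
  have hr : 0 ≤ K / H := by positivity
  have hl : Real.log x ≤ Real.log (x + y) := Real.log_le_log hx (by linarith)
  have hab : Real.log x - K / H ≤ Real.log (x + y) + K / H := by linarith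
  have hKH : H * (K / H) = K := by field_simp
  have h1 : ∫ v in (Real.log x - K / H)..(Real.log (x + y) + K / H),
      H * ∑ n ∈ Ioc ⌊x⌋₊ ⌊x + y⌋₊, tm H v n ≤
      ∫ v in (Real.log x - K / H)..(Real.log (x + y) + K / H),
        (1 + d) * √(2 * π) * Real.exp v := by
    refine intervalIntegral.integral_mono_on hab ((cont_fin _ _).intervalIntegrable _ _)
      (Continuous.intervalIntegrable (by fun_prop) _ _) fun v hv => ?_
    obtain ⟨h1, h2⟩ := hS v hv.1
    exact (mul_le_mul_of_nonneg_left (h1.sum_le_tsum _ fun n _ => tm_nonneg H v n) hH.le).trans h2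
  rw [int_fin, intervalIntegral.integral_const_mul, integral_exp, Real.exp_add, sub_eq_add_neg
    (Real.log x), Real.exp_add, Real.exp_log hx, Real.exp_log (by linarith)] at h1
  have h2 : (1 - d) * √(2 * π) * (ψ (x + y) - ψ x) ≤ ∑ n ∈ Ioc ⌊x⌋₊ ⌊x + y⌋₊,
      Λ n * ∫ v in (Real.log x + -(K / H))..(Real.log (x + y) + K / H),
        H * g (H * (Real.log n - v)) := by
    rw [psi_sub hy, Finset.mul_sum]
    refine Finset.sum_le_sum fun n hn => ?_
    obtain ⟨n1, n2⟩ := (mem_iff hx.le hy).1 hn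
    have l1 := Real.log_le_log hx n1.le
    have l2 := Real.log_le_log (hx.trans n1) n2
    rw [mul_comm]
    refine mul_le_mul_of_nonneg_left (hd.trans (win_ge hK ?_ ?_)) vonMangoldt_nonneg
    · nlinarith
    · nlinarith
  have h3 := h2.trans h1
  refine le_of_mul_le_mul_left ?_ hp
  linarith

lemma lower {H K x y d : ℝ} (hH : 0 < H) (hK : 0 ≤ K) (hx : 0 < x) (hy : 0 ≤ y)
    (hd : Real.exp (-(3 / 8) * K ^ 2) ≤ d)
    (hab : Real.log x + K / H ≤ Real.log (x + y) - K / H)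
    (hS : ∀ v, Real.log x - K / H ≤ v → (Summable (tm H v) ∧
      (1 - d) * √(2 * π) * Real.exp v ≤ H * ∑' n, tm H v n) ∧ Summable (tm (H / 2) v) ∧
      H / 2 * ∑' n, tm (H / 2) v n ≤ 2 * √(2 * π) * Real.exp v) :
    (1 - 5 * d) * ((x + y) * Real.exp (-(K / H)) - x * Real.exp (K / H)) ≤ ψ (x + y) - ψ x := by
  have hp : 0 < √(2 * π) := Real.sqrt_pos.2 (by positivity)
  have hr : 0 ≤ K / H := by positivity
  have hKH : H * (K / H) = K := by field_simp
  have hd0 : 0 ≤ d := (Real.exp_pos _).le.trans hd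
  have h1 : ∫ v in (Real.log x + K / H)..(Real.log (x + y) - K / H),
        (1 - 5 * d) * √(2 * π) * Real.exp v ≤
      ∫ v in (Real.log x + K / H)..(Real.log (x + y) - K / H),
        H * ∑ n ∈ Ioc ⌊x⌋₊ ⌊x + y⌋₊, tm H v n := by
    refine intervalIntegral.integral_mono_on hab (Continuous.intervalIntegrable (by fun_prop) _ _)
      ((cont_fin _ _).intervalIntegrable _ _) fun v hv => ?_
    obtain ⟨⟨s1, h1⟩, s2, h2⟩ := hS v (by linarith [hv.1])
    rw [← s1.sum_add_tsum_compl (s := Ioc ⌊x⌋₊ ⌊x + y⌋₊)] at h1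
    have h3 : ∑' n : ↥((Ioc ⌊x⌋₊ ⌊x + y⌋₊ : Finset ℕ) : Set ℕ)ᶜ, tm H v n ≤
        d * ∑' n, tm (H / 2) v n := by
      rw [← tsum_mul_left]
      refine Summable.tsum_le_tsum_of_inj Subtype.val Subtype.val_injective
        (fun n _ => mul_nonneg hd0 (tm_nonneg _ _ _)) (fun n => ?_) (s1.subtype _) (s2.mul_left d)
      obtain ⟨n, hn⟩ := n
      rcases Nat.eq_zero_or_pos n with rfl | hn0
      · simp [tm]
      have hn1 : (0 : ℝ) < n := by exact_mod_cast hn0
      have hn2 : ¬ (x < n ∧ (n : ℝ) ≤ x + y) := fun h => hn (by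
        rw [Finset.mem_coe]; exact (mem_iff hx.le hy).2 h)
      have hK' : K ≤ |H * (Real.log n - v)| := by
        rcases not_and_or.1 hn2 with h | h
        · have := Real.log_le_log hn1 (not_lt.1 h)
          rw [le_abs]; right; nlinarith [hv.1]
        · have := Real.log_le_log (by linarith) (not_le.1 h).le
          rw [le_abs]; left; nlinarith [hv.2]
      have h4 := (g_tail hK hK').trans (mul_le_mul_of_nonneg_right hd (g_pos _).le)
      have h5 : H * (Real.log n - v) / 2 = H / 2 * (Real.log n - v) := by ring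
      rw [h5] at h4
      have := mul_le_mul_of_nonneg_left h4 (vonMangoldt_nonneg (n := n))
      unfold tm
      linarith
    have h4 := mul_le_mul_of_nonneg_left h3 hH.le
    have h5 := mul_le_mul_of_nonneg_left h2 hd0
    nlinarith
  rw [int_fin, intervalIntegral.integral_const_mul, integral_exp, Real.exp_add, sub_eq_add_neg
    (Real.log (x + y)), Real.exp_add, Real.exp_log hx, Real.exp_log (by linarith)] at h1
  have h2 : ∑ n ∈ Ioc ⌊x⌋₊ ⌊x + y⌋₊,
      Λ n * ∫ v in (Real.log x + K / H)..(Real.log (x + y) + -(K / H)),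
        H * g (H * (Real.log n - v)) ≤ √(2 * π) * (ψ (x + y) - ψ x) := by
    rw [psi_sub hy, Finset.mul_sum]
    refine Finset.sum_le_sum fun n _ => ?_
    rw [mul_comm (√(2 * π))]
    exact mul_le_mul_of_nonneg_left (win_le hH.le (by linarith) _) vonMangoldt_nonneg
  have h3 := h1.trans h2
  refine le_of_mul_le_mul_left ?_ hp
  linarith

lemma of_GA {k d : ℝ} (h : GA k) (hd : 0 < d) (hd1 : d < 1) : ∃ u0 : ℝ, ∀ v H : ℝ,
    u0 ≤ Real.exp v → 0 < H → u0 ≤ H → H ≤ Real.exp v ^ k → Summable (tm H v) ∧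
      (1 - d) * √(2 * π) * Real.exp v ≤ H * ∑' n, tm H v n ∧
      H * ∑' n, tm H v n ≤ (1 + d) * √(2 * π) * Real.exp v := by
  obtain ⟨u0, hu⟩ := h d hd
  refine ⟨u0, fun v H h1 h0 h2 h3 => ?_⟩
  have h4 := hu _ H h1 h2 h3
  rw [Real.log_exp] at h4
  change |H / (Real.exp v * √(2 * π)) * (∑' n, tm H v n) - 1| ≤ d at h4
  have hp : 0 < Real.exp v * √(2 * π) := mul_pos (Real.exp_pos _) (Real.sqrt_pos.2 (by positivity))
  obtain ⟨h5, h6⟩ := abs_le.1 h4
  rw [div_mul_eq_mul_div] at h5 h6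
  refine ⟨?_, ?_, ?_⟩
  · by_contra hs
    rw [tsum_eq_zero_of_not_summable hs] at h5
    simp at h5
    linarith
  · have : 1 - d ≤ (H * ∑' n, tm H v n) / (Real.exp v * √(2 * π)) := by linarith
    rw [le_div_iff₀ hp] at this
    linarith
  · have : (H * ∑' n, tm H v n) / (Real.exp v * √(2 * π)) ≤ 1 + d := by linarith
    rw [div_le_iff₀ hp] at this
    linarith

lemma ev_small {a : ℝ} (ha : a < 0) (C : ℝ) {e : ℝ} (he : 0 < e) :
    ∀ᶠ x : ℝ in atTop, C * x ^ a ≤ e := by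
  have := (tendsto_rpow_neg_atTop (y := -a) (by linarith)).const_mul C
  rw [neg_neg, mul_zero] at this
  exact this.eventually (eventually_le_nhds he)

lemma psi_short {k t : ℝ} (hk : 0 < k) (h : GA k) (ht : 1 - k < t) {d : ℝ} (hd : 0 < d)
    (hd1 : d ≤ 1 / 10) : ∀ᶠ x : ℝ in atTop, ∀ y, x ^ t ≤ y → y ≤ x →
      (1 - 9 * d) * y ≤ ψ (x + y) - ψ x ∧ ψ (x + y) - ψ x ≤ (1 + 9 * d) * y := by
  obtain ⟨K, hK, hK1, hK2⟩ := exists_K hd
  obtain ⟨u0, hu⟩ := of_GA h hd (by linarith)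
  have t1 : Tendsto (fun x : ℝ => (x / 2) ^ k) atTop atTop :=
    (tendsto_rpow_atTop hk).comp (tendsto_id.atTop_div_const two_pos)
  filter_upwards [eventually_gt_atTop 0, eventually_ge_atTop (2 * u0),
    t1.eventually_ge_atTop (2 * u0), t1.eventually_ge_atTop u0, t1.eventually_ge_atTop (2 * K),
    ev_small (a := 1 - k - t) (by linarith) (K * 2 ^ k) hd] with x hx hx0 hH1 hH2 hH3 hsm y hy1 hy2
  set H := (x / 2) ^ k with hHdef
  have hH : 0 < H := by positivity
  have hxt : 0 < x ^ t := by positivity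
  have hy : 0 < y := hxt.trans_le hy1
  have hr0 : 0 ≤ K / H := by positivity
  have hr : K / H ≤ 1 / 2 := by rw [div_le_iff₀ hH]; linarith
  have hrx : K / H * x ≤ d * y := by
    have e1 : K / H * x = K * 2 ^ k * x ^ (1 - k - t) * x ^ t := by
      rw [mul_assoc (K * 2 ^ k), ← Real.rpow_add hx, hHdef, Real.div_rpow hx.le zero_le_two,
        show 1 - k - t + t = 1 - k by ring, Real.rpow_sub hx, Real.rpow_one]
      field_simp
    rw [e1]
    exact mul_le_mul hsm hy1 hxt.le hd.le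
  set r := K / H with hrdef
  have e1 : 1 - r ≤ Real.exp (-r) := by linarith [Real.add_one_le_exp (-r)]
  have e2 : Real.exp r ≤ 1 + 2 * r := by
    have h1 : Real.exp r * Real.exp (-r) = 1 := by rw [← Real.exp_add]; simp
    have h2 := Real.exp_pos r
    nlinarith
  have hv : ∀ v, Real.log x - r ≤ v → x / 2 ≤ Real.exp v := fun v hv => by
    have h1 := Real.exp_le_exp.2 hv
    rw [sub_eq_add_neg, Real.exp_add, Real.exp_log hx] at h1
    nlinarith
  have hv2 : ∀ v, Real.log x - r ≤ v → H ≤ Real.exp v ^ k := fun v h' =>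
    Real.rpow_le_rpow (by positivity) (hv v h') hk.le
  have hA : ∀ v, Real.log x - r ≤ v → _ := fun v h' =>
    hu v H (by linarith [hv v h']) hH hH2 (hv2 v h')
  have hB : ∀ v, Real.log x - r ≤ v → _ := fun v h' =>
    hu v (H / 2) (by linarith [hv v h']) (by positivity) (by linarith) (by linarith [hv2 v h'])
  have hp : 0 < √(2 * π) := Real.sqrt_pos.2 (by positivity)
  have hlo : (1 - 4 * d) * y ≤ (x + y) * Real.exp (-r) - x * Real.exp r := by
    have h1 := mul_le_mul_of_nonneg_left e1 (by linarith : 0 ≤ x + y)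
    have h2 := mul_le_mul_of_nonneg_left e2 hx.le
    have h3 := mul_le_mul_of_nonneg_left hy2 hr0
    nlinarith
  have hup : (x + y) * Real.exp r - x * Real.exp (-r) ≤ (1 + 5 * d) * y := by
    have h1 := mul_le_mul_of_nonneg_left e2 (by linarith : 0 ≤ x + y)
    have h2 := mul_le_mul_of_nonneg_left e1 hx.le
    have h3 := mul_le_mul_of_nonneg_left hy2 hr0
    nlinarith
  have hab : Real.log x + r ≤ Real.log (x + y) - r := by
    rw [← Real.exp_le_exp, sub_eq_add_neg, Real.exp_add, Real.exp_add, Real.exp_log hx,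
      Real.exp_log (by linarith)]
    nlinarith
  have U := upper hH hK hx hy.le hK1 fun v h' => ⟨(hA v h').1, (hA v h').2.2⟩
  have L := lower hH hK hx hy.le hK2 hab fun v h' => ⟨⟨(hA v h').1, (hA v h').2.1⟩, (hB v h').1,
    (hB v h').2.2.trans (by
      have := mul_pos hp (Real.exp_pos v)
      nlinarith)⟩
  have hdy := mul_pos hd hy
  constructor
  · have h1 := mul_le_mul_of_nonneg_left hlo (by linarith : 0 ≤ 1 - 5 * d)
    nlinarith [mul_pos hd hdy]
  · have h1 := mul_le_mul_of_nonneg_left hup (by linarith : 0 ≤ 1 + d)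
    have h2 : (1 - d) * (ψ (x + y) - ψ x) ≤ (1 - d) * ((1 + 9 * d) * y) := by
      have := mul_le_mul_of_nonneg_right hd1 hdy.le
      nlinarith
    exact le_of_mul_le_mul_left h2 (by linarith)

lemma theta_sub {x y : ℝ} (hy : 0 ≤ y) :
    θ (x + y) - θ x = ∑ n ∈ Ioc ⌊x⌋₊ ⌊x + y⌋₊ with n.Prime, Real.log n := by
  unfold theta
  simp only [Finset.sum_filter]
  rw [← Finset.sum_Ioc_consecutive _ (Nat.zero_le ⌊x⌋₊) (Nat.floor_le_floor (by linarith))]
  ring

lemma pi_eq (m : ℕ) : (Nat.primeCounting m : ℝ) = ∑ n ∈ Ioc 0 m with n.Prime, (1 : ℝ) := by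
  rw [← Nat.primesLE_card_eq_primeCounting, Finset.sum_const, nsmul_eq_mul, mul_one]
  congr 2
  ext n
  simp only [Nat.mem_primesLE, mem_filter, mem_Ioc]
  exact ⟨fun h => ⟨⟨h.2.pos, h.1⟩, h.2⟩, fun h => ⟨h.1.2, h.2⟩⟩

lemma pi_sub {x y : ℝ} (hy : 0 ≤ y) :
    (Nat.primeCounting ⌊x + y⌋₊ : ℝ) - (Nat.primeCounting ⌊x⌋₊ : ℝ) =
      ∑ n ∈ Ioc ⌊x⌋₊ ⌊x + y⌋₊ with n.Prime, (1 : ℝ) := by
  rw [pi_eq, pi_eq]
  simp only [Finset.sum_filter]
  rw [← Finset.sum_Ioc_consecutive _ (Nat.zero_le ⌊x⌋₊) (Nat.floor_le_floor (by linarith))]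
  ring

lemma theta_pi {x y : ℝ} (hx : 0 < x) (hy : 0 ≤ y) (hyx : y ≤ x) :
    Real.log x * ((Nat.primeCounting ⌊x + y⌋₊ : ℝ) - (Nat.primeCounting ⌊x⌋₊ : ℝ)) ≤
      θ (x + y) - θ x ∧ θ (x + y) - θ x ≤ (Real.log 2 + Real.log x) *
        ((Nat.primeCounting ⌊x + y⌋₊ : ℝ) - (Nat.primeCounting ⌊x⌋₊ : ℝ)) := by
  rw [theta_sub hy, pi_sub hy, Finset.mul_sum, Finset.mul_sum]
  constructor <;> refine Finset.sum_le_sum fun n hn => ?_ <;>
    obtain ⟨n1, n2⟩ := (mem_iff hx.le hy).1 (mem_filter.1 hn).1 <;> rw [mul_one]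
  · exact Real.log_le_log hx n1.le
  · rw [← Real.log_mul two_ne_zero hx.ne']
    exact Real.log_le_log (hx.trans n1) (by linarith)

end End

open End in
/-- Primes in short intervals, uniformly in the length. -/
theorem short_of_GA {k t : ℝ} (hk : 0 < k) (h : GA k) (ht : 1 - k < t) (ht2 : 1 / 2 < t) :
    ∀ e : ℝ, 0 < e → ∀ᶠ x : ℝ in atTop, ∀ y : ℝ, x ^ t ≤ y → y ≤ x →
      |Real.log x / y * ((Nat.primeCounting ⌊x + y⌋₊ : ℝ) - (Nat.primeCounting ⌊x⌋₊ : ℝ)) - 1|
        ≤ e := by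
  intro e he
  obtain ⟨d, hd, hd1, hde⟩ : ∃ d : ℝ, 0 < d ∧ d ≤ 1 / 10 ∧ 11 * d ≤ e :=
    ⟨min (1 / 10) (e / 11), by positivity, min_le_left _ _, by
      linarith [min_le_right (1 / 10) (e / 11)]⟩
  obtain ⟨C, hC⟩ := psi_sub_theta_le_mul_sqrt
  filter_upwards [psi_short hk h ht hd hd1, eventually_gt_atTop 1,
    ev_small (a := 1 / 2 - t) (by linarith) (2 * |C|) hd,
    Real.tendsto_log_atTop.eventually_ge_atTop (Real.log 2 / d)] with x hpsi hx hsm hlog y hy1 hy2
  have hx0 : 0 < x := by linarith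
  have hxt : 0 < x ^ t := by positivity
  have hy : 0 < y := hxt.trans_le hy1
  obtain ⟨p1, p2⟩ := hpsi y hy1 hy2
  obtain ⟨q1, q2⟩ := theta_pi hx0 hy.le hy2
  have hl : 0 < Real.log x := Real.log_pos hx
  have hs : ∀ z, z ≤ 2 * x → ψ z - θ z ≤ d * y := fun z hz => by
    have h1 : √z ≤ 2 * x ^ (1 / 2 : ℝ) := by
      rw [← Real.sqrt_eq_rpow, Real.sqrt_le_iff]
      refine ⟨by positivity, ?_⟩
      rw [mul_pow, Real.sq_sqrt hx0.le]; linarith
    have h2 : x ^ (1 / 2 : ℝ) = x ^ (1 / 2 - t) * x ^ t := by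
      rw [← Real.rpow_add hx0]; congr 1; ring
    have h3 := mul_le_mul hsm hy1 hxt.le hd.le
    have h4 := mul_le_mul (le_abs_self C) h1 (Real.sqrt_nonneg z) (abs_nonneg C)
    have h5 := hC z
    rw [h2] at h4
    linarith
  have s1 := hs x (by linarith)
  have s2 := hs (x + y) (by linarith)
  have s3 := theta_le_psi x
  have s4 := theta_le_psi (x + y)
  set D := (Nat.primeCounting ⌊x + y⌋₊ : ℝ) - (Nat.primeCounting ⌊x⌋₊ : ℝ) with hD
  have hD0 : 0 ≤ D := by
    rw [hD, pi_sub hy.le]; exact Finset.sum_nonneg fun _ _ => zero_le_one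
  rw [div_le_iff₀ hd] at hlog
  have hey := mul_le_mul_of_nonneg_right hde hy.le
  have hdy := mul_pos hd hy
  rw [div_mul_eq_mul_div, abs_le]
  constructor
  · have h1 : (1 - 10 * d) * y ≤ (1 + d) * (Real.log x * D) := by
      have := mul_le_mul_of_nonneg_right hlog hD0
      nlinarith
    have h2 : (1 + d) * ((1 - 11 * d) * y) ≤ (1 + d) * (Real.log x * D) := by
      nlinarith [mul_pos hd hdy]
    have h3 := le_of_mul_le_mul_left h2 (by linarith)
    have : 1 - e ≤ Real.log x * D / y := by rw [le_div_iff₀ hy]; nlinarith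
    linarith
  · have : Real.log x * D / y ≤ 1 + e := by rw [div_le_iff₀ hy]; nlinarith
    linarith

/-- Primes in the intervals of length `x ^ t`. -/
theorem tendsto_of_GA {k t : ℝ} (hk : 0 < k) (h : GA k) (ht : 1 - k < t) (ht2 : 1 / 2 < t)
    (ht1 : t ≤ 1) : Tendsto (fun x : ℝ => Real.log x / x ^ t *
      ((Nat.primeCounting ⌊x + x ^ t⌋₊ : ℝ) - (Nat.primeCounting ⌊x⌋₊ : ℝ))) atTop (𝓝 1) := by
  rw [Metric.tendsto_nhds]
  intro e he
  filter_upwards [short_of_GA hk h ht ht2 (e / 2) (by linarith), eventually_ge_atTop 1]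
    with x hx hx1
  have := hx _ le_rfl (by simpa using Real.rpow_le_rpow_of_exponent_le hx1 ht1)
  rw [Real.dist_eq]; linarith

end

end Pool.Agent.Lib.MP_b09185_nt.Sh
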