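import Pool.Agent.Lib.MP_b09185_nt.ShL1

/-! The mean square bound. -/

namespace Pool.Agent.Lib.MP_b09185_nt.Sh

open Finset Complex Filter MeasureTheory Topology

/-- the mean square estimate up to height `exp (a v)` -/
def L2 (a : ℝ) : Prop := ∀ e : ℝ, 0 < e → ∀ᶠ v : ℝ in atTop,
  ∫ t in (-Real.exp (a * v))..(Real.exp (a * v)), ‖PG v t - PM v t‖ ^ 2 ≤ e

theorem L2_of (hD : Dens) (hZ : ZF) (hP : Pt) {a : ℝ} (h0 : 0 < a) (h1 : a < 8 / 9) : L2 a := by
  obtain ⟨θ, L0, hθ0, hθ1, hZ⟩ := hZ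
  obtain ⟨C, v0, hP⟩ := hP
  obtain ⟨b, hab, hb⟩ := exists_between h1
  have hb0 : 0 < b := by linarith
  obtain ⟨A, hA1, hA2⟩ := exists_between (show (9 / 4 : ℝ) < 2 / b by
    rw [lt_div_iff₀ hb0]; linarith)
  have hκ : 0 < 2 - A * b := by
    rw [lt_div_iff₀ hb0] at hA2; linarith
  obtain ⟨B, C', hD⟩ := hD A hA1
  set κ := 2 - A * b with hκd
  set n := ⌈B⌉₊ with hn
  intro e he
  have t1 : Tendsto (fun v : ℝ => 2 * C ^ 2 * (v ^ 6 * Real.exp (-(8 / 9 - a) * v ^ (1 : ℝ))) +
      90 * C ^ 2 * |C'| * (v ^ (n + 8) * Real.exp (-κ * v ^ (1 - θ)))) atTop (𝓝 0) := by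
    have := ((l1_lim 6 (κ := 8 / 9 - a) (by linarith) one_pos).const_mul (2 * C ^ 2)).add
      ((l1_lim (n + 8) hκ (φ := 1 - θ) (by linarith)).const_mul (90 * C ^ 2 * |C'|))
    simpa using this
  have t2 : Tendsto (fun v : ℝ => v ^ 0 * Real.exp (-(b - a) * v ^ (1 : ℝ)) +
      4 * (v ^ 1 * Real.exp (-b * v ^ (1 : ℝ)))) atTop (𝓝 0) := by
    have := (l1_lim 0 (κ := b - a) (by linarith) one_pos).add
      ((l1_lim 1 hb0 one_pos).const_mul 4)
    simpa using this
  filter_upwards [t1.eventually (eventually_le_nhds he), t2.eventually (eventually_le_nhds one_pos),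
    eventually_ge_atTop 1, eventually_ge_atTop v0, eventually_ge_atTop L0,
    eventually_ge_atTop (1 / b)] with v e1 e2 hv hv0 hL hvb
  have hv' : 0 < v := by linarith
  simp only [Real.rpow_one, pow_zero, pow_one, one_mul] at e1 e2
  have hbv : 1 ≤ b * v := by rw [div_le_iff₀ hb0] at hvb; linarith
  have hT' : Real.exp (a * v) + 2 * v + 2 ≤ Real.exp (b * v) := by
    have h2 := mul_le_mul_of_nonneg_right e2 (Real.exp_pos (b * v)).le
    have h3 : Real.exp (-(b - a) * v) * Real.exp (b * v) = Real.exp (a * v) := by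
      rw [← Real.exp_add]; congr 1; ring
    have h4 : Real.exp (-b * v) * Real.exp (b * v) = 1 := by
      rw [← Real.exp_add]; simp
    have h5 : (Real.exp (-(b - a) * v) + 4 * (v * Real.exp (-b * v))) * Real.exp (b * v) =
        Real.exp (-(b - a) * v) * Real.exp (b * v) +
          4 * v * (Real.exp (-b * v) * Real.exp (b * v)) := by ring
    rw [h5, h3, h4] at h2
    linarith
  have hbe : Real.exp (b * v) ≤ Real.exp v := Real.exp_le_exp.2 (by nlinarith)
  have hpos := Real.exp_pos (a * v)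
  have main := l1_fix (f := fun t => ‖PG v t - PM v t‖ ^ 2) (C := C ^ 2 * v ^ 6)
    (Q := |C'| * v ^ n * Real.exp (-κ * v ^ (1 - θ))) (v := 2 * v) (η := v ^ (-θ))
    (T := Real.exp (a * v)) (T' := Real.exp (b * v)) (by linarith) (by positivity) (by positivity)
    hpos.le (fun _ => by positivity) ?_ hT' (fun s h2 h3 => hZ v hL s h2 (h3.trans hbe)) ?_ ?_
  · refine main.trans (le_trans ?_ e1)
    apply add_le_add
    · apply le_of_eq
      have : Real.exp (-(8 / 9 - a) * v) = Real.exp (a * v) * Real.exp (-(4 / 9) * (2 * v)) := by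
        rw [← Real.exp_add]; congr 1; ring
      rw [this]
      ring
    · calc (2 * v + 1) * (2 * (2 * v + 3) * (C ^ 2 * v ^ 6 * 3 *
            (|C'| * v ^ n * Real.exp (-κ * v ^ (1 - θ)))))
          ≤ (3 * v) * (2 * (5 * v) * (C ^ 2 * v ^ 6 * 3 *
            (|C'| * v ^ n * Real.exp (-κ * v ^ (1 - θ))))) := by
            gcongr <;> linarith
        _ = _ := by ring
  · refine le_trans (one_div_le_one_div_of_le hv' (by linarith)) ?_
    rw [one_div, ← Real.rpow_neg_one]
    exact Real.rpow_le_rpow_of_exponent_le hv (by linarith)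
  · intro t σ ht h2 h3 h4
    have h5 := hP v t σ hv0 (by linarith) h2 h3 fun s a1 a2 => h4 s a1 (by linarith)
    refine (pow_le_pow_left₀ (norm_nonneg _) h5 2).trans (le_of_eq ?_)
    rw [show 2 * v * (σ - 1) = v * (σ - 1) + v * (σ - 1) by ring, Real.exp_add]
    ring
  · intro σ h2 h3 S h4 h5
    have hη : 0 < v ^ (-θ) := Real.rpow_pos_of_pos hv' _
    refine (hD _ σ (by linarith) h2 (by linarith) S h4 h5).trans ?_
    rw [Real.log_exp, ← Real.exp_mul]
    have h6 : (b * v) ^ B ≤ v ^ n := by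
      calc (b * v) ^ B ≤ (b * v) ^ (n : ℝ) :=
            Real.rpow_le_rpow_of_exponent_le hbv (Nat.le_ceil B)
        _ = (b * v) ^ n := Real.rpow_natCast _ _
        _ ≤ v ^ n := by gcongr; nlinarith
    have h7 : Real.exp (b * v * (A * (1 - σ))) ≤
        Real.exp (-κ * v ^ (1 - θ)) * Real.exp (2 * v * (1 - σ)) := by
      rw [← Real.exp_add]
      apply Real.exp_le_exp.2
      have h8 : v ^ (1 - θ) = v * v ^ (-θ) := by
        rw [sub_eq_add_neg, Real.rpow_add hv', Real.rpow_one]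
      have h9 : κ * (v * v ^ (-θ)) ≤ κ * (v * (1 - σ)) := by
        gcongr; linarith
      rw [h8]
      have : b * v * (A * (1 - σ)) = 2 * v * (1 - σ) - κ * (v * (1 - σ)) := by rw [hκd]; ring
      linarith
    calc C' * Real.exp (b * v * (A * (1 - σ))) * (b * v) ^ B
        ≤ |C'| * Real.exp (b * v * (A * (1 - σ))) * (b * v) ^ B := by
          gcongr; exact le_abs_self _
      _ ≤ |C'| * (Real.exp (-κ * v ^ (1 - θ)) * Real.exp (2 * v * (1 - σ))) * v ^ n := by gcongr
      _ = _ := by ring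

end Pool.Agent.Lib.MP_b09185_nt.Sh
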