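import Pool.Agent.Lib.MP_b09185_nt.ShFour
import Pool.Agent.Lib.MP_b09185_nt.ShEnd
import Pool.Agent.Lib.MP_b09185_nt.ShL2

/-! Primes in almost all short intervals. -/

namespace Pool.Agent.Lib.MP_b09185_nt.Sh

open Filter Topology MeasureTheory ArithmeticFunction Chebyshev Pool.Agent.Lib.MP_b09185_nt.Mai
open Complex hiding log
open scoped ComplexConjugate

noncomputable section

namespace All

open End

lemma g_four (v s : ℝ) : ‖∫ y : ℝ, (g (y - v) : ℂ) * exp (I * y * s)‖ = √(2 * Real.pi) * g s := by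
  have h1 : ∀ y : ℝ, (g (y + v - v) : ℂ) * exp (I * (y + v : ℝ) * s) =
      exp (I * v * s) * ker (1 / 2) s y := fun y => by
    rw [add_sub_cancel_right, ker, g, ofReal_exp, ← exp_add, ← exp_add, ← exp_add]
    congr 1
    push_cast; ring
  rw [← integral_add_right_eq_self _ v]
  simp_rw [h1]
  rw [integral_const_mul, ker_int (by norm_num), norm_mul, norm_exp, norm_real, Real.norm_eq_abs,
    abs_of_nonneg (by positivity), g]
  simp only [mul_re, I_re, ofReal_re, I_im, ofReal_im, mul_im, zero_mul, mul_zero, sub_zero,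
    Real.exp_zero, one_mul]
  congr 2 <;> ring

lemma g_neg (a : ℝ) : g (-a) = g a := by unfold g; rw [neg_sq]

lemma conv_int {f : ℝ → ℝ} (hf : Integrable f) :
    Integrable (fun p : ℝ × ℝ => f p.2 * g (p.1 - p.2)) (volume.prod volume) ∧
      ∫ p : ℝ × ℝ, f p.2 * g (p.1 - p.2) ∂(volume.prod volume) = √(2 * Real.pi) * ∫ t, f t := by
  have h : Integrable (fun p : ℝ × ℝ => f p.2 * g (p.1 - p.2)) (volume.prod volume) :=
    hf.convolution_integrand (ContinuousLinearMap.mul ℝ ℝ) g_int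
  refine ⟨h, ?_⟩
  rw [integral_prod_symm _ h]
  simp_rw [integral_const_mul, integral_sub_right_eq_self g, int_g]
  rw [integral_mul_const, mul_comm]

/-- Plancherel inequality with a Gaussian weight. -/
lemma wplanch {F : ℝ → ℂ} (hc : Continuous F) (hF : Integrable F)
    (hF2 : Integrable fun t => ‖F t‖ ^ 2) (v : ℝ) :
    ∫ y : ℝ, g (y - v) * ‖∫ t : ℝ, exp (I * y * t) * F t‖ ^ 2 ≤ 2 * Real.pi * ∫ t, ‖F t‖ ^ 2 := by
  set Φ : ℝ → ℝ × ℝ → ℂ := fun y p =>
    (g (y - v) : ℂ) * exp (I * y * (p.1 - p.2 : ℝ)) * (F p.1 * conj (F p.2)) with hΦ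
  have h1 : ∀ y : ℝ, ((g (y - v) * ‖∫ t : ℝ, exp (I * y * t) * F t‖ ^ 2 : ℝ) : ℂ) =
      ∫ p, Φ y p ∂(volume.prod volume) := fun y => by
    rw [ofReal_mul, ← normSq_eq_norm_sq, ← mul_conj, ← integral_conj, ← integral_prod_mul,
      ← integral_const_mul]
    congr 1
    funext p
    have e : exp (I * y * (p.1 - p.2 : ℝ)) = exp (I * y * p.1) * conj (exp (I * y * p.2)) := by
      rw [← exp_conj, ← exp_add]
      congr 1
      simp only [map_mul, conj_I, conj_ofReal]
      push_cast; ring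
    simp only [hΦ, e, map_mul]
    ring
  have hn : ∀ y p, ‖Φ y p‖ = g (y - v) * (‖F p.1‖ * ‖F p.2‖) := fun y p => by
    simp only [hΦ, norm_mul, norm_exp, norm_real, RCLike.norm_conj, Real.norm_eq_abs,
      abs_of_pos (g_pos _)]
    simp [-ofReal_sub]
  have h2 : Integrable (Function.uncurry Φ) (volume.prod (volume.prod volume)) := by
    refine ((g_int.comp_sub_right v).mul_prod (hF.norm.mul_prod hF.norm)).mono' ?_
      (ae_of_all _ fun z => (hn z.1 z.2).le)
    have := g_cont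
    exact Continuous.aestronglyMeasurable (by simp only [hΦ, Function.uncurry_def]; fun_prop)
  have h4 : ∀ p : ℝ × ℝ, ‖∫ y, Φ y p‖ ≤ √(2 * Real.pi) / 2 *
      (‖F p.1‖ ^ 2 * g (p.2 - p.1) + ‖F p.2‖ ^ 2 * g (p.1 - p.2)) := fun p => by
    simp only [hΦ]
    rw [integral_mul_const, norm_mul, g_four, norm_mul, RCLike.norm_conj, ← neg_sub p.1 p.2, g_neg]
    have := mul_nonneg (mul_nonneg (Real.sqrt_nonneg (2 * Real.pi)) (g_pos (p.1 - p.2)).le)
      (sq_nonneg (‖F p.1‖ - ‖F p.2‖))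
    nlinarith
  obtain ⟨i2, e2⟩ := conv_int hF2
  have i1 : Integrable (fun p : ℝ × ℝ => ‖F p.1‖ ^ 2 * g (p.2 - p.1)) (volume.prod volume) :=
    i2.swap
  have e1 : ∫ p : ℝ × ℝ, ‖F p.1‖ ^ 2 * g (p.2 - p.1) ∂(volume.prod volume) =
      √(2 * Real.pi) * ∫ t, ‖F t‖ ^ 2 := by
    rw [← e2, ← integral_prod_swap]; rfl
  have h5 := norm_integral_le_of_norm_le ((i1.add i2).const_mul (√(2 * Real.pi) / 2))
    (ae_of_all _ h4)
  rw [← integral_integral_swap h2] at h5
  simp_rw [← h1] at h5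
  rw [integral_complex_ofReal, integral_const_mul] at h5
  simp only [Pi.add_apply] at h5
  rw [integral_add i1 i2, e1, e2] at h5
  have h6 : √(2 * Real.pi) * √(2 * Real.pi) = 2 * Real.pi := Real.mul_self_sqrt (by positivity)
  refine ((le_abs_self _).trans (le_of_eq ?_)).trans (h5.trans (le_of_eq ?_))
  · rw [← Real.norm_eq_abs, ← norm_real]
  · linear_combination (∫ t, ‖F t‖ ^ 2) * h6

lemma four_PG' {b : ℝ} (hb : 0 < b) (v y : ℝ) : ∫ t, ker b y t * PG v t =
    (√(Real.pi / b) * ∑' n, cg v n * Real.exp (-(y - Real.log n) ^ 2 / (4 * b)) : ℝ) := by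
  have h := hasSum_integral_of_summable_integral_norm (μ := volume)
    (F := fun (n : ℕ) (t : ℝ) => ker b y t * ((cg v n : ℂ) * exp (-(I * Real.log n * t))))
    (fun n => ker_mul hb y (by fun_prop) fun t => (norm_pt v t n).le)
    (by
      simp_rw [norm_mul (ker b y _), norm_pt, integral_mul_const]
      exact (cg_summable v).mul_left _)
  simp_rw [tsum_mul_left, ← PG_eq] at h
  rw [← h.tsum_eq, ← tsum_mul_left, ofReal_tsum]
  refine tsum_congr fun n => ?_
  have e : ∀ t : ℝ, ker b y t * ((cg v n : ℂ) * exp (-(I * Real.log n * t))) =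
      cg v n * ker b (y - Real.log n) t := fun t => by
    simp only [ker, sub_eq_add_neg, exp_add, mul_add, add_mul,
      ofReal_add, ofReal_neg, mul_neg, neg_mul]
    ring
  simp_rw [e]
  rw [integral_const_mul, ker_int hb]
  push_cast
  ring

lemma four_PM' {b : ℝ} (hb : 0 < b) (v y : ℝ) : ∫ t, ker b y t * PM v t =
    (√(2 * Real.pi) * (√(Real.pi / (b + 1 / 2)) *
      Real.exp (-(y - v) ^ 2 / (4 * (b + 1 / 2)))) : ℝ) := by
  have e : ∀ t : ℝ, ker b y t * PM v t = √(2 * Real.pi) * ker (b + 1 / 2) (y - v) t := fun t => by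
    simp only [ker, PM]
    rw [mul_left_comm, ← exp_add, ← exp_add, ← exp_add]
    congr 2
    push_cast
    ring
  simp_rw [e]
  rw [integral_const_mul, ker_int (by positivity), ← ofReal_mul]

/-- the damped error -/
def FF (b v t : ℝ) : ℂ := exp (-b * t ^ 2) * (PG v t - PM v t)

/-- its Fourier transform -/
def EF (b v y : ℝ) : ℂ := ∫ t : ℝ, exp (I * y * t) * FF b v t

lemma norm_D {v : ℝ} (hv : 0 ≤ v) (t : ℝ) : ‖PG v t - PM v t‖ ≤ 6 * Real.exp (2 + 2 * v) :=
  (norm_sub_le _ _).trans (by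
    linarith [norm_PG v t, norm_PM_le v t, Real.add_one_le_exp (2 + 2 * v)])

lemma cont_D (v : ℝ) : Continuous fun t => PG v t - PM v t := (cont_PG v).sub (cont_PM v)

lemma FF_eq (b v t : ℝ) : FF b v t = ker b 0 t * (PG v t - PM v t) := by simp [FF, ker]

lemma FF_cont (b v : ℝ) : Continuous (FF b v) := by
  have := cont_D v
  unfold FF; fun_prop

lemma FF_int {b v : ℝ} (hb : 0 < b) (hv : 0 ≤ v) : Integrable (FF b v) := by
  rw [funext (FF_eq b v)]
  exact ker_mul hb 0 (cont_D v) (norm_D hv)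

lemma FF_sq (b v t : ℝ) : ‖FF b v t‖ ^ 2 =
    ‖ker (2 * b) 0 t * ((‖PG v t - PM v t‖ ^ 2 : ℝ) : ℂ)‖ := by
  rw [FF_eq, norm_mul, norm_mul, norm_ker, norm_ker, norm_real, Real.norm_eq_abs,
    abs_of_nonneg (sq_nonneg _), mul_pow, ← Real.exp_nat_mul]
  congr 2
  push_cast; ring

lemma sq_cont (v : ℝ) : Continuous fun t => ((‖PG v t - PM v t‖ ^ 2 : ℝ) : ℂ) := by
  have := cont_D v
  fun_prop

lemma sq_bd {v : ℝ} (hv : 0 ≤ v) (t : ℝ) :
    ‖((‖PG v t - PM v t‖ ^ 2 : ℝ) : ℂ)‖ ≤ (6 * Real.exp (2 + 2 * v)) ^ 2 := by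
  rw [norm_real, Real.norm_eq_abs, abs_of_nonneg (sq_nonneg _)]
  exact pow_le_pow_left₀ (norm_nonneg _) (norm_D hv t) 2

lemma FF_int2 {b v : ℝ} (hb : 0 < b) (hv : 0 ≤ v) : Integrable fun t => ‖FF b v t‖ ^ 2 := by
  simp_rw [FF_sq]
  exact (ker_mul (by positivity) 0 (sq_cont v) (sq_bd hv)).norm

lemma FF_le {b v T : ℝ} (hb : 0 < b) (hv : 0 ≤ v) (hT : 0 ≤ T) : ∫ t, ‖FF b v t‖ ^ 2 ≤
    (∫ t in (-T)..T, ‖PG v t - PM v t‖ ^ 2) +
      (6 * Real.exp (2 + 2 * v)) ^ 2 * Real.exp (-b * T ^ 2) * √(Real.pi / b) := by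
  have h := ker_tail (b := 2 * b) (by positivity) hT 0 (sq_cont v) (sq_bd hv)
  have e : ∀ t, ker (2 * b) 0 t * ((‖PG v t - PM v t‖ ^ 2 : ℝ) : ℂ) =
      ((‖FF b v t‖ ^ 2 : ℝ) : ℂ) := fun t => by
    rw [FF_eq, norm_mul, norm_ker, mul_pow, ← Real.exp_nat_mul, ofReal_mul, ofReal_exp, ker]
    congr 1
    simp only [ofReal_zero, mul_zero, zero_mul, exp_zero, one_mul]
    congr 1
    push_cast; ring
  simp_rw [e] at h
  rw [integral_complex_ofReal, show 2 * b / 2 = b by ring] at h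
  simp_rw [norm_real, Real.norm_eq_abs, abs_pow, abs_norm] at h
  exact (le_abs_self _).trans h

lemma norm_EF_pt (b v y t : ℝ) : ‖exp (I * y * t) * FF b v t‖ = ‖FF b v t‖ := by
  rw [norm_mul, norm_exp]; simp

lemma EF_cont {b v : ℝ} (hb : 0 < b) (hv : 0 ≤ v) : Continuous (EF b v) := by
  have := FF_cont b v
  exact continuous_of_dominated (fun y => Continuous.aestronglyMeasurable (by fun_prop))
    (fun y => ae_of_all _ fun t => (norm_EF_pt b v y t).le) (FF_int hb hv).norm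
    (ae_of_all _ fun t => by fun_prop)

lemma EF_int {b v : ℝ} (hb : 0 < b) (hv : 0 ≤ v) :
    Integrable fun y => g (y - v) * ‖EF b v y‖ ^ 2 := by
  have h1 := EF_cont hb hv
  have h2 := g_cont
  refine ((g_int.comp_sub_right v).mul_const ((∫ t, ‖FF b v t‖) ^ 2)).mono'
    (Continuous.aestronglyMeasurable (by fun_prop)) (ae_of_all _ fun y => ?_)
  rw [Real.norm_eq_abs, abs_of_nonneg (mul_nonneg (g_pos _).le (sq_nonneg _))]
  refine mul_le_mul_of_nonneg_left (pow_le_pow_left₀ (norm_nonneg _) ?_ 2) (g_pos _).le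
  exact norm_integral_le_of_norm_le (FF_int hb hv).norm
    (ae_of_all _ fun t => (norm_EF_pt b v y t).le)

lemma tm_eq {ρ : ℝ} (hρ : 2 ≤ ρ) (v u : ℝ) (n : ℕ) :
    cg v n * Real.exp (-((ρ ^ 2 * u - v + 1) / (ρ ^ 2 - 1) - Real.log n) ^ 2 /
      (4 * (1 / (2 * (ρ ^ 2 - 1))))) =
    Real.exp (-(u - v) ^ 2 / 2 - u - (u - v + 1) ^ 2 / (2 * (ρ ^ 2 - 1))) * tm ρ u n := by
  have r1 : 0 < ρ ^ 2 - 1 := by nlinarith
  rcases n.eq_zero_or_pos with rfl | h
  · simp [cg, tm]
  have h0 : (0 : ℝ) < n := by exact_mod_cast h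
  have e : (Λ n : ℝ) / n = Λ n * Real.exp (-Real.log n) := by
    rw [Real.exp_neg, Real.exp_log h0, div_eq_mul_inv]
  rw [cg, e, gw, tm, g, mul_assoc, mul_assoc, ← Real.exp_add, ← Real.exp_add, mul_left_comm,
    ← Real.exp_add]
  congr 2
  field_simp
  ring

lemma tm_summable {ρ : ℝ} (hρ : 2 ≤ ρ) (u : ℝ) : Summable (tm ρ u) := by
  have r1 : 0 < ρ ^ 2 - 1 := by nlinarith
  have h : Summable fun n : ℕ => cg u n * Real.exp (-((ρ ^ 2 * u - u + 1) / (ρ ^ 2 - 1) -
      Real.log n) ^ 2 / (4 * (1 / (2 * (ρ ^ 2 - 1))))) :=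
    .of_nonneg_of_le (fun n => mul_nonneg (cg_nonneg u n) (Real.exp_pos _).le)
      (fun n => mul_le_of_le_one_right (cg_nonneg u n) (Real.exp_le_one_iff.2
        (div_nonpos_of_nonpos_of_nonneg (neg_nonpos.2 (sq_nonneg _)) (by positivity))))
      (cg_summable u)
  simp_rw [tm_eq hρ] at h
  exact (summable_mul_left_iff (Real.exp_pos _).ne').1 h

lemma err_le {ρ v u : ℝ} (hρ : 2 ≤ ρ) (h1 : v - 1 ≤ u) (h2 : u ≤ v + 2) :
    |ρ * ∑' n, tm ρ u n - √(2 * Real.pi) * Real.exp (u + 1 / (2 * ρ ^ 2))| ≤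
      Real.exp (u + 4) * ‖EF (1 / (2 * (ρ ^ 2 - 1))) v ((ρ ^ 2 * u - v + 1) / (ρ ^ 2 - 1))‖ := by
  have r0 : 0 < ρ := by linarith
  have r1 : 3 ≤ ρ ^ 2 - 1 := by nlinarith
  set b := 1 / (2 * (ρ ^ 2 - 1)) with hb
  set y := (ρ ^ 2 * u - v + 1) / (ρ ^ 2 - 1) with hy
  have b0 : 0 < b := by positivity
  have e0 : EF b v y = (∫ t, ker b y t * PG v t) - ∫ t, ker b y t * PM v t := by
    rw [← integral_sub (ker_mul b0 y (cont_PG v) (norm_PG v)) (ker_mul b0 y (cont_PM v)
      (norm_PM_le v))]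
    simp only [EF, FF, ker]
    congr 1; funext t; ring
  have e2 : √(Real.pi / b) = ρ * √(Real.pi / (b + 1 / 2)) := by
    rw [← Real.sqrt_sq r0.le, ← Real.sqrt_mul (sq_nonneg _), hb]
    congr 1
    field_simp
    ring
  have e3 : 1 ≤ √(Real.pi / (b + 1 / 2)) := by
    have : b ≤ 1 := (div_le_one (by positivity)).2 (by nlinarith)
    rw [Real.one_le_sqrt, le_div_iff₀ (by positivity)]
    linarith [Real.two_le_pi]
  set C := -(u - v) ^ 2 / 2 - u - (u - v + 1) ^ 2 / (2 * (ρ ^ 2 - 1)) with hC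
  have e4 : Real.exp (-(y - v) ^ 2 / (4 * (b + 1 / 2))) =
      Real.exp C * Real.exp (u + 1 / (2 * ρ ^ 2)) := by
    rw [← Real.exp_add, hC, hy, hb]
    congr 1
    have : ρ ^ 2 - 1 ≠ 0 := by linarith
    field_simp
    ring
  have e5 : ∀ n : ℕ, cg v n * Real.exp (-(y - Real.log n) ^ 2 / (4 * b)) =
      Real.exp C * tm ρ u n := tm_eq hρ v u
  rw [e0, four_PG' b0, four_PM' b0, ← ofReal_sub, norm_real, Real.norm_eq_abs, e2, e4]
  simp_rw [e5]
  rw [tsum_mul_left]
  set S := ∑' n, tm ρ u n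
  set s := √(Real.pi / (b + 1 / 2))
  rw [show ρ * s * (Real.exp C * S) - √(2 * Real.pi) * (s * (Real.exp C *
      Real.exp (u + 1 / (2 * ρ ^ 2)))) = s * Real.exp C *
      (ρ * S - √(2 * Real.pi) * Real.exp (u + 1 / (2 * ρ ^ 2))) by ring, abs_mul,
    abs_of_pos (by positivity : 0 < s * Real.exp C), ← mul_assoc]
  refine le_mul_of_one_le_left (abs_nonneg _) ?_
  rw [mul_left_comm, ← Real.exp_add]
  refine one_le_mul_of_one_le_of_one_le e3 (Real.one_le_exp ?_)
  have : (u - v + 1) ^ 2 / (2 * (ρ ^ 2 - 1)) ≤ 2 := by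
    rw [div_le_iff₀ (by positivity)]; nlinarith
  rw [hC]; nlinarith

/-- narrow Gaussian averages, with an error that is small in the mean -/
def GB (k : ℝ) : Prop := ∀ e : ℝ, 0 < e → ∃ v0 : ℝ, ∀ v ρ : ℝ, v0 ≤ v → v0 ≤ ρ →
  ρ ≤ Real.exp (k * v) → ∃ f : ℝ → ℝ, Continuous f ∧ (∀ u, 0 ≤ f u) ∧
    ∫ u in (v - 1)..(v + 2), f u ≤ e * Real.exp v ∧ ∀ u, v - 1 ≤ u → u ≤ v + 2 →
      Summable (tm ρ u) ∧ |ρ * ∑' n, tm ρ u n - √(2 * Real.pi) * Real.exp u| ≤
        e * Real.exp u + f u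

lemma tail2 {d : ℝ} (hd : 0 < d) :
    Tendsto (fun v => 108 * Real.exp (4 + 5 * v - (d * v) ^ 2 / 2)) atTop (𝓝 0) := by
  have h : Tendsto (fun v : ℝ => v * (-(d ^ 2 / 2) * v + 5) + 4) atTop atBot :=
    tendsto_atBot_add_const_right _ _ (tendsto_id.atTop_mul_atBot₀ (tendsto_atBot_add_const_right
      _ _ (tendsto_id.const_mul_atTop_of_neg (by nlinarith [sq_pos_of_pos hd]))))
  simpa using ((Real.tendsto_exp_atBot.comp (h.congr fun v => by ring)).const_mul 108 :
    Tendsto (fun v => 108 * Real.exp (4 + 5 * v - (d * v) ^ 2 / 2)) atTop _)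

lemma FF_small {a k v ρ : ℝ} (hka : k < a) (hk1 : k ≤ 1) (hv : 0 ≤ v) (hρ : 2 ≤ ρ)
    (hk : ρ ≤ Real.exp (k * v)) : ∫ t, ‖FF (1 / (2 * (ρ ^ 2 - 1))) v t‖ ^ 2 ≤
      (∫ t in (-Real.exp (a * v))..(Real.exp (a * v)), ‖PG v t - PM v t‖ ^ 2) +
        108 * Real.exp (4 + 5 * v - ((a - k) * v) ^ 2 / 2) := by
  have r0 : 0 < ρ := by linarith
  have r1 : 3 ≤ ρ ^ 2 - 1 := by nlinarith
  set b := 1 / (2 * (ρ ^ 2 - 1)) with hb
  have b0 : 0 < b := by positivity
  refine (FF_le b0 hv (Real.exp_pos _).le).trans (add_le_add le_rfl ?_)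
  have e4 : √(Real.pi / b) ≤ 3 * Real.exp v := by
    have : ρ ≤ Real.exp v := hk.trans (Real.exp_le_exp.2 (by nlinarith))
    refine le_trans ?_ (by linarith : 3 * ρ ≤ 3 * Real.exp v)
    rw [Real.sqrt_le_iff, show Real.pi / b = Real.pi * (2 * (ρ ^ 2 - 1)) by rw [hb]; field_simp]
    exact ⟨by positivity, by nlinarith [Real.pi_le_four]⟩
  have t1 : (a - k) * v ≤ Real.exp (a * v) / ρ := by
    rw [le_div_iff₀ r0, show a * v = (a - k) * v + k * v by ring, Real.exp_add]
    gcongr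
    linarith [Real.add_one_le_exp ((a - k) * v)]
  have e5 : Real.exp (-b * Real.exp (a * v) ^ 2) ≤ Real.exp (-((a - k) * v) ^ 2 / 2) := by
    have h1 : 1 / (2 * ρ ^ 2) ≤ b := one_div_le_one_div_of_le (by positivity) (by linarith)
    have h2 := pow_le_pow_left₀ (mul_nonneg (sub_pos.2 hka).le hv) t1 2
    have h3 := mul_le_mul_of_nonneg_right h1 (sq_nonneg (Real.exp (a * v)))
    rw [show 1 / (2 * ρ ^ 2) * Real.exp (a * v) ^ 2 = (Real.exp (a * v) / ρ) ^ 2 / 2 by
      field_simp] at h3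
    exact Real.exp_le_exp.2 (by linarith)
  calc _ ≤ (6 * Real.exp (2 + 2 * v)) ^ 2 * Real.exp (-((a - k) * v) ^ 2 / 2) *
        (3 * Real.exp v) := by gcongr
    _ = _ := by
      rw [show 4 + 5 * v - ((a - k) * v) ^ 2 / 2 =
        (2 + 2 * v) + (2 + 2 * v) + -((a - k) * v) ^ 2 / 2 + v by ring]
      simp only [Real.exp_add]
      ring

lemma GB_of_L2 {a k : ℝ} (h : L2 a) (hka : k < a) (hk1 : k ≤ 1) : GB k := by
  intro e he
  set η := e / (2 * Real.exp 4) with hη
  have η0 : 0 < η := by positivity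
  set ε := e * η / (16 * Real.exp 11) with hε
  have ε0 : 0 < ε := by positivity
  obtain ⟨v0, hv0⟩ := eventually_atTop.1 ((h ε ε0).and
    ((tail2 (sub_pos.2 hka)).eventually (eventually_le_nhds ε0)))
  refine ⟨max (max v0 2) (6 / e), fun v ρ hv hρ hk => ?_⟩
  obtain ⟨c1, c2⟩ := hv0 v (((le_max_left _ _).trans (le_max_left _ _)).trans hv)
  have v2 : 2 ≤ v := ((le_max_right _ _).trans (le_max_left _ _)).trans hv
  have ρ2 : 2 ≤ ρ := ((le_max_right _ _).trans (le_max_left _ _)).trans hρ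
  have ρe : 6 / e ≤ ρ := (le_max_right _ _).trans hρ
  have r1 : 3 ≤ ρ ^ 2 - 1 := by nlinarith
  have hF := FF_small hka hk1 (by linarith) ρ2 hk
  set b := 1 / (2 * (ρ ^ 2 - 1)) with hb
  have b0 : 0 < b := by positivity
  have v0' : 0 ≤ v := by linarith
  set q : ℝ → ℝ := fun y => g (y - v) * ‖EF b v y‖ ^ 2 with hq
  have q0 : ∀ y, 0 ≤ q y := fun y => mul_nonneg (g_pos _).le (sq_nonneg _)
  have qc : Continuous q := by
    have h1 := EF_cont b0 v0'
    have h2 := g_cont
    fun_prop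
  have qi : ∫ y, q y ≤ 16 * ε := by
    refine (wplanch (FF_cont b v) (FF_int b0 v0') (FF_int2 b0 v0') v).trans ?_
    have : 0 ≤ ∫ t, ‖FF b v t‖ ^ 2 := integral_nonneg fun t => sq_nonneg _
    nlinarith [Real.pi_le_four]
  set α := ρ ^ 2 / (ρ ^ 2 - 1) with hα
  set β := (1 - v) / (ρ ^ 2 - 1) with hβ
  have α1 : 1 ≤ α := by rw [hα, le_div_iff₀ (by linarith)]; linarith
  refine ⟨fun u => Real.exp (v + 11) / η * q (β + α * u), by fun_prop,
    fun u => mul_nonneg (by positivity) (q0 _), ?_, fun u h1 h2 => ⟨tm_summable ρ2 u, ?_⟩⟩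
  · rw [intervalIntegral.integral_const_mul, intervalIntegral.integral_comp_add_mul _
      (by linarith), smul_eq_mul, intervalIntegral.integral_of_le (by nlinarith)]
    have h1 := (setIntegral_le_integral (s := Set.Ioc (β + α * (v - 1)) (β + α * (v + 2)))
      (EF_int b0 v0') (ae_of_all _ q0)).trans qi
    have h2 : α⁻¹ ≤ 1 := inv_le_one_of_one_le₀ α1
    calc _ ≤ Real.exp (v + 11) / η * (1 * (16 * ε)) := by
          gcongr
          exact setIntegral_nonneg measurableSet_Ioc fun y _ => q0 y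
      _ = _ := by rw [hε, Real.exp_add]; field_simp
  · have h3 := err_le ρ2 h1 h2
    have e1 : (ρ ^ 2 * u - v + 1) / (ρ ^ 2 - 1) = β + α * u := by rw [hα, hβ]; ring
    rw [← hb, e1] at h3
    have e2 : β + α * u - v = (u - v) + (u - v + 1) / (ρ ^ 2 - 1) := by
      have : ρ ^ 2 - 1 ≠ 0 := by linarith
      rw [hα, hβ]; field_simp; ring
    have e3 : 0 ≤ (u - v + 1) / (ρ ^ 2 - 1) := div_nonneg (by linarith) (by linarith)
    have e4 : (u - v + 1) / (ρ ^ 2 - 1) ≤ 1 := (div_le_one (by linarith)).2 (by linarith)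
    have e5 : Real.exp (u + 4) ≤ Real.exp (v + 11) * g (β + α * u - v) := by
      rw [g, ← Real.exp_add, e2]
      exact Real.exp_le_exp.2 (by nlinarith)
    set E := ‖EF b v (β + α * u)‖ with hE
    have e6 : E ≤ η + E ^ 2 / η := by
      rw [← sub_nonneg, show η + E ^ 2 / η - E = ((η - E) ^ 2 + η * E) / η by field_simp; ring]
      have : 0 ≤ E := norm_nonneg _
      positivity
    have e7 : Real.exp (u + 4) * E ≤ e / 2 * Real.exp u +
        Real.exp (v + 11) / η * (g (β + α * u - v) * E ^ 2) := by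
      have f1 := mul_le_mul_of_nonneg_left e6 (Real.exp_pos (u + 4)).le
      have f2 : Real.exp (u + 4) * η = e / 2 * Real.exp u := by
        rw [hη, Real.exp_add]; field_simp
      have f3 := mul_le_mul_of_nonneg_right e5 (by positivity : 0 ≤ E ^ 2 / η)
      rw [show Real.exp (v + 11) / η * (g (β + α * u - v) * E ^ 2) =
        Real.exp (v + 11) * g (β + α * u - v) * (E ^ 2 / η) by ring]
      linarith
    have e8 : |√(2 * Real.pi) * Real.exp (u + 1 / (2 * ρ ^ 2)) - √(2 * Real.pi) * Real.exp u| ≤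
        e / 2 * Real.exp u := by
      have q1 : 0 < 1 / (2 * ρ ^ 2) := by positivity
      have q2 : 1 / (2 * ρ ^ 2) ≤ e / 12 := by
        rw [div_le_iff₀ he] at ρe
        rw [div_le_div_iff₀ (by positivity) (by norm_num)]
        nlinarith
      have q3 : 1 / (2 * ρ ^ 2) ≤ 1 := (div_le_one (by positivity)).2 (by nlinarith)
      have x1 := Real.abs_exp_sub_one_le (x := 1 / (2 * ρ ^ 2)) (by rwa [abs_of_pos q1])
      rw [abs_of_pos q1] at x1
      rw [Real.exp_add, show √(2 * Real.pi) * (Real.exp u * Real.exp (1 / (2 * ρ ^ 2))) -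
        √(2 * Real.pi) * Real.exp u = √(2 * Real.pi) * (Real.exp (1 / (2 * ρ ^ 2)) - 1) *
        Real.exp u by ring, abs_mul, abs_mul, abs_of_pos (Real.exp_pos u),
        abs_of_nonneg (Real.sqrt_nonneg _)]
      refine mul_le_mul_of_nonneg_right ?_ (Real.exp_pos u).le
      have := mul_le_mul sqrt_two_pi_le x1 (abs_nonneg _) (by norm_num)
      linarith
    have e9 := abs_sub_le (ρ * ∑' n, tm ρ u n)
      (√(2 * Real.pi) * Real.exp (u + 1 / (2 * ρ ^ 2))) (√(2 * Real.pi) * Real.exp u)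
    simp only [hq]
    linarith

lemma upper' {H K x y d : ℝ} (hH : 0 < H) (hK : 0 ≤ K) (hx : 0 < x) (hy : 0 ≤ y)
    (hd : (1 - d) * √(2 * Real.pi) ≤ ∫ s in (-K)..K, g s) {f : ℝ → ℝ} (hf : Continuous f)
    (hS : ∀ v, Real.log x - K / H ≤ v → v ≤ Real.log (x + y) + K / H → Summable (tm H v) ∧
      H * ∑' n, tm H v n ≤ (1 + d) * √(2 * Real.pi) * Real.exp v + f v) :
    √(2 * Real.pi) * ((1 - d) * (ψ (x + y) - ψ x)) ≤ √(2 * Real.pi) *
      ((1 + d) * ((x + y) * Real.exp (K / H) - x * Real.exp (-(K / H)))) +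
        ∫ v in (Real.log x - K / H)..(Real.log (x + y) + K / H), f v := by
  have hr : 0 ≤ K / H := by positivity
  have hl : Real.log x ≤ Real.log (x + y) := Real.log_le_log hx (by linarith)
  have hab : Real.log x - K / H ≤ Real.log (x + y) + K / H := by linarith
  have hKH : H * (K / H) = K := by field_simp
  have h1 : ∫ v in (Real.log x - K / H)..(Real.log (x + y) + K / H),
      H * ∑ n ∈ Finset.Ioc ⌊x⌋₊ ⌊x + y⌋₊, tm H v n ≤
      ∫ v in (Real.log x - K / H)..(Real.log (x + y) + K / H),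
        ((1 + d) * √(2 * Real.pi) * Real.exp v + f v) := by
    refine intervalIntegral.integral_mono_on hab ((cont_fin _ _).intervalIntegrable _ _)
      (Continuous.intervalIntegrable (by fun_prop) _ _) fun v hv => ?_
    obtain ⟨h1, h2⟩ := hS v hv.1 hv.2
    exact (mul_le_mul_of_nonneg_left (h1.sum_le_tsum _ fun n _ => tm_nonneg H v n) hH.le).trans h2
  have h0 : Real.exp (Real.log (x + y) + K / H) - Real.exp (Real.log x - K / H) =
      (x + y) * Real.exp (K / H) - x * Real.exp (-(K / H)) := by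
    rw [Real.exp_add, sub_eq_add_neg (Real.log x), Real.exp_add, Real.exp_log hx,
      Real.exp_log (by linarith)]
  rw [int_fin, intervalIntegral.integral_add (Continuous.intervalIntegrable (by fun_prop) _ _)
    (hf.intervalIntegrable _ _), intervalIntegral.integral_const_mul, integral_exp, h0] at h1
  have h2 : (1 - d) * √(2 * Real.pi) * (ψ (x + y) - ψ x) ≤ ∑ n ∈ Finset.Ioc ⌊x⌋₊ ⌊x + y⌋₊,
      Λ n * ∫ v in (Real.log x - K / H)..(Real.log (x + y) + K / H),
        H * g (H * (Real.log n - v)) := by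
    rw [psi_sub hy, Finset.mul_sum]
    refine Finset.sum_le_sum fun n hn => ?_
    obtain ⟨n1, n2⟩ := (mem_iff hx.le hy).1 hn
    have l1 := Real.log_le_log hx n1.le
    have l2 := Real.log_le_log (hx.trans n1) n2
    rw [mul_comm]
    refine mul_le_mul_of_nonneg_left (hd.trans (win_ge hK ?_ ?_)) vonMangoldt_nonneg
    · nlinarith
    · nlinarith
  linarith

lemma lower' {H K x y d : ℝ} (hH : 0 < H) (hK : 0 ≤ K) (hx : 0 < x) (hy : 0 ≤ y)
    (hd : Real.exp (-(3 / 8) * K ^ 2) ≤ d) (hd1 : d ≤ 1 / 2)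
    (hab : Real.log x + K / H ≤ Real.log (x + y) - K / H) {f f' : ℝ → ℝ} (hf : Continuous f)
    (hf' : Continuous f') (f0 : ∀ v, 0 ≤ f v) (f0' : ∀ v, 0 ≤ f' v)
    (hS : ∀ v, Real.log x - K / H ≤ v → v ≤ Real.log (x + y) + K / H → (Summable (tm H v) ∧
      (1 - d) * √(2 * Real.pi) * Real.exp v - f v ≤ H * ∑' n, tm H v n) ∧
      Summable (tm (H / 2) v) ∧
      H / 2 * ∑' n, tm (H / 2) v n ≤ 2 * √(2 * Real.pi) * Real.exp v + f' v) :
    √(2 * Real.pi) * ((1 - 5 * d) * ((x + y) * Real.exp (-(K / H)) - x * Real.exp (K / H))) ≤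
      √(2 * Real.pi) * (ψ (x + y) - ψ x) +
        ∫ v in (Real.log x - K / H)..(Real.log (x + y) + K / H), (f v + f' v) := by
  have hp : 0 < √(2 * Real.pi) := Real.sqrt_pos.2 (by positivity)
  have hr : 0 ≤ K / H := by positivity
  have hKH : H * (K / H) = K := by field_simp
  have hd0 : 0 ≤ d := (Real.exp_pos _).le.trans hd
  have h1 : ∫ v in (Real.log x + K / H)..(Real.log (x + y) - K / H),
        (1 - 5 * d) * √(2 * Real.pi) * Real.exp v ≤
      ∫ v in (Real.log x + K / H)..(Real.log (x + y) - K / H),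
        (H * ∑ n ∈ Finset.Ioc ⌊x⌋₊ ⌊x + y⌋₊, tm H v n + (f v + f' v)) := by
    refine intervalIntegral.integral_mono_on hab (Continuous.intervalIntegrable (by fun_prop) _ _)
      (((cont_fin _ _).add (hf.add hf')).intervalIntegrable _ _) fun v hv => ?_
    obtain ⟨⟨s1, h1⟩, s2, h2⟩ := hS v (by linarith [hv.1]) (by linarith [hv.2])
    rw [← s1.sum_add_tsum_compl (s := Finset.Ioc ⌊x⌋₊ ⌊x + y⌋₊)] at h1
    have h3 : ∑' n : ↥((Finset.Ioc ⌊x⌋₊ ⌊x + y⌋₊ : Finset ℕ) : Set ℕ)ᶜ, tm H v n ≤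
        d * ∑' n, tm (H / 2) v n := by
      rw [← tsum_mul_left]
      refine Summable.tsum_le_tsum_of_inj Subtype.val Subtype.val_injective
        (fun n _ => mul_nonneg hd0 (tm_nonneg _ _ _)) (fun n => ?_) (s1.subtype _) (s2.mul_left d)
      obtain ⟨n, hn⟩ := n
      rcases Nat.eq_zero_or_pos n with rfl | hn0
      · simp [tm]
      have hn1 : (0 : ℝ) < n := by exact_mod_cast hn0
      have hn2 : ¬ (x < n ∧ (n : ℝ) ≤ x + y) := fun h => hn (by
        rw [Finset.mem_coe]; exact (mem_iff hx.le hy).2 h)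
      have hK' : K ≤ |H * (Real.log n - v)| := by
        rcases not_and_or.1 hn2 with h | h
        · have := Real.log_le_log hn1 (not_lt.1 h)
          rw [le_abs]; right; nlinarith [hv.1]
        · have := Real.log_le_log (by linarith) (not_le.1 h).le
          rw [le_abs]; left; nlinarith [hv.2]
      have h4 := (g_tail hK hK').trans (mul_le_mul_of_nonneg_right hd (g_pos _).le)
      have h5 : H * (Real.log n - v) / 2 = H / 2 * (Real.log n - v) := by ring
      rw [h5] at h4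
      have := mul_le_mul_of_nonneg_left h4 (vonMangoldt_nonneg (n := n))
      unfold tm
      linarith
    have h4 := mul_le_mul_of_nonneg_left h3 hH.le
    have h5 := mul_le_mul_of_nonneg_left h2 hd0
    have h6 := mul_le_mul_of_nonneg_right hd1 (f0' v)
    nlinarith
  have h0 : Real.exp (Real.log (x + y) - K / H) - Real.exp (Real.log x + K / H) =
      (x + y) * Real.exp (-(K / H)) - x * Real.exp (K / H) := by
    rw [Real.exp_add, sub_eq_add_neg (Real.log (x + y)), Real.exp_add, Real.exp_log hx,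
      Real.exp_log (by linarith)]
  rw [intervalIntegral.integral_add ((cont_fin _ _).intervalIntegrable _ _)
    ((hf.fun_add hf').intervalIntegrable _ _), int_fin, intervalIntegral.integral_const_mul,
    integral_exp, h0] at h1
  have h2 : ∑ n ∈ Finset.Ioc ⌊x⌋₊ ⌊x + y⌋₊,
      Λ n * ∫ v in (Real.log x + K / H)..(Real.log (x + y) - K / H),
        H * g (H * (Real.log n - v)) ≤ √(2 * Real.pi) * (ψ (x + y) - ψ x) := by
    rw [psi_sub hy, Finset.mul_sum]
    refine Finset.sum_le_sum fun n _ => ?_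
    rw [mul_comm (√(2 * Real.pi))]
    exact mul_le_mul_of_nonneg_left (win_le hH.le hab _) vonMangoldt_nonneg
  have h3 : ∫ v in (Real.log x + K / H)..(Real.log (x + y) - K / H), (f v + f' v) ≤
      ∫ v in (Real.log x - K / H)..(Real.log (x + y) + K / H), (f v + f' v) :=
    intervalIntegral.integral_mono_interval (by linarith) hab (by linarith)
      (ae_of_all _ fun v => add_nonneg (f0 v) (f0' v)) ((hf.add hf').intervalIntegrable _ _)
  linarith

/-- increments of a monotone function are small on average -/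
lemma mono_cheb {Φ : ℝ → ℝ} (hΦ : Monotone Φ) {a b l ε : ℝ} (hab : a ≤ b) (hl : 0 ≤ l)
    (hε : 0 < ε) : volume {x | x ∈ Set.Ioc a b ∧ ε ≤ Φ (x + l) - Φ (x - l)} ≤
      ENNReal.ofReal (2 * l * (Φ (b + l) - Φ (a - l)) / ε) := by
  have i0 : ∀ c d, IntervalIntegrable Φ volume c d := fun c d => hΦ.intervalIntegrable
  have m1 : Monotone fun x => Φ (x + l) := fun x y h => hΦ (by linarith)
  have m2 : Monotone fun x => Φ (x - l) := fun x y h => hΦ (by linarith)
  have i1 : IntervalIntegrable (fun x => Φ (x + l)) volume a b := m1.intervalIntegrable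
  have i2 : IntervalIntegrable (fun x => Φ (x - l)) volume a b := m2.intervalIntegrable
  have h1 := mul_meas_ge_le_integral_of_nonneg (μ := volume.restrict (Set.Ioc a b))
    (f := fun x => Φ (x + l) - Φ (x - l))
    (ae_of_all _ fun x => sub_nonneg.2 (hΦ (by linarith))) (i1.sub i2).1 ε
  rw [← intervalIntegral.integral_of_le hab, intervalIntegral.integral_sub i1 i2,
    intervalIntegral.integral_comp_add_right, intervalIntegral.integral_comp_sub_right,
    intervalIntegral.integral_interval_sub_interval_comm' (i0 _ _) (i0 _ _) (i0 _ _)] at h1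
  have h2 : ∫ x in (b - l)..(b + l), Φ x ≤ ∫ _ in (b - l)..(b + l), Φ (b + l) :=
    intervalIntegral.integral_mono_on (by linarith) (i0 _ _) (by simp) fun x hx => hΦ hx.2
  have h3 : ∫ _ in (a - l)..(a + l), Φ (a - l) ≤ ∫ x in (a - l)..(a + l), Φ x :=
    intervalIntegral.integral_mono_on (by linarith) (by simp) (i0 _ _) fun x hx => hΦ hx.1
  rw [intervalIntegral.integral_const, smul_eq_mul] at h2 h3
  have hm : MeasurableSet {x | ε ≤ Φ (x + l) - Φ (x - l)} :=
    measurableSet_le measurable_const (m1.measurable.sub m2.measurable)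
  rw [measureReal_def, Measure.restrict_apply hm] at h1
  have e : {x | x ∈ Set.Ioc a b ∧ ε ≤ Φ (x + l) - Φ (x - l)} =
      {x | ε ≤ Φ (x + l) - Φ (x - l)} ∩ Set.Ioc a b := by
    ext x; exact and_comm
  rw [e, ← ENNReal.ofReal_toReal (measure_inter_lt_top_of_right_ne_top
    (measure_Ioc_lt_top (μ := volume) (a := a) (b := b)).ne).ne]
  apply ENNReal.ofReal_le_ofReal
  rw [le_div_iff₀ hε]
  linarith

lemma mono_pp : Monotone fun x => ψ x - θ x := fun x y h => by
  simp only [psi_sub_theta_eq_sum_not_prime]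
  exact Finset.sum_le_sum_of_subset_of_nonneg (Finset.filter_subset_filter _
    (Finset.Ioc_subset_Ioc_right (Nat.floor_le_floor h))) fun _ _ _ => vonMangoldt_nonneg

lemma fin_pi {x y a d : ℝ} (hx : 1 < x) (hy : 0 < y) (hyx : y ≤ x) (hd : 0 < d) (ha : 0 ≤ a)
    (hlog : Real.log 2 ≤ Real.log x * d) (lo : (1 - a) * y ≤ θ (x + y) - θ x)
    (up : θ (x + y) - θ x ≤ (1 + a) * y) :
    |Real.log x / y * ((Nat.primeCounting ⌊x + y⌋₊ : ℝ) - (Nat.primeCounting ⌊x⌋₊ : ℝ)) - 1|
      ≤ a + d := by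
  obtain ⟨q1, q2⟩ := theta_pi (by linarith) hy.le hyx
  set D := (Nat.primeCounting ⌊x + y⌋₊ : ℝ) - (Nat.primeCounting ⌊x⌋₊ : ℝ) with hD
  have hD0 : 0 ≤ D := by
    rw [hD, pi_sub hy.le]; exact Finset.sum_nonneg fun _ _ => zero_le_one
  have hdy := mul_pos hd hy
  rw [div_mul_eq_mul_div, abs_le]
  constructor
  · have h1 : (1 - a) * y ≤ (1 + d) * (Real.log x * D) := by
      have := mul_le_mul_of_nonneg_right hlog hD0
      nlinarith
    have h2 : (1 + d) * ((1 - a - d) * y) ≤ (1 + d) * (Real.log x * D) := by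
      nlinarith [mul_pos hd hdy, mul_nonneg ha hdy.le]
    have h3 := le_of_mul_le_mul_left h2 (by linarith)
    have : 1 - a - d ≤ Real.log x * D / y := by rw [le_div_iff₀ hy]; exact h3
    linarith
  · have : Real.log x * D / y ≤ 1 + a := by rw [div_le_iff₀ hy]; linarith
    linarith

/-- the estimate at a good point -/
lemma good_pt {H K x y d : ℝ} (hH : 0 < H) (hK : 0 ≤ K) (hx : 0 < x) (hy : 0 < y) (hyx : y ≤ x)
    (hd : 0 < d) (hd1 : d ≤ 1 / 10) (hK1 : (1 - d) * √(2 * Real.pi) ≤ ∫ s in (-K)..K, g s)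
    (hK2 : Real.exp (-(3 / 8) * K ^ 2) ≤ d) (hr : K / H ≤ 1 / 2) (hrx : K / H * x ≤ d * y)
    {f f' : ℝ → ℝ} (hf : Continuous f) (hf' : Continuous f') (f0 : ∀ v, 0 ≤ f v)
    (f0' : ∀ v, 0 ≤ f' v)
    (hA : ∀ v, Real.log x - K / H ≤ v → v ≤ Real.log (x + y) + K / H → Summable (tm H v) ∧
      |H * ∑' n, tm H v n - √(2 * Real.pi) * Real.exp v| ≤ d * Real.exp v + f v)
    (hB : ∀ v, Real.log x - K / H ≤ v → v ≤ Real.log (x + y) + K / H → Summable (tm (H / 2) v) ∧
      |H / 2 * ∑' n, tm (H / 2) v n - √(2 * Real.pi) * Real.exp v| ≤ d * Real.exp v + f' v)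
    (hI : ∫ v in (Real.log x - K / H)..(Real.log (x + y) + K / H), (f v + f' v) ≤ d * y) :
    (1 - 10 * d) * y ≤ ψ (x + y) - ψ x ∧ ψ (x + y) - ψ x ≤ (1 + 10 * d) * y := by
  have hr0 : 0 ≤ K / H := by positivity
  have s1 := one_le_sqrt_two_pi
  have hs : ∀ v, d * Real.exp v ≤ d * √(2 * Real.pi) * Real.exp v := fun v => by
    have := mul_pos hd (Real.exp_pos v)
    nlinarith
  have U := upper' hH hK hx hy.le hK1 (hf.add hf') fun v h1 h2 => ⟨(hA v h1 h2).1, by
    have := (abs_le.1 (hA v h1 h2).2).2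
    have := hs v
    have := f0' v
    simp only [Pi.add_apply]
    linarith⟩
  have L := fun hab => lower' hH hK hx hy.le hK2 (by linarith) hab hf hf' f0 f0' fun v h1 h2 =>
    ⟨⟨(hA v h1 h2).1, by
      have := (abs_le.1 (hA v h1 h2).2).1
      have := hs v
      linarith⟩, (hB v h1 h2).1, by
      have := (abs_le.1 (hB v h1 h2).2).2
      have := hs v
      have := mul_le_mul_of_nonneg_right (by linarith : d ≤ 1)
        (mul_pos (by linarith : 0 < √(2 * Real.pi)) (Real.exp_pos v)).le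
      linarith⟩
  simp only [Pi.add_apply] at U
  set r := K / H with hrdef
  have e1 : 1 - r ≤ Real.exp (-r) := by linarith [Real.add_one_le_exp (-r)]
  have e2 : Real.exp r ≤ 1 + 2 * r := by
    have h1 : Real.exp r * Real.exp (-r) = 1 := by rw [← Real.exp_add]; simp
    have h2 := Real.exp_pos r
    nlinarith
  have hlo : (1 - 4 * d) * y ≤ (x + y) * Real.exp (-r) - x * Real.exp r := by
    have h1 := mul_le_mul_of_nonneg_left e1 (by linarith : 0 ≤ x + y)
    have h2 := mul_le_mul_of_nonneg_left e2 hx.le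
    have h3 := mul_le_mul_of_nonneg_left hyx hr0
    nlinarith
  have hup : (x + y) * Real.exp r - x * Real.exp (-r) ≤ (1 + 5 * d) * y := by
    have h1 := mul_le_mul_of_nonneg_left e2 (by linarith : 0 ≤ x + y)
    have h2 := mul_le_mul_of_nonneg_left e1 hx.le
    have h3 := mul_le_mul_of_nonneg_left hyx hr0
    nlinarith
  have hab : Real.log x + r ≤ Real.log (x + y) - r := by
    rw [← Real.exp_le_exp, sub_eq_add_neg, Real.exp_add, Real.exp_add, Real.exp_log hx,
      Real.exp_log (by linarith)]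
    nlinarith
  have hdy := mul_pos hd hy
  have hI' : d * y ≤ √(2 * Real.pi) * (d * y) := le_mul_of_one_le_left hdy.le s1
  have U' : (1 - d) * (ψ (x + y) - ψ x) ≤
      (1 + d) * ((x + y) * Real.exp r - x * Real.exp (-r)) + d * y :=
    le_of_mul_le_mul_left (by linarith) (by linarith : 0 < √(2 * Real.pi))
  have L' : (1 - 5 * d) * ((x + y) * Real.exp (-r) - x * Real.exp r) ≤
      ψ (x + y) - ψ x + d * y :=
    le_of_mul_le_mul_left (by linarith [L hab]) (by linarith : 0 < √(2 * Real.pi))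
  constructor
  · have h1 := mul_le_mul_of_nonneg_left hlo (by linarith : 0 ≤ 1 - 5 * d)
    nlinarith [mul_pos hd hdy]
  · have h1 := mul_le_mul_of_nonneg_left hup (by linarith : 0 ≤ 1 + d)
    have h2 : (1 - d) * (ψ (x + y) - ψ x) ≤ (1 - d) * ((1 + 10 * d) * y) := by
      have := mul_le_mul_of_nonneg_right hd1 hdy.le
      nlinarith
    exact le_of_mul_le_mul_left h2 (by linarith)

end All

open End All in
/-- Primes in almost all short intervals. -/
theorem all_of (h : ∀ a : ℝ, 0 < a → a < 8 / 9 → L2 a) {t : ℝ} (ht : 1 / 9 < t) (ht1 : t < 1)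
    {e δ : ℝ} (he : 0 < e) (hδ : 0 < δ) : ∀ᶠ X : ℝ in atTop,
      volume {x : ℝ | x ∈ Set.Icc X (2 * X) ∧ e < |Real.log x / x ^ t *
        ((Nat.primeCounting ⌊x + x ^ t⌋₊ : ℝ) - (Nat.primeCounting ⌊x⌋₊ : ℝ)) - 1|} ≤
      ENNReal.ofReal (δ * X) := by
  obtain ⟨k, k1, k2⟩ := exists_between (show 1 - t < 8 / 9 by linarith)
  obtain ⟨a, a1, a2⟩ := exists_between k2
  have k0 : 0 < k := by linarith
  have hG := GB_of_L2 (h a (by linarith) a2) a1 (by linarith)
  obtain ⟨d, hd, hd1, hde⟩ : ∃ d : ℝ, 0 < d ∧ d ≤ 1 / 10 ∧ 12 * d ≤ e :=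
    ⟨min (1 / 10) (e / 12), by positivity, min_le_left _ _, by
      linarith [min_le_right (1 / 10) (e / 12)]⟩
  obtain ⟨η, η0, η1, η2⟩ : ∃ η : ℝ, 0 < η ∧ η ≤ d ∧ 18 * η ≤ d * δ :=
    ⟨min d (d * δ / 18), by positivity, min_le_left _ _, by
      linarith [min_le_right d (d * δ / 18)]⟩
  obtain ⟨K, hK, hK1, hK2⟩ := exists_K hd
  obtain ⟨v0, hv0⟩ := hG η η0
  obtain ⟨C, hC⟩ := psi_sub_theta_le_mul_sqrt
  have t1 : Tendsto (fun x : ℝ => x ^ k) atTop atTop := tendsto_rpow_atTop k0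
  filter_upwards [eventually_ge_atTop 4, Real.tendsto_log_atTop.eventually_ge_atTop v0,
    t1.eventually_ge_atTop (2 * v0), t1.eventually_ge_atTop v0, t1.eventually_ge_atTop (2 * K),
    ev_small (a := 1 - k - t) (by linarith) (2 * K) hd,
    ev_small (a := t - 1) (by linarith) 6 one_pos,
    ev_small (a := -(1 / 2)) (by norm_num) (2 * |C|) η0,
    Real.tendsto_log_atTop.eventually_ge_atTop (Real.log 2 / d)]
    with X hX hv hH1 hH2 hH3 hsm hl1 hC1 hlog
  have X0 : 0 < X := by linarith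
  have hHe : X ^ k = Real.exp (k * Real.log X) := by rw [Real.rpow_def_of_pos X0, mul_comm]
  set H := X ^ k with hHdef
  have hH : 0 < H := by positivity
  obtain ⟨f, fc, f0, fi, fp⟩ := hv0 _ H hv hH2 hHe.le
  obtain ⟨f', fc', f0', fi', fp'⟩ := hv0 _ (H / 2) hv (by linarith) (by linarith)
  rw [Real.exp_log X0] at fi fi'
  set Y := X ^ t with hY
  have Y0 : 0 < Y := by positivity
  have hr0 : 0 ≤ K / H := by positivity
  have hr : K / H ≤ 1 / 2 := by rw [div_le_iff₀ hH]; linarith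
  have hrX : K / H * (2 * X) ≤ d * Y := by
    have e1 : K / H * (2 * X) = 2 * K * X ^ (1 - k - t) * Y := by
      rw [mul_assoc (2 * K), hY, ← Real.rpow_add X0, hHdef,
        show 1 - k - t + t = 1 - k by ring, Real.rpow_sub X0, Real.rpow_one]
      field_simp
    rw [e1]
    exact mul_le_mul_of_nonneg_right hsm Y0.le
  have hYX : 6 * Y ≤ X := by
    have := mul_le_mul_of_nonneg_right hl1 X0.le
    rwa [one_mul, mul_assoc, ← Real.rpow_add_one X0.ne', sub_add_cancel] at this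
  have hCX : ψ (2 * X + 3 * Y) - θ (2 * X + 3 * Y) ≤ η * X := by
    have h1 : √(2 * X + 3 * Y) ≤ 2 * X ^ (1 / 2 : ℝ) := by
      rw [← Real.sqrt_eq_rpow, Real.sqrt_le_iff]
      refine ⟨by positivity, ?_⟩
      rw [mul_pow, Real.sq_sqrt X0.le]; linarith
    have h2 : X ^ (1 / 2 : ℝ) = X ^ (-(1 / 2) : ℝ) * X := by
      rw [← Real.rpow_add_one X0.ne']; norm_num
    have h3 := mul_le_mul_of_nonneg_right hC1 X0.le
    have h4 := mul_le_mul (le_abs_self C) h1 (Real.sqrt_nonneg _) (abs_nonneg C)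
    have h5 := hC (2 * X + 3 * Y)
    rw [h2] at h4
    linarith
  have Fc : Continuous fun u => f u + f' u := fc.fun_add fc'
  have F0 : ∀ u, 0 ≤ f u + f' u := fun u => add_nonneg (f0 u) (f0' u)
  set P : ℝ → ℝ := fun z => ∫ u in (Real.log X - 1)..(Real.log (max z 1)), (f u + f' u) with hP
  have Pd : ∀ z z', P z' - P z =
      ∫ u in (Real.log (max z 1))..(Real.log (max z' 1)), (f u + f' u) := fun z z' =>
    intervalIntegral.integral_interval_sub_left (Fc.intervalIntegrable _ _)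
      (Fc.intervalIntegrable _ _)
  have lm : ∀ z z', z ≤ z' → Real.log (max z 1) ≤ Real.log (max z' 1) := fun z z' hz =>
    Real.log_le_log (lt_max_of_lt_right one_pos) (max_le_max_right _ hz)
  have Pm : Monotone P := fun z z' hz => sub_nonneg.1 (by
    rw [Pd]; exact intervalIntegral.integral_nonneg (lm z z' hz) fun u _ => F0 u)
  have l2 := Real.log_two_lt_d9
  have l4 : Real.log (4 * X) = 2 * Real.log 2 + Real.log X := by
    rw [Real.log_mul (by norm_num) X0.ne', show (4 : ℝ) = 2 ^ 2 by norm_num, Real.log_pow]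
    norm_num
  have Pb : P (2 * X + 3 * Y) - P (X - 3 * Y) ≤ 2 * η * X := by
    rw [Pd]
    have h1 : Real.log X - 1 ≤ Real.log (max (X - 3 * Y) 1) := by
      have := Real.log_le_log (by linarith : 0 < X / 2)
        (le_max_of_le_left (c := 1) (by linarith : X / 2 ≤ X - 3 * Y))
      rw [Real.log_div X0.ne' two_ne_zero] at this
      linarith
    have h2 : Real.log (max (2 * X + 3 * Y) 1) ≤ Real.log X + 2 := by
      have := Real.log_le_log (lt_max_of_lt_right one_pos)
        (max_le (by linarith : 2 * X + 3 * Y ≤ 4 * X) (by linarith))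
      linarith
    refine (intervalIntegral.integral_mono_interval h1 (lm _ _ (by linarith)) h2
      (ae_of_all _ F0) (Fc.intervalIntegrable _ _)).trans ?_
    rw [intervalIntegral.integral_add (fc.intervalIntegrable _ _) (fc'.intervalIntegrable _ _)]
    linarith
  have hM := mono_cheb (Pm.add mono_pp) (a := X) (b := 2 * X) (l := 3 * Y) (ε := d * Y)
    (by linarith) (by linarith) (by positivity)
  refine (measure_mono fun x hx => ?_).trans (((measure_union_le {X} _).trans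
    (add_le_add (Real.volume_singleton (a := X)).le hM)).trans
      ((zero_add _).trans_le (ENNReal.ofReal_le_ofReal ?_)))
  · obtain ⟨⟨x1, x2⟩, hx⟩ := hx
    rcases x1.eq_or_lt with rfl | x1'
    · exact Or.inl rfl
    refine Or.inr ⟨⟨x1', x2⟩, ?_⟩
    by_contra hc
    simp only [not_le] at hc
    have x0 : 0 < x := by linarith
    have y1 : Y ≤ x ^ t := Real.rpow_le_rpow X0.le x1 (by linarith)
    have y2 : x ^ t ≤ 2 * Y := by
      refine (Real.rpow_le_rpow x0.le x2 (by linarith)).trans ?_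
      rw [Real.mul_rpow zero_le_two X0.le]
      refine mul_le_mul_of_nonneg_right ?_ Y0.le
      simpa using Real.rpow_le_rpow_of_exponent_le one_le_two ht1.le
    set y := x ^ t with hy
    have y0 : 0 < y := by linarith
    have lx := Real.log_le_log X0 x1
    have lxy := Real.log_le_log (by linarith : 0 < x + y) (by linarith : x + y ≤ 4 * X)
    have hrx : K / H * x ≤ d * Y := (mul_le_mul_of_nonneg_left x2 hr0).trans hrX
    have hdY : d * Y ≤ d * y := mul_le_mul_of_nonneg_left y1 hd.le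
    have hdY2 : d * Y ≤ 1 / 10 * Y := mul_le_mul_of_nonneg_right hd1 Y0.le
    have e1 : 1 - K / H ≤ Real.exp (-(K / H)) := by linarith [Real.add_one_le_exp (-(K / H))]
    have e2 : Real.exp (K / H) ≤ 1 + 2 * (K / H) := by
      have h1 : Real.exp (K / H) * Real.exp (-(K / H)) = 1 := by rw [← Real.exp_add]; simp
      have h2 := Real.exp_pos (K / H)
      nlinarith
    have p1 : Real.log (max (x - 3 * Y) 1) ≤ Real.log x - K / H := by
      rw [Real.log_le_iff_le_exp (lt_max_of_lt_right one_pos), sub_eq_add_neg (Real.log x),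
        Real.exp_add, Real.exp_log x0]
      have := mul_le_mul_of_nonneg_left e1 x0.le
      exact max_le (by linarith) (by linarith)
    have p2 : Real.log (x + y) + K / H ≤ Real.log (max (x + 3 * Y) 1) := by
      rw [Real.le_log_iff_exp_le (lt_max_of_lt_right one_pos), Real.exp_add,
        Real.exp_log (by linarith)]
      have h1 := mul_le_mul_of_nonneg_left e2 (by linarith : 0 ≤ x + y)
      have h2 := mul_le_mul_of_nonneg_left (by linarith : y ≤ x) hr0
      exact le_max_of_le_left (by linarith)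
    have p3 : ∫ u in (Real.log x - K / H)..(Real.log (x + y) + K / H), (f u + f' u) ≤
        P (x + 3 * Y) - P (x - 3 * Y) := by
      rw [Pd]
      exact intervalIntegral.integral_mono_interval p1
        (by linarith [Real.log_le_log x0 (by linarith : x ≤ x + y)]) p2 (ae_of_all _ F0)
        (Fc.intervalIntegrable _ _)
    have m1 := mono_pp (by linarith : x - 3 * Y ≤ x)
    have m2 := mono_pp (by linarith : x ≤ x + y)
    have m3 := mono_pp (by linarith : x + y ≤ x + 3 * Y)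
    have m4 := Pm (by linarith : x - 3 * Y ≤ x + 3 * Y)
    simp only at m1 m2 m3
    have hη : ∀ u, η * Real.exp u ≤ d * Real.exp u := fun u =>
      mul_le_mul_of_nonneg_right η1 (Real.exp_pos u).le
    obtain ⟨g1, g2⟩ := good_pt hH hK x0 y0 (by linarith) hd hd1 hK1 hK2 hr (hrx.trans hdY) fc fc'
      f0 f0' (fun u h1 h2 => (fp u (by linarith) (by linarith)).imp_right
        fun h => by linarith [hη u])
      (fun u h1 h2 => (fp' u (by linarith) (by linarith)).imp_right fun h => by linarith [hη u])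
      (by linarith)
    rw [div_le_iff₀ hd] at hlog
    have := fin_pi (x := x) (y := y) (a := 11 * d) (by linarith) y0 (by linarith) hd (by linarith)
      (hlog.trans (mul_le_mul_of_nonneg_right lx hd.le)) (by linarith)
      (by linarith [mul_pos hd y0])
    linarith
  · rw [div_le_iff₀ (by positivity)]
    have h1 := theta_le_psi (X - 3 * Y)
    have h2 := mul_le_mul_of_nonneg_right η2 (mul_pos X0 Y0).le
    have h3 : P (2 * X + 3 * Y) + (ψ (2 * X + 3 * Y) - θ (2 * X + 3 * Y)) -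
        (P (X - 3 * Y) + (ψ (X - 3 * Y) - θ (X - 3 * Y))) ≤ 3 * η * X := by linarith
    have h4 := mul_le_mul_of_nonneg_left h3 (by positivity : 0 ≤ 2 * (3 * Y))
    linarith

theorem almost_all (hD : Dens) (hZ : ZF) (hP : Pt) {t : ℝ} (ht : 1 / 9 < t) (ht1 : t < 1)
    {e δ : ℝ} (he : 0 < e) (hδ : 0 < δ) : ∀ᶠ X : ℝ in atTop,
      volume {x : ℝ | x ∈ Set.Icc X (2 * X) ∧ e < |Real.log x / x ^ t *
        ((Nat.primeCounting ⌊x + x ^ t⌋₊ : ℝ) - (Nat.primeCounting ⌊x⌋₊ : ℝ)) - 1|} ≤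
      ENNReal.ofReal (δ * X) :=
  all_of (fun _ h0 h1 => L2_of hD hZ hP h0 h1) ht ht1 he hδ

end

end Pool.Agent.Lib.MP_b09185_nt.Sh
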