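import Pool.Agent.Lib.MP_b09185_nt.MaiGauss
import Pool.Agent.Lib.MP_b09185_nt.MaiLandau

/-! Primes in short intervals from a large values estimate: definitions. -/

namespace Pool.Agent.Lib.MP_b09185_nt.Sh

open Finset Complex Filter

/-- one-separated set of reals -/
def Sep (S : Finset ℝ) : Prop := ∀ t ∈ S, ∀ u ∈ S, t ≠ u → 1 ≤ |t - u|

/-- the large values estimate with exponent nine quarters -/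
def ThmC : Prop := ∀ ε K : ℝ, 0 < ε → ∃ C : ℝ,
    ∀ (N : ℕ) (a : ℕ → ℂ) (T σ : ℝ) (S : Finset ℝ),
      1 ≤ N → (∀ n, ‖a n‖ ≤ 1) → (N : ℝ) ^ (16 / 9 : ℝ) ≤ T → T ≤ (N : ℝ) ^ K →
      (∀ t ∈ S, 0 ≤ t ∧ t ≤ T) → (∀ t ∈ S, ∀ u ∈ S, t ≠ u → 1 ≤ |t - u|) →
      (∀ t ∈ S, (N : ℝ) ^ σ ≤ ‖∑ n ∈ Finset.Icc 1 N, a n * (n : ℂ) ^ (-((t : ℂ) * Complex.I))‖) →
      (S.card : ℝ) ≤ C * T ^ (9 / 4 * (1 - σ) + ε)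

/-- power saving for zeta sums -/
def ExpS : Prop := ∀ l : ℕ, ∃ c : ℝ, 0 < c ∧ ∃ N0 : ℕ, ∀ N : ℕ, N0 ≤ N → ∀ t : ℝ,
  (N : ℝ) ^ (3 / 4 : ℝ) ≤ |t| → |t| ≤ (N : ℝ) ^ l →
    ‖∑ n ∈ Ioc N (2 * N), (n : ℂ) ^ (-((t : ℂ) * I))‖ ≤ (N : ℝ) ^ (1 - c)

/-- zero free region -/
def ZF : Prop := ∃ θ L0 : ℝ, 0 < θ ∧ θ < 1 ∧ ∀ L : ℝ, L0 ≤ L → ∀ s : ℂ, riemannZeta s = 0 →
  |s.im| ≤ Real.exp L → s.re ≤ 1 - L ^ (-θ)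

/-- zero density estimate for separated ordinates -/
def Dens : Prop := ∀ A : ℝ, 9 / 4 < A → ∃ B C : ℝ, ∀ T σ : ℝ, 3 ≤ T → 5 / 9 ≤ σ → σ ≤ 1 →
  ∀ S : Finset ℝ, Sep S → (∀ γ ∈ S, |γ| ≤ T ∧ ∃ β : ℝ, σ ≤ β ∧ riemannZeta (β + γ * I) = 0) →
    (#S : ℝ) ≤ C * T ^ (A * (1 - σ)) * Real.log T ^ B

/-- coefficients bounded by the divisor function -/
def Dv (b : ℕ → ℂ) : Prop := ∀ n : ℕ, ‖b n‖ ≤ (#n.divisors : ℝ)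

/-- the zero detecting polynomials -/
noncomputable def DP (Z : ℕ) (b : ℕ → ℂ) (s : ℂ) : ℂ := ∑ n ∈ Ioc Z (Z ^ 560), b n * (n : ℂ) ^ (-s)

/-- dyadic block -/
noncomputable def BP (N : ℕ) (b : ℕ → ℂ) (t : ℝ) : ℂ :=
  ∑ n ∈ Ioc N (2 * N), b n * (n : ℂ) ^ (-((t : ℂ) * I))

/-- zero detection -/
def Det : Prop := ∃ η : ℝ, 0 < η ∧ ∃ Z0 : ℕ, ∀ Z : ℕ, Z0 ≤ Z → ∀ σ : ℝ, 5 / 9 ≤ σ → σ ≤ 1 →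
  ∃ b1 b2 b3 : ℕ → ℂ, Dv b1 ∧ Dv b2 ∧ Dv b3 ∧ ∀ β γ : ℝ, σ ≤ β → β ≤ 1 → 1 ≤ |γ| →
    |γ| ≤ (Z : ℝ) ^ 1000 → riemannZeta (β + γ * I) = 0 →
      η ≤ ‖DP Z b1 (β + γ * I)‖ ∨ η ≤ ‖DP Z b2 (β + γ * I)‖ ∨
        ∃ u : ℝ, |u| ≤ Real.log Z ∧ η ≤ ‖DP Z b3 (σ + (-(γ + u) : ℝ) * I)‖

/-- counting of large values of the detecting polynomials -/
def Cls : Prop := ∀ A η : ℝ, 9 / 4 < A → 0 < η → ∃ B C : ℝ, ∃ Z0 : ℕ, ∀ Z : ℕ, Z0 ≤ Z →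
  ∀ b : ℕ → ℂ, Dv b → ∀ σ : ℝ, 1 / 2 ≤ σ → σ ≤ 1 → ∀ S : Finset ℝ, Sep S →
    (∀ t ∈ S, |t| ≤ 2 * (Z : ℝ) ^ 1000 ∧ ∃ β : ℝ, σ ≤ β ∧ β ≤ 1 ∧ η ≤ ‖DP Z b (β + t * I)‖) →
      (#S : ℝ) ≤ C * ((Z : ℝ) ^ 1000) ^ (A * (1 - σ)) * Real.log Z ^ B

/-- blocks near the line one -/
def Near : Prop := ∃ δ : ℝ, 0 < δ ∧ ∃ B C : ℝ, ∃ Z0 : ℕ, ∀ Z : ℕ, Z0 ≤ Z → ∀ N : ℕ, Z ≤ N →
  N ≤ Z ^ 560 → ∀ b : ℕ → ℂ, Dv b → ∀ σ : ℝ, 1 - δ ≤ σ → σ ≤ 1 → ∀ S : Finset ℝ, Sep S →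
    (∀ t ∈ S, |t| ≤ 2 * (Z : ℝ) ^ 1000 ∧ (N : ℝ) ^ σ / Real.log Z ^ 2 ≤ ‖BP N b t‖) →
      (#S : ℝ) ≤ C * (N : ℝ) ^ (2 * (1 - σ)) * Real.log Z ^ B

/-- primes with a wide logarithmic Gaussian weight -/
noncomputable def PG (v t : ℝ) : ℂ := ∑' n : ℕ, (ArithmeticFunction.vonMangoldt n : ℂ) *
  (n : ℂ) ^ (-(1 + (t : ℂ) * I)) * (Real.exp (-(Real.log n - v) ^ 2 / 2) : ℝ)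

/-- its main term -/
noncomputable def PM (v t : ℝ) : ℂ :=
  (√(2 * Real.pi) : ℝ) * exp (-((t : ℂ) * v * I) - (t : ℂ) ^ 2 / 2)

def L1 (a : ℝ) : Prop := ∀ e : ℝ, 0 < e → ∀ᶠ v : ℝ in atTop,
  ∫ t in (-Real.exp (a * v))..(Real.exp (a * v)), ‖PG v t - PM v t‖ ≤ e

/-- pointwise bound from a zero free strip -/
def Pt : Prop := ∃ C v0 : ℝ, ∀ v t σ : ℝ, v0 ≤ v → |t| ≤ Real.exp v → 1 / 2 ≤ σ → σ ≤ 1 →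
  (∀ s : ℂ, riemannZeta s = 0 → |s.im - t| ≤ v + 2 → s.re ≤ σ) →
    ‖PG v t - PM v t‖ ≤ C * v ^ 3 * Real.exp (v * (σ - 1))

/-- primes with a narrow logarithmic Gaussian weight -/
def GA (k : ℝ) : Prop := ∀ e : ℝ, 0 < e → ∃ u0 : ℝ, ∀ u H : ℝ, u0 ≤ u → u0 ≤ H → H ≤ u ^ k →
  |H / (u * √(2 * Real.pi)) * (∑' n : ℕ, ArithmeticFunction.vonMangoldt n *
    Real.exp (-(H * (Real.log n - Real.log u)) ^ 2 / 2)) - 1| ≤ e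

end Pool.Agent.Lib.MP_b09185_nt.Sh
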