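import Pool.Agent.Lib.MP_b09185_nt.ShKer
import Pool.Agent.Lib.MP_b09185_nt.ShChi

/-! Zero detection: the mollifier, the weights and the line to the right. -/

namespace Pool.Agent.Lib.MP_b09185_nt.Sh.Dt

open Complex Set Filter Topology MeasureTheory Mai ArithmeticFunction
open scoped ArithmeticFunction.Moebius

/-- the mollifier -/
noncomputable def MM (Z : ℕ) (w : ℂ) : ℂ := ∑ d ∈ Finset.Icc 1 Z, (μ d : ℂ) * (d : ℂ) ^ (-w)

/-- the mollified coefficients -/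
noncomputable def aa (Z n : ℕ) : ℂ := ∑ d ∈ n.divisors, if d ≤ Z then (μ d : ℂ) else 0

/-- the smooth cut off -/
noncomputable def VV (x : ℝ) : ℝ := ∫ w in Ioi (0 : ℝ), Real.exp (-(x - w) ^ 2 / 2)

/-- the kernel -/
noncomputable def kk (ρ s : ℂ) : ℂ := s⁻¹ + (ρ - 1)⁻¹

lemma norm_mu (d : ℕ) : ‖(μ d : ℂ)‖ ≤ 1 := by
  rw [norm_intCast]
  exact_mod_cast abs_moebius_le_one

lemma aa_le (Z n : ℕ) : ‖aa Z n‖ ≤ (n.divisors.card : ℝ) := by
  refine (norm_sum_le _ _).trans ?_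
  rw [Finset.card_eq_sum_ones, Nat.cast_sum]
  refine Finset.sum_le_sum fun d _ => ?_
  split_ifs
  · simpa using norm_mu d
  · simp

lemma aa_small {Z n : ℕ} (h : n ≤ Z) : aa Z n = if n = 1 then 1 else 0 := by
  have e := congrArg (fun f : ArithmeticFunction ℂ => f n) coe_moebius_mul_coe_zeta
  simp only [coe_mul_zeta_apply, one_apply, intCoe_apply] at e
  rw [← e]
  exact Finset.sum_congr rfl fun d hd => if_pos ((Nat.divisor_le hd).trans h)

lemma aa_series (Z : ℕ) {w : ℂ} (hw : 1 < w.re) :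
    LSeriesSummable (aa Z) w ∧ LSeries (aa Z) w = riemannZeta w * MM Z w := by
  set m : ℕ → ℂ := fun d => if d ≤ Z then (μ d : ℂ) else 0 with hm
  have e : aa Z = LSeries.convolution m 1 := by
    funext n
    rw [LSeries.convolution_def]
    simp only [Pi.one_apply, mul_one]
    exact (Nat.sum_divisorsAntidiagonal fun d _ => m d).symm
  have h1 : LSeriesSummable m w := LSeriesSummable_of_bounded_of_one_lt_re (m := 1)
    (fun n _ => by
      simp only [hm]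
      split_ifs
      · exact norm_mu n
      · simp) hw
  have h2 := LSeriesSummable_one_iff.2 hw
  rw [e]
  refine ⟨h1.convolution h2, ?_⟩
  rw [LSeries_convolution' h1 h2, LSeries_one_eq_riemannZeta hw, mul_comm, LSeries,
    tsum_eq_sum (s := Finset.Icc 1 Z)]
  · congr 1
    refine Finset.sum_congr rfl fun d hd => ?_
    rw [Finset.mem_Icc] at hd
    rw [LSeries.term_of_ne_zero (by omega), hm, cpow_neg, div_eq_mul_inv]
    simp [hd.2]
  · intro d hd
    rcases eq_or_ne d 0 with rfl | h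
    · simp
    · rw [Finset.mem_Icc] at hd
      rw [LSeries.term_of_ne_zero h, hm]
      simp [show ¬ d ≤ Z by omega]

lemma norm_pow_le {N d k : ℕ} (hd : d ∈ Finset.Icc 1 N) {w : ℂ} (hw : -(k : ℝ) ≤ w.re) :
    ‖(d : ℂ) ^ (-w)‖ ≤ (N : ℝ) ^ k := by
  rw [Finset.mem_Icc] at hd
  have h1 : (1 : ℝ) ≤ d := by exact_mod_cast hd.1
  have h2 : (d : ℝ) ≤ N := by exact_mod_cast hd.2
  rw [norm_natCast_cpow_of_pos hd.1, neg_re]
  calc _ ≤ (d : ℝ) ^ (k : ℝ) := Real.rpow_le_rpow_of_exponent_le h1 (by linarith)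
    _ ≤ _ := by rw [Real.rpow_natCast]; gcongr

lemma MM_le (Z k : ℕ) {w : ℂ} (hw : -(k : ℝ) ≤ w.re) : ‖MM Z w‖ ≤ (Z : ℝ) ^ (k + 1) := by
  refine (norm_sum_le_of_le _ (n := fun _ => (Z : ℝ) ^ k) fun d hd => ?_).trans (by
    simp [pow_succ'])
  rw [norm_mul]
  simpa using mul_le_mul (norm_mu d) (norm_pow_le hd hw) (norm_nonneg _) zero_le_one

lemma diff_pow {d N : ℕ} (hd : d ∈ Finset.Icc 1 N) :
    Differentiable ℂ fun w : ℂ => (d : ℂ) ^ (-w) :=
  SW.diff_cpow _ (by have := (Finset.mem_Icc.1 hd).1; exact_mod_cast (by omega)) (by fun_prop)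

lemma MM_diff (Z : ℕ) : Differentiable ℂ (MM Z) :=
  Differentiable.fun_sum fun _ hd => (diff_pow hd).const_mul _

lemma int_gauss (x : ℝ) : Integrable fun w : ℝ => Real.exp (-(x - w) ^ 2 / 2) := by
  refine (integrable_gauss.comp_sub_left x).congr (Eventually.of_forall fun w => ?_)
  simp only
  congr 1
  ring

lemma VV_nonneg (x : ℝ) : 0 ≤ VV x := integral_nonneg fun _ => (Real.exp_pos _).le

lemma VV_le (x : ℝ) : VV x ≤ 3 := by
  refine (setIntegral_le_integral (int_gauss x)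
    (Eventually.of_forall fun _ => (Real.exp_pos _).le)).trans ?_
  have := integral_sub_left_eq_self (fun t : ℝ => Real.exp (-(1 / 2) * t ^ 2)) volume x
  rw [integral_gauss] at this
  refine le_trans (le_of_eq ?_) (this.le.trans sqrt_two_pi_le)
  congr 1
  funext w
  congr 1
  ring

lemma VV_ge {x : ℝ} (hx : 1 ≤ x) : 1 / 2 ≤ VV x := by
  have h1 : ∫ w in Ioc (x - 1) x, Real.exp (-(x - w) ^ 2 / 2) ≤ VV x :=
    setIntegral_mono_set (int_gauss x).integrableOn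
      (Eventually.of_forall fun _ => (Real.exp_pos _).le)
      (Eventually.of_forall fun w (hw : w ∈ Ioc (x - 1) x) => show w ∈ Ioi 0 from
        lt_of_le_of_lt (by linarith) hw.1)
  refine le_trans ?_ h1
  have h2 := setIntegral_ge_of_const_le_real (c := 1 / 2) (s := Ioc (x - 1) x)
    (f := fun w : ℝ => Real.exp (-(x - w) ^ 2 / 2)) measurableSet_Ioc (by simp)
    (fun w hw => le_trans (by nlinarith [hw.1, hw.2]) (Real.add_one_le_exp _))
    ((int_gauss x).integrableOn : IntegrableOn _ _ volume)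
  simpa using h2

lemma gauss_le (K x : ℝ) : Real.exp (-x ^ 2 / 2) ≤ Real.exp (K ^ 2 / 2 + K * x) :=
  Real.exp_le_exp.2 (by nlinarith [sq_nonneg (x + K)])

lemma VV_dec {K : ℝ} (hK : 1 ≤ K) (x : ℝ) : VV x ≤ Real.exp (K ^ 2 / 2 + K * x) := by
  have h1 := (integrableOn_exp_neg_Ioi 0).const_mul (Real.exp (K ^ 2 / 2 + K * x))
  refine (setIntegral_mono_on (int_gauss x).integrableOn h1 measurableSet_Ioi
    fun w (hw : 0 < w) => ?_).trans ?_
  · refine (gauss_le K _).trans ?_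
    rw [← Real.exp_add]
    exact Real.exp_le_exp.2 (by nlinarith)
  · rw [integral_const_mul, integral_exp_neg_Ioi_zero, mul_one]

lemma kk_le {ρ s : ℂ} (hρ : 1 ≤ |ρ.im|) (hs : 1 / 18 ≤ |s.re|) : ‖kk ρ s‖ ≤ 19 := by
  have h1 : ‖(ρ - 1)⁻¹‖ ≤ 1 := by
    rw [norm_inv]
    exact inv_le_one_of_one_le₀ (hρ.trans (by simpa using abs_im_le_norm (ρ - 1)))
  have h2 : ‖s⁻¹‖ ≤ 18 := by
    rw [norm_inv]
    exact (inv_le_comm₀ (by linarith [abs_re_le_norm s]) (by norm_num)).2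
      (by linarith [abs_re_le_norm s])
  unfold kk
  linarith [norm_add_le s⁻¹ (ρ - 1)⁻¹]

lemma kk_int (ρ : ℂ) (x : ℝ) : ∫ u : ℝ, kk ρ ((2 : ℝ) + u * I) * EE x ((2 : ℝ) + u * I) =
    (√(2 * Real.pi) : ℝ) * (VV x + (ρ - 1)⁻¹ * (Real.exp (-x ^ 2 / 2) : ℝ)) := by
  have h1 := ker_inv (c := 2) two_pos x 0
  simp only [ofReal_zero, zero_mul, add_zero, neg_zero, exp_zero, one_mul,
    integral_complex_ofReal] at h1
  have hne : ∀ u : ℝ, (((2 : ℝ) : ℂ) + u * I) ≠ 0 := fun u h => by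
    simpa using congrArg re h
  have i1 : Integrable fun u : ℝ => (((2 : ℝ) : ℂ) + u * I)⁻¹ * EE x ((2 : ℝ) + u * I) :=
    integrable_line (F := fun u : ℝ => (((2 : ℝ) : ℂ) + u * I)⁻¹)
      (Continuous.inv₀ (by fun_prop) hne) (K := 1) (fun u => by
      rw [norm_inv]
      exact inv_le_one_of_one_le₀ (le_trans (by simp) (abs_re_le_norm _))) x 2
  have i2 : Integrable fun u : ℝ => (ρ - 1)⁻¹ * EE x ((2 : ℝ) + u * I) :=
    integrable_line continuous_const (fun _ => le_rfl) x 2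
  simp only [kk, add_mul]
  rw [integral_add i1 i2, h1, integral_const_mul, integral_EE, VV]
  push_cast
  ring

lemma tail_le {f : ℕ → ℂ} {A : ℝ} {N j : ℕ} (hN : 1 ≤ N) {S : ℂ} (hf : HasSum f S)
    (h : ∀ n, N < n → ‖f n‖ ≤ A / (n : ℝ) ^ (j + 2)) :
    ‖S - ∑ n ∈ Finset.range (N + 1), f n‖ ≤ 2 * (A / (N : ℝ) ^ j) := by
  have hA : 0 ≤ A := by
    have := (norm_nonneg _).trans (h (N + 1) (by omega))
    by_contra hc
    exact absurd this (not_le.2 (div_neg_of_neg_of_pos (not_le.1 hc) (by positivity)))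
  have hN' : (0 : ℝ) < N := by exact_mod_cast hN
  have h2 := (hasSum_nat_add_iff' (N + 1)).2 hf
  have h3 := (hasSum_zeta_two.mul_left (A / (N : ℝ) ^ j))
  have h4 := (hasSum_nat_add_iff' (N + 1)).2 h3
  refine (h2.norm_le_of_bounded h4 fun n => (h _ (by omega)).trans ?_).trans ?_
  · rw [pow_add, div_mul_div_comm, mul_one]
    gcongr
    omega
  · have : 0 ≤ ∑ i ∈ Finset.range (N + 1), A / (N : ℝ) ^ j * (1 / (i : ℝ) ^ 2) := by positivity
    have h5 : Real.pi ^ 2 / 6 ≤ 2 := by nlinarith [Real.pi_lt_d2, Real.pi_pos]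
    nlinarith [div_nonneg hA (pow_pos hN' j).le]

/-- logarithm of the length of the smoothed sum -/
noncomputable def yy (Z : ℕ) : ℝ := 550 * Real.log Z

noncomputable def b1 (Z n : ℕ) : ℂ := aa Z n * (VV (yy Z - Real.log n) / 3 : ℝ)

noncomputable def b2 (Z n : ℕ) : ℂ := aa Z n * (Real.exp (-(yy Z - Real.log n) ^ 2 / 2) : ℝ)

lemma gauss_le_one (x : ℝ) : Real.exp (-x ^ 2 / 2) ≤ 1 :=
  Real.exp_le_one_iff.2 (by nlinarith [sq_nonneg x])

lemma Dv_b1 (Z : ℕ) : Dv (b1 Z) := fun n => by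
  have h1 := VV_nonneg (yy Z - Real.log n)
  have h2 := VV_le (yy Z - Real.log n)
  rw [b1, norm_mul, norm_real, Real.norm_of_nonneg (by positivity)]
  simpa using mul_le_mul (aa_le Z n) (show VV (yy Z - Real.log n) / 3 ≤ 1 by linarith)
    (by positivity) (by positivity)

lemma Dv_b2 (Z : ℕ) : Dv (b2 Z) := fun n => by
  rw [b2, norm_mul, norm_real, Real.norm_of_nonneg (by positivity)]
  simpa using mul_le_mul (aa_le Z n) (gauss_le_one _) (by positivity) (by positivity)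

lemma inv_le_one {ρ : ℂ} (hρ : 1 ≤ |ρ.im|) : ‖(ρ - 1)⁻¹‖ ≤ 1 := by
  rw [norm_inv]
  exact inv_le_one_of_one_le₀ (hρ.trans (by simpa using abs_im_le_norm (ρ - 1)))

lemma exp_yy {Z : ℕ} (hZ : 1 ≤ Z) (k : ℕ) : Real.exp (k * yy Z) = (Z : ℝ) ^ (550 * k) := by
  rw [yy, show (k : ℝ) * (550 * Real.log Z) = (550 * k : ℕ) * Real.log Z by push_cast; ring,
    Real.exp_nat_mul, Real.exp_log (by exact_mod_cast hZ)]

lemma right : ∃ C : ℝ, 0 ≤ C ∧ ∀ Z : ℕ, 1 ≤ Z → 1 ≤ Real.log Z → ∀ ρ : ℂ, 0 ≤ ρ.re → 1 ≤ |ρ.im| →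
    1 / 2 ≤ ‖∫ u : ℝ, riemannZeta (ρ + ((2 : ℝ) + u * I)) * MM Z (ρ + ((2 : ℝ) + u * I)) *
      kk ρ ((2 : ℝ) + u * I) * EE (yy Z) ((2 : ℝ) + u * I)‖ + C / Z +
        9 * ‖DP Z (b1 Z) ρ‖ + 3 * ‖DP Z (b2 Z) ρ‖ := by
  obtain ⟨E, hE0, hE⟩ : ∃ E : ℝ, 0 ≤ E ∧ ∀ x : ℝ, VV x ≤ E * Real.exp (200 * x) ∧
      Real.exp (-x ^ 2 / 2) ≤ E * Real.exp (200 * x) :=
    ⟨Real.exp (200 ^ 2 / 2), (Real.exp_pos _).le, fun x =>
      ⟨Real.exp_add _ _ ▸ VV_dec (by norm_num) x, Real.exp_add _ _ ▸ gauss_le 200 x⟩⟩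
  refine ⟨12 * E + 3, by positivity, fun Z hZ hL ρ h0 h1 => ?_⟩
  have hZ' : (1 : ℝ) ≤ Z := by exact_mod_cast hZ
  have hre : ∀ u : ℝ, 1 < (ρ + ((2 : ℝ) + u * I)).re := fun u => by
    simp
    linarith
  have hs : LSeriesSummable (LSeries.term (aa Z) ρ) (2 : ℝ) := by
    have := (aa_series Z (hre 0)).1
    simp only [LSeriesSummable, ofReal_zero, zero_mul, add_zero] at this ⊢
    exact this.congr fun n => (term_term _ _ _ n).symm
  have hk : Continuous fun u : ℝ => kk ρ ((2 : ℝ) + u * I) :=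
    (Continuous.inv₀ (by fun_prop) fun u h => by simpa using congrArg re h).add continuous_const
  have hS := ker_LSeries (LSeries.term_zero _ _) hs (yy Z) hk (K := 19)
    (fun u => kk_le h1 (by norm_num))
  have e : ∀ u : ℝ, LSeries (LSeries.term (aa Z) ρ) ((2 : ℝ) + u * I) =
      riemannZeta (ρ + ((2 : ℝ) + u * I)) * MM Z (ρ + ((2 : ℝ) + u * I)) := fun u => by
    rw [← (aa_series Z (hre u)).2]
    simp only [LSeries, term_term]
  simp only [e, kk_int, ← mul_assoc] at hS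
  set S := ∫ u : ℝ, riemannZeta (ρ + ((2 : ℝ) + u * I)) * MM Z (ρ + ((2 : ℝ) + u * I)) *
      kk ρ ((2 : ℝ) + u * I) * EE (yy Z) ((2 : ℝ) + u * I)
  set r := √(2 * Real.pi) with hr
  have r1 : 1 ≤ r := one_le_sqrt_two_pi
  have r3 : r ≤ 3 := sqrt_two_pi_le
  have hi := inv_le_one h1
  have hN : Z ≤ Z ^ 560 := Nat.le_self_pow (by decide) Z
  have ht := tail_le (A := 6 * E * (Z : ℝ) ^ (550 * 200)) (N := Z ^ 560) (j := 197)
    (hZ.trans hN) hS fun n hn => by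
      have hn0 : n ≠ 0 := by omega
      have hn1 : (1 : ℝ) ≤ n := by exact_mod_cast Nat.one_le_iff_ne_zero.2 hn0
      have a1 : ‖LSeries.term (aa Z) ρ n‖ ≤ n := by
        rw [LSeries.norm_term_eq, if_neg hn0]
        refine (div_le_self (norm_nonneg _) (Real.one_le_rpow hn1 h0)).trans ((aa_le Z n).trans ?_)
        exact_mod_cast Nat.card_divisors_le_self n
      have a2 : Real.exp (200 * (yy Z - Real.log n)) = (Z : ℝ) ^ (550 * 200) / (n : ℝ) ^ 200 := by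
        rw [mul_sub, Real.exp_sub, ← exp_yy hZ 200, ← Real.exp_log (show (0 : ℝ) < n by linarith),
          ← Real.exp_nat_mul, Real.log_exp]
        norm_num
      obtain ⟨a3, a4⟩ := hE (yy Z - Real.log n)
      rw [a2] at a3 a4
      have a5 : ‖(VV (yy Z - Real.log n) : ℂ) +
          (ρ - 1)⁻¹ * (Real.exp (-(yy Z - Real.log n) ^ 2 / 2) : ℝ)‖ ≤
          2 * (E * ((Z : ℝ) ^ (550 * 200) / (n : ℝ) ^ 200)) := by
        refine (norm_add_le _ _).trans ?_
        rw [norm_mul, norm_real, norm_real, Real.norm_of_nonneg (VV_nonneg _),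
          Real.norm_of_nonneg (Real.exp_pos _).le]
        nlinarith [Real.exp_pos (-(yy Z - Real.log n) ^ 2 / 2), norm_nonneg (ρ - 1)⁻¹]
      rw [norm_mul, norm_mul, norm_real, Real.norm_of_nonneg (by linarith)]
      calc _ ≤ n * 3 * (2 * (E * ((Z : ℝ) ^ (550 * 200) / (n : ℝ) ^ 200))) := by gcongr
        _ = _ := by
          generalize (Z : ℝ) ^ (550 * 200) = W
          field_simp
          ring
  have ht2 : 2 * (6 * E * (Z : ℝ) ^ (550 * 200) / ((Z ^ 560 : ℕ) : ℝ) ^ 197) ≤ 12 * E / Z := by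
    rw [Nat.cast_pow, ← pow_mul, ← mul_div_assoc, div_le_div_iff₀ (by positivity) (by positivity),
      show 2 * (6 * E * (Z : ℝ) ^ (550 * 200)) * Z = 12 * E * (Z : ℝ) ^ (550 * 200 + 1) by
        rw [pow_succ]; ring]
    exact mul_le_mul_of_nonneg_left (pow_le_pow_right₀ hZ' (by norm_num)) (by positivity)
  rw [← Finset.sum_range_add_sum_Ico _ (Nat.add_le_add_right hN 1), Finset.sum_eq_single 1,
    Finset.Ico_add_one_add_one_eq_Ioc] at ht
  · have e2 : ∑ n ∈ Finset.Ioc Z (Z ^ 560), LSeries.term (aa Z) ρ n * (r : ℂ) *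
        (VV (yy Z - Real.log n) + (ρ - 1)⁻¹ * (Real.exp (-(yy Z - Real.log n) ^ 2 / 2) : ℝ)) =
        r * (3 * DP Z (b1 Z) ρ + (ρ - 1)⁻¹ * DP Z (b2 Z) ρ) := by
      simp only [DP, Finset.mul_sum, ← Finset.sum_add_distrib]
      refine Finset.sum_congr rfl fun n hn => ?_
      rw [LSeries.term_of_ne_zero (by have := (Finset.mem_Ioc.1 hn).1; omega), b1, b2, cpow_neg,
        ofReal_div, ofReal_ofNat]
      ring
    have e3 : LSeries.term (aa Z) ρ 1 = 1 := by simp [aa_small hZ]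
    rw [e2, e3, one_mul, Nat.cast_one, Real.log_one, sub_zero] at ht
    have hy : 1 ≤ yy Z := by unfold yy; linarith
    have g1 : Real.exp (-yy Z ^ 2 / 2) ≤ 1 / Z := by
      rw [one_div, ← Real.exp_log (show (0 : ℝ) < Z by linarith), ← Real.exp_neg]
      exact Real.exp_le_exp.2 (by unfold yy; nlinarith)
    have g2 := VV_ge hy
    have g3 : ‖(r : ℂ) * (VV (yy Z) : ℝ)‖ = r * VV (yy Z) := by
      rw [norm_mul, norm_real, norm_real, Real.norm_of_nonneg (by linarith),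
        Real.norm_of_nonneg (by linarith)]
    have g4 : ‖(r : ℂ) * ((ρ - 1)⁻¹ * (Real.exp (-yy Z ^ 2 / 2) : ℝ) +
        (3 * DP Z (b1 Z) ρ + (ρ - 1)⁻¹ * DP Z (b2 Z) ρ))‖ ≤
        3 * (1 * (1 / Z) + (3 * ‖DP Z (b1 Z) ρ‖ + 1 * ‖DP Z (b2 Z) ρ‖)) := by
      rw [norm_mul, norm_real, Real.norm_of_nonneg (by linarith)]
      refine mul_le_mul r3 (norm_add_le_of_le ?_ (norm_add_le_of_le ?_ ?_)) (norm_nonneg _)
        (by norm_num)
      · rw [norm_mul, norm_real, Real.norm_of_nonneg (Real.exp_pos _).le]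
        gcongr
      · simp
      · rw [norm_mul]
        gcongr
    set A := (r : ℂ) * ((ρ - 1)⁻¹ * (Real.exp (-yy Z ^ 2 / 2) : ℝ) +
        (3 * DP Z (b1 Z) ρ + (ρ - 1)⁻¹ * DP Z (b2 Z) ρ)) with hA
    have g5 : ‖(r : ℂ) * (VV (yy Z) : ℝ)‖ ≤ ‖S‖ + ‖S - ((r : ℂ) * (VV (yy Z) : ℝ) + A)‖ + ‖A‖ := by
      refine le_trans (le_of_eq ?_) ((norm_sub_le _ _).trans (add_le_add (norm_sub_le _ _) le_rfl))
      congr 1
      ring
    rw [show (r : ℂ) * (VV (yy Z) + (ρ - 1)⁻¹ * (Real.exp (-yy Z ^ 2 / 2) : ℝ)) +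
      r * (3 * DP Z (b1 Z) ρ + (ρ - 1)⁻¹ * DP Z (b2 Z) ρ) = (r : ℂ) * (VV (yy Z) : ℝ) + A by
        rw [hA]; ring] at ht
    have g6 : (12 * E + 3) / Z = 12 * E / Z + 3 * (1 / Z) := by ring
    nlinarith
  · intro n hn h
    rcases eq_or_ne n 0 with rfl | h'
    · simp
    · rw [LSeries.term_of_ne_zero h', aa_small (by have := Finset.mem_range.1 hn; omega), if_neg h]
      simp
  · intro h
    exact absurd (Finset.mem_range.2 (by omega)) h

end Pool.Agent.Lib.MP_b09185_nt.Sh.Dt
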