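import Pool.Agent.Lib.MP_b09185_nt.ShDef
import Pool.Agent.Lib.SW.Div

/-! Large values of dyadic blocks away from the line one. -/

namespace Pool.Agent.Lib.MP_b09185_nt.Sh

open Finset Complex Filter Topology

/-- blocks away from the line one -/
def Far : Prop := ∀ A δ : ℝ, 9 / 4 < A → 0 < δ → ∃ C : ℝ, 0 ≤ C ∧ ∃ Z0 : ℕ, ∀ Z : ℕ, Z0 ≤ Z →
  ∀ N : ℕ, Z ≤ N → N ≤ Z ^ 560 → ∀ b : ℕ → ℂ, Dv b → ∀ σ : ℝ, 0 ≤ σ → σ ≤ 1 - δ →
    ∀ S : Finset ℝ, Sep S →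
    (∀ t ∈ S, |t| ≤ 2 * (Z : ℝ) ^ 1000 ∧ (N : ℝ) ^ σ / Real.log Z ^ 2 ≤ ‖BP N b t‖) →
      (#S : ℝ) ≤ C * ((Z : ℝ) ^ 1000) ^ (A * (1 - σ))

lemma far_log {e : ℝ} (he : 0 < e) (D : ℝ) :
    ∃ Z0 : ℕ, ∀ Z : ℕ, Z0 ≤ Z → 2 ≤ Z ∧ 2 * D * Real.log Z ^ 2 ≤ (Z : ℝ) ^ e := by
  have h1 := (isLittleO_log_rpow_rpow_atTop (2 : ℝ) he).const_mul_left (2 * D)
  have h2 := tendsto_natCast_atTop_atTop (R := ℝ).eventually (h1.bound one_pos)
  obtain ⟨Z0, h⟩ := eventually_atTop.1 (h2.and (eventually_ge_atTop 2))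
  refine ⟨Z0, fun Z hZ => ⟨(h Z hZ).2, ?_⟩⟩
  have h3 := (h Z hZ).1
  rw [one_mul, Real.rpow_two, Real.norm_eq_abs, Real.norm_eq_abs,
    abs_of_nonneg (a := (Z : ℝ) ^ e) (by positivity)] at h3
  exact (le_abs_self _).trans h3

lemma far_sum (N : ℕ) (b : ℕ → ℂ) (c : ℂ) (T t : ℝ) :
    ∑ n ∈ Icc 1 (2 * N), (if n ∈ Ioc N (2 * N) then c * (b n * (n : ℂ) ^ ((T : ℂ) * I)) else 0) *
      (n : ℂ) ^ (-(((t + T : ℝ) : ℂ) * I)) = c * BP N b t := by
  have hsub : Ioc N (2 * N) ⊆ Icc 1 (2 * N) := fun n hn => by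
    rw [mem_Ioc] at hn; rw [mem_Icc]; omega
  rw [← Finset.sum_subset hsub fun n _ hn => by rw [if_neg hn, zero_mul], BP, Finset.mul_sum]
  refine Finset.sum_congr rfl fun n hn => ?_
  have hn0 : (n : ℂ) ≠ 0 := by
    rw [mem_Ioc] at hn
    exact_mod_cast (by omega : n ≠ 0)
  rw [if_pos hn, mul_assoc, mul_assoc, ← cpow_add _ _ hn0]
  congr 3
  push_cast; ring

theorem far_of (hC : ThmC) : Far := by
  intro A δ hA hδ
  set e : ℝ := (A - 9 / 4) * δ / 6 with he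
  have he0 : 0 < e := by have : 0 < A - 9 / 4 := by linarith
                         positivity
  obtain ⟨C, hC⟩ := hC e 1001 he0
  obtain ⟨D, hD1, hD⟩ := SW.divisor_bound he0
  obtain ⟨Z0, hZ0⟩ := far_log he0 D
  refine ⟨|C| * 4 ^ A, by positivity, Z0, fun Z hZ N hZN hNZ b hb σ hσ0 hσ S hS h => ?_⟩
  obtain ⟨hZ2, hlog⟩ := hZ0 Z hZ
  have hZr : (2 : ℝ) ≤ Z := by exact_mod_cast hZ2
  have hNr : (Z : ℝ) ≤ N := by exact_mod_cast hZN
  have hNr2 : (N : ℝ) ≤ (Z : ℝ) ^ 560 := by exact_mod_cast hNZ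
  have hM : ((2 * N : ℕ) : ℝ) = 2 * N := by push_cast; ring
  have hM0 : (0 : ℝ) < 2 * N := by linarith
  have hE : (0 : ℝ) < D * (2 * N) ^ e := by positivity
  have hT1 : (1 : ℝ) ≤ (Z : ℝ) ^ 1000 := one_le_pow₀ (by linarith)
  have hinj : Function.Injective fun t : ℝ => t + 2 * (Z : ℝ) ^ 1000 := add_left_injective _
  have key := hC (2 * N) (fun n => if n ∈ Ioc N (2 * N) then ((D * (2 * N) ^ e : ℝ) : ℂ)⁻¹ *
      (b n * (n : ℂ) ^ (((2 * (Z : ℝ) ^ 1000 : ℝ) : ℂ) * I)) else 0) (4 * (Z : ℝ) ^ 1000)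
      (σ - 2 * e) (S.image fun t => t + 2 * (Z : ℝ) ^ 1000) (by omega) (fun n => ?_) ?_ ?_
      (fun t ht => ?_) (fun t ht u hu htu => ?_) (fun t ht => ?_)
  · rw [Finset.card_image_of_injective _ hinj] at key
    have h1 : 9 / 4 * (1 - (σ - 2 * e)) + e ≤ A * (1 - σ) := by
      have : (A - 9 / 4) * δ ≤ (A - 9 / 4) * (1 - σ) :=
        mul_le_mul_of_nonneg_left (by linarith) (by linarith)
      linarith
    have h2 : (4 * (Z : ℝ) ^ 1000) ^ (9 / 4 * (1 - (σ - 2 * e)) + e) ≤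
        4 ^ A * ((Z : ℝ) ^ 1000) ^ (A * (1 - σ)) := by
      refine (Real.rpow_le_rpow_of_exponent_le (by linarith) h1).trans ?_
      rw [Real.mul_rpow (by norm_num) (by positivity)]
      refine mul_le_mul_of_nonneg_right (Real.rpow_le_rpow_of_exponent_le (by norm_num) ?_)
        (by positivity)
      nlinarith
    rw [mul_assoc]
    exact key.trans (mul_le_mul (le_abs_self C) h2 (by positivity) (abs_nonneg C))
  · split_ifs with hn
    · rw [mem_Ioc] at hn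
      have hn0 : 0 < n := by omega
      have hn2 : (n : ℝ) ≤ 2 * N := by exact_mod_cast hn.2
      rw [norm_mul, norm_mul, norm_inv, Complex.norm_real, Real.norm_eq_abs, abs_of_pos hE,
        Complex.norm_natCast_cpow_of_pos hn0, re_ofReal_mul, I_re, mul_zero, Real.rpow_zero,
        mul_one, inv_mul_le_iff₀ hE, mul_one]
      refine (hb n).trans ((hD n).trans ?_)
      gcongr
    · simp
  · rw [hM]
    calc (2 * (N : ℝ)) ^ (16 / 9 : ℝ) ≤ (2 * (Z : ℝ) ^ 560) ^ (16 / 9 : ℝ) := by gcongr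
      _ = 2 ^ (16 / 9 : ℝ) * (Z : ℝ) ^ (560 * (16 / 9) : ℝ) := by
        rw [Real.mul_rpow (by norm_num) (by positivity), Real.rpow_mul (by linarith)]
        norm_num
      _ ≤ 2 ^ (2 : ℝ) * (Z : ℝ) ^ (1000 : ℝ) := by
        gcongr
        · norm_num
        · norm_num
        · linarith
        · norm_num
      _ = _ := by norm_num
  · rw [hM]
    have h1 : (Z : ℝ) ^ 1000 ≤ (2 * (N : ℝ)) ^ 1000 :=
      pow_le_pow_left₀ (by linarith) (by linarith) _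
    rw [show (1001 : ℝ) = ((1000 + 1 : ℕ) : ℝ) by norm_num, Real.rpow_natCast,
      pow_succ' (2 * (N : ℝ)) 1000]
    exact mul_le_mul (by linarith) h1 (by linarith) (by linarith)
  · obtain ⟨s, hs, rfl⟩ := Finset.mem_image.1 ht
    have := abs_le.1 (h s hs).1
    constructor <;> linarith [this.1, this.2]
  · obtain ⟨s, hs, rfl⟩ := Finset.mem_image.1 ht
    obtain ⟨s', hs', rfl⟩ := Finset.mem_image.1 hu
    rw [add_sub_add_right_eq_sub]
    exact hS s hs s' hs' fun h => htu (by rw [h])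
  · obtain ⟨s, hs, rfl⟩ := Finset.mem_image.1 ht
    rw [far_sum, hM, norm_mul, norm_inv, Complex.norm_real, Real.norm_eq_abs, abs_of_pos hE,
      le_inv_mul_iff₀ hE]
    refine le_trans ?_ (h s hs).2
    have hl : 0 < Real.log Z := Real.log_pos (by linarith)
    rw [le_div_iff₀ (by positivity)]
    have h1 : (2 * (N : ℝ)) ^ (σ - 2 * e) * (2 * N) ^ e * (2 * N) ^ e = 2 ^ σ * (N : ℝ) ^ σ := by
      rw [← Real.rpow_add hM0, ← Real.rpow_add hM0, ← Real.mul_rpow (by norm_num) (by linarith)]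
      congr 1; ring
    have h2 : (2 : ℝ) ^ σ ≤ 2 := by
      simpa using Real.rpow_le_rpow_of_exponent_le (one_le_two) (by linarith : σ ≤ 1)
    have h3 : (Z : ℝ) ^ e ≤ (2 * N) ^ e := by gcongr; linarith
    have h4 : 0 < (2 * (N : ℝ)) ^ (σ - 2 * e) * (2 * N) ^ e := by positivity
    have h5 : 0 ≤ (N : ℝ) ^ σ := by positivity
    have h6 := mul_le_mul_of_nonneg_left (hlog.trans h3) h4.le
    have h7 := mul_le_mul_of_nonneg_right h2 h5
    rw [h1] at h6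
    linarith

end Pool.Agent.Lib.MP_b09185_nt.Sh
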