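import Pool.Agent.Lib.MP_b09185_nt.ShKer
import Pool.Agent.Lib.MP_31bf45_nt.Clus

/-! Zero density with multiplicities. -/

namespace Pool.Agent.Lib.MP_b09185_nt.Sh

open Finset Complex Filter

theorem zero_density (hD : Dens) {A : ℝ} (hA : 9 / 4 < A) : ∃ B C : ℝ, ∀ T σ : ℝ, 3 ≤ T →
    1 / 2 ≤ σ → σ ≤ 1 → ∀ S : Finset ℂ, (∀ ρ ∈ S, σ ≤ ρ.re ∧ ρ.re ≤ 1 ∧ 0 < ρ.im ∧ ρ.im ≤ T) →
      ∑ ρ ∈ S, (analyticOrderNatAt riemannZeta ρ : ℝ) ≤
        C * T ^ (A * (1 - σ)) * Real.log T ^ B := by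
  classical
  obtain ⟨B, C, hBC⟩ := hD A hA
  obtain ⟨T0, hT0⟩ := eventually_atTop.1 (Pool.Agent.Lib.MP_31bf45_nt.cluster one_pos)
  have hfin := (isCompact_Icc.reProdIm isCompact_Icc :
    IsCompact (Set.Icc (0 : ℝ) 1 ×ℂ Set.Icc (0 : ℝ) (|T0| + 2))).inter_riemannZetaZeros_finite
  set C0 : ℝ := ∑ ρ ∈ hfin.toFinset, (analyticOrderNatAt riemannZeta ρ : ℝ) with hC0
  have c0 : 0 ≤ C0 := sum_nonneg fun _ _ => Nat.cast_nonneg _
  refine ⟨|B| + 1, C0 + 6 * |C| + 2, fun T σ hT h1 h2 S hS => ?_⟩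
  have l1 : 1 ≤ Real.log T := by
    rw [Real.le_log_iff_exp_le (by linarith)]
    linarith [Real.exp_one_lt_d9]
  have p1 : 1 ≤ T ^ (A * (1 - σ)) := Real.one_le_rpow (by linarith) (by nlinarith)
  have p2 : 1 ≤ Real.log T ^ |B| := Real.one_le_rpow l1 (abs_nonneg _)
  set S0 := S.filter fun ρ => riemannZeta ρ = 0 with hS0
  have e0 : ∑ ρ ∈ S, (analyticOrderNatAt riemannZeta ρ : ℝ) =
      ∑ ρ ∈ S0, (analyticOrderNatAt riemannZeta ρ : ℝ) := by
    refine (sum_subset (filter_subset _ _) fun ρ hρ h => ?_).symm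
    have h3 : riemannZeta ρ ≠ 0 := fun e => h (mem_filter.2 ⟨hρ, e⟩)
    rw [analyticOrderNatAt, analyticOrderAt_eq_zero.2 (Or.inr h3)]
    simp
  set S1 := S0.filter fun ρ => ¬ ρ.im ≤ |T0| + 2 with hS1
  have b0 : ∑ ρ ∈ S0.filter fun ρ => ρ.im ≤ |T0| + 2, (analyticOrderNatAt riemannZeta ρ : ℝ) ≤
      C0 := by
    refine sum_le_sum_of_subset_of_nonneg (fun ρ hρ => ?_) fun _ _ _ => Nat.cast_nonneg _
    obtain ⟨a1, a2⟩ := mem_filter.1 hρ
    obtain ⟨a3, a4⟩ := mem_filter.1 a1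
    obtain ⟨a5, a6, a7, -⟩ := hS ρ a3
    exact hfin.mem_toFinset.2 ⟨⟨⟨by linarith, a6⟩, a7.le, a2⟩, a4⟩
  set M := S1.image fun ρ => (⌊ρ.im⌋ : ℝ) with hM
  have b1 : ∑ ρ ∈ S1, (analyticOrderNatAt riemannZeta ρ : ℝ) ≤ #M * Real.log T := by
    rw [← sum_fiberwise_of_maps_to (s := S1) (t := M) (g := fun ρ => (⌊ρ.im⌋ : ℝ))
      fun ρ hρ => mem_image_of_mem _ hρ, ← nsmul_eq_mul]
    refine sum_le_card_nsmul _ _ _ fun m hm => ?_
    obtain ⟨r, hr, rfl⟩ := mem_image.1 hm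
    obtain ⟨a1, a2⟩ := mem_filter.1 hr
    obtain ⟨-, -, -, a8⟩ := hS r (mem_filter.1 a1).1
    have f1 := Int.floor_le r.im
    have f2 := Int.lt_floor_add_one r.im
    have f3 := le_abs_self T0
    have f4 := abs_nonneg T0
    rw [not_le] at a2
    refine (hT0 ⌊r.im⌋ (by linarith) 1 one_pos (by linarith) _ fun ρ hρ => ?_).trans ?_
    · obtain ⟨a3, a4⟩ := mem_filter.1 hρ
      obtain ⟨a5, a6, -, -⟩ := hS ρ (mem_filter.1 (mem_filter.1 a3).1).1
      rw [← a4]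
      exact ⟨by linarith, a6, Int.floor_le _, (Int.lt_floor_add_one _).le⟩
    · have g1 : Real.log ⌊r.im⌋ ≤ Real.log T := Real.log_le_log (by linarith) (by linarith)
      rw [div_le_iff₀ Real.two_pi_pos]
      nlinarith [Real.pi_gt_three]
  have sM : Sep M := by
    intro x hx y hy hne
    obtain ⟨r, -, rfl⟩ := mem_image.1 hx
    obtain ⟨r', -, rfl⟩ := mem_image.1 hy
    have : ⌊r.im⌋ - ⌊r'.im⌋ ≠ 0 := fun e => hne (by rw [sub_eq_zero.1 e])
    exact_mod_cast Int.one_le_abs this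
  have b2 : (#M : ℝ) ≤ (6 * |C| + 2) * T ^ (A * (1 - σ)) * Real.log T ^ |B| := by
    rcases le_total σ (5 / 9) with h | h
    · have a1 : M ⊆ (Finset.range (⌊T⌋₊ + 1)).image fun k : ℕ => (k : ℝ) := by
        intro x hx
        obtain ⟨r, hr, rfl⟩ := mem_image.1 hx
        obtain ⟨-, -, a7, a8⟩ := hS r (mem_filter.1 (mem_filter.1 hr).1).1
        refine mem_image.2 ⟨⌊r.im⌋₊, mem_range.2 (Nat.lt_succ_of_le (Nat.floor_le_floor a8)), ?_⟩
        rw [← Int.natCast_floor_eq_floor a7.le, Int.cast_natCast]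
      have a2 : (#M : ℝ) ≤ ⌊T⌋₊ + 1 := by
        exact_mod_cast ((card_le_card a1).trans card_image_le).trans (card_range _).le
      have a3 := Nat.floor_le (by linarith : 0 ≤ T)
      have a4 : T ≤ T ^ (A * (1 - σ)) := by
        nth_rewrite 1 [← Real.rpow_one T]
        exact Real.rpow_le_rpow_of_exponent_le (by linarith) (by nlinarith)
      have a5 := abs_nonneg C
      calc (#M : ℝ) ≤ 2 * T ^ (A * (1 - σ)) * 1 := by linarith
        _ ≤ _ := by gcongr; linarith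
    · have := thin (U := 1) (P := fun γ => |γ| ≤ T ∧ ∃ β : ℝ, σ ≤ β ∧ riemannZeta (β + γ * I) = 0)
        zero_le_one (hBC T σ hT h h2) sM (by
          intro x hx
          obtain ⟨r, hr, rfl⟩ := mem_image.1 hx
          obtain ⟨a3, a4⟩ := mem_filter.1 (mem_filter.1 hr).1
          obtain ⟨a5, -, a7, a8⟩ := hS r a3
          refine ⟨r.im, abs_le.2 ⟨?_, ?_⟩, by rwa [abs_of_pos a7], r.re, a5, by rwa [re_add_im]⟩
          · linarith [Int.floor_le r.im]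
          · linarith [Int.lt_floor_add_one r.im])
      refine this.trans ?_
      have a1 : Real.log T ^ B ≤ Real.log T ^ |B| :=
        Real.rpow_le_rpow_of_exponent_le l1 (le_abs_self _)
      have a2 : 0 ≤ Real.log T ^ B := by positivity
      calc _ ≤ (2 * 1 + 4) * (|C| * T ^ (A * (1 - σ)) * Real.log T ^ |B|) := by
            gcongr; exact le_abs_self _
        _ = 6 * |C| * T ^ (A * (1 - σ)) * Real.log T ^ |B| := by ring
        _ ≤ _ := by gcongr; linarith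
  rw [e0, ← sum_filter_add_sum_filter_not S0 fun ρ => ρ.im ≤ |T0| + 2,
    Real.rpow_add (by linarith), Real.rpow_one]
  have a1 := mul_le_mul_of_nonneg_right b2 (by linarith : 0 ≤ Real.log T)
  have a2 : C0 * 1 ≤ C0 * (T ^ (A * (1 - σ)) * (Real.log T ^ |B| * Real.log T)) :=
    mul_le_mul_of_nonneg_left (one_le_mul_of_one_le_of_one_le p1
      (one_le_mul_of_one_le_of_one_le p2 l1)) c0
  nlinarith

end Pool.Agent.Lib.MP_b09185_nt.Sh
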