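import Pool.Agent.Lib.MP_b09185_nt.ShFour
import Pool.Agent.Lib.MP_b09185_nt.ShEnd
import Pool.Agent.Lib.MP_b09185_nt.ShLoc
import Pool.Agent.Lib.MP_b09185_nt.ShZD
import Pool.Agent.Lib.MP_b09185_nt.ShHal
import Pool.Agent.Lib.MP_b09185_nt.ShCls
import Pool.Agent.Lib.MP_b09185_nt.ShDens
import Pool.Agent.Lib.MP_b09185_nt.ShL1
import Pool.Agent.Lib.MP_b09185_nt.ShDet
import Pool.Agent.Lib.MP_a93a41_nt.NF4

/-! Assembly. -/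

namespace Pool.Agent.Lib.MP_b09185_nt.Sh

open Filter

theorem thmC : ThmC := Pool.Agent.Lib.MP_a93a41_nt.GM.thmC Pool.Agent.Lib.MP_a93a41_nt.GM.coreB

theorem dens_main (hE : ExpS) : Dens := dens_of det (cls_of thmC (near_of hE))

theorem short_of (hD : Dens) (hZ : ZF) {t : ℝ} (ht : 5 / 9 < t) :
    ∀ e : ℝ, 0 < e → ∀ᶠ x : ℝ in atTop, ∀ y : ℝ, x ^ t ≤ y → y ≤ x →
      |Real.log x / y * ((Nat.primeCounting ⌊x + y⌋₊ : ℝ) - (Nat.primeCounting ⌊x⌋₊ : ℝ)) - 1|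
        ≤ e := by
  have h1 : max (1 - t) (1 / 3) < 4 / 9 := max_lt (by linarith) (by norm_num)
  have h2 := le_max_left (1 - t) (1 / 3)
  have h3 := le_max_right (1 - t) (1 / 3)
  exact short_of_GA (k := (max (1 - t) (1 / 3) + 4 / 9) / 2) (by linarith)
    (GA_of_L1 (fun a a0 a1 => L1_of hD hZ pt a0 a1) _ (by linarith) (by linarith)) (by linarith)
    (by linarith)

theorem zd_of (hD : Dens) {A : ℝ} (hA : 9 / 4 < A) : ∃ B C : ℝ, ∀ T σ : ℝ, 3 ≤ T →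
    1 / 2 ≤ σ → σ ≤ 1 → ∀ S : Finset ℂ, (∀ ρ ∈ S, σ ≤ ρ.re ∧ 0 < ρ.im ∧ ρ.im ≤ T) →
      ∑ ρ ∈ S, (analyticOrderNatAt riemannZeta ρ : ℝ) ≤
        C * T ^ (A * (1 - σ)) * Real.log T ^ B := by
  obtain ⟨B, C, h⟩ := zero_density hD hA
  refine ⟨B, C, fun T σ h1 h2 h3 S hS => le_trans (le_of_eq ?_)
    (h T σ h1 h2 h3 (S.filter fun ρ => ρ.re ≤ 1) fun ρ hρ => ?_)⟩
  · refine (Finset.sum_subset (Finset.filter_subset _ _) fun ρ hρ h4 => ?_).symm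
    have h5 : riemannZeta ρ ≠ 0 := riemannZeta_ne_zero_of_one_le_re
      (not_le.1 fun e => h4 (Finset.mem_filter.2 ⟨hρ, e⟩)).le
    rw [analyticOrderNatAt, analyticOrderAt_eq_zero.2 (Or.inr h5)]
    simp
  · obtain ⟨a1, a2⟩ := Finset.mem_filter.1 hρ
    exact ⟨(hS ρ a1).1, a2, (hS ρ a1).2⟩

end Pool.Agent.Lib.MP_b09185_nt.Sh
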