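import Pool.Agent.Lib.MP_b09185_nt.ShMain
import Pool.Agent.Lib.MP_b09185_nt.VinExp

/-! The unconditional zero density estimate. -/

namespace Pool.Agent.Lib.MP_b09185_nt.Sh

theorem expS : ExpS := by
  intro l
  refine ⟨1 / ((l + 2 : ℕ) : ℝ) ^ 54, by positivity, ⌈Real.exp (((l + 2 : ℕ) : ℝ) ^ 54)⌉₊,
    fun N hN t h1 h2 => ?_⟩
  have h3 : Real.exp (((l + 2 : ℕ) : ℝ) ^ 54) ≤ N := (Nat.le_ceil _).trans (by exact_mod_cast hN)
  have h4 : (1 : ℝ) ≤ N := (Real.one_le_exp (by positivity)).trans h3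
  exact Vin.expsum (by omega) ((Real.le_log_iff_exp_le (by linarith)).2 h3) (by omega) le_rfl h1
    (h2.trans (pow_le_pow_right₀ h4 (by omega)))

theorem dens : Dens := dens_main expS

end Pool.Agent.Lib.MP_b09185_nt.Sh
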