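import Pool.Agent.Lib.MP_b09185_nt.VinOrth

/-! The p-adic step of the mean value theorem. -/

namespace Pool.Agent.Lib.MP_b09185_nt.Vin

open Finset Fintype Pool.Agent.Lib.LargeSieve

variable {k : ℕ}

lemma hensel {p : ℕ} (hp : p.Prime) (hk : k < p) {x y : Fin k → ℤ}
    (hi : Function.Injective fun i => (x i : ZMod p)) (h1 : ∀ i, (p : ℤ) ∣ y i - x i) {M : ℕ}
    (h : ∀ j : Fin k, (p : ℤ) ^ M ∣ ∑ i, y i ^ (j.1 + 1) - ∑ i, x i ^ (j.1 + 1)) :
    ∀ v, v + 1 ≤ M → ∀ i, (p : ℤ) ^ (v + 1) ∣ y i - x i := by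
  have := Fact.mk hp
  have hp0 : (p : ℤ) ≠ 0 := by exact_mod_cast hp.ne_zero
  intro v
  induction v with
  | zero => intro _ i; simpa using h1 i
  | succ v ih =>
    intro hv
    choose d hd using ih (by omega)
    have key : ∀ j : Fin k, ∑ i, (d i : ZMod p) * (x i : ZMod p) ^ j.1 = 0 := by
      intro j
      have a1 : (p : ℤ) ^ (v + 2) ∣ ∑ i, y i ^ (j.1 + 1) - ∑ i, x i ^ (j.1 + 1) :=
        (pow_dvd_pow _ hv).trans (h j)
      have a2 : (p : ℤ) ^ (v + 2) ∣ ∑ i, (y i ^ (j.1 + 1) -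
          x i ^ j.1 * (p ^ (v + 1) * d i) * (j.1 + 1 : ℕ) - x i ^ (j.1 + 1)) := by
        refine dvd_sum fun i _ => ?_
        have b := sq_dvd_add_pow_sub_sub ((p : ℤ) ^ (v + 1) * d i) (x i) (j.1 + 1)
        rw [← hd i, add_sub_cancel, Nat.add_sub_cancel, hd i] at b
        refine Dvd.dvd.trans ?_ b
        rw [mul_pow, ← pow_mul]
        exact (pow_dvd_pow _ (by omega)).mul_right _
      have a3 := dvd_sub a1 a2
      have e : ∑ i, y i ^ (j.1 + 1) - ∑ i, x i ^ (j.1 + 1) - ∑ i, (y i ^ (j.1 + 1) -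
          x i ^ j.1 * (p ^ (v + 1) * d i) * (j.1 + 1 : ℕ) - x i ^ (j.1 + 1)) =
          (p : ℤ) ^ (v + 1) * ((j.1 + 1 : ℕ) * ∑ i, d i * x i ^ j.1) := by
        rw [← sum_sub_distrib, ← sum_sub_distrib, mul_sum, mul_sum]
        exact sum_congr rfl fun i _ => by ring
      rw [e, pow_succ, mul_dvd_mul_iff_left (pow_ne_zero _ hp0)] at a3
      have a4 := (ZMod.intCast_zmod_eq_zero_iff_dvd _ _).2 a3
      rw [Int.cast_mul, Int.cast_natCast, mul_eq_zero, ZMod.natCast_eq_zero_iff] at a4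
      rcases a4 with a4 | a4
      · exact absurd (Nat.le_of_dvd j.1.succ_pos a4) (by have := j.2; omega)
      · simpa using a4
    have hd0 := Matrix.eq_zero_of_forall_pow_sum_mul_pow_eq_zero hi key
    intro i
    have := (ZMod.intCast_zmod_eq_zero_iff_dvd _ _).1 (congrFun hd0 i)
    rw [hd i, pow_succ _ (v + 1)]
    exact mul_dvd_mul_left _ this

/-- The exponent `k (k - 1) / 2`. -/
def K2 (k : ℕ) : ℕ := ∑ j : Fin k, (k - 1 - j.1)

lemma K2_eq (k : ℕ) : (K2 k : ℝ) = k * (k - 1) / 2 := by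
  have h1 : K2 k = ∑ j ∈ range k, j := by
    rw [K2, Fin.sum_univ_eq_sum_range (fun j => k - 1 - j), sum_range_reflect (fun j => j)]
  have h2 := sum_range_id_mul_two k
  rw [← h1] at h2
  rcases k with _ | k
  · simp [K2]
  · have : ((K2 (k + 1) * 2 : ℕ) : ℝ) = ((k + 1) * (k + 1 - 1) : ℕ) := by rw [h2]
    push_cast at this ⊢
    linarith

lemma linnik {p m u : ℕ} (hp : p.Prime) (hk : k < p) (hu : 1 ≤ u * k) (hm : m ≤ u * k)
    {c : Fin k → ℕ} (hc : Function.Injective c) (y : Fin k → ℕ) (b : ℤ) :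
    #{x ∈ piFinset fun i => cl (p ^ m) p (c i) | ∀ j : Fin k, ((p : ℤ) ^ u) ^ (j.1 + 1) ∣
      ∑ i, ((x i : ℤ) - b) ^ (j.1 + 1) - ∑ i, ((y i : ℤ) - b) ^ (j.1 + 1)} ≤ (p ^ u) ^ K2 k := by
  set q : ℤ := (p : ℤ) ^ u with hq
  have hq0 : 0 < q := by have := hp.pos; positivity
  have e : (p ^ u) ^ K2 k = #(piFinset fun j : Fin k => Ico (0 : ℤ) (q ^ (k - 1 - j.1))) := by
    rw [card_piFinset, K2, ← prod_pow_eq_pow_sum]
    refine prod_congr rfl fun j _ => ?_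
    rw [Int.card_Ico, sub_zero, hq]
    norm_cast
  rw [e]
  refine card_le_card_of_injOn (fun x j => ((∑ i, ((x i : ℤ) - b) ^ (j.1 + 1) -
    ∑ i, ((y i : ℤ) - b) ^ (j.1 + 1)) / q ^ (j.1 + 1)) % q ^ (k - 1 - j.1)) ?_ ?_
  · intro x _
    simp only [coe_piFinset, Set.mem_pi, Set.mem_univ, coe_Ico, Set.mem_Ico, forall_const]
    exact fun j => ⟨Int.emod_nonneg _ (by positivity), Int.emod_lt_of_pos _ (by positivity)⟩
  · intro x hx z hz h
    simp only [coe_filter, mem_piFinset, Set.mem_ofPred_eq, cl, mem_filter, mem_range] at hx hz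
    have hxz : ∀ i, (p : ℤ) ∣ (z i - b) - (x i - b) := fun i => by
      rw [sub_sub_sub_cancel_right]
      exact (Nat.modEq_iff_dvd.1 ((hx.1 i).2.trans (hz.1 i).2.symm))
    have hi : Function.Injective fun i => (((x i : ℤ) - b : ℤ) : ZMod p) := by
      intro i i' h
      simp only [Int.cast_sub, sub_left_inj, Int.cast_natCast] at h
      rw [ZMod.natCast_eq_natCast_iff'] at h
      exact hc ((hx.1 i).2.symm.trans (h.trans (hx.1 i').2))
    have hd := hensel hp hk (x := fun i => (x i : ℤ) - b) (y := fun i => (z i : ℤ) - b) hi hxz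
      (M := u * k) (fun j => by
        have h1 := Int.ModEq.dvd (congrFun h j)
        obtain ⟨r, hr⟩ := hx.2 j
        obtain ⟨r', hr'⟩ := hz.2 j
        rw [hr, hr', Int.mul_ediv_cancel_left _ (by positivity),
          Int.mul_ediv_cancel_left _ (by positivity)] at h1
        have h2 := mul_dvd_mul_left (q ^ (j.1 + 1)) h1
        rw [← pow_add, show j.1 + 1 + (k - 1 - j.1) = k by have := j.2; omega, mul_sub, ← hr,
          ← hr', hq, ← pow_mul] at h2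
        simpa using h2) (u * k - 1) (by omega)
    funext i
    have h1 := hd i
    rw [Nat.sub_add_cancel hu, sub_sub_sub_cancel_right] at h1
    have h2 : p ^ m ≤ p ^ (u * k) := Nat.pow_le_pow_right hp.pos hm
    have h3 : x i ≡ z i [MOD p ^ (u * k)] := Nat.modEq_iff_dvd.2 (by exact_mod_cast h1)
    exact Nat.ModEq.eq_of_lt_of_lt h3 ((hx.1 i).1.trans_le h2) ((hz.1 i).1.trans_le h2)

lemma broad (Q : Fin k → ℕ) (s : ℕ) {p m u : ℕ} (hp : p.Prime) (hk : k < p) (hu : 1 ≤ u * k)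
    (hm : m ≤ u * k) (hum : u ≤ m) (hQ : ∀ j, (s + k) * (p ^ m) ^ (j.1 + 1) < Q j)
    {c : Fin k → ℕ} (hc : Function.Injective c) (b : ℕ) :
    ∑ a ∈ Bx Q, (∏ i, ‖fA Q a (cl (p ^ m) p (c i))‖ ^ 2) * ‖fA Q a (cl (p ^ m) (p ^ u) b)‖ ^ (2 * s)
      ≤ ((p ^ m) ^ k * (p ^ u) ^ K2 k : ℕ) *
        ((∏ j, (Q j : ℝ)) * JA k s (range (p ^ (m - u)))) := by
  set A : Fin k → Finset ℕ := fun i => cl (p ^ m) p (c i) with hA
  refine (mix Q s (fun i => cl_sub _ _ _) (cl_sub _ _ _) hQ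
    {z ∈ piFinset A ×ˢ piFinset A | ∀ j : Fin k, ((p : ℤ) ^ u) ^ (j.1 + 1) ∣
      ∑ i, ((z.1 i : ℤ) - b) ^ (j.1 + 1) - ∑ i, ((z.2 i : ℤ) - b) ^ (j.1 + 1)} ?_).trans ?_
  · intro x hx y hy z hz w hw h
    refine mem_filter.2 ⟨mem_product.2 ⟨hx, hy⟩, fun j => ?_⟩
    have h1 := shift_pow (k := k) (X := fun i => (Sum.elim x z i : ℕ))
      (Y := fun i => (Sum.elim y w i : ℕ))
      (fun j => by simpa [Fintype.sum_sum_type, ps] using congrFun h j) b j
    simp only [Fintype.sum_sum_type, Sum.elim_inl, Sum.elim_inr, cl_eq (mem_piFinset.1 hz _),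
      cl_eq (mem_piFinset.1 hw _), mul_pow, ← mul_sum] at h1
    push_cast at h1
    exact ⟨∑ x, ((w x : ℤ) / p ^ u) ^ (j.1 + 1) - ∑ x, ((z x : ℤ) / p ^ u) ^ (j.1 + 1),
      by linear_combination h1⟩
  · rw [sum_pow_eq Q s (cl_sub _ _ _) fun j => lt_of_le_of_lt (by gcongr; omega) (hQ j)]
    gcongr
    · refine (card_le_mul_card_image_of_maps_to (f := Prod.snd) (t := piFinset A)
        (fun z hz => (mem_product.1 (mem_filter.1 hz).1).2) ((p ^ u) ^ K2 k) fun y _ => ?_).trans ?_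
      · refine le_trans ?_ (linnik hp hk hu hm hc y b)
        refine card_le_card_of_injOn Prod.fst ?_ ?_
        · intro z hz
          simp only [coe_filter, mem_filter, mem_product, Set.mem_ofPred_eq] at hz ⊢
          exact ⟨hz.1.1.1, hz.2 ▸ hz.1.2⟩
        · intro z hz w hw h
          simp only [coe_filter, mem_filter, Set.mem_ofPred_eq] at hz hw
          exact Prod.ext h (hz.2.trans hw.2.symm)
      · rw [mul_comm]
        gcongr
        rw [card_piFinset]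
        refine (prod_le_pow_card _ _ (p ^ m) fun i _ => ?_).trans (by simp)
        simpa using card_le_card (cl_sub (p ^ m) p (c i))
    · have e : p ^ m = p ^ u * p ^ (m - u) := by rw [← pow_add]; congr 1; omega
      rw [e]
      exact JA_cl s (pow_pos hp.pos u) _ _

/-- Injective tuples of residues. -/
def Inj (k p : ℕ) : Finset (Fin k → ℕ) :=
  {c ∈ piFinset fun _ : Fin k => range p | Function.Injective c}

lemma card_Inj (k p : ℕ) : #(Inj k p) ≤ p ^ k := by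
  refine (card_filter_le _ _).trans ?_
  simp [card_piFinset]

lemma dich (hk : 1 ≤ k) {p : ℕ} (hp : 0 < p) (s : ℕ) {F : ℝ} {g : ℕ → ℝ} (hF : 0 ≤ F)
    (hg : ∀ a, 0 ≤ g a) (h : F ≤ ∑ a ∈ range p, g a) :
    F ^ (2 * (s + k)) ≤ (2 * k) ^ (2 * (s + k)) * ∑ a ∈ range p, g a ^ (2 * (s + k)) +
      (2 * p) ^ (2 * k) * ∑ c ∈ Inj k p, (∏ i, g (c i) ^ 2) * F ^ (2 * s) := by
  have n1 : 0 ≤ ∑ a ∈ range p, g a ^ (2 * (s + k)) := sum_nonneg fun a _ => pow_nonneg (hg a) _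
  have n2 : ∀ c ∈ Inj k p, 0 ≤ (∏ i, g (c i) ^ 2) * F ^ (2 * s) := fun c _ => by positivity
  set L := {a ∈ range p | F ≤ 2 * p * g a} with hL
  rcases le_or_gt k #L with h1 | h1
  · set c : Fin k → ℕ := fun i => L.orderEmbOfCardLe h1 i with hc
    have c1 : ∀ i, c i ∈ L := fun i => L.orderEmbOfCardLe_mem h1 i
    have c2 : c ∈ Inj k p := mem_filter.2 ⟨mem_piFinset.2 fun i => (mem_filter.1 (c1 i)).1,
      (L.orderEmbOfCardLe h1).injective⟩
    have c3 : F ^ (2 * k) ≤ (2 * p) ^ (2 * k) * ∏ i, g (c i) ^ 2 := by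
      calc F ^ (2 * k) = ∏ _i : Fin k, F ^ 2 := by simp [pow_mul]
        _ ≤ ∏ i, (2 * p * g (c i)) ^ 2 := prod_le_prod (fun _ _ => by positivity) fun i _ =>
            pow_le_pow_left₀ hF (mem_filter.1 (c1 i)).2 2
        _ = _ := by simp only [mul_pow _ (g _), prod_mul_distrib]; simp [pow_mul]
    calc F ^ (2 * (s + k)) = F ^ (2 * k) * F ^ (2 * s) := by ring
      _ ≤ (2 * p) ^ (2 * k) * ((∏ i, g (c i) ^ 2) * F ^ (2 * s)) := by
          rw [← mul_assoc]; gcongr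
      _ ≤ (2 * p) ^ (2 * k) * ∑ c ∈ Inj k p, (∏ i, g (c i) ^ 2) * F ^ (2 * s) := by
          gcongr; exact single_le_sum n2 c2
      _ ≤ _ := le_add_of_nonneg_left (by positivity)
  · obtain ⟨a, ha, h2⟩ : ∃ a ∈ range p, F ≤ 2 * k * g a := by
      by_contra! hh
      have hp' : (0 : ℝ) < p := by exact_mod_cast hp
      have hk' : (1 : ℝ) ≤ k := by exact_mod_cast hk
      have F0 : 0 < F := lt_of_le_of_lt (by have := hg 0; positivity) (hh 0 (mem_range.2 hp))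
      rw [← sum_filter_add_sum_filter_not (range p) fun a => F ≤ 2 * p * g a] at h
      have b1 := sum_le_card_nsmul L (fun a => 2 * k * g a) F fun a ha =>
        (hh a (mem_filter.1 ha).1).le
      have b2 := sum_le_card_nsmul {a ∈ range p | ¬ F ≤ 2 * p * g a} (fun a => 2 * p * g a) F
        fun a ha => (not_le.1 (mem_filter.1 ha).2).le
      have b3 : (#{a ∈ range p | ¬ F ≤ 2 * p * g a} : ℝ) ≤ p := by
        exact_mod_cast (card_filter_le _ _).trans (card_range p).le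
      have b4 : (#L : ℝ) + 1 ≤ k := by exact_mod_cast h1
      rw [← mul_sum, nsmul_eq_mul] at b1 b2
      have b5 : 2 * ∑ a ∈ range p with ¬ F ≤ 2 * p * g a, g a ≤ F := by
        refine le_of_mul_le_mul_left ?_ hp'
        nlinarith
      rw [← hL] at h
      nlinarith
    calc F ^ (2 * (s + k)) ≤ (2 * k * g a) ^ (2 * (s + k)) := by gcongr
      _ ≤ (2 * k) ^ (2 * (s + k)) * ∑ a ∈ range p, g a ^ (2 * (s + k)) := by
          rw [mul_pow]
          gcongr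
          exact single_le_sum (f := fun a => g a ^ (2 * (s + k)))
            (fun a _ => pow_nonneg (hg a) _) ha
      _ ≤ _ := le_add_of_nonneg_right (mul_nonneg (by positivity) (sum_nonneg n2))

lemma pmean {q : ℕ} (n : ℕ) {F : ℝ} {g : ℕ → ℝ} (hF : 0 ≤ F) (hg : ∀ a, 0 ≤ g a)
    (h : F ≤ ∑ a ∈ range q, g a) : q * F ^ n ≤ q ^ n * ∑ a ∈ range q, g a ^ n := by
  rcases n with _ | n
  · simp
  · have := pow_sum_le_card_mul_sum_pow (s := range q) (fun a _ => hg a) n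
    rw [card_range] at this
    calc (q : ℝ) * F ^ (n + 1) ≤ q * (∑ a ∈ range q, g a) ^ (n + 1) := by gcongr
      _ ≤ q * (q ^ n * ∑ a ∈ range q, g a ^ (n + 1)) := by gcongr
      _ = _ := by ring

lemma recur (hk1 : 1 ≤ k) (s : ℕ) {p m u : ℕ} (hp : p.Prime) (hk : k < p)
    (hm : m + 1 ≤ u * k) (hum : u ≤ m + 1) :
    (JA k (s + k) (range (p ^ (m + 1))) : ℝ) ≤
      (2 * k) ^ (2 * (s + k)) * p * JA k (s + k) (range (p ^ m)) +
      (2 * p) ^ (2 * k) * p ^ k * (p ^ u) ^ (2 * s) * ((p ^ (m + 1)) ^ k * (p ^ u) ^ K2 k) *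
        JA k s (range (p ^ (m + 1 - u))) := by
  set P := p ^ (m + 1) with hP
  set Q : Fin k → ℕ := fun j => (s + k) * P ^ (j.1 + 1) + 1 with hQd
  have hQ : ∀ j, (s + k) * P ^ (j.1 + 1) < Q j := fun j => Nat.lt_succ_self _
  set Z := ∏ j, (Q j : ℝ) with hZ
  have hZ0 : 0 < Z := prod_pos fun j _ => by simp only [hQd]; positivity
  have hq0 : (0 : ℝ) < (p ^ u : ℕ) := by have := hp.pos; positivity
  set W : ℝ := ((P ^ k * (p ^ u) ^ K2 k : ℕ) : ℝ) * (Z * JA k s (range (p ^ (m + 1 - u)))) with hW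
  have n1 : ∀ a ∈ range p, ∑ ω ∈ Bx Q, ‖fA Q ω (cl P p a)‖ ^ (2 * (s + k)) ≤
      Z * JA k (s + k) (range (p ^ m)) := fun a _ => by
    rw [sum_pow_eq Q _ (cl_sub _ _ _) hQ, hP, pow_succ']
    gcongr
    exact JA_cl _ hp.pos _ _
  have n2 : ∀ c ∈ Inj k p, ∑ ω ∈ Bx Q, (∏ i, ‖fA Q ω (cl P p (c i))‖ ^ 2) *
      ‖fA Q ω (range P)‖ ^ (2 * s) ≤ ((p ^ u : ℕ) : ℝ) ^ (2 * s) * W := fun c hc => by
    refine le_of_mul_le_mul_left ?_ hq0
    calc _ = ∑ ω ∈ Bx Q, (∏ i, ‖fA Q ω (cl P p (c i))‖ ^ 2) *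
          ((p ^ u : ℕ) * ‖fA Q ω (range P)‖ ^ (2 * s)) := by
          rw [mul_sum]; exact sum_congr rfl fun _ _ => by ring
      _ ≤ ∑ ω ∈ Bx Q, (∏ i, ‖fA Q ω (cl P p (c i))‖ ^ 2) * (((p ^ u : ℕ) : ℝ) ^ (2 * s) *
          ∑ b ∈ range (p ^ u), ‖fA Q ω (cl P (p ^ u) b)‖ ^ (2 * s)) := by
          exact sum_le_sum fun ω _ => mul_le_mul_of_nonneg_left (pmean _ (norm_nonneg _)
            (fun _ => norm_nonneg _) (fA_split Q ω P (pow_pos hp.pos u))) (by positivity)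
      _ = ((p ^ u : ℕ) : ℝ) ^ (2 * s) * ∑ b ∈ range (p ^ u), ∑ ω ∈ Bx Q,
          (∏ i, ‖fA Q ω (cl P p (c i))‖ ^ 2) * ‖fA Q ω (cl P (p ^ u) b)‖ ^ (2 * s) := by
          rw [sum_comm, mul_sum]
          refine sum_congr rfl fun _ _ => ?_
          rw [← mul_sum]; ring
      _ ≤ ((p ^ u : ℕ) : ℝ) ^ (2 * s) * ∑ _b ∈ range (p ^ u), W := by
          gcongr with b
          exact broad Q s hp hk (by omega) hm hum hQ (mem_filter.1 hc).2 b
      _ = _ := by rw [sum_const, Finset.card_range, nsmul_eq_mul]; ring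
  refine le_of_mul_le_mul_left ?_ hZ0
  rw [← sum_pow_eq Q _ Subset.rfl hQ]
  refine (sum_le_sum fun ω _ => dich hk1 hp.pos s (norm_nonneg _) (fun _ => norm_nonneg _)
    (fA_split Q ω P hp.pos)).trans ?_
  rw [sum_add_distrib, ← mul_sum, ← mul_sum, sum_comm, sum_comm (s := Bx Q)]
  have b1 := sum_le_card_nsmul _ _ _ n1
  have b2 := sum_le_card_nsmul _ _ _ n2
  rw [nsmul_eq_mul] at b1 b2
  rw [Finset.card_range] at b1
  have b3 : (#(Inj k p) : ℝ) ≤ p ^ k := by exact_mod_cast card_Inj k p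
  refine (add_le_add (mul_le_mul_of_nonneg_left b1 (by positivity)) (mul_le_mul_of_nonneg_left
    (b2.trans (mul_le_mul_of_nonneg_right b3 (by positivity))) (by positivity))).trans_eq ?_
  rw [hW, hP]
  push_cast
  ring

end Pool.Agent.Lib.MP_b09185_nt.Vin
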