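import Pool.Agent.Lib.MP_b09185_nt.VinLin

/-! A classical form of the mean value theorem for power sums. -/

namespace Pool.Agent.Lib.MP_b09185_nt.Vin

open Finset Fintype

variable {k : ℕ}

/-- The exponent after `r` steps. -/
noncomputable def Ex (k : ℕ) : ℕ → ℝ
  | 0 => 0
  | r + 1 => k + (2 * (r * k) + K2 k) / k + (1 - 1 / k) * Ex k r

lemma Ex_nonneg (hk : 1 ≤ k) : ∀ r, 0 ≤ Ex k r
  | 0 => le_rfl
  | r + 1 => by
    have h1 : (1 : ℝ) ≤ k := by exact_mod_cast hk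
    have h2 : (0 : ℝ) ≤ 1 - 1 / k := by rw [sub_nonneg, div_le_one (by linarith)]; exact h1
    have := Ex_nonneg hk r
    rw [Ex]
    positivity

lemma Ex_eq (hk : 1 ≤ k) (r : ℕ) :
    Ex k r = 2 * (r * k) - k * (k + 1) / 2 + k * (k + 1) / 2 * (1 - 1 / k) ^ r := by
  have h1 : (k : ℝ) ≠ 0 := by positivity
  induction r with
  | zero => simp [Ex]
  | succ r ih =>
    rw [Ex, ih, K2_eq, pow_succ]
    push_cast
    field_simp
    ring

lemma JA_le (s : ℕ) (A : Finset ℕ) : JA k s A ≤ #A ^ (2 * s) := by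
  refine (card_filter_le _ _).trans ?_
  simp [card_piFinset, two_mul, pow_add]

lemma iter (hk : 2 ≤ k) {p R c : ℕ} (hp : p.Prime) (hkp : k < p)
    (hR : 2 * (2 * k) ^ (2 * (R * k)) ≤ p) (hc : 5 * k + 1 + 2 * (R * k) + K2 k ≤ c) :
    ∀ r ≤ R, ∀ m : ℕ, (JA k (r * k) (range (p ^ m)) : ℝ) ≤ (p : ℝ) ^ ((c * r : ℕ) + m * Ex k r) := by
  have x2 : (2 : ℝ) ≤ p := by exact_mod_cast hp.two_le
  have x1 : (1 : ℝ) ≤ p := by linarith
  have x0 : (0 : ℝ) < p := by linarith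
  have k2 : (2 : ℝ) ≤ k := by exact_mod_cast hk
  have k0 : (0 : ℝ) < k := by linarith
  intro r
  induction r with
  | zero =>
    intro _ m
    have := JA_le (k := k) 0 (range (p ^ m))
    simp only [zero_mul, Ex, mul_zero, Nat.cast_zero, add_zero, Real.rpow_zero] at this ⊢
    exact_mod_cast this
  | succ r ih =>
    intro hr m
    have E0 := Ex_nonneg (k := k) (by omega) r
    have h2 : (0 : ℝ) ≤ 1 - 1 / k := by rw [sub_nonneg, div_le_one k0]; linarith
    have E2 : 2 ≤ Ex k (r + 1) := by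
      rw [Ex]
      have : (0 : ℝ) ≤ (2 * (r * k) + K2 k) / k + (1 - 1 / k) * Ex k r := by positivity
      linarith
    induction m with
    | zero =>
      have := JA_le (k := k) ((r + 1) * k) (range (p ^ 0))
      simp only [pow_zero, range_one, card_singleton, one_pow] at this
      refine le_trans ?_ (Real.one_le_rpow x1 (by positivity))
      exact_mod_cast this
    | succ m ihm =>
      obtain ⟨u, u1, u2, u3⟩ : ∃ u, m + 1 ≤ u * k ∧ u * k ≤ m + k ∧ u ≤ m + 1 := by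
        have h1 := Nat.div_add_mod m k
        have h2 := Nat.mod_lt m (by omega : 0 < k)
        refine ⟨m / k + 1, ?_, ?_, Nat.succ_le_succ (Nat.div_le_self _ _)⟩ <;>
          rw [add_mul, mul_comm] <;> omega
      have H := recur (by omega) (r * k) hp hkp u1 u3
      rw [← add_one_mul] at H
      have I := ih (by omega) (m + 1 - u)
      set y : ℝ := (c * (r + 1) : ℕ) + (m + 1 : ℕ) * Ex k (r + 1) with hy
      have a1 : (2 * k : ℝ) ^ (2 * ((r + 1) * k)) ≤ p / 2 := by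
        have b1 : (2 * k) ^ (2 * ((r + 1) * k)) ≤ (2 * k) ^ (2 * (R * k)) :=
          Nat.pow_le_pow_right (by omega) (by gcongr)
        have b2 : 2 * (2 * k) ^ (2 * ((r + 1) * k)) ≤ p := by omega
        have b3 : (2 : ℝ) * (2 * k) ^ (2 * ((r + 1) * k)) ≤ p := by exact_mod_cast b2
        linarith
      have t1 : (2 * k : ℝ) ^ (2 * ((r + 1) * k)) * p * JA k ((r + 1) * k) (range (p ^ m)) ≤
          (p : ℝ) ^ y / 2 := by
        calc _ ≤ (p : ℝ) / 2 * p * (p : ℝ) ^ ((c * (r + 1) : ℕ) + m * Ex k (r + 1)) := by gcongr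
          _ = (p : ℝ) ^ ((2 : ℝ) + ((c * (r + 1) : ℕ) + m * Ex k (r + 1))) / 2 := by
              rw [Real.rpow_add x0 2, Real.rpow_two]; ring
          _ ≤ _ := by
              gcongr
              rw [hy]; push_cast; linarith
      set n : ℕ := 5 * k + u * (2 * (r * k)) + ((m + 1) * k + u * K2 k) with hn
      have t2 : (2 * p : ℝ) ^ (2 * k) * p ^ k * (p ^ u) ^ (2 * (r * k)) *
          ((p ^ (m + 1)) ^ k * (p ^ u) ^ K2 k) ≤ (p : ℝ) ^ (n : ℝ) := by
        calc _ ≤ (p * p : ℝ) ^ (2 * k) * p ^ k * (p ^ u) ^ (2 * (r * k)) *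
            ((p ^ (m + 1)) ^ k * (p ^ u) ^ K2 k) := by gcongr
          _ = _ := by rw [Real.rpow_natCast, hn]; ring
      have t3 : (n : ℝ) + ((c * r : ℕ) + (m + 1 - u : ℕ) * Ex k r) ≤ y - 1 := by
        have v1 : ((m : ℝ) + 1) / k ≤ u := by rw [div_le_iff₀ k0]; exact_mod_cast u1
        have v2 : (u : ℝ) ≤ (m + 1) / k + 1 := by
          rw [div_add_one k0.ne', le_div_iff₀ k0]
          have : (u : ℝ) * k ≤ m + k := by exact_mod_cast u2
          linarith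
        have v3 : 5 * k + 1 + 2 * (r * k) + K2 k ≤ c := le_trans (by gcongr; omega) hc
        have v4 : (5 * k + 1 + 2 * (r * k) + K2 k : ℝ) ≤ c := by exact_mod_cast v3
        have w1 := mul_le_mul_of_nonneg_right v2 (by positivity : (0 : ℝ) ≤ 2 * (r * k) + K2 k)
        have w2 := mul_le_mul_of_nonneg_right v1 E0
        rw [hy, hn, Ex, Nat.cast_sub u3]
        push_cast
        have e1 : ((m : ℝ) + 1) * ((2 * (r * k) + K2 k) / k) =
          (m + 1) / k * (2 * (r * k) + K2 k) := by ring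
        have e2 : ((m : ℝ) + 1) * ((1 - 1 / k) * Ex k r) =
          (m + 1) * Ex k r - (m + 1) / k * Ex k r := by ring
        rw [mul_add ((m : ℝ) + 1), mul_add ((m : ℝ) + 1), e1, e2]
        linarith
      have t4 : (p : ℝ) ^ (y - 1) ≤ (p : ℝ) ^ y / 2 := by
        rw [Real.rpow_sub_one x0.ne']
        gcongr
      have t5 := mul_le_mul t2 I (by positivity) (by positivity)
      rw [← Real.rpow_add x0] at t5
      have t6 := Real.rpow_le_rpow_of_exponent_le x1 t3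
      linarith

lemma Ex_small (hk : 2 ≤ k) : (k : ℝ) * (k + 1) / 2 * (1 - 1 / k) ^ (2 * k * (k + 1)) ≤ 1 / 8 := by
  have k2 : (2 : ℝ) ≤ k := by exact_mod_cast hk
  have h2 : (0 : ℝ) ≤ 1 - 1 / k := by rw [sub_nonneg, div_le_one (by linarith)]; linarith
  have h1 : (1 - 1 / k : ℝ) ^ k ≤ 1 / 2 := by
    refine (Real.one_sub_div_pow_le_exp_neg (by linarith : (1 : ℝ) ≤ k)).trans ?_
    rw [Real.exp_neg, one_div]
    gcongr
    linarith [Real.add_one_le_exp 1]
  have h3 : (k : ℝ) + 1 ≤ 2 ^ k := by exact_mod_cast Nat.lt_two_pow_self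
  have h4 : (1 - 1 / k : ℝ) ^ (2 * k * (k + 1)) ≤ (1 / 2) ^ (2 * (k + 1)) := by
    rw [show 2 * k * (k + 1) = k * (2 * (k + 1)) by ring, pow_mul]
    gcongr
  have h5 : (k : ℝ) * (k + 1) ≤ 2 ^ k * 2 ^ k := by gcongr; linarith
  calc _ ≤ (2 : ℝ) ^ k * 2 ^ k / 2 * (1 / 2) ^ (2 * (k + 1)) := by gcongr
    _ = _ := by
      rw [one_div, inv_pow]
      field_simp
      ring

/-- The number of variables. -/
def sV (k : ℕ) : ℕ := 2 * k * (k + 1) * k

lemma sV_le (hk : 2 ≤ k) : sV k ≤ k ^ 5 := by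
  have : 2 * (k + 1) ≤ k ^ 3 := by nlinarith [Nat.mul_le_mul hk hk]
  calc sV k = 2 * (k + 1) * k ^ 2 := by rw [sV]; ring
    _ ≤ k ^ 3 * k ^ 2 := by gcongr
    _ = _ := by ring

lemma sV_ge (hk : 2 ≤ k) : k ≤ sV k := Nat.le_mul_of_pos_left _ (by positivity)

lemma K2_le (k : ℕ) : K2 k ≤ k ^ 2 := by
  have := sum_le_card_nsmul univ (fun j : Fin k => k - 1 - j.1) k fun j _ => by omega
  simpa [K2, sq] using this

theorem vmvt (hk : 2 ≤ k) {P : ℕ} (hP : 1 ≤ P) : (JA k (sV k) (range P) : ℝ) ≤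
    Real.exp (k ^ 24) * (P : ℝ) ^ (2 * (sV k : ℝ) - k * (k + 1) / 2 + 1 / 8) := by
  obtain ⟨p, hp, p1, p2⟩ := Nat.exists_prime_lt_and_le_two_mul (2 * (2 * k) ^ (2 * sV k))
    (by positivity)
  have s1 := sV_le hk
  have s2 := sV_ge hk
  have k2 : (2 : ℝ) ≤ k := by exact_mod_cast hk
  have hkp : k < p := by
    have := Nat.le_self_pow (n := 2 * sV k) (by omega) (2 * k)
    omega
  have pw : ∀ a b : ℕ, a ≤ b → k ^ a ≤ k ^ b := fun a b h => Nat.pow_le_pow_right (by omega) h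
  have dbl : ∀ a : ℕ, 2 * k ^ a ≤ k ^ (a + 1) := fun a => by rw [pow_succ']; gcongr
  have hc : 5 * k + 1 + 2 * (2 * k * (k + 1) * k) + K2 k ≤ k ^ 9 := by
    have := K2_le k
    have := pw 1 5 (by omega)
    have := pw 2 5 (by omega)
    have : 2 * k ^ 5 ≤ k ^ 6 := dbl 5
    have : 2 * k ^ 6 ≤ k ^ 7 := dbl 6
    have : 2 * k ^ 7 ≤ k ^ 8 := dbl 7
    have : 2 * k ^ 8 ≤ k ^ 9 := dbl 8
    rw [pow_one] at *
    change 5 * k + 1 + 2 * sV k + K2 k ≤ _
    omega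
  set m := Nat.clog p P with hm
  have H := iter hk hp hkp (R := 2 * k * (k + 1)) p1.le hc _ le_rfl m
  have m1 : P ≤ p ^ m := Nat.le_pow_clog hp.one_lt P
  have m2 : p ^ m ≤ p * P := by
    rcases hP.eq_or_lt with h | h
    · rw [hm, ← h]; simpa using hp.one_lt.le
    · have h1 := Nat.pow_pred_clog_lt_self hp.one_lt h
      have h2 := Nat.clog_pos hp.one_lt h
      calc p ^ m = p * p ^ m.pred := by rw [← pow_succ']; congr 1; exact (Nat.succ_pred h2.ne').symm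
        _ ≤ _ := by gcongr
  have x1 : (1 : ℝ) ≤ p := by exact_mod_cast hp.one_lt.le
  have x0 : (0 : ℝ) < p := by linarith
  have P1 : (1 : ℝ) ≤ P := by exact_mod_cast hP
  set E := Ex k (2 * k * (k + 1)) with hE
  have E0 : 0 ≤ E := Ex_nonneg (by omega) _
  have E1 : E ≤ 2 * (sV k : ℝ) - k * (k + 1) / 2 + 1 / 8 := by
    rw [hE, Ex_eq (by omega), sV]
    have := Ex_small hk
    push_cast at this ⊢
    linarith
  have E2 : E ≤ (2 * sV k : ℕ) := by push_cast; nlinarith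
  have lp : Real.log p ≤ k ^ 9 := by
    have b1 : p ≤ 2 ^ (k ^ 9) := by
      calc p ≤ 2 * (2 * (2 * k) ^ (2 * sV k)) := p2
        _ ≤ 2 * (2 * (2 ^ (2 * k)) ^ (2 * sV k)) := by gcongr; exact Nat.lt_two_pow_self.le
        _ = 2 ^ (4 * (k * sV k) + 2) := by rw [← pow_mul]; ring
        _ ≤ _ := by
          apply Nat.pow_le_pow_right (by norm_num)
          have : k * sV k ≤ k ^ 6 := by rw [pow_succ']; gcongr
          have : 2 * k ^ 6 ≤ k ^ 7 := dbl 6
          have : 2 * k ^ 7 ≤ k ^ 8 := dbl 7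
          have : 2 * k ^ 8 ≤ k ^ 9 := dbl 8
          have := pw 1 6 (by omega)
          rw [pow_one] at *
          omega
    have b2 : (p : ℝ) ≤ 2 ^ (k ^ 9) := by exact_mod_cast b1
    refine (Real.log_le_log x0 b2).trans ?_
    rw [Real.log_pow]
    push_cast
    have := Real.log_two_lt_d9
    nlinarith [pow_nonneg (by linarith : (0 : ℝ) ≤ k) 9]
  have ex : k ^ 9 * (2 * k * (k + 1)) + 2 * sV k ≤ k ^ 15 := by
    have b1 : 2 * k * (k + 1) ≤ sV k := Nat.le_mul_of_pos_right _ (by omega)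
    have b2 : k ^ 9 * (2 * k * (k + 1)) ≤ k ^ 14 := by
      calc _ ≤ k ^ 9 * k ^ 5 := by gcongr; omega
        _ = _ := by ring
    have : 2 * k ^ 5 ≤ k ^ 6 := dbl 5
    have := pw 6 14 (by omega)
    have : 2 * k ^ 14 ≤ k ^ 15 := dbl 14
    omega
  have ex' : ((k ^ 9 * (2 * k * (k + 1)) : ℕ) : ℝ) + (2 * sV k : ℕ) ≤ (k : ℝ) ^ 15 := by
    exact_mod_cast ex
  calc (JA k (sV k) (range P) : ℝ) ≤ JA k (sV k) (range (p ^ m)) := by
        exact_mod_cast JA_mono (range_subset_range.2 m1)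
    _ ≤ (p : ℝ) ^ ((k ^ 9 * (2 * k * (k + 1)) : ℕ) + m * E) := H
    _ = (p : ℝ) ^ ((k ^ 9 * (2 * k * (k + 1)) : ℕ) : ℝ) * ((p ^ m : ℕ) : ℝ) ^ E := by
        rw [Real.rpow_add x0, Real.rpow_natCast_mul x0.le]; push_cast; rfl
    _ ≤ (p : ℝ) ^ ((k ^ 9 * (2 * k * (k + 1)) : ℕ) : ℝ) * ((p : ℝ) * P) ^ E := by
        gcongr; exact_mod_cast m2
    _ = (p : ℝ) ^ (((k ^ 9 * (2 * k * (k + 1)) : ℕ) : ℝ) + E) * (P : ℝ) ^ E := by
        rw [Real.mul_rpow x0.le (by linarith), Real.rpow_add x0]; ring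
    _ ≤ (p : ℝ) ^ ((k : ℝ) ^ 15) * (P : ℝ) ^ (2 * (sV k : ℝ) - k * (k + 1) / 2 + 1 / 8) := by
        gcongr; linarith
    _ ≤ _ := by
        gcongr
        rw [Real.rpow_def_of_pos x0]
        gcongr
        calc Real.log p * (k : ℝ) ^ 15 ≤ k ^ 9 * (k : ℝ) ^ 15 := by gcongr
          _ = _ := by ring

end Pool.Agent.Lib.MP_b09185_nt.Vin
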