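import Pool.Agent.Lib.LargeSieve.Additive

/-! Finite orthogonality for systems of power sums. -/

namespace Pool.Agent.Lib.MP_b09185_nt.Vin

open Finset Fintype Pool.Agent.Lib.LargeSieve

variable {k : ℕ}

/-- The box of frequencies. -/
def Bx (Q : Fin k → ℕ) : Finset (Fin k → ℕ) := piFinset fun j => range (Q j)

/-- The character attached to a frequency. -/
noncomputable def chi (Q a : Fin k → ℕ) (h : Fin k → ℤ) : ℂ :=
  ee (∑ j, (h j : ℝ) * ((a j : ℝ) / Q j))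

/-- The vector of power sums. -/
def ps (k : ℕ) {ι : Type} [Fintype ι] (x : ι → ℕ) : Fin k → ℤ :=
  fun j => ∑ i, (x i : ℤ) ^ (j.1 + 1)

/-- The exponential sum over a set of integers. -/
noncomputable def fA (Q a : Fin k → ℕ) (A : Finset ℕ) : ℂ :=
  ∑ x ∈ A, chi Q a fun j => (x : ℤ) ^ (j.1 + 1)

/-- The number of solutions of the system in `2 s` variables from `A`. -/
def JA (k s : ℕ) (A : Finset ℕ) : ℕ :=
  #{z ∈ piFinset (fun _ : Fin s => A) ×ˢ piFinset (fun _ : Fin s => A) | ps k z.1 = ps k z.2}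

lemma ee_sum {ι : Type} (S : Finset ι) (x : ι → ℝ) : ee (∑ i ∈ S, x i) = ∏ i ∈ S, ee (x i) := by
  classical
  induction S using Finset.induction_on with
  | empty => simp [ee_zero]
  | insert i S hi ih => rw [sum_insert hi, prod_insert hi, ee_add, ih]

lemma chi_add (Q a : Fin k → ℕ) (h h' : Fin k → ℤ) :
    chi Q a (h + h') = chi Q a h * chi Q a h' := by
  simp only [chi, ← ee_add, ← sum_add_distrib, Pi.add_apply]
  congr 1
  refine sum_congr rfl fun j _ => ?_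
  push_cast; ring

lemma chi_sub (Q a : Fin k → ℕ) (h h' : Fin k → ℤ) :
    chi Q a (h - h') = chi Q a h * (starRingEnd ℂ) (chi Q a h') := by
  simp only [chi, conj_ee, ← ee_add, ← sum_neg_distrib, ← sum_add_distrib, Pi.sub_apply]
  congr 1
  refine sum_congr rfl fun j _ => ?_
  push_cast; ring

lemma norm_chi (Q a : Fin k → ℕ) (h : Fin k → ℤ) : ‖chi Q a h‖ = 1 := norm_ee _

lemma chi_ps (Q a : Fin k → ℕ) {ι : Type} [Fintype ι] (x : ι → ℕ) :
    chi Q a (ps k x) = ∏ i, chi Q a fun j => (x i : ℤ) ^ (j.1 + 1) := by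
  simp only [chi, ← ee_sum, ps]
  congr 1
  rw [sum_comm]
  refine sum_congr rfl fun j _ => ?_
  push_cast
  rw [sum_mul]

lemma orth1 {Q : ℕ} {h : ℤ} (h0 : h ≠ 0) (hQ : |h| < Q) :
    ∑ a ∈ range Q, ee ((h : ℝ) * ((a : ℝ) / Q)) = 0 := by
  have hQ0 : (0 : ℝ) < Q := by
    have : (0 : ℤ) < Q := (abs_nonneg h).trans_lt hQ
    exact_mod_cast this
  have e : ∀ a : ℕ, ee ((h : ℝ) * ((a : ℝ) / Q)) = ee ((h : ℝ) / Q) ^ a := fun a => by
    rw [← ee_nat_mul]; congr 1; ring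
  have h1 : ee ((h : ℝ) / Q) ≠ 1 := by
    intro c
    rw [ee, Complex.exp_eq_one_iff] at c
    obtain ⟨n, hn⟩ := c
    have h2 : ((2 * Real.pi * ((h : ℝ) / Q) : ℝ) : ℂ) = ((n * (2 * Real.pi) : ℝ) : ℂ) := by
      apply mul_left_cancel₀ Complex.I_ne_zero
      rw [hn]; push_cast; ring
    have h3 : (h : ℝ) = n * Q := by
      have h4 := Complex.ofReal_injective h2
      have := Real.pi_pos
      field_simp at h4
      linarith
    have h4 : h = n * Q := by exact_mod_cast h3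
    have h5 : n ≠ 0 := by rintro rfl; simp at h4; exact h0 h4
    rw [h4, abs_mul, Nat.abs_cast] at hQ
    have := Int.one_le_abs h5
    nlinarith [Int.natCast_nonneg Q]
  simp only [e]
  rw [geom_sum_eq h1, ← ee_nat_mul, show (Q : ℝ) * ((h : ℝ) / Q) = h by field_simp, ee_int]
  simp

lemma orth (Q : Fin k → ℕ) (h : Fin k → ℤ) (hQ : ∀ j, |h j| < Q j) :
    ∑ a ∈ Bx Q, chi Q a h = if h = 0 then ∏ j, (Q j : ℂ) else 0 := by
  simp only [chi, ee_sum, Bx]
  rw [← prod_univ_sum (fun j => range (Q j)) fun j a => ee ((h j : ℝ) * ((a : ℝ) / Q j))]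
  split_ifs with h0
  · simp [h0, ee_zero]
  · obtain ⟨j, hj⟩ := Function.ne_iff.1 h0
    exact prod_eq_zero (mem_univ j) (orth1 hj (hQ j))

lemma prod_fA (Q a : Fin k → ℕ) {ι : Type} [Fintype ι] [DecidableEq ι] (A : ι → Finset ℕ) :
    ((∏ i, ‖fA Q a (A i)‖ ^ 2 : ℝ) : ℂ) =
      ∑ z ∈ piFinset A ×ˢ piFinset A, chi Q a (ps k z.1 - ps k z.2) := by
  have e : ∏ i, fA Q a (A i) = ∑ x ∈ piFinset A, chi Q a (ps k x) := by
    simp only [fA, chi_ps]
    rw [prod_univ_sum]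
  rw [prod_pow, ← norm_prod, e, ← Complex.normSq_eq_norm_sq, ← Complex.mul_conj, map_sum,
    Finset.sum_mul_sum, sum_product]
  simp only [chi_sub]

lemma pow_fA (Q a : Fin k → ℕ) (s : ℕ) (A : Finset ℕ) : ((‖fA Q a A‖ ^ (2 * s) : ℝ) : ℂ) =
    ∑ z ∈ piFinset (fun _ : Fin s => A) ×ˢ piFinset (fun _ : Fin s => A),
      chi Q a (ps k z.1 - ps k z.2) := by
  rw [← prod_fA Q a fun _ : Fin s => A, prod_const, card_univ, Fintype.card_fin, pow_mul]

lemma ps_bound {ι : Type} [Fintype ι] [DecidableEq ι] {A : ι → Finset ℕ} {P : ℕ}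
    (hA : ∀ i, A i ⊆ range P) {x : ι → ℕ} (hx : x ∈ piFinset A) (j : Fin k) :
    0 ≤ ps k x j ∧ ps k x j ≤ (Fintype.card ι * P ^ (j.1 + 1) : ℕ) := by
  refine ⟨sum_nonneg fun i _ => by positivity, ?_⟩
  have : ∀ i ∈ univ, (x i : ℤ) ^ (j.1 + 1) ≤ (P : ℤ) ^ (j.1 + 1) := fun i _ => by
    have := mem_range.1 (hA i (mem_piFinset.1 hx i))
    gcongr
  simpa [ps] using sum_le_card_nsmul _ _ _ this

lemma sum_pow_eq (Q : Fin k → ℕ) (s : ℕ) {A : Finset ℕ} {P : ℕ} (hA : A ⊆ range P)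
    (hQ : ∀ j, s * P ^ (j.1 + 1) < Q j) :
    ∑ a ∈ Bx Q, ‖fA Q a A‖ ^ (2 * s) = (∏ j, (Q j : ℝ)) * JA k s A := by
  apply Complex.ofReal_injective
  rw [Complex.ofReal_sum]
  simp only [pow_fA]
  rw [sum_comm, JA, card_filter]
  push_cast
  rw [mul_sum]
  refine sum_congr rfl fun z hz => ?_
  obtain ⟨h1, h2⟩ := mem_product.1 hz
  rw [orth]
  · simp only [sub_eq_zero]
    split_ifs <;> simp
  · intro j
    have a1 := ps_bound (fun _ => hA) h1 j
    have a2 := ps_bound (fun _ => hA) h2 j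
    have a3 : ((s * P ^ (j.1 + 1) : ℕ) : ℤ) < Q j := by exact_mod_cast hQ j
    rw [Fintype.card_fin] at a1 a2
    rw [Pi.sub_apply, abs_lt]
    constructor <;> linarith

lemma mix (Q : Fin k → ℕ) (s : ℕ) {A : Fin k → Finset ℕ} {B : Finset ℕ} {P : ℕ}
    (hA : ∀ i, A i ⊆ range P) (hB : B ⊆ range P) (hQ : ∀ j, (s + k) * P ^ (j.1 + 1) < Q j)
    (R : Finset ((Fin k → ℕ) × (Fin k → ℕ)))
    (hR : ∀ x ∈ piFinset A, ∀ y ∈ piFinset A, ∀ z ∈ piFinset (fun _ : Fin s => B),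
      ∀ w ∈ piFinset (fun _ : Fin s => B), ps k x + ps k z = ps k y + ps k w → (x, y) ∈ R) :
    ∑ a ∈ Bx Q, (∏ i, ‖fA Q a (A i)‖ ^ 2) * ‖fA Q a B‖ ^ (2 * s) ≤
      #R * ∑ a ∈ Bx Q, ‖fA Q a B‖ ^ (2 * s) := by
  set T := ∑ a ∈ Bx Q, ‖fA Q a B‖ ^ (2 * s) with hT
  have hT0 : 0 ≤ T := sum_nonneg fun _ _ => by positivity
  have e : ((∑ a ∈ Bx Q, (∏ i, ‖fA Q a (A i)‖ ^ 2) * ‖fA Q a B‖ ^ (2 * s) : ℝ) : ℂ) =
      ∑ z ∈ piFinset A ×ˢ piFinset A, ∑ a ∈ Bx Q,
        chi Q a (ps k z.1 - ps k z.2) * ((‖fA Q a B‖ ^ (2 * s) : ℝ) : ℂ) := by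
    rw [sum_comm, Complex.ofReal_sum]
    refine sum_congr rfl fun a _ => ?_
    rw [Complex.ofReal_mul, prod_fA, sum_mul]
  have b : ∀ z ∈ piFinset A ×ˢ piFinset A, ‖∑ a ∈ Bx Q,
      chi Q a (ps k z.1 - ps k z.2) * ((‖fA Q a B‖ ^ (2 * s) : ℝ) : ℂ)‖ ≤
        if z ∈ R then T else 0 := by
    intro z hz
    obtain ⟨h1, h2⟩ := mem_product.1 hz
    split_ifs with hzR
    · refine norm_sum_le_of_le _ fun a _ => ?_
      rw [norm_mul, norm_chi, one_mul, Complex.norm_real, Real.norm_of_nonneg (by positivity)]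
    · simp only [pow_fA, mul_sum, ← chi_add]
      rw [sum_comm, Finset.sum_eq_zero, norm_zero]
      intro w hw
      obtain ⟨h3, h4⟩ := mem_product.1 hw
      rw [orth, if_neg]
      · intro c
        apply hzR (hR _ h1 _ h2 _ h3 _ h4 _)
        rw [← sub_eq_zero, ← c]; abel
      · intro j
        have a1 := ps_bound hA h1 j
        have a2 := ps_bound hA h2 j
        have a3 := ps_bound (fun _ => hB) h3 j
        have a4 := ps_bound (fun _ => hB) h4 j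
        have a5 : (((s + k) * P ^ (j.1 + 1) : ℕ) : ℤ) < Q j := by exact_mod_cast hQ j
        rw [Fintype.card_fin] at a1 a2 a3 a4
        rw [Pi.add_apply, Pi.sub_apply, Pi.sub_apply, abs_lt]
        push_cast at a1 a2 a3 a4 a5
        constructor <;> nlinarith
  refine (le_abs_self _).trans ?_
  rw [← Real.norm_eq_abs, ← Complex.norm_real, e]
  refine (norm_sum_le_of_le _ b).trans ?_
  rw [← sum_filter, sum_const, nsmul_eq_mul]
  gcongr
  exact fun z hz => (mem_filter.1 hz).2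

lemma shift_pow {ι : Type} [Fintype ι] {X Y : ι → ℤ}
    (h : ∀ j : Fin k, ∑ i, X i ^ (j.1 + 1) = ∑ i, Y i ^ (j.1 + 1)) (b : ℤ) (j : Fin k) :
    ∑ i, (X i - b) ^ (j.1 + 1) = ∑ i, (Y i - b) ^ (j.1 + 1) := by
  simp only [sub_eq_add_neg, add_pow]
  rw [sum_comm, sum_comm (s := univ)]
  refine sum_congr rfl fun n hn => ?_
  rw [← sum_mul, ← sum_mul, ← sum_mul, ← sum_mul]
  congr 2
  rcases n with _ | n
  · simp
  · exact h ⟨n, by have := mem_range.1 hn; omega⟩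

lemma JA_mono {s : ℕ} {A B : Finset ℕ} (h : A ⊆ B) : JA k s A ≤ JA k s B := by
  refine card_le_card (filter_subset_filter _ (product_subset_product ?_ ?_)) <;>
    exact piFinset_subset _ _ fun _ => h

/-- A residue class in an initial segment. -/
def cl (P q b : ℕ) : Finset ℕ := {x ∈ range P | x % q = b}

lemma cl_sub (P q b : ℕ) : cl P q b ⊆ range P := filter_subset _ _

lemma cl_eq {P q b x : ℕ} (hx : x ∈ cl P q b) : (x : ℤ) - b = q * (x / q : ℕ) := by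
  have h := Nat.div_add_mod x q
  rw [(mem_filter.1 hx).2] at h
  have : (x : ℤ) = q * (x / q : ℕ) + b := by exact_mod_cast h.symm
  linarith

lemma JA_cl (s : ℕ) {q : ℕ} (hq : 0 < q) (P b : ℕ) :
    JA k s (cl (q * P) q b) ≤ JA k s (range P) := by
  refine card_le_card_of_injOn (fun z => (fun i => z.1 i / q, fun i => z.2 i / q)) ?_ ?_
  · intro z hz
    simp only [coe_filter, mem_product, mem_piFinset, Set.mem_ofPred_eq] at hz ⊢
    obtain ⟨⟨h1, h2⟩, h3⟩ := hz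
    refine ⟨⟨fun i => ?_, fun i => ?_⟩, ?_⟩
    · exact mem_range.2 (Nat.div_lt_of_lt_mul (mem_range.1 (cl_sub _ _ _ (h1 i))))
    · exact mem_range.2 (Nat.div_lt_of_lt_mul (mem_range.1 (cl_sub _ _ _ (h2 i))))
    · funext j
      have h4 := shift_pow (fun j => congrFun h3 j) b j
      simp only [cl_eq (h1 _), cl_eq (h2 _), mul_pow, ← mul_sum] at h4
      exact mul_left_cancel₀ (by positivity) h4
  · intro z hz w hw e
    simp only [coe_filter, mem_product, mem_piFinset, Set.mem_ofPred_eq] at hz hw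
    simp only [Prod.mk.injEq] at e
    refine Prod.ext (funext fun i => ?_) (funext fun i => ?_)
    · have a1 := cl_eq (hz.1.1 i)
      have a2 := cl_eq (hw.1.1 i)
      rw [congrFun e.1 i, ← a2] at a1
      omega
    · have a1 := cl_eq (hz.1.2 i)
      have a2 := cl_eq (hw.1.2 i)
      rw [congrFun e.2 i, ← a2] at a1
      omega

lemma fA_split (Q a : Fin k → ℕ) (P : ℕ) {q : ℕ} (hq : 0 < q) :
    ‖fA Q a (range P)‖ ≤ ∑ b ∈ range q, ‖fA Q a (cl P q b)‖ := by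
  refine le_of_eq_of_le ?_ (norm_sum_le _ _)
  congr 1
  exact (sum_fiberwise_of_maps_to (fun x _ => mem_range.2 (Nat.mod_lt x hq)) _).symm

end Pool.Agent.Lib.MP_b09185_nt.Vin
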