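import Pool.Agent.Lib.MP_b09185_nt.VinMV

/-! Zeta sums by the mean value theorem. -/

namespace Pool.Agent.Lib.MP_b09185_nt.Vin

open Finset Fintype Real Pool.Agent.Lib.LargeSieve

variable {k : ℕ}

lemma ee_lip (x y : ℝ) : ‖ee x - ee y‖ ≤ 2 * π * |x - y| := by
  have e : ee x - ee y = ee y * (ee (x - y) - 1) := by
    rw [mul_sub, ← ee_add, mul_one, add_sub_cancel]
  rw [e, norm_mul, norm_ee, one_mul, ee]
  refine Real.norm_exp_I_mul_ofReal_sub_one_le.trans_eq ?_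
  rw [Real.norm_eq_abs, abs_mul, abs_of_pos Real.two_pi_pos]

/-- Taylor coefficients of the phase. -/
noncomputable def al (τ : ℝ) (j n : ℕ) : ℝ := τ / ((j + 1) * (n : ℝ) ^ (j + 1))

/-- The rounded frequency. -/
noncomputable def an (Q : Fin k → ℕ) (τ : ℝ) (n : ℕ) : Fin k → ℕ :=
  fun j => ⌊Q j * al τ j n⌋₊ % Q j

lemma phase (Q : Fin k → ℕ) (hQ : ∀ j, 0 < Q j) {τ : ℝ} (hτ : 0 ≤ τ) {N P n m : ℕ} (hn : N < n)
    (hm : m < P) (hP : 2 * P ≤ N) :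
    ‖ee (-(τ * log ((n : ℝ) - m))) - ee (-(τ * log n)) * chi Q (an Q τ n)
      (fun j => (m : ℤ) ^ (j.1 + 1))‖ ≤
      2 * π * (∑ j, (P : ℝ) ^ (j.1 + 1) / Q j + 2 * τ * ((P : ℝ) / N) ^ (k + 1)) := by
  have N0 : (0 : ℝ) < N := by exact_mod_cast (by omega : 0 < N)
  have n1 : (N : ℝ) ≤ n := by exact_mod_cast hn.le
  have n0 : (0 : ℝ) < n := by linarith
  have m1 : (m : ℝ) ≤ P := by exact_mod_cast hm.le
  have P1 : 2 * (P : ℝ) ≤ N := by exact_mod_cast hP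
  set x : ℝ := m / n with hx
  have x0 : 0 ≤ x := by positivity
  have x1 : x ≤ P / N := by rw [hx]; gcongr
  have x2 : x ≤ 1 / 2 := x1.trans (by rw [div_le_iff₀ N0]; linarith)
  have T := Real.abs_log_sub_add_sum_range_le (x := x) (by rw [abs_of_nonneg x0]; linarith) k
  rw [abs_of_nonneg x0] at T
  have T2 : x ^ (k + 1) / (1 - x) ≤ 2 * ((P : ℝ) / N) ^ (k + 1) := by
    rw [div_le_iff₀ (by linarith)]
    have : x ^ (k + 1) ≤ ((P : ℝ) / N) ^ (k + 1) := by gcongr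
    nlinarith [pow_nonneg x0 (k + 1)]
  have e1 : log ((n : ℝ) - m) = log n + log (1 - x) := by
    rw [← Real.log_mul n0.ne' (by linarith), hx]
    congr 1
    field_simp
  set z : ℤ := ∑ j : Fin k, (m : ℤ) ^ (j.1 + 1) * (⌊Q j * al τ j n⌋₊ / Q j : ℕ) with hz
  rw [chi, ← ee_add, ← mul_one (ee (_ + _)), ← ee_int z, ← ee_add]
  refine (ee_lip _ _).trans ?_
  gcongr
  have e2 : τ * ∑ i ∈ range k, x ^ (i + 1) / (i + 1) =
      ∑ j : Fin k, (m : ℝ) ^ (j.1 + 1) * al τ j n := by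
    rw [mul_sum, Finset.sum_range]
    refine sum_congr rfl fun j _ => ?_
    rw [al, hx, div_pow]
    field_simp
  have e3 : -(τ * log ((n : ℝ) - m)) - (-(τ * log n) + ∑ j : Fin k, (((m : ℤ) ^ (j.1 + 1) : ℤ) : ℝ) *
      ((an Q τ n j : ℝ) / Q j) + z) = ∑ j : Fin k, (m : ℝ) ^ (j.1 + 1) / Q j *
        (Q j * al τ j n - ⌊Q j * al τ j n⌋₊) -
        τ * (∑ i ∈ range k, x ^ (i + 1) / (i + 1) + log (1 - x)) := by
    rw [e1, mul_add τ (∑ i ∈ range k, _), e2, hz]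
    simp only [Int.cast_sum, Int.cast_mul, Int.cast_pow, Int.cast_natCast]
    have : ∀ j : Fin k, (m : ℝ) ^ (j.1 + 1) / Q j * (Q j * al τ j n - ⌊Q j * al τ j n⌋₊) =
        2 * ((m : ℝ) ^ (j.1 + 1) * al τ j n) - (m : ℝ) ^ (j.1 + 1) * al τ j n -
          (m : ℝ) ^ (j.1 + 1) * ((an Q τ n j : ℝ) / Q j) -
          (m : ℝ) ^ (j.1 + 1) * ((⌊Q j * al τ j n⌋₊ / Q j : ℕ) : ℝ) := fun j => by
      have q0 : (Q j : ℝ) ≠ 0 := by exact_mod_cast (hQ j).ne'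
      have h : ((Q j * (⌊Q j * al τ j n⌋₊ / Q j) + ⌊Q j * al τ j n⌋₊ % Q j : ℕ) : ℝ) =
        ⌊Q j * al τ j n⌋₊ := by rw [Nat.div_add_mod]
      rw [Nat.cast_add, Nat.cast_mul] at h
      rw [← h, an]
      field_simp
      ring
    simp only [this, sum_sub_distrib, ← mul_sum]
    ring
  rw [e3]
  refine (abs_sub _ _).trans (add_le_add ((abs_sum_le_sum_abs _ _).trans
    (sum_le_sum fun j _ => ?_)) ?_)
  · have a0 : 0 ≤ Q j * al τ j n := by rw [al]; positivity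
    have a1 := Nat.floor_le a0
    have a2 := Nat.lt_floor_add_one (Q j * al τ j n)
    rw [abs_of_nonneg (mul_nonneg (by positivity) (by linarith))]
    calc _ ≤ (P : ℝ) ^ (j.1 + 1) / Q j * 1 := by gcongr; linarith
      _ = _ := mul_one _
  · rw [abs_mul, abs_of_nonneg hτ, mul_comm 2 τ, mul_assoc]
    gcongr
    exact T.trans T2

lemma al_gap {τ : ℝ} (hτ : 0 < τ) (j : ℕ) {N n n' : ℕ} (hN : N < n) (h : n ≤ n') (h' : n' ≤ 2 * N) :
    τ * (n' - n) / ((j + 1) * (2 * N) ^ (j + 2)) ≤ al τ j n - al τ j n' := by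
  have n0 : (0 : ℝ) < n := by exact_mod_cast (by omega : 0 < n)
  have h1 : (n : ℝ) ≤ n' := by exact_mod_cast h
  have h2 : (n' : ℝ) ≤ 2 * N := by exact_mod_cast h'
  have n1 : (0 : ℝ) < n' := by linarith
  have h3 : (n : ℝ) ^ j ≤ (n' : ℝ) ^ j := by gcongr
  have h4 : (n : ℝ) * n' ^ (j + 1) ≤ (2 * N) ^ (j + 2) := by
    rw [pow_succ' _ (j + 1)]; gcongr; linarith
  calc _ ≤ τ * (n' - n) / ((j + 1) * (n * n' ^ (j + 1))) := by
        gcongr
    _ = τ * (n ^ j * n' - n ^ (j + 1)) / ((j + 1) * (n ^ (j + 1) * n' ^ (j + 1))) := by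
        field_simp; ring
    _ ≤ τ * (n' ^ j * n' - n ^ (j + 1)) / ((j + 1) * (n ^ (j + 1) * n' ^ (j + 1))) := by gcongr
    _ = _ := by rw [al, al]; field_simp; ring

lemma fiber (Q : Fin k → ℕ) (hQ : ∀ j, 0 < Q j) {τ : ℝ} (hτ : 0 < τ) {N M : ℕ} (hN : 0 < N)
    (hM : M ≤ 2 * N) (j : Fin k) (b : Fin k → ℕ) :
    (#{n ∈ Ioc N M | an Q τ n = b} : ℝ) ≤ (τ / (N : ℝ) ^ (j.1 + 1) + 1) *
      ((j + 1) * (2 * N) ^ (j.1 + 2) / (τ * Q j) + 1) := by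
  have q0 : (0 : ℝ) < Q j := by exact_mod_cast hQ j
  have N0 : (0 : ℝ) < N := by exact_mod_cast hN
  set H : ℝ := (j + 1) * (2 * N) ^ (j.1 + 2) / (τ * Q j) with hH
  have H0 : 0 < H := by positivity
  set R : ℝ := τ / (N : ℝ) ^ (j.1 + 1) with hR
  have key : ∀ n n' : ℕ, N < n → n ≤ n' → n' ≤ 2 * N →
      ⌊Q j * al τ j n⌋₊ = ⌊Q j * al τ j n'⌋₊ → n' - n < ⌈H⌉₊ := by
    intro n n' h1 h2 h3 h4
    have g := al_gap hτ j h1 h2 h3
    have a1 := Nat.floor_le (show 0 ≤ Q j * al τ j n' by rw [al]; positivity)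
    have a2 := Nat.lt_floor_add_one (Q j * al τ j n)
    rw [h4] at a2
    rw [Nat.lt_ceil, Nat.cast_sub h2, hH, lt_div_iff₀ (by positivity)]
    rw [div_le_iff₀ (by positivity)] at g
    have a3 : Q j * (al τ j n - al τ j n') < 1 := by linarith
    have a4 : (0 : ℝ) < (j + 1) * (2 * N) ^ (j.1 + 2) := by positivity
    nlinarith [mul_le_mul_of_nonneg_left g q0.le, mul_lt_mul_of_pos_right a3 a4]
  have c : #{n ∈ Ioc N M | an Q τ n = b} ≤ #(range (⌊R⌋₊ + 1) ×ˢ range ⌈H⌉₊) := by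
    refine card_le_card_of_injOn (fun n => (⌊Q j * al τ j n⌋₊ / Q j, n % ⌈H⌉₊)) ?_ ?_
    · intro n hn
      simp only [coe_filter, mem_Ioc, Set.mem_ofPred_eq] at hn
      simp only [coe_product, coe_range, Set.mem_prod, Set.mem_Iio]
      refine ⟨Nat.lt_succ_of_le (Nat.le_floor ?_), Nat.mod_lt _ (Nat.ceil_pos.2 H0)⟩
      have n1 : (N : ℝ) ≤ n := by exact_mod_cast hn.1.1.le
      refine Nat.cast_div_le.trans ?_
      rw [div_le_iff₀' q0]
      refine (Nat.floor_le (by rw [al]; positivity)).trans ?_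
      rw [al, hR]
      gcongr
      calc (N : ℝ) ^ (j.1 + 1) ≤ 1 * (n : ℝ) ^ (j.1 + 1) := by rw [one_mul]; gcongr
        _ ≤ _ := by gcongr; linarith [Nat.cast_nonneg (α := ℝ) j.1]
    · intro n hn n' hn' h
      simp only [coe_filter, mem_Ioc, Set.mem_ofPred_eq] at hn hn'
      simp only [Prod.mk.injEq] at h
      have h1 : ⌊Q j * al τ j n⌋₊ = ⌊Q j * al τ j n'⌋₊ := by
        have h2 := congrFun (hn.2.trans hn'.2.symm) j
        rw [← Nat.div_add_mod ⌊Q j * al τ j n⌋₊ (Q j), ← Nat.div_add_mod ⌊Q j * al τ j n'⌋₊ (Q j),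
          h.1]
        exact congrArg _ h2
      rcases le_total n n' with h3 | h3
      · have := Nat.eq_zero_of_dvd_of_lt ((Nat.modEq_iff_dvd' h3).1 h.2)
          (key n n' hn.1.1 h3 (by omega) h1)
        omega
      · have := Nat.eq_zero_of_dvd_of_lt ((Nat.modEq_iff_dvd' h3).1 h.2.symm)
          (key n' n hn'.1.1 h3 (by omega) h1.symm)
        omega
  rw [card_product, Finset.card_range, Finset.card_range] at c
  calc _ ≤ (((⌊R⌋₊ + 1) * ⌈H⌉₊ : ℕ) : ℝ) := by exact_mod_cast c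
    _ ≤ _ := by
      push_cast
      gcongr
      · exact Nat.floor_le (by positivity)
      · exact (Nat.ceil_lt_add_one H0.le).le

lemma shift (w : ℝ → ℂ) (hw : ∀ x, ‖w x‖ ≤ 1) {N M : ℕ} (h : N ≤ M) (m : ℕ) :
    ‖∑ n ∈ Ioc N M, w n - ∑ n ∈ Ioc N M, w ((n : ℝ) - m)‖ ≤ 2 * m := by
  induction m with
  | zero => simp
  | succ m ih =>
    have e : ∑ n ∈ Ioc N M, w ((n : ℝ) - m) - ∑ n ∈ Ioc N M, w ((n : ℝ) - (m + 1 : ℕ)) =
        w ((M : ℝ) - m) - w ((N : ℝ) - m) := by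
      clear ih
      induction M, h using Nat.le_induction with
      | base => simp
      | succ M h ih =>
        rw [sum_Ioc_succ_top h, sum_Ioc_succ_top h]
        push_cast at ih ⊢
        rw [show (M : ℝ) + 1 - (m + 1) = M - m by ring]
        linear_combination ih
    have := norm_sub_le_norm_sub_add_norm_sub (∑ n ∈ Ioc N M, w n)
      (∑ n ∈ Ioc N M, w ((n : ℝ) - m)) (∑ n ∈ Ioc N M, w ((n : ℝ) - (m + 1 : ℕ)))
    rw [e] at this
    have h1 := norm_sub_le (w ((M : ℝ) - m)) (w ((N : ℝ) - m))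
    have h2 := hw ((M : ℝ) - m)
    have h3 := hw ((N : ℝ) - m)
    push_cast at this ⊢
    linarith

lemma main1 (Q : Fin k → ℕ) (hQ : ∀ j, 0 < Q j) {τ : ℝ} (hτ : 0 ≤ τ) {N M P : ℕ} (h : N ≤ M)
    (hM : M ≤ 2 * N) (hP : 2 * P ≤ N) :
    P * ‖∑ n ∈ Ioc N M, ee (-(τ * log n))‖ ≤ ∑ n ∈ Ioc N M, ‖fA Q (an Q τ n) (range P)‖ + N * (P *
      (2 * π * (∑ j, (P : ℝ) ^ (j.1 + 1) / Q j + 2 * τ * ((P : ℝ) / N) ^ (k + 1)))) +
      P * (2 * P) := by
  set δ := 2 * π * (∑ j, (P : ℝ) ^ (j.1 + 1) / Q j + 2 * τ * ((P : ℝ) / N) ^ (k + 1)) with hδ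
  set S := ∑ n ∈ Ioc N M, ee (-(τ * log n)) with hS
  have a1 : ‖∑ m ∈ range P, (S - ∑ n ∈ Ioc N M, ee (-(τ * log ((n : ℝ) - m))))‖ ≤ P * (2 * P) := by
    refine (norm_sum_le_of_le _ (n := fun _ => 2 * (P : ℝ)) fun m hm => ?_).trans (by simp)
    refine (shift (fun x => ee (-(τ * log x))) (fun x => (norm_ee _).le) h m).trans ?_
    gcongr
    exact (mem_range.1 hm).le
  have a2 : ∀ n ∈ Ioc N M, ‖∑ m ∈ range P, ee (-(τ * log ((n : ℝ) - m)))‖ ≤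
      ‖fA Q (an Q τ n) (range P)‖ + P * δ := fun n hn => by
    have b : ‖∑ m ∈ range P, ee (-(τ * log ((n : ℝ) - m))) -
        ee (-(τ * log n)) * fA Q (an Q τ n) (range P)‖ ≤ P * δ := by
      rw [fA, mul_sum, ← sum_sub_distrib]
      exact (norm_sum_le_of_le _ fun m hm =>
        phase Q hQ hτ (mem_Ioc.1 hn).1 (mem_range.1 hm) hP).trans (by simp [hδ])
    have := norm_le_norm_add_norm_sub' (∑ m ∈ range P, ee (-(τ * log ((n : ℝ) - m))))
      (ee (-(τ * log n)) * fA Q (an Q τ n) (range P))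
    rw [norm_mul, norm_ee, one_mul] at this
    linarith
  have a3 := norm_sum_le_of_le _ a2
  rw [sum_sub_distrib, sum_const, Finset.card_range, sum_comm] at a1
  rw [sum_add_distrib, sum_const, Nat.card_Ioc, nsmul_eq_mul] at a3
  have a4 := norm_le_norm_add_norm_sub' (P • S)
    (∑ n ∈ Ioc N M, ∑ m ∈ range P, ee (-(τ * log ((n : ℝ) - m))))
  rw [nsmul_eq_mul, norm_mul, Complex.norm_natCast, ← nsmul_eq_mul P S] at a4
  have a5 : ((M - N : ℕ) : ℝ) * (P * δ) ≤ N * (P * δ) := by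
    gcongr
    omega
  linarith

lemma main2 (Q : Fin k → ℕ) (hQ0 : ∀ j, 0 < Q j) (τ : ℝ) {N M P s : ℕ} (hM : M ≤ 2 * N)
    (hQ : ∀ j, s * P ^ (j.1 + 1) < Q j) {ν : ℝ} (hν : ∀ b, (#{n ∈ Ioc N M | an Q τ n = b} : ℝ) ≤ ν)
    (hs : 1 ≤ s) : N * (∑ n ∈ Ioc N M, ‖fA Q (an Q τ n) (range P)‖) ^ (2 * s) ≤
      N ^ (2 * s) * (ν * ((∏ j, (Q j : ℝ)) * JA k s (range P))) := by
  obtain ⟨r, hr⟩ : ∃ r, 2 * s = r + 1 := ⟨2 * s - 1, by omega⟩
  have a1 := pow_sum_le_card_mul_sum_pow (s := Ioc N M)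
    (f := fun n => ‖fA Q (an Q τ n) (range P)‖) (fun a _ => norm_nonneg _) r
  have a2 : ∑ n ∈ Ioc N M, ‖fA Q (an Q τ n) (range P)‖ ^ (2 * s) ≤
      ν * ((∏ j, (Q j : ℝ)) * JA k s (range P)) := by
    rw [← sum_pow_eq Q s Subset.rfl hQ, mul_sum, ← sum_fiberwise_of_maps_to (t := Bx Q)
      (g := an Q τ) fun n _ => mem_piFinset.2 fun j => mem_range.2 (Nat.mod_lt _ (hQ0 j))]
    refine sum_le_sum fun b _ => ?_
    rw [Finset.sum_congr rfl (g := fun _ => ‖fA Q b (range P)‖ ^ (2 * s))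
      fun n hn => by rw [(mem_filter.1 hn).2], sum_const, nsmul_eq_mul]
    gcongr
    exact hν b
  have a3 : (#(Ioc N M) : ℝ) ≤ N := by rw [Nat.card_Ioc]; exact_mod_cast (by omega)
  rw [hr] at a2 ⊢
  calc _ ≤ (N : ℝ) * ((N : ℝ) ^ r * (ν * ((∏ j, (Q j : ℝ)) * JA k s (range P)))) := by
        gcongr
        refine a1.trans ?_
        gcongr
    _ = _ := by ring

lemma sum_succ_eq (k : ℕ) : ((∑ j : Fin k, (j.1 + 1) : ℕ) : ℝ) = k * (k + 1) / 2 := by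
  induction k with
  | zero => simp
  | succ k ih =>
    rw [Fin.sum_univ_castSucc]
    simp only [Fin.val_castSucc, Fin.val_last]
    rw [Nat.cast_add, ih]
    push_cast; ring

end Pool.Agent.Lib.MP_b09185_nt.Vin
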